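import Pool.Agent.Lib.MP_d3a5e5_co.Defs

set_option autoImplicit false

namespace QPl

open Finsupp SimpleGraph

theorem bd_single (g : GE) : bd (Finsupp.single g 1) = pt g.1 + pt (tgt g) := by
  simp [bd]

theorem bd_sqb (q : Pt) : bd (sqb q) = 0 := by
  unfold sqb
  rw [map_add, map_add, map_add, bd_single, bd_single, bd_single, bd_single]
  have h1 : tgt (q, false) = (q.1 + 1, q.2) := by simp [tgt]
  have h2 : tgt ((q.1, q.2 + 1), false) = (q.1 + 1, q.2 + 1) := by simp [tgt]
  have h3 : tgt (q, true) = (q.1, q.2 + 1) := by simp [tgt]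
  have h4 : tgt ((q.1 + 1, q.2), true) = (q.1 + 1, q.2 + 1) := by simp [tgt]
  rw [h1, h2, h3, h4]
  generalize pt (q.1 + 1, q.2) = b
  generalize pt (q.1, q.2 + 1) = c
  generalize pt (q.1 + 1, q.2 + 1) = d
  have e : pt q + b + (c + d) + (pt q + c + (b + d))
      = (pt q + pt q) + (b + b) + (c + c) + (d + d) := by abel
  show pt q + b + (c + d) + (pt q + c + (b + d)) = 0
  rw [e, ZModModule.add_self (pt q), ZModModule.add_self b, ZModModule.add_self c,
    ZModModule.add_self d]
  simp

theorem bd_bd2 (Q : C0) : bd (bd2 Q) = 0 := by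
  induction Q using Finsupp.induction_linear with
  | zero => simp
  | add f g hf hg => rw [map_add, map_add, hf, hg, add_zero]
  | single q c =>
    have h : bd2 (Finsupp.single q c) = c • sqb q := by simp [bd2]
    rw [h, map_smul, bd_sqb, smul_zero]

theorem II_single (g h : GE) : II (Finsupp.single g 1) (Finsupp.single h 1) = I0 g h := by
  simp [II]

theorem A1_aux1 (g : GE) (q : Pt) : II (Finsupp.single g 1) (sqb q)
    = (pt g.1 + pt (tgt g)) (q.1 + 1, q.2 + 1) := by
  unfold sqb
  rw [map_add, map_add, map_add, II_single, II_single, II_single, II_single]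
  obtain ⟨⟨x, y⟩, b⟩ := g
  obtain ⟨u, v⟩ := q
  cases b
  · simp only [I0, tgt, pt, Finsupp.add_apply, Finsupp.single_apply, Prod.mk.injEq, Bool.false_eq_true,
      if_false, false_and, true_and, and_false, or_false, false_or, and_true, reduceCtorEq]
    split_ifs <;> first | omega | rfl | simp
  · simp only [I0, tgt, pt, Finsupp.add_apply, Finsupp.single_apply, Prod.mk.injEq, Bool.false_eq_true,
      if_true, false_and, true_and, and_false, or_false, false_or, and_true, reduceCtorEq]
    split_ifs <;> first | omega | rfl | simp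

theorem II_sqb (β : C1) (q : Pt) : II β (sqb q) = bd β (q.1 + 1, q.2 + 1) := by
  induction β using Finsupp.induction_linear with
  | zero => simp
  | add f g hf hg => rw [map_add, map_add, LinearMap.add_apply, Finsupp.add_apply, hf, hg]
  | single g c =>
    have h : (Finsupp.single g c : C1) = c • Finsupp.single g 1 := by simp
    rw [h, map_smul, map_smul, LinearMap.smul_apply, Finsupp.smul_apply, A1_aux1, bd_single]

theorem II_bd2 (β : C1) (Q : C0) : II β (bd2 Q) = Q.sum (fun q a => a * bd β (q.1 + 1, q.2 + 1)) := by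
  unfold bd2
  rw [Finsupp.linearCombination_apply, Finsupp.sum, map_sum, Finsupp.sum]
  refine Finset.sum_congr rfl fun q _ => ?_
  rw [map_smul, II_sqb, smul_eq_mul]

end QPl
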