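import Pool.Agent.Lib.MP_d3a5e5_co.Defs

set_option autoImplicit false

namespace QPl

open Finsupp SimpleGraph

theorem bd2_apply_true (Q : C0) (z : Pt) : bd2 Q (z, true) = Q z + Q (z.1 - 1, z.2) := by
  induction Q using Finsupp.induction_linear with
  | zero => simp
  | add f g hf hg =>
    rw [map_add, Finsupp.add_apply, hf, hg, Finsupp.add_apply, Finsupp.add_apply]
    ring
  | single q c =>
    obtain ⟨a, b⟩ := q
    obtain ⟨x, y⟩ := z
    have e : (a + 1 = x ∧ b = y) ↔ (a = x - 1 ∧ b = y) := by omega
    simp only [bd2, Finsupp.linearCombination_single, Finsupp.smul_apply, sqb, Finsupp.add_apply,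
      Finsupp.single_apply, Prod.mk.injEq, smul_eq_mul, e, and_true, and_false, if_false,
      Bool.false_eq_true, zero_add]
    rw [mul_add, mul_ite, mul_ite, mul_one, mul_zero]

theorem bd2_apply_false (Q : C0) (z : Pt) : bd2 Q (z, false) = Q z + Q (z.1, z.2 - 1) := by
  induction Q using Finsupp.induction_linear with
  | zero => simp
  | add f g hf hg =>
    rw [map_add, Finsupp.add_apply, hf, hg, Finsupp.add_apply, Finsupp.add_apply]
    ring
  | single q c =>
    obtain ⟨a, b⟩ := q
    obtain ⟨x, y⟩ := z
    have e : (a = x ∧ b + 1 = y) ↔ (a = x ∧ b = y - 1) := by omega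
    simp only [bd2, Finsupp.linearCombination_single, Finsupp.smul_apply, sqb, Finsupp.add_apply,
      Finsupp.single_apply, Prod.mk.injEq, smul_eq_mul, e, and_true, and_false, if_false,
      Bool.true_eq_false, add_zero]
    rw [mul_add, mul_ite, mul_ite, mul_one, mul_zero]

theorem bd_apply (a : C1) (z : Pt) :
    bd a z = a (z, false) + a ((z.1 - 1, z.2), false) + (a (z, true) + a ((z.1, z.2 - 1), true)) := by
  induction a using Finsupp.induction_linear with
  | zero => simp
  | add f g hf hg =>
    rw [map_add, Finsupp.add_apply, hf, hg]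
    simp only [Finsupp.add_apply]
    ring
  | single q c =>
    obtain ⟨⟨a, b⟩, s⟩ := q
    obtain ⟨x, y⟩ := z
    cases s
    · have e : (a + 1 = x ∧ b = y) ↔ (a = x - 1 ∧ b = y) := by omega
      simp only [bd, Finsupp.linearCombination_single, Finsupp.smul_apply, pt, tgt, Finsupp.add_apply,
        Finsupp.single_apply, Prod.mk.injEq, smul_eq_mul, e, and_true, and_false, if_false,
        Bool.false_eq_true, add_zero]
      rw [mul_add, mul_ite, mul_ite, mul_one, mul_zero]
    · have e : (a = x ∧ b + 1 = y) ↔ (a = x ∧ b = y - 1) := by omega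
      simp only [bd, Finsupp.linearCombination_single, Finsupp.smul_apply, pt, tgt, Finsupp.add_apply,
        Finsupp.single_apply, Prod.mk.injEq, smul_eq_mul, e, and_true, and_false, if_false, if_true,
        Bool.true_eq_false, add_zero, zero_add]
      rw [mul_add, mul_ite, mul_ite, mul_one, mul_zero]

end QPl
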