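import Pool.Agent.Lib.MP_d3a5e5_co.A2

set_option autoImplicit false

namespace QPl

open Finsupp SimpleGraph

theorem exists_bd2 (a : C1) (h : bd a = 0) : ∃ Q : C0, bd2 Q = a := by
  classical
  obtain ⟨N, hN⟩ : ∃ N : ℤ, ∀ g : GE, a g ≠ 0 → |g.1.1| < N ∧ |g.1.2| < N := by
    refine ⟨∑ g ∈ a.support, (|g.1.1| + |g.1.2| + 1), fun g hg => ?_⟩
    have h1 := Finset.single_le_sum (f := fun g : GE => |g.1.1| + |g.1.2| + 1) (s := a.support)
      (fun g _ => by positivity) (Finsupp.mem_support_iff.2 hg)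
    have h2 := abs_nonneg g.1.1
    have h3 := abs_nonneg g.1.2
    constructor <;> linarith
  have hz : ∀ (x y : ℤ) (b : Bool), (N ≤ x ∨ x ≤ -N ∨ N ≤ y ∨ y ≤ -N) → a ((x, y), b) = 0 := by
    intro x y b hxy
    by_contra hcon
    obtain ⟨h1, h2⟩ := hN _ hcon
    simp only at h1 h2
    rw [abs_lt] at h1 h2
    omega
  have two : (2 : ZMod 2) = 0 := rfl
  obtain ⟨q, hq⟩ : ∃ q : ℤ → ℤ → ZMod 2, ∀ x y, q x y = ∑ x' ∈ Finset.Ioc x N, a ((x', y), true) :=
    ⟨_, fun _ _ => rfl⟩
  have q0 : ∀ x y, N ≤ x → q x y = 0 := by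
    intro x y hx
    rw [hq, Finset.Ioc_eq_empty (by omega), Finset.sum_empty]
  have q1 : ∀ x y, q x y + q (x - 1) y = a ((x, y), true) := by
    intro x y
    rcases le_or_gt x N with hx | hx
    · have h1 : Finset.Ioc (x - 1) N = insert x (Finset.Ioc x N) := by
        ext t
        simp only [Finset.mem_Ioc, Finset.mem_insert]
        omega
      rw [hq, hq, h1, Finset.sum_insert (by simp)]
      linear_combination (∑ x' ∈ Finset.Ioc x N, a ((x', y), true)) * two
    · rw [q0 x y hx.le, q0 (x - 1) y (by omega), hz x y true (Or.inl hx.le), add_zero]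
  have q4 : ∀ x y, (N ≤ y ∨ y ≤ -N) → q x y = 0 := by
    intro x y hy
    rw [hq]
    exact Finset.sum_eq_zero fun t _ => hz t y true (by omega)
  have q2n : ∀ (n : ℕ) (y : ℤ), q (N - n) y + q (N - n) (y - 1) + a ((N - n, y), false) = 0 := by
    intro n
    induction n with
    | zero =>
      intro y
      rw [Nat.cast_zero, sub_zero, q0 N y le_rfl, q0 N (y - 1) le_rfl, hz N y false (Or.inl le_rfl)]
      simp
    | succ n ih =>
      intro y
      have e : N - ((n + 1 : ℕ) : ℤ) = N - n - 1 := by push_cast; ring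
      rw [e]
      have h1 := q1 (N - n) y
      have h2 := q1 (N - n) (y - 1)
      have h3 := bd_apply a (N - n, y)
      rw [h, Finsupp.zero_apply] at h3
      simp only at h3
      have h4 := ih y
      linear_combination h1 + h2 - h3 - h4
  have q2 : ∀ x y, q x y + q x (y - 1) + a ((x, y), false) = 0 := by
    intro x y
    rcases le_or_gt x N with hx | hx
    · have h1 := q2n (N - x).toNat y
      have h2 : N - ((N - x).toNat : ℤ) = x := by omega
      rw [h2] at h1
      exact h1
    · rw [q0 x y hx.le, q0 x (y - 1) hx.le, hz x y false (Or.inl hx.le)]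
      simp
  have q3n : ∀ (x : ℤ), x ≤ -N → ∀ n : ℕ, q x (N - n) = 0 := by
    intro x hx n
    induction n with
    | zero =>
      rw [Nat.cast_zero, sub_zero]
      exact q4 x N (Or.inl le_rfl)
    | succ n ih =>
      have e : N - ((n + 1 : ℕ) : ℤ) = N - n - 1 := by push_cast; ring
      rw [e]
      have h1 := q2 x (N - n)
      rw [ih, hz x _ false (Or.inr (Or.inl hx)), zero_add, add_zero] at h1
      exact h1
  have q3 : ∀ (x : ℤ), x ≤ -N → ∀ y, q x y = 0 := by
    intro x hx y
    rcases le_or_gt y N with hy | hy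
    · have h1 := q3n x hx (N - y).toNat
      have h2 : N - ((N - y).toNat : ℤ) = y := by omega
      rw [h2] at h1
      exact h1
    · exact q4 x y (Or.inl hy.le)
  refine ⟨Finsupp.onFinset (Finset.Icc (-N) N ×ˢ Finset.Icc (-N) N) (fun z => q z.1 z.2) ?_, ?_⟩
  · rintro ⟨x, y⟩ hxy
    simp only at hxy
    rw [Finset.mem_product, Finset.mem_Icc, Finset.mem_Icc]
    simp only
    by_contra hcon
    apply hxy
    by_cases h1 : N ≤ x
    · exact q0 x y h1
    · by_cases h2 : x ≤ -N
      · exact q3 x h2 y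
      · exact q4 x y (by omega)
  · ext ⟨⟨x, y⟩, b⟩
    cases b
    · rw [bd2_apply_false, Finsupp.onFinset_apply, Finsupp.onFinset_apply]
      simp only
      have h1 := q2 x y
      linear_combination h1 - a ((x, y), false) * two
    · rw [bd2_apply_true, Finsupp.onFinset_apply, Finsupp.onFinset_apply]
      exact q1 x y

end QPl
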