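import Pool.Agent.Lib.MP_d3a5e5_co.A1
import Pool.Agent.Lib.MP_d3a5e5_co.A3

set_option autoImplicit false

namespace QPl

open Finsupp SimpleGraph

theorem II_closed (a b : C1) (ha : bd a = 0) (hb : bd b = 0) : II a b = 0 := by
  obtain ⟨Q, rfl⟩ := exists_bd2 b hb
  rw [II_bd2, ha]
  simp

/-- If the second chain is closed, the crossing form with a chain `a` depends on the boundary of `a` only. -/
theorem II_congr_left (a a' b : C1) (h : bd a = bd a') (hb : bd b = 0) : II a b = II a' b := by
  have h1 : II (a - a') b = 0 := by
    refine II_closed (a - a') b ?_ hb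
    rw [map_sub, h, sub_self]
  rw [map_sub, LinearMap.sub_apply] at h1
  exact sub_eq_zero.1 h1

/-- If the first chain is closed, the crossing form depends on the boundary of the second chain only. -/
theorem II_congr_right (a b b' : C1) (ha : bd a = 0) (h : bd b = bd b') : II a b = II a b' := by
  have h1 : II a (b - b') = 0 := by
    refine II_closed a (b - b') ha ?_
    rw [map_sub, h, sub_self]
  rw [map_sub] at h1
  exact sub_eq_zero.1 h1

end QPl
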