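import Pool.Agent.Lib.MP_d3a5e5_co.A1

set_option autoImplicit false

namespace QPl

open Finsupp SimpleGraph

theorem SuppIn.mono {K L : Set Pt} {a : C1} (h : SuppIn K a) (hKL : K ⊆ L) : SuppIn L a := by
  intro g hg
  exact ⟨hKL (h g hg).1, hKL (h g hg).2⟩

theorem SuppIn.add {K : Set Pt} {a b : C1} (ha : SuppIn K a) (hb : SuppIn K b) : SuppIn K (a + b) := by
  intro g hg
  rcases Finset.mem_union.1 (Finsupp.support_add hg) with h | h
  · exact ha g h
  · exact hb g h

theorem SuppIn.zero {K : Set Pt} : SuppIn K (0 : C1) := by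
  intro g hg
  simp at hg

theorem SuppIn.single {K : Set Pt} {g : GE} (h1 : g.1 ∈ K) (h2 : tgt g ∈ K) : SuppIn K (Finsupp.single g 1) := by
  intro g' hg'
  have h3 := Finsupp.support_single_subset hg'
  rw [Finset.mem_singleton] at h3
  subst h3
  exact ⟨h1, h2⟩

theorem A5_aux1 (g h : GE) (hne : tgt h ≠ g.1) : I0 g h = 0 := by
  unfold I0
  refine if_neg ?_
  rintro (⟨_, h2, h3⟩ | ⟨_, h2, h3⟩)
  · apply hne
    unfold tgt
    rw [if_pos h2, h3]
    ext <;> simp
  · apply hne
    unfold tgt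
    rw [if_neg (by rw [h2]; decide), h3]
    ext <;> simp

theorem A5_aux2 (a b : C1) :
    II a b = ∑ g ∈ a.support, a g * ∑ h ∈ b.support, b h * I0 g h := by
  unfold II
  rw [Finsupp.linearCombination_apply, Finsupp.sum, LinearMap.sum_apply]
  refine Finset.sum_congr rfl fun g _ => ?_
  rw [LinearMap.smul_apply, Finsupp.linearCombination_apply, Finsupp.sum, smul_eq_mul]
  rfl

theorem II_disj (a b : C1) (K L : Set Pt) (ha : SuppIn K a) (hb : SuppIn L b) (h : Disjoint K L) : II a b = 0 := by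
  rw [A5_aux2]
  refine Finset.sum_eq_zero fun g hg => ?_
  rw [Finset.sum_eq_zero, mul_zero]
  intro k hk
  rw [A5_aux1, mul_zero]
  intro heq
  exact Set.disjoint_left.1 h (ha g hg).1 (heq ▸ (hb k hk).2)

end QPl
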