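import Pool.Agent.Lib.MP_d3a5e5_co.A5

set_option autoImplicit false

namespace QPl

open Finsupp SimpleGraph

theorem GAdj.edge {z w : Pt} (h : GAdj z w) : ∃ g : GE, (g.1 = z ∧ tgt g = w) ∨ (g.1 = w ∧ tgt g = z) := by
  obtain ⟨z1, z2⟩ := z
  obtain ⟨w1, w2⟩ := w
  rcases h with ⟨h1, h2 | h2⟩ | ⟨h1, h2 | h2⟩
  · simp only at h1 h2
    subst h1 h2
    exact ⟨((z1, w2), true), Or.inr ⟨rfl, by simp [tgt]⟩⟩
  · simp only at h1 h2
    subst h1 h2
    exact ⟨((z1, z2), true), Or.inl ⟨rfl, by simp [tgt]⟩⟩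
  · simp only at h1 h2
    subst h1 h2
    exact ⟨((w1, z2), false), Or.inr ⟨rfl, by simp [tgt]⟩⟩
  · simp only at h1 h2
    subst h1 h2
    exact ⟨((z1, z2), false), Or.inl ⟨rfl, by simp [tgt]⟩⟩

theorem GAdj.symm {z w : Pt} (h : GAdj z w) : GAdj w z := by
  unfold GAdj at *
  omega

theorem GAdj.not_far {z w : Pt} (h : GAdj z w) : ¬ Far z w := by
  unfold GAdj at h
  unfold Far
  rw [le_abs, le_abs]
  omega

theorem A6_aux_self (x : C0) : x + x = 0 := by
  ext i
  rw [Finsupp.add_apply, Finsupp.zero_apply]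
  exact CharTwo.add_self_eq_zero _

theorem GConn.chain {K : Set Pt} (hK : GConn K) {z w : Pt} (hz : z ∈ K) (hw : w ∈ K) :
    ∃ a : C1, SuppIn K a ∧ bd a = pt z + pt w := by
  have key : w ∈ K ∧ ∃ a : C1, SuppIn K a ∧ bd a = pt z + pt w := by
    have h := hK z hz w hw
    induction h with
    | refl =>
      refine ⟨hz, 0, ?_, ?_⟩
      · intro g hg
        simp at hg
      · rw [map_zero, A6_aux_self]
    | tail hb hbc ih =>
      rename_i b c
      by_cases hbK : b ∈ K
      · obtain ⟨hb', a, ha, hba⟩ := ih hbK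
        obtain ⟨g, hg⟩ := hbc.1.edge
        have hgK : g.1 ∈ K ∧ tgt g ∈ K := by
          rcases hg with ⟨h1, h2⟩ | ⟨h1, h2⟩
          · rw [h1, h2]; exact ⟨hb', hbc.2⟩
          · rw [h1, h2]; exact ⟨hbc.2, hb'⟩
        have hbd : bd (Finsupp.single g 1) = pt b + pt c := by
          rw [bd_single]
          rcases hg with ⟨h1, h2⟩ | ⟨h1, h2⟩
          · rw [h1, h2]
          · rw [h1, h2, add_comm]
        refine ⟨hbc.2, a + Finsupp.single g 1, ?_, ?_⟩
        · intro g' hg'
          rcases Finset.mem_union.1 (Finsupp.support_add hg') with h3 | h3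
          · exact ha g' h3
          · have h4 := Finsupp.support_single_subset h3
            rw [Finset.mem_singleton] at h4
            rw [h4]
            exact hgK
        · rw [map_add, hba, hbd]
          calc pt z + pt b + (pt b + pt c) = pt z + (pt b + pt b) + pt c := by abel
            _ = pt z + pt c := by rw [A6_aux_self, add_zero]
      · exfalso
        rcases Relation.ReflTransGen.cases_tail hb with h5 | ⟨d, -, h6⟩
        · exact hbK (h5 ▸ hz)
        · exact hbK h6.2
  exact key.2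

end QPl
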