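import Pool.Agent.Lib.MP_d3a5e5_co.A1
import Pool.Agent.Lib.MP_d3a5e5_co.A2

set_option autoImplicit false

namespace QPl

open Finsupp SimpleGraph

/-- the squares with a corner in `U` -/
private noncomputable def B1_Q (U : Finset Pt) : Finset Pt :=
  U.biUnion (fun w => ({w.1 - 1, w.1} : Finset ℤ) ×ˢ ({w.2 - 1, w.2} : Finset ℤ))

private theorem B1_mem (U : Finset Pt) (q : Pt) :
    q ∈ B1_Q U ↔ ∃ w ∈ U, (w.1 = q.1 ∨ w.1 = q.1 + 1) ∧ (w.2 = q.2 ∨ w.2 = q.2 + 1) := by
  unfold B1_Q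
  simp only [Finset.mem_biUnion, Finset.mem_product, Finset.mem_insert, Finset.mem_singleton]
  constructor
  · rintro ⟨w, hw, h1, h2⟩
    exact ⟨w, hw, by omega, by omega⟩
  · rintro ⟨w, hw, h1, h2⟩
    exact ⟨w, hw, by omega, by omega⟩

private noncomputable def B1_Q0 (U : Finset Pt) : C0 :=
  Finsupp.indicator (B1_Q U) (fun _ _ => (1 : ZMod 2))

open Classical in
private theorem B1_Q0_apply (U : Finset Pt) (z : Pt) : B1_Q0 U z = if z ∈ B1_Q U then 1 else 0 := by
  unfold B1_Q0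
  rw [Finsupp.indicator_apply]
  by_cases h : z ∈ B1_Q U
  · simp [h]
  · simp [h]

private theorem B1_support (U : Finset Pt) : (B1_Q0 U).support ⊆ B1_Q U := by
  classical
  intro z hz
  rw [Finsupp.mem_support_iff, B1_Q0_apply] at hz
  by_contra h
  exact hz (if_neg h)

open Classical in
private theorem B1_sum (U : Finset Pt) (p : Pt) :
    ∑ q ∈ B1_Q U, pt p (q.1 + 1, q.2 + 1) = if (p.1 - 1, p.2 - 1) ∈ B1_Q U then 1 else 0 := by
  have h : ∀ q ∈ B1_Q U, pt p (q.1 + 1, q.2 + 1) =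
      if (p.1 - 1, p.2 - 1) = q then (1 : ZMod 2) else 0 := by
    intro q _
    unfold pt
    rw [Finsupp.single_apply]
    by_cases h1 : p = (q.1 + 1, q.2 + 1)
    · rw [if_pos h1, if_pos]
      rw [h1]
      simp
    · rw [if_neg h1, if_neg]
      intro h2
      apply h1
      rw [← h2]
      simp
  rw [Finset.sum_congr rfl h, Finset.sum_ite_eq]

private theorem B1_two (U : Finset Pt) (q1 q2 : Pt) (h : B1_Q0 U q1 + B1_Q0 U q2 ≠ 0) :
    (q1 ∈ B1_Q U ∨ q2 ∈ B1_Q U) ∧ ¬ (q1 ∈ B1_Q U ∧ q2 ∈ B1_Q U) := by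
  classical
  rw [B1_Q0_apply, B1_Q0_apply] at h
  by_cases h1 : q1 ∈ B1_Q U
  · by_cases h2 : q2 ∈ B1_Q U
    · rw [if_pos h1, if_pos h2] at h
      exact absurd (by decide) h
    · exact ⟨Or.inl h1, fun h3 => h2 h3.2⟩
  · by_cases h2 : q2 ∈ B1_Q U
    · exact ⟨Or.inr h2, fun h3 => h1 h3.1⟩
    · rw [if_neg h1, if_neg h2] at h
      exact absurd (by decide) h

private theorem B1_notFar {w z : Pt} (h1 : |w.1 - z.1| < 4) (h2 : |w.2 - z.2| < 4) : ¬ Far w z := by
  intro h
  rcases h with h | h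
  · omega
  · omega

theorem ring_chain (U : Finset Pt) (a0 : C1) (px pinf : Pt) (hbd : bd a0 = pt px + pt pinf)
    (hpx : px ∈ U) (hinf : ∀ z ∈ U, Far z pinf) :
    ∃ Z : C1, bd Z = 0 ∧ II a0 Z = 1 ∧
      ∀ g ∈ Z.support, (g.1 ∉ U ∧ ∃ w ∈ U, ¬ Far w g.1) ∧ (tgt g ∉ U ∧ ∃ w ∈ U, ¬ Far w (tgt g)) := by
  classical
  refine ⟨bd2 (B1_Q0 U), bd_bd2 _, ?_, ?_⟩
  · rw [II_bd2, Finsupp.sum_of_support_subset (B1_Q0 U) (B1_support U)
      (fun (q : Pt) (a : ZMod 2) => a * (bd a0) (q.1 + 1, q.2 + 1)) (fun q _ => zero_mul _)]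
    have h : ∀ q ∈ B1_Q U, B1_Q0 U q * bd a0 (q.1 + 1, q.2 + 1) =
        pt px (q.1 + 1, q.2 + 1) + pt pinf (q.1 + 1, q.2 + 1) := by
      intro q hq
      rw [B1_Q0_apply, if_pos hq, one_mul, hbd, Finsupp.add_apply]
    rw [Finset.sum_congr rfl h, Finset.sum_add_distrib, B1_sum, B1_sum]
    have h1 : (px.1 - 1, px.2 - 1) ∈ B1_Q U := by
      rw [B1_mem]
      exact ⟨px, hpx, Or.inr (by simp), Or.inr (by simp)⟩
    have h2 : (pinf.1 - 1, pinf.2 - 1) ∉ B1_Q U := by
      rw [B1_mem]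
      rintro ⟨w, hw, h3, h4⟩
      simp only at h3 h4
      refine B1_notFar ?_ ?_ (hinf w hw)
      · rw [abs_lt]
        omega
      · rw [abs_lt]
        omega
    rw [if_pos h1, if_neg h2, add_zero]
  · rintro ⟨z, b⟩ hg
    rw [Finsupp.mem_support_iff] at hg
    cases b with
    | true =>
      rw [bd2_apply_true] at hg
      obtain ⟨h1, h2⟩ := B1_two U _ _ hg
      have ht : tgt (z, true) = (z.1, z.2 + 1) := by simp [tgt]
      rw [ht]
      have hex : ∃ w ∈ U, |w.1 - z.1| ≤ 1 ∧ (w.2 = z.2 ∨ w.2 = z.2 + 1) := by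
        rcases h1 with h | h
        · obtain ⟨w, hw, h3, h4⟩ := (B1_mem U _).1 h
          refine ⟨w, hw, ?_, h4⟩
          rw [abs_le]
          omega
        · obtain ⟨w, hw, h3, h4⟩ := (B1_mem U _).1 h
          simp only at h3 h4
          refine ⟨w, hw, ?_, h4⟩
          rw [abs_le]
          omega
      obtain ⟨w, hw, h3, h4⟩ := hex
      rw [abs_le] at h3
      refine ⟨⟨?_, w, hw, ?_⟩, ?_, w, hw, ?_⟩
      · intro hz
        apply h2
        constructor
        · exact (B1_mem U _).2 ⟨z, hz, Or.inl rfl, Or.inl rfl⟩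
        · exact (B1_mem U _).2 ⟨z, hz, Or.inr (by simp), Or.inl rfl⟩
      · refine B1_notFar ?_ ?_
        · simp only
          rw [abs_lt]
          omega
        · simp only
          rw [abs_lt]
          omega
      · intro hz
        apply h2
        constructor
        · exact (B1_mem U _).2 ⟨_, hz, Or.inl rfl, Or.inr rfl⟩
        · exact (B1_mem U _).2 ⟨_, hz, Or.inr (by simp), Or.inr rfl⟩
      · refine B1_notFar ?_ ?_
        · simp only
          rw [abs_lt]
          omega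
        · simp only
          rw [abs_lt]
          omega
    | false =>
      rw [bd2_apply_false] at hg
      obtain ⟨h1, h2⟩ := B1_two U _ _ hg
      have ht : tgt (z, false) = (z.1 + 1, z.2) := by simp [tgt]
      rw [ht]
      have hex : ∃ w ∈ U, |w.2 - z.2| ≤ 1 ∧ (w.1 = z.1 ∨ w.1 = z.1 + 1) := by
        rcases h1 with h | h
        · obtain ⟨w, hw, h3, h4⟩ := (B1_mem U _).1 h
          refine ⟨w, hw, ?_, h3⟩
          rw [abs_le]
          omega
        · obtain ⟨w, hw, h3, h4⟩ := (B1_mem U _).1 h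
          simp only at h3 h4
          refine ⟨w, hw, ?_, h3⟩
          rw [abs_le]
          omega
      obtain ⟨w, hw, h3, h4⟩ := hex
      rw [abs_le] at h3
      refine ⟨⟨?_, w, hw, ?_⟩, ?_, w, hw, ?_⟩
      · intro hz
        apply h2
        constructor
        · exact (B1_mem U _).2 ⟨z, hz, Or.inl rfl, Or.inl rfl⟩
        · exact (B1_mem U _).2 ⟨z, hz, Or.inl rfl, Or.inr (by simp)⟩
      · refine B1_notFar ?_ ?_
        · simp only
          rw [abs_lt]
          omega
        · simp only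
          rw [abs_lt]
          omega
      · intro hz
        apply h2
        constructor
        · exact (B1_mem U _).2 ⟨_, hz, Or.inr rfl, Or.inl rfl⟩
        · exact (B1_mem U _).2 ⟨_, hz, Or.inr rfl, Or.inr (by simp)⟩
      · refine B1_notFar ?_ ?_
        · simp only
          rw [abs_lt]
          omega
        · simp only
          rw [abs_lt]
          omega

end QPl
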