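import Pool.Agent.Lib.MP_d3a5e5_co.B1
import Pool.Agent.Lib.MP_d3a5e5_co.A4
import Pool.Agent.Lib.MP_d3a5e5_co.A6

set_option autoImplicit false

namespace QPl

open Finsupp SimpleGraph

theorem B2_aux1 (L : C1 →ₗ[ZMod 2] ZMod 2) (Z : C1) :
    L Z = Z.sum (fun g a => a * L (Finsupp.single g 1)) := by
  conv_lhs => rw [← Finsupp.sum_single Z]
  rw [map_finsuppSum]
  refine Finsupp.sum_congr fun g _ => ?_
  have h : (Finsupp.single g (Z g) : C1) = (Z g) • Finsupp.single g 1 := by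
    rw [Finsupp.smul_single, smul_eq_mul, mul_one]
  rw [h, map_smul, smul_eq_mul]

theorem B2_aux2 (c : C0) : c + c = 0 := by
  ext z
  rw [Finsupp.add_apply, Finsupp.zero_apply]
  exact CharTwo.add_self_eq_zero _

/-- a closed chain restricted to a union of components is closed -/
theorem B2_aux3 (Z : C1) (hZ : bd Z = 0) (good : Pt → Prop)
    (hg : ∀ g ∈ Z.support, (good g.1 ↔ good (tgt g))) (Z' : C1)
    (h1 : ∀ g, good g.1 → Z' g = Z g) (h2 : ∀ g, ¬ good g.1 → Z' g = 0) : bd Z' = 0 := by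
  have key1 : ∀ g, good (tgt g) → Z' g = Z g := by
    intro g hgood
    by_cases hs : g ∈ Z.support
    · exact h1 g ((hg g hs).mpr hgood)
    · have hz : Z g = 0 := Finsupp.notMem_support_iff.mp hs
      by_cases h3 : good g.1
      · exact h1 g h3
      · rw [h2 g h3, hz]
  have key2 : ∀ g, ¬ good (tgt g) → Z' g = 0 := by
    intro g hgood
    by_cases hs : g ∈ Z.support
    · exact h2 g (fun h3 => hgood ((hg g hs).mp h3))
    · have hz : Z g = 0 := Finsupp.notMem_support_iff.mp hs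
      by_cases h3 : good g.1
      · rw [h1 g h3, hz]
      · exact h2 g h3
  ext z
  have hz0 : bd Z z = 0 := by rw [hZ]; rfl
  rw [bd_apply] at hz0 ⊢
  have t1 : tgt ((z.1 - 1, z.2), false) = z := by
    simp [tgt]
  have t2 : tgt ((z.1, z.2 - 1), true) = z := by
    simp [tgt]
  by_cases hgz : good z
  · rw [h1 (z, false) hgz, h1 (z, true) hgz, key1 ((z.1 - 1, z.2), false) (by rw [t1]; exact hgz),
      key1 ((z.1, z.2 - 1), true) (by rw [t2]; exact hgz), hz0]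
    rfl
  · rw [h2 (z, false) hgz, h2 (z, true) hgz, key2 ((z.1 - 1, z.2), false) (by rw [t1]; exact hgz),
      key2 ((z.1, z.2 - 1), true) (by rw [t2]; exact hgz)]
    simp

theorem grid_contra {ι : Type} (All : Set ι) (hAll : All.Finite) (K : ι → Finset Pt) (X : ι → ι → Prop)
    (sep : ∀ e ∈ All, ∀ f ∈ All, ¬ X e f → ∀ z ∈ K e, ∀ w ∈ K f, Far z w)
    (conn : ∀ f ∈ All, GConn (K f : Set Pt)) (In : Set ι) (hIn : In ⊆ All) (a0 : C1)
    (ha0 : SuppIn {z | ∃ e ∈ All, z ∈ K e} a0) (px pinf : Pt) (hbd : bd a0 = pt px + pt pinf)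
    (hpx : ∃ e ∈ In, px ∈ K e) (hinf : ∀ e ∈ In, ∀ z ∈ K e, Far z pinf)
    (P : ι → Pt) (hP : ∀ f ∈ All, P f ∈ K f) (g : ι → ZMod 2)
    (H : ∀ f ∈ All, ∀ f' ∈ All, f ∉ In → f' ∉ In → (∃ e ∈ In, X e f) → (∃ e ∈ In, X e f') →
      ∀ σ : C1, bd σ = pt (P f) + pt (P f') →
        SuppIn ({z | ∀ e ∈ All, z ∉ K e} ∪ ((K f : Set Pt) ∪ (K f' : Set Pt))) σ → II a0 σ = g f + g f') :
    False := by
  classical
  set Free : Set Pt := {z | ∀ e ∈ All, z ∉ K e} with hFree
  have hInfin : In.Finite := hAll.subset hIn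
  set U : Finset Pt := hInfin.toFinset.biUnion K with hU
  have memU : ∀ z, z ∈ U ↔ ∃ e ∈ In, z ∈ K e := by
    intro z
    simp [hU]
  obtain ⟨Z, hZ0, hZ1, hZs⟩ := ring_chain U a0 px pinf hbd ((memU px).mpr hpx)
    (fun z hz => by
      obtain ⟨e, he, hze⟩ := (memU z).mp hz
      exact hinf e he z hze)

  have hlayer : ∀ z, (z ∉ U ∧ ∃ w ∈ U, ¬ Far w z) → ∀ f ∈ All, z ∈ K f →
      (f ∉ In ∧ ∃ e ∈ In, X e f) := by
    rintro z ⟨hzU, w, hwU, hfar⟩ f hf hzf
    refine ⟨fun hfIn => hzU ((memU z).mpr ⟨f, hfIn, hzf⟩), ?_⟩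
    obtain ⟨e, he, hwe⟩ := (memU w).mp hwU
    refine ⟨e, he, ?_⟩
    by_contra hX
    exact hfar (sep e (hIn he) f hf hX w hwe z hzf)
  set good : Pt → Prop := fun z => ∃ f, (f ∈ All ∧ f ∉ In ∧ ∃ e ∈ In, X e f) ∧ ∃ τ : C1,
    bd τ = pt (P f) + pt z ∧ SuppIn (Free ∪ (K f : Set Pt)) τ ∧ z ∈ Free ∪ (K f : Set Pt) with hgood
  have hL1 : ∀ z, (z ∉ U ∧ ∃ w ∈ U, ¬ Far w z) → z ∉ Free → good z := by
    intro z hz hzF
    have hex : ∃ f ∈ All, z ∈ K f := by
      by_contra hcon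
      push Not at hcon
      exact hzF hcon
    obtain ⟨f, hf, hzf⟩ := hex
    obtain ⟨τ, hτs, hτb⟩ := GConn.chain (conn f hf) (z := P f) (w := z) (hP f hf) hzf
    refine ⟨f, ⟨hf, hlayer z hz f hf hzf⟩, τ, hτb, hτs.mono Set.subset_union_right, Or.inr hzf⟩
  have hL2 : ∀ g ∈ Z.support, (good g.1 ↔ good (tgt g)) := by
    intro g hg
    obtain ⟨hg1, hg2⟩ := hZs g hg
    constructor
    · rintro ⟨f, hf, τ, hτb, hτs, hzF⟩
      by_cases hF : tgt g ∈ Free
      · refine ⟨f, hf, τ + Finsupp.single g 1, ?_, hτs.add (SuppIn.single hzF (Or.inl hF)), Or.inl hF⟩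
        rw [map_add, hτb, bd_single]
        calc pt (P f) + pt g.1 + (pt g.1 + pt (tgt g)) = pt (P f) + (pt g.1 + pt g.1) + pt (tgt g) := by abel
          _ = pt (P f) + pt (tgt g) := by rw [B2_aux2, add_zero]
      · exact hL1 _ hg2 hF
    · rintro ⟨f, hf, τ, hτb, hτs, hzF⟩
      by_cases hF : g.1 ∈ Free
      · refine ⟨f, hf, τ + Finsupp.single g 1, ?_, hτs.add (SuppIn.single (Or.inl hF) hzF), Or.inl hF⟩
        rw [map_add, hτb, bd_single]
        calc pt (P f) + pt (tgt g) + (pt g.1 + pt (tgt g))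
            = pt (P f) + (pt (tgt g) + pt (tgt g)) + pt g.1 := by abel
          _ = pt (P f) + pt g.1 := by rw [B2_aux2, add_zero]
      · exact hL1 _ hg1 hF
  set Z' : C1 := Z.filter (fun g => good g.1) with hZ'
  set Z'' : C1 := Z.filter (fun g => ¬ good g.1) with hZ''
  have hsum : Z' + Z'' = Z := Finsupp.filter_add_filter_not Z _
  have hbd' : bd Z' = 0 := by
    refine B2_aux3 Z hZ0 good hL2 Z' ?_ ?_
    · intro g hg
      exact Finsupp.filter_apply_pos _ _ hg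
    · intro g hg
      exact Finsupp.filter_apply_neg _ _ hg
  have hII'' : II a0 Z'' = 0 := by
    refine II_disj a0 Z'' {z | ∃ e ∈ All, z ∈ K e} Free ha0 ?_ ?_
    · intro g hg
      rw [hZ'', Finsupp.support_filter, Finset.mem_filter] at hg
      obtain ⟨hgs, hgn⟩ := hg
      obtain ⟨hg1, hg2⟩ := hZs g hgs
      refine ⟨?_, ?_⟩
      · by_contra hF
        exact hgn (hL1 _ hg1 hF)
      · by_contra hF
        exact hgn ((hL2 g hgs).mpr (hL1 _ hg2 hF))
    · rw [Set.disjoint_left]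
      rintro z ⟨e, he, hze⟩ hzF
      exact hzF e he hze
  have hII' : II a0 Z' = 1 := by
    have h1 : II a0 Z = II a0 Z' + II a0 Z'' := by rw [← map_add, hsum]
    rw [hZ1, hII'', add_zero] at h1
    exact h1.symm

  obtain ⟨e0, he0, _⟩ := hpx
  have hch : ∀ z, ∃ (f : ι) (τ : C1), good z → ((f ∈ All ∧ f ∉ In ∧ ∃ e ∈ In, X e f) ∧
      bd τ = pt (P f) + pt z ∧ SuppIn (Free ∪ (K f : Set Pt)) τ ∧ z ∈ Free ∪ (K f : Set Pt)) := by
    intro z
    by_cases hz : good z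
    · obtain ⟨f, hf, τ, h1, h2, h3⟩ := hz
      exact ⟨f, τ, fun _ => ⟨hf, h1, h2, h3⟩⟩
    · exact ⟨e0, 0, fun h => absurd h hz⟩
  choose F T hFT using hch
  set h : Pt → ZMod 2 := fun z => II a0 (T z) + g (F z) with hh
  have hedge : ∀ x ∈ Z'.support, II a0 (Finsupp.single x 1) = h x.1 + h (tgt x) := by
    intro x hx
    rw [hZ', Finsupp.support_filter, Finset.mem_filter] at hx
    obtain ⟨hxs, hx1⟩ := hx
    have hx2 : good (tgt x) := (hL2 x hxs).mp hx1
    obtain ⟨hf1, hb1, hs1, hm1⟩ := hFT x.1 hx1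
    obtain ⟨hf2, hb2, hs2, hm2⟩ := hFT (tgt x) hx2
    have hbσ : bd (T x.1 + Finsupp.single x 1 + T (tgt x)) = pt (P (F x.1)) + pt (P (F (tgt x))) := by
      rw [map_add, map_add, hb1, hb2, bd_single]
      calc pt (P (F x.1)) + pt x.1 + (pt x.1 + pt (tgt x)) + (pt (P (F (tgt x))) + pt (tgt x))
          = pt (P (F x.1)) + pt (P (F (tgt x))) + (pt x.1 + pt x.1) + (pt (tgt x) + pt (tgt x)) := by abel
        _ = _ := by rw [B2_aux2, B2_aux2, add_zero, add_zero]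
    have hsub1 : Free ∪ (K (F x.1) : Set Pt) ⊆
        Free ∪ ((K (F x.1) : Set Pt) ∪ (K (F (tgt x)) : Set Pt)) :=
      Set.union_subset_union_right _ Set.subset_union_left
    have hsub2 : Free ∪ (K (F (tgt x)) : Set Pt) ⊆
        Free ∪ ((K (F x.1) : Set Pt) ∪ (K (F (tgt x)) : Set Pt)) :=
      Set.union_subset_union_right _ Set.subset_union_right
    have hsσ : SuppIn (Free ∪ ((K (F x.1) : Set Pt) ∪ (K (F (tgt x)) : Set Pt)))
        (T x.1 + Finsupp.single x 1 + T (tgt x)) :=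
      ((hs1.mono hsub1).add (SuppIn.single (hsub1 hm1) (hsub2 hm2))).add (hs2.mono hsub2)
    have hII := H (F x.1) hf1.1 (F (tgt x)) hf2.1 hf1.2.1 hf2.2.1 hf1.2.2 hf2.2.2 _ hbσ hsσ
    rw [map_add, map_add] at hII
    have e1 : II a0 (Finsupp.single x 1) =
        II a0 (T x.1) + II a0 (Finsupp.single x 1) + II a0 (T (tgt x)) + II a0 (T x.1) + II a0 (T (tgt x)) := by
      have e2 : II a0 (T x.1) + II a0 (Finsupp.single x 1) + II a0 (T (tgt x)) + II a0 (T x.1) + II a0 (T (tgt x))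
          = II a0 (Finsupp.single x 1) + (II a0 (T x.1) + II a0 (T x.1)) +
            (II a0 (T (tgt x)) + II a0 (T (tgt x))) := by abel
      rw [e2, CharTwo.add_self_eq_zero, CharTwo.add_self_eq_zero, add_zero, add_zero]
    rw [e1, hII]
    simp only [hh]
    abel
  have hZ's : II a0 Z' = 0 := by
    rw [B2_aux1 (II a0) Z']
    set hl : C0 →ₗ[ZMod 2] ZMod 2 := Finsupp.linearCombination (ZMod 2) h with hhl
    have hlpt : ∀ z, hl (pt z) = h z := by
      intro z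
      rw [hhl, pt, Finsupp.linearCombination_single, one_smul]
    have e1 : (hl.comp bd) Z' = 0 := by
      rw [LinearMap.comp_apply, hbd', map_zero]
    rw [B2_aux1 (hl.comp bd) Z'] at e1
    rw [← e1]
    refine Finsupp.sum_congr fun x hx => ?_
    rw [hedge x hx, LinearMap.comp_apply, bd_single, map_add, hlpt, hlpt]
  rw [hII'] at hZ's
  exact one_ne_zero hZ's

end QPl
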