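import Pool.Agent.Lib.MP_d3a5e5_co.D1

set_option autoImplicit false

namespace QPl

open Finsupp SimpleGraph

theorem C1_aux_far (z : Pt) : ¬ Far z z := by
  simp [Far]

theorem C1_aux_cover {V : Type} (T : Finset (Sym2 V)) :
    ∃ B : Finset V, ∀ e ∈ T, ∀ v ∈ e, v ∈ B := by
  classical
  induction T using Finset.induction_on with
  | empty => exact ⟨∅, fun e he => by simp at he⟩
  | insert e T _ ih =>
    obtain ⟨B, hB⟩ := ih
    induction e using Sym2.ind with
    | _ x y =>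
      refine ⟨B ∪ {x, y}, fun e' he' v hv => ?_⟩
      rcases Finset.mem_insert.1 he' with h | h
      · rw [h, Sym2.mem_iff] at hv
        simp only [Finset.mem_union, Finset.mem_insert, Finset.mem_singleton]
        exact Or.inr hv
      · exact Finset.mem_union_left _ (hB e' h v hv)

theorem C1_aux_EB {V : Type} {G : SimpleGraph V} {T : Finset (Sym2 V)} {B : Finset V}
    (hB : ∀ e ∈ T, ∀ v ∈ e, v ∈ B) {e : Sym2 V} (heT : e ∈ T) (he : e ∈ G.edgeSet) :
    e ∈ EB G (B : Set V) := ⟨he, fun v hv => hB e heT v hv⟩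

theorem TX_inc {V : Type} {G : SimpleGraph V} {k : ℕ} {ω : Dat V} (h : ω ∈ Om G k) {e f : Sym2 V} (he : e ∈ G.edgeSet)
    (hf : f ∈ G.edgeSet) {v : V} (hve : v ∈ e) (hvf : v ∈ f) : TX ω e f := by
  classical
  obtain ⟨B, hB⟩ := C1_aux_cover {e, f}
  obtain ⟨ρ⟩ := h B
  have he' := C1_aux_EB hB (by simp) he
  have hf' := C1_aux_EB hB (by simp) hf
  by_contra hne
  exact C1_aux_far _ (ρ.sep e he' f hf' hne (ρ.p v) (ρ.mem e he' v hve) (ρ.p v) (ρ.mem f hf' v hvf))

theorem TX_refl {V : Type} {G : SimpleGraph V} {k : ℕ} {ω : Dat V} (h : ω ∈ Om G k) {e : Sym2 V} (he : e ∈ G.edgeSet) : TX ω e e := by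
  induction e using Sym2.ind with
  | _ x y => exact TX_inc h he he (Sym2.mem_mk_left x y) (Sym2.mem_mk_left x y)

theorem TX_symm {V : Type} {G : SimpleGraph V} {k : ℕ} {ω : Dat V} (h : ω ∈ Om G k) {e f : Sym2 V} (he : e ∈ G.edgeSet)
    (hf : f ∈ G.edgeSet) (hef : TX ω e f) : TX ω f e := by
  classical
  obtain ⟨B, hB⟩ := C1_aux_cover {e, f}
  obtain ⟨ρ⟩ := h B
  have he' := C1_aux_EB hB (by simp) he
  have hf' := C1_aux_EB hB (by simp) hf
  obtain ⟨z, hze, hzf⟩ := ρ.touch e he' f hf' hef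
  by_contra hne
  exact C1_aux_far _ (ρ.sep f hf' e he' hne z hzf z hze)

theorem C1_aux_card {V : Type} {G : SimpleGraph V} {k : ℕ} {ω : Dat V} (h : ω ∈ Om G k) {e : Sym2 V} (he : e ∈ G.edgeSet)
    (T : Finset (Sym2 V)) (hT : (T : Set (Sym2 V)) ⊆ {f | f ∈ G.edgeSet ∧ TX ω e f}) : T.card ≤ k := by
  classical
  obtain ⟨B, hB⟩ := C1_aux_cover (insert e T)
  obtain ⟨ρ⟩ := h B
  have he' := C1_aux_EB hB (by simp) he
  refine le_trans ?_ (ρ.deg e he')
  rw [← Set.ncard_coe_finset T]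
  refine Set.ncard_le_ncard ?_ ((EB_finite G B.finite_toSet).subset (fun f hf => hf.1))
  intro f hf
  exact ⟨C1_aux_EB hB (Finset.mem_insert_of_mem hf) (hT hf).1, (hT hf).2⟩

theorem C1_aux_one {V : Type} {G : SimpleGraph V} {k : ℕ} {ω : Dat V} (h : ω ∈ Om G k) {e : Sym2 V} (he : e ∈ G.edgeSet) :
    {f | f ∈ G.edgeSet ∧ TX ω e f}.Finite ∧ {f | f ∈ G.edgeSet ∧ TX ω e f}.ncard ≤ k := by
  classical
  have hfin : {f | f ∈ G.edgeSet ∧ TX ω e f}.Finite := by
    by_contra hinf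
    obtain ⟨T, hT, hcard⟩ := Set.Infinite.exists_subset_card_eq hinf (k + 1)
    have := C1_aux_card h he T hT
    omega
  refine ⟨hfin, ?_⟩
  rw [Set.ncard_eq_toFinset_card _ hfin]
  exact C1_aux_card h he _ (by simp)

theorem C1_aux_TS {V : Type} {G : SimpleGraph V} {k : ℕ} {ω : Dat V} (h : ω ∈ Om G k) (T : Finset (Sym2 V)) :
    (T : Set (Sym2 V)) ⊆ G.edgeSet →
    (TS G ω (T : Set (Sym2 V))).Finite ∧ (TS G ω (T : Set (Sym2 V))).ncard ≤ k * T.card := by
  classical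
  induction T using Finset.induction_on with
  | empty =>
    intro _
    have : TS G ω ((∅ : Finset (Sym2 V)) : Set (Sym2 V)) = ∅ := by
      ext f
      simp [TS]
    rw [this]
    simp
  | insert e T heT ih =>
    intro hsub
    have he : e ∈ G.edgeSet := hsub (by simp)
    obtain ⟨h1, h2⟩ := ih (fun f hf => hsub (by simp at hf ⊢; exact Or.inr hf))
    obtain ⟨h3, h4⟩ := C1_aux_one h he
    have hU : TS G ω ((insert e T : Finset (Sym2 V)) : Set (Sym2 V)) =
        {f | f ∈ G.edgeSet ∧ TX ω e f} ∪ TS G ω (T : Set (Sym2 V)) := by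
      ext f
      constructor
      · rintro ⟨hf, e', he', hef⟩
        rw [Finset.mem_coe, Finset.mem_insert] at he'
        rcases he' with rfl | he'
        · exact Or.inl ⟨hf, hef⟩
        · exact Or.inr ⟨hf, e', he', hef⟩
      · rintro (⟨hf, hef⟩ | ⟨hf, e', he', hef⟩)
        · exact ⟨hf, e, by simp, hef⟩
        · exact ⟨hf, e', by rw [Finset.mem_coe, Finset.mem_insert]; exact Or.inr he', hef⟩
    rw [hU]
    refine ⟨h3.union h1, ?_⟩
    refine (Set.ncard_union_le _ _).trans ?_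
    rw [Finset.card_insert_of_notMem heT, mul_add, mul_one]
    omega

theorem TS_finite {V : Type} {G : SimpleGraph V} {k : ℕ} {ω : Dat V} (h : ω ∈ Om G k) {S : Set (Sym2 V)} (hS : S.Finite)
    (hSG : S ⊆ G.edgeSet) : (TS G ω S).Finite ∧ (TS G ω S).ncard ≤ k * S.ncard := by
  have h1 := C1_aux_TS h hS.toFinset (by simpa using hSG)
  rw [hS.coe_toFinset] at h1
  rw [Set.ncard_eq_toFinset_card _ hS]
  exact h1

end QPl
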