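import Pool.Agent.Lib.MP_d3a5e5_co.C1
import Pool.Agent.Lib.MP_d3a5e5_co.A4
import Pool.Agent.Lib.MP_d3a5e5_co.A5

set_option autoImplicit false

namespace QPl

open Finsupp SimpleGraph

theorem wv_append {V : Type} {G : SimpleGraph V} {u v x : V} (w : G.Walk u v) (w' : G.Walk v x) : wv (w.append w') = wv w + wv w' := by
  unfold wv
  rw [SimpleGraph.Walk.edges_append, List.map_append, List.sum_append]

theorem wv_reverse {V : Type} {G : SimpleGraph V} {u v : V} (w : G.Walk u v) : wv w.reverse = wv w := by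
  unfold wv
  rw [SimpleGraph.Walk.edges_reverse, List.map_reverse]
  exact (List.reverse_perm _).sum_eq

theorem wv_cons {V : Type} {G : SimpleGraph V} {u v x : V} (h : G.Adj u v) (w : G.Walk v x) :
    wv (SimpleGraph.Walk.cons h w) = Finsupp.single s(u, v) 1 + wv w := by
  unfold wv
  rw [SimpleGraph.Walk.edges_cons, List.map_cons, List.sum_cons]

theorem wv_support {V : Type} {G : SimpleGraph V} {u v : V} (w : G.Walk u v) {e : Sym2 V} (he : e ∈ (wv w).support) : e ∈ w.edges := by
  induction w with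
  | nil => simp [wv] at he
  | @cons a b c h w ih =>
    rw [SimpleGraph.Walk.edges_cons, List.mem_cons]
    by_contra hcon
    rw [not_or] at hcon
    rw [wv_cons, Finsupp.mem_support_iff, Finsupp.add_apply, Finsupp.single_eq_of_ne hcon.1, zero_add] at he
    exact hcon.2 (ih (Finsupp.mem_support_iff.2 he))

/-- The sum of the chains of two walks with the same ends is in the cycle space. -/
theorem wv_add_mem {V : Type} {G : SimpleGraph V} {u v : V} (w w' : G.Walk u v) : wv w + wv w' ∈ Zc G := by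
  rw [← wv_reverse w', ← wv_append]
  exact Submodule.subset_span ⟨u, _, rfl⟩

theorem Zc_supp {V : Type} {G : SimpleGraph V} {c : EC V} (hc : c ∈ Zc G) : (c.support : Set (Sym2 V)) ⊆ G.edgeSet := by
  have h1 : ∀ e, e ∉ G.edgeSet → c e = 0 := by
    unfold Zc at hc
    induction hc using Submodule.span_induction with
    | mem c hc =>
      obtain ⟨v, w, rfl⟩ := hc
      intro e he
      by_contra h2
      exact he (w.edges_subset_edgeSet (wv_support w (Finsupp.mem_support_iff.2 h2)))
    | zero => exact fun e _ => rfl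
    | add x y _ _ hx hy =>
      intro e he
      rw [Finsupp.add_apply, hx e he, hy e he, add_zero]
    | smul a x _ hx =>
      intro e he
      rw [Finsupp.smul_apply, hx e he, smul_zero]
  intro e he
  by_contra h2
  exact (Finsupp.mem_support_iff.1 he) (h1 e h2)

theorem C2_self0 (c : C0) : c + c = 0 := by
  ext z
  exact CharTwo.add_self_eq_zero _

theorem C2_lin_single {V : Type} {G : SimpleGraph V} {k : ℕ} {B : Finset V} {ω : Dat V} (ρ : GridRep G k B ω)
    (e : Sym2 V) : ρ.lin (Finsupp.single e 1) = ρ.a e := by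
  unfold GridRep.lin
  rw [Finsupp.linearCombination_single, one_smul]

theorem bd_lin_wv {V : Type} {G : SimpleGraph V} {k : ℕ} {B : Finset V} {ω : Dat V} (ρ : GridRep G k B ω) {u v : V} (w : G.Walk u v)
    (h : ∀ e ∈ w.edges, e ∈ EB G (B : Set V)) : bd (ρ.lin (wv w)) = pt (ρ.p u) + pt (ρ.p v) := by
  induction w with
  | nil =>
    rw [show wv (SimpleGraph.Walk.nil : G.Walk _ _) = 0 by simp [wv], map_zero, map_zero, C2_self0]
  | @cons a b c hab w ih =>
    rw [wv_cons, map_add, map_add, C2_lin_single,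
      ih (fun e he => h e (by rw [SimpleGraph.Walk.edges_cons]; exact List.mem_cons_of_mem _ he)),
      ρ.bdy a b (h _ (by rw [SimpleGraph.Walk.edges_cons]; exact List.mem_cons_self))]
    rw [show (pt (ρ.p a) + pt (ρ.p b) + (pt (ρ.p b) + pt (ρ.p c)) : C0) =
      pt (ρ.p a) + (pt (ρ.p b) + pt (ρ.p b)) + pt (ρ.p c) by abel, C2_self0, add_zero]

theorem II_lin {V : Type} {G : SimpleGraph V} {k : ℕ} {B : Finset V} {ω : Dat V} (ρ : GridRep G k B ω) {c c' : EC V}
    (h : InB G (B : Set V) c) (h' : InB G (B : Set V) c') : II (ρ.lin c) (ρ.lin c') = JJ ω c c' := by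
  have h1 : II (ρ.lin c) (ρ.lin c') =
      ∑ e ∈ c.support, ∑ f ∈ c'.support, c e * (c' f * II (ρ.a e) (ρ.a f)) := by
    simp only [GridRep.lin, Finsupp.linearCombination_apply, Finsupp.sum, map_sum, LinearMap.sum_apply,
      map_smul, LinearMap.smul_apply, smul_eq_mul]
    rw [Finset.sum_comm (s := c.support)]
    refine Finset.sum_congr rfl (fun f _ => ?_)
    rw [Finset.mul_sum]
    refine Finset.sum_congr rfl (fun e _ => ?_)
    ring
  have h2 : JJ ω c c' = ∑ e ∈ c.support, ∑ f ∈ c'.support, c e * (c' f * TJ ω e f) := by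
    unfold JJ
    simp only [Finsupp.linearCombination_apply, Finsupp.sum, LinearMap.sum_apply,
      LinearMap.smul_apply, smul_eq_mul, Finset.mul_sum]
  rw [h1, h2]
  refine Finset.sum_congr rfl (fun e he => Finset.sum_congr rfl (fun f hf => ?_))
  rw [ρ.cross e (h e he) f (h' f hf)]

/-- The vertex boundary of an edge chain. -/
noncomputable def C2_bdV (V : Type) : EC V →ₗ[ZMod 2] (V →₀ ZMod 2) :=
  Finsupp.linearCombination (ZMod 2) (fun e : Sym2 V =>
    Sym2.lift ⟨fun u v => (Finsupp.single u 1 + Finsupp.single v 1 : V →₀ ZMod 2), fun _ _ => add_comm _ _⟩ e)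

theorem C2_bdV_apply {V : Type} (L : (V →₀ ZMod 2) →ₗ[ZMod 2] C0) (c : EC V) :
    L (C2_bdV V c) = ∑ e ∈ c.support, c e • L (Sym2.lift
      ⟨fun u v => (Finsupp.single u 1 + Finsupp.single v 1 : V →₀ ZMod 2), fun _ _ => add_comm _ _⟩ e) := by
  rw [C2_bdV, Finsupp.linearCombination_apply, Finsupp.sum, map_sum]
  exact Finset.sum_congr rfl (fun e _ => map_smul _ _ _)

theorem C2_bdV_single {V : Type} (u v : V) :
    C2_bdV V (Finsupp.single s(u, v) 1) = Finsupp.single u 1 + Finsupp.single v 1 := by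
  unfold C2_bdV
  rw [Finsupp.linearCombination_single, one_smul, Sym2.lift_mk]

theorem C2_bdV_wv {V : Type} {G : SimpleGraph V} {u v : V} (w : G.Walk u v) :
    C2_bdV V (wv w) = Finsupp.single u 1 + Finsupp.single v 1 := by
  induction w with
  | nil =>
    rw [show wv (SimpleGraph.Walk.nil : G.Walk _ _) = 0 by simp [wv], map_zero]
    ext z
    exact (CharTwo.add_self_eq_zero _).symm
  | @cons a b c h w ih =>
    rw [wv_cons, map_add, C2_bdV_single, ih]
    have h1 : (Finsupp.single b 1 + Finsupp.single b 1 : V →₀ ZMod 2) = 0 := by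
      ext z
      exact CharTwo.add_self_eq_zero _
    rw [show (Finsupp.single a 1 + Finsupp.single b 1 + (Finsupp.single b 1 + Finsupp.single c 1) :
      V →₀ ZMod 2) = Finsupp.single a 1 + (Finsupp.single b 1 + Finsupp.single b 1) + Finsupp.single c 1 by
        abel, h1, add_zero]

theorem C2_bdV_Zc {V : Type} {G : SimpleGraph V} {c : EC V} (hc : c ∈ Zc G) : C2_bdV V c = 0 := by
  have h1 : Zc G ≤ LinearMap.ker (C2_bdV V) := by
    unfold Zc
    rw [Submodule.span_le]
    rintro c ⟨v, w, rfl⟩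
    rw [SetLike.mem_coe, LinearMap.mem_ker, C2_bdV_wv]
    ext z
    exact CharTwo.add_self_eq_zero _
  exact LinearMap.mem_ker.1 (h1 hc)

theorem lin_closed {V : Type} {G : SimpleGraph V} {k : ℕ} {B : Finset V} {ω : Dat V} (ρ : GridRep G k B ω) {c : EC V}
    (h : InB G (B : Set V) c) (hc : c ∈ Zc G) : bd (ρ.lin c) = 0 := by
  have h1 : bd (ρ.lin c) = Finsupp.linearCombination (ZMod 2) (fun v : V => pt (ρ.p v)) (C2_bdV V c) := by
    rw [C2_bdV_apply, GridRep.lin, Finsupp.linearCombination_apply, Finsupp.sum, map_sum]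
    refine Finset.sum_congr rfl (fun e he => ?_)
    rw [map_smul]
    congr 1
    have h2 := h e he
    induction e using Sym2.ind with
    | _ u v =>
      rw [ρ.bdy u v h2, Sym2.lift_mk, map_add, Finsupp.linearCombination_single,
        Finsupp.linearCombination_single, one_smul, one_smul]
  rw [h1, C2_bdV_Zc hc, map_zero]

theorem lin_supp {V : Type} {G : SimpleGraph V} {k : ℕ} {B : Finset V} {ω : Dat V} (ρ : GridRep G k B ω) {c : EC V}
    (h : InB G (B : Set V) c) : SuppIn {z | ∃ e ∈ c.support, z ∈ ρ.K e} (ρ.lin c) := by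
  intro g hg
  have h1 : ∃ e ∈ c.support, g ∈ (ρ.a e).support := by
    by_contra hcon
    push Not at hcon
    apply Finsupp.mem_support_iff.1 hg
    rw [GridRep.lin, Finsupp.linearCombination_apply]
    unfold Finsupp.sum
    rw [Finsupp.finsetSum_apply]
    refine Finset.sum_eq_zero (fun e he => ?_)
    rw [Finsupp.smul_apply, Finsupp.notMem_support_iff.1 (hcon e he), smul_zero]
  obtain ⟨e, he, hge⟩ := h1
  have h2 := ρ.supp e (h e he) g hge
  exact ⟨⟨e, he, h2.1⟩, ⟨e, he, h2.2⟩⟩

theorem C2_not_far (z : Pt) : ¬ Far z z := by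
  unfold Far
  simp

theorem TJ_zero {V : Type} {G : SimpleGraph V} {k : ℕ} {ω : Dat V} (h : ω ∈ Om G k) {e f : Sym2 V} (he : e ∈ G.edgeSet)
    (hf : f ∈ G.edgeSet) (hef : ¬ TX ω e f) : TJ ω e f = 0 := by
  classical
  obtain ⟨ρ⟩ := h (e.toFinset ∪ f.toFinset)
  have he1 : e ∈ EB G ((e.toFinset ∪ f.toFinset : Finset V) : Set V) :=
    ⟨he, fun v hv => by
      rw [Finset.mem_coe, Finset.mem_union, Sym2.mem_toFinset]
      exact Or.inl hv⟩
  have hf1 : f ∈ EB G ((e.toFinset ∪ f.toFinset : Finset V) : Set V) :=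
    ⟨hf, fun v hv => by
      rw [Finset.mem_coe, Finset.mem_union, Sym2.mem_toFinset, Sym2.mem_toFinset]
      exact Or.inr hv⟩
  rw [ρ.cross e he1 f hf1]
  refine II_disj _ _ _ _ (ρ.supp e he1) (ρ.supp f hf1) ?_
  rw [Set.disjoint_left]
  intro z hz hz'
  exact C2_not_far z (ρ.sep e he1 f hf1 hef z hz z hz')

theorem JJ_closed {V : Type} {G : SimpleGraph V} {k : ℕ} {ω : Dat V} (h : ω ∈ Om G k) {c c' : EC V} (hc : c ∈ Zc G)
    (hc' : c' ∈ Zc G) : JJ ω c c' = 0 := by
  classical
  obtain ⟨ρ⟩ := h ((c.support ∪ c'.support).biUnion Sym2.toFinset)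
  have h1 : InB G (((c.support ∪ c'.support).biUnion Sym2.toFinset : Finset V) : Set V) c := by
    intro e he
    refine ⟨Zc_supp hc he, fun v hv => ?_⟩
    rw [Finset.mem_coe, Finset.mem_biUnion]
    exact ⟨e, Finset.mem_union_left _ he, Sym2.mem_toFinset.2 hv⟩
  have h2 : InB G (((c.support ∪ c'.support).biUnion Sym2.toFinset : Finset V) : Set V) c' := by
    intro e he
    refine ⟨Zc_supp hc' he, fun v hv => ?_⟩
    rw [Finset.mem_coe, Finset.mem_biUnion]
    exact ⟨e, Finset.mem_union_right _ he, Sym2.mem_toFinset.2 hv⟩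
  rw [← II_lin ρ h1 h2]
  exact II_closed _ _ (lin_closed ρ h1 hc) (lin_closed ρ h2 hc')

end QPl
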