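import Pool.Agent.Lib.MP_d3a5e5_co.D1

set_option autoImplicit false

namespace QPl

open Finsupp SimpleGraph

theorem isOpen_local {V : Type} (U : Set (Dat V))
    (h : ∀ ω ∈ U, ∃ E : Finset (Sym2 V), ∀ ω' : Dat V, (∀ e ∈ E, ∀ f ∈ E, ω' e f = ω e f) → ω' ∈ U) : IsOpen U := by
  rw [isOpen_iff_forall_mem_open]
  intro ω hω
  obtain ⟨E, hE⟩ := h ω hω
  refine ⟨⋂ e ∈ E, ⋂ f ∈ E, {ω' : Dat V | ω' e f = ω e f}, ?_, ?_, ?_⟩
  · intro ω' h1
    refine hE ω' fun e he f hf => ?_
    simp only [Set.mem_iInter] at h1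
    exact h1 e he f hf
  · refine isOpen_biInter_finset fun e _ => isOpen_biInter_finset fun f _ => ?_
    have h2 : Continuous fun ω' : Dat V => ω' e f := continuous_apply_apply e f
    exact (isOpen_discrete ({ω e f} : Set (Bool × Bool))).preimage h2
  · simp only [Set.mem_iInter]
    intro e _ f _
    rfl

theorem C3_aux1 {V : Type} {G : SimpleGraph V} {k : ℕ} {B : Finset V} {ω ω' : Dat V}
    (h : ∀ e ∈ EB G (B : Set V), ∀ f ∈ EB G (B : Set V), ω' e f = ω e f) (hr : Nonempty (GridRep G k B ω)) :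
    Nonempty (GridRep G k B ω') := by
  obtain ⟨ρ⟩ := hr
  have hT : ∀ e ∈ EB G (B : Set V), ∀ f ∈ EB G (B : Set V), (TX ω' e f ↔ TX ω e f) := by
    intro e he f hf
    unfold TX
    rw [h e he f hf]
  refine ⟨{ p := ρ.p, K := ρ.K, a := ρ.a, inj := ρ.inj, mem := ρ.mem, conn := ρ.conn, supp := ρ.supp,
            bdy := ρ.bdy, touch := ?_, sep := ?_, cross := ?_, deg := ?_ }⟩
  · intro e he f hf ht
    exact ρ.touch e he f hf ((hT e he f hf).1 ht)
  · intro e he f hf ht
    exact ρ.sep e he f hf (fun h' => ht ((hT e he f hf).2 h'))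
  · intro e he f hf
    rw [← ρ.cross e he f hf]
    unfold TJ
    rw [h e he f hf]
  · intro e he
    have h1 : {f | f ∈ EB G (B : Set V) ∧ TX ω' e f} = {f | f ∈ EB G (B : Set V) ∧ TX ω e f} := by
      ext f
      constructor
      · rintro ⟨hf, ht⟩
        exact ⟨hf, (hT e he f hf).1 ht⟩
      · rintro ⟨hf, ht⟩
        exact ⟨hf, (hT e he f hf).2 ht⟩
    rw [h1]
    exact ρ.deg e he

theorem C3_aux2 {V : Type} {G : SimpleGraph V} (φ : G ≃g G) {B B' : Set V} (h : ∀ v ∈ B, φ v ∈ B')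
    {e : Sym2 V} (he : e ∈ EB G B) : e.map φ ∈ EB G B' := by
  obtain ⟨h1, h2⟩ := he
  refine ⟨φ.map_mem_edgeSet_iff.2 h1, fun v hv => ?_⟩
  obtain ⟨u, hu, rfl⟩ := Sym2.mem_map.1 hv
  exact h u (h2 u hu)

theorem rep_closed {V : Type} (G : SimpleGraph V) (k : ℕ) (B : Finset V) : IsClosed {ω : Dat V | Nonempty (GridRep G k B ω)} := by
  rw [← isOpen_compl_iff]
  refine isOpen_local _ fun ω hω => ⟨(EB_finite G B.finite_toSet).toFinset, fun ω' h1 h2 => hω ?_⟩
  refine C3_aux1 (fun e he f hf => ?_) h2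
  exact (h1 e ((Set.Finite.mem_toFinset _).2 he) f ((Set.Finite.mem_toFinset _).2 hf)).symm

theorem rep_restrict {V : Type} {G : SimpleGraph V} {k : ℕ} {B B' : Finset V} (h : B ⊆ B') {ω : Dat V} (hB : Nonempty (GridRep G k B' ω)) :
    Nonempty (GridRep G k B ω) := by
  obtain ⟨ρ⟩ := hB
  have hs : EB G (B : Set V) ⊆ EB G (B' : Set V) := EB_mono G (Finset.coe_subset.2 h)
  refine ⟨{ p := ρ.p, K := ρ.K, a := ρ.a, inj := ρ.inj.mono (Finset.coe_subset.2 h),
            mem := fun e he => ρ.mem e (hs he), conn := fun e he => ρ.conn e (hs he),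
            supp := fun e he => ρ.supp e (hs he), bdy := fun u v he => ρ.bdy u v (hs he),
            touch := fun e he f hf => ρ.touch e (hs he) f (hs hf),
            sep := fun e he f hf => ρ.sep e (hs he) f (hs hf),
            cross := fun e he f hf => ρ.cross e (hs he) f (hs hf), deg := ?_ }⟩
  intro e he
  refine (Set.ncard_le_ncard ?_ ?_).trans (ρ.deg e (hs he))
  · rintro f ⟨hf, ht⟩
    exact ⟨hs hf, ht⟩
  · exact (EB_finite G B'.finite_toSet).subset fun f hf => hf.1

theorem Om_closed {V : Type} (G : SimpleGraph V) (k : ℕ) : IsClosed (Om G k) := by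
  have h1 : Om G k = ⋂ B : Finset V, {ω : Dat V | Nonempty (GridRep G k B ω)} := by
    ext ω
    rw [Set.mem_iInter]
    rfl
  rw [h1]
  exact isClosed_iInter fun B => rep_closed G k B

theorem Om_act {V : Type} {G : SimpleGraph V} {k : ℕ} (φ : G ≃g G) {ω : Dat V} (h : ω ∈ Om G k) : act φ ω ∈ Om G k := by
  classical
  intro B
  obtain ⟨ρ⟩ := h (B.image φ.symm)
  have hs : ∀ v ∈ (B : Set V), φ.symm v ∈ ((B.image φ.symm : Finset V) : Set V) := fun v hv =>
    Finset.mem_coe.2 (Finset.mem_image_of_mem _ (Finset.mem_coe.1 hv))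
  have key : ∀ e ∈ EB G (B : Set V), e.map φ.symm ∈ EB G ((B.image φ.symm : Finset V) : Set V) :=
    fun e he => C3_aux2 φ.symm hs he
  refine ⟨{ p := fun v => ρ.p (φ.symm v), K := fun e => ρ.K (e.map φ.symm),
            a := fun e => ρ.a (e.map φ.symm), inj := ?_, mem := ?_,
            conn := fun e he => ρ.conn _ (key e he), supp := fun e he => ρ.supp _ (key e he),
            bdy := ?_, touch := fun e he f hf => ρ.touch _ (key e he) _ (key f hf),
            sep := fun e he f hf => ρ.sep _ (key e he) _ (key f hf),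
            cross := fun e he f hf => ρ.cross _ (key e he) _ (key f hf), deg := ?_ }⟩
  · intro u hu v hv huv
    exact φ.symm.injective (ρ.inj (hs u hu) (hs v hv) huv)
  · intro e he v hv
    exact ρ.mem _ (key e he) _ (Sym2.mem_map.2 ⟨v, hv, rfl⟩)
  · intro u v he
    have h1 := key _ he
    rw [Sym2.map_mk] at h1 ⊢
    exact ρ.bdy _ _ h1
  · intro e he
    refine (Set.ncard_le_ncard_of_injOn (fun f => f.map φ.symm) ?_ ?_ ?_).trans (ρ.deg _ (key e he))
    · rintro f ⟨hf, ht⟩
      exact ⟨key f hf, ht⟩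
    · exact (Sym2.map.injective φ.symm.injective).injOn
    · exact (EB_finite G (Finset.finite_toSet _)).subset fun f hf => hf.1

theorem act_symm_act {V : Type} {G : SimpleGraph V} (φ : G ≃g G) (ω : Dat V) : act φ.symm (act φ ω) = ω := by
  funext e f
  unfold act
  have h1 : ∀ e : Sym2 V, (e.map φ.symm.symm).map φ.symm = e := by
    intro e
    rw [Sym2.map_map]
    have h2 : (φ.symm ∘ φ.symm.symm : V → V) = id := by
      funext v
      exact φ.symm_apply_apply v
    rw [h2, Sym2.map_id, id]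
  rw [h1, h1]

theorem act_act {V : Type} {G : SimpleGraph V} (φ ψ : G ≃g G) (ω : Dat V) : act φ (act ψ ω) = act (ψ.trans φ) ω := by
  funext e f
  unfold act
  have h1 : ∀ e : Sym2 V, (e.map φ.symm).map ψ.symm = e.map (ψ.trans φ).symm := by
    intro e
    rw [Sym2.map_map]
    rfl
  rw [h1, h1]

theorem act_continuous {V : Type} {G : SimpleGraph V} (φ : G ≃g G) : Continuous (act φ) := by
  exact continuous_pi fun e => continuous_pi fun f => continuous_apply_apply _ _

end QPl
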