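import Pool.Agent.Lib.MP_d3a5e5_co.C3

set_option autoImplicit false

namespace QPl

open Finsupp SimpleGraph

theorem exists_isMin {V : Type} (G : SimpleGraph V) (k : ℕ) (h : (Om G k).Nonempty) : ∃ M, IsMin G k M := by
  have H : ∀ c ⊆ {M : Set (Dat V) | IsClosed M ∧ M.Nonempty ∧ M ⊆ Om G k ∧ Inv G M},
      IsChain (· ⊆ ·) c → c.Nonempty →
        ∃ lb ∈ {M : Set (Dat V) | IsClosed M ∧ M.Nonempty ∧ M ⊆ Om G k ∧ Inv G M}, ∀ s ∈ c, lb ⊆ s := by
    intro c hcS hc hcn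
    refine ⟨⋂₀ c, ⟨?_, ?_, ?_, ?_⟩, fun s hs => Set.sInter_subset_of_mem hs⟩
    · exact isClosed_sInter fun s hs => (hcS hs).1
    · have hn : Nonempty c := hcn.to_subtype
      refine IsCompact.nonempty_sInter_of_directed_nonempty_isCompact_isClosed ?_
        (fun s hs => (hcS hs).2.1) (fun s hs => (hcS hs).1.isCompact) (fun s hs => (hcS hs).1)
      intro a ha b hb
      rcases hc.total ha hb with h1 | h1
      · exact ⟨a, ha, le_rfl, h1⟩
      · exact ⟨b, hb, h1, le_rfl⟩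
    · obtain ⟨s, hs⟩ := hcn
      exact (Set.sInter_subset_of_mem hs).trans (hcS hs).2.2.1
    · intro φ ω hω
      rw [Set.mem_sInter] at hω ⊢
      exact fun s hs => (hcS hs).2.2.2 φ ω (hω s hs)
  obtain ⟨m, hm1, hm2⟩ := zorn_superset_nonempty _ H (Om G k)
    ⟨Om_closed G k, h, le_rfl, fun φ ω hω => Om_act φ hω⟩
  obtain ⟨⟨h1, h2, h3, h4⟩, h5⟩ := hm2
  refine ⟨m, h1, h2, h3, h4, fun M' hM' hc hn hi => ?_⟩
  exact Set.Subset.antisymm hM' (h5 ⟨hc, hn, hM'.trans h3, hi⟩ hM')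

end QPl
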