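import Pool.Agent.Lib.MP_d3a5e5_co.Defs

set_option autoImplicit false

namespace QPl

open Finsupp SimpleGraph

theorem Bl_finite {V : Type} {G : SimpleGraph V} (hc : G.Connected) (hf : ∀ v, (G.neighborSet v).Finite) (x : V) (r : ℕ) :
    (Bl G x r).Finite := by
  induction r with
  | zero =>
    refine (Set.finite_singleton x).subset ?_
    intro y hy
    have h1 : G.dist x y = 0 := Nat.le_zero.1 hy
    exact (hc.dist_eq_zero_iff.1 h1).symm
  | succ r ih =>
    have hfin : (Bl G x r ∪ ⋃ y ∈ Bl G x r, G.neighborSet y).Finite :=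
      ih.union (ih.biUnion fun y _ => hf y)
    refine hfin.subset ?_
    intro z hz
    have hz' : G.dist x z ≤ r + 1 := hz
    rcases Nat.lt_or_ge r (G.dist x z) with h1 | h1
    · right
      obtain ⟨p, hp⟩ := hc.exists_walk_length_eq_dist z x
      rw [SimpleGraph.dist_comm] at hp
      cases p with
      | nil =>
        rw [Walk.length_nil] at hp
        omega
      | @cons _ y _ h q =>
        rw [Walk.length_cons] at hp
        refine Set.mem_biUnion (x := y) ?_ ?_
        · have h2 : G.dist x y ≤ q.reverse.length := dist_le q.reverse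
          rw [Walk.length_reverse] at h2
          show G.dist x y ≤ r
          omega
        · exact h.symm
    · exact Or.inl h1

theorem EB_finite {V : Type} (G : SimpleGraph V) {B : Set V} (hB : B.Finite) : (EB G B).Finite := by
  refine ((hB.prod hB).image fun p : V × V => s(p.1, p.2)).subset ?_
  intro e he
  obtain ⟨_, h2⟩ := he
  induction e using Sym2.ind with
  | _ a b =>
    exact ⟨(a, b), ⟨h2 a (Sym2.mem_mk_left a b), h2 b (Sym2.mem_mk_right a b)⟩, rfl⟩

theorem EB_mono {V : Type} (G : SimpleGraph V) {B B' : Set V} (h : B ⊆ B') : EB G B ⊆ EB G B' :=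
  fun _ he => ⟨he.1, fun v hv => h (he.2 v hv)⟩

theorem Bl_mono {V : Type} (G : SimpleGraph V) (x : V) {r r' : ℕ} (h : r ≤ r') : Bl G x r ⊆ Bl G x r' :=
  fun _ hy => le_trans hy h

theorem Bl_sub {V : Type} {G : SimpleGraph V} (hc : G.Connected) {x y : V} {r s : ℕ} (h : G.dist x y ≤ s) :
    Bl G y r ⊆ Bl G x (r + s) := by
  intro z hz
  have h1 : G.dist y z ≤ r := hz
  have h2 : G.dist x z ≤ G.dist x y + G.dist y z := hc.dist_triangle
  show G.dist x z ≤ r + s
  omega

theorem D1_aux1 {V : Type} {G : SimpleGraph V} {B : Set V} {u v : V} (w : G.Walk u v)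
    (h : ∀ y ∈ w.support, y ∈ B) : ∀ e ∈ w.edges, e ∈ EB G B := by
  intro e he
  refine ⟨w.edges_subset_edgeSet he, ?_⟩
  induction e using Sym2.ind with
  | _ a b =>
    intro y hy
    rcases Sym2.mem_iff.1 hy with h1 | h1
    · rw [h1]
      exact h a (w.fst_mem_support_of_mem_edges he)
    · rw [h1]
      exact h b (w.snd_mem_support_of_mem_edges he)

theorem D1_aux2 {V : Type} {G : SimpleGraph V} (hc : G.Connected) (x : V) (r : ℕ) {u : V} (hu : u ∈ Bl G x r) :
    ∃ w : G.Walk x u, ∀ y ∈ w.support, y ∈ Bl G x r := by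
  classical
  obtain ⟨p, hp⟩ := hc.exists_walk_length_eq_dist x u
  refine ⟨p, fun y hy => ?_⟩
  have h1 := dist_le (p.takeUntil y hy)
  have h2 := p.length_takeUntil_le_length hy
  have h3 : G.dist x u ≤ r := hu
  show G.dist x y ≤ r
  omega

theorem walk_in_ball {V : Type} {G : SimpleGraph V} (hc : G.Connected) (x : V) (r : ℕ) {u v : V} (hu : u ∈ Bl G x r)
    (hv : v ∈ Bl G x r) : ∃ w : G.Walk u v, (∀ y ∈ w.support, y ∈ Bl G x r) ∧ ∀ e ∈ w.edges, e ∈ EB G (Bl G x r) := by
  obtain ⟨p, hp⟩ := D1_aux2 hc x r hu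
  obtain ⟨q, hq⟩ := D1_aux2 hc x r hv
  have h1 : ∀ y ∈ (p.reverse.append q).support, y ∈ Bl G x r := by
    intro y hy
    rw [Walk.mem_support_append_iff] at hy
    rcases hy with h2 | h2
    · rw [Walk.support_reverse, List.mem_reverse] at h2
      exact hp y h2
    · exact hq y h2
  exact ⟨p.reverse.append q, h1, D1_aux1 _ h1⟩

theorem finite_sub_ball {V : Type} {G : SimpleGraph V} (x : V) {A : Set V} (hA : A.Finite) : ∃ r, A ⊆ Bl G x r := by
  obtain ⟨r, hr⟩ := (hA.image (G.dist x)).bddAbove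
  exact ⟨r, fun y hy => hr (Set.mem_image_of_mem _ hy)⟩

/-- A finite set of edges of `G` lies in a ball. -/
theorem edges_sub_ball {V : Type} {G : SimpleGraph V} (x : V) {S : Set (Sym2 V)} (hS : S.Finite) (h : S ⊆ G.edgeSet) :
    ∃ r, S ⊆ EB G (Bl G x r) := by
  have h1 : (⋃ e ∈ S, {v : V | v ∈ e}).Finite := by
    refine hS.biUnion fun e _ => ?_
    induction e using Sym2.ind with
    | _ a b =>
      refine (Set.toFinite ({a, b} : Set V)).subset fun y hy => ?_
      rcases Sym2.mem_iff.1 hy with h1 | h1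
      · exact Or.inl h1
      · exact Or.inr h1
  obtain ⟨r, hr⟩ := finite_sub_ball (G := G) x h1
  exact ⟨r, fun e he => ⟨h he, fun v hv => hr (Set.mem_biUnion he hv)⟩⟩

end QPl
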