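import Pool.Agent.Lib.MP_d3a5e5_co.C4
import Pool.Agent.Lib.MP_d3a5e5_co.D1

set_option autoImplicit false

namespace QPl

open Finsupp SimpleGraph

private theorem C5_le {V : Type} {G : SimpleGraph V} (φ : G ≃g G) (x y : V) (h : G.Reachable x y) :
    G.dist (φ x) (φ y) ≤ G.dist x y := by
  obtain ⟨w, hw⟩ := h.exists_walk_length_eq_dist
  have h1 := SimpleGraph.dist_le (w.map φ.toHom)
  rw [SimpleGraph.Walk.length_map, hw] at h1
  exact h1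

theorem iso_dist {V : Type} {G : SimpleGraph V} (φ : G ≃g G) (x y : V) : G.dist (φ x) (φ y) = G.dist x y := by
  by_cases h : G.Reachable x y
  · refine le_antisymm (C5_le φ x y h) ?_
    have h1 : G.Reachable (φ x) (φ y) := φ.reachable_iff.2 h
    have h2 := C5_le φ.symm (φ x) (φ y) h1
    have e1 : φ.symm (φ x) = x := φ.toEquiv.symm_apply_apply x
    have e2 : φ.symm (φ y) = y := φ.toEquiv.symm_apply_apply y
    rw [e1, e2] at h2
    exact h2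
  · rw [SimpleGraph.dist_eq_zero_of_not_reachable h, SimpleGraph.dist_eq_zero_of_not_reachable]
    intro h1
    exact h (φ.reachable_iff.1 h1)

theorem recurrence {V : Type} {G : SimpleGraph V} {k d l : ℕ} {F : Finset V} (hS : Std G d l F) {M : Set (Dat V)} (hM : IsMin G k M)
    (Pr : Dat V → V → Prop) (eqv : ∀ (φ : G ≃g G) (ω : Dat V) (v : V), Pr ω v → Pr (act φ ω) (φ v))
    (loc : ∀ ω ∈ M, ∀ v, Pr ω v → ∃ E : Finset (Sym2 V), ∀ ω' ∈ M, (∀ e ∈ E, ∀ f ∈ E, ω' e f = ω e f) → Pr ω' v)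
    {ω₀ : Dat V} (h0 : ω₀ ∈ M) {v₀ : V} (hP : Pr ω₀ v₀) :
    ∃ D : ℕ, ∀ ω ∈ M, ∀ v, ∃ v', G.dist v v' ≤ D ∧ Pr ω v' := by
  classical
  have hE : ∀ ω : Dat V, ∃ E : Finset (Sym2 V), ω ∈ M → Pr ω v₀ →
      ∀ ω' ∈ M, (∀ e ∈ E, ∀ f ∈ E, ω' e f = ω e f) → Pr ω' v₀ := by
    intro ω
    by_cases h1 : ω ∈ M
    · by_cases h2 : Pr ω v₀
      · obtain ⟨E, hE⟩ := loc ω h1 v₀ h2
        exact ⟨E, fun _ _ => hE⟩
      · exact ⟨∅, fun _ h => absurd h h2⟩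
    · exact ⟨∅, fun h => absurd h h1⟩
  choose E hE using hE
  let U : Set (Dat V) := {ω' | ∃ ω ∈ M, Pr ω v₀ ∧ ∀ e ∈ E ω, ∀ f ∈ E ω, ω' e f = ω e f}
  have hUo : IsOpen U := by
    apply isOpen_local
    rintro ω' ⟨ω, h1, h2, h3⟩
    refine ⟨E ω, fun ω'' h4 => ⟨ω, h1, h2, fun e he f hf => ?_⟩⟩
    rw [h4 e he f hf, h3 e he f hf]
  have hUM : ∀ ω' ∈ M, ω' ∈ U → Pr ω' v₀ := by
    rintro ω' h' ⟨ω, h1, h2, h3⟩
    exact hE ω h1 h2 ω' h' h3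
  have hMU : ∀ ω ∈ M, Pr ω v₀ → ω ∈ U := fun ω h1 h2 => ⟨ω, h1, h2, fun _ _ _ _ => rfl⟩
  have hcov : ∀ ω ∈ M, ∃ φ : G ≃g G, act φ ω ∈ U := by
    by_contra hcon
    push Not at hcon
    obtain ⟨ω1, hω1, hφ1⟩ := hcon
    let M' : Set (Dat V) := {ω | ω ∈ M ∧ ∀ φ : G ≃g G, act φ ω ∉ U}
    have hM'M : M' ⊆ M := fun ω h => h.1
    have hcl : IsClosed M' := by
      have h1 : M' = M ∩ ⋂ φ : G ≃g G, (act φ) ⁻¹' Uᶜ := by
        ext ω
        simp only [M', Set.mem_ofPred_eq, Set.mem_inter_iff, Set.mem_iInter, Set.mem_preimage, Set.mem_compl_iff]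
      rw [h1]
      exact hM.closed.inter (isClosed_iInter fun φ => hUo.isClosed_compl.preimage (act_continuous φ))
    have hinv : Inv G M' := by
      intro ψ ω hω
      refine ⟨hM.inv ψ ω hω.1, fun φ => ?_⟩
      rw [act_act]
      exact hω.2 _
    have h2 : M' = M := hM.min M' hM'M hcl ⟨ω1, hω1, hφ1⟩ hinv
    have h3 : ω₀ ∈ M' := by rw [h2]; exact h0
    have h4 := h3.2 ((SimpleGraph.Iso.refl : G ≃g G).trans (SimpleGraph.Iso.refl : G ≃g G).symm)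
    rw [← act_act, act_symm_act] at h4
    exact h4 (hMU ω₀ h0 hP)
  have hcomp : IsCompact M := hM.closed.isCompact
  obtain ⟨t, ht⟩ := hcomp.elim_finite_subcover (fun φ : G ≃g G => (act φ) ⁻¹' U)
    (fun φ => hUo.preimage (act_continuous φ)) (fun ω hω => by
      obtain ⟨φ, hφ⟩ := hcov ω hω
      exact Set.mem_iUnion.2 ⟨φ, hφ⟩)
  refine ⟨t.sup (fun φ => F.sup (fun x => G.dist x (φ.symm v₀))), fun ω hω v => ?_⟩
  obtain ⟨ψ, hψ⟩ := hS.qt v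
  have h1 : act ψ ω ∈ M := hM.inv ψ ω hω
  obtain ⟨φ, hφt, hφU⟩ : ∃ φ ∈ t, act φ (act ψ ω) ∈ U := by
    have := ht h1
    simp only [Set.mem_iUnion] at this
    obtain ⟨φ, hφ, h2⟩ := this
    exact ⟨φ, hφ, h2⟩
  have h2 : Pr (act φ (act ψ ω)) v₀ := hUM _ (hM.inv φ _ h1) hφU
  have h3 := eqv φ.symm _ _ h2
  rw [act_symm_act] at h3
  have h4 := eqv ψ.symm _ _ h3
  rw [act_symm_act] at h4
  refine ⟨ψ.symm (φ.symm v₀), ?_, h4⟩
  have h5 : G.dist v (ψ.symm (φ.symm v₀)) = G.dist (ψ v) (φ.symm v₀) := by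
    rw [← iso_dist ψ v (ψ.symm (φ.symm v₀))]
    have e1 : ψ (ψ.symm (φ.symm v₀)) = φ.symm v₀ := ψ.toEquiv.apply_symm_apply _
    rw [e1]
  rw [h5]
  have h6 : G.dist (ψ v) (φ.symm v₀) ≤ F.sup (fun x => G.dist x (φ.symm v₀)) :=
    Finset.le_sup (f := fun x => G.dist x (φ.symm v₀)) hψ
  have h7 : F.sup (fun x => G.dist x (φ.symm v₀)) ≤ t.sup (fun φ => F.sup (fun x => G.dist x (φ.symm v₀))) :=
    Finset.le_sup (f := fun φ : G ≃g G => F.sup (fun x => G.dist x (φ.symm v₀))) hφt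
  exact h6.trans h7

end QPl
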