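import Pool.Agent.Lib.MP_d3a5e5_co.D1

set_option autoImplicit false

namespace QPl

open Finsupp SimpleGraph

theorem D2_aux1 {V : Type} {G : SimpleGraph V} (hc : G.Connected) {x z : V} (n : ℕ) (hn : n ≤ G.dist x z) :
    ∃ y, G.dist x y = n := by
  obtain ⟨w, hw⟩ := hc.exists_walk_length_eq_dist x z
  refine ⟨w.getVert n, ?_⟩
  have h1 : G.dist x (w.getVert n) ≤ n := by
    refine (SimpleGraph.dist_le (w.take n)).trans ?_
    rw [SimpleGraph.Walk.take_length]
    exact min_le_left _ _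
  have h2 : G.dist (w.getVert n) z ≤ w.length - n := by
    refine (SimpleGraph.dist_le (w.drop n)).trans ?_
    rw [SimpleGraph.Walk.drop_length]
  have h3 : G.dist x z ≤ G.dist x (w.getVert n) + G.dist (w.getVert n) z := hc.dist_triangle
  omega

theorem D2_aux2 {V : Type} {G : SimpleGraph V} {d l : ℕ} {F : Finset V} (hS : Std G d l F) (x : V) (r : ℕ) :
    ∃ z, r < G.dist x z := by
  by_contra hcon
  push Not at hcon
  have h1 : (Bl G x r) = Set.univ := Set.eq_univ_of_forall hcon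
  have h2 := Bl_finite hS.conn hS.fin x r
  rw [h1] at h2
  haveI := hS.inf
  exact Set.infinite_univ h2

theorem Bl_ncard {V : Type} {G : SimpleGraph V} {d l : ℕ} {F : Finset V} (hS : Std G d l F) (x : V) (r : ℕ) :
    r < (Bl G x r).ncard := by
  obtain ⟨z, hz⟩ := D2_aux2 hS x r
  have h : ∀ n : ℕ, ∃ y, n ≤ r → G.dist x y = n := by
    intro n
    by_cases hn : n ≤ r
    · obtain ⟨y, hy⟩ := D2_aux1 hS.conn n (hn.trans hz.le)
      exact ⟨y, fun _ => hy⟩
    · exact ⟨x, fun h => absurd h hn⟩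
  choose f hf using h
  have h1 : (Set.Iio (r + 1)).ncard ≤ (Bl G x r).ncard := by
    refine Set.ncard_le_ncard_of_injOn f ?_ ?_ (Bl_finite hS.conn hS.fin x r)
    · intro n hn
      have hn' : n ≤ r := Nat.lt_succ_iff.1 hn
      show G.dist x (f n) ≤ r
      rw [hf n hn']
      exact hn'
    · intro n hn m hm hnm
      have hn' : n ≤ r := Nat.lt_succ_iff.1 hn
      have hm' : m ≤ r := Nat.lt_succ_iff.1 hm
      rw [← hf n hn', ← hf m hm', hnm]
  have h2 : (Set.Iio (r + 1)).ncard = r + 1 := by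
    rw [Set.ncard_eq_toFinset_card']
    simp
  omega

theorem D2_aux3 {V : Type} {G : SimpleGraph V} (hc : G.Connected) (φ : G ≃g G) (u v : V) :
    G.dist (φ u) (φ v) ≤ G.dist u v := by
  obtain ⟨w, hw⟩ := hc.exists_walk_length_eq_dist u v
  have h1 := SimpleGraph.dist_le (w.map φ.toHom)
  rw [SimpleGraph.Walk.length_map, hw] at h1
  exact h1

theorem D2_aux4 {V : Type} {G : SimpleGraph V} (hc : G.Connected) (hf : ∀ v, (G.neighborSet v).Finite) (φ : G ≃g G)
    (y : V) (R : ℕ) : (EB G (Bl G y R)).ncard ≤ (EB G (Bl G (φ y) R)).ncard := by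
  refine Set.ncard_le_ncard_of_injOn (Sym2.map φ) ?_ (Sym2.map.injective φ.injective).injOn
    (EB_finite G (Bl_finite hc hf _ _))
  rintro e ⟨he1, he2⟩
  refine ⟨?_, ?_⟩
  · induction e using Sym2.ind with
    | _ a b =>
      rw [Sym2.map_mk, SimpleGraph.mem_edgeSet]
      exact φ.map_adj_iff.2 he1
  · intro v hv
    obtain ⟨a, ha, rfl⟩ := Sym2.mem_map.1 hv
    exact (D2_aux3 hc φ y a).trans (he2 a ha)

theorem EB_ball_bound {V : Type} {G : SimpleGraph V} {d l : ℕ} {F : Finset V} (hS : Std G d l F) (R : ℕ) :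
    ∃ A : ℕ, ∀ y, (EB G (Bl G y R)).ncard ≤ A := by
  refine ⟨∑ f ∈ F, (EB G (Bl G f R)).ncard, fun y => ?_⟩
  obtain ⟨φ, hφ⟩ := hS.qt y
  exact (D2_aux4 hS.conn hS.fin φ y R).trans
    (Finset.single_le_sum (f := fun f => (EB G (Bl G f R)).ncard) (fun _ _ => Nat.zero_le _) hφ)

theorem exists_far {V : Type} {G : SimpleGraph V} {d l : ℕ} {F : Finset V} (hS : Std G d l F) {S : Set (Sym2 V)}
    (hf : S.Finite) (r : ℕ) : ∃ y, Disjoint (EB G (Bl G y r)) S := by
  haveI := hS.inf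
  obtain ⟨x⟩ : Nonempty V := inferInstance
  obtain ⟨R, hR⟩ := edges_sub_ball (G := G) x (S := S ∩ G.edgeSet) (hf.subset Set.inter_subset_left)
    Set.inter_subset_right
  obtain ⟨y, hy⟩ := D2_aux2 hS x (R + r)
  refine ⟨y, Set.disjoint_left.2 ?_⟩
  intro e he heS
  have h1 := hR ⟨heS, he.1⟩
  obtain ⟨v, hv⟩ : ∃ v, v ∈ e := ⟨e.out.1, Sym2.out_fst_mem e⟩
  have h2 : G.dist y v ≤ r := he.2 v hv
  have h3 : G.dist x v ≤ R := h1.2 v hv
  have h4 : G.dist x y ≤ G.dist x v + G.dist v y := hS.conn.dist_triangle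
  rw [SimpleGraph.dist_comm (u := v)] at h4
  omega

theorem dist_of_mem_edges {V : Type} {G : SimpleGraph V} {u v : V} (w : G.Walk u v) {e : Sym2 V} (he : e ∈ w.edges)
    {x : V} (hx : x ∈ e) : G.dist u x ≤ w.length := by
  classical
  have h1 : x ∈ w.support := by
    induction e using Sym2.ind with
    | _ a b =>
      rcases Sym2.mem_iff.1 hx with rfl | rfl
      · exact w.fst_mem_support_of_mem_edges he
      · exact w.snd_mem_support_of_mem_edges he
  exact (SimpleGraph.dist_le (w.takeUntil x h1)).trans (w.length_takeUntil_le h1)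

end QPl
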