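import Pool.Agent.Lib.MP_d3a5e5_co.Defs

set_option autoImplicit false

namespace QPl

open Finsupp SimpleGraph

theorem D3_aux1 {V : Type} {G : SimpleGraph V} (c : Sym2 V → ZMod 2) {u v : V} (w : G.Walk u v) :
    pr c (wv w) = (w.edges.map c).sum := by
  unfold wv
  generalize w.edges = L
  induction L with
  | nil => simp
  | cons e L ih =>
    rw [List.map_cons, List.sum_cons, map_add, ih, List.map_cons, List.sum_cons]
    congr 1
    simp [pr]

theorem D3_aux2 {V : Type} (G : SimpleGraph V) (C : Set V) {u v : V} (h : G.Adj u v) :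
    s(u, v) ∈ cutE G C ↔ (u ∈ C ∧ v ∉ C) ∨ (v ∈ C ∧ u ∉ C) := by
  constructor
  · rintro ⟨_, x, y, hxy, hx, hy⟩
    rcases Sym2.eq_iff.mp hxy with ⟨h1, h2⟩ | ⟨h1, h2⟩
    · subst h1; subst h2; exact Or.inl ⟨hx, hy⟩
    · subst h1; subst h2; exact Or.inr ⟨hx, hy⟩
  · rintro (⟨h1, h2⟩ | ⟨h1, h2⟩)
    · exact ⟨h, u, v, rfl, h1, h2⟩
    · exact ⟨h, v, u, Sym2.eq_swap, h1, h2⟩

theorem D3_aux3 {V : Type} {G : SimpleGraph V} (c : Sym2 V → ZMod 2) {u v : V} (w : G.Walk u v)
    (h : pr c (wv w) ≠ 0) : ∃ e ∈ w.edges, c e ≠ 0 := by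
  by_contra hcon
  push Not at hcon
  apply h
  rw [D3_aux1]
  apply List.sum_eq_zero
  intro x hx
  obtain ⟨e, he, rfl⟩ := List.mem_map.mp hx
  exact hcon e he

theorem cut_parity {V : Type} (G : SimpleGraph V) (C : Set V) [DecidablePred (· ∈ C)] [DecidablePred (· ∈ cutE G C)] {u v : V} (w : G.Walk u v) :
    pr (fun e => if e ∈ cutE G C then 1 else 0) (wv w) = (if u ∈ C then (1 : ZMod 2) else 0) + (if v ∈ C then 1 else 0) := by
  rw [D3_aux1]
  induction w with
  | nil =>
    rw [Walk.edges_nil, List.map_nil, List.sum_nil]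
    exact (ZModModule.add_self _).symm
  | @cons u x v h p ih =>
    rw [Walk.edges_cons, List.map_cons, List.sum_cons, ih]
    have h1 := D3_aux2 G C h
    by_cases hu : u ∈ C <;> by_cases hx : x ∈ C <;> by_cases hv : v ∈ C <;>
      simp only [h1, hu, hx, hv, if_true, if_false, not_true_eq_false, not_false_eq_true, and_true,
        and_false, or_false, false_or, or_true, true_or, or_self, and_self] <;> rfl

theorem cut_link {V : Type} {G : SimpleGraph V} {l : ℕ} (hcyc : CycGen G l) (C : Set V)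
    (h1 : ∀ u ∈ C, ∀ v ∈ C, ∃ w : G.Walk u v, ∀ x ∈ w.support, x ∈ C)
    (h2 : ∀ u, u ∉ C → ∀ v, v ∉ C → ∃ w : G.Walk u v, ∀ x ∈ w.support, x ∉ C)
    (A : Set (Sym2 V)) (hA : A ⊆ cutE G C) (hne : A.Nonempty) (hne' : (cutE G C \ A).Nonempty) :
    ∃ (u : V) (w : G.Walk u u), w.length ≤ l ∧ (∃ e ∈ w.edges, e ∈ A) ∧ (∃ e ∈ w.edges, e ∈ cutE G C ∧ e ∉ A) := by
  classical
  obtain ⟨e, heA⟩ := hne
  obtain ⟨e', he'C, he'A⟩ := hne'
  obtain ⟨heG, a, b, rfl, ha, hb⟩ := hA heA
  obtain ⟨he'G, a', b', rfl, ha', hb'⟩ := he'C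
  obtain ⟨w1, hw1⟩ := h2 b hb b' hb'
  obtain ⟨w2, hw2⟩ := h1 a' ha' a ha
  have hab : G.Adj a b := heG
  have hab' : G.Adj b' a' := (show G.Adj a' b' from he'G).symm
  set c : Sym2 V → ZMod 2 := fun e => if e ∈ A then 1 else 0 with hc
  set w : G.Walk a a := Walk.cons hab (w1.append (Walk.cons hab' w2)) with hw
  have hwe : pr c (wv w) = 1 := by
    rw [D3_aux1, hw, Walk.edges_cons, Walk.edges_append, Walk.edges_cons, List.map_cons,
      List.map_append, List.map_cons, List.sum_cons, List.sum_append, List.sum_cons]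
    have e1 : (w1.edges.map c).sum = 0 := by
      apply List.sum_eq_zero
      intro x hx
      obtain ⟨f, hf, rfl⟩ := List.mem_map.mp hx
      have : f ∉ A := by
        intro hfA
        obtain ⟨_, x, y, rfl, hxC, _⟩ := hA hfA
        exact hw1 x (Walk.fst_mem_support_of_mem_edges w1 hf) hxC
      simp [hc, this]
    have e2 : (w2.edges.map c).sum = 0 := by
      apply List.sum_eq_zero
      intro x hx
      obtain ⟨f, hf, rfl⟩ := List.mem_map.mp hx
      have : f ∉ A := by
        intro hfA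
        obtain ⟨_, x, y, rfl, _, hyC⟩ := hA hfA
        exact hyC (hw2 y (Walk.snd_mem_support_of_mem_edges w2 hf))
      simp [hc, this]
    have e3 : c s(a, b) = 1 := by simp [hc, heA]
    have e4 : c s(b', a') = 0 := by
      have : s(b', a') ∉ A := by rwa [Sym2.eq_swap]
      simp [hc, this]
    rw [e1, e2, e3, e4]
    simp

  have hex : ∃ (u : V) (w' : G.Walk u u), w'.length ≤ l ∧ pr c (wv w') ≠ 0 := by
    by_contra hcon
    push Not at hcon
    have hker : Submodule.span (ZMod 2) {x | ∃ (u : V) (w' : G.Walk u u), w'.length ≤ l ∧ x = wv w'}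
        ≤ LinearMap.ker (pr c) := by
      rw [Submodule.span_le]
      rintro x ⟨u, w', hl, rfl⟩
      exact hcon u w' hl
    have := hker (hcyc a w)
    rw [LinearMap.mem_ker, hwe] at this
    exact one_ne_zero this
  obtain ⟨u, w', hl, hne⟩ := hex
  refine ⟨u, w', hl, ?_, ?_⟩
  · obtain ⟨f, hf, hfc⟩ := D3_aux3 c w' hne
    refine ⟨f, hf, ?_⟩
    by_contra hfA
    exact hfc (by simp [hc, hfA])
  · have hcut := cut_parity G C w'
    rw [ZModModule.add_self] at hcut
    set c' : Sym2 V → ZMod 2 := fun e => if e ∈ cutE G C ∧ e ∉ A then 1 else 0 with hc'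
    have hsum : pr c' (wv w') ≠ 0 := by
      intro h0
      apply hne
      have hadd : (fun e => if e ∈ cutE G C then (1 : ZMod 2) else 0) = fun e => c e + c' e := by
        funext f
        simp only [hc, hc']
        by_cases h3 : f ∈ A
        · have h4 := hA h3
          simp [h3, h4]
        · by_cases h4 : f ∈ cutE G C <;> simp [h3, h4]
      rw [hadd, D3_aux1, List.sum_map_add, ← D3_aux1, ← D3_aux1, h0, add_zero] at hcut
      exact hcut
    obtain ⟨f, hf, hfc⟩ := D3_aux3 c' w' hsum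
    refine ⟨f, hf, ?_⟩
    by_contra hfA
    exact hfc (by simp only [hc']; rw [if_neg hfA])

end QPl
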