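import Pool.Agent.Lib.MP_d3a5e5_co.D2
import Pool.Agent.Lib.MP_d3a5e5_co.D3

set_option autoImplicit false

namespace QPl

open Finsupp SimpleGraph

theorem D4_aux1 {V : Type} {G : SimpleGraph V} {l : ℕ} {b : V} (w : G.Walk b b) (hw : w.length ≤ l) {e f : Sym2 V}
    (he : e ∈ w.edges) (hf : f ∈ w.edges) {x y : V} (hx : x ∈ e) (hy : y ∈ f) : G.dist x y ≤ l := by
  classical
  have hxs : x ∈ w.support := by
    obtain ⟨z, rfl⟩ := Sym2.mem_iff_exists.1 hx
    exact w.fst_mem_support_of_mem_edges he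
  have h1 : f ∈ (w.rotate x hxs).edges := (w.rotate_edges x hxs).mem_iff.2 hf
  have h2 := dist_of_mem_edges (w.rotate x hxs) h1 hy
  rw [Walk.length_rotate] at h2
  exact h2.trans hw

theorem D4_aux2 {V : Type} {G : SimpleGraph V} {e : Sym2 V} (he : e ∈ G.edgeSet) {x y : V} (hx : x ∈ e) (hy : y ∈ e) :
    G.dist x y ≤ 1 := by
  induction e using Sym2.ind with
  | _ a b =>
    have hab : G.Adj a b := he
    rcases Sym2.mem_iff.1 hx with rfl | rfl <;> rcases Sym2.mem_iff.1 hy with rfl | rfl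
    · rw [dist_self]; omega
    · exact (dist_eq_one_iff_adj.2 hab).le
    · exact (dist_eq_one_iff_adj.2 hab.symm).le
    · rw [dist_self]; omega

theorem cut_diam {V : Type} {G : SimpleGraph V} {l : ℕ} (hc : G.Connected) (hcyc : CycGen G l) (C : Set V)
    (h1 : ∀ u ∈ C, ∀ v ∈ C, ∃ w : G.Walk u v, ∀ x ∈ w.support, x ∈ C)
    (h2 : ∀ u, u ∉ C → ∀ v, v ∉ C → ∃ w : G.Walk u v, ∀ x ∈ w.support, x ∉ C)
    (hf : (cutE G C).Finite) {e f : Sym2 V} (he : e ∈ cutE G C) (hf' : f ∈ cutE G C) {u v : V} (hu : u ∈ e) (hv : v ∈ f) :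
    G.dist u v ≤ 1 + (cutE G C).ncard * (l + 1) := by
  let A : ℕ → Set (Sym2 V) := fun j => {g | g ∈ cutE G C ∧ ∀ x ∈ g, G.dist u x ≤ 1 + j * (l + 1)}
  have hAsub : ∀ j, A j ⊆ cutE G C := fun j g hg => hg.1
  have hAfin : ∀ j, (A j).Finite := fun j => hf.subset (hAsub j)
  have hAmono : ∀ j, A j ⊆ A (j + 1) := by
    intro j g hg
    refine ⟨hg.1, fun x hx => (hg.2 x hx).trans ?_⟩
    rw [Nat.add_mul]
    omega
  have he0 : ∀ j, e ∈ A j := by
    intro j
    refine ⟨he, fun x hx => (D4_aux2 he.1 hu hx).trans (by omega)⟩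
  have key : ∀ j, A j = cutE G C ∨ j + 1 ≤ (A j).ncard := by
    intro j
    induction j with
    | zero =>
      right
      have h3 : 0 < (A 0).ncard := (Set.ncard_pos (hAfin 0)).2 ⟨e, he0 0⟩
      omega
    | succ j ih =>
      by_cases hj : A j = cutE G C
      · left
        refine Set.Subset.antisymm (hAsub _) ?_
        rw [← hj]
        exact hAmono j
      · right
        have hne' : (cutE G C \ A j).Nonempty := by
          by_contra hcon
          rw [Set.not_nonempty_iff_eq_empty, Set.sdiff_eq_empty] at hcon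
          exact hj (Set.Subset.antisymm (hAsub j) hcon)
        obtain ⟨b, w, hw, ⟨e1, he1, he1A⟩, ⟨e2, he2, he2c, he2A⟩⟩ :=
          cut_link hcyc C h1 h2 (A j) (hAsub j) ⟨e, he0 j⟩ hne'
        have he2A' : e2 ∈ A (j + 1) := by
          refine ⟨he2c, fun x hx => ?_⟩
          obtain ⟨y, hy⟩ : ∃ y, y ∈ e1 := by
            induction e1 using Sym2.ind with
            | _ p q => exact ⟨p, Sym2.mem_mk_left p q⟩
          have h3 := he1A.2 y hy
          have h4 := D4_aux1 w hw he1 he2 hy hx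
          have h5 := hc.dist_triangle (u := u) (v := y) (w := x)
          have h6 : (j + 1) * (l + 1) = j * (l + 1) + (l + 1) := by ring
          rw [h6]
          omega
        have h3 : (A j).ncard < (A (j + 1)).ncard := by
          refine Set.ncard_lt_ncard ⟨hAmono j, fun hcon => he2A (hcon he2A')⟩ (hAfin _)
        have h4 := ih.resolve_left hj
        omega
  have hfin : A (cutE G C).ncard = cutE G C := by
    rcases key (cutE G C).ncard with h3 | h3
    · exact h3
    · exfalso
      have h4 := Set.ncard_le_ncard (hAsub (cutE G C).ncard) hf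
      omega
  have h3 : f ∈ A (cutE G C).ncard := by
    rw [hfin]
    exact hf'
  exact h3.2 v hv

end QPl
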