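import Pool.Agent.Lib.MP_d3a5e5_co.D4

set_option autoImplicit false

namespace QPl

open Finsupp SimpleGraph

theorem D5_aux1 {V : Type} {G : SimpleGraph V} (hc : G.Connected) {S : Set V} (hne : S.Nonempty) (hne' : Sᶜ.Nonempty) :
    ∃ a ∈ S, ∃ b, b ∉ S ∧ G.Adj a b := by
  obtain ⟨x, hx⟩ := hne
  obtain ⟨y, hy⟩ := hne'
  obtain ⟨w⟩ := hc.preconnected x y
  obtain ⟨d, _, hd1, hd2⟩ := w.exists_boundary_dart S hx hy
  exact ⟨d.fst, hd1, d.snd, hd2, d.adj⟩

theorem D5_aux2 {V : Type} {G : SimpleGraph V} {C : Set V} {a b : V} (hab : G.Adj a b) :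
    s(a, b) ∈ cutE G C ↔ ((a ∈ C ∧ b ∉ C) ∨ (b ∈ C ∧ a ∉ C)) := by
  constructor
  · rintro ⟨_, u, v, h, hu, hv⟩
    rcases Sym2.eq_iff.1 h with ⟨h1, h2⟩ | ⟨h1, h2⟩
    · left
      rw [h1, h2]
      exact ⟨hu, hv⟩
    · right
      rw [h1, h2]
      exact ⟨hu, hv⟩
  · rintro (⟨h1, h2⟩ | ⟨h1, h2⟩)
    · exact ⟨hab, a, b, rfl, h1, h2⟩
    · exact ⟨hab, b, a, Sym2.eq_swap, h1, h2⟩

theorem cut_unique {V : Type} {G : SimpleGraph V} (hc : G.Connected) (hi : Infinite V) {C C' : Set V} (h : C.Finite) (h' : C'.Finite)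
    (he : cutE G C = cutE G C') : C = C' := by
  classical
  by_contra hne
  let S : Set V := {x | ¬ (x ∈ C ↔ x ∈ C')}
  have hSne : S.Nonempty := by
    by_contra hcon
    rw [Set.not_nonempty_iff_eq_empty] at hcon
    apply hne
    ext x
    by_contra hx
    have h1 : x ∈ S := hx
    rw [hcon] at h1
    exact h1
  have hSf : S.Finite := by
    refine (h.union h').subset (fun x hx => ?_)
    have hx' : ¬ (x ∈ C ↔ x ∈ C') := hx
    by_contra hcon
    rw [Set.mem_union, not_or] at hcon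
    exact hx' ⟨fun h1 => absurd h1 hcon.1, fun h1 => absurd h1 hcon.2⟩
  have hSc : Sᶜ.Nonempty := by
    by_contra hcon
    rw [Set.not_nonempty_iff_eq_empty, Set.compl_empty_iff] at hcon
    rw [hcon] at hSf
    exact Set.infinite_univ hSf
  obtain ⟨a, ha, b, hb, hab⟩ := D5_aux1 hc hSne hSc
  have ha' : ¬ (a ∈ C ↔ a ∈ C') := ha
  have hb' : b ∈ C ↔ b ∈ C' := by
    by_contra hcon
    exact hb hcon
  have h1 := D5_aux2 (C := C) hab
  have h2 := D5_aux2 (C := C') hab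
  rw [he] at h1
  have h3 := h1.symm.trans h2
  rw [hb'] at h3
  by_cases p : a ∈ C
  · by_cases q : a ∈ C'
    · exact ha' ⟨fun _ => q, fun _ => p⟩
    · by_cases r : b ∈ C'
      · rcases h3.2 (Or.inr ⟨r, q⟩) with h4 | h4
        · exact h4.2 r
        · exact h4.2 p
      · rcases h3.1 (Or.inl ⟨p, r⟩) with h4 | h4
        · exact q h4.1
        · exact r h4.1
  · by_cases q : a ∈ C'
    · by_cases r : b ∈ C'
      · rcases h3.1 (Or.inr ⟨r, p⟩) with h4 | h4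
        · exact h4.2 r
        · exact h4.2 q
      · rcases h3.2 (Or.inl ⟨q, r⟩) with h4 | h4
        · exact p h4.1
        · exact r h4.1
    · exact ha' ⟨fun h4 => absurd h4 p, fun h4 => absurd h4 q⟩

theorem side_bound {V : Type} {G : SimpleGraph V} {d l : ℕ} {F : Finset V} (hS : Std G d l F) (N : ℕ) :
    ∃ Φ : ℕ, ∀ C : Set V, C.Finite → (cutE G C).Finite → (cutE G C).ncard ≤ N →
      (∀ u ∈ C, ∀ v ∈ C, ∃ w : G.Walk u v, ∀ x ∈ w.support, x ∈ C) →
      (∀ u, u ∉ C → ∀ v, v ∉ C → ∃ w : G.Walk u v, ∀ x ∈ w.support, x ∉ C) → C.ncard ≤ Φ := by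
  classical
  have hc := hS.conn
  have hi := hS.inf
  let R : ℕ := 1 + N * (l + 1)
  let F' : V → Set (Set V) := fun x => {C | C.Finite ∧ cutE G C ⊆ EB G (Bl G x R)}
  have hfin : ∀ x, (F' x).Finite := by
    intro x
    have h1 : (EB G (Bl G x R)).Finite := EB_finite G (Bl_finite hc hS.fin x R)
    refine Set.Finite.of_finite_image (f := cutE G) (h1.finite_subsets.subset ?_) ?_
    · rintro _ ⟨C, hC, rfl⟩
      exact hC.2
    · intro C hC C' hC' he
      exact cut_unique hc hi hC.1 hC'.1 he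
  have hfin2 : ((fun C : Set V => C.ncard) '' (⋃ x ∈ F, F' x)).Finite :=
    (F.finite_toSet.biUnion (fun x _ => hfin x)).image _
  obtain ⟨Φ, hΦ⟩ := hfin2.bddAbove
  refine ⟨Φ, ?_⟩
  intro C hCf hcf hN h1 h2
  rcases Set.eq_empty_or_nonempty C with rfl | hne
  · simp
  have hCc : Cᶜ.Nonempty := by
    by_contra hcon
    rw [Set.not_nonempty_iff_eq_empty, Set.compl_empty_iff] at hcon
    rw [hcon] at hCf
    exact Set.infinite_univ hCf
  obtain ⟨a, ha, b, hb, hab⟩ := D5_aux1 hc hne hCc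
  have hae : s(a, b) ∈ cutE G C := ⟨hab, a, b, rfl, ha, hb⟩
  obtain ⟨φ, hφ⟩ := hS.qt a
  have hinj : Function.Injective φ := φ.injective
  have hdist : ∀ x y, G.dist (φ x) (φ y) ≤ G.dist x y := by
    intro x y
    obtain ⟨w, hw⟩ := hc.exists_walk_length_eq_dist x y
    have h3 := dist_le (w.map φ.toHom)
    rw [Walk.length_map, hw] at h3
    exact h3
  have hmem : φ '' C ∈ ⋃ x ∈ F, F' x := by
    refine Set.mem_biUnion hφ ⟨hCf.image _, ?_⟩
    rintro g ⟨hg, x, y, rfl, ⟨x', hx', rfl⟩, hy⟩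
    obtain ⟨y', rfl⟩ := φ.surjective y
    have hy' : y' ∉ C := fun h3 => hy ⟨y', h3, rfl⟩
    have hadj : G.Adj x' y' := φ.map_adj_iff.1 hg
    have hcut : s(x', y') ∈ cutE G C := ⟨hadj, x', y', rfl, hx', hy'⟩
    refine ⟨hg, fun z hz => ?_⟩
    have h3 : ∀ z', z' ∈ s(x', y') → G.dist (φ a) (φ z') ≤ R := by
      intro z' hz'
      have h4 := cut_diam hc hS.cyc C h1 h2 hcf hae hcut (Sym2.mem_mk_left a b) hz'
      have h5 := Nat.mul_le_mul_right (l + 1) hN
      exact (hdist a z').trans (h4.trans (by omega))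
    rcases Sym2.mem_iff.1 hz with rfl | rfl
    · exact h3 x' (Sym2.mem_mk_left _ _)
    · exact h3 y' (Sym2.mem_mk_right _ _)
  have h3 := hΦ ⟨φ '' C, hmem, rfl⟩
  have h4 : (φ '' C).ncard = C.ncard := Set.ncard_image_of_injective C hinj
  rw [← h4]
  exact h3

end QPl
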