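import Pool.Agent.Lib.MP_d3a5e5_co.D5

set_option autoImplicit false

namespace QPl

open Finsupp SimpleGraph

/-- vertices which can be reached from `b` outside `C` -/
def D6_K {V : Type} (G : SimpleGraph V) (C : Set V) (b : V) : Set V := {x | ∃ p : G.Walk b x, ∀ y ∈ p.support, y ∉ C}

theorem D6_aux1 {V : Type} {G : SimpleGraph V} {C : Set V} {w x : V} (p : G.Walk w x) (hw : w ∉ C) (hx : x ∈ C) :
    ∃ b, b ∉ C ∧ (∃ a ∈ C, G.Adj a b) ∧ ∃ q : G.Walk w b, ∀ y ∈ q.support, y ∉ C := by
  induction p with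
  | nil => exact absurd hx hw
  | @cons u v t h p ih =>
    by_cases hv : v ∈ C
    · refine ⟨u, hw, ⟨v, hv, h.symm⟩, Walk.nil, ?_⟩
      intro y hy
      rw [Walk.support_nil, List.mem_singleton] at hy
      rw [hy]
      exact hw
    · obtain ⟨b, hb, ha, q, hq⟩ := ih hv hx
      refine ⟨b, hb, ha, Walk.cons h q, ?_⟩
      intro y hy
      rw [Walk.support_cons, List.mem_cons] at hy
      rcases hy with rfl | hy
      · exact hw
      · exact hq y hy

theorem D6_support {V : Type} {G : SimpleGraph V} {C : Set V} {b x : V} (p : G.Walk b x)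
    (hp : ∀ y ∈ p.support, y ∉ C) : ∀ y ∈ p.support, y ∈ D6_K G C b := by
  classical
  intro y hy
  exact ⟨p.takeUntil y hy, fun z hz => hp z (p.support_takeUntil_subset_support hy hz)⟩

theorem D6_trans {V : Type} {G : SimpleGraph V} {C : Set V} {b x y : V} (hx : x ∈ D6_K G C b) (p : G.Walk x y)
    (hp : ∀ z ∈ p.support, z ∉ C) : y ∈ D6_K G C b := by
  obtain ⟨q, hq⟩ := hx
  refine ⟨q.append p, fun z hz => ?_⟩
  rcases (Walk.mem_support_append_iff _ _).1 hz with h | h
  · exact hq z h
  · exact hp z h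

theorem comp_bound {V : Type} {G : SimpleGraph V} {d l : ℕ} {F : Finset V} (hS : Std G d l F) (N : ℕ) :
    ∃ Φ : ℕ, ∀ S : Set (Sym2 V), S.Finite → S.ncard ≤ N → ∀ v, (cmp G S v).Finite → (cmp G S v).ncard ≤ Φ := by
  classical
  obtain ⟨Φ, hΦ⟩ := side_bound hS N
  refine ⟨Φ, ?_⟩
  intro S hSf hSN v hfin
  have hc := hS.conn
  have hi := hS.inf
  set C : Set V := cmp G S v with hCdef
  have hvC : v ∈ C := Reachable.refl v
  have hle : G.deleteEdges S ≤ G := deleteEdges_le S

  have hCconn : ∀ x ∈ C, ∀ y ∈ C, ∃ w : G.Walk x y, ∀ z ∈ w.support, z ∈ C := by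
    intro x hx y hy
    have hx' : (G.deleteEdges S).Reachable v x := hx
    have hy' : (G.deleteEdges S).Reachable v y := hy
    obtain ⟨p⟩ := hx'.symm.trans hy'
    refine ⟨p.mapLe hle, fun z hz => ?_⟩
    rw [Walk.support_mapLe_eq_support] at hz
    exact hx'.trans ⟨p.takeUntil z hz⟩
  have hcutS : cutE G C ⊆ S := by
    rintro _ ⟨he, a, b, rfl, ha, hb⟩
    by_contra hcon
    apply hb
    have ha' : (G.deleteEdges S).Reachable v a := ha
    have hadj : (G.deleteEdges S).Adj a b := by
      rw [deleteEdges_adj]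
      exact ⟨he, hcon⟩
    exact ha'.trans hadj.reachable

  let B : Set V := {b | b ∉ C ∧ ∃ a ∈ C, G.Adj a b}
  have hBfin : B.Finite := by
    refine (hfin.biUnion (fun a _ => hS.fin a)).subset ?_
    rintro b ⟨_, a, ha, hab⟩
    exact Set.mem_biUnion ha hab
  have hcover : Cᶜ ⊆ ⋃ b ∈ B, D6_K G C b := by
    intro w hw
    obtain ⟨p⟩ := hc.preconnected w v
    obtain ⟨b, hb, ha, q, hq⟩ := D6_aux1 p hw hvC
    refine Set.mem_biUnion (show b ∈ B from ⟨hb, ha⟩) ⟨q.reverse, fun y hy => hq y ?_⟩
    rw [Walk.support_reverse, List.mem_reverse] at hy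
    exact hy
  obtain ⟨b, hbB, hbinf⟩ : ∃ b ∈ B, (D6_K G C b).Infinite := by
    by_contra hcon
    push Not at hcon
    have h1 : (⋃ b ∈ B, D6_K G C b).Finite :=
      hBfin.biUnion hcon
    have h2 : (Set.univ : Set V).Finite := by
      rw [← Set.union_compl_self C]
      exact hfin.union (h1.subset hcover)
    exact Set.infinite_univ h2
  set Dd : Set V := D6_K G C b with hDd
  have hDC : ∀ x ∈ Dd, x ∉ C := by
    rintro x ⟨p, hp⟩
    exact hp x p.end_mem_support
  have hcutsub : cutE G Ddᶜ ⊆ cutE G C := by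
    rintro _ ⟨he, x, y, rfl, hx, hy⟩
    have hadj : G.Adj x y := he
    have hyD : y ∈ Dd := by
      by_contra hcon
      exact hy hcon
    refine ⟨he, x, y, rfl, ?_, hDC y hyD⟩
    by_contra hxC
    apply hx
    refine D6_trans hyD (Walk.cons hadj.symm Walk.nil) ?_
    intro z hz
    rw [Walk.support_cons, Walk.support_nil, List.mem_cons, List.mem_singleton] at hz
    rcases hz with rfl | rfl
    · exact hDC _ hyD
    · exact hxC
  have hcutfin : (cutE G C).Finite := hSf.subset hcutS
  have hcutfin' : (cutE G Ddᶜ).Finite := hcutfin.subset hcutsub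
  have hcutN : (cutE G Ddᶜ).ncard ≤ N :=
    ((Set.ncard_le_ncard (hcutsub.trans hcutS) hSf)).trans hSN
  have hDfin : Ddᶜ.Finite := by
    rcases hS.one Ddᶜ hcutfin' with h | h
    · exact h
    · rw [compl_compl] at h
      exact absurd h hbinf

  have htoC : ∀ x ∈ Ddᶜ, ∃ y ∈ C, ∃ w : G.Walk x y, ∀ z ∈ w.support, z ∈ Ddᶜ := by
    intro x hx
    have hCD : ∀ z ∈ C, z ∈ Ddᶜ := fun z hz hzD => hDC z hzD hz
    by_cases hxC : x ∈ C
    · refine ⟨x, hxC, Walk.nil, fun z hz => ?_⟩
      rw [Walk.support_nil, List.mem_singleton] at hz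
      rw [hz]
      exact hx
    · obtain ⟨p⟩ := hc.preconnected x v
      obtain ⟨b', hb', ⟨a, ha, hab⟩, q, hq⟩ := D6_aux1 p hxC hvC
      refine ⟨a, ha, q.append (Walk.cons hab.symm Walk.nil), fun z hz => ?_⟩
      rcases (Walk.mem_support_append_iff _ _).1 hz with h | h
      · intro hzD
        apply hx
        refine D6_trans hzD (q.takeUntil z h).reverse (fun y hy => ?_)
        rw [Walk.support_reverse, List.mem_reverse] at hy
        exact hq y (q.support_takeUntil_subset_support h hy)
      · rw [Walk.support_cons, Walk.support_nil, List.mem_cons, List.mem_singleton] at h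
        rcases h with rfl | rfl
        · intro hzD
          apply hx
          refine D6_trans hzD q.reverse (fun y hy => ?_)
          rw [Walk.support_reverse, List.mem_reverse] at hy
          exact hq y hy
        · exact hCD _ ha
  have hCsub : C ⊆ Ddᶜ := fun z hz hzD => hDC z hzD hz
  have h1 := hΦ Ddᶜ hDfin hcutfin' hcutN ?_ ?_
  · exact (Set.ncard_le_ncard hCsub hDfin).trans h1
  · intro x hx y hy
    obtain ⟨x', hx', p, hp⟩ := htoC x hx
    obtain ⟨y', hy', q, hq⟩ := htoC y hy
    obtain ⟨w, hw⟩ := hCconn x' hx' y' hy'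
    refine ⟨p.append (w.append q.reverse), fun z hz => ?_⟩
    rcases (Walk.mem_support_append_iff _ _).1 hz with h | h
    · exact hp z h
    · rcases (Walk.mem_support_append_iff _ _).1 h with h | h
      · exact hCsub (hw z h)
      · rw [Walk.support_reverse, List.mem_reverse] at h
        exact hq z h
  · intro x hx y hy
    have hxD : x ∈ Dd := by
      by_contra hcon
      exact hx hcon
    have hyD : y ∈ Dd := by
      by_contra hcon
      exact hy hcon
    obtain ⟨p, hp⟩ := hxD
    obtain ⟨q, hq⟩ := hyD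
    refine ⟨p.reverse.append q, fun z hz hcon => ?_⟩
    rcases (Walk.mem_support_append_iff _ _).1 hz with h | h
    · rw [Walk.support_reverse, List.mem_reverse] at h
      exact hcon (D6_support p hp z h)
    · exact hcon (D6_support q hq z h)

end QPl
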