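import Pool.Agent.Lib.MP_d3a5e5_co.D6

set_option autoImplicit false

namespace QPl

open Finsupp SimpleGraph

theorem Infv_walk {V : Type} {G : SimpleGraph V} {d l : ℕ} {F : Finset V} (hS : Std G d l F) {S : Set (Sym2 V)}
    (hf : S.Finite) {x y : V} (hx : x ∈ Infv G S) (hy : y ∈ Infv G S) : ∃ w : G.Walk x y, ∀ e ∈ w.edges, e ∉ S := by
  have hcut : cutE G (cmp G S x) ⊆ S := by
    rintro e ⟨he, u, v, rfl, hu, hv⟩
    by_contra hS'
    apply hv
    have hadj : (G.deleteEdges S).Adj u v := by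
      rw [deleteEdges_adj]
      exact ⟨he, hS'⟩
    exact Reachable.trans hu hadj.reachable
  have hfin : (cmp G S x)ᶜ.Finite := by
    rcases hS.one (cmp G S x) (hf.subset hcut) with h | h
    · exact absurd h hx
    · exact h
  obtain ⟨z, hz1, hz2⟩ := Set.Infinite.exists_notMem_finite hy hfin
  have hz3 : z ∈ cmp G S x := by
    by_contra h
    exact hz2 h
  have hr : (G.deleteEdges S).Reachable x y := Reachable.trans hz3 (Reachable.symm hz1)
  obtain ⟨w⟩ := hr
  refine ⟨w.mapLe (deleteEdges_le S), ?_⟩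
  intro e he
  rw [Walk.edges_mapLe_eq_edges] at he
  have h2 := w.edges_subset_edgeSet he
  rw [edgeSet_deleteEdges] at h2
  exact h2.2

theorem Infv_anti {V : Type} {G : SimpleGraph V} {S S' : Set (Sym2 V)} (h : S ⊆ S') : Infv G S' ⊆ Infv G S := by
  intro x hx
  refine Set.Infinite.mono ?_ hx
  intro y hy
  exact Reachable.mono (deleteEdges_anti h) hy

theorem Infv_of_ball {V : Type} {G : SimpleGraph V} {d l : ℕ} {F : Finset V} (hS : Std G d l F) :
    ∃ Φ : ℕ → ℕ, Monotone Φ ∧ ∀ (N : ℕ) (S : Set (Sym2 V)), S.Finite → S.ncard ≤ N → ∀ x,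
      Disjoint (EB G (Bl G x (Φ N))) S → x ∈ Infv G S := by
  choose φ hφ using comp_bound hS
  refine ⟨fun N => ∑ i ∈ Finset.range (N + 1), φ i, ?_, ?_⟩
  · intro M N hMN
    exact Finset.sum_le_sum_of_subset (Finset.range_mono (by omega))
  · intro N S hfin hcard x hdis
    by_contra hx
    have hcf : (cmp G S x).Finite := by
      by_contra h
      exact hx h
    have h1 := hφ N S hfin hcard x hcf
    have h2 : φ N ≤ ∑ i ∈ Finset.range (N + 1), φ i :=
      Finset.single_le_sum (f := φ) (fun _ _ => Nat.zero_le _) (Finset.mem_range.2 (Nat.lt_succ_self N))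
    have h3 : Bl G x (∑ i ∈ Finset.range (N + 1), φ i) ⊆ cmp G S x := by
      intro y hy
      have hx0 : x ∈ Bl G x (∑ i ∈ Finset.range (N + 1), φ i) := by
        show G.dist x x ≤ _
        rw [dist_self]
        exact Nat.zero_le _
      obtain ⟨w, _, hw⟩ := walk_in_ball hS.conn x _ hx0 hy
      have hw2 : ∀ e ∈ w.edges, e ∉ S := fun e he => Set.disjoint_left.1 hdis (hw e he)
      exact ⟨w.toDeleteEdges S hw2⟩
    have h4 := Set.ncard_le_ncard h3 hcf
    have h5 := Bl_ncard hS x (∑ i ∈ Finset.range (N + 1), φ i)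
    omega

theorem Infv_nonempty {V : Type} {G : SimpleGraph V} {d l : ℕ} {F : Finset V} (hS : Std G d l F) {S : Set (Sym2 V)}
    (hf : S.Finite) : (Infv G S).Nonempty := by
  obtain ⟨Φ, _, hΦ⟩ := Infv_of_ball hS
  obtain ⟨y, hy⟩ := exists_far hS hf (Φ S.ncard)
  exact ⟨y, hΦ S.ncard S hf le_rfl y hy⟩

end QPl
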