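import Mathlib

set_option autoImplicit false

namespace QPl

open Finsupp

/-- Grid points. -/
abbrev Pt := ℤ × ℤ

/-- Grid edges: `((x,y),false)` joins `(x,y)` and `(x+1,y)`; `((x,y),true)` joins `(x,y)` and `(x,y+1)`. -/
abbrev GE := Pt × Bool

/-- The second end of a grid edge (the first end is `g.1`). -/
def tgt (g : GE) : Pt := if g.2 = true then (g.1.1, g.1.2 + 1) else (g.1.1 + 1, g.1.2)

/-- 0-chains mod 2 (also used for the sets of unit squares, given by their lower left corners). -/
abbrev C0 := Pt →₀ ZMod 2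

/-- 1-chains mod 2. -/
abbrev C1 := GE →₀ ZMod 2

/-- The 0-chain of a point. -/
noncomputable def pt (z : Pt) : C0 := Finsupp.single z 1

/-- Boundary of a 1-chain. -/
noncomputable def bd : C1 →ₗ[ZMod 2] C0 :=
  Finsupp.linearCombination (ZMod 2) (fun g : GE => pt g.1 + pt (tgt g))

/-- The boundary of the unit square with lower left corner `q`. -/
noncomputable def sqb (q : Pt) : C1 :=
  Finsupp.single (q, false) 1 + Finsupp.single ((q.1, q.2 + 1), false) 1 +
    (Finsupp.single (q, true) 1 + Finsupp.single ((q.1 + 1, q.2), true) 1)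

/-- Boundary of a set of unit squares. -/
noncomputable def bd2 : C0 →ₗ[ZMod 2] C1 := Finsupp.linearCombination (ZMod 2) sqb

/-- The crossing form on grid edges (the second argument is pushed off). -/
def I0 (g h : GE) : ZMod 2 :=
  if (g.2 = false ∧ h.2 = true ∧ h.1 = (g.1.1, g.1.2 - 1)) ∨
      (g.2 = true ∧ h.2 = false ∧ h.1 = (g.1.1 - 1, g.1.2)) then 1 else 0

/-- The crossing form on 1-chains. -/
noncomputable def II : C1 →ₗ[ZMod 2] C1 →ₗ[ZMod 2] ZMod 2 :=
  Finsupp.linearCombination (ZMod 2)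
    (fun g : GE => (Finsupp.linearCombination (ZMod 2) (I0 g) : C1 →ₗ[ZMod 2] ZMod 2))

/-- The chain `a` runs inside the set `K` of grid points. -/
def SuppIn (K : Set Pt) (a : C1) : Prop := ∀ g ∈ a.support, g.1 ∈ K ∧ tgt g ∈ K

/-- Adjacency in the grid. -/
def GAdj (z w : Pt) : Prop :=
  (z.1 = w.1 ∧ (z.2 = w.2 + 1 ∨ w.2 = z.2 + 1)) ∨ (z.2 = w.2 ∧ (z.1 = w.1 + 1 ∨ w.1 = z.1 + 1))

/-- The set `K` of grid points is connected. -/
def GConn (K : Set Pt) : Prop :=
  ∀ z ∈ K, ∀ w ∈ K, Relation.ReflTransGen (fun a b => GAdj a b ∧ b ∈ K) z w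

/-- `z` and `w` are at distance at least 4. -/
def Far (z w : Pt) : Prop := 4 ≤ |z.1 - w.1| ∨ 4 ≤ |z.2 - w.2|

section graphs

variable {V : Type}

/-- Edge chains of a graph, mod 2. -/
abbrev EC (V : Type) := Sym2 V →₀ ZMod 2

/-- The edge chain of a walk. -/
noncomputable def wv {G : SimpleGraph V} {u v : V} (w : G.Walk u v) : EC V :=
  (w.edges.map (fun e => Finsupp.single e (1 : ZMod 2))).sum

/-- The cycle space of `G` mod 2: the span of the closed walks. -/
noncomputable def Zc (G : SimpleGraph V) : Submodule (ZMod 2) (EC V) :=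
  Submodule.span (ZMod 2) {c | ∃ (v : V) (w : G.Walk v v), c = wv w}

/-- The cycle space is generated by the closed walks of length at most `l`. -/
def CycGen (G : SimpleGraph V) (l : ℕ) : Prop :=
  ∀ (v : V) (w : G.Walk v v),
    wv w ∈ Submodule.span (ZMod 2) {c | ∃ (u : V) (w' : G.Walk u u), w'.length ≤ l ∧ c = wv w'}

/-- The edges of `G` between `C` and its complement. -/
def cutE (G : SimpleGraph V) (C : Set V) : Set (Sym2 V) :=
  {e | e ∈ G.edgeSet ∧ ∃ u v, e = s(u, v) ∧ u ∈ C ∧ v ∉ C}

/-- `G` has at most one end: of the two sides of a finite cut, one is finite. -/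
def AtMostOneEnd (G : SimpleGraph V) : Prop :=
  ∀ C : Set V, (cutE G C).Finite → C.Finite ∨ Cᶜ.Finite

/-- The edges of `G` with both ends in `B`. -/
def EB (G : SimpleGraph V) (B : Set V) : Set (Sym2 V) := {e | e ∈ G.edgeSet ∧ ∀ v ∈ e, v ∈ B}

/-- Balls of the graph metric. -/
def Bl (G : SimpleGraph V) (x : V) (r : ℕ) : Set V := {y | G.dist x y ≤ r}

/-- Standing hypotheses: infinite, connected, degrees at most `d`, finitely many orbits of vertices (all meet `F`), one end, cycles generated by length at most `l`. -/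
structure Std (G : SimpleGraph V) (d l : ℕ) (F : Finset V) : Prop where
  conn : G.Connected
  inf : Infinite V
  fin : ∀ v, (G.neighborSet v).Finite
  deg : ∀ v, (G.neighborSet v).ncard ≤ d
  qt : ∀ v, ∃ φ : G ≃g G, φ v ∈ F
  one : AtMostOneEnd G
  cyc : CycGen G l

/-- Data: for all pairs of edges, whether they touch, and the parity of the number of their crossings. -/
abbrev Dat (V : Type) := Sym2 V → Sym2 V → Bool × Bool

/-- `e` and `f` touch. -/
def TX (ω : Dat V) (e f : Sym2 V) : Prop := (ω e f).1 = true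

/-- Crossing parity of `e` and `f`. -/
def TJ (ω : Dat V) (e f : Sym2 V) : ZMod 2 := if (ω e f).2 = true then 1 else 0

/-- The crossing parity of edge chains. -/
noncomputable def JJ (ω : Dat V) : EC V →ₗ[ZMod 2] EC V →ₗ[ZMod 2] ZMod 2 :=
  Finsupp.linearCombination (ZMod 2)
    (fun e : Sym2 V => (Finsupp.linearCombination (ZMod 2) (TJ ω e) : EC V →ₗ[ZMod 2] ZMod 2))

/-- The pairing of a cochain with an edge chain. -/
noncomputable def pr (c : Sym2 V → ZMod 2) : EC V →ₗ[ZMod 2] ZMod 2 := Finsupp.linearCombination (ZMod 2) c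

/-- The action of an automorphism on data. -/
def act {G : SimpleGraph V} (φ : G ≃g G) (ω : Dat V) : Dat V :=
  fun e f => ω (e.map φ.symm) (f.map φ.symm)

/-- A grid drawing of the subgraph induced on `B` which realizes the data `ω`: vertices are points, the edge `e` is a connected set `K e` with a chain `a e` in it between the
ends; edges touch if and only if the sets meet (otherwise they are far apart), every edge touches at most `k` edges. -/
structure GridRep (G : SimpleGraph V) (k : ℕ) (B : Finset V) (ω : Dat V) where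
  p : V → Pt
  K : Sym2 V → Finset Pt
  a : Sym2 V → C1
  inj : Set.InjOn p (B : Set V)
  mem : ∀ e ∈ EB G (B : Set V), ∀ v ∈ e, p v ∈ K e
  conn : ∀ e ∈ EB G (B : Set V), GConn (K e : Set Pt)
  supp : ∀ e ∈ EB G (B : Set V), SuppIn (K e : Set Pt) (a e)
  bdy : ∀ u v, s(u, v) ∈ EB G (B : Set V) → bd (a s(u, v)) = pt (p u) + pt (p v)
  touch : ∀ e ∈ EB G (B : Set V), ∀ f ∈ EB G (B : Set V), TX ω e f → ∃ z, z ∈ K e ∧ z ∈ K f
  sep : ∀ e ∈ EB G (B : Set V), ∀ f ∈ EB G (B : Set V), ¬ TX ω e f → ∀ z ∈ K e, ∀ w ∈ K f, Far z w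
  cross : ∀ e ∈ EB G (B : Set V), ∀ f ∈ EB G (B : Set V), TJ ω e f = II (a e) (a f)
  deg : ∀ e ∈ EB G (B : Set V), {f | f ∈ EB G (B : Set V) ∧ TX ω e f}.ncard ≤ k

/-- The data which are realizable on all finite subgraphs. -/
def Om (G : SimpleGraph V) (k : ℕ) : Set (Dat V) := {ω | ∀ B : Finset V, Nonempty (GridRep G k B ω)}

/-- The set `M` of data is invariant under automorphisms. -/
def Inv (G : SimpleGraph V) (M : Set (Dat V)) : Prop := ∀ (φ : G ≃g G), ∀ ω ∈ M, act φ ω ∈ M

/-- `M` is a minimal nonempty closed invariant set of realizable data. -/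
structure IsMin (G : SimpleGraph V) (k : ℕ) (M : Set (Dat V)) : Prop where
  closed : IsClosed M
  nonempty : M.Nonempty
  sub : M ⊆ Om G k
  inv : Inv G M
  min : ∀ M' ⊆ M, IsClosed M' → M'.Nonempty → Inv G M' → M' = M

/-- The edges touched by the edges of `S`. -/
def TS (G : SimpleGraph V) (ω : Dat V) (S : Set (Sym2 V)) : Set (Sym2 V) := {f | f ∈ G.edgeSet ∧ ∃ e ∈ S, TX ω e f}

/-- The component of `v` after deleting the edges of `S`. -/
def cmp (G : SimpleGraph V) (S : Set (Sym2 V)) (v : V) : Set V := {w | (G.deleteEdges S).Reachable v w}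

/-- The vertices in infinite components after deleting the edges of `S`. -/
def Infv (G : SimpleGraph V) (S : Set (Sym2 V)) : Set V := {v | (cmp G S v).Infinite}

open Classical in
/-- The winding parity of the cycle `c` about `v` (with respect to infinity): the crossing parity of `c` with a walk from `v` to a vertex of the
infinite component after deletion of the edges touched by `c`. -/
noncomputable def uval (G : SimpleGraph V) (ω : Dat V) (c : EC V) (v : V) : ZMod 2 :=
  if h : ∃ x : V, ∃ _ : G.Walk v x, x ∈ Infv G (TS G ω (c.support : Set (Sym2 V))) then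
    JJ ω c (wv h.choose_spec.choose) else 0

/-- All edges touched by edges inside the ball of radius `r` about `y` are inside the ball of radius `R`. -/
def Clean (G : SimpleGraph V) (ω : Dat V) (y : V) (r R : ℕ) : Prop :=
  TS G ω (EB G (Bl G y r)) ⊆ EB G (Bl G y R)

/-- The edge chains carried by `B`. -/
def InB (G : SimpleGraph V) (B : Set V) (c : EC V) : Prop := ∀ e ∈ c.support, e ∈ EB G B

/-- The linear extension of the chains of a grid drawing. -/
noncomputable def GridRep.lin {G : SimpleGraph V} {k : ℕ} {B : Finset V} {ω : Dat V} (ρ : GridRep G k B ω) :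
    EC V →ₗ[ZMod 2] C1 := Finsupp.linearCombination (ZMod 2) ρ.a

end graphs

section pieces

/-- Adjacency of the members of a family of sets of grid points. -/
def PG {L : Type} (T : L → Finset Pt) : SimpleGraph L where
  Adj l m := l ≠ m ∧ ∃ z ∈ T l, ∃ w ∈ T m, GAdj z w
  symm := ⟨by
    rintro l m ⟨h, z, hz, w, hw, hzw⟩
    refine ⟨h.symm, w, hw, z, hz, ?_⟩
    unfold GAdj at *
    omega⟩
  loopless := ⟨fun l h => h.1 rfl⟩

/-- Labels of pieces: points of vertices, and the i-th piece of an edge. -/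
abbrev Lab (V : Type) := V ⊕ (Sym2 V × ℕ)

/-- Two pairs of numbers cross. -/
def Cross (a b c d : ℕ) : Prop :=
  (min a b < min c d ∧ min c d < max a b ∧ max a b < max c d) ∨
    (min c d < min a b ∧ min a b < max c d ∧ max c d < max a b)

/-- A finite stage of a two page drawing. -/
structure TP (W : Type) where
  pres : W → Prop
  adj : W → W → Prop
  lt : W → W → Prop
  page : W → W → Prop

/-- The axioms: `lt` is a strict linear order on the vertices, edges on the same page do not cross. -/
structure TP.OK {W : Type} (T : TP W) : Prop where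
  irr : ∀ a, ¬ T.lt a a
  trans : ∀ a b c, T.lt a b → T.lt b c → T.lt a c
  tot : ∀ a b, T.pres a → T.pres b → a ≠ b → T.lt a b ∨ T.lt b a
  asym : ∀ a b, T.adj a b → T.adj b a
  ne : ∀ a b, T.adj a b → a ≠ b
  adjp : ∀ a b, T.adj a b → T.pres a
  pasym : ∀ a b, T.page a b → T.page b a
  nc : ∀ a b c d, T.adj a b → T.adj c d → (T.page a b ↔ T.page c d) → T.lt a c → T.lt c b → T.lt b d → False

/-- There is a walk with at most `m` edges from `a` to `b`. -/
inductive TP.WalkLE {W : Type} (T : TP W) : ℕ → W → W → Prop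
  | nil (m : ℕ) (a : W) : TP.WalkLE T m a a
  | cons (m : ℕ) (a b c : W) : T.adj a b → TP.WalkLE T m b c → TP.WalkLE T (m + 1) a c

/-- `H` has a drawing with all vertices on the x-axis in two pages. -/
def TwoPage {W : Type} (H : SimpleGraph W) : Prop :=
  ∃ (r : W → ℝ) (page : W → W → Prop), Function.Injective r ∧ (∀ a b, page a b → page b a) ∧
    ∀ a b c d, H.Adj a b → H.Adj c d → (page a b ↔ page c d) → r a < r c → r c < r b → r b < r d → False

/-- Quasi-isometry of graphs. -/
def QIso {V W : Type} (G : SimpleGraph V) (H : SimpleGraph W) : Prop :=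
  ∃ φ : V → W, ∃ M A : ℝ, 1 ≤ M ∧ 0 ≤ A ∧
    (∀ x y : V, (G.dist x y : ℝ) / M - A ≤ (H.dist (φ x) (φ y) : ℝ) ∧
      (H.dist (φ x) (φ y) : ℝ) ≤ M * (G.dist x y : ℝ) + A) ∧
    (∀ w : W, ∃ x : V, (H.dist w (φ x) : ℝ) ≤ A)

/-- Drawings in the plane in which every edge crosses at most `k` other edges. -/
def DrawK {V : Type} (G : SimpleGraph V) (k : ℕ) : Prop :=
  ∃ f : V → ℝ × ℝ, Function.Injective f ∧
    ∃ γ : V → V → C(unitInterval, ℝ × ℝ),
      (∀ u v : V, G.Adj u v →
        γ u v 0 = f u ∧ γ u v 1 = f v ∧ Function.Injective (γ u v) ∧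
        (∀ t : unitInterval, γ v u t = γ u v (unitInterval.symm t)) ∧
        (∀ t : unitInterval, t ≠ 0 → t ≠ 1 → ∀ w : V, γ u v t ≠ f w)) ∧
      (∀ u v : V, G.Adj u v →
        {e : Sym2 V | e ∈ G.edgeSet ∧ e ≠ s(u, v) ∧
          ∃ x y : V, e = s(x, y) ∧ ∃ s t : unitInterval,
            s ≠ 0 ∧ s ≠ 1 ∧ t ≠ 0 ∧ t ≠ 1 ∧ γ x y s = γ u v t}.encard
          ≤ (k : ℕ∞))

/-- `G` is quasi-isometric to a connected planar graph. -/
def QIPlanar {V : Type} (G : SimpleGraph V) : Prop :=
  ∃ (W : Type) (H : SimpleGraph W), H.Connected ∧ DrawK H 0 ∧ QIso G H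

/-- `G` is quasi-isometric to a countable connected graph with a two page drawing. -/
def QITwoPage {V : Type} (G : SimpleGraph V) : Prop :=
  ∃ (W : Type) (H : SimpleGraph W), Countable W ∧ H.Connected ∧ TwoPage H ∧ QIso G H

end pieces

end QPl
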