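import Pool.Agent.Lib.MP_d3a5e5_co.Defs

set_option autoImplicit false

namespace QPl

open Finsupp SimpleGraph

section all_ends

variable {V : Type}

/-- Standing hypotheses without the condition on ends. -/
structure Std0 (G : SimpleGraph V) (d l : ℕ) (F : Finset V) : Prop where
  conn : G.Connected
  inf : Infinite V
  fin : ∀ v, (G.neighborSet v).Finite
  deg : ∀ v, (G.neighborSet v).ncard ≤ d
  qt : ∀ v, ∃ φ : G ≃g G, φ v ∈ F
  cyc : CycGen G l

/-- The set `C` is connected inside `G`. -/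
def Conn (G : SimpleGraph V) (C : Set V) : Prop := ∀ u ∈ C, ∀ v ∈ C, ∃ w : G.Walk u v, ∀ x ∈ w.support, x ∈ C

/-- A tight cut: both sides nonempty and connected, finitely many edges between them. -/
structure Tight (G : SimpleGraph V) (C : Set V) : Prop where
  ne : C.Nonempty
  ne' : Cᶜ.Nonempty
  fin : (cutE G C).Finite
  conn : Conn G C
  conn' : Conn G Cᶜ

/-- `C` and `D` are nested: one of the four corners is empty. -/
def Nested (C D : Set V) : Prop := C ⊆ D ∨ D ⊆ C ∨ C ⊆ Dᶜ ∨ Dᶜ ⊆ C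

/-- Nonprincipal ultrafilters. -/
def NP (a : Ultrafilter V) : Prop := ∀ S ∈ a, S.Infinite

/-- `C` separates the ultrafilters `a` and `b`. -/
def Spl (a b : Ultrafilter V) (C : Set V) : Prop := (C ∈ a ∧ Cᶜ ∈ b) ∨ (Cᶜ ∈ a ∧ C ∈ b)

/-- `C` separates `a` and `b` with the smallest number of edges. -/
structure MinC (G : SimpleGraph V) (a b : Ultrafilter V) (C : Set V) : Prop where
  fin : (cutE G C).Finite
  spl : Spl a b C
  min : ∀ D : Set V, (cutE G D).Finite → Spl a b D → (cutE G C).ncard ≤ (cutE G D).ncard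

/-- All minimal cuts with at most `K` edges. -/
def DK (G : SimpleGraph V) (K : ℕ) : Set (Set V) :=
  {C | (∃ a b, NP a ∧ NP b ∧ MinC G a b C) ∧ (cutE G C).ncard ≤ K}

/-- The minimal cuts with at most `K` edges which are not nested with `C`. -/
def NN (G : SimpleGraph V) (K : ℕ) (C : Set V) : Set (Set V) := {D | D ∈ DK G K ∧ ¬ Nested C D}

/-- `C` is an optimally nested minimal cut for `a` and `b`. -/
def OptC (G : SimpleGraph V) (K : ℕ) (a b : Ultrafilter V) (C : Set V) : Prop :=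
  MinC G a b C ∧ (cutE G C).ncard ≤ K ∧ ∀ D, MinC G a b D → (NN G K C).ncard ≤ (NN G K D).ncard

/-- All optimally nested cuts with at most `K` edges. -/
def EK (G : SimpleGraph V) (K : ℕ) : Set (Set V) := {C | ∃ a b, NP a ∧ NP b ∧ OptC G K a b C}

/-- An invariant nested family of tight cuts which separates all ultrafilters that can be separated by finite cuts. -/
structure Fam (G : SimpleGraph V) (K : ℕ) (E : Set (Set V)) : Prop where
  compl : ∀ C ∈ E, Cᶜ ∈ E
  inv : ∀ (φ : G ≃g G), ∀ C ∈ E, φ '' C ∈ E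
  tight : ∀ C ∈ E, Tight G C
  size : ∀ C ∈ E, (cutE G C).ncard ≤ K
  nest : ∀ C ∈ E, ∀ D ∈ E, Nested C D
  split : ∀ a b : Ultrafilter V, NP a → NP b → ∀ D : Set V, (cutE G D).Finite → D ∈ a → Dᶜ ∈ b → ∃ C ∈ E, C ∈ a ∧ Cᶜ ∈ b

/-- The orientation of the cuts towards a vertex. -/
def Or (E : Set (Set V)) (x : V) : Set (Set V) := {C | C ∈ E ∧ x ∈ C}

/-- The orientation of the cuts towards the majority of `x`, `y`, `z`. -/
def maj (E : Set (Set V)) (x y z : V) : Set (Set V) :=
  {C | C ∈ E ∧ ((x ∈ C ∧ y ∈ C) ∨ (y ∈ C ∧ z ∈ C) ∨ (x ∈ C ∧ z ∈ C))}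

/-- Equal or adjacent. -/
def Eqa (G : SimpleGraph V) (x y : V) : Prop := x = y ∨ G.Adj x y

/-- The vertices of the structure tree: majority orientations of triangles (possibly degenerate). -/
def TT (G : SimpleGraph V) (E : Set (Set V)) : Set (Set (Set V)) :=
  {t | ∃ x y z, Eqa G x y ∧ Eqa G y z ∧ Eqa G x z ∧ t = maj E x y z}

/-- The orientation just beyond the cut `C` (on the side of the complement of `C`). -/
def op (E : Set (Set V)) (C : Set V) : Set (Set V) := {D | D ∈ E ∧ D ≠ C ∧ (C ⊆ D ∨ Cᶜ ⊆ D)}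

/-- The vertices of the part of the tree vertex `t`: some edge at `x` (or `x` itself) passes over `t`. -/
def BT (G : SimpleGraph V) (E : Set (Set V)) (t : Set (Set V)) : Set V :=
  {x | ∃ y, Eqa G x y ∧ Or E x ∩ Or E y ⊆ t}

/-- The power graph. -/
def PW (G : SimpleGraph V) (R : ℕ) : SimpleGraph V where
  Adj x y := x ≠ y ∧ G.dist x y ≤ R
  symm := ⟨fun x y h => ⟨h.1.symm, by rw [SimpleGraph.dist_comm]; exact h.2⟩⟩
  loopless := ⟨fun x h => h.1 rfl⟩

/-- The torso of a tree vertex. -/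
abbrev torso (G : SimpleGraph V) (E : Set (Set V)) (R : ℕ) (t : Set (Set V)) : SimpleGraph (BT G E t) :=
  (PW G R).induce (BT G E t)

/-- Drawings with two pages over an abstract linear order. -/
def TP0 {W : Type} (H : SimpleGraph W) : Prop :=
  ∃ (lt : W → W → Prop) (page : W → W → Prop), (∀ a, ¬ lt a a) ∧ (∀ a b c, lt a b → lt b c → lt a c) ∧
    (∀ a b, a ≠ b → lt a b ∨ lt b a) ∧ (∀ a b, page a b → page b a) ∧
    ∀ a b c d, H.Adj a b → H.Adj c d → (page a b ↔ page c d) → lt a c → lt c b → lt b d → False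

/-- Quasi-isometry with constant `C` to a countable connected graph with a two page drawing. -/
def QITP (C : ℕ) {V : Type} (G : SimpleGraph V) : Prop :=
  ∃ (W : Type) (H : SimpleGraph W) (φ : V → W), Countable W ∧ H.Connected ∧ TP0 H ∧
    (∀ x y, H.dist (φ x) (φ y) ≤ C * G.dist x y + C) ∧ (∀ x y, G.dist x y ≤ C * H.dist (φ x) (φ y) + C) ∧
    ∀ w, ∃ x, H.dist w (φ x) ≤ C

end all_ends

end QPl
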