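import Pool.Agent.Lib.MP_d3a5e5_co.C2
import Pool.Agent.Lib.MP_d3a5e5_co.D7

set_option autoImplicit false

namespace QPl

open Finsupp SimpleGraph

theorem E1_aux1 (a b : ZMod 2) (h : a + b = 0) : a = b := by
  have h1 := congrArg (· + b) h
  simp only [zero_add, add_assoc, ZModModule.add_self b, add_zero] at h1
  exact h1

theorem JJ_zero_of_avoid {V : Type} {G : SimpleGraph V} {k : ℕ} {ω : Dat V} (h : ω ∈ Om G k) {c c' : EC V}
    (hc : (c.support : Set (Sym2 V)) ⊆ G.edgeSet) (hc' : (c'.support : Set (Sym2 V)) ⊆ G.edgeSet)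
    (hav : ∀ e ∈ c'.support, e ∉ TS G ω (c.support : Set (Sym2 V))) : JJ ω c c' = 0 := by
  unfold JJ
  rw [Finsupp.linearCombination_apply, Finsupp.sum, LinearMap.sum_apply]
  refine Finset.sum_eq_zero fun e he => ?_
  rw [LinearMap.smul_apply, Finsupp.linearCombination_apply, Finsupp.sum]
  have h0 : ∑ f ∈ c'.support, c' f • TJ ω e f = 0 := by
    refine Finset.sum_eq_zero fun f hf => ?_
    have hfG : f ∈ G.edgeSet := hc' hf
    have hnt : ¬ TX ω e f := fun ht => hav f hf ⟨hfG, e, he, ht⟩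
    rw [TJ_zero h (hc he) hfG hnt, smul_zero]
  rw [h0, smul_zero]

theorem E1_aux2 {V : Type} {G : SimpleGraph V} {k : ℕ} {ω : Dat V} (h : ω ∈ Om G k) {c : EC V}
    (hc : c ∈ Zc G) : (TS G ω (c.support : Set (Sym2 V))).Finite :=
  (TS_finite h (Finset.finite_toSet _) (Zc_supp hc)).1

theorem E1_aux3 {V : Type} {G : SimpleGraph V} {u v : V} (w : G.Walk u v) :
    ((wv w).support : Set (Sym2 V)) ⊆ G.edgeSet := fun _ he =>
  w.edges_subset_edgeSet (wv_support w he)

theorem uval_eq {V : Type} {G : SimpleGraph V} {k d l : ℕ} {F : Finset V} (hS : Std G d l F) {ω : Dat V} (h : ω ∈ Om G k) {c : EC V}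
    (hc : c ∈ Zc G) {v x : V} (hx : x ∈ Infv G (TS G ω (c.support : Set (Sym2 V)))) (w : G.Walk v x) :
    uval G ω c v = JJ ω c (wv w) := by
  classical
  have hex : ∃ x : V, ∃ _ : G.Walk v x, x ∈ Infv G (TS G ω (c.support : Set (Sym2 V))) := ⟨x, w, hx⟩
  unfold uval
  rw [dif_pos hex]
  have hx' := hex.choose_spec.choose_spec
  generalize hw' : hex.choose_spec.choose = w' at *
  obtain ⟨q, hq⟩ := Infv_walk hS (E1_aux2 h hc) hx hx'
  have h1 : JJ ω c (wv q) = 0 :=
    JJ_zero_of_avoid h (Zc_supp hc) (E1_aux3 q) (fun e he => hq e (wv_support q he))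
  have h2 : JJ ω c (wv (w.append (q.append w'.reverse))) = 0 :=
    JJ_closed h hc (Submodule.subset_span ⟨v, _, rfl⟩)
  rw [wv_append, wv_append, wv_reverse, map_add, map_add, h1, zero_add] at h2
  exact (E1_aux1 _ _ h2).symm

theorem E1_aux4 {V : Type} {G : SimpleGraph V} {ω : Dat V} {S T : Set (Sym2 V)} (h : S ⊆ T) :
    TS G ω S ⊆ TS G ω T := by
  rintro f ⟨hf, e, he, hef⟩
  exact ⟨hf, e, h he, hef⟩

theorem uval_add {V : Type} {G : SimpleGraph V} {k d l : ℕ} {F : Finset V} (hS : Std G d l F) {ω : Dat V} (h : ω ∈ Om G k) {c c' : EC V}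
    (hc : c ∈ Zc G) (hc' : c' ∈ Zc G) (v : V) : uval G ω (c + c') v = uval G ω c v + uval G ω c' v := by
  classical
  obtain ⟨x, hx⟩ := Infv_nonempty hS ((E1_aux2 h hc).union (E1_aux2 h hc'))
  obtain ⟨w⟩ := hS.conn.preconnected v x
  have hx1 : x ∈ Infv G (TS G ω (c.support : Set (Sym2 V))) := Infv_anti Set.subset_union_left hx
  have hx2 : x ∈ Infv G (TS G ω (c'.support : Set (Sym2 V))) := Infv_anti Set.subset_union_right hx
  have hx3 : x ∈ Infv G (TS G ω ((c + c').support : Set (Sym2 V))) := by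
    refine Infv_anti ?_ hx
    rintro f ⟨hf, e, he, hef⟩
    have h1 : e ∈ c.support ∪ c'.support := Finsupp.support_add he
    rcases Finset.mem_union.mp h1 with h2 | h2
    · exact Or.inl ⟨hf, e, h2, hef⟩
    · exact Or.inr ⟨hf, e, h2, hef⟩
  rw [uval_eq hS h hc hx1 w, uval_eq hS h hc' hx2 w, uval_eq hS h (Submodule.add_mem _ hc hc') hx3 w,
    map_add, LinearMap.add_apply]

theorem uval_diff {V : Type} {G : SimpleGraph V} {k d l : ℕ} {F : Finset V} (hS : Std G d l F) {ω : Dat V} (h : ω ∈ Om G k) {c : EC V}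
    (hc : c ∈ Zc G) {v v' : V} (w : G.Walk v v') : uval G ω c v + uval G ω c v' = JJ ω c (wv w) := by
  obtain ⟨x, hx⟩ := Infv_nonempty hS (E1_aux2 h hc)
  obtain ⟨w'⟩ := hS.conn.preconnected v' x
  rw [uval_eq hS h hc hx (w.append w'), uval_eq hS h hc hx w', wv_append, map_add, add_assoc,
    ZModModule.add_self, add_zero]

theorem uval_inf {V : Type} {G : SimpleGraph V} {k d l : ℕ} {F : Finset V} (hS : Std G d l F) {ω : Dat V} (h : ω ∈ Om G k) {c : EC V}
    (hc : c ∈ Zc G) {v : V} (hv : v ∈ Infv G (TS G ω (c.support : Set (Sym2 V)))) : uval G ω c v = 0 := by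
  rw [uval_eq hS h hc hv (SimpleGraph.Walk.nil : G.Walk v v)]
  simp [wv]

theorem uval_span {V : Type} {G : SimpleGraph V} {k d l : ℕ} {F : Finset V} (hS : Std G d l F) {ω : Dat V} (h : ω ∈ Om G k) (v : V)
    (c : Sym2 V → ZMod 2) (hw : ∀ (u : V) (w : G.Walk u u), w.length ≤ l → uval G ω (wv w) v = pr c (wv w)) :
    ∀ γ ∈ Zc G, uval G ω γ v = pr c γ := by
  intro γ hγ
  have h0 : uval G ω (0 : EC V) v = 0 := by
    have h1 := uval_add hS h (Submodule.zero_mem (Zc G)) (Submodule.zero_mem (Zc G)) v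
    rw [ZModModule.add_self (0 : EC V), ZModModule.add_self (uval G ω 0 v)] at h1
    exact h1
  have hsp : Zc G ≤ Submodule.span (ZMod 2)
      {c | ∃ (u : V) (w' : G.Walk u u), w'.length ≤ l ∧ c = wv w'} := by
    unfold Zc
    rw [Submodule.span_le]
    rintro x ⟨u, w, rfl⟩
    exact hS.cyc u w
  have key : ∀ γ ∈ Submodule.span (ZMod 2)
      {c | ∃ (u : V) (w' : G.Walk u u), w'.length ≤ l ∧ c = wv w'},
      γ ∈ Zc G ∧ uval G ω γ v = pr c γ := by
    intro γ hγ
    induction hγ using Submodule.span_induction with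
    | mem x hx =>
      obtain ⟨u, w, hl, rfl⟩ := hx
      exact ⟨Submodule.subset_span ⟨u, w, rfl⟩, hw u w hl⟩
    | zero => exact ⟨Submodule.zero_mem _, by rw [h0, map_zero]⟩
    | add x y _ _ hx hy =>
      exact ⟨Submodule.add_mem _ hx.1 hy.1, by rw [uval_add hS h hx.1 hy.1, hx.2, hy.2, map_add]⟩
    | smul a x _ hx =>
      refine ⟨Submodule.smul_mem _ _ hx.1, ?_⟩
      have ha : a = 0 ∨ a = 1 := by
        revert a; decide
      rcases ha with rfl | rfl
      · rw [zero_smul, h0, map_zero]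
      · rw [one_smul, hx.2]
  exact (key γ (hsp hγ)).2

end QPl
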