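import Pool.Agent.Lib.MP_d3a5e5_co.E1
import Pool.Agent.Lib.MP_d3a5e5_co.C5

set_option autoImplicit false

namespace QPl

open Finsupp SimpleGraph

theorem E2_aux1 {V : Type} {G : SimpleGraph V} (ψ : G ≃g G) (e : Sym2 V) :
    (e.map ψ).map ψ.symm = e := by
  rw [Sym2.map_map]
  have h1 : (ψ.symm : V → V) ∘ (ψ : V → V) = id := by
    funext z
    exact ψ.symm_apply_apply z
  rw [h1]
  exact congrFun Sym2.map_id e

theorem E2_aux2 {V : Type} {G : SimpleGraph V} (ψ : G ≃g G) (e : Sym2 V) :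
    (e.map ψ.symm).map ψ = e := by
  rw [Sym2.map_map]
  have h1 : (ψ : V → V) ∘ (ψ.symm : V → V) = id := by
    funext z
    exact ψ.apply_symm_apply z
  rw [h1]
  exact congrFun Sym2.map_id e

theorem E2_aux3 {V : Type} {G : SimpleGraph V} (ψ : G ≃g G) (e : Sym2 V) (he : e ∈ G.edgeSet) :
    e.map ψ ∈ G.edgeSet := by
  induction e using Sym2.ind with
  | _ x y =>
    show s(ψ x, ψ y) ∈ G.edgeSet
    rw [SimpleGraph.mem_edgeSet] at he ⊢
    exact ψ.map_adj_iff.2 he

theorem E2_aux4 {V : Type} (ω : Dat V) (e f : Sym2 V) (a b : ZMod 2) :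
    JJ ω (Finsupp.single e a) (Finsupp.single f b) = a * (b * TJ ω e f) := by
  unfold JJ
  rw [Finsupp.linearCombination_single, LinearMap.smul_apply, Finsupp.linearCombination_single,
    smul_eq_mul, smul_eq_mul]

theorem JJ_act {V : Type} {G : SimpleGraph V} (φ : G ≃g G) (ω : Dat V) (c c' : EC V) :
    JJ (act φ ω) (Finsupp.mapDomain (Sym2.map φ) c) (Finsupp.mapDomain (Sym2.map φ) c') = JJ ω c c' := by
  induction c using Finsupp.induction_linear with
  | zero => rw [Finsupp.mapDomain_zero, map_zero, map_zero]; rfl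
  | add c1 c2 h1 h2 =>
    rw [Finsupp.mapDomain_add, map_add, map_add, LinearMap.add_apply, LinearMap.add_apply, h1, h2]
  | single e a =>
    induction c' using Finsupp.induction_linear with
    | zero => rw [Finsupp.mapDomain_zero, map_zero, map_zero]
    | add c1 c2 h1 h2 => rw [Finsupp.mapDomain_add, map_add, map_add, h1, h2]
    | single f b =>
      rw [Finsupp.mapDomain_single, Finsupp.mapDomain_single, E2_aux4, E2_aux4]
      have h1 : TJ (act φ ω) (Sym2.map φ e) (Sym2.map φ f) = TJ ω e f := by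
        show (if (ω ((e.map φ).map φ.symm) ((f.map φ).map φ.symm)).2 = true then (1 : ZMod 2) else 0) = _
        rw [E2_aux1, E2_aux1]
        rfl
      rw [h1]

theorem mapE_wv {V : Type} {G : SimpleGraph V} (φ : G ≃g G) {u v : V} (w : G.Walk u v) :
    wv (w.map φ.toHom) = Finsupp.mapDomain (Sym2.map φ) (wv w) := by
  induction w with
  | nil =>
    show ([] : List (EC V)).sum = Finsupp.mapDomain (Sym2.map φ) ([] : List (EC V)).sum
    rw [List.sum_nil, Finsupp.mapDomain_zero]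
  | cons h p ih =>
    rw [SimpleGraph.Walk.map_cons, wv_cons, wv_cons, Finsupp.mapDomain_add, Finsupp.mapDomain_single, ih]
    rfl

theorem E2_aux5 {V : Type} {G : SimpleGraph V} (φ : G ≃g G) {c : EC V} (hc : c ∈ Zc G) :
    Finsupp.mapDomain (Sym2.map φ) c ∈ Zc G := by
  have h1 : Zc G ≤ (Zc G).comap (Finsupp.lmapDomain (ZMod 2) (ZMod 2) (Sym2.map φ)) := by
    unfold Zc
    rw [Submodule.span_le]
    rintro _ ⟨v, w, rfl⟩
    show Finsupp.mapDomain (Sym2.map φ) (wv w) ∈ Submodule.span (ZMod 2) {c | ∃ (v : V) (w : G.Walk v v), c = wv w}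
    exact Submodule.subset_span ⟨_, w.map φ.toHom, (mapE_wv φ w).symm⟩
  exact h1 hc

theorem E2_aux6 {V : Type} {G : SimpleGraph V} (φ : G ≃g G) {S S' : Set (Sym2 V)}
    (hS : ∀ f ∈ S', ∃ g ∈ S, f = g.map φ) {x : V} (hx : x ∈ Infv G S) : φ x ∈ Infv G S' := by
  have hhom : ∀ a b : V, (G.deleteEdges S).Adj a b → (G.deleteEdges S').Adj (φ a) (φ b) := by
    intro a b hab
    rw [SimpleGraph.deleteEdges_adj] at hab ⊢
    refine ⟨φ.map_adj_iff.2 hab.1, ?_⟩
    intro hmem
    obtain ⟨g, hg, hg2⟩ := hS _ hmem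
    apply hab.2
    have h3 : Sym2.map φ s(a, b) = Sym2.map φ g := hg2
    have h4 : s(a, b) = g := Sym2.map.injective φ.injective h3
    rw [h4]
    exact hg
  let F : (G.deleteEdges S) →g (G.deleteEdges S') := ⟨φ, fun {a b} hab => hhom a b hab⟩
  have hsub : φ '' (cmp G S x) ⊆ cmp G S' (φ x) := by
    rintro _ ⟨w, hw, rfl⟩
    exact SimpleGraph.Reachable.map F hw
  have hinf : (φ '' (cmp G S x)).Infinite := Set.Infinite.image (φ.injective.injOn) hx
  exact hinf.mono hsub

theorem E2_aux7 {V : Type} {G : SimpleGraph V} (φ : G ≃g G) (ω : Dat V) (c : EC V) :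
    ∀ f ∈ TS G (act φ ω) ((Finsupp.mapDomain (Sym2.map φ) c).support : Set (Sym2 V)),
      ∃ g ∈ TS G ω (c.support : Set (Sym2 V)), f = g.map φ := by
  classical
  rintro f ⟨hf, e, he, hef⟩
  have h1 : e ∈ c.support.image (Sym2.map φ) := Finsupp.mapDomain_support he
  obtain ⟨e0, he0, rfl⟩ := Finset.mem_image.1 h1
  refine ⟨f.map φ.symm, ⟨E2_aux3 φ.symm f hf, e0, he0, ?_⟩, (E2_aux2 φ f).symm⟩
  have h2 : (ω ((e0.map φ).map φ.symm) (f.map φ.symm)).1 = true := hef
  rw [E2_aux1] at h2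
  exact h2

theorem E2_aux8 {V : Type} {ω ω' : Dat V} {c c' : EC V}
    (h : ∀ e ∈ c.support, ∀ f ∈ c'.support, ω' e f = ω e f) : JJ ω' c c' = JJ ω c c' := by
  unfold JJ
  rw [Finsupp.linearCombination_apply, Finsupp.linearCombination_apply]
  unfold Finsupp.sum
  rw [LinearMap.sum_apply, LinearMap.sum_apply]
  apply Finset.sum_congr rfl
  intro e he
  rw [LinearMap.smul_apply, LinearMap.smul_apply, Finsupp.linearCombination_apply, Finsupp.linearCombination_apply]
  congr 1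
  apply Finset.sum_congr rfl
  intro f hf
  show c' f • TJ ω' e f = c' f • TJ ω e f
  unfold TJ
  rw [h e he f hf]

theorem uval_act {V : Type} {G : SimpleGraph V} {k d l : ℕ} {F : Finset V} (hS : Std G d l F) {ω : Dat V} (h : ω ∈ Om G k) {c : EC V}
    (hc : c ∈ Zc G) (v : V) (φ : G ≃g G) :
    uval G (act φ ω) (Finsupp.mapDomain (Sym2.map φ) c) (φ v) = uval G ω c v := by
  have hfin : (TS G ω (c.support : Set (Sym2 V))).Finite :=
    (TS_finite h (Finset.finite_toSet c.support) (Zc_supp hc)).1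
  obtain ⟨x, hx⟩ := Infv_nonempty hS hfin
  obtain ⟨w⟩ : G.Reachable v x := hS.conn.preconnected v x
  rw [uval_eq hS h hc hx w]
  have hx' : φ x ∈ Infv G (TS G (act φ ω) ((Finsupp.mapDomain (Sym2.map φ) c).support : Set (Sym2 V))) :=
    E2_aux6 φ (E2_aux7 φ ω c) hx
  have h2 := uval_eq hS (Om_act φ h) (E2_aux5 φ hc) (v := φ v) hx' (w.map φ.toHom)
  rw [h2]
  have h3 := mapE_wv φ w
  rw [h3]
  exact JJ_act φ ω c (wv w)

theorem uval_local {V : Type} {G : SimpleGraph V} {k d l : ℕ} {F : Finset V} (hS : Std G d l F) {ω : Dat V} (h : ω ∈ Om G k) {c : EC V}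
    (hc : c ∈ Zc G) (v : V) :
    ∃ E : Finset (Sym2 V), ∀ ω' ∈ Om G k, (∀ e ∈ E, ∀ f ∈ E, ω' e f = ω e f) → uval G ω' c v = uval G ω c v := by
  classical
  obtain ⟨Φ, hmono, hΦ⟩ := Infv_of_ball hS
  have hfin := TS_finite h (Finset.finite_toSet c.support) (Zc_supp hc)
  obtain ⟨x, hx⟩ := exists_far hS hfin.1 (Φ (k * (c.support : Set (Sym2 V)).ncard))
  obtain ⟨w⟩ : G.Reachable v x := hS.conn.preconnected v x
  have hB : (EB G (Bl G x (Φ (k * (c.support : Set (Sym2 V)).ncard)))).Finite :=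
    EB_finite G (Bl_finite hS.conn hS.fin x _)
  refine ⟨c.support ∪ w.edges.toFinset ∪ hB.toFinset, ?_⟩
  intro ω' hω' hag
  have hfin' := TS_finite hω' (Finset.finite_toSet c.support) (Zc_supp hc)
  have hx1 : x ∈ Infv G (TS G ω (c.support : Set (Sym2 V))) := hΦ _ _ hfin.1 hfin.2 x hx
  have hx2 : x ∈ Infv G (TS G ω' (c.support : Set (Sym2 V))) := by
    apply hΦ _ _ hfin'.1 hfin'.2 x
    rw [Set.disjoint_left] at hx ⊢
    intro f hf hf2
    apply hx hf
    obtain ⟨h1, e, he, hef⟩ := hf2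
    refine ⟨h1, e, he, ?_⟩
    have h3 : ω' e f = ω e f := hag e (by
      rw [Finset.mem_union, Finset.mem_union]
      exact Or.inl (Or.inl he)) f (by
      rw [Finset.mem_union]
      exact Or.inr (hB.mem_toFinset.2 hf))
    show (ω e f).1 = true
    rw [← h3]
    exact hef
  rw [uval_eq hS h hc hx1 w, uval_eq hS hω' hc hx2 w]
  apply E2_aux8
  intro e he f hf
  apply hag
  · rw [Finset.mem_union, Finset.mem_union]
    exact Or.inl (Or.inl he)
  · rw [Finset.mem_union, Finset.mem_union]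
    exact Or.inl (Or.inr (List.mem_toFinset.2 (wv_support w hf)))

end QPl
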