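import Pool.Agent.Lib.MP_d3a5e5_co.E1
import Pool.Agent.Lib.MP_d3a5e5_co.D2

set_option autoImplicit false

namespace QPl

open Finsupp SimpleGraph

theorem E3_aux1 {V : Type} {G : SimpleGraph V} {u v : V} (w : G.Walk u v) :
    ((wv w).support : Set (Sym2 V)).ncard ≤ w.length := by
  classical
  rw [Set.ncard_coe_finset]
  have h1 : (wv w).support ⊆ w.edges.toFinset := by
    intro e he
    rw [List.mem_toFinset]
    exact wv_support w he
  have h2 := Finset.card_le_card h1
  have h3 := List.toFinset_card_le w.edges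
  rw [SimpleGraph.Walk.length_edges] at h3
  omega

theorem uval_clean {V : Type} {G : SimpleGraph V} {k d l : ℕ} {F : Finset V} (hS : Std G d l F) :
    ∃ r : ℕ, ∀ ω ∈ Om G k, ∀ (y : V) (R : ℕ), Clean G ω y r R → ∀ (u : V) (w : G.Walk u u), w.length ≤ l →
      R + l < G.dist y u → uval G ω (wv w) y = 0 := by
  obtain ⟨Φ, -, hΦ⟩ := Infv_of_ball hS
  refine ⟨Φ (k * l), ?_⟩
  intro ω hω y R hcl u w hw hdist
  have hc : wv w ∈ Zc G := Submodule.subset_span ⟨u, w, rfl⟩
  have hsup : ((wv w).support : Set (Sym2 V)) ⊆ G.edgeSet := Zc_supp hc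
  obtain ⟨hSf, hScard⟩ := TS_finite hω (Finset.finite_toSet (wv w).support) hsup
  have hcard : (TS G ω ((wv w).support : Set (Sym2 V))).ncard ≤ k * l :=
    hScard.trans (Nat.mul_le_mul_left k ((E3_aux1 w).trans hw))
  refine uval_inf hS hω hc (hΦ (k * l) _ hSf hcard y ?_)
  rw [Set.disjoint_left]
  intro f hf1 hf2
  obtain ⟨hfe, e, he, hef⟩ := hf2
  have hee : e ∈ G.edgeSet := hsup he
  have h1 : e ∈ EB G (Bl G y R) := hcl ⟨hee, f, hf1, TX_symm hω hee hfe hef⟩
  have h2 : e ∈ w.edges := wv_support w he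
  obtain ⟨a, ha⟩ : ∃ a, a ∈ e := by
    induction e using Sym2.ind with
    | _ a b => exact ⟨a, Sym2.mem_mk_left a b⟩
  have h3 : G.dist u a ≤ w.length := dist_of_mem_edges w h2 ha
  have h4 : G.dist y a ≤ R := h1.2 a ha
  have h5 : G.dist y u ≤ G.dist y a + G.dist a u := hS.conn.dist_triangle
  rw [SimpleGraph.dist_comm (u := a) (v := u)] at h5
  omega

end QPl
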