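import Pool.Agent.Lib.MP_d3a5e5_co.E1

set_option autoImplicit false

namespace QPl

open Finsupp SimpleGraph

theorem rep_eval {V : Type} {G : SimpleGraph V} {k d l : ℕ} {F : Finset V} (hS : Std G d l F) {ω : Dat V} (h : ω ∈ Om G k)
    {B : Finset V} (ρ : GridRep G k B ω) {v v' : V} (Y : G.Walk v v') (hY : ∀ e ∈ Y.edges, e ∈ EB G (B : Set V)) {σ : C1}
    (hσ : bd σ = pt (ρ.p v) + pt (ρ.p v')) {γ : EC V} (hγ : InB G (B : Set V) γ) (hγ' : γ ∈ Zc G) :
    II (ρ.lin γ) σ = uval G ω γ v + uval G ω γ v' := by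
  have h1 : bd (ρ.lin γ) = 0 := lin_closed ρ hγ hγ'
  have h2 : bd σ = bd (ρ.lin (wv Y)) := by rw [hσ, bd_lin_wv ρ Y hY]
  rw [II_congr_right _ _ _ h1 h2, II_lin ρ hγ (fun e he => hY e (wv_support Y he))]
  exact (uval_diff hS h hγ' Y).symm

theorem E4_aux1 {V : Type} {G : SimpleGraph V} {x y : V} (P1 : G.Walk x y) (c : EC V)
    (hav : ∀ e ∈ P1.edges, e ∉ c.support) : pr c (wv P1) = 0 := by
  unfold pr
  rw [Finsupp.linearCombination_apply]
  apply Finset.sum_eq_zero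
  intro e he
  have h1 : e ∉ c.support := hav e (wv_support P1 he)
  rw [Finsupp.notMem_support_iff] at h1
  show (wv P1) e • c e = 0
  rw [h1, smul_zero]

theorem rep_eval2 {V : Type} {G : SimpleGraph V} {k d l : ℕ} {F : Finset V} (hS : Std G d l F) {ω : Dat V} (h : ω ∈ Om G k)
    {B : Finset V} (ρ : GridRep G k B ω) {v v' : V} (Y : G.Walk v v') (hY : ∀ e ∈ Y.edges, e ∈ EB G (B : Set V)) {σ : C1}
    (hσ : bd σ = pt (ρ.p v) + pt (ρ.p v')) {x y : V} (P0 P1 : G.Walk x y) (h0 : ∀ e ∈ P0.edges, e ∈ EB G (B : Set V))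
    (h1 : ∀ e ∈ P1.edges, e ∈ EB G (B : Set V)) (c c' : EC V) (hc : ∀ γ ∈ Zc G, uval G ω γ v = pr c γ)
    (hc' : ∀ γ ∈ Zc G, uval G ω γ v' = pr c' γ) (hav : ∀ e ∈ P1.edges, e ∉ c.support ∧ e ∉ c'.support)
    (hII : II (ρ.lin (wv P1)) σ = 0) : II (ρ.lin (wv P0)) σ = pr c (wv P0) + pr c' (wv P0) := by
  classical
  have hmem : wv P0 + wv P1 ∈ Zc G := wv_add_mem P0 P1
  have hin : InB G (B : Set V) (wv P0 + wv P1) := by
    intro e he
    rcases Finset.mem_union.1 (Finsupp.support_add he) with h2 | h2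
    · exact h0 e (wv_support P0 h2)
    · exact h1 e (wv_support P1 h2)
  have key := rep_eval hS h ρ Y hY hσ hin hmem
  have e1 : II (ρ.lin (wv P0 + wv P1)) σ = II (ρ.lin (wv P0)) σ := by
    rw [map_add, map_add, LinearMap.add_apply, hII, add_zero]
  have e2 : pr c (wv P0 + wv P1) = pr c (wv P0) := by
    rw [map_add, E4_aux1 P1 c (fun e he => (hav e he).1), add_zero]
  have e3 : pr c' (wv P0 + wv P1) = pr c' (wv P0) := by
    rw [map_add, E4_aux1 P1 c' (fun e he => (hav e he).2), add_zero]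
  rw [hc _ hmem, hc' _ hmem, e1, e2, e3] at key
  exact key

end QPl
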