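import Pool.Agent.Lib.MP_d3a5e5_co.C5
import Pool.Agent.Lib.MP_d3a5e5_co.C1
import Pool.Agent.Lib.MP_d3a5e5_co.D2

set_option autoImplicit false

namespace QPl

open Finsupp SimpleGraph

theorem F1_aux1 {V : Type} {G : SimpleGraph V} (ψ : G ≃g G) (v : V) (R : ℕ) (e : Sym2 V) :
    e.map ψ ∈ EB G (Bl G (ψ v) R) ↔ e ∈ EB G (Bl G v R) := by
  induction e using Sym2.ind with
  | _ x y =>
    have hd : ∀ z : V, ψ z ∈ Bl G (ψ v) R ↔ z ∈ Bl G v R := by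
      intro z
      show G.dist (ψ v) (ψ z) ≤ R ↔ G.dist v z ≤ R
      rw [iso_dist]
    show (s(ψ x, ψ y) ∈ G.edgeSet ∧ ∀ w ∈ s(ψ x, ψ y), w ∈ Bl G (ψ v) R) ↔
      (s(x, y) ∈ G.edgeSet ∧ ∀ w ∈ s(x, y), w ∈ Bl G v R)
    constructor
    · rintro ⟨h1, h2⟩
      refine ⟨?_, ?_⟩
      · rw [SimpleGraph.mem_edgeSet] at h1 ⊢
        exact ψ.map_adj_iff.1 h1
      · intro w hw
        rcases Sym2.mem_iff.1 hw with rfl | rfl
        · exact (hd _).1 (h2 _ (Sym2.mem_mk_left _ _))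
        · exact (hd _).1 (h2 _ (Sym2.mem_mk_right _ _))
    · rintro ⟨h1, h2⟩
      refine ⟨?_, ?_⟩
      · rw [SimpleGraph.mem_edgeSet] at h1 ⊢
        exact ψ.map_adj_iff.2 h1
      · intro w hw
        rcases Sym2.mem_iff.1 hw with rfl | rfl
        · exact (hd _).2 (h2 _ (Sym2.mem_mk_left _ _))
        · exact (hd _).2 (h2 _ (Sym2.mem_mk_right _ _))

theorem F1_aux2 {V : Type} {G : SimpleGraph V} (ψ : G ≃g G) (e : Sym2 V) :
    (e.map ψ).map ψ.symm = e := by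
  rw [Sym2.map_map]
  have h1 : (ψ.symm : V → V) ∘ (ψ : V → V) = id := by
    funext z
    exact ψ.symm_apply_apply z
  rw [h1]
  exact congrFun Sym2.map_id e

theorem F1_aux3 {V : Type} {G : SimpleGraph V} (ψ : G ≃g G) (e : Sym2 V) (he : e ∈ G.edgeSet) :
    e.map ψ ∈ G.edgeSet := by
  induction e using Sym2.ind with
  | _ x y =>
    show s(ψ x, ψ y) ∈ G.edgeSet
    rw [SimpleGraph.mem_edgeSet] at he ⊢
    exact ψ.map_adj_iff.2 he

theorem F1_aux4 {V : Type} {G : SimpleGraph V} (φ ψ : G ≃g G) (ω : Dat V) :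
    act (φ.symm.trans ψ) (act φ ω) = act ψ ω := by
  have h1 : ∀ e : Sym2 V, (e.map (φ.symm.trans ψ).symm).map φ.symm = e.map ψ.symm := by
    intro e
    rw [Sym2.map_map]
    have h1 : (φ.symm : V → V) ∘ ((φ.symm.trans ψ).symm : V → V) = (ψ.symm : V → V) := by
      funext z
      exact φ.symm_apply_apply (ψ.symm z)
    rw [h1]
  funext e f
  show ω ((e.map (φ.symm.trans ψ).symm).map φ.symm) ((f.map (φ.symm.trans ψ).symm).map φ.symm) =
    ω (e.map ψ.symm) (f.map ψ.symm)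
  rw [h1, h1]

theorem F1_aux5 {V : Type} {G : SimpleGraph V} (ψ : G ≃g G) (ω : Dat V) (e f : Sym2 V) (h : TX ω e f) :
    TX (act ψ ω) (e.map ψ) (f.map ψ) := by
  show (ω ((e.map ψ).map ψ.symm) ((f.map ψ).map ψ.symm)).1 = true
  rw [F1_aux2, F1_aux2]
  exact h

theorem clean_exists {V : Type} {G : SimpleGraph V} {k d l : ℕ} {F : Finset V} (hS : Std G d l F) {M : Set (Dat V)} (hM : IsMin G k M) (r : ℕ) :
    ∃ (R : ℕ) (MC : Dat V → V → Prop), (∀ (φ : G ≃g G) (ω : Dat V) (v : V), MC ω v → MC (act φ ω) (φ v)) ∧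
      (∀ ω ∈ M, ∀ v, MC ω v → ∃ E : Finset (Sym2 V), ∀ ω' ∈ M, (∀ e ∈ E, ∀ f ∈ E, ω' e f = ω e f) → MC ω' v) ∧
      (∀ ω ∈ M, ∀ v, MC ω v → Clean G ω v r R) ∧ (∃ ω ∈ M, ∃ v, MC ω v) := by
  classical
  have hinf : Infinite V := hS.inf
  obtain ⟨o⟩ : Nonempty V := inferInstance
  have hAfin : (EB G (Bl G o r)).Finite := EB_finite G (Bl_finite hS.conn hS.fin o r)
  obtain ⟨A, hA⟩ : ∃ A : Finset (Sym2 V), (A : Set (Sym2 V)) = EB G (Bl G o r) :=
    ⟨hAfin.toFinset, hAfin.coe_toFinset⟩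
  have hAe : ∀ e ∈ A, e ∈ G.edgeSet := by
    intro e he
    have h1 : e ∈ EB G (Bl G o r) := by rw [← hA]; exact he
    exact h1.1
  have hTSe : ∀ (ω : Dat V) (e : Sym2 V), TS G ω {e} = {f | f ∈ G.edgeSet ∧ TX ω e f} := by
    intro ω e
    ext f
    constructor
    · rintro ⟨h1, e', he', h2⟩
      rw [Set.mem_singleton_iff] at he'
      subst he'
      exact ⟨h1, h2⟩
    · rintro ⟨h1, h2⟩
      exact ⟨h1, e, rfl, h2⟩
  have hfe : ∀ ω ∈ M, ∀ e ∈ A, {f | f ∈ G.edgeSet ∧ TX ω e f}.Finite ∧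
      {f | f ∈ G.edgeSet ∧ TX ω e f}.ncard ≤ k := by
    intro ω hω e he
    have h1 := TS_finite (hM.sub hω) (Set.finite_singleton e) (by
      intro x hx
      rw [Set.mem_singleton_iff] at hx
      subst hx
      exact hAe _ he)
    rw [hTSe, Set.ncard_singleton, mul_one] at h1
    exact h1
  obtain ⟨cnt, hcnt⟩ : ∃ cnt : Dat V → ℕ, ∀ ω, cnt ω = ∑ e ∈ A, {f | f ∈ G.edgeSet ∧ TX ω e f}.ncard :=
    ⟨_, fun _ => rfl⟩
  have hbdd : ∀ ω ∈ M, cnt ω ≤ A.card * k := by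
    intro ω hω
    rw [hcnt, ← smul_eq_mul]
    exact Finset.sum_le_card_nsmul _ _ _ (fun e he => (hfe ω hω e he).2)
  obtain ⟨ωs, hωs, hmax⟩ : ∃ ωs ∈ M, ∀ ω ∈ M, cnt ω ≤ cnt ωs := by
    have hne : (cnt '' M).Nonempty := hM.nonempty.image _
    have hb : BddAbove (cnt '' M) := by
      refine ⟨A.card * k, ?_⟩
      rintro _ ⟨ω, hω, rfl⟩
      exact hbdd ω hω
    obtain ⟨ωs, h1, h2⟩ := Nat.sSup_mem hne hb
    refine ⟨ωs, h1, fun ω hω => ?_⟩
    rw [h2]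
    exact le_csSup hb ⟨ω, hω, rfl⟩
  have hTSfin : (TS G ωs (A : Set (Sym2 V))).Finite :=
    (TS_finite (hM.sub hωs) (Finset.finite_toSet A) (fun e he => hAe e he)).1
  obtain ⟨R, hR⟩ := edges_sub_ball o hTSfin (fun f hf => hf.1)
  have hBfin : (EB G (Bl G o R)).Finite := EB_finite G (Bl_finite hS.conn hS.fin o R)
  obtain ⟨cntR, hcntR⟩ : ∃ cntR : Dat V → ℕ, ∀ ω, cntR ω = ∑ e ∈ A, {f | f ∈ EB G (Bl G o R) ∧ TX ω e f}.ncard :=
    ⟨_, fun _ => rfl⟩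
  have hsub : ∀ (ω : Dat V) (e : Sym2 V), {f | f ∈ EB G (Bl G o R) ∧ TX ω e f} ⊆ {f | f ∈ G.edgeSet ∧ TX ω e f} := by
    rintro ω e f ⟨h1, h2⟩
    exact ⟨h1.1, h2⟩
  have hstar : cntR ωs = cnt ωs := by
    rw [hcnt, hcntR]
    apply Finset.sum_congr rfl
    intro e he
    congr 1
    apply Set.Subset.antisymm (hsub ωs e)
    rintro f ⟨h1, h2⟩
    exact ⟨hR ⟨h1, e, he, h2⟩, h2⟩
  refine ⟨R, fun ω y => ∃ φ : G ≃g G, φ y = o ∧ cnt ωs ≤ cntR (act φ ω), ?_, ?_, ?_, ?_⟩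
  · rintro φ ω v ⟨ψ, h1, h2⟩
    refine ⟨φ.symm.trans ψ, ?_, ?_⟩
    · show ψ (φ.symm (φ v)) = o
      rw [φ.symm_apply_apply, h1]
    · rw [F1_aux4]
      exact h2
  · rintro ω hω v ⟨ψ, h1, h2⟩
    refine ⟨(A ∪ hBfin.toFinset).image (fun e => e.map ψ.symm), ?_⟩
    intro ω' hω' hag
    refine ⟨ψ, h1, ?_⟩
    have h3 : cntR (act ψ ω') = cntR (act ψ ω) := by
      rw [hcntR, hcntR]
      apply Finset.sum_congr rfl
      intro e he
      congr 1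
      ext f
      constructor
      · rintro ⟨h4, h5⟩
        refine ⟨h4, ?_⟩
        have h6 : ω' (e.map ψ.symm) (f.map ψ.symm) = ω (e.map ψ.symm) (f.map ψ.symm) :=
          hag _ (Finset.mem_image_of_mem _ (Finset.mem_union_left _ he)) _
            (Finset.mem_image_of_mem _ (Finset.mem_union_right _ (hBfin.mem_toFinset.2 h4)))
        have h7 : (ω' (e.map ψ.symm) (f.map ψ.symm)).1 = true := h5
        rw [h6] at h7
        exact h7
      · rintro ⟨h4, h5⟩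
        refine ⟨h4, ?_⟩
        have h6 : ω' (e.map ψ.symm) (f.map ψ.symm) = ω (e.map ψ.symm) (f.map ψ.symm) :=
          hag _ (Finset.mem_image_of_mem _ (Finset.mem_union_left _ he)) _
            (Finset.mem_image_of_mem _ (Finset.mem_union_right _ (hBfin.mem_toFinset.2 h4)))
        have h7 : (ω (e.map ψ.symm) (f.map ψ.symm)).1 = true := h5
        rw [← h6] at h7
        exact h7
    show cnt ωs ≤ cntR (act ψ ω')
    rw [h3]
    exact h2
  · rintro ω hω v ⟨ψ, h1, h2⟩ f hf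
    obtain ⟨hfe', e, he, hef⟩ := hf
    have hM' : act ψ ω ∈ M := hM.inv ψ ω hω
    have hle : ∀ e ∈ A, {f | f ∈ EB G (Bl G o R) ∧ TX (act ψ ω) e f}.ncard ≤
        {f | f ∈ G.edgeSet ∧ TX (act ψ ω) e f}.ncard := fun e he =>
      Set.ncard_le_ncard (hsub _ e) (hfe _ hM' e he).1
    have hsum : ∑ e ∈ A, {f | f ∈ EB G (Bl G o R) ∧ TX (act ψ ω) e f}.ncard =
        ∑ e ∈ A, {f | f ∈ G.edgeSet ∧ TX (act ψ ω) e f}.ncard := by
      apply le_antisymm (Finset.sum_le_sum hle)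
      rw [← hcnt, ← hcntR]
      exact (hmax _ hM').trans h2
    have heq := (Finset.sum_eq_sum_iff_of_le hle).1 hsum
    have heA : e.map ψ ∈ A := by
      have h3 : e.map ψ ∈ EB G (Bl G (ψ v) r) := (F1_aux1 ψ v r e).2 he
      rw [h1, ← hA] at h3
      exact h3
    have hset : {f | f ∈ EB G (Bl G o R) ∧ TX (act ψ ω) (e.map ψ) f} =
        {f | f ∈ G.edgeSet ∧ TX (act ψ ω) (e.map ψ) f} :=
      Set.eq_of_subset_of_ncard_le (hsub _ _) (heq _ heA).ge (hfe _ hM' _ heA).1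
    have hmem : f.map ψ ∈ {f | f ∈ G.edgeSet ∧ TX (act ψ ω) (e.map ψ) f} :=
      ⟨F1_aux3 ψ f hfe', F1_aux5 ψ ω e f hef⟩
    rw [← hset] at hmem
    have h4 := hmem.1
    rw [← h1] at h4
    exact (F1_aux1 ψ v R f).1 h4
  · refine ⟨ωs, hωs, o, SimpleGraph.Iso.refl, rfl, ?_⟩
    have h3 : act (SimpleGraph.Iso.refl : G ≃g G) ωs = ωs := by
      funext e f
      have h4 : ∀ e : Sym2 V, e.map (SimpleGraph.Iso.refl : G ≃g G).symm = e := by
        intro e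
        exact congrFun Sym2.map_id e
      show ωs (e.map (SimpleGraph.Iso.refl : G ≃g G).symm) (f.map (SimpleGraph.Iso.refl : G ≃g G).symm) = ωs e f
      rw [h4, h4]
    rw [h3, hstar]

end QPl
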