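import Pool.Agent.Lib.MP_d3a5e5_co.E1
import Pool.Agent.Lib.MP_d3a5e5_co.D2

set_option autoImplicit false

namespace QPl

open Finsupp SimpleGraph

theorem H1a_aux1 {V : Type} (ω : Dat V) (γ δ : EC V) :
    JJ ω γ δ = γ.sum (fun e a => a • Finsupp.linearCombination (ZMod 2) (TJ ω e) δ) := by
  unfold JJ
  rw [Finsupp.linearCombination_apply, Finsupp.sum, LinearMap.sum_apply, Finsupp.sum]
  rfl

theorem H1a_aux2 {V : Type} {G : SimpleGraph V} {k : ℕ} {ω : Dat V} (h : ω ∈ Om G k) {v y : V} (p : G.Walk v y)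
    {f : Sym2 V} (hf : f ∈ G.edgeSet) (hT : f ∉ TS G ω {e | e ∈ p.edges}) :
    Finsupp.linearCombination (ZMod 2) (TJ ω f) (wv p) = 0 := by
  rw [Finsupp.linearCombination_apply, Finsupp.sum]
  apply Finset.sum_eq_zero
  intro e he
  have he1 := wv_support p he
  have he2 : e ∈ G.edgeSet := p.edges_subset_edgeSet he1
  rw [TJ_zero h hf he2, smul_zero]
  intro hx
  exact hT ⟨hf, e, he1, TX_symm h hf he2 hx⟩

theorem H1a_aux3 {α : Type} (l : List α) : {e | e ∈ l}.Finite ∧ {e | e ∈ l}.ncard ≤ l.length := by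
  classical
  have h1 : {e | e ∈ l} = (l.toFinset : Set α) := by
    ext x
    simp
  rw [h1]
  refine ⟨Finset.finite_toSet _, ?_⟩
  rw [Set.ncard_coe_finset]
  exact List.toFinset_card_le l

theorem jcochain {V : Type} {G : SimpleGraph V} {k : ℕ} {ω : Dat V} (h : ω ∈ Om G k) {v y : V} (p : G.Walk v y) :
    ∃ j : EC V, (∀ γ : EC V, (γ.support : Set (Sym2 V)) ⊆ G.edgeSet → pr j γ = JJ ω γ (wv p)) ∧
      j.support.card ≤ k * p.length ∧ (j.support : Set (Sym2 V)) ⊆ TS G ω {e | e ∈ p.edges} := by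
  classical
  obtain ⟨hfin, hcard⟩ := H1a_aux3 p.edges
  obtain ⟨hT, hTc⟩ := TS_finite h hfin (fun e he => p.edges_subset_edgeSet he)
  have hsub : ∀ f : Sym2 V, (if f ∈ TS G ω {e | e ∈ p.edges} then
      Finsupp.linearCombination (ZMod 2) (TJ ω f) (wv p) else 0) ≠ 0 → f ∈ hT.toFinset := by
    intro f hf
    rw [Set.Finite.mem_toFinset]
    by_contra hn
    rw [if_neg hn] at hf
    exact hf rfl
  refine ⟨Finsupp.onFinset hT.toFinset (fun f => if f ∈ TS G ω {e | e ∈ p.edges} then
      Finsupp.linearCombination (ZMod 2) (TJ ω f) (wv p) else 0) hsub, ?_, ?_, ?_⟩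
  · intro γ hγ
    rw [H1a_aux1]
    unfold pr
    rw [Finsupp.linearCombination_apply]
    apply Finsupp.sum_congr
    intro f hf
    congr 1
    rw [Finsupp.onFinset_apply]
    by_cases hx : f ∈ TS G ω {e | e ∈ p.edges}
    · rw [if_pos hx]
    · rw [if_neg hx, H1a_aux2 h p (hγ hf) hx]
  · refine le_trans (Finset.card_le_card Finsupp.support_onFinset_subset) ?_
    rw [← Set.ncard_eq_toFinset_card _ hT]
    refine le_trans hTc (Nat.mul_le_mul_left _ ?_)
    rw [← p.length_edges]
    exact hcard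
  · intro f hf
    have := Finsupp.support_onFinset_subset hf
    rwa [Set.Finite.mem_toFinset] at this

/-- Adding the cochain of a walk transports a representing cochain along the walk. -/
theorem cochain_transport {V : Type} {G : SimpleGraph V} {k d l : ℕ} {F : Finset V} (hS : Std G d l F) {ω : Dat V} (h : ω ∈ Om G k)
    {v y : V} (p : G.Walk v y) {c j : EC V} (hc : ∀ γ ∈ Zc G, uval G ω γ y = pr c γ)
    (hj : ∀ γ : EC V, (γ.support : Set (Sym2 V)) ⊆ G.edgeSet → pr j γ = JJ ω γ (wv p)) :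
    ∀ γ ∈ Zc G, uval G ω γ v = pr (c + j : EC V) γ := by
  intro γ hγ
  have h1 := uval_diff hS h hγ p
  have h2 := hj γ (Zc_supp hγ)
  have h3 := hc γ hγ
  have h4 : pr (c + j : EC V) γ = pr c γ + pr j γ := by
    unfold pr
    rw [Finsupp.linearCombination_apply, Finsupp.linearCombination_apply,
      Finsupp.linearCombination_apply, ← Finsupp.sum_add]
    apply Finsupp.sum_congr
    intro f _
    rw [Finsupp.add_apply, smul_add]
  rw [h4, h2, ← h3, ← h1, add_comm, add_assoc, CharTwo.add_self_eq_zero, add_zero]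

end QPl
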