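import Pool.Agent.Lib.MP_d3a5e5_co.E2
import Pool.Agent.Lib.MP_d3a5e5_co.E3
import Pool.Agent.Lib.MP_d3a5e5_co.C5

set_option autoImplicit false

namespace QPl

open Finsupp SimpleGraph

def PrC {V : Type} (G : SimpleGraph V) (l R N : ℕ) (ω : Dat V) (y : V) : Prop :=
  ∃ c : EC V, (c.support : Set (Sym2 V)) ⊆ EB G (Bl G y R) ∧
    ∀ (u : V) (w : G.Walk u u), w.length ≤ l → G.dist y u ≤ N → uval G ω (wv w) y = pr c (wv w)

theorem H1b_aux1 {V : Type} {G : SimpleGraph V} (φ : G ≃g G) (c γ : EC V) :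
    pr (Finsupp.mapDomain (Sym2.map φ) c : EC V) (Finsupp.mapDomain (Sym2.map φ) γ) = pr c γ := by
  unfold pr
  rw [Finsupp.linearCombination_mapDomain]
  have hinj : Function.Injective (Sym2.map (φ : V → V)) := Sym2.map.injective φ.injective
  have hfun : ((Finsupp.mapDomain (Sym2.map φ) c : EC V) : Sym2 V → ZMod 2) ∘ (Sym2.map (φ : V → V)) =
      (c : Sym2 V → ZMod 2) := by
    funext e
    exact Finsupp.mapDomain_apply hinj c e
  rw [hfun]

theorem H1b_aux2 {V : Type} {G : SimpleGraph V} (φ : G ≃g G) (y : V) (R : ℕ) (e : Sym2 V)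
    (he : e ∈ EB G (Bl G y R)) : Sym2.map φ e ∈ EB G (Bl G (φ y) R) := by
  induction e using Sym2.ind with
  | _ a b =>
    obtain ⟨hab, hm⟩ := he
    have hab' : G.Adj a b := hab
    refine ⟨?_, ?_⟩
    · change G.Adj (φ a) (φ b)
      exact φ.map_adj_iff.mpr hab'
    · intro v hv
      have hv' : v ∈ s(φ a, φ b) := hv
      rw [Sym2.mem_iff] at hv'
      have ha : G.dist y a ≤ R := hm a (Sym2.mem_mk_left a b)
      have hb : G.dist y b ≤ R := hm b (Sym2.mem_mk_right a b)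
      change G.dist (φ y) v ≤ R
      rcases hv' with rfl | rfl
      · rw [iso_dist]
        exact ha
      · rw [iso_dist]
        exact hb

theorem H1b_aux3 {V : Type} {G : SimpleGraph V} (φ : G ≃g G) {u v : V} (w : G.Walk u v) :
    Finsupp.mapDomain (Sym2.map φ) (wv (w.map φ.symm.toHom)) = wv w := by
  rw [mapE_wv φ.symm w, ← Finsupp.mapDomain_comp]
  have hcomp : (Sym2.map (φ : V → V)) ∘ (Sym2.map (φ.symm : V → V)) = id := by
    funext e
    induction e using Sym2.ind with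
    | _ a b => simp
  rw [hcomp, Finsupp.mapDomain_id]

theorem H1b_aux4 {V : Type} {G : SimpleGraph V} {u v : V} (w : G.Walk u v) :
    ∀ e ∈ w.edges, ∀ x ∈ e, G.dist u x ≤ w.length := by
  intro e he x hx
  have hxs : x ∈ w.support := SimpleGraph.Walk.mem_support_of_mem_edges he hx
  classical
  calc G.dist u x ≤ (w.takeUntil x hxs).length := SimpleGraph.dist_le _
    _ ≤ w.length := SimpleGraph.Walk.length_takeUntil_le_length w hxs

theorem H1b_aux5 {V : Type} {G : SimpleGraph V} (hc : G.Connected) (l N : ℕ) (y : V)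
    (hf : ∀ v, (G.neighborSet v).Finite) :
    {γ : EC V | ∃ (u : V) (w : G.Walk u u), w.length ≤ l ∧ G.dist y u ≤ N ∧ γ = wv w}.Finite := by
  classical
  have hfin : (EB G (Bl G y (N + l))).Finite := EB_finite G (Bl_finite hc hf y (N + l))
  refine Set.Finite.subset (Finset.finite_toSet (hfin.toFinset.finsupp (fun _ => (Finset.univ : Finset (ZMod 2))))) ?_
  rintro γ ⟨u, w, hl, hd, rfl⟩
  rw [Finset.mem_coe, Finset.mem_finsupp_iff]
  refine ⟨?_, fun i _ => Finset.mem_univ _⟩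
  intro e he
  rw [Set.Finite.mem_toFinset]
  have hew : e ∈ w.edges := wv_support w he
  refine ⟨SimpleGraph.Walk.edges_subset_edgeSet w hew, ?_⟩
  intro x hx
  have h1 := H1b_aux4 w e hew x hx
  have h2 : G.dist y x ≤ G.dist y u + G.dist u x := hc.dist_triangle
  change G.dist y x ≤ N + l
  omega

theorem PrC_eqv {V : Type} {G : SimpleGraph V} {k d l : ℕ} {F : Finset V} (hS : Std G d l F) (R N : ℕ) {ω : Dat V} (h : ω ∈ Om G k)
    {y : V} (φ : G ≃g G) (hP : PrC G l R N ω y) : PrC G l R N (act φ ω) (φ y) := by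
  classical
  obtain ⟨c, hc, hw⟩ := hP
  refine ⟨Finsupp.mapDomain (Sym2.map φ) c, ?_, ?_⟩
  · intro e he
    have he' := Finsupp.mapDomain_support (Finset.mem_coe.mp he)
    rw [Finset.mem_image] at he'
    obtain ⟨e0, he0, rfl⟩ := he'
    exact H1b_aux2 φ y R e0 (hc (Finset.mem_coe.mpr he0))
  · intro u w hl hd
    have hd0 : G.dist y (φ.symm u) ≤ N := by
      have h1 := iso_dist φ y (φ.symm u)
      rw [RelIso.apply_symm_apply] at h1
      rw [← h1]
      exact hd
    have hl0 : (w.map φ.symm.toHom).length ≤ l := by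
      rw [SimpleGraph.Walk.length_map]
      exact hl
    have h0 := hw (φ.symm u) (w.map φ.symm.toHom) hl0 hd0
    have hz : wv (w.map φ.symm.toHom) ∈ Zc G := Submodule.subset_span ⟨_, _, rfl⟩
    have h1 := uval_act hS h hz y φ
    have h2 := H1b_aux1 φ c (wv (w.map φ.symm.toHom))
    rw [H1b_aux3 φ w] at h1 h2
    rw [h1, h2]
    exact h0

theorem PrC_loc {V : Type} {G : SimpleGraph V} {k d l : ℕ} {F : Finset V} (hS : Std G d l F) (R N : ℕ) {ω : Dat V} (h : ω ∈ Om G k)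
    {y : V} (hP : PrC G l R N ω y) :
    ∃ E : Finset (Sym2 V), ∀ ω' ∈ Om G k, (∀ e ∈ E, ∀ f ∈ E, ω' e f = ω e f) → PrC G l R N ω' y := by
  classical
  obtain ⟨c, hc, hw⟩ := hP
  have hT := H1b_aux5 hS.conn l N y hS.fin
  have hE : ∀ γ : EC V, ∃ E : Finset (Sym2 V), γ ∈ Zc G → ∀ ω' ∈ Om G k, (∀ e ∈ E, ∀ f ∈ E, ω' e f = ω e f) →
      uval G ω' γ y = uval G ω γ y := by
    intro γ
    by_cases hγ : γ ∈ Zc G
    · obtain ⟨E, hE⟩ := uval_local hS h hγ y
      exact ⟨E, fun _ => hE⟩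
    · exact ⟨∅, fun hh => absurd hh hγ⟩
  choose E hE using hE
  refine ⟨hT.toFinset.biUnion E, ?_⟩
  intro ω' hω' hag
  refine ⟨c, hc, ?_⟩
  intro u w hl hd
  have hz : wv w ∈ Zc G := Submodule.subset_span ⟨_, _, rfl⟩
  have hmem : wv w ∈ hT.toFinset := by
    rw [Set.Finite.mem_toFinset]
    exact ⟨u, w, hl, hd, rfl⟩
  have h1 := hE (wv w) hz ω' hω' (fun e he f hf => hag e (Finset.mem_biUnion.mpr ⟨_, hmem, he⟩) f
    (Finset.mem_biUnion.mpr ⟨_, hmem, hf⟩))
  rw [h1]
  exact hw u w hl hd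

end QPl
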