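import Pool.Agent.Lib.MP_d3a5e5_co.F1
import Pool.Agent.Lib.MP_d3a5e5_co.H1a
import Pool.Agent.Lib.MP_d3a5e5_co.H1b

set_option autoImplicit false

namespace QPl

open Finsupp SimpleGraph

private theorem H1_pr_congr {V : Type} {c c' : Sym2 V → ZMod 2} {γ : EC V} (h : ∀ e ∈ γ.support, c e = c' e) :
    pr c γ = pr c' γ := by
  unfold pr
  rw [Finsupp.linearCombination_apply, Finsupp.linearCombination_apply]
  exact Finsupp.sum_congr fun e he => by rw [h e he]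

private theorem H1_rep {V : Type} {G : SimpleGraph V} {k d l : ℕ} {F : Finset V} (hS : Std G d l F) {ω : Dat V}
    (hω : ω ∈ Om G k) {r R R1 : ℕ} (hR : R ≤ R1) {y : V} (hcl : Clean G ω y r R)
    (hr : ∀ ω ∈ Om G k, ∀ (y : V) (R : ℕ), Clean G ω y r R → ∀ (u : V) (w : G.Walk u u), w.length ≤ l →
      R + l < G.dist y u → uval G ω (wv w) y = 0) (hP : PrC G l R1 (R1 + l) ω y) :
    ∃ c : EC V, (c.support : Set (Sym2 V)) ⊆ EB G (Bl G y R1) ∧ ∀ γ ∈ Zc G, uval G ω γ y = pr c γ := by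
  obtain ⟨c, hc1, hc2⟩ := hP
  refine ⟨c, hc1, uval_span hS hω y c fun u w hw => ?_⟩
  by_cases hd : G.dist y u ≤ R1 + l
  · exact hc2 u w hw hd
  · rw [hr ω hω y R hcl u w hw (by omega)]
    have h0 : pr c (wv w) = pr (fun _ => 0) (wv w) := by
      refine H1_pr_congr fun e he => ?_
      by_contra hne
      have he1 : e ∈ EB G (Bl G y R1) := hc1 (by
        rw [Finset.mem_coe, Finsupp.mem_support_iff]
        exact hne)
      have he2 := wv_support w he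
      obtain ⟨x, hx⟩ : ∃ x, x ∈ e := by
        induction e using Sym2.ind with
        | _ a b => exact ⟨a, Sym2.mem_mk_left a b⟩
      have h1 : G.dist y x ≤ R1 := he1.2 x hx
      have h2 : G.dist u x ≤ w.length := dist_of_mem_edges w he2 hx
      have h3 : G.dist y u ≤ G.dist y x + G.dist x u := hS.conn.dist_triangle
      rw [SimpleGraph.dist_comm (u := x) (v := u)] at h3
      omega
    rw [h0]
    unfold pr
    rw [Finsupp.linearCombination_apply]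
    simp

theorem cochain_unif {V : Type} {G : SimpleGraph V} {k d l : ℕ} {F : Finset V} (hS : Std G d l F) {M : Set (Dat V)} (hM : IsMin G k M)
    {ω₀ : Dat V} (h0 : ω₀ ∈ M) {v₀ : V} {c₀ : EC V} (hc : ∀ γ ∈ Zc G, uval G ω₀ γ v₀ = pr c₀ γ) :
    ∃ A R : ℕ, ∀ ω ∈ M, ∀ v, ∃ c : EC V, c.support.card ≤ A ∧ (c.support : Set (Sym2 V)) ⊆ TS G ω (EB G (Bl G v R)) ∧
      ∀ γ ∈ Zc G, uval G ω γ v = pr c γ := by
  classical
  have hOm : ∀ ω ∈ M, ω ∈ Om G k := fun ω h => hM.sub h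
  obtain ⟨r, hr⟩ := uval_clean (k := k) hS
  obtain ⟨R, MC, hMC1, hMC2, hMC3, ω1, hω1, v1, hv1⟩ := clean_exists hS hM r
  obtain ⟨D0, hD0⟩ := recurrence hS hM MC hMC1 hMC2 hω1 hv1
  obtain ⟨y0, _, hy0⟩ := hD0 ω₀ h0 v₀
  obtain ⟨p0⟩ := hS.conn.preconnected y0 v₀
  obtain ⟨j0, hj0, _, _⟩ := jcochain (hOm ω₀ h0) p0
  have ht0 := cochain_transport hS (hOm ω₀ h0) p0 hc hj0
  set c1 : EC V := (c₀ + j0).filter (fun e => e ∈ G.edgeSet) with hc1def
  have hc1 : ∀ γ ∈ Zc G, uval G ω₀ γ y0 = pr c1 γ := by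
    intro γ hγ
    rw [ht0 γ hγ]
    refine H1_pr_congr fun e he => ?_
    rw [hc1def, Finsupp.filter_apply_pos (fun e => e ∈ G.edgeSet) (c₀ + j0) (Zc_supp hγ he)]
  have hc1s : (c1.support : Set (Sym2 V)) ⊆ G.edgeSet := by
    intro e he
    rw [Finset.mem_coe, hc1def, Finsupp.support_filter, Finset.mem_filter] at he
    exact he.2
  obtain ⟨r', hr'⟩ := edges_sub_ball y0 (Finset.finite_toSet c1.support) hc1s
  set R1 : ℕ := max R r' with hR1
  have hRR1 : R ≤ R1 := le_max_left _ _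
  have hc1b : (c1.support : Set (Sym2 V)) ⊆ EB G (Bl G y0 R1) :=
    hr'.trans (EB_mono G (Bl_mono G y0 (le_max_right _ _)))
  obtain ⟨D1, hD1⟩ := recurrence hS hM (fun ω y => ω ∈ M ∧ MC ω y ∧ PrC G l R1 (R1 + l) ω y)
    (fun φ ω v h => ⟨hM.inv φ ω h.1, hMC1 φ ω v h.2.1, PrC_eqv hS R1 (R1 + l) (hOm ω h.1) φ h.2.2⟩)
    (fun ω hω v h => by
      obtain ⟨E1, hE1⟩ := hMC2 ω hω v h.2.1
      obtain ⟨E2, hE2⟩ := PrC_loc hS R1 (R1 + l) (hOm ω hω) h.2.2
      refine ⟨E1 ∪ E2, fun ω' hω' hag => ⟨hω', hE1 ω' hω' fun e he f hf => ?_, hE2 ω' (hOm ω' hω') fun e he f hf => ?_⟩⟩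
      · exact hag e (Finset.mem_union_left _ he) f (Finset.mem_union_left _ hf)
      · exact hag e (Finset.mem_union_right _ he) f (Finset.mem_union_right _ hf))
    h0 (v₀ := y0) ⟨h0, hy0, c1, hc1b, fun u w _ _ => hc1 (wv w) (Submodule.subset_span ⟨u, w, rfl⟩)⟩
  obtain ⟨A1, hA1⟩ := EB_ball_bound hS R1
  refine ⟨A1 + k * D1, R1 + D1, fun ω hω v => ?_⟩
  obtain ⟨y, hy, hPω, hPM, hPC⟩ := hD1 ω hω v
  obtain ⟨c, hcs, hcγ⟩ := H1_rep hS (hOm ω hω) hRR1 (hMC3 ω hω y hPM) hr hPC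
  obtain ⟨p, hp⟩ := hS.conn.exists_walk_length_eq_dist v y
  obtain ⟨j, hj1, hj2, hj3⟩ := jcochain (hOm ω hω) p
  refine ⟨c + j, ?_, ?_, cochain_transport hS (hOm ω hω) p hcγ hj1⟩
  · have h1 : (c + j).support.card ≤ c.support.card + j.support.card :=
      (Finset.card_le_card Finsupp.support_add).trans (Finset.card_union_le _ _)
    have h2 : c.support.card ≤ A1 := by
      rw [← Set.ncard_coe_finset]
      exact (Set.ncard_le_ncard hcs (EB_finite G (Bl_finite hS.conn hS.fin y R1))).trans (hA1 y)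
    have h3 : k * p.length ≤ k * D1 := Nat.mul_le_mul_left k (by rw [hp]; exact hy)
    omega
  · intro e he
    have he' := Finsupp.support_add (Finset.mem_coe.mp he)
    rcases Finset.mem_union.mp he' with h1 | h1
    · have h2 : e ∈ EB G (Bl G y R1) := hcs h1
      exact ⟨h2.1, e, EB_mono G (Bl_sub hS.conn hy) h2, TX_refl (hOm ω hω) h2.1⟩
    · obtain ⟨h2, e', he'1, he'2⟩ := hj3 h1
      refine ⟨h2, e', ⟨p.edges_subset_edgeSet he'1, fun x hx => ?_⟩, he'2⟩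
      have h3 := dist_of_mem_edges p he'1 hx
      show G.dist v x ≤ R1 + D1
      omega

end QPl
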