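import Pool.Agent.Lib.MP_d3a5e5_co.C1
import Pool.Agent.Lib.MP_d3a5e5_co.D7

set_option autoImplicit false

namespace QPl

open Finsupp SimpleGraph

def TSn {V : Type} (G : SimpleGraph V) (ω : Dat V) : ℕ → Set (Sym2 V) → Set (Sym2 V)
  | 0, S => S
  | n + 1, S => TS G ω (TSn G ω n S)

def inc {V : Type} (G : SimpleGraph V) (x : V) : Set (Sym2 V) := {e | e ∈ G.edgeSet ∧ x ∈ e}

theorem TSn_sub {V : Type} {G : SimpleGraph V} {ω : Dat V} {S : Set (Sym2 V)} (hS : S ⊆ G.edgeSet) (n : ℕ) : TSn G ω n S ⊆ G.edgeSet := by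
  cases n with
  | zero => exact hS
  | succ n => exact fun f hf => hf.1

theorem TSn_finite {V : Type} {G : SimpleGraph V} {k : ℕ} {ω : Dat V} (h : ω ∈ Om G k) {S : Set (Sym2 V)} (hS : S ⊆ G.edgeSet) (hf : S.Finite) (n : ℕ) :
    (TSn G ω n S).Finite := by
  induction n with
  | zero => exact hf
  | succ n ih => exact (TS_finite h ih (TSn_sub hS n)).1

theorem H2_aux_mono {V : Type} {G : SimpleGraph V} {k : ℕ} {ω : Dat V} (h : ω ∈ Om G k) {S : Set (Sym2 V)} (hS : S ⊆ G.edgeSet) :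
    S ⊆ TS G ω S := fun f hf => ⟨hS hf, f, hf, TX_refl h (hS hf)⟩

theorem TSn_mono {V : Type} {G : SimpleGraph V} {k : ℕ} {ω : Dat V} (h : ω ∈ Om G k) {S : Set (Sym2 V)} (hS : S ⊆ G.edgeSet) {n m : ℕ} (hnm : n ≤ m) :
    TSn G ω n S ⊆ TSn G ω m S := by
  induction m, hnm using Nat.le_induction with
  | base => exact subset_rfl
  | succ m _ ih => exact ih.trans (H2_aux_mono h (TSn_sub hS m))

theorem H2_aux_TS {V : Type} {G : SimpleGraph V} {ω : Dat V} {S S' : Set (Sym2 V)} (hS : S ⊆ S') :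
    TS G ω S ⊆ TS G ω S' := by
  rintro f ⟨hf, e, he, hef⟩
  exact ⟨hf, e, hS he, hef⟩

theorem TSn_mono_set {V : Type} {G : SimpleGraph V} {ω : Dat V} {S S' : Set (Sym2 V)} (hS : S ⊆ S') (n : ℕ) :
    TSn G ω n S ⊆ TSn G ω n S' := by
  induction n with
  | zero => exact hS
  | succ n ih => exact H2_aux_TS ih

theorem TSn_add {V : Type} {G : SimpleGraph V} {ω : Dat V} (n m : ℕ) (S : Set (Sym2 V)) : TSn G ω (n + m) S = TSn G ω n (TSn G ω m S) := by
  induction n with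
  | zero => rw [Nat.zero_add]; rfl
  | succ n ih =>
    rw [Nat.succ_add]
    show TS G ω (TSn G ω (n + m) S) = TS G ω (TSn G ω n (TSn G ω m S))
    rw [ih]

/-- If `g` is within `m` touches of `f` and within `n` touches of `S` then `f` is within `m + n` touches of `S`. -/
theorem TSn_back {V : Type} {G : SimpleGraph V} {k : ℕ} {ω : Dat V} (h : ω ∈ Om G k) {S : Set (Sym2 V)} (hS : S ⊆ G.edgeSet) {f g : Sym2 V}
    (hf : f ∈ G.edgeSet) {m n : ℕ} (hg : g ∈ TSn G ω m {f}) (hg' : g ∈ TSn G ω n S) : f ∈ TSn G ω (m + n) S := by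
  induction m generalizing g n with
  | zero =>
    have h1 : g = f := hg
    rw [Nat.zero_add, ← h1]
    exact hg'
  | succ m ih =>
    obtain ⟨hgG, e, he, heg⟩ := hg
    have heG : e ∈ G.edgeSet := TSn_sub (Set.singleton_subset_iff.2 hf) m he
    have he' : e ∈ TSn G ω (n + 1) S := ⟨heG, g, hg', TX_symm h heG hgG heg⟩
    have h2 := ih he he'
    have h3 : m + (n + 1) = m + 1 + n := by omega
    rw [h3] at h2
    exact h2

theorem inc_finite {V : Type} {G : SimpleGraph V} (hf : ∀ v, (G.neighborSet v).Finite) (x : V) : (inc G x).Finite := by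
  refine ((hf x).image (fun y => s(x, y))).subset ?_
  rintro e ⟨he, hx⟩
  obtain ⟨y, rfl⟩ := hx
  exact ⟨y, he, rfl⟩

theorem H2_aux_walk {V : Type} {G : SimpleGraph V} {k : ℕ} {ω : Dat V} (h : ω ∈ Om G k) {v x : V} (w : G.Walk v x) :
    ∀ e ∈ G.edgeSet, v ∈ e → e ∈ TSn G ω w.length (inc G x) := by
  induction w with
  | nil => exact fun e he hv => ⟨he, hv⟩
  | cons hadj w' ih =>
    rename_i a b c
    intro e he hv
    have h1 : s(a, b) ∈ G.edgeSet := hadj
    have h2 := ih s(a, b) h1 (Sym2.mem_mk_right a b)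
    exact ⟨he, s(a, b), h2, TX_inc h h1 he (Sym2.mem_mk_left a b) hv⟩

theorem ball_sub_TSn {V : Type} {G : SimpleGraph V} {k d l : ℕ} {F : Finset V} (hS : Std G d l F) {ω : Dat V} (h : ω ∈ Om G k) (x : V) (n : ℕ) :
    EB G (Bl G x n) ⊆ TSn G ω n (inc G x) := by
  rintro e ⟨he, hB⟩
  induction e using Sym2.ind with
  | _ u v =>
    have hu : G.dist x u ≤ n := hB u (Sym2.mem_mk_left u v)
    obtain ⟨w, hw⟩ := hS.conn.exists_walk_length_eq_dist u x
    have h1 := H2_aux_walk h w s(u, v) he (Sym2.mem_mk_left u v)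
    refine TSn_mono h (fun e he => he.1) ?_ h1
    rw [hw, SimpleGraph.dist_comm]
    exact hu

theorem EB_sub_TSn {V : Type} {G : SimpleGraph V} {k d l : ℕ} {F : Finset V} (hS : Std G d l F) {ω : Dat V} (h : ω ∈ Om G k) {f : Sym2 V}
    (hf : f ∈ G.edgeSet) {v : V} (hv : v ∈ f) (R : ℕ) : EB G (Bl G v R) ⊆ TSn G ω (R + 1) {f} := by
  refine (ball_sub_TSn hS h v R).trans ?_
  rw [TSn_add]
  refine TSn_mono_set ?_ R
  rintro e ⟨he, hve⟩
  exact ⟨he, f, rfl, TX_inc h hf he hv hve⟩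

end QPl
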