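import Pool.Agent.Lib.MP_d3a5e5_co.E4
import Pool.Agent.Lib.MP_d3a5e5_co.C1

set_option autoImplicit false

namespace QPl

open Finsupp SimpleGraph

theorem H3a_aux1 (z : Pt) : ¬ Far z z := by
  unfold Far
  simp

theorem avoid_II {V : Type} {G : SimpleGraph V} {k : ℕ} {ω : Dat V} {B : Finset V} (ρ : GridRep G k B ω) {f f' : Sym2 V}
    (hf : f ∈ EB G (B : Set V)) (hf' : f' ∈ EB G (B : Set V)) {x y : V} (P : G.Walk x y)
    (hP : ∀ e ∈ P.edges, e ∈ EB G (B : Set V) ∧ e ∉ TS G ω {f, f'}) {σ : C1}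
    (hσ : SuppIn ({z | ∀ e ∈ EB G (B : Set V), z ∉ ρ.K e} ∪ ((ρ.K f : Set Pt) ∪ (ρ.K f' : Set Pt))) σ) :
    II (ρ.lin (wv P)) σ = 0 := by
  have hin : InB G (B : Set V) (wv P) := fun e he => (hP e (wv_support P he)).1
  refine II_disj _ _ _ _ (lin_supp ρ hin) hσ ?_
  rw [Set.disjoint_left]
  rintro z ⟨e, he, hze⟩ hz
  obtain ⟨heB, heT⟩ := hP e (wv_support P he)
  have hno : ∀ g ∈ ({f, f'} : Set (Sym2 V)), ¬ TX ω g e := fun g hg hT =>
    heT ⟨heB.1, g, hg, hT⟩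
  rcases hz with hz | hz | hz
  · exact hz e heB hze
  · exact H3a_aux1 z (ρ.sep f hf e heB (hno f (by simp)) z hz z hze)
  · exact H3a_aux1 z (ρ.sep f' hf' e heB (hno f' (by simp)) z hz z hze)

end QPl
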