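import Pool.Agent.Lib.MP_d3a5e5_co.D7

set_option autoImplicit false

namespace QPl

open Finsupp SimpleGraph

theorem H3b_edge {V : Type} {G : SimpleGraph V} {d l : ℕ} {F : Finset V} (hS : Std G d l F) (y : V) :
    ∃ e ∈ G.edgeSet, y ∈ e := by
  have hi := hS.inf
  obtain ⟨z, hz⟩ := exists_ne y
  obtain ⟨w⟩ := hS.conn.preconnected y z
  cases w with
  | nil => exact absurd rfl hz
  | @cons _ u _ h _ =>
    exact ⟨s(y, u), (SimpleGraph.mem_edgeSet G).2 h, Sym2.mem_mk_left y u⟩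

theorem detours {V : Type} {G : SimpleGraph V} {d l : ℕ} {F : Finset V} (hS : Std G d l F) {T : Set (Sym2 V)} (hT : T.Finite)
    (hTG : T ⊆ G.edgeSet) {x y : V} (P0 : G.Walk x y) :
    ∃ R : ℕ, T ⊆ EB G (Bl G x R) ∧ (∀ e ∈ P0.edges, e ∈ EB G (Bl G x R)) ∧ (∃ e ∈ EB G (Bl G x R), y ∈ e) ∧ (∃ e ∈ EB G (Bl G x R), x ∈ e) ∧
      ∀ S ⊆ T, x ∈ Infv G S → y ∈ Infv G S → ∃ P : G.Walk x y, ∀ e ∈ P.edges, e ∈ EB G (Bl G x R) ∧ e ∉ S := by
  classical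
  have hw : ∀ S : Set (Sym2 V), ∃ P : G.Walk x y, S ⊆ T → x ∈ Infv G S → y ∈ Infv G S → ∀ e ∈ P.edges, e ∉ S := by
    intro S
    by_cases h : S ⊆ T ∧ x ∈ Infv G S ∧ y ∈ Infv G S
    · obtain ⟨w, hw⟩ := Infv_walk hS (hT.subset h.1) h.2.1 h.2.2
      exact ⟨w, fun _ _ _ => hw⟩
    · exact ⟨P0, fun h1 h2 h3 => absurd ⟨h1, h2, h3⟩ h⟩
  choose P hP using hw
  obtain ⟨ey, hey, hy⟩ := H3b_edge hS y
  obtain ⟨ex, hex, hx⟩ := H3b_edge hS x
  have hfin : (T ∪ {e | e ∈ P0.edges} ∪ {ey} ∪ {ex} ∪ ⋃ S ∈ {S | S ⊆ T}, {e | e ∈ (P S).edges}).Finite := by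
    refine Set.Finite.union (Set.Finite.union (Set.Finite.union (Set.Finite.union hT ?_) ?_) ?_) ?_
    · exact List.finite_toSet _
    · exact Set.finite_singleton _
    · exact Set.finite_singleton _
    · exact Set.Finite.biUnion hT.finite_subsets (fun S _ => List.finite_toSet _)
  have hsub : (T ∪ {e | e ∈ P0.edges} ∪ {ey} ∪ {ex} ∪ ⋃ S ∈ {S | S ⊆ T}, {e | e ∈ (P S).edges}) ⊆ G.edgeSet := by
    intro e he
    rcases he with (((he | he) | he) | he) | he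
    · exact hTG he
    · exact P0.edges_subset_edgeSet he
    · rw [Set.mem_singleton_iff.1 he]
      exact hey
    · rw [Set.mem_singleton_iff.1 he]
      exact hex
    · obtain ⟨S, _, h2⟩ := Set.mem_iUnion₂.1 he
      exact (P S).edges_subset_edgeSet h2
  obtain ⟨r, hr⟩ := edges_sub_ball x hfin hsub
  refine ⟨r, fun e he => hr ?_, fun e he => hr ?_, ⟨ey, hr ?_, hy⟩, ⟨ex, hr ?_, hx⟩, ?_⟩
  · exact Or.inl (Or.inl (Or.inl (Or.inl he)))
  · exact Or.inl (Or.inl (Or.inl (Or.inr he)))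
  · exact Or.inl (Or.inl (Or.inr rfl))
  · exact Or.inl (Or.inr rfl)
  · intro S hST h1 h2
    refine ⟨P S, fun e he => ⟨hr (Or.inr ?_), hP S hST h1 h2 e he⟩⟩
    exact Set.mem_iUnion₂.2 ⟨S, hST, he⟩

end QPl
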