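import Pool.Agent.Lib.MP_d3a5e5_co.H2
import Pool.Agent.Lib.MP_d3a5e5_co.H3a
import Pool.Agent.Lib.MP_d3a5e5_co.H3b
import Pool.Agent.Lib.MP_d3a5e5_co.B2

set_option autoImplicit false

namespace QPl

open Finsupp SimpleGraph

theorem H3_aux1 {V : Type} {G : SimpleGraph V} {f : Sym2 V} (hf : f ∈ G.edgeSet) {y v : V} (hy : y ∈ f) (hv : v ∈ f) :
    G.dist y v ≤ 1 := by
  induction f using Sym2.ind with
  | _ a b =>
    have hab : G.Adj a b := hf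
    have h1 : ∀ {u w : V}, G.Adj u w → G.dist u w ≤ 1 := fun h => dist_le (Walk.cons h Walk.nil)
    rcases Sym2.mem_iff.1 hy with h2 | h2 <;> rcases Sym2.mem_iff.1 hv with h3 | h3 <;> subst h2 <;> subst h3
    · rw [SimpleGraph.dist_self]
      exact Nat.zero_le 1
    · exact h1 hab
    · exact h1 hab.symm
    · rw [SimpleGraph.dist_self]
      exact Nat.zero_le 1

theorem cochain_contra {V : Type} {G : SimpleGraph V} {k d l : ℕ} {F : Finset V} (hS : Std G d l F) {ω : Dat V} (h : ω ∈ Om G k) (A R : ℕ)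
    (hc : ∀ v, ∃ c : EC V, c.support.card ≤ A ∧ (c.support : Set (Sym2 V)) ⊆ TS G ω (EB G (Bl G v R)) ∧
      ∀ γ ∈ Zc G, uval G ω γ v = pr c γ) : False := by
  choose c hcA hcS hcU using hc
  obtain ⟨Φ, _, hΦ⟩ := Infv_of_ball hS
  obtain ⟨N1, hN1⟩ : ∃ N1, N1 = 2 * k + 2 * A := ⟨_, rfl⟩
  obtain ⟨N0, hN0⟩ : ∃ N0, N0 = Φ N1 + R + 6 := ⟨_, rfl⟩
  have := hS.inf
  obtain ⟨x⟩ := Infinite.nonempty V
  have hincE : inc G x ⊆ G.edgeSet := fun e he => he.1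
  obtain ⟨In, hIn⟩ : ∃ In, In = TSn G ω N0 (inc G x) := ⟨_, rfl⟩
  obtain ⟨T, hT⟩ : ∃ T, T = TSn G ω (N0 + R + 6) (inc G x) := ⟨_, rfl⟩
  have hTf : T.Finite := by
    rw [hT]
    exact TSn_finite h hincE (inc_finite hS.fin x) _
  have hTE : T ⊆ G.edgeSet := by
    rw [hT]
    exact TSn_sub hincE _
  have hsubT : ∀ n, n ≤ N0 + R + 6 → TSn G ω n (inc G x) ⊆ T := by
    intro n hn
    rw [hT]
    exact TSn_mono h hincE hn
  obtain ⟨y, hy⟩ := exists_far hS hTf (Φ N1 + 1)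
  obtain ⟨P0⟩ := hS.conn x y
  obtain ⟨R', hR1, hR2, hR3, hR4, hR5⟩ := detours hS hTf hTE P0
  obtain ⟨B, hB⟩ : ∃ B : Finset V, (B : Set V) = Bl G x R' :=
    ⟨_, Set.Finite.coe_toFinset (Bl_finite hS.conn hS.fin x R')⟩
  rw [← hB] at hR1 hR2 hR3 hR4 hR5
  obtain ⟨ρ⟩ := h B
  have hvtx : ∀ f : Sym2 V, (Quot.out f).1 ∈ f := fun f => Sym2.out_fst_mem f
  have hInAll : In ⊆ EB G (B : Set V) := fun e he => hR1 (hsubT N0 (by omega) (by rw [← hIn]; exact he))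
  have hInB : InB G (B : Set V) (wv P0) := fun e he => hR2 e (wv_support P0 he)
  have ha0 : SuppIn {z | ∃ e ∈ EB G (B : Set V), z ∈ ρ.K e} (ρ.lin (wv P0)) := by
    intro g hg
    obtain ⟨⟨e, he, hz⟩, ⟨e', he', hz'⟩⟩ := lin_supp ρ hInB g hg
    exact ⟨⟨e, hInB e he, hz⟩, ⟨e', hInB e' he', hz'⟩⟩
  have hpx : ∃ e ∈ In, ρ.p x ∈ ρ.K e := by
    obtain ⟨e, he, hxe⟩ := hR4
    refine ⟨e, ?_, ρ.mem e he x hxe⟩
    rw [hIn]
    exact TSn_mono h hincE (Nat.zero_le N0) (show e ∈ TSn G ω 0 (inc G x) from ⟨he.1, hxe⟩)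
  have hinf : ∀ e ∈ In, ∀ z ∈ ρ.K e, Far z (ρ.p y) := by
    obtain ⟨f, hf, hyf⟩ := hR3
    have hfT : f ∉ T := by
      intro hc
      refine Set.disjoint_left.1 hy (show f ∈ EB G (Bl G y (Φ N1 + 1)) from ⟨hf.1, fun v hv => ?_⟩) hc
      have h1 := H3_aux1 hf.1 hyf hv
      show G.dist y v ≤ Φ N1 + 1
      omega
    intro e he z hz
    refine ρ.sep e (hInAll he) f hf ?_ z hz (ρ.p y) (ρ.mem f hf y hyf)
    intro hTX
    refine hfT (hsubT (N0 + 1) (by omega) ?_)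
    exact ⟨hf.1, e, by rw [← hIn]; exact he, hTX⟩
  refine grid_contra (ι := Sym2 V) (EB G (B : Set V)) (EB_finite G B.finite_toSet) ρ.K (TX ω) ρ.sep ρ.conn In
    hInAll (ρ.lin (wv P0)) ha0 (ρ.p x) (ρ.p y) (bd_lin_wv ρ P0 hR2) hpx hinf (fun f => ρ.p (Quot.out f).1)
    (fun f hf => ρ.mem f hf _ (hvtx f)) (fun f => pr (c (Quot.out f).1) (wv P0)) ?_
  intro f hf f' hf' hfIn hfIn' hex hex' σ hσ hσs
  obtain ⟨v, hv⟩ : ∃ v, v = (Quot.out f).1 := ⟨_, rfl⟩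
  obtain ⟨v', hv'⟩ : ∃ v', v' = (Quot.out f').1 := ⟨_, rfl⟩
  have hvf : v ∈ f := by rw [hv]; exact hvtx f
  have hvf' : v' ∈ f' := by rw [hv']; exact hvtx f'
  simp only [← hv, ← hv'] at hσ ⊢

  have key : ∀ f0 ∈ EB G (B : Set V), f0 ∉ In → (∃ e ∈ In, TX ω e f0) → ∀ g ∈ TSn G ω (R + 2) {f0},
      g ∈ T ∧ g ∉ TSn G ω (Φ N1) (inc G x) := by
    intro f0 hf0 hf0In hex0 g hg
    obtain ⟨e, he, hTX⟩ := hex0
    have h1 : f0 ∈ TSn G ω (N0 + 1) (inc G x) := ⟨hf0.1, e, by rw [← hIn]; exact he, hTX⟩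
    constructor
    · have h2 : TSn G ω (R + 2) {f0} ⊆ TSn G ω (R + 2) (TSn G ω (N0 + 1) (inc G x)) :=
        TSn_mono_set (Set.singleton_subset_iff.2 h1) _
      rw [← TSn_add] at h2
      exact hsubT _ (by omega) (h2 hg)
    · intro hg'
      have h2 := TSn_back h hincE hf0.1 hg hg'
      apply hf0In
      rw [hIn]
      exact TSn_mono h hincE (by omega) h2
  have hsupp : ∀ (f0 : Sym2 V) (v0 : V), f0 ∈ EB G (B : Set V) → v0 ∈ f0 →
      ((c v0).support : Set (Sym2 V)) ⊆ TSn G ω (R + 2) {f0} := by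
    intro f0 v0 hf0 hv0 g hg
    obtain ⟨hg1, e, he, hTX⟩ := hcS v0 hg
    exact ⟨hg1, e, EB_sub_TSn hS h hf0.1 hv0 R he, hTX⟩
  have hTSs : ∀ f0 : Sym2 V, f0 ∈ EB G (B : Set V) → TS G ω {f0} ⊆ TSn G ω (R + 2) {f0} := by
    intro f0 hf0
    exact TSn_mono h (Set.singleton_subset_iff.2 hf0.1) (show 1 ≤ R + 2 by omega)
  obtain ⟨S, hSdef⟩ : ∃ S : Set (Sym2 V), S = TS G ω {f, f'} ∪ ((c v).support : Set (Sym2 V)) ∪ ((c v').support : Set (Sym2 V)) :=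
    ⟨_, rfl⟩
  have hSsub : ∀ g ∈ S, g ∈ TSn G ω (R + 2) {f} ∨ g ∈ TSn G ω (R + 2) {f'} := by
    intro g hg
    rw [hSdef] at hg
    rcases hg with (hg | hg) | hg
    · obtain ⟨hg1, e, he, hTX⟩ := hg
      rcases he with he | he
      · left
        exact hTSs f hf ⟨hg1, e, he, hTX⟩
      · right
        exact hTSs f' hf' ⟨hg1, e, he, hTX⟩
    · exact Or.inl (hsupp f v hf hvf hg)
    · exact Or.inr (hsupp f' v' hf' hvf' hg)
  have hST : ∀ g ∈ S, g ∈ T ∧ g ∉ TSn G ω (Φ N1) (inc G x) := by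
    intro g hg
    rcases hSsub g hg with h1 | h1
    · exact key f hf hfIn hex g h1
    · exact key f' hf' hfIn' hex' g h1
  have hSfin : S.Finite := hTf.subset fun g hg => (hST g hg).1
  have hScard : S.ncard ≤ N1 := by
    have hpair : ({f, f'} : Set (Sym2 V)).Finite := Set.toFinite _
    have hpE : ({f, f'} : Set (Sym2 V)) ⊆ G.edgeSet := by
      intro g hg
      rcases hg with hg | hg
      · rw [hg]; exact hf.1
      · rw [hg]; exact hf'.1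
    have h1 := (TS_finite h hpair hpE).2
    have h2 : ({f, f'} : Set (Sym2 V)).ncard ≤ 2 := by
      have h3 := Set.ncard_insert_le f ({f'} : Set (Sym2 V))
      rw [Set.ncard_singleton] at h3
      exact h3
    have h3 : (TS G ω {f, f'}).ncard ≤ k * 2 := h1.trans (Nat.mul_le_mul_left k h2)
    have h4 := hcA v
    have h5 := hcA v'
    rw [← Set.ncard_coe_finset] at h4 h5
    have h6 := Set.ncard_union_le (TS G ω {f, f'} ∪ ((c v).support : Set (Sym2 V))) ((c v').support : Set (Sym2 V))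
    have h7 := Set.ncard_union_le (TS G ω {f, f'}) ((c v).support : Set (Sym2 V))
    rw [hSdef, hN1]
    omega
  have hxI : x ∈ Infv G S := by
    refine hΦ N1 S hSfin hScard x ?_
    rw [Set.disjoint_left]
    intro g hg hgS
    exact (hST g hgS).2 (ball_sub_TSn hS h x (Φ N1) hg)
  have hyI : y ∈ Infv G S := by
    refine hΦ N1 S hSfin hScard y ?_
    rw [Set.disjoint_left]
    intro g hg hgS
    exact Set.disjoint_left.1 hy (EB_mono G (Bl_mono G y (Nat.le_succ _)) hg) (hST g hgS).1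
  obtain ⟨P1, hP1⟩ := hR5 S (fun g hg => (hST g hg).1) hxI hyI
  have hII : II (ρ.lin (wv P1)) σ = 0 := by
    refine avoid_II ρ hf hf' P1 (fun e he => ⟨(hP1 e he).1, fun hc => (hP1 e he).2 ?_⟩) hσs
    rw [hSdef]
    exact Or.inl (Or.inl hc)
  have hvB : v ∈ Bl G x R' := by
    rw [← hB]
    exact hf.2 v hvf
  have hvB' : v' ∈ Bl G x R' := by
    rw [← hB]
    exact hf'.2 v' hvf'
  obtain ⟨Y, _, hY⟩ := walk_in_ball hS.conn x R' hvB hvB'
  rw [← hB] at hY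
  refine rep_eval2 hS h ρ Y hY hσ P0 P1 hR2 (fun e he => (hP1 e he).1) (c v) (c v') (hcU v) (hcU v') ?_ hII
  intro e he
  refine ⟨fun hc => (hP1 e he).2 ?_, fun hc => (hP1 e he).2 ?_⟩
  · rw [hSdef]
    exact Or.inl (Or.inr hc)
  · rw [hSdef]
    exact Or.inr hc

end QPl
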