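import Pool.Agent.Lib.MP_d3a5e5_co.H1
import Pool.Agent.Lib.MP_d3a5e5_co.H3

set_option autoImplicit false

namespace QPl

open Finsupp SimpleGraph

theorem no_cochain {V : Type} {G : SimpleGraph V} {k d l : ℕ} {F : Finset V} (hS : Std G d l F) {M : Set (Dat V)} (hM : IsMin G k M)
    {ω : Dat V} (h0 : ω ∈ M) (v : V) (c : EC V) (hc : ∀ γ ∈ Zc G, uval G ω γ v = pr c γ) : False := by
  obtain ⟨A, R, h⟩ := cochain_unif hS hM h0 hc
  exact cochain_contra hS (hM.sub h0) A R (h ω h0)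

end QPl
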