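import Pool.Agent.Lib.MP_d3a5e5_co.E4
import Pool.Agent.Lib.MP_d3a5e5_co.C1
import Pool.Agent.Lib.MP_d3a5e5_co.A6

set_option autoImplicit false

namespace QPl

open Finsupp SimpleGraph

theorem sigma_cochain {V : Type} {G : SimpleGraph V} {k : ℕ} {ω : Dat V} {B : Finset V} (ρ : GridRep G k B ω) {H : Set (Sym2 V)}
    (hH : H ⊆ EB G (B : Set V)) {σ : C1} (hσ : SuppIn {z | ∃ h ∈ H, z ∈ ρ.K h} σ) :
    ∃ c : EC V, (∀ γ : EC V, InB G (B : Set V) γ → II (ρ.lin γ) σ = pr c γ) ∧ (c.support : Set (Sym2 V)) ⊆ TS G ω H := by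
  classical
  have hfin : (EB G (B : Set V)).Finite := EB_finite G B.finite_toSet
  refine ⟨Finsupp.onFinset hfin.toFinset (fun g => if g ∈ EB G (B : Set V) then II (ρ.a g) σ else 0) ?_, ?_, ?_⟩
  · intro g hg
    rw [Set.Finite.mem_toFinset]
    by_contra hn
    exact hg (if_neg hn)
  · intro γ hγ
    unfold GridRep.lin pr
    rw [linearCombination_apply, linearCombination_apply, Finsupp.sum, Finsupp.sum, map_sum, LinearMap.sum_apply]
    refine Finset.sum_congr rfl fun g hg => ?_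
    rw [map_smul, LinearMap.smul_apply, Finsupp.onFinset_apply, if_pos (hγ g hg)]
  · intro g hg
    rw [Finset.mem_coe, Finsupp.mem_support_iff, Finsupp.onFinset_apply] at hg
    have hgB : g ∈ EB G (B : Set V) := by
      by_contra hn
      exact hg (if_neg hn)
    rw [if_pos hgB] at hg
    refine ⟨hgB.1, ?_⟩
    by_contra hn
    push Not at hn
    refine hg (II_disj _ _ _ _ (ρ.supp g hgB) hσ ?_)
    rw [Set.disjoint_left]
    rintro z hz ⟨h, hh, hzh⟩
    have hfar := ρ.sep h (hH hh) g hgB (hn h hh) z hzh z hz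
    unfold Far at hfar
    simp at hfar

/-- An annulus free of the values of `n` on a set with at most `C` elements. -/
theorem annulus {α : Type} (S : Finset α) (C : ℕ) (hS : S.card ≤ C) (n : α → ℕ) (a w : ℕ) :
    ∃ j ≤ C, ∀ g ∈ S, ¬ (a + j * w < n g ∧ n g ≤ a + (j + 1) * w) := by
  by_contra hn
  push Not at hn
  have hn' : ∀ j : Fin (C + 1), ∃ g ∈ S, a + (j : ℕ) * w < n g ∧ n g ≤ a + ((j : ℕ) + 1) * w := fun j =>
    hn j (Nat.lt_succ_iff.1 j.2)
  choose gg hg1 hg2 hg3 using hn'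
  obtain ⟨i, -, j, -, hij, he⟩ := Finset.exists_ne_map_eq_of_card_lt_of_maps_to
    (s := (Finset.univ : Finset (Fin (C + 1)))) (t := S) (f := gg)
    (by rw [Finset.card_univ, Fintype.card_fin]; omega) (fun j _ => hg1 j)
  have key : ∀ i j : Fin (C + 1), i < j → gg i = gg j → False := by
    intro i j hlt he
    have h1 := hg3 i
    have h2 := hg2 j
    rw [he] at h1
    have h3 : ((i : ℕ) + 1) * w ≤ (j : ℕ) * w := Nat.mul_le_mul_right w hlt
    omega
  rcases lt_or_gt_of_ne hij with h | h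
  · exact key i j h he
  · exact key j i h he.symm

/-- A chain between two vertices through a touching point of two edges. -/
theorem sigma_exists {V : Type} {G : SimpleGraph V} {k : ℕ} {ω : Dat V} {B : Finset V} (ρ : GridRep G k B ω) {e f : Sym2 V}
    (he : e ∈ EB G (B : Set V)) (hf : f ∈ EB G (B : Set V)) (hef : TX ω e f) {u v : V} (hu : u ∈ e) (hv : v ∈ f) {y y' : V}
    (Y1 : G.Walk y u) (Y2 : G.Walk v y') (h1 : ∀ g ∈ Y1.edges, g ∈ EB G (B : Set V)) (h2 : ∀ g ∈ Y2.edges, g ∈ EB G (B : Set V)) :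
    ∃ σ : C1, bd σ = pt (ρ.p y) + pt (ρ.p y') ∧
      SuppIn {z | ∃ h ∈ ({g | g ∈ Y1.edges} ∪ {g | g ∈ Y2.edges} ∪ {e, f} : Set (Sym2 V)), z ∈ ρ.K h} σ := by
  obtain ⟨z, hze, hzf⟩ := ρ.touch e he f hf hef
  obtain ⟨τ1, hτ1, hb1⟩ := GConn.chain (ρ.conn e he) (Finset.mem_coe.2 (ρ.mem e he u hu)) (Finset.mem_coe.2 hze)
  obtain ⟨τ2, hτ2, hb2⟩ := GConn.chain (ρ.conn f hf) (Finset.mem_coe.2 hzf) (Finset.mem_coe.2 (ρ.mem f hf v hv))
  have hI1 : InB G (B : Set V) (wv Y1) := fun g hg => h1 g (wv_support Y1 hg)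
  have hI2 : InB G (B : Set V) (wv Y2) := fun g hg => h2 g (wv_support Y2 hg)
  refine ⟨(ρ.lin (wv Y1) + τ1) + (τ2 + ρ.lin (wv Y2)), ?_, ?_⟩
  · rw [map_add, map_add, map_add, bd_lin_wv ρ Y1 h1, bd_lin_wv ρ Y2 h2, hb1, hb2]
    have hself : ∀ c : C0, c + c = 0 := fun c => Finsupp.ext fun w => CharTwo.add_self_eq_zero (c w)
    calc (pt (ρ.p y) + pt (ρ.p u) + (pt (ρ.p u) + pt z)) + ((pt z + pt (ρ.p v)) + (pt (ρ.p v) + pt (ρ.p y')))
        = pt (ρ.p y) + pt (ρ.p y') + (pt (ρ.p u) + pt (ρ.p u)) + (pt z + pt z) + (pt (ρ.p v) + pt (ρ.p v)) := by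
          abel
      _ = pt (ρ.p y) + pt (ρ.p y') := by rw [hself, hself, hself, add_zero, add_zero, add_zero]
  · refine SuppIn.add (SuppIn.add ?_ ?_) (SuppIn.add ?_ ?_)
    · refine (lin_supp ρ hI1).mono ?_
      rintro w ⟨g, hg, hw⟩
      exact ⟨g, Or.inl (Or.inl (wv_support Y1 hg)), hw⟩
    · refine hτ1.mono ?_
      intro w hw
      exact ⟨e, Or.inr (Or.inl rfl), hw⟩
    · refine hτ2.mono ?_
      intro w hw
      exact ⟨f, Or.inr (Or.inr rfl), hw⟩
    · refine (lin_supp ρ hI2).mono ?_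
      rintro w ⟨g, hg, hw⟩
      exact ⟨g, Or.inl (Or.inr (wv_support Y2 hg)), hw⟩

end QPl
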