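import Pool.Agent.Lib.MP_d3a5e5_co.H4
import Pool.Agent.Lib.MP_d3a5e5_co.I1a

set_option autoImplicit false

namespace QPl

open Finsupp SimpleGraph

theorem I1_aux1 {V : Type} (c c' : Sym2 V → ZMod 2) (γ : EC V) (h : ∀ g ∈ γ.support, c g = c' g) :
    pr c γ = pr c' γ := by
  unfold pr
  rw [Finsupp.linearCombination_apply, Finsupp.linearCombination_apply]
  refine Finsupp.sum_congr fun g hg => ?_
  rw [h g hg]

theorem I1_aux2 {V : Type} {G : SimpleGraph V} {u v : V} (w : G.Walk u v) :
    {g | g ∈ w.edges}.Finite ∧ {g | g ∈ w.edges}.ncard ≤ w.length := by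
  classical
  have h1 : {g | g ∈ w.edges} = ((w.edges.toFinset : Finset (Sym2 V)) : Set (Sym2 V)) := by
    ext g
    simp
  rw [h1]
  refine ⟨Finset.finite_toSet _, ?_⟩
  rw [Set.ncard_coe_finset]
  exact (List.toFinset_card_le _).trans (le_of_eq w.length_edges)

theorem I1_aux3 {V : Type} (e f : Sym2 V) : ({e, f} : Set (Sym2 V)).ncard ≤ 2 := by
  refine (Set.ncard_insert_le e {f}).trans ?_
  rw [Set.ncard_singleton]

theorem touch_local {V : Type} {G : SimpleGraph V} {k d l : ℕ} {F : Finset V} (hS : Std G d l F) {M : Set (Dat V)} (hM : IsMin G k M) :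
    ∃ L : ℕ, ∀ ω ∈ M, ∀ e ∈ G.edgeSet, ∀ f ∈ G.edgeSet, TX ω e f → ∀ u ∈ e, ∀ v ∈ f, G.dist u v ≤ L := by
  classical
  obtain ⟨r, hr⟩ := uval_clean (k := k) hS
  obtain ⟨R0, MC, heqv, hloc, hclean, ω1, hω1, v1, hMC1⟩ := clean_exists hS hM r
  obtain ⟨D, hD⟩ := recurrence hS hM MC heqv hloc hω1 hMC1
  set C := k * (2 * D + 2) with hC
  set wd := 2 * l + 1 with hwd
  refine ⟨2 * D + 2 * R0 + C * wd + 2 * l + 1, ?_⟩
  intro ω hω e he f hf hef u hu v hv
  by_contra hlt
  push Not at hlt
  have hωOm : ω ∈ Om G k := hM.sub hω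
  obtain ⟨y, hyd, hyM⟩ := hD ω hω u
  obtain ⟨y', hyd', hyM'⟩ := hD ω hω v
  obtain ⟨Y1, hY1⟩ := hS.conn.exists_walk_length_eq_dist y u
  obtain ⟨Y2, hY2⟩ := hS.conn.exists_walk_length_eq_dist v y'
  have hY1l : Y1.length ≤ D := by
    rw [hY1, SimpleGraph.dist_comm]
    exact hyd
  have hY2l : Y2.length ≤ D := by
    rw [hY2]
    exact hyd'
  set S0 : Set (Sym2 V) := {g | g ∈ Y1.edges} ∪ {g | g ∈ Y2.edges} ∪ {e, f} with hS0
  obtain ⟨hf1, hc1⟩ := I1_aux2 Y1
  obtain ⟨hf2, hc2⟩ := I1_aux2 Y2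
  have hf3 : ({e, f} : Set (Sym2 V)).Finite := by simp
  have hS0f : S0.Finite := (hf1.union hf2).union hf3
  have hS0c : S0.ncard ≤ 2 * D + 2 := by
    have h1 := Set.ncard_union_le ({g | g ∈ Y1.edges} ∪ {g | g ∈ Y2.edges}) ({e, f} : Set (Sym2 V))
    have h2 := Set.ncard_union_le {g | g ∈ Y1.edges} {g | g ∈ Y2.edges}
    have h3 := I1_aux3 e f
    rw [hS0]
    omega
  have hS0G : S0 ⊆ G.edgeSet := by
    rintro g ((hg | hg) | hg)
    · exact Y1.edges_subset_edgeSet hg
    · exact Y2.edges_subset_edgeSet hg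
    · rcases hg with rfl | hg
      · exact he
      · rw [Set.mem_singleton_iff] at hg
        rw [hg]
        exact hf
  obtain ⟨r1, hr1⟩ := edges_sub_ball y hS0f hS0G
  set Rb := r1 + (R0 + C * wd + 2 * l + 1) + G.dist y y' with hRb
  have hBf : (Bl G y Rb).Finite := Bl_finite hS.conn hS.fin y Rb
  set B : Finset V := hBf.toFinset with hB
  have hBc : (B : Set V) = Bl G y Rb := hBf.coe_toFinset
  have hS0B : S0 ⊆ EB G (B : Set V) := by
    rw [hBc]
    exact hr1.trans (EB_mono G (Bl_mono G y (by omega)))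
  obtain ⟨ρ⟩ := hωOm B
  have heB : e ∈ EB G (B : Set V) := hS0B (Or.inr (Or.inl rfl))
  have hfB : f ∈ EB G (B : Set V) := hS0B (Or.inr (Or.inr rfl))
  obtain ⟨σ, hσb, hσs⟩ := sigma_exists ρ heB hfB hef hu hv Y1 Y2
    (fun g hg => hS0B (Or.inl (Or.inl hg))) (fun g hg => hS0B (Or.inl (Or.inr hg)))
  obtain ⟨c, hcpr, hcs⟩ := sigma_cochain ρ hS0B hσs
  obtain ⟨hTf, hTc⟩ := TS_finite hωOm hS0f hS0G
  have hcc : c.support.card ≤ C := by
    rw [← Set.ncard_coe_finset]
    refine (Set.ncard_le_ncard hcs hTf).trans (hTc.trans ?_)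
    rw [hC]
    exact Nat.mul_le_mul_left k hS0c
  obtain ⟨j, hjC, hj⟩ := annulus c.support C hcc (fun g => G.dist y (Quot.out g).1) R0 wd
  set ρj := R0 + j * wd with hρj
  have hρjC : ρj ≤ R0 + C * wd := by
    rw [hρj]
    have := Nat.mul_le_mul_right wd hjC
    omega
  set c' : EC V := c.filter (fun g => G.dist y (Quot.out g).1 ≤ ρj) with hc'

  have hyB : y ∈ Bl G y Rb := by
    change G.dist y y ≤ Rb
    rw [SimpleGraph.dist_self]
    omega
  have hyB' : y' ∈ Bl G y Rb := by
    change G.dist y y' ≤ Rb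
    omega
  obtain ⟨Y, _, hYe⟩ := walk_in_ball hS.conn y Rb hyB hyB'
  have hYe' : ∀ g ∈ Y.edges, g ∈ EB G (B : Set V) := by
    rw [hBc]
    exact hYe
  have hclaim : ∀ (u0 : V) (w : G.Walk u0 u0), w.length ≤ l → uval G ω (wv w) y = pr c' (wv w) := by
    intro u0 w hwl
    have hZ : wv w ∈ Zc G := Submodule.subset_span ⟨u0, w, rfl⟩
    have hvert : ∀ g ∈ w.edges, ∀ x ∈ g, G.dist u0 x ≤ l := fun g hg x hx =>
      (dist_of_mem_edges w hg hx).trans hwl
    have hn1 : ∀ g ∈ w.edges, G.dist y (Quot.out g).1 ≤ G.dist y u0 + l := by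
      intro g hg
      have h1 := hvert g hg _ (Sym2.out_fst_mem g)
      have h2 := hS.conn.dist_triangle (u := y) (v := u0) (w := (Quot.out g).1)
      omega
    have hn2 : ∀ g ∈ w.edges, G.dist y u0 ≤ G.dist y (Quot.out g).1 + l := by
      intro g hg
      have h1 := hvert g hg _ (Sym2.out_fst_mem g)
      have h2 := hS.conn.dist_triangle (u := y) (v := (Quot.out g).1) (w := u0)
      rw [SimpleGraph.dist_comm (u := (Quot.out g).1)] at h2
      omega
    by_cases hcase : G.dist y u0 ≤ ρj + l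
    ·
      have hInB : InB G (B : Set V) (wv w) := by
        intro g hg
        have hg' := wv_support w hg
        refine ⟨w.edges_subset_edgeSet hg', fun x hx => ?_⟩
        rw [hBc]
        change G.dist y x ≤ Rb
        have h1 := hvert g hg' x hx
        have h2 := hS.conn.dist_triangle (u := y) (v := u0) (w := x)
        omega
      have h1 := rep_eval hS hωOm ρ Y hYe' hσb hInB hZ
      rw [hcpr _ hInB] at h1
      have h2 : uval G ω (wv w) y' = 0 := by
        refine hr ω hωOm y' R0 (hclean ω hω y' hyM') u0 w hwl ?_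
        have t1 := hS.conn.dist_triangle (u := u) (v := y) (w := v)
        have t2 := hS.conn.dist_triangle (u := y) (v := y') (w := v)
        have t3 := hS.conn.dist_triangle (u := y) (v := u0) (w := y')
        rw [SimpleGraph.dist_comm (u := y') (v := v)] at t2
        rw [SimpleGraph.dist_comm (u := u0) (v := y')] at t3
        omega
      rw [h2, add_zero] at h1
      rw [← h1]
      apply I1_aux1
      intro g hg
      have hg' := wv_support w hg
      by_cases hgs : g ∈ c.support
      · have h3 := hj g hgs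
        have h4 := hn1 g hg'
        have h5 : G.dist y (Quot.out g).1 ≤ ρj := by
          by_contra h6
          push Not at h6
          apply h3
          refine ⟨h6, ?_⟩
          have h7 : R0 + (j + 1) * wd = ρj + wd := by rw [hρj]; ring
          rw [h7]
          omega
        exact (Finsupp.filter_apply_pos (fun g => G.dist y (Quot.out g).1 ≤ ρj) c h5).symm
      · have h3 : c g = 0 := Finsupp.notMem_support_iff.mp hgs
        rw [h3, hc', Finsupp.filter_apply, h3]
        simp
    · push Not at hcase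
      have h1 : uval G ω (wv w) y = 0 := by
        refine hr ω hωOm y R0 (hclean ω hω y hyM) u0 w hwl ?_
        omega
      have h2 : pr c' (wv w) = pr (fun _ => 0) (wv w) := by
        apply I1_aux1
        intro g hg
        have hg' := wv_support w hg
        have h3 := hn2 g hg'
        have h4 : ¬ G.dist y (Quot.out g).1 ≤ ρj := by omega
        exact Finsupp.filter_apply_neg (fun g => G.dist y (Quot.out g).1 ≤ ρj) c h4
      have h3 : pr (fun _ => 0) (wv w) = 0 := by
        unfold pr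
        rw [Finsupp.linearCombination_apply]
        simp
      rw [h1, h2, h3]
  exact no_cochain hS hM hω y c' (uval_span hS hωOm y c' hclaim)

end QPl
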