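import Pool.Agent.Lib.MP_d3a5e5_co.Defs

set_option autoImplicit false

namespace QPl

open Finsupp SimpleGraph

noncomputable def limTP {W : Type} (T : ℕ → TP W) : TP W where
  pres a := ∀ᶠ n in (Filter.hyperfilter ℕ : Filter ℕ), (T n).pres a
  adj a b := ∀ᶠ n in (Filter.hyperfilter ℕ : Filter ℕ), (T n).adj a b
  lt a b := ∀ᶠ n in (Filter.hyperfilter ℕ : Filter ℕ), (T n).lt a b
  page a b := ∀ᶠ n in (Filter.hyperfilter ℕ : Filter ℕ), (T n).page a b

theorem limTP_ok {W : Type} (T : ℕ → TP W) (ok : ∀ n, (T n).OK) : (limTP T).OK where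
  irr a h := by
    obtain ⟨n, hn⟩ := Filter.Eventually.exists h
    exact (ok n).irr a hn
  trans a b c h1 h2 := by
    have h3 : ∀ᶠ n in (Filter.hyperfilter ℕ : Filter ℕ), (T n).lt a b := h1
    have h4 : ∀ᶠ n in (Filter.hyperfilter ℕ : Filter ℕ), (T n).lt b c := h2
    exact (h3.and h4).mono fun n hn => (ok n).trans a b c hn.1 hn.2
  tot a b h1 h2 hab := by
    have h3 : ∀ᶠ n in (Filter.hyperfilter ℕ : Filter ℕ), (T n).pres a := h1
    have h4 : ∀ᶠ n in (Filter.hyperfilter ℕ : Filter ℕ), (T n).pres b := h2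
    have h5 : ∀ᶠ n in (Filter.hyperfilter ℕ : Filter ℕ), (T n).lt a b ∨ (T n).lt b a :=
      (h3.and h4).mono fun n hn => (ok n).tot a b hn.1 hn.2 hab
    exact Ultrafilter.eventually_or.1 h5
  asym a b h := by
    have h3 : ∀ᶠ n in (Filter.hyperfilter ℕ : Filter ℕ), (T n).adj a b := h
    exact h3.mono fun n hn => (ok n).asym a b hn
  ne a b h := by
    obtain ⟨n, hn⟩ := Filter.Eventually.exists h
    exact (ok n).ne a b hn
  adjp a b h := by
    have h3 : ∀ᶠ n in (Filter.hyperfilter ℕ : Filter ℕ), (T n).adj a b := h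
    exact h3.mono fun n hn => (ok n).adjp a b hn
  pasym a b h := by
    have h3 : ∀ᶠ n in (Filter.hyperfilter ℕ : Filter ℕ), (T n).page a b := h
    exact h3.mono fun n hn => (ok n).pasym a b hn
  nc a b c d h1 h2 h3 h4 h5 h6 := by
    have g1 : ∀ᶠ n in (Filter.hyperfilter ℕ : Filter ℕ), (T n).adj a b := h1
    have g2 : ∀ᶠ n in (Filter.hyperfilter ℕ : Filter ℕ), (T n).adj c d := h2
    have g4 : ∀ᶠ n in (Filter.hyperfilter ℕ : Filter ℕ), (T n).lt a c := h4
    have g5 : ∀ᶠ n in (Filter.hyperfilter ℕ : Filter ℕ), (T n).lt c b := h5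
    have g6 : ∀ᶠ n in (Filter.hyperfilter ℕ : Filter ℕ), (T n).lt b d := h6
    have h3' : (∀ᶠ n in (Filter.hyperfilter ℕ : Filter ℕ), (T n).page a b) ↔
        (∀ᶠ n in (Filter.hyperfilter ℕ : Filter ℕ), (T n).page c d) := h3
    have g3 : ∀ᶠ n in (Filter.hyperfilter ℕ : Filter ℕ), ((T n).page a b ↔ (T n).page c d) := by
      by_cases hp : ∀ᶠ n in (Filter.hyperfilter ℕ : Filter ℕ), (T n).page a b
      · exact (hp.and (h3'.1 hp)).mono fun n hn => ⟨fun _ => hn.2, fun _ => hn.1⟩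
      · have hq : ¬ ∀ᶠ n in (Filter.hyperfilter ℕ : Filter ℕ), (T n).page c d :=
          fun h => hp (h3'.2 h)
        exact ((Ultrafilter.eventually_not.2 hp).and (Ultrafilter.eventually_not.2 hq)).mono
          fun n hn => ⟨fun h => absurd h hn.1, fun h => absurd h hn.2⟩
    obtain ⟨n, hn⟩ := ((g1.and g2).and (g3.and (g4.and (g5.and g6)))).exists
    exact (ok n).nc a b c d hn.1.1 hn.1.2 hn.2.1 hn.2.2.1 hn.2.2.2.1 hn.2.2.2.2

theorem WalkLE_mono {W : Type} {T : TP W} {m m' : ℕ} (h : m ≤ m') {a b : W} (hw : T.WalkLE m a b) : T.WalkLE m' a b := by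
  induction hw generalizing m' with
  | nil m a => exact TP.WalkLE.nil m' a
  | cons m a b c hab _ ih =>
    obtain ⟨k, rfl⟩ : ∃ k, m' = k + 1 := ⟨m' - 1, by omega⟩
    exact TP.WalkLE.cons k a b c hab (ih (by omega))

theorem WalkLE_trans {W : Type} {T : TP W} {m m' : ℕ} {a b c : W} (h : T.WalkLE m a b) (h' : T.WalkLE m' b c) : T.WalkLE (m + m') a c := by
  induction h with
  | nil m a => exact WalkLE_mono (by omega) h'
  | cons m a b c' hab _ ih =>
    have h1 := TP.WalkLE.cons (m + m') a b c hab (ih h')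
    have h2 : m + m' + 1 = m + 1 + m' := by omega
    rwa [h2] at h1

theorem WalkLE_symm {W : Type} {T : TP W} (ok : T.OK) {m : ℕ} {a b : W} (h : T.WalkLE m a b) : T.WalkLE m b a := by
  induction h with
  | nil m a => exact TP.WalkLE.nil m a
  | cons m a b c hab _ ih =>
    exact WalkLE_trans ih (TP.WalkLE.cons 0 b a a (ok.asym a b hab) (TP.WalkLE.nil 0 a))

theorem L1_aux1 {W : Type} {T : TP W} {a b : W} (h : T.WalkLE 0 a b) : a = b := by
  cases h
  rfl

theorem L1_aux2 {W : Type} {T : TP W} {m : ℕ} {a b : W} (h : T.WalkLE (m + 1) a b) :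
    a = b ∨ ∃ c, T.adj a c ∧ T.WalkLE m c b := by
  cases h with
  | nil => exact Or.inl rfl
  | cons m a c b hac hcb => exact Or.inr ⟨c, hac, hcb⟩

theorem reach_finite {W : Type} (T : ℕ → TP W) (fin : ∀ a, ∃ Nb : Finset W, ∀ n b, (T n).adj a b → b ∈ Nb) (m : ℕ) (a : W) :
    ∃ Nb : Finset W, ∀ n b, (T n).WalkLE m a b → b ∈ Nb := by
  classical
  induction m generalizing a with
  | zero =>
    refine ⟨{a}, ?_⟩
    intro n b h
    rw [Finset.mem_singleton]
    exact (L1_aux1 h).symm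
  | succ m ih =>
    choose R hR using ih
    obtain ⟨Nb, hNb⟩ := fin a
    refine ⟨insert a (Nb.biUnion R), ?_⟩
    intro n b h
    rw [Finset.mem_insert, Finset.mem_biUnion]
    rcases L1_aux2 h with h | ⟨c, hc, hcb⟩
    · exact Or.inl h.symm
    · exact Or.inr ⟨c, hNb n c hc, hR c n b hcb⟩

theorem lim_walk {W : Type} (T : ℕ → TP W) (fin : ∀ a, ∃ Nb : Finset W, ∀ n b, (T n).adj a b → b ∈ Nb) (m : ℕ) (a b : W)
    (h : ∀ᶠ n in (Filter.hyperfilter ℕ : Filter ℕ), (T n).WalkLE m a b) : (limTP T).WalkLE m a b := by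
  induction m generalizing a with
  | zero =>
    obtain ⟨n, hn⟩ := h.exists
    have := L1_aux1 hn
    subst this
    exact TP.WalkLE.nil 0 a
  | succ m ih =>
    by_cases hab : a = b
    · subst hab
      exact TP.WalkLE.nil (m + 1) a
    · obtain ⟨Nb, hNb⟩ := fin a
      have h1 : ∀ᶠ n in (Filter.hyperfilter ℕ : Filter ℕ),
          ∃ c ∈ (Nb : Set W), (T n).adj a c ∧ (T n).WalkLE m c b := by
        refine h.mono fun n hn => ?_
        rcases L1_aux2 hn with h2 | ⟨c, hc, hcb⟩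
        · exact absurd h2 hab
        · exact ⟨c, Finset.mem_coe.2 (hNb n c hc), hc, hcb⟩
      obtain ⟨c, -, hc⟩ := (Ultrafilter.eventually_exists_mem_iff Nb.finite_toSet).1 h1
      exact TP.WalkLE.cons m a c b (hc.mono fun n hn => hn.1) (ih c (hc.mono fun n hn => hn.2))

end QPl
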