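import Pool.Agent.Lib.MP_d3a5e5_co.L1

set_option autoImplicit false

namespace QPl

open Finsupp SimpleGraph

theorem tp_graph {W : Type} [Countable W] (T : TP W) (ok : T.OK) :
    ∃ H : SimpleGraph {a // T.pres a}, (∀ a b, H.Adj a b ↔ T.adj a.1 b.1) ∧ TwoPage H := by
  classical
  let H : SimpleGraph {a // T.pres a} :=
    { Adj := fun a b => T.adj a.1 b.1
      symm := ⟨fun (a b : {a // T.pres a}) h => ok.asym a.1 b.1 h⟩
      loopless := ⟨fun (a : {a // T.pres a}) h => ok.ne a.1 a.1 h rfl⟩ }
  refine ⟨H, fun a b => Iff.rfl, ?_⟩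
  let R : {a // T.pres a} → {a // T.pres a} → Prop := fun a b => T.lt a.1 b.1
  let lo : LinearOrder {a // T.pres a} :=
    { le := fun a b => a = b ∨ R a b
      lt := R
      le_refl := fun a => Or.inl rfl
      le_trans := by
        rintro a b c (rfl | h1) (rfl | h2)
        · exact Or.inl rfl
        · exact Or.inr h2
        · exact Or.inr h1
        · exact Or.inr (ok.trans _ _ _ h1 h2)
      le_antisymm := by
        rintro a b (h1 | h1) (h2 | h2)
        · exact h1
        · exact h1
        · exact h2.symm
        · exact absurd (ok.trans _ _ _ h1 h2) (ok.irr _)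
      le_total := by
        intro a b
        by_cases hab : a = b
        · exact Or.inl (Or.inl hab)
        · rcases ok.tot a.1 b.1 a.2 b.2 (fun h => hab (Subtype.ext h)) with h | h
          · exact Or.inl (Or.inr h)
          · exact Or.inr (Or.inr h)
      lt_iff_le_not_ge := by
        intro a b
        constructor
        · intro h
          refine ⟨Or.inr h, ?_⟩
          rintro (h2 | h2)
          · subst h2
            exact ok.irr _ h
          · exact ok.irr _ (ok.trans _ _ _ h h2)
        · rintro ⟨h | h, h2⟩
          · exact absurd (Or.inl h.symm) h2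
          · exact h
      toDecidableLE := Classical.decRel _ }
  obtain ⟨e⟩ := @Order.embedding_from_countable_to_dense {a // T.pres a} ℝ lo _ _ _ _
  refine ⟨e, fun a b => T.page a.1 b.1, e.injective, fun a b h => ok.pasym a.1 b.1 h, ?_⟩
  have key : ∀ a b : {a // T.pres a}, e a < e b → T.lt a.1 b.1 := by
    intro a b h
    exact (@OrderEmbedding.lt_iff_lt _ _ lo.toPreorder _ e a b).1 h
  intro a b c d h1 h2 h3 h4 h5 h6
  exact ok.nc a.1 b.1 c.1 d.1 h1 h2 h3 (key _ _ h4) (key _ _ h5) (key _ _ h6)

end QPl
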