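import Pool.Agent.Lib.MP_d3a5e5_co.L2

set_option autoImplicit false

namespace QPl

open Finsupp SimpleGraph

theorem L3_aux1 {W : Type} {T : TP W} (ok : T.OK) {H : SimpleGraph {a // T.pres a}}
    (hH : ∀ a b, H.Adj a b ↔ T.adj a.1 b.1) {m : ℕ} {a b : W} (h : T.WalkLE m a b) :
    ∀ ha : T.pres a, ∃ (hb : T.pres b) (w : H.Walk ⟨a, ha⟩ ⟨b, hb⟩), w.length ≤ m := by
  induction h with
  | nil m a => exact fun ha => ⟨ha, SimpleGraph.Walk.nil, Nat.zero_le _⟩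
  | cons m a b c hab hbc ih =>
    intro ha
    have hb : T.pres b := ok.adjp b a (ok.asym a b hab)
    obtain ⟨hc, w, hw⟩ := ih hb
    refine ⟨hc, SimpleGraph.Walk.cons ((hH ⟨a, ha⟩ ⟨b, hb⟩).2 hab) w, ?_⟩
    rw [SimpleGraph.Walk.length_cons]
    omega

theorem limit_tp {V W : Type} [Countable W] (G : SimpleGraph V) (hc : G.Connected) (pos : W → V) (C : ℕ) (T : ℕ → TP W)
    (ok : ∀ n, (T n).OK) (fin : ∀ a, ∃ Nb : Finset W, ∀ n b, (T n).adj a b → b ∈ Nb)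
    (loc : ∀ n a b, (T n).adj a b → G.dist (pos a) (pos b) ≤ C) (Bs : V → Finset W) (hBs : ∀ v, ∀ a ∈ Bs v, pos a = v)
    (h1 : ∀ v, ∀ᶠ n in Filter.atTop, ∃ a ∈ Bs v, (T n).pres a)
    (h2 : ∀ v v', v = v' ∨ G.Adj v v' → ∀ᶠ n in Filter.atTop, ∀ a ∈ Bs v, ∀ a' ∈ Bs v', (T n).pres a → (T n).pres a' →
      (T n).WalkLE C a a')
    (h3 : ∀ a, ∀ᶠ n in Filter.atTop, (T n).pres a → ∃ v, ∃ a' ∈ Bs v, (T n).pres a' ∧ (T n).WalkLE C a a') : QITwoPage G := by
  classical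
  set U : Filter ℕ := (Filter.hyperfilter ℕ : Filter ℕ) with hU
  have hle : U ≤ Filter.atTop := Nat.hyperfilter_le_atTop
  set Tl : TP W := limTP T with hTl
  have okL : Tl.OK := limTP_ok T ok
  obtain ⟨H, hH, hpage⟩ := tp_graph Tl okL

  have hbase : ∀ v, ∃ a ∈ Bs v, Tl.pres a := by
    intro v
    have e1 : ∀ᶠ n in U, ∃ a ∈ (Bs v : Set W), (T n).pres a := (h1 v).filter_mono hle
    obtain ⟨a, ha, ha'⟩ := (Ultrafilter.eventually_exists_mem_iff (Bs v).finite_toSet).1 e1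
    exact ⟨a, ha, ha'⟩
  have hadj : ∀ a b, Tl.adj a b → G.dist (pos a) (pos b) ≤ C := by
    intro a b hab
    have e1 : ∀ᶠ n in U, (T n).adj a b := hab
    obtain ⟨n, hn⟩ := e1.exists
    exact loc n a b hn
  have hstep : ∀ v v', (v = v' ∨ G.Adj v v') → ∀ a ∈ Bs v, ∀ a' ∈ Bs v', Tl.pres a → Tl.pres a' →
      Tl.WalkLE C a a' := by
    intro v v' hv a ha a' ha' hp hp'
    have e1 : ∀ᶠ n in U, ∀ a ∈ Bs v, ∀ a' ∈ Bs v', (T n).pres a → (T n).pres a' →
      (T n).WalkLE C a a' := (h2 v v' hv).filter_mono hle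
    have e2 : ∀ᶠ n in U, (T n).pres a := hp
    have e3 : ∀ᶠ n in U, (T n).pres a' := hp'
    refine lim_walk T fin C a a' ?_
    filter_upwards [e1, e2, e3] with n k1 k2 k3
    exact k1 a ha a' ha' k2 k3
  have hnear : ∀ a, Tl.pres a → ∃ v, ∃ a' ∈ Bs v, Tl.pres a' ∧ Tl.WalkLE C a a' := by
    intro a ha
    obtain ⟨Nb, hNb⟩ := reach_finite T fin C a
    have e1 : ∀ᶠ n in U, (T n).pres a → ∃ v, ∃ a' ∈ Bs v, (T n).pres a' ∧ (T n).WalkLE C a a' :=
      (h3 a).filter_mono hle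
    have e2 : ∀ᶠ n in U, (T n).pres a := ha
    have e3 : ∀ᶠ n in U, ∃ a' ∈ (Nb : Set W), (∃ v, a' ∈ Bs v) ∧ (T n).pres a' ∧
        (T n).WalkLE C a a' := by
      filter_upwards [e1, e2] with n k1 k2
      obtain ⟨v, a', k3, k4, k5⟩ := k1 k2
      exact ⟨a', hNb n a' k5, ⟨v, k3⟩, k4, k5⟩
    obtain ⟨a', _, e4⟩ := (Ultrafilter.eventually_exists_mem_iff Nb.finite_toSet).1 e3
    have e4' : ∀ᶠ n in U, (∃ v, a' ∈ Bs v) ∧ (T n).pres a' ∧ (T n).WalkLE C a a' := e4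
    obtain ⟨_, ⟨v, hv⟩, _⟩ := e4'.exists
    refine ⟨v, a', hv, e4'.mono fun n k => k.2.1, lim_walk T fin C a a' (e4'.mono fun n k => k.2.2)⟩
  choose φ0 hφ1 hφ2 using hbase
  set φ : V → {a // Tl.pres a} := fun v => ⟨φ0 v, hφ2 v⟩ with hφ
  have hreach : ∀ (a b : {a // Tl.pres a}) (m : ℕ), Tl.WalkLE m a.1 b.1 →
      H.Reachable a b ∧ H.dist a b ≤ m := by
    intro a b m hab
    obtain ⟨_, w, hw⟩ := L3_aux1 okL hH hab a.2
    exact ⟨⟨w⟩, (SimpleGraph.dist_le w).trans hw⟩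
  have hφstep : ∀ v v', (v = v' ∨ G.Adj v v') → H.Reachable (φ v) (φ v') ∧ H.dist (φ v) (φ v') ≤ C :=
    fun v v' hv => hreach (φ v) (φ v') C (hstep v v' hv _ (hφ1 v) _ (hφ1 v') (hφ2 v) (hφ2 v'))
  have hφreach : ∀ {v v' : V} (w : G.Walk v v'), H.Reachable (φ v) (φ v') := by
    intro v v' w
    induction w with
    | nil => exact SimpleGraph.Reachable.refl _
    | cons h w ih => exact (hφstep _ _ (Or.inr h)).1.trans ih
  have hto : ∀ a : {a // Tl.pres a}, ∃ v, H.Reachable a (φ v) ∧ H.dist a (φ v) ≤ 2 * C := by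
    intro a
    obtain ⟨v, a', k1, k2, k3⟩ := hnear a.1 a.2
    obtain ⟨r1, d1⟩ := hreach a ⟨a', k2⟩ C k3
    obtain ⟨r2, d2⟩ := hreach ⟨a', k2⟩ (φ v) C (hstep v v (Or.inl rfl) _ k1 _ (hφ1 v) k2 (hφ2 v))
    refine ⟨v, r1.trans r2, ?_⟩
    obtain ⟨w1, hw1⟩ := r1.exists_walk_length_eq_dist
    obtain ⟨w2, hw2⟩ := r2.exists_walk_length_eq_dist
    have h5 := SimpleGraph.dist_le (w1.append w2)
    rw [SimpleGraph.Walk.length_append] at h5
    omega
  have hconn : H.Connected := by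
    obtain ⟨v0⟩ := hc.nonempty
    have hne : Nonempty {a // Tl.pres a} := ⟨φ v0⟩
    refine ⟨fun a b => ?_⟩
    obtain ⟨v, r1, _⟩ := hto a
    obtain ⟨v', r2, _⟩ := hto b
    obtain ⟨w⟩ := hc.preconnected v v'
    exact (r1.trans (hφreach w)).trans r2.symm
  have hup : ∀ {v v' : V} (w : G.Walk v v'), H.dist (φ v) (φ v') ≤ C * w.length := by
    intro v v' w
    induction w with
    | nil => simp
    | @cons u v w' h w ih =>
      have k1 := hconn.dist_triangle (u := φ u) (v := φ v) (w := φ w')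
      have k2 := (hφstep u v (Or.inr h)).2
      rw [SimpleGraph.Walk.length_cons, mul_add, mul_one]
      omega
  have hdown : ∀ {a b : {a // Tl.pres a}} (w : H.Walk a b), G.dist (pos a.1) (pos b.1) ≤ C * w.length := by
    intro a b w
    induction w with
    | nil => simp
    | @cons a b c h w ih =>
      have k1 := hc.dist_triangle (u := pos a.1) (v := pos b.1) (w := pos c.1)
      have k2 := hadj a.1 b.1 ((hH a b).1 h)
      rw [SimpleGraph.Walk.length_cons, mul_add, mul_one]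
      omega
  refine ⟨{a // Tl.pres a}, H, inferInstance, hconn, hpage, φ, 2 * C + 1, 2 * C + 1, ?_, ?_, ?_, ?_⟩
  · have : (0 : ℝ) ≤ C := Nat.cast_nonneg C
    linarith
  · positivity
  · intro x y
    obtain ⟨w1, hw1⟩ := (hc.preconnected x y).exists_walk_length_eq_dist
    obtain ⟨w2, hw2⟩ := (hconn.preconnected (φ x) (φ y)).exists_walk_length_eq_dist
    have k1 := hup w1
    have k2 := hdown w2
    rw [hw1] at k1
    rw [hw2] at k2
    have e1 : pos (φ x).1 = x := hBs x _ (hφ1 x)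
    have e2 : pos (φ y).1 = y := hBs y _ (hφ1 y)
    rw [e1, e2] at k2
    have hC : (0 : ℝ) ≤ C := Nat.cast_nonneg C
    have k1' : (H.dist (φ x) (φ y) : ℝ) ≤ C * G.dist x y := by exact_mod_cast k1
    have k2' : (G.dist x y : ℝ) ≤ C * H.dist (φ x) (φ y) := by exact_mod_cast k2
    have g0 : (0 : ℝ) ≤ G.dist x y := Nat.cast_nonneg _
    have h0 : (0 : ℝ) ≤ H.dist (φ x) (φ y) := Nat.cast_nonneg _
    constructor
    · have k3 : (G.dist x y : ℝ) / (2 * C + 1) ≤ H.dist (φ x) (φ y) := by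
        rw [div_le_iff₀ (by positivity)]
        nlinarith
      linarith
    · nlinarith
  · intro w
    obtain ⟨v, _, k⟩ := hto w
    refine ⟨v, ?_⟩
    have k' : (H.dist w (φ v) : ℝ) ≤ 2 * C := by exact_mod_cast k
    linarith

end QPl
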