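import Pool.Agent.Lib.MP_d3a5e5_co.A6

set_option autoImplicit false

namespace QPl

open Finsupp SimpleGraph

open Classical in
/-- the component of `z` in `K0` -/
noncomputable def P1_comp (K0 : Finset Pt) (z : Pt) : Finset Pt :=
  K0.filter (fun w => Relation.ReflTransGen (fun a b => GAdj a b ∧ b ∈ K0) z w)

theorem P1_mem {K0 : Finset Pt} {z w : Pt} :
    w ∈ P1_comp K0 z ↔ w ∈ K0 ∧ Relation.ReflTransGen (fun a b => GAdj a b ∧ b ∈ K0) z w := by
  simp [P1_comp]

theorem P1_self {K0 : Finset Pt} {z : Pt} (hz : z ∈ K0) : z ∈ P1_comp K0 z :=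
  P1_mem.2 ⟨hz, Relation.ReflTransGen.refl⟩

theorem P1_gsymm {z w : Pt} (h : GAdj z w) : GAdj w z := by
  unfold GAdj at *
  omega

theorem P1_in {K0 : Finset Pt} {z w : Pt} (hz : z ∈ K0)
    (h : Relation.ReflTransGen (fun a b => GAdj a b ∧ b ∈ K0) z w) : w ∈ K0 := by
  cases h with
  | refl => exact hz
  | tail _ h2 => exact h2.2

theorem P1_rev {K0 : Finset Pt} {z w : Pt} (hz : z ∈ K0)
    (h : Relation.ReflTransGen (fun a b => GAdj a b ∧ b ∈ K0) z w) :
    Relation.ReflTransGen (fun a b => GAdj a b ∧ b ∈ K0) w z := by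
  induction h with
  | refl => exact Relation.ReflTransGen.refl
  | tail h1 h2 ih => exact Relation.ReflTransGen.head ⟨P1_gsymm h2.1, P1_in hz h1⟩ ih

theorem P1_eq {K0 : Finset Pt} {z w : Pt} (hz : z ∈ K0) (hw : w ∈ P1_comp K0 z) :
    P1_comp K0 w = P1_comp K0 z := by
  obtain ⟨hw0, hzw⟩ := P1_mem.1 hw
  ext x
  rw [P1_mem, P1_mem]
  exact ⟨fun h => ⟨h.1, hzw.trans h.2⟩, fun h => ⟨h.1, (P1_rev hz hzw).trans h.2⟩⟩

theorem P1_conn {K0 : Finset Pt} {z : Pt} (hz : z ∈ K0) : GConn (P1_comp K0 z : Set Pt) := by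
  intro w hw w' hw'
  obtain ⟨hw0, hzw⟩ := P1_mem.1 hw
  obtain ⟨hw0', hzw'⟩ := P1_mem.1 hw'
  have h1 := (P1_rev hz hzw).trans hzw'
  clear hzw' hw0' hw'
  induction h1 with
  | refl => exact Relation.ReflTransGen.refl
  | tail h2 h3 ih =>
    exact ih.tail ⟨h3.1, Finset.mem_coe.2 (P1_mem.2 ⟨h3.2, (hzw.trans h2).tail h3⟩)⟩

theorem P1_len {L : Type} (l : List (L ⊕ Finset Pt)) :
    l.length = l.countP Sum.isLeft + l.countP Sum.isRight := by
  induction l with
  | nil => rfl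
  | cons a l ih =>
    rcases a with a | a
    · simp only [List.length_cons, List.countP_cons, Sum.isLeft_inl, Sum.isRight_inl, ih]
      simp
      omega
    · simp only [List.length_cons, List.countP_cons, Sum.isLeft_inr, Sum.isRight_inr, ih]
      simp
      omega

theorem P1_lenR {L : Type} (l : List (L ⊕ Finset Pt)) :
    (l.filterMap Sum.getRight?).length = l.countP Sum.isRight := by
  induction l with
  | nil => rfl
  | cons a l ih =>
    rcases a with a | a
    · rw [List.filterMap_cons, List.countP_cons, ← ih]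
      simp
    · rw [List.filterMap_cons, List.countP_cons, ← ih]
      simp

theorem pieces_step {L : Type} (T : L → Finset Pt) (hT : ∀ l, GConn (T l : Set Pt)) (hd : ∀ l m, l ≠ m → Disjoint (T l) (T m))
    (K : Finset Pt) (hK : GConn (K : Set Pt)) (s t : L) (hs : (T s ∩ K).Nonempty) (ht : (T t ∩ K).Nonempty) (n : ℕ)
    (hfin : {l | (T l ∩ K).Nonempty}.Finite) (hn : {l | (T l ∩ K).Nonempty}.ncard ≤ n) :
    ∃ F : Fin n → Finset Pt, (∀ i, F i ⊆ K) ∧ (∀ i, GConn (F i : Set Pt)) ∧ (∀ i l, Disjoint (F i) (T l)) ∧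
      (∀ i j, i ≠ j → Disjoint (F i) (F j)) ∧
      (∃ w : (PG (Sum.elim T F)).Walk (Sum.inl s) (Sum.inl t), w.length ≤ 2 * n) ∧
      ∀ i, (F i).Nonempty → ∃ w : (PG (Sum.elim T F)).Walk (Sum.inr i) (Sum.inl s), w.length ≤ 2 * n := by
  classical
  obtain ⟨K0, hK0⟩ : ∃ K0 : Finset Pt, ∀ z, z ∈ K0 ↔ z ∈ K ∧ ∀ l, z ∉ T l :=
    ⟨K.filter (fun z => ∀ l, z ∉ T l), fun z => by simp⟩
  obtain ⟨N, hN⟩ : ∃ N : Set (L ⊕ Finset Pt), ∀ x, x ∈ N ↔
      (∃ l, x = Sum.inl l ∧ (T l ∩ K).Nonempty) ∨ ∃ z ∈ K0, x = Sum.inr (P1_comp K0 z) := ⟨_, fun x => Iff.rfl⟩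
  obtain ⟨S, hSl, hSr⟩ : ∃ S : L ⊕ Finset Pt → Finset Pt, (∀ l, S (Sum.inl l) = T l) ∧ ∀ C, S (Sum.inr C) = C :=
    ⟨Sum.elim T id, fun _ => rfl, fun _ => rfl⟩
  have huniq : ∀ x ∈ N, ∀ y ∈ N, ∀ z, z ∈ S x → z ∈ S y → x = y := by
    intro x hx y hy z hzx hzy
    rcases (hN x).1 hx with ⟨l, rfl, -⟩ | ⟨u, hu, rfl⟩ <;> rcases (hN y).1 hy with ⟨m, rfl, -⟩ | ⟨v, hv, rfl⟩
    · rw [hSl] at hzx hzy
      by_contra hne
      exact (Finset.disjoint_left.1 (hd l m (fun h => hne (by rw [h])))) hzx hzy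
    · rw [hSl] at hzx
      rw [hSr] at hzy
      exact absurd hzx (((hK0 z).1 (P1_mem.1 hzy).1).2 l)
    · rw [hSl] at hzy
      rw [hSr] at hzx
      exact absurd hzy (((hK0 z).1 (P1_mem.1 hzx).1).2 m)
    · rw [hSr] at hzx hzy
      rw [← P1_eq hu hzx, ← P1_eq hv hzy]
  have hnode : ∀ z ∈ K, ∃ x ∈ N, z ∈ S x := by
    intro z hz
    by_cases h : ∃ l, z ∈ T l
    · obtain ⟨l, hl⟩ := h
      exact ⟨Sum.inl l, (hN _).2 (Or.inl ⟨l, rfl, ⟨z, Finset.mem_inter.2 ⟨hl, hz⟩⟩⟩), by rw [hSl]; exact hl⟩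
    · push Not at h
      have hz0 : z ∈ K0 := (hK0 z).2 ⟨hz, h⟩
      exact ⟨Sum.inr (P1_comp K0 z), (hN _).2 (Or.inr ⟨z, hz0, rfl⟩), by rw [hSr]; exact P1_self hz0⟩
  obtain ⟨Γ, hΓ⟩ : ∃ Γ : SimpleGraph (L ⊕ Finset Pt), ∀ a b, Γ.Adj a b ↔ a ∈ N ∧ b ∈ N ∧ (PG S).Adj a b :=
    ⟨{ Adj := fun a b => a ∈ N ∧ b ∈ N ∧ (PG S).Adj a b
       symm := ⟨fun a b h => ⟨h.2.1, h.1, h.2.2.symm⟩⟩
       loopless := ⟨fun a h => h.2.2.1 rfl⟩ }, fun a b => Iff.rfl⟩
  have hcc : ∀ C C' : Finset Pt, ¬ Γ.Adj (Sum.inr C) (Sum.inr C') := by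
    intro C C' h
    obtain ⟨h1, h2, h3, z, hz, w, hw, hzw⟩ := (hΓ _ _).1 h
    rcases (hN _).1 h1 with ⟨l, hl, -⟩ | ⟨u, hu, hCu⟩
    · exact absurd hl (by simp)
    rcases (hN _).1 h2 with ⟨l, hl, -⟩ | ⟨v, hv, hCv⟩
    · exact absurd hl (by simp)
    rw [hSr] at hz hw
    have e1 : C = P1_comp K0 u := Sum.inr_injective hCu
    have e2 : C' = P1_comp K0 v := Sum.inr_injective hCv
    rw [e1] at hz
    rw [e2] at hw
    obtain ⟨hz0, huz⟩ := P1_mem.1 hz
    obtain ⟨hw0, hvw⟩ := P1_mem.1 hw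
    have h5 : w ∈ P1_comp K0 u := P1_mem.2 ⟨hw0, huz.tail ⟨hzw, hw0⟩⟩
    apply h3
    rw [e1, e2, ← P1_eq hu h5, ← P1_eq hv hw]

  obtain ⟨a, ha⟩ := hs
  obtain ⟨b, hb⟩ := ht
  obtain ⟨has, haK⟩ := Finset.mem_inter.1 ha
  obtain ⟨hbt, hbK⟩ := Finset.mem_inter.1 hb
  have hsN : (Sum.inl s : L ⊕ Finset Pt) ∈ N := (hN _).2 (Or.inl ⟨s, rfl, ⟨a, ha⟩⟩)
  have htN : (Sum.inl t : L ⊕ Finset Pt) ∈ N := (hN _).2 (Or.inl ⟨t, rfl, ⟨b, hb⟩⟩)
  have hreach : ∀ c, Relation.ReflTransGen (fun a b => GAdj a b ∧ b ∈ (K : Set Pt)) a c → ∀ y ∈ N, c ∈ S y →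
      Γ.Reachable (Sum.inl s) y := by
    intro c hc
    induction hc with
    | refl =>
      intro y hy hay
      rw [huniq _ hsN y hy a (by rw [hSl]; exact has) hay]
    | tail h1 h2 ih =>
      rename_i b' c'
      intro y hy hcy
      have hbK' : b' ∈ K := by
        cases h1 with
        | refl => exact haK
        | tail _ h3 => exact h3.2
      obtain ⟨x, hx, hbx⟩ := hnode b' hbK'
      by_cases hxy : x = y
      · rw [← hxy]
        exact ih x hx hbx
      · exact (ih x hx hbx).trans (SimpleGraph.Adj.reachable ((hΓ _ _).2 ⟨hx, hy, hxy, b', hbx, c', hcy, h2.1⟩))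
  obtain ⟨w0⟩ := hreach b (hK a haK b hbK) (Sum.inl t) htN (by rw [hSl]; exact hbt)
  obtain ⟨P, hP⟩ : ∃ P : Γ.Walk (Sum.inl s) (Sum.inl t), P.IsPath := ⟨w0.toPath.1, w0.toPath.2⟩
  have hsup : ∀ {x y : L ⊕ Finset Pt} (w : Γ.Walk x y), x ∈ N → ∀ v ∈ w.support, v ∈ N := by
    intro x y w
    induction w with
    | nil =>
      intro hx v hv
      rw [Walk.support_nil, List.mem_singleton] at hv
      rw [hv]
      exact hx
    | cons h p ih =>
      intro hx v hv
      rw [Walk.support_cons, List.mem_cons] at hv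
      rcases hv with rfl | hv
      · exact hx
      · exact ih ((hΓ _ _).1 h).2.1 v hv
  have hPN := hsup P hsN
  have hcnt : ∀ {x y : L ⊕ Finset Pt} (w : Γ.Walk x y), y.isLeft = true →
      w.support.countP Sum.isRight + (if x.isLeft = true then 1 else 0) ≤ w.support.countP Sum.isLeft := by
    intro x y w
    induction w with
    | nil =>
      intro hy
      rename_i u
      rcases u with u | u
      · simp
      · simp at hy
    | cons h p ih =>
      rename_i u v y'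
      intro hy
      have h1 := ih hy
      rw [Walk.support_cons, List.countP_cons, List.countP_cons]
      rcases u with u | u
      · simp only [Sum.isLeft_inl, Sum.isRight_inl, if_true]
        split_ifs at h1 <;> simp <;> omega
      · rcases v with v | v
        · simp only [Sum.isLeft_inl, if_true] at h1
          simp only [Sum.isLeft_inr, Sum.isRight_inr, if_true]
          simp
          omega
        · exact absurd h (hcc _ _)
  have hPc := hcnt P rfl
  simp only [Sum.isLeft_inl, if_true] at hPc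
  have hleft : P.support.countP Sum.isLeft ≤ n := by
    rw [List.countP_eq_length_filter]
    have hnd : (P.support.filter Sum.isLeft).Nodup := hP.support_nodup.filter _
    rw [← List.toFinset_card_of_nodup hnd]
    refine le_trans (Finset.card_le_card (t := hfin.toFinset.image Sum.inl) ?_) ?_
    · intro x hx
      rw [List.mem_toFinset, List.mem_filter] at hx
      rcases (hN _).1 (hPN x hx.1) with ⟨l, rfl, hl⟩ | ⟨u, -, rfl⟩
      · exact Finset.mem_image_of_mem _ (hfin.mem_toFinset.2 hl)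
      · simp at hx
    · refine le_trans Finset.card_image_le ?_
      rw [← Set.ncard_eq_toFinset_card _ hfin]
      exact hn
  have hlen := P1_len P.support
  rw [Walk.length_support] at hlen
  have hPlen : P.length ≤ 2 * n := by omega

  obtain ⟨cs, hcs, hcsnd, hcslen⟩ : ∃ cs : List (Finset Pt), (∀ C, C ∈ cs ↔ Sum.inr C ∈ P.support) ∧ cs.Nodup ∧
      cs.length ≤ n := by
    refine ⟨P.support.filterMap Sum.getRight?, ?_, ?_, ?_⟩
    · intro C
      rw [List.mem_filterMap]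
      constructor
      · rintro ⟨x, hx, hxC⟩
        rcases x with x | x
        · simp at hxC
        · simp only [Sum.getRight?_inr, Option.some.injEq] at hxC
          rw [← hxC]
          exact hx
      · intro h
        exact ⟨_, h, rfl⟩
    · refine List.Nodup.filterMap ?_ hP.support_nodup
      intro x y C hx hy
      rcases x with x | x <;> rcases y with y | y
      · simp at hx
      · simp at hx
      · simp at hy
      · simp only [Sum.getRight?_inr, Option.mem_def, Option.some.injEq] at hx hy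
        rw [hx, hy]
    · rw [P1_lenR]
      omega
  have hcomp : ∀ C ∈ cs, ∃ z ∈ K0, C = P1_comp K0 z := by
    intro C hC
    rcases (hN _).1 (hPN _ ((hcs C).1 hC)) with ⟨l, hl, -⟩ | ⟨u, hu, hCu⟩
    · exact absurd hl (by simp)
    · exact ⟨u, hu, Sum.inr_injective hCu⟩
  obtain ⟨F, hF⟩ : ∃ F : Fin n → Finset Pt, ∀ i, F i = cs.getD i ∅ := ⟨fun i => cs.getD i ∅, fun _ => rfl⟩
  have hF1 : ∀ i : Fin n, ∀ h : (i : ℕ) < cs.length, F i = cs[(i : ℕ)] := by
    intro i h
    rw [hF, List.getD_eq_getElem _ _ h]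
  have hF2 : ∀ i : Fin n, ¬ (i : ℕ) < cs.length → F i = ∅ := by
    intro i h
    rw [hF, List.getD_eq_default _ _ (by omega)]
  obtain ⟨φ, hφl, hφr⟩ : ∃ φ : L ⊕ Finset Pt → L ⊕ Fin n, (∀ l, φ (Sum.inl l) = Sum.inl l) ∧
      ∀ C ∈ cs, ∀ i : Fin n, (i : ℕ) = cs.idxOf C → φ (Sum.inr C) = Sum.inr i := by
    refine ⟨Sum.elim Sum.inl (fun C => if h : cs.idxOf C < n then Sum.inr ⟨cs.idxOf C, h⟩ else Sum.inl s),
      fun _ => rfl, ?_⟩
    intro C hC i hi
    have h1 : cs.idxOf C < n := by rw [← hi]; exact i.2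
    simp only [Sum.elim_inr, dif_pos h1]
    congr 1
    exact Fin.ext hi.symm
  have hφS : ∀ x ∈ P.support, (Sum.elim T F) (φ x) = S x := by
    intro x hx
    rcases x with l | C
    · rw [hφl, hSl]
      rfl
    · have hC : C ∈ cs := (hcs C).2 hx
      have h1 : cs.idxOf C < cs.length := List.idxOf_lt_length_iff.2 hC
      rw [hφr C hC ⟨cs.idxOf C, by omega⟩ rfl, hSr]
      show F ⟨cs.idxOf C, _⟩ = C
      rw [hF1 _ h1]
      exact List.getElem_idxOf h1
  have htr : ∀ {x y : L ⊕ Finset Pt} (w : Γ.Walk x y), (∀ v ∈ w.support, v ∈ P.support) →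
      ∃ w' : (PG (Sum.elim T F)).Walk (φ x) (φ y), w'.length = w.length := by
    intro x y w
    induction w with
    | nil => intro _; exact ⟨Walk.nil, rfl⟩
    | cons h p ih =>
      rename_i u v y'
      intro hv
      obtain ⟨w', hw'⟩ := ih (fun v' hv' => hv v' (by rw [Walk.support_cons]; exact List.mem_cons_of_mem _ hv'))
      have hu : u ∈ P.support := hv u (by rw [Walk.support_cons]; exact List.mem_cons_self)
      have hv0 : v ∈ P.support := hv v (by rw [Walk.support_cons]; exact List.mem_cons_of_mem _ p.start_mem_support)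
      obtain ⟨h1, h2, h3, z, hz, w, hw, hzw⟩ := (hΓ _ _).1 h
      have hadj : (PG (Sum.elim T F)).Adj (φ u) (φ v) := by
        refine ⟨?_, z, by rw [hφS u hu]; exact hz, w, by rw [hφS v hv0]; exact hw, hzw⟩
        intro he
        have h4 : S u = S v := by rw [← hφS u hu, ← hφS v hv0, he]
        exact h3 (huniq u h1 v h2 z hz (by rw [← h4]; exact hz))
      exact ⟨Walk.cons hadj w', by rw [Walk.length_cons, Walk.length_cons, hw']⟩
  refine ⟨F, ?_, ?_, ?_, ?_, ?_, ?_⟩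
  · intro i z hz
    by_cases h : (i : ℕ) < cs.length
    · rw [hF1 i h] at hz
      obtain ⟨u, -, hCu⟩ := hcomp _ (List.getElem_mem h)
      rw [hCu] at hz
      exact ((hK0 z).1 (P1_mem.1 hz).1).1
    · rw [hF2 i h] at hz
      exact absurd hz (Finset.notMem_empty z)
  · intro i
    by_cases h : (i : ℕ) < cs.length
    · rw [hF1 i h]
      obtain ⟨u, hu, hCu⟩ := hcomp _ (List.getElem_mem h)
      rw [hCu]
      exact P1_conn hu
    · rw [hF2 i h]
      intro z hz
      exact absurd hz (by simp)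
  · intro i l
    by_cases h : (i : ℕ) < cs.length
    · rw [hF1 i h]
      obtain ⟨u, hu, hCu⟩ := hcomp _ (List.getElem_mem h)
      rw [hCu, Finset.disjoint_left]
      intro z hz
      exact ((hK0 z).1 (P1_mem.1 hz).1).2 l
    · rw [hF2 i h]
      exact Finset.disjoint_empty_left _
  · intro i j hij
    by_cases hi : (i : ℕ) < cs.length
    · by_cases hj : (j : ℕ) < cs.length
      · rw [hF1 i hi, hF1 j hj]
        obtain ⟨u, hu, hCu⟩ := hcomp _ (List.getElem_mem hi)
        obtain ⟨v, hv, hCv⟩ := hcomp _ (List.getElem_mem hj)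
        rw [Finset.disjoint_left]
        intro z hzi hzj
        have hne : cs[(i : ℕ)] ≠ cs[(j : ℕ)] := fun he => hij (Fin.ext ((hcsnd.getElem_inj_iff).1 he))
        apply hne
        rw [hCu] at hzi ⊢
        rw [hCv] at hzj ⊢
        rw [← P1_eq hu hzi, ← P1_eq hv hzj]
      · rw [hF2 j hj]
        exact Finset.disjoint_empty_right _
    · rw [hF2 i hi]
      exact Finset.disjoint_empty_left _
  · obtain ⟨w', hw'⟩ := htr P (fun v hv => hv)
    exact ⟨w'.copy (hφl s) (hφl t), by rw [Walk.length_copy, hw']; exact hPlen⟩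
  · intro i hi
    have h : (i : ℕ) < cs.length := by
      by_contra h
      rw [hF2 i h] at hi
      exact Finset.not_nonempty_empty hi
    have hC : cs[(i : ℕ)] ∈ cs := List.getElem_mem h
    have hCP := (hcs _).1 hC
    obtain ⟨w', hw'⟩ := htr (P.takeUntil _ hCP) (fun v hv => P.support_takeUntil_subset_support hCP hv)
    have hφi : φ (Sum.inr cs[(i : ℕ)]) = Sum.inr i := hφr _ hC i (hcsnd.idxOf_getElem _ h).symm
    refine ⟨(w'.copy (hφl s) hφi).reverse, ?_⟩
    rw [Walk.length_reverse, Walk.length_copy, hw']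
    exact (P.length_takeUntil_le_length hCP).trans hPlen

end QPl
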