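import Pool.Agent.Lib.MP_d3a5e5_co.D1

set_option autoImplicit false

namespace QPl

open Finsupp SimpleGraph

theorem colouring {α : Type} (X : α → α → Prop) (k : ℕ) (E : Finset α) (hs : ∀ e ∈ E, ∀ f ∈ E, X e f → X f e)
    (hk : ∀ e ∈ E, {f | f ∈ E ∧ X e f}.ncard ≤ k) :
    ∃ col : α → ℕ, (∀ e, col e ≤ k) ∧ ∀ e ∈ E, ∀ f ∈ E, e ≠ f → X e f → col e ≠ col f := by
  classical
  induction E using Finset.induction_on with
  | empty => exact ⟨fun _ => 0, fun _ => Nat.zero_le _, by simp⟩
  | insert a E ha ih =>
    obtain ⟨col, hc1, hc2⟩ := ih
      (fun e he f hf => hs e (Finset.mem_insert_of_mem he) f (Finset.mem_insert_of_mem hf))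
      (fun e he => by
        refine le_trans (Set.ncard_le_ncard ?_ ?_) (hk e (Finset.mem_insert_of_mem he))
        · rintro f ⟨hf, hx⟩
          exact ⟨Finset.mem_insert_of_mem hf, hx⟩
        · exact Set.Finite.subset (Finset.finite_toSet (insert a E)) (fun f hf => hf.1))

    have hcard : (((insert a E).filter (fun f => X a f)).image col).card ≤ k := by
      refine le_trans Finset.card_image_le ?_
      have h1 := hk a (Finset.mem_insert_self a E)
      have h2 : {f | f ∈ insert a E ∧ X a f} = (((insert a E).filter (fun f => X a f) : Finset α) : Set α) := by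
        ext f
        simp
      rw [h2, Set.ncard_coe_finset] at h1
      exact h1
    have hex : ∃ c ∈ Finset.range (k + 1), c ∉ ((insert a E).filter (fun f => X a f)).image col := by
      by_contra hno
      push Not at hno
      have h3 : (Finset.range (k + 1)).card ≤ (((insert a E).filter (fun f => X a f)).image col).card :=
        Finset.card_le_card (fun c hc => hno c hc)
      rw [Finset.card_range] at h3
      omega
    obtain ⟨c, hcr, hcn⟩ := hex
    have hcn' : ∀ f ∈ insert a E, X a f → col f ≠ c := by
      intro f hf hx e
      exact hcn (Finset.mem_image.2 ⟨f, Finset.mem_filter.2 ⟨hf, hx⟩, e⟩)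
    refine ⟨fun e => if e = a then c else col e, ?_, ?_⟩
    · intro e
      by_cases h : e = a
      · simp only [h, if_true]
        have := Finset.mem_range.1 hcr
        omega
      · simp only [h, if_false]
        exact hc1 e
    · intro e he f hf hne hx
      by_cases h : e = a
      · have hfa : f ≠ a := fun h' => hne (h.trans h'.symm)
        simp only [h, if_true, hfa, if_false]
        rw [h] at hx
        exact fun e' => hcn' f hf hx e'.symm
      · by_cases h' : f = a
        · simp only [h, h', if_true, if_false]
          have hx' := hs e he f hf hx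
          rw [h'] at hx'
          exact hcn' e he hx'
        · simp only [h, h', if_false]
          exact hc2 e (Finset.mem_of_mem_insert_of_ne he h) f (Finset.mem_of_mem_insert_of_ne hf h') hne hx

end QPl
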