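import Pool.Agent.Lib.MP_d3a5e5_co.P3a

set_option autoImplicit false

namespace QPl

open Finsupp SimpleGraph

/-- The numbers of pieces and lengths of walks after `c` steps. -/
def P3_aux_bm (k : ℕ) : ℕ → ℕ × ℕ
  | 0 => (0, 0)
  | c + 1 => ((P3_aux_bm k c).1 + (2 * k + k * (P3_aux_bm k c).1),
      (P3_aux_bm k c).2 + 2 * (2 * k + k * (P3_aux_bm k c).1))

theorem P3_aux_far (z : Pt) : ¬ Far z z := by
  simp [Far]

theorem P3_aux_conn (z : Pt) : GConn ((({z} : Finset Pt)) : Set Pt) := by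
  intro x hx y hy
  rw [Finset.coe_singleton, Set.mem_singleton_iff] at hx hy
  rw [hx, hy]

theorem P3_aux_conn0 : GConn (((∅ : Finset Pt)) : Set Pt) := by
  intro x hx
  simp at hx

open Classical in
theorem P3_aux_base {V : Type} {G : SimpleGraph V} {k : ℕ} {B : Finset V} {ω : Dat V} (ρ : GridRep G k B ω) (col : Sym2 V → ℕ) :
    ∃ T : Lab V → Finset Pt, PU ρ col 0 0 0 T := by
  refine ⟨Sum.elim (fun v => if ∃ e ∈ EB G (B : Set V), v ∈ e then {ρ.p v} else ∅) (fun _ => ∅), ?_⟩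
  refine ⟨?_, ?_, ?_, ?_, ?_, ?_, ?_⟩
  · intro v hv
    rw [Sum.elim_inl, if_pos hv]
  · intro v hv
    rw [Sum.elim_inl, if_neg hv]
  · intro e i h
    simp at h
  · rintro (v | x)
    · rw [Sum.elim_inl]
      split_ifs
      · exact P3_aux_conn _
      · exact P3_aux_conn0
    · exact P3_aux_conn0
  · rintro (v | x) (v' | x') hne
    · rw [Sum.elim_inl, Sum.elim_inl]
      split_ifs with h1 h2
      · rw [Finset.disjoint_singleton]
        intro hp
        obtain ⟨e, he, hve⟩ := h1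
        obtain ⟨e', he', hve'⟩ := h2
        exact hne (congrArg Sum.inl (ρ.inj (he.2 v hve) (he'.2 v' hve') hp))
      · exact Finset.disjoint_empty_right _
      · exact Finset.disjoint_empty_left _
      · exact Finset.disjoint_empty_left _
    · exact Finset.disjoint_empty_right _
    · exact Finset.disjoint_empty_left _
    · exact Finset.disjoint_empty_right _
  · intro u v _ h
    exact absurd h (Nat.not_lt_zero _)
  · intro e i h
    simp at h

theorem P3_aux_iter {V : Type} {G : SimpleGraph V} {k : ℕ} {B : Finset V} {ω : Dat V} (ρ : GridRep G k B ω) (col : Sym2 V → ℕ)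
    (hcol : ∀ e ∈ EB G (B : Set V), ∀ f ∈ EB G (B : Set V), e ≠ f → TX ω e f → col e ≠ col f) (c : ℕ) :
    ∃ T : Lab V → Finset Pt, PU ρ col c (P3_aux_bm k c).1 (P3_aux_bm k c).2 T := by
  induction c with
  | zero => exact P3_aux_base ρ col
  | succ c ih =>
    obtain ⟨T, hT⟩ := ih
    exact PU_step ρ col hcol c _ _ T hT

theorem pieces (k : ℕ) : ∃ b m : ℕ, ∀ {V : Type} (G : SimpleGraph V) (B : Finset V) (ω : Dat V) (ρ : GridRep G k B ω),
    ∃ T : Lab V → Finset Pt,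
      (∀ v, (∃ e ∈ EB G (B : Set V), v ∈ e) → T (Sum.inl v) = {ρ.p v}) ∧
      (∀ v, (¬ ∃ e ∈ EB G (B : Set V), v ∈ e) → T (Sum.inl v) = ∅) ∧
      (∀ e i, (T (Sum.inr (e, i))).Nonempty → e ∈ EB G (B : Set V) ∧ i < b ∧ T (Sum.inr (e, i)) ⊆ ρ.K e) ∧
      (∀ l, GConn (T l : Set Pt)) ∧ (∀ l l', l ≠ l' → Disjoint (T l) (T l')) ∧
      (∀ u v, s(u, v) ∈ EB G (B : Set V) → ∃ w : (PG T).Walk (Sum.inl u) (Sum.inl v), w.length ≤ m) ∧
      (∀ e i, (T (Sum.inr (e, i))).Nonempty →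
        ∃ u ∈ e, ∃ w : (PG T).Walk (Sum.inr (e, i)) (Sum.inl u), w.length ≤ m) := by
  refine ⟨(P3_aux_bm k (k + 1)).1, (P3_aux_bm k (k + 1)).2, ?_⟩
  intro V G B ω ρ
  have hfin : (EB G (B : Set V)).Finite := EB_finite G B.finite_toSet
  have hmem : ∀ e, e ∈ hfin.toFinset ↔ e ∈ EB G (B : Set V) := fun e => hfin.mem_toFinset
  obtain ⟨col, hle, hcol⟩ := colouring (TX ω) k hfin.toFinset
    (by
      intro e he f hf hef
      rw [hmem] at he hf
      obtain ⟨z, hze, hzf⟩ := ρ.touch e he f hf hef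
      by_contra hne
      exact P3_aux_far _ (ρ.sep f hf e he hne z hzf z hze))
    (by
      intro e he
      rw [hmem] at he
      have h1 := ρ.deg e he
      simp only [hmem]
      exact h1)
  obtain ⟨T, hT⟩ := P3_aux_iter ρ col
    (fun e he f hf => hcol e ((hmem e).2 he) f ((hmem f).2 hf)) (k + 1)
  refine ⟨T, hT.h1, hT.h2, fun e i h => ?_, hT.conn, hT.disj, fun u v h => ?_, hT.w2⟩
  · obtain ⟨a, b, c, -⟩ := hT.h3 e i h
    exact ⟨a, b, c⟩
  · exact hT.w1 u v h (Nat.lt_succ_of_le (hle _))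

end QPl
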