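import Pool.Agent.Lib.MP_d3a5e5_co.P1
import Pool.Agent.Lib.MP_d3a5e5_co.P2

set_option autoImplicit false

namespace QPl

open Finsupp SimpleGraph

structure PU {V : Type} {G : SimpleGraph V} {k : ℕ} {B : Finset V} {ω : Dat V} (ρ : GridRep G k B ω) (col : Sym2 V → ℕ) (c b m : ℕ)
    (T : Lab V → Finset Pt) : Prop where
  h1 : ∀ v, (∃ e ∈ EB G (B : Set V), v ∈ e) → T (Sum.inl v) = {ρ.p v}
  h2 : ∀ v, (¬ ∃ e ∈ EB G (B : Set V), v ∈ e) → T (Sum.inl v) = ∅
  h3 : ∀ e i, (T (Sum.inr (e, i))).Nonempty → e ∈ EB G (B : Set V) ∧ i < b ∧ T (Sum.inr (e, i)) ⊆ ρ.K e ∧ col e < c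
  conn : ∀ l, GConn (T l : Set Pt)
  disj : ∀ l l', l ≠ l' → Disjoint (T l) (T l')
  w1 : ∀ u v, s(u, v) ∈ EB G (B : Set V) → col s(u, v) < c → ∃ w : (PG T).Walk (Sum.inl u) (Sum.inl v), w.length ≤ m
  w2 : ∀ e i, (T (Sum.inr (e, i))).Nonempty → ∃ u ∈ e, ∃ w : (PG T).Walk (Sum.inr (e, i)) (Sum.inl u), w.length ≤ m

theorem P3a_far (z : Pt) : ¬ Far z z := by
  unfold Far
  simp

theorem P3a_touch {V : Type} {G : SimpleGraph V} {k : ℕ} {B : Finset V} {ω : Dat V} (ρ : GridRep G k B ω)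
    {e f : Sym2 V} (he : e ∈ EB G (B : Set V)) (hf : f ∈ EB G (B : Set V)) {z : Pt} (hz : z ∈ ρ.K e)
    (hz' : z ∈ ρ.K f) : TX ω e f := by
  by_contra h
  exact P3a_far z (ρ.sep e he f hf h z hz z hz')

theorem P3a_count {V : Type} {G : SimpleGraph V} {k : ℕ} {B : Finset V} {ω : Dat V} (ρ : GridRep G k B ω)
    (col : Sym2 V → ℕ) (c b m : ℕ) (T : Lab V → Finset Pt) (h : PU ρ col c b m T) (e : Sym2 V)
    (he : e ∈ EB G (B : Set V)) :
    {l | (T l ∩ ρ.K e).Nonempty}.Finite ∧ {l | (T l ∩ ρ.K e).Nonempty}.ncard ≤ 2 * k + k * b := by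
  classical
  have hfin : {f | f ∈ EB G (B : Set V) ∧ TX ω e f}.Finite :=
    (EB_finite G B.finite_toSet).subset (fun f hf => hf.1)
  obtain ⟨X, hX⟩ : ∃ X : Finset (Sym2 V), X = hfin.toFinset := ⟨_, rfl⟩
  have hXc : X.card ≤ k := by
    rw [hX, ← Set.ncard_eq_toFinset_card _ hfin]
    exact ρ.deg e he
  obtain ⟨Y, hY⟩ : ∃ Y : Finset (Lab V), Y = X.biUnion (fun f => (f.toFinset.image Sum.inl : Finset (Lab V)) ∪
      (Finset.range b).image (fun i => (Sum.inr (f, i) : Lab V))) := ⟨_, rfl⟩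
  have hYc : Y.card ≤ 2 * k + k * b := by
    rw [hY]
    refine Finset.card_biUnion_le.trans ?_
    have h1 : ∀ f ∈ X, ((f.toFinset.image Sum.inl : Finset (Lab V)) ∪
        (Finset.range b).image (fun i => (Sum.inr (f, i) : Lab V))).card ≤ 2 + b := by
      intro f _
      refine (Finset.card_union_le _ _).trans (Nat.add_le_add ?_ ?_)
      · refine Finset.card_image_le.trans ?_
        rw [Sym2.card_toFinset]
        split_ifs <;> omega
      · refine Finset.card_image_le.trans ?_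
        rw [Finset.card_range]
    refine (Finset.sum_le_card_nsmul _ _ _ h1).trans ?_
    rw [smul_eq_mul]
    calc X.card * (2 + b) ≤ k * (2 + b) := Nat.mul_le_mul_right _ hXc
      _ = 2 * k + k * b := by ring
  have hsub : {l | (T l ∩ ρ.K e).Nonempty} ⊆ (Y : Set (Lab V)) := by
    intro l hl
    obtain ⟨z, hz⟩ := hl
    rw [Finset.mem_inter] at hz
    rw [Finset.mem_coe, hY, Finset.mem_biUnion]
    rcases l with v | ⟨f, i⟩
    · by_cases hv : ∃ f ∈ EB G (B : Set V), v ∈ f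
      · have h1 := h.h1 v hv
        obtain ⟨f, hf, hvf⟩ := hv
        rw [h1, Finset.mem_singleton] at hz
        refine ⟨f, ?_, ?_⟩
        · rw [hX, Set.Finite.mem_toFinset]
          exact ⟨hf, P3a_touch ρ he hf hz.2 (by rw [hz.1]; exact ρ.mem f hf v hvf)⟩
        · rw [Finset.mem_union]
          left
          exact Finset.mem_image.2 ⟨v, Sym2.mem_toFinset.2 hvf, rfl⟩
      · rw [h.h2 v hv] at hz
        exact absurd hz.1 (Finset.notMem_empty z)
    · obtain ⟨hf, hi, hsub, -⟩ := h.h3 f i ⟨z, hz.1⟩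
      refine ⟨f, ?_, ?_⟩
      · rw [hX, Set.Finite.mem_toFinset]
        exact ⟨hf, P3a_touch ρ he hf hz.2 (hsub hz.1)⟩
      · rw [Finset.mem_union]
        right
        exact Finset.mem_image.2 ⟨i, Finset.mem_range.2 hi, rfl⟩
  refine ⟨Y.finite_toSet.subset hsub, ?_⟩
  refine (Set.ncard_le_ncard hsub Y.finite_toSet).trans ?_
  rw [Set.ncard_coe_finset]
  exact hYc

/-- properties of the new pieces for one edge -/
def P3a_pr {V : Type} {G : SimpleGraph V} {k : ℕ} {B : Finset V} {ω : Dat V} (ρ : GridRep G k B ω)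
    (T : Lab V → Finset Pt) (n : ℕ) (e : Sym2 V) (F : Fin n → Finset Pt) : Prop :=
  (∀ i, F i ⊆ ρ.K e) ∧ (∀ i, GConn (F i : Set Pt)) ∧ (∀ i l, Disjoint (F i) (T l)) ∧
    (∀ i j, i ≠ j → Disjoint (F i) (F j)) ∧ ∃ u v, e = s(u, v) ∧
      (∃ w : (PG (Sum.elim T F)).Walk (Sum.inl (Sum.inl u)) (Sum.inl (Sum.inl v)), w.length ≤ 2 * n) ∧
      ∀ i, (F i).Nonempty →
        ∃ w : (PG (Sum.elim T F)).Walk (Sum.inr i) (Sum.inl (Sum.inl u)), w.length ≤ 2 * n

theorem P3a_ex {V : Type} {G : SimpleGraph V} {k : ℕ} {B : Finset V} {ω : Dat V} (ρ : GridRep G k B ω)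
    (col : Sym2 V → ℕ) (c b m : ℕ) (T : Lab V → Finset Pt) (h : PU ρ col c b m T) (e : Sym2 V)
    (he : e ∈ EB G (B : Set V)) : ∃ F : Fin (2 * k + k * b) → Finset Pt, P3a_pr ρ T (2 * k + k * b) e F := by
  classical
  obtain ⟨hfin, hcard⟩ := P3a_count ρ col c b m T h e he
  induction e using Sym2.ind with
  | _ u v =>
    have hu : (T (Sum.inl u) ∩ ρ.K s(u, v)).Nonempty := by
      refine ⟨ρ.p u, Finset.mem_inter.2 ⟨?_, ρ.mem _ he u (Sym2.mem_mk_left u v)⟩⟩
      rw [h.h1 u ⟨_, he, Sym2.mem_mk_left u v⟩]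
      exact Finset.mem_singleton_self _
    have hv : (T (Sum.inl v) ∩ ρ.K s(u, v)).Nonempty := by
      refine ⟨ρ.p v, Finset.mem_inter.2 ⟨?_, ρ.mem _ he v (Sym2.mem_mk_right u v)⟩⟩
      rw [h.h1 v ⟨_, he, Sym2.mem_mk_right u v⟩]
      exact Finset.mem_singleton_self _
    obtain ⟨F, f1, f2, f3, f4, f5, f6⟩ := pieces_step T h.conn h.disj (ρ.K s(u, v)) (ρ.conn _ he)
      (Sum.inl u) (Sum.inl v) hu hv (2 * k + k * b) hfin hcard
    exact ⟨F, f1, f2, f3, f4, u, v, rfl, f5, f6⟩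

theorem PU_step {V : Type} {G : SimpleGraph V} {k : ℕ} {B : Finset V} {ω : Dat V} (ρ : GridRep G k B ω) (col : Sym2 V → ℕ)
    (hcol : ∀ e ∈ EB G (B : Set V), ∀ f ∈ EB G (B : Set V), e ≠ f → TX ω e f → col e ≠ col f) (c b m : ℕ)
    (T : Lab V → Finset Pt) (h : PU ρ col c b m T) :
    ∃ T' : Lab V → Finset Pt, PU ρ col (c + 1) (b + (2 * k + k * b)) (m + 2 * (2 * k + k * b)) T' := by
  classical
  obtain ⟨n, hn⟩ : ∃ n, n = 2 * k + k * b := ⟨_, rfl⟩
  have hF : ∀ e : Sym2 V, ∃ F : Fin n → Finset Pt, e ∈ EB G (B : Set V) → P3a_pr ρ T n e F := by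
    intro e
    by_cases he : e ∈ EB G (B : Set V)
    · rw [hn]
      obtain ⟨F, hF⟩ := P3a_ex ρ col c b m T h e he
      exact ⟨F, fun _ => hF⟩
    · exact ⟨fun _ => ∅, fun h' => absurd h' he⟩
  choose F hF using hF
  rw [← hn]
  obtain ⟨T', hT'⟩ : ∃ T' : Lab V → Finset Pt, T' = fun l => match l with
    | Sum.inl v => T (Sum.inl v)
    | Sum.inr (e, i) => if hi : (e ∈ EB G (B : Set V) ∧ col e = c) ∧ i < n then F e ⟨i, hi.2⟩
        else T (Sum.inr (e, i)) := ⟨_, rfl⟩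
  have tl : ∀ v, T' (Sum.inl v) = T (Sum.inl v) := fun v => by rw [hT']
  have tr1 : ∀ e i, e ∈ EB G (B : Set V) → col e = c → ∀ hi : i < n, T' (Sum.inr (e, i)) = F e ⟨i, hi⟩ := by
    intro e i h1 h2 hi
    rw [hT']
    exact dif_pos ⟨⟨h1, h2⟩, hi⟩
  have tr2 : ∀ e i, ¬ ((e ∈ EB G (B : Set V) ∧ col e = c) ∧ i < n) → T' (Sum.inr (e, i)) = T (Sum.inr (e, i)) := by
    intro e i h1
    rw [hT']
    exact dif_neg h1
  have hemp : ∀ e i, col e = c → T (Sum.inr (e, i)) = ∅ := by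
    intro e i h1
    by_contra h2
    have := (h.h3 e i (Finset.nonempty_iff_ne_empty.2 h2)).2.2.2
    omega
  have hle : ∀ l, T l ⊆ T' l := by
    intro l
    rcases l with v | ⟨e, i⟩
    · rw [tl]
    · by_cases h1 : (e ∈ EB G (B : Set V) ∧ col e = c) ∧ i < n
      · rw [hemp e i h1.1.2]
        exact Finset.empty_subset _
      · rw [tr2 e i h1]
  have hG : PG T ≤ PG T' := by
    intro l l' hll
    obtain ⟨h1, z, hz, w, hw, hzw⟩ := hll
    exact ⟨h1, z, hle l hz, w, hle l' hw, hzw⟩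

  have hhom : ∀ e, e ∈ EB G (B : Set V) → col e = c → ∃ φ : PG (Sum.elim T (F e)) →g PG T',
      (∀ l, φ (Sum.inl l) = l) ∧ ∀ i : Fin n, φ (Sum.inr i) = Sum.inr (e, (i : ℕ)) := by
    intro e he hce
    have hsubn : ∀ a : Lab V ⊕ Fin n, Sum.elim T (F e) a ⊆
        T' (Sum.elim id (fun i : Fin n => (Sum.inr (e, (i : ℕ)) : Lab V)) a) := by
      intro a
      rcases a with l | i
      · exact hle l
      · simp only [Sum.elim_inr]
        rw [tr1 e i he hce i.2]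
    refine ⟨⟨Sum.elim id (fun i : Fin n => (Sum.inr (e, (i : ℕ)) : Lab V)), ?_⟩,
      fun l => rfl, fun i => rfl⟩
    intro a a' haa
    obtain ⟨h1, z, hz, w, hw, hzw⟩ := haa
    refine ⟨?_, z, hsubn a hz, w, hsubn a' hw, hzw⟩
    rcases a with l | i <;> rcases a' with l' | j
    · exact fun h2 => h1 (congrArg Sum.inl h2)
    · intro h2
      simp only [Sum.elim_inl, id_eq, Sum.elim_inr] at h2 hz
      rw [h2, hemp e j hce] at hz
      exact absurd hz (Finset.notMem_empty z)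
    · intro h2
      simp only [Sum.elim_inl, id_eq, Sum.elim_inr] at h2 hw
      rw [← h2, hemp e i hce] at hw
      exact absurd hw (Finset.notMem_empty w)
    · intro h2
      simp only [Sum.elim_inr, Sum.inr.injEq, Prod.mk.injEq, true_and] at h2
      exact h1 (congrArg Sum.inr (Fin.ext h2))
  refine ⟨T', ⟨?_, ?_, ?_, ?_, ?_, ?_, ?_⟩⟩
  · intro v hv
    rw [tl]
    exact h.h1 v hv
  · intro v hv
    rw [tl]
    exact h.h2 v hv
  · intro e i hne
    by_cases h1 : (e ∈ EB G (B : Set V) ∧ col e = c) ∧ i < n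
    · obtain ⟨⟨he, hce⟩, hi⟩ := h1
      refine ⟨he, by omega, ?_, by omega⟩
      rw [tr1 e i he hce hi]
      exact (hF e he).1 ⟨i, hi⟩
    · rw [tr2 e i h1] at hne ⊢
      obtain ⟨h2, h3, h4, h5⟩ := h.h3 e i hne
      exact ⟨h2, by omega, h4, by omega⟩
  · intro l
    rcases l with v | ⟨e, i⟩
    · rw [tl]
      exact h.conn _
    · by_cases h1 : (e ∈ EB G (B : Set V) ∧ col e = c) ∧ i < n
      · obtain ⟨⟨he, hce⟩, hi⟩ := h1
        rw [tr1 e i he hce hi]
        exact (hF e he).2.1 _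
      · rw [tr2 e i h1]
        exact h.conn _
  ·
    have hnew : ∀ e i l, ((e ∈ EB G (B : Set V) ∧ col e = c) ∧ i < n) → l ≠ Sum.inr (e, i) →
        Disjoint (T' (Sum.inr (e, i))) (T' l) := by
      intro e i l h1 hne
      obtain ⟨⟨he, hce⟩, hi⟩ := h1
      rw [tr1 e i he hce hi]
      rcases l with v | ⟨f, j⟩
      · rw [tl]
        exact (hF e he).2.2.1 _ _
      · by_cases h2 : (f ∈ EB G (B : Set V) ∧ col f = c) ∧ j < n
        · obtain ⟨⟨hf, hcf⟩, hj⟩ := h2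
          rw [tr1 f j hf hcf hj]
          by_cases hef : e = f
          · subst hef
            apply (hF e he).2.2.2.1
            intro h3
            apply hne
            rw [Fin.mk.injEq] at h3
            rw [h3]
          · rw [Finset.disjoint_left]
            intro z hz hz'
            have h3 := P3a_touch ρ he hf ((hF e he).1 _ hz) ((hF f hf).1 _ hz')
            exact hcol e he f hf hef h3 (hce.trans hcf.symm)
        · rw [tr2 f j h2]
          exact (hF e he).2.2.1 _ _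
    intro l l' hll
    have hcase : ∀ l : Lab V, (∃ e i, l = Sum.inr (e, i) ∧ ((e ∈ EB G (B : Set V) ∧ col e = c) ∧ i < n)) ∨
        T' l = T l := by
      intro l
      rcases l with v | ⟨e, i⟩
      · right
        exact tl v
      · by_cases h1 : (e ∈ EB G (B : Set V) ∧ col e = c) ∧ i < n
        · left
          exact ⟨e, i, rfl, h1⟩
        · right
          exact tr2 e i h1
    rcases hcase l with ⟨e, i, rfl, h1⟩ | h1
    · exact hnew e i l' h1 hll.symm
    · rcases hcase l' with ⟨e, i, rfl, h2⟩ | h2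
      · exact (hnew e i l h2 hll).symm
      · rw [h1, h2]
        exact h.disj l l' hll
  · intro u v huv hcl
    rcases Nat.lt_succ_iff_lt_or_eq.1 hcl with hlt | heq
    · obtain ⟨w, hw⟩ := h.w1 u v huv hlt
      refine ⟨w.mapLe hG, ?_⟩
      rw [SimpleGraph.Walk.length_mapLe]
      omega
    · obtain ⟨φ, hφ1, hφ2⟩ := hhom s(u, v) huv heq
      obtain ⟨u', v', he, ⟨w, hw⟩, -⟩ := (hF s(u, v) huv).2.2.2.2
      have hw' : ∃ w' : (PG T').Walk (Sum.inl u') (Sum.inl v'), w'.length ≤ 2 * n :=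
        ⟨(w.map φ).copy (hφ1 _) (hφ1 _), by
          rw [SimpleGraph.Walk.length_copy, SimpleGraph.Walk.length_map]
          exact hw⟩
      obtain ⟨w', hw'l⟩ := hw'
      rw [Sym2.eq_iff] at he
      rcases he with ⟨rfl, rfl⟩ | ⟨rfl, rfl⟩
      · exact ⟨w', by omega⟩
      · exact ⟨w'.reverse, by rw [SimpleGraph.Walk.length_reverse]; omega⟩
  · intro e i hne
    by_cases h1 : (e ∈ EB G (B : Set V) ∧ col e = c) ∧ i < n
    · obtain ⟨⟨he, hce⟩, hi⟩ := h1
      rw [tr1 e i he hce hi] at hne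
      obtain ⟨φ, hφ1, hφ2⟩ := hhom e he hce
      obtain ⟨u', v', hev, -, hw⟩ := (hF e he).2.2.2.2
      obtain ⟨w, hwl⟩ := hw ⟨i, hi⟩ hne
      refine ⟨u', by rw [hev]; exact Sym2.mem_mk_left u' v', (w.map φ).copy (hφ2 _) (hφ1 _), ?_⟩
      rw [SimpleGraph.Walk.length_copy, SimpleGraph.Walk.length_map]
      omega
    · rw [tr2 e i h1] at hne
      obtain ⟨u, hu, w, hw⟩ := h.w2 e i hne
      refine ⟨u, hu, w.mapLe hG, ?_⟩
      rw [SimpleGraph.Walk.length_mapLe]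
      omega

end QPl
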