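import Pool.Agent.Lib.MP_d3a5e5_co.A6

set_option autoImplicit false

namespace QPl

open Finsupp SimpleGraph

noncomputable def corn (x y : ℝ) : Finset Pt := {(⌊x⌋, ⌊y⌋), (⌊x⌋ + 1, ⌊y⌋), (⌊x⌋, ⌊y⌋ + 1), (⌊x⌋ + 1, ⌊y⌋ + 1)}

theorem Q1_aux1 {x y : ℝ} {z : Pt} : z ∈ corn x y ↔
    (z.1 = ⌊x⌋ ∨ z.1 = ⌊x⌋ + 1) ∧ (z.2 = ⌊y⌋ ∨ z.2 = ⌊y⌋ + 1) := by
  obtain ⟨a, b⟩ := z
  simp only [corn, Finset.mem_insert, Finset.mem_singleton, Prod.mk.injEq]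
  tauto

theorem Q1_aux2 {x : ℝ} {a : ℤ} (h : a = ⌊x⌋ ∨ a = ⌊x⌋ + 1) : x - 1 < (a : ℝ) ∧ (a : ℝ) ≤ x + 1 := by
  have h1 := Int.floor_le x
  have h2 := Int.lt_floor_add_one x
  rcases h with h | h <;> rw [h] <;> push_cast <;> constructor <;> linarith

theorem Q1_aux3 {x x' : ℝ} {a b : ℤ} (h : 6 ≤ |x - x'|) (ha : a = ⌊x⌋ ∨ a = ⌊x⌋ + 1) (hb : b = ⌊x'⌋ ∨ b = ⌊x'⌋ + 1) :
    4 ≤ |a - b| := by
  have h1 := Q1_aux2 ha
  have h2 := Q1_aux2 hb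
  have h3 : (4 : ℝ) ≤ |(a : ℝ) - (b : ℝ)| := by
    rw [le_abs] at h ⊢
    rcases h with h | h
    · left
      linarith [h1.1, h1.2, h2.1, h2.2]
    · right
      linarith [h1.1, h1.2, h2.1, h2.2]
  exact_mod_cast h3

theorem corn_far {x y x' y' : ℝ} (h : 6 ≤ |x - x'| ∨ 6 ≤ |y - y'|) {z w : Pt} (hz : z ∈ corn x y) (hw : w ∈ corn x' y') : Far z w := by
  rw [Q1_aux1] at hz hw
  rcases h with h | h
  · exact Or.inl (Q1_aux3 h hz.1 hw.1)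
  · exact Or.inr (Q1_aux3 h hz.2 hw.2)

theorem Q1_aux4 {x y : ℝ} {K : Set Pt} (hK : ∀ z ∈ corn x y, z ∈ K) {z w : Pt} (hz : z ∈ corn x y) (hw : w ∈ corn x y) :
    Relation.ReflTransGen (fun a b => GAdj a b ∧ b ∈ K) z w := by
  have hbase : ((⌊x⌋, ⌊y⌋) : Pt) ∈ corn x y := by
    rw [Q1_aux1]
    exact ⟨Or.inl rfl, Or.inl rfl⟩
  have hbase1 : ((⌊x⌋ + 1, ⌊y⌋) : Pt) ∈ corn x y := by
    rw [Q1_aux1]
    exact ⟨Or.inr rfl, Or.inl rfl⟩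
  have key : ∀ z ∈ corn x y, Relation.ReflTransGen (fun a b => GAdj a b ∧ b ∈ K) z (⌊x⌋, ⌊y⌋) ∧
      Relation.ReflTransGen (fun a b => GAdj a b ∧ b ∈ K) (⌊x⌋, ⌊y⌋) z := by
    intro z hz
    have hzK := hK z hz
    have hz' := hz
    rw [Q1_aux1] at hz'
    obtain ⟨a, b⟩ := z
    obtain ⟨h1 | h1, h2 | h2⟩ := hz'
    · change a = ⌊x⌋ at h1
      change b = ⌊y⌋ at h2
      subst h1 h2
      exact ⟨Relation.ReflTransGen.refl, Relation.ReflTransGen.refl⟩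
    · change a = ⌊x⌋ at h1
      change b = ⌊y⌋ + 1 at h2
      subst h1 h2
      refine ⟨Relation.ReflTransGen.single ⟨?_, hK _ hbase⟩, Relation.ReflTransGen.single ⟨?_, hzK⟩⟩
      · left
        exact ⟨rfl, Or.inl rfl⟩
      · left
        exact ⟨rfl, Or.inr rfl⟩
    · change a = ⌊x⌋ + 1 at h1
      change b = ⌊y⌋ at h2
      subst h1 h2
      refine ⟨Relation.ReflTransGen.single ⟨?_, hK _ hbase⟩, Relation.ReflTransGen.single ⟨?_, hzK⟩⟩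
      · right
        exact ⟨rfl, Or.inl rfl⟩
      · right
        exact ⟨rfl, Or.inr rfl⟩
    · change a = ⌊x⌋ + 1 at h1
      change b = ⌊y⌋ + 1 at h2
      subst h1 h2
      have g1 : GAdj (⌊x⌋ + 1, ⌊y⌋ + 1) (⌊x⌋ + 1, ⌊y⌋) := Or.inl ⟨rfl, Or.inl rfl⟩
      have g2 : GAdj (⌊x⌋ + 1, ⌊y⌋) (⌊x⌋, ⌊y⌋) := Or.inr ⟨rfl, Or.inl rfl⟩
      have g3 : GAdj (⌊x⌋, ⌊y⌋) (⌊x⌋ + 1, ⌊y⌋) := Or.inr ⟨rfl, Or.inr rfl⟩
      have g4 : GAdj (⌊x⌋ + 1, ⌊y⌋) (⌊x⌋ + 1, ⌊y⌋ + 1) := Or.inl ⟨rfl, Or.inr rfl⟩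
      exact ⟨(Relation.ReflTransGen.single ⟨g1, hK _ hbase1⟩).tail ⟨g2, hK _ hbase⟩,
        (Relation.ReflTransGen.single ⟨g3, hK _ hbase1⟩).tail ⟨g4, hzK⟩⟩
  exact (key z hz).1.trans (key w hw).2

theorem Q1_aux5 (f : unitInterval → ℝ) (hf : Continuous f) (t : unitInterval) :
    ∀ᶠ s in nhds t, |f s - f t| < 1 := by
  have h := (Metric.continuous_iff'.mp hf) t 1 one_pos
  filter_upwards [h] with s hs
  rwa [Real.dist_eq] at hs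

theorem Q1_aux6 {x x' : ℝ} (h : |x - x'| < 1) :
    (max ⌊x⌋ ⌊x'⌋ = ⌊x⌋ ∨ max ⌊x⌋ ⌊x'⌋ = ⌊x⌋ + 1) ∧ (max ⌊x⌋ ⌊x'⌋ = ⌊x'⌋ ∨ max ⌊x⌋ ⌊x'⌋ = ⌊x'⌋ + 1) := by
  rw [abs_lt] at h
  have h1 := Int.floor_le x
  have h2 := Int.lt_floor_add_one x
  have h3 := Int.floor_le x'
  have h4 := Int.lt_floor_add_one x'
  have h5 : ⌊x⌋ < ⌊x'⌋ + 2 := by
    have : ((⌊x⌋ : ℤ) : ℝ) < ((⌊x'⌋ + 2 : ℤ) : ℝ) := by
      push_cast
      linarith [h.1, h.2]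
    exact_mod_cast this
  have h6 : ⌊x'⌋ < ⌊x⌋ + 2 := by
    have : ((⌊x'⌋ : ℤ) : ℝ) < ((⌊x⌋ + 2 : ℤ) : ℝ) := by
      push_cast
      linarith [h.1, h.2]
    exact_mod_cast this
  omega

theorem arc_cells (g : C(unitInterval, ℝ × ℝ)) (N : ℝ) :
    ∃ K : Finset Pt, (∀ z, z ∈ K ↔ ∃ t, z ∈ corn (N * (g t).1) (N * (g t).2)) ∧ GConn (K : Set Pt) := by
  classical
  have hb1 : ∀ t, |N * (g t).1| ≤ |N| * ‖g‖ := by
    intro t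
    rw [abs_mul]
    refine mul_le_mul_of_nonneg_left ?_ (abs_nonneg N)
    calc |(g t).1| = ‖(g t).1‖ := (Real.norm_eq_abs _).symm
      _ ≤ ‖g t‖ := norm_fst_le _
      _ ≤ ‖g‖ := g.norm_coe_le_norm t
  have hb2 : ∀ t, |N * (g t).2| ≤ |N| * ‖g‖ := by
    intro t
    rw [abs_mul]
    refine mul_le_mul_of_nonneg_left ?_ (abs_nonneg N)
    calc |(g t).2| = ‖(g t).2‖ := (Real.norm_eq_abs _).symm
      _ ≤ ‖g t‖ := norm_snd_le _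
      _ ≤ ‖g‖ := g.norm_coe_le_norm t
  have hbd : ∀ (x : ℝ) (a : ℤ), |x| ≤ |N| * ‖g‖ → (a = ⌊x⌋ ∨ a = ⌊x⌋ + 1) →
      -(⌈|N| * ‖g‖⌉ + 1) ≤ a ∧ a ≤ ⌈|N| * ‖g‖⌉ + 1 := by
    intro x a hx ha
    have h1 := Q1_aux2 ha
    have h2 := Int.le_ceil (|N| * ‖g‖)
    rw [abs_le] at hx
    constructor
    · have : ((-(⌈|N| * ‖g‖⌉ + 1) : ℤ) : ℝ) ≤ (a : ℝ) := by
        push_cast
        linarith [hx.1, hx.2, h1.1, h1.2]
      exact_mod_cast this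
    · have : (a : ℝ) ≤ ((⌈|N| * ‖g‖⌉ + 1 : ℤ) : ℝ) := by
        push_cast
        linarith [hx.1, hx.2, h1.1, h1.2]
      exact_mod_cast this
  have hfin : {z : Pt | ∃ t, z ∈ corn (N * (g t).1) (N * (g t).2)}.Finite := by
    refine Set.Finite.subset (Set.finite_Icc ((-(⌈|N| * ‖g‖⌉ + 1), -(⌈|N| * ‖g‖⌉ + 1)) : Pt)
      (⌈|N| * ‖g‖⌉ + 1, ⌈|N| * ‖g‖⌉ + 1)) ?_
    rintro ⟨a, b⟩ ⟨t, ht⟩
    rw [Q1_aux1] at ht
    have h1 := hbd _ a (hb1 t) ht.1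
    have h2 := hbd _ b (hb2 t) ht.2
    exact ⟨⟨h1.1, h2.1⟩, ⟨h1.2, h2.2⟩⟩
  have hmem : ∀ z, z ∈ hfin.toFinset ↔ ∃ t, z ∈ corn (N * (g t).1) (N * (g t).2) := by
    intro z
    rw [Set.Finite.mem_toFinset]
    rfl
  refine ⟨hfin.toFinset, hmem, ?_⟩
  intro z hz w hw
  rw [Finset.mem_coe, hmem] at hz hw
  obtain ⟨t1, ht1⟩ := hz
  obtain ⟨t2, ht2⟩ := hw
  have hsub : ∀ t, ∀ p ∈ corn (N * (g t).1) (N * (g t).2), p ∈ ((hfin.toFinset : Finset Pt) : Set Pt) := by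
    intro t p hp
    rw [Finset.mem_coe, hmem]
    exact ⟨t, hp⟩
  have hloc : ∀ t : unitInterval, ∀ᶠ s in nhds t, ∃ p, p ∈ corn (N * (g t).1) (N * (g t).2) ∧
      p ∈ corn (N * (g s).1) (N * (g s).2) := by
    intro t
    have hc1 : Continuous (fun t => N * (g t).1) := continuous_const.mul (continuous_fst.comp g.continuous)
    have hc2 : Continuous (fun t => N * (g t).2) := continuous_const.mul (continuous_snd.comp g.continuous)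
    filter_upwards [Q1_aux5 _ hc1 t, Q1_aux5 _ hc2 t] with s hs1 hs2
    have e1 := Q1_aux6 hs1
    have e2 := Q1_aux6 hs2
    refine ⟨(max ⌊N * (g s).1⌋ ⌊N * (g t).1⌋, max ⌊N * (g s).2⌋ ⌊N * (g t).2⌋), ?_, ?_⟩
    · rw [Q1_aux1]
      exact ⟨e1.2, e2.2⟩
    · rw [Q1_aux1]
      exact ⟨e1.1, e2.1⟩
  have hS : IsClopen {t : unitInterval | ∀ p ∈ corn (N * (g t).1) (N * (g t).2),
      Relation.ReflTransGen (fun a b => GAdj a b ∧ b ∈ ((hfin.toFinset : Finset Pt) : Set Pt)) z p} := by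
    constructor
    · rw [← isOpen_compl_iff, isOpen_iff_mem_nhds]
      intro t ht
      filter_upwards [hloc t] with s hs
      obtain ⟨q, hq1, hq2⟩ := hs
      intro hcon
      apply ht
      intro p hp
      exact (hcon q hq2).trans (Q1_aux4 (hsub t) hq1 hp)
    · rw [isOpen_iff_mem_nhds]
      intro t ht
      filter_upwards [hloc t] with s hs
      obtain ⟨q, hq1, hq2⟩ := hs
      intro p hp
      exact (ht q hq1).trans (Q1_aux4 (hsub s) hq2 hp)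
  have huniv := hS.eq_univ ⟨t1, fun p hp => Q1_aux4 (hsub t1) ht1 hp⟩
  have ht2' : t2 ∈ {t : unitInterval | ∀ p ∈ corn (N * (g t).1) (N * (g t).2),
      Relation.ReflTransGen (fun a b => GAdj a b ∧ b ∈ ((hfin.toFinset : Finset Pt) : Set Pt)) z p} := by
    rw [huniv]
    exact Set.mem_univ _
  exact ht2' w ht2

end QPl
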