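import Pool.Agent.Lib.MP_d3a5e5_co.Defs

set_option autoImplicit false

namespace QPl

open Finsupp SimpleGraph

theorem Q2_aux_pos (g g' : C(unitInterval, ℝ × ℝ)) :
    ∃ δ : ℝ, 0 < δ ∧ ((∀ s t, g s ≠ g' t) → ∀ s t, δ ≤ dist (g s) (g' t)) := by
  by_cases h : ∀ s t, g s ≠ g' t
  · have hc : Continuous (fun q : unitInterval × unitInterval => dist (g q.1) (g' q.2)) := by
      fun_prop
    obtain ⟨q, -, hq⟩ := isCompact_univ.exists_isMinOn (Set.univ_nonempty) hc.continuousOn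
    refine ⟨dist (g q.1) (g' q.2), dist_pos.2 (h q.1 q.2), fun _ s t => ?_⟩
    exact hq (Set.mem_univ (s, t))
  · exact ⟨1, one_pos, fun h' => absurd h' h⟩

theorem Q2_aux_scale {N δ : ℝ} (hN : 0 < N) (hδ : 0 < δ) (h : 6 / δ ≤ N) {a b : ℝ × ℝ} (hd : δ ≤ dist a b) :
    6 ≤ |N * a.1 - N * b.1| ∨ 6 ≤ |N * a.2 - N * b.2| := by
  have h6 : 6 ≤ N * δ := by
    rw [div_le_iff₀ hδ] at h
    exact h
  rw [Prod.dist_eq, Real.dist_eq, Real.dist_eq, le_max_iff] at hd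
  rcases hd with hd | hd
  · left
    rw [← mul_sub, abs_mul, abs_of_pos hN]
    exact h6.trans (mul_le_mul_of_nonneg_left hd hN.le)
  · right
    rw [← mul_sub, abs_mul, abs_of_pos hN]
    exact h6.trans (mul_le_mul_of_nonneg_left hd hN.le)

theorem fine_scale {ι κ : Type} (g : ι → C(unitInterval, ℝ × ℝ)) (E : Finset ι) (f : κ → ℝ × ℝ) (B : Finset κ) (hf : Set.InjOn f (B : Set κ)) :
    ∃ N : ℝ, 0 < N ∧
      (∀ e ∈ E, ∀ e' ∈ E, (∀ s t, g e s ≠ g e' t) → ∀ s t, 6 ≤ |N * (g e s).1 - N * (g e' t).1| ∨ 6 ≤ |N * (g e s).2 - N * (g e' t).2|) ∧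
      (∀ u ∈ B, ∀ v ∈ B, u ≠ v → 6 ≤ |N * (f u).1 - N * (f v).1| ∨ 6 ≤ |N * (f u).2 - N * (f v).2|) := by
  choose δ hδ0 hδ using fun p : ι × ι => Q2_aux_pos (g p.1) (g p.2)
  have h2 : ∀ p : κ × κ, ∃ δ : ℝ, 0 < δ ∧ (f p.1 ≠ f p.2 → δ ≤ dist (f p.1) (f p.2)) := by
    intro p
    by_cases h : f p.1 = f p.2
    · exact ⟨1, one_pos, fun h' => absurd h h'⟩
    · exact ⟨dist (f p.1) (f p.2), dist_pos.2 h, fun _ => le_rfl⟩
  choose η hη0 hη using h2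
  have hs1 : 0 ≤ ∑ p ∈ E ×ˢ E, 6 / δ p :=
    Finset.sum_nonneg (fun p _ => div_nonneg (by norm_num) (hδ0 p).le)
  have hs2 : 0 ≤ ∑ p ∈ B ×ˢ B, 6 / η p :=
    Finset.sum_nonneg (fun p _ => div_nonneg (by norm_num) (hη0 p).le)
  have hN : 0 < 1 + ∑ p ∈ E ×ˢ E, 6 / δ p + ∑ p ∈ B ×ˢ B, 6 / η p := by linarith
  refine ⟨1 + ∑ p ∈ E ×ˢ E, 6 / δ p + ∑ p ∈ B ×ˢ B, 6 / η p, hN, ?_, ?_⟩
  · intro e he e' he' hne s t
    refine Q2_aux_scale hN (hδ0 (e, e')) ?_ (hδ (e, e') hne s t)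
    have h3 : 6 / δ (e, e') ≤ ∑ p ∈ E ×ˢ E, 6 / δ p :=
      Finset.single_le_sum (f := fun p => 6 / δ p)
        (fun p _ => div_nonneg (by norm_num) (hδ0 p).le) (Finset.mk_mem_product he he')
    linarith
  · intro u hu v hv hne
    have hne' : f u ≠ f v := fun h => hne (hf hu hv h)
    refine Q2_aux_scale hN (hη0 (u, v)) ?_ (hη (u, v) hne')
    have h3 : 6 / η (u, v) ≤ ∑ p ∈ B ×ˢ B, 6 / η p :=
      Finset.single_le_sum (f := fun p => 6 / η p)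
        (fun p _ => div_nonneg (by norm_num) (hη0 p).le) (Finset.mk_mem_product hu hv)
    linarith

end QPl
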