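import Pool.Agent.Lib.MP_d3a5e5_co.D1

set_option autoImplicit false

namespace QPl

open Finsupp SimpleGraph

noncomputable def arc {V : Type} (γ : V → V → C(unitInterval, ℝ × ℝ)) (e : Sym2 V) : C(unitInterval, ℝ × ℝ) :=
  γ (Quot.out e).1 (Quot.out e).2

theorem Q3a_out {V : Type} (e : Sym2 V) : s((Quot.out e).1, (Quot.out e).2) = e := Quot.out_eq e

theorem touch_count {V : Type} {G : SimpleGraph V} {k d : ℕ} (hf : ∀ v, (G.neighborSet v).Finite) (hd : ∀ v, (G.neighborSet v).ncard ≤ d)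
    (f : V → ℝ × ℝ) (hi : Function.Injective f) (γ : V → V → C(unitInterval, ℝ × ℝ))
    (hγ : ∀ u v : V, G.Adj u v → γ u v 0 = f u ∧ γ u v 1 = f v ∧ Function.Injective (γ u v) ∧
        (∀ t : unitInterval, γ v u t = γ u v (unitInterval.symm t)) ∧
        (∀ t : unitInterval, t ≠ 0 → t ≠ 1 → ∀ w : V, γ u v t ≠ f w))
    (hk : ∀ u v : V, G.Adj u v →
        {e : Sym2 V | e ∈ G.edgeSet ∧ e ≠ s(u, v) ∧
          ∃ x y : V, e = s(x, y) ∧ ∃ s t : unitInterval,
            s ≠ 0 ∧ s ≠ 1 ∧ t ≠ 0 ∧ t ≠ 1 ∧ γ x y s = γ u v t}.encard ≤ (k : ℕ∞)) (B : Finset V) {e : Sym2 V}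
    (he : e ∈ G.edgeSet) :
    {e' | e' ∈ EB G (B : Set V) ∧ ∃ s t, arc γ e s = arc γ e' t}.ncard ≤ k + 2 * d + 1 := by
  have hout := Q3a_out e
  set u := (Quot.out e).1 with hu
  set v := (Quot.out e).2 with hv
  have huv : G.Adj u v := by
    rw [← hout] at he
    exact he
  obtain ⟨h0, h1, -, -, hint⟩ := hγ u v huv
  have hcr := hk u v huv
  set Cr : Set (Sym2 V) := {e : Sym2 V | e ∈ G.edgeSet ∧ e ≠ s(u, v) ∧
          ∃ x y : V, e = s(x, y) ∧ ∃ s t : unitInterval,
            s ≠ 0 ∧ s ≠ 1 ∧ t ≠ 0 ∧ t ≠ 1 ∧ γ x y s = γ u v t} with hCr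
  have hCrf : Cr.Finite := Set.finite_of_encard_le_coe hcr
  have hCrc : Cr.ncard ≤ k := by
    have h := hCrf.cast_ncard_eq
    rw [← h] at hcr
    exact_mod_cast hcr
  have hsub : {e' | e' ∈ EB G (B : Set V) ∧ ∃ s t, arc γ e s = arc γ e' t} ⊆
      ((Cr ∪ (fun w => s(u, w)) '' (G.neighborSet u)) ∪ (fun w => s(v, w)) '' (G.neighborSet v)) ∪ {e} := by
    rintro e' ⟨⟨he', -⟩, s, t, hst⟩
    by_cases hee : e' = e
    · exact Or.inr hee
    left
    have hout' := Q3a_out e'
    unfold arc at hst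
    rw [← hu, ← hv] at hst
    set x := (Quot.out e').1 with hx
    set y := (Quot.out e').2 with hy
    have hxy : G.Adj x y := by
      rw [← hout'] at he'
      exact he'
    obtain ⟨g0, g1, -, -, gint⟩ := hγ x y hxy
    have key : ∀ w : V, γ u v s = f w → e' ∈ (fun z => s(w, z)) '' (G.neighborSet w) := by
      intro w hw
      rw [hst] at hw
      by_cases ht0 : t = 0
      · rw [ht0, g0] at hw
        have hxw : x = w := hi hw
        refine ⟨y, ?_, ?_⟩
        · rw [← hxw]; exact hxy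
        · show s(w, y) = e'
          rw [← hxw]; exact hout'
      · by_cases ht1 : t = 1
        · rw [ht1, g1] at hw
          have hyw : y = w := hi hw
          refine ⟨x, ?_, ?_⟩
          · rw [← hyw]; exact hxy.symm
          · show s(w, x) = e'
            rw [← hyw, Sym2.eq_swap]; exact hout'
        · exact absurd hw (gint t ht0 ht1 w)
    by_cases hs0 : s = 0
    · left; right
      exact key u (by rw [hs0]; exact h0)
    by_cases hs1 : s = 1
    · right
      exact key v (by rw [hs1]; exact h1)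
    left; left
    have ht0 : t ≠ 0 := by
      intro ht0
      rw [ht0, g0] at hst
      exact hint s hs0 hs1 x hst
    have ht1 : t ≠ 1 := by
      intro ht1
      rw [ht1, g1] at hst
      exact hint s hs0 hs1 y hst
    refine ⟨he', ?_, x, y, hout'.symm, t, s, ht0, ht1, hs0, hs1, hst.symm⟩
    rw [hout]
    exact hee
  have hfu : ((fun w => s(u, w)) '' (G.neighborSet u)).Finite := (hf u).image _
  have hfv : ((fun w => s(v, w)) '' (G.neighborSet v)).Finite := (hf v).image _
  have hcu : ((fun w => s(u, w)) '' (G.neighborSet u)).ncard ≤ d := (Set.ncard_image_le (hf u)).trans (hd u)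
  have hcv : ((fun w => s(v, w)) '' (G.neighborSet v)).ncard ≤ d := (Set.ncard_image_le (hf v)).trans (hd v)
  have hfin := ((hCrf.union hfu).union hfv).union (Set.finite_singleton e)
  refine (Set.ncard_le_ncard hsub hfin).trans ?_
  have c1 := Set.ncard_union_le ((Cr ∪ (fun w => s(u, w)) '' (G.neighborSet u)) ∪ (fun w => s(v, w)) '' (G.neighborSet v)) {e}
  have c2 := Set.ncard_union_le (Cr ∪ (fun w => s(u, w)) '' (G.neighborSet u)) ((fun w => s(v, w)) '' (G.neighborSet v))
  have c3 := Set.ncard_union_le Cr ((fun w => s(u, w)) '' (G.neighborSet u))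
  rw [Set.ncard_singleton] at c1
  omega

theorem arc_ends {V : Type} {G : SimpleGraph V} (f : V → ℝ × ℝ) (γ : V → V → C(unitInterval, ℝ × ℝ))
    (hγ : ∀ u v : V, G.Adj u v → γ u v 0 = f u ∧ γ u v 1 = f v ∧ Function.Injective (γ u v) ∧
        (∀ t : unitInterval, γ v u t = γ u v (unitInterval.symm t)) ∧
        (∀ t : unitInterval, t ≠ 0 → t ≠ 1 → ∀ w : V, γ u v t ≠ f w)) {e : Sym2 V} (he : e ∈ G.edgeSet) {v : V} (hv : v ∈ e) :
    ∃ t, arc γ e t = f v := by
  have hout := Q3a_out e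
  set x := (Quot.out e).1 with hx
  set y := (Quot.out e).2 with hy
  have hxy : G.Adj x y := by
    rw [← hout] at he
    exact he
  obtain ⟨g0, g1, -, -, -⟩ := hγ x y hxy
  rw [← hout, Sym2.mem_iff] at hv
  rcases hv with hv | hv
  · refine ⟨0, ?_⟩
    unfold arc
    rw [← hx, ← hy, g0, hv]
  · refine ⟨1, ?_⟩
    unfold arc
    rw [← hx, ← hy, g1, hv]

end QPl
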