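import Pool.Agent.Lib.MP_d3a5e5_co.Q1
import Pool.Agent.Lib.MP_d3a5e5_co.Q2
import Pool.Agent.Lib.MP_d3a5e5_co.Q3a
import Pool.Agent.Lib.MP_d3a5e5_co.C3

set_option autoImplicit false

namespace QPl

open Finsupp SimpleGraph

theorem Q3_zmod : ∀ x : ZMod 2, (if decide (x = 1) = true then (1 : ZMod 2) else 0) = x := by
  decide

theorem Q3_corn (x y : ℝ) : ((⌊x⌋, ⌊y⌋) : Pt) ∈ corn x y := by
  unfold corn
  simp

theorem rep_of_draw {V : Type} {G : SimpleGraph V} {k d : ℕ} (hf : ∀ v, (G.neighborSet v).Finite) (hd : ∀ v, (G.neighborSet v).ncard ≤ d)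
    (h : DrawK G k) (B : Finset V) : ∃ ω : Dat V, Nonempty (GridRep G (k + 2 * d + 1) B ω) := by
  classical
  obtain ⟨f, hi, γ, hγ, hk⟩ := h
  have hEB : (EB G (B : Set V)).Finite := EB_finite G B.finite_toSet
  obtain ⟨N, hN0, hN1, hN2⟩ := fine_scale (arc γ) hEB.toFinset f B hi.injOn
  have hKex := fun e : Sym2 V => arc_cells (arc γ e) N
  choose K hK hKc using hKex
  set p : V → Pt := fun v => (⌊N * (f v).1⌋, ⌊N * (f v).2⌋) with hp
  have hpK : ∀ e ∈ G.edgeSet, ∀ v ∈ e, p v ∈ K e := by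
    intro e he v hv
    obtain ⟨t, ht⟩ := arc_ends f γ hγ he hv
    rw [hK e]
    refine ⟨t, ?_⟩
    rw [ht]
    exact Q3_corn _ _
  have haex : ∀ e : Sym2 V, ∃ c : C1, e ∈ G.edgeSet → SuppIn (K e : Set Pt) c ∧
      ∀ u v, s(u, v) = e → bd c = pt (p u) + pt (p v) := by
    intro e
    by_cases he : e ∈ G.edgeSet
    · have hout := Q3a_out e
      set u := (Quot.out e).1 with hu
      set v := (Quot.out e).2 with hv
      obtain ⟨c, hc1, hc2⟩ := GConn.chain (hKc e) (z := p u) (w := p v)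
        (hpK e he u (by rw [← hout]; exact Sym2.mem_mk_left u v))
        (hpK e he v (by rw [← hout]; exact Sym2.mem_mk_right u v))
      refine ⟨c, fun _ => ⟨hc1, ?_⟩⟩
      intro u' v' huv
      rw [← hout, Sym2.eq_iff] at huv
      rcases huv with ⟨h1, h2⟩ | ⟨h1, h2⟩
      · rw [h1, h2]; exact hc2
      · rw [h1, h2, hc2, add_comm]
    · exact ⟨0, fun h => absurd h he⟩
  choose a ha using haex
  set ω : Dat V := fun e e' =>
    (decide (∃ s t, arc γ e s = arc γ e' t), decide (II (a e) (a e') = 1)) with hω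
  have hTX : ∀ e e', TX ω e e' ↔ ∃ s t, arc γ e s = arc γ e' t := by
    intro e e'
    unfold TX
    rw [hω]
    simp only [decide_eq_true_eq]
  refine ⟨ω, ⟨⟨p, K, a, ?_, ?_, ?_, ?_, ?_, ?_, ?_, ?_, ?_⟩⟩⟩
  · intro u hu v hv huv
    by_contra hne
    have h1 := hN2 u hu v hv hne
    have h2 : Far (p u) (p v) := corn_far h1 (Q3_corn _ _) (Q3_corn _ _)
    rw [huv] at h2
    unfold Far at h2
    simp only [sub_self, abs_zero] at h2
    omega
  · intro e he v hv
    exact hpK e he.1 v hv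
  · intro e _
    exact hKc e
  · intro e he
    exact (ha e he.1).1
  · intro u v he
    exact (ha _ he.1).2 u v rfl
  · intro e _ f' _ ht
    obtain ⟨s, t, hst⟩ := (hTX e f').mp ht
    refine ⟨(⌊N * (arc γ e s).1⌋, ⌊N * (arc γ e s).2⌋), (hK e _).mpr ⟨s, Q3_corn _ _⟩,
      (hK f' _).mpr ⟨t, ?_⟩⟩
    rw [hst]
    exact Q3_corn _ _
  · intro e he f' hf' ht z hz w hw
    have hne : ∀ s t, arc γ e s ≠ arc γ f' t := by
      intro s t hst
      exact ht ((hTX e f').mpr ⟨s, t, hst⟩)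
    obtain ⟨s, hs⟩ := (hK e z).mp hz
    obtain ⟨t, ht'⟩ := (hK f' w).mp hw
    exact corn_far (hN1 e (hEB.mem_toFinset.mpr he) f' (hEB.mem_toFinset.mpr hf') hne s t) hs ht'
  · intro e _ f' _
    unfold TJ
    rw [hω]
    exact Q3_zmod _
  · intro e he
    have h1 := touch_count hf hd f hi γ hγ hk B he.1
    have h2 : {f' | f' ∈ EB G (B : Set V) ∧ TX ω e f'} =
        {e' | e' ∈ EB G (B : Set V) ∧ ∃ s t, arc γ e s = arc γ e' t} := by
      ext e'
      simp only [Set.mem_ofPred_eq, hTX]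
    rw [h2]
    exact h1

theorem Om_nonempty {V : Type} {G : SimpleGraph V} {k : ℕ} (h : ∀ B : Finset V, ∃ ω : Dat V, Nonempty (GridRep G k B ω)) :
    (Om G k).Nonempty := by
  classical
  have h1 : (⋂ B : Finset V, {ω : Dat V | Nonempty (GridRep G k B ω)}).Nonempty := by
    refine IsCompact.nonempty_iInter_of_directed_nonempty_isCompact_isClosed _ ?_ ?_ ?_ ?_
    · intro B B'
      refine ⟨B ∪ B', ?_, ?_⟩
      · intro ω hω
        exact rep_restrict Finset.subset_union_left hω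
      · intro ω hω
        exact rep_restrict Finset.subset_union_right hω
    · intro B
      exact h B
    · intro B
      exact (rep_closed G k B).isCompact
    · intro B
      exact rep_closed G k B
  obtain ⟨ω, hω⟩ := h1
  refine ⟨ω, fun B => ?_⟩
  exact Set.mem_iInter.mp hω B

end QPl
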