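import Pool.Agent.Lib.MP_d3a5e5_co.Defs

set_option autoImplicit false

namespace QPl

open Finsupp SimpleGraph

open Classical in
/-- the arcs -/
noncomputable def R1_arc {W : Type} (r : W → ℝ) (page : W → W → Prop) (u v : W) : C(unitInterval, ℝ × ℝ) where
  toFun t := (r u + (t : ℝ) * (r v - r u), (if page u v then (1 : ℝ) else -1) * ((t : ℝ) * (1 - (t : ℝ)) * (r v - r u) ^ 2))
  continuous_toFun := by fun_prop

/-- a crossing of two arcs with increasing ends -/
theorem R1_core {W : Type} {H : SimpleGraph W} {r : W → ℝ} {page : W → W → Prop} (hr : Function.Injective r)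
    (hnc : ∀ a b c d, H.Adj a b → H.Adj c d → (page a b ↔ page c d) → r a < r c → r c < r b → r b < r d → False)
    {u v x y : W} (h1 : H.Adj u v) (h2 : H.Adj x y) (hp : page u v ↔ page x y) {X : ℝ} (a1 : r u < X) (a2 : X < r v)
    (b1 : r x < X) (b2 : X < r y) (hX : (X - r x) * (r y - X) = (X - r u) * (r v - X)) : s(x, y) = s(u, v) := by
  rcases lt_trichotomy (r u) (r x) with h | h | h
  · exfalso
    by_cases h3 : r v < r y
    · exact hnc u v x y h1 h2 hp h (by linarith) h3
    · have h4 : (X - r x) * (r y - X) < (X - r u) * (r v - X) := by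
        have h5 : (X - r x) * (r y - X) ≤ (X - r x) * (r v - X) :=
          mul_le_mul_of_nonneg_left (by linarith) (by linarith)
        have h6 : (X - r x) * (r v - X) < (X - r u) * (r v - X) :=
          mul_lt_mul_of_pos_right (by linarith) (by linarith)
        linarith
      linarith
  · have h3 : u = x := hr h
    rw [← h] at hX
    have h4 : r y - X = r v - X := mul_left_cancel₀ (by linarith : X - r u ≠ 0) hX
    have h5 : y = v := hr (by linarith)
    rw [h3, h5]
  · exfalso
    by_cases h3 : r y < r v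
    · exact hnc x y u v h2 h1 hp.symm h (by linarith) h3
    · have h4 : (X - r u) * (r v - X) < (X - r x) * (r y - X) := by
        have h5 : (X - r u) * (r v - X) ≤ (X - r u) * (r y - X) :=
          mul_le_mul_of_nonneg_left (by linarith) (by linarith)
        have h6 : (X - r u) * (r y - X) < (X - r x) * (r y - X) :=
          mul_lt_mul_of_pos_right (by linarith) (by linarith)
        linarith
      linarith

theorem R1_core2 {W : Type} {H : SimpleGraph W} {r : W → ℝ} {page : W → W → Prop} (hr : Function.Injective r)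
    (hps : ∀ a b, page a b → page b a)
    (hnc : ∀ a b c d, H.Adj a b → H.Adj c d → (page a b ↔ page c d) → r a < r c → r c < r b → r b < r d → False)
    {u v x y : W} (h1 : H.Adj u v) (h2 : H.Adj x y) (hp : page u v ↔ page x y) {X : ℝ}
    (a : 0 < (X - r u) * (r v - X)) (hX : (X - r x) * (r y - X) = (X - r u) * (r v - X)) : s(x, y) = s(u, v) := by
  have hpss : ∀ a b, page a b ↔ page b a := fun a b => ⟨hps a b, hps b a⟩
  have hb : 0 < (X - r x) * (r y - X) := by rw [hX]; exact a
  have key : ∀ p q : ℝ, 0 < (X - p) * (q - X) → (p < X ∧ X < q) ∨ (q < X ∧ X < p) := by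
    intro p q h
    rcases pos_and_pos_or_neg_and_neg_of_mul_pos h with ⟨h3, h4⟩ | ⟨h3, h4⟩
    · left; constructor <;> linarith
    · right; constructor <;> linarith
  rcases key _ _ a with ⟨a1, a2⟩ | ⟨a1, a2⟩ <;> rcases key _ _ hb with ⟨b1, b2⟩ | ⟨b1, b2⟩
  · exact R1_core hr hnc h1 h2 hp a1 a2 b1 b2 hX
  · rw [Sym2.eq_swap]
    refine R1_core hr hnc h1 h2.symm (hp.trans (hpss x y)) a1 a2 b1 b2 ?_
    rw [← hX]; ring
  · rw [Sym2.eq_swap (a := u)]
    refine R1_core hr hnc h1.symm h2 ((hpss v u).trans hp) a1 a2 b1 b2 ?_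
    rw [hX]; ring
  · rw [Sym2.eq_swap, Sym2.eq_swap (a := u)]
    refine R1_core hr hnc h1.symm h2.symm (((hpss v u).trans hp).trans (hpss x y)) a1 a2 b1 b2 ?_
    have h3 : (X - r y) * (r x - X) = (X - r x) * (r y - X) := by ring
    rw [h3, hX]; ring

theorem R1_unit {t : unitInterval} (h0 : t ≠ 0) (h1 : t ≠ 1) : 0 < (t : ℝ) ∧ (t : ℝ) < 1 := by
  constructor
  · exact lt_of_le_of_ne t.2.1 (fun h => h0 (Subtype.ext h.symm))
  · exact lt_of_le_of_ne t.2.2 (fun h => h1 (Subtype.ext h))

theorem draw_of_twoPage {W : Type} (H : SimpleGraph W) (h : TwoPage H) : DrawK H 0 := by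
  classical
  obtain ⟨r, page, hr, hps, hnc⟩ := h
  have hpss : ∀ a b, page a b ↔ page b a := fun a b => ⟨hps a b, hps b a⟩
  have harc : ∀ u v (t : unitInterval), R1_arc r page u v t =
      (r u + (t : ℝ) * (r v - r u), (if page u v then (1 : ℝ) else -1) * ((t : ℝ) * (1 - (t : ℝ)) * (r v - r u) ^ 2)) :=
    fun u v t => by
      change (_, _) = (_, _)
      congr 2
  refine ⟨fun w => (r w, 0), fun a b hab => hr (congrArg Prod.fst hab), R1_arc r page, ?_, ?_⟩
  · intro u v huv
    have hne : r v - r u ≠ 0 := fun h => huv.ne (hr (by linarith))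
    refine ⟨?_, ?_, ?_, ?_, ?_⟩
    · rw [harc]
      simp
    · rw [harc]
      simp
    · intro t t' htt
      rw [harc, harc] at htt
      have h1 := congrArg Prod.fst htt
      have h2 : (t : ℝ) * (r v - r u) = (t' : ℝ) * (r v - r u) := by
        change r u + (t : ℝ) * (r v - r u) = r u + (t' : ℝ) * (r v - r u) at h1
        linarith
      exact Subtype.ext (mul_right_cancel₀ hne h2)
    · intro t
      rw [harc, harc, unitInterval.coe_symm_eq]
      have h1 : (if page v u then (1 : ℝ) else -1) = (if page u v then (1 : ℝ) else -1) := by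
        by_cases hp : page u v
        · rw [if_pos hp, if_pos (hps _ _ hp)]
        · rw [if_neg hp, if_neg (fun h => hp (hps _ _ h))]
      rw [h1]
      apply Prod.ext
      · change r v + (t : ℝ) * (r u - r v) = r u + (1 - (t : ℝ)) * (r v - r u)
        ring
      · change (if page u v then (1 : ℝ) else -1) * ((t : ℝ) * (1 - (t : ℝ)) * (r u - r v) ^ 2) =
          (if page u v then (1 : ℝ) else -1) * ((1 - (t : ℝ)) * (1 - (1 - (t : ℝ))) * (r v - r u) ^ 2)
        ring
    · intro t h0 h1 w hw
      obtain ⟨t0, t1⟩ := R1_unit h0 h1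
      rw [harc] at hw
      have h2 := congrArg Prod.snd hw
      change (if page u v then (1 : ℝ) else -1) * ((t : ℝ) * (1 - (t : ℝ)) * (r v - r u) ^ 2) = 0 at h2
      have h3 : (0 : ℝ) < (t : ℝ) * (1 - (t : ℝ)) * (r v - r u) ^ 2 := by
        have : 0 < 1 - (t : ℝ) := by linarith
        positivity
      rcases mul_eq_zero.1 h2 with h4 | h4
      · split_ifs at h4 <;> norm_num at h4
      · linarith
  · intro u v huv
    have hempty : {e : Sym2 W | e ∈ H.edgeSet ∧ e ≠ s(u, v) ∧
        ∃ x y : W, e = s(x, y) ∧ ∃ s t : unitInterval,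
          s ≠ 0 ∧ s ≠ 1 ∧ t ≠ 0 ∧ t ≠ 1 ∧ R1_arc r page x y s = R1_arc r page u v t} = ∅ := by
      rw [Set.eq_empty_iff_forall_notMem]
      rintro e ⟨he, hne, x, y, rfl, s, t, s0, s1, t0, t1, hst⟩
      apply hne
      have hxy : H.Adj x y := he
      obtain ⟨s0', s1'⟩ := R1_unit s0 s1
      obtain ⟨t0', t1'⟩ := R1_unit t0 t1
      rw [harc, harc] at hst
      have hne1 : r y - r x ≠ 0 := fun h => hxy.ne (hr (by linarith))
      have hne2 : r v - r u ≠ 0 := fun h => huv.ne (hr (by linarith))
      have e1 : r x + (s : ℝ) * (r y - r x) = r u + (t : ℝ) * (r v - r u) := congrArg Prod.fst hst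
      have e2 : (if page x y then (1 : ℝ) else -1) * ((s : ℝ) * (1 - (s : ℝ)) * (r y - r x) ^ 2) =
          (if page u v then (1 : ℝ) else -1) * ((t : ℝ) * (1 - (t : ℝ)) * (r v - r u) ^ 2) := congrArg Prod.snd hst
      have p1 : (0 : ℝ) < (s : ℝ) * (1 - (s : ℝ)) * (r y - r x) ^ 2 := by
        have : 0 < 1 - (s : ℝ) := by linarith
        positivity
      have p2 : (0 : ℝ) < (t : ℝ) * (1 - (t : ℝ)) * (r v - r u) ^ 2 := by
        have : 0 < 1 - (t : ℝ) := by linarith
        positivity
      have hpage : page u v ↔ page x y := by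
        by_cases h1 : page u v
        · by_cases h2 : page x y
          · exact ⟨fun _ => h2, fun _ => h1⟩
          · rw [if_pos h1, if_neg h2] at e2
            linarith
        · by_cases h2 : page x y
          · rw [if_neg h1, if_pos h2] at e2
            linarith
          · exact ⟨fun h => absurd h h1, fun h => absurd h h2⟩
      have e3 : (s : ℝ) * (1 - (s : ℝ)) * (r y - r x) ^ 2 = (t : ℝ) * (1 - (t : ℝ)) * (r v - r u) ^ 2 := by
        by_cases h1 : page u v
        · rw [if_pos h1, if_pos (hpage.1 h1)] at e2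
          linarith
        · rw [if_neg h1, if_neg (fun h => h1 (hpage.2 h))] at e2
          linarith
      set X : ℝ := r u + (t : ℝ) * (r v - r u) with hX
      have e4 : (X - r u) * (r v - X) = (t : ℝ) * (1 - (t : ℝ)) * (r v - r u) ^ 2 := by
        rw [hX]; ring
      have e5 : (X - r x) * (r y - X) = (s : ℝ) * (1 - (s : ℝ)) * (r y - r x) ^ 2 := by
        rw [← e1]; ring
      refine R1_core2 hr hps hnc huv hxy hpage (X := X) ?_ ?_
      · rw [e4]; exact p2
      · rw [e4, e5]; exact e3
    rw [hempty]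
    simp

theorem QIPlanar_of_twoPage {V : Type} {G : SimpleGraph V} (h : QITwoPage G) : QIPlanar G := by
  obtain ⟨W, H, _, h1, h2, h3⟩ := h
  exact ⟨W, H, h1, draw_of_twoPage H h2, h3⟩

end QPl
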