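import Pool.Agent.Lib.MP_d3a5e5_co.L1

set_option autoImplicit false

namespace QPl

open Finsupp SimpleGraph

def ctp {L : Type} (P : L → Finset Pt) (key : L × L → ℕ) (inn : L → L → Prop) : TP (L × L) where
  pres x := (PG P).Adj x.1 x.2
  adj x y := (PG P).Adj x.1 x.2 ∧ (PG P).Adj y.1 y.2 ∧ ((x.1 = y.2 ∧ x.2 = y.1) ∨
    (x.1 = y.1 ∧ x ≠ y ∧ ∀ z, (PG P).Adj x.1 z → ¬ (min (key x) (key y) < key (x.1, z) ∧ key (x.1, z) < max (key x) (key y))))
  lt x y := key x < key y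
  page x y := (x.1 = y.2 ∧ x.2 = y.1) ∧ ¬ inn x.1 x.2

theorem S1_asym {L : Type} (P : L → Finset Pt) (key : L × L → ℕ) (inn : L → L → Prop) (a b : L × L)
    (h : (ctp P key inn).adj a b) : (ctp P key inn).adj b a := by
  obtain ⟨h1, h2, h3⟩ := h
  refine ⟨h2, h1, ?_⟩
  rcases h3 with ⟨h4, h5⟩ | ⟨h4, h5, h6⟩
  · exact Or.inl ⟨h5.symm, h4.symm⟩
  · refine Or.inr ⟨h4.symm, h5.symm, ?_⟩
    intro z hz
    rw [← h4] at hz ⊢
    rw [min_comm, max_comm]
    exact h6 z hz

theorem ctp_ok {L : Type} (P : L → Finset Pt) (key : L × L → ℕ) (inn : L → L → Prop) (c0 : ∀ l m, inn l m → inn m l)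
    (ci : ∀ l m l' m', (PG P).Adj l m → (PG P).Adj l' m' → key (l, m) = key (l', m') → l = l' ∧ m = m')
    (c1 : ∀ l m, l ≠ m → ∀ x y u v, (PG P).Adj l x → (PG P).Adj l y → (PG P).Adj m u → (PG P).Adj m v →
        ¬ Cross (key (l, x)) (key (l, y)) (key (m, u)) (key (m, v)))
    (c2 : ∀ l m, (PG P).Adj l m → inn l m → ∀ n x y, (PG P).Adj n x → (PG P).Adj n y →
        ¬ Cross (key (l, m)) (key (m, l)) (key (n, x)) (key (n, y)))
    (c3 : ∀ l m l' m', (PG P).Adj l m → (PG P).Adj l' m' → (inn l m ↔ inn l' m') →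
        ¬ Cross (key (l, m)) (key (m, l)) (key (l', m')) (key (m', l'))) : (ctp P key inn).OK := by
  constructor
  · intro a h
    exact lt_irrefl _ h
  · intro a b c h1 h2
    exact lt_trans h1 h2
  · rintro ⟨a1, a2⟩ ⟨b1, b2⟩ ha hb hne
    rcases lt_trichotomy (key (a1, a2)) (key (b1, b2)) with h | h | h
    · exact Or.inl h
    · exfalso
      obtain ⟨h1, h2⟩ := ci a1 a2 b1 b2 ha hb h
      exact hne (by rw [h1, h2])
    · exact Or.inr h
  · exact S1_asym P key inn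
  · rintro ⟨a1, a2⟩ ⟨b1, b2⟩ ⟨h1, h2, h3⟩ he
    rcases h3 with ⟨h4, h5⟩ | ⟨h4, h5, h6⟩
    · simp only [Prod.mk.injEq] at he h4 h5
      apply h1.ne
      dsimp only
      rw [h4, he.2]
    · exact h5 he
  · intro a b h
    exact h.1
  · rintro ⟨a1, a2⟩ ⟨b1, b2⟩ ⟨⟨h1, h2⟩, h3⟩
    refine ⟨⟨h2.symm, h1.symm⟩, ?_⟩
    intro h4
    apply h3
    dsimp only at h1 h2 h4 ⊢
    rw [h1, h2]
    exact c0 _ _ h4
  · rintro ⟨a1, a2⟩ ⟨b1, b2⟩ ⟨c1', c2'⟩ ⟨d1, d2⟩ ⟨hab1, hab2, hab⟩ ⟨hcd1, hcd2, hcd⟩ hpage hac hcb hbd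
    dsimp only at hab1 hab2 hab hcd1 hcd2 hcd
    change key (a1, a2) < key (c1', c2') at hac
    change key (c1', c2') < key (b1, b2) at hcb
    change key (b1, b2) < key (d1, d2) at hbd
    change (((a1 = b2 ∧ a2 = b1) ∧ ¬ inn a1 a2) ↔ ((c1' = d2 ∧ c2' = d1) ∧ ¬ inn c1' c2')) at hpage
    rcases hab with ⟨ha1, ha2⟩ | ⟨ha1, ha2, ha3⟩
    · subst ha1 ha2
      rcases hcd with ⟨hc1, hc2⟩ | ⟨hc1, hc2, hc3⟩
      · subst hc1 hc2
        refine c3 a1 a2 c1' c2' hab1 hcd1 ?_ ?_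
        · constructor
          · intro h
            by_contra hn
            exact (hpage.2 ⟨⟨rfl, rfl⟩, hn⟩).2 h
          · intro h
            by_contra hn
            exact (hpage.1 ⟨⟨rfl, rfl⟩, hn⟩).2 h
        · unfold Cross
          omega
      · subst hc1
        have hinn : inn a1 a2 := by
          by_contra hn
          obtain ⟨⟨h1, h2⟩, _⟩ := hpage.1 ⟨⟨rfl, rfl⟩, hn⟩
          exact hcd1.ne h2.symm
        refine c2 a1 a2 hab1 hinn c1' c2' d2 hcd1 hcd2 ?_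
        unfold Cross
        omega
    · subst ha1
      rcases hcd with ⟨hc1, hc2⟩ | ⟨hc1, hc2, hc3⟩
      · subst hc1 hc2
        have hinn : inn c1' c2' := by
          by_contra hn
          obtain ⟨⟨h1, h2⟩, _⟩ := hpage.2 ⟨⟨rfl, rfl⟩, hn⟩
          exact hab1.ne h2.symm
        refine c2 c1' c2' hcd1 hinn a1 a2 b2 hab1 hab2 ?_
        unfold Cross
        omega
      · subst hc1
        by_cases hE : a1 = c1'
        · subst hE
          refine ha3 c2' hcd1 ?_
          omega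
        · refine c1 a1 c1' hE a2 b2 c2' d2 hab1 hab2 hcd1 hcd2 ?_
          unfold Cross
          omega

theorem S1_symm {L : Type} (P : L → Finset Pt) (key : L × L → ℕ) (inn : L → L → Prop) {m : ℕ} {a b : L × L}
    (h : (ctp P key inn).WalkLE m a b) : (ctp P key inn).WalkLE m b a := by
  induction h with
  | nil m a => exact TP.WalkLE.nil m a
  | cons m a b c hab _ ih =>
    exact WalkLE_trans ih (TP.WalkLE.cons 0 b a a (S1_asym P key inn a b hab) (TP.WalkLE.nil 0 a))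

theorem S1_block {L : Type} (P : L → Finset Pt) (key : L × L → ℕ) (inn : L → L → Prop)
    (ci : ∀ l m l' m', (PG P).Adj l m → (PG P).Adj l' m' → key (l, m) = key (l', m') → l = l' ∧ m = m')
    (l : L) (hf : {m | (PG P).Adj l m}.Finite) (N : ℕ) : ∀ x y : L, (PG P).Adj l x → (PG P).Adj l y →
      key (l, x) ≤ key (l, y) →
      {z | (PG P).Adj l z ∧ key (l, x) < key (l, z) ∧ key (l, z) ≤ key (l, y)}.ncard ≤ N →
      (ctp P key inn).WalkLE N (l, x) (l, y) := by
  have hsub : ∀ x y : L, {z | (PG P).Adj l z ∧ key (l, x) < key (l, z) ∧ key (l, z) ≤ key (l, y)}.Finite :=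
    fun x y => hf.subset fun z hz => hz.1
  induction N with
  | zero =>
    intro x y hx hy hxy hN
    have h1 : {z | (PG P).Adj l z ∧ key (l, x) < key (l, z) ∧ key (l, z) ≤ key (l, y)} = ∅ :=
      (Set.ncard_eq_zero (hsub x y)).1 (by omega)
    have h2 : key (l, x) = key (l, y) := by
      by_contra hne
      have h3 : y ∈ {z | (PG P).Adj l z ∧ key (l, x) < key (l, z) ∧ key (l, z) ≤ key (l, y)} :=
        ⟨hy, by omega, le_rfl⟩
      rw [h1] at h3
      exact h3
    obtain ⟨_, h3⟩ := ci l x l y hx hy h2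
    subst h3
    exact TP.WalkLE.nil 0 _
  | succ N ih =>
    intro x y hx hy hxy hN
    rcases eq_or_lt_of_le hxy with h2 | h2
    · obtain ⟨_, h3⟩ := ci l x l y hx hy h2
      subst h3
      exact TP.WalkLE.nil _ _
    · obtain ⟨z, hz, hmin⟩ := Set.exists_min_image
        {z | (PG P).Adj l z ∧ key (l, x) < key (l, z) ∧ key (l, z) ≤ key (l, y)} (fun z => key (l, z))
        (hsub x y) ⟨y, hy, h2, le_rfl⟩
      obtain ⟨hz1, hz2, hz3⟩ := hz
      refine TP.WalkLE.cons N (l, x) (l, z) (l, y) ?_ ?_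
      · refine ⟨hx, hz1, Or.inr ⟨rfl, ?_, ?_⟩⟩
        · intro he
          rw [he] at hz2
          exact lt_irrefl _ hz2
        · intro u hu hlt
          dsimp only at hu hlt
          have h3 := hmin u ⟨hu, by omega, by omega⟩
          omega
      · refine ih z y hz1 hy hz3 ?_
        have h4 : {u | (PG P).Adj l u ∧ key (l, z) < key (l, u) ∧ key (l, u) ≤ key (l, y)} ⊂
            {u | (PG P).Adj l u ∧ key (l, x) < key (l, u) ∧ key (l, u) ≤ key (l, y)} := by
          refine ⟨fun u hu => ⟨hu.1, lt_trans hz2 hu.2.1, hu.2.2⟩, ?_⟩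
          intro hsup
          exact lt_irrefl _ (hsup (a := z) ⟨hz1, hz2, hz3⟩).2.1
        have h5 := Set.ncard_lt_ncard h4 (hsub x y)
        omega

theorem S1_block2 {L : Type} (P : L → Finset Pt) (key : L × L → ℕ) (inn : L → L → Prop)
    (ci : ∀ l m l' m', (PG P).Adj l m → (PG P).Adj l' m' → key (l, m) = key (l', m') → l = l' ∧ m = m') (D : ℕ)
    (hD : ∀ l, {m | (PG P).Adj l m}.Finite ∧ {m | (PG P).Adj l m}.ncard ≤ D) (l x y : L)
    (hx : (PG P).Adj l x) (hy : (PG P).Adj l y) : (ctp P key inn).WalkLE D (l, x) (l, y) := by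
  have hle : ∀ x y : L, {z | (PG P).Adj l z ∧ key (l, x) < key (l, z) ∧ key (l, z) ≤ key (l, y)}.ncard ≤ D := by
    intro x y
    exact le_trans (Set.ncard_le_ncard (fun z hz => hz.1) (hD l).1) (hD l).2
  rcases le_total (key (l, x)) (key (l, y)) with h | h
  · exact S1_block P key inn ci l (hD l).1 D x y hx hy h (hle x y)
  · exact S1_symm P key inn (S1_block P key inn ci l (hD l).1 D y x hy hx h (hle y x))

theorem port_walk {L : Type} (P : L → Finset Pt) (key : L × L → ℕ) (inn : L → L → Prop)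
    (ci : ∀ l m l' m', (PG P).Adj l m → (PG P).Adj l' m' → key (l, m) = key (l', m') → l = l' ∧ m = m') (D : ℕ)
    (hD : ∀ l, {m | (PG P).Adj l m}.Finite ∧ {m | (PG P).Adj l m}.ncard ≤ D) {l l' : L} (w : (PG P).Walk l l') {x y : L}
    (hx : (PG P).Adj l x) (hy : (PG P).Adj l' y) :
    (ctp P key inn).WalkLE ((w.length + 1) * (D + 1)) (l, x) (l', y) := by
  induction w generalizing x with
  | nil =>
    refine WalkLE_mono ?_ (S1_block2 P key inn ci D hD _ x y hx hy)
    rw [SimpleGraph.Walk.length_nil]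
    omega
  | @cons a b c hab w ih =>
    have h1 := S1_block2 P key inn ci D hD a x b hx hab
    have h2 := ih hab.symm hy
    have h3 : (ctp P key inn).adj (a, b) (b, a) := ⟨hab, hab.symm, Or.inl ⟨rfl, rfl⟩⟩
    have h4 := WalkLE_trans h1 (TP.WalkLE.cons _ _ _ _ h3 h2)
    refine WalkLE_mono ?_ h4
    rw [SimpleGraph.Walk.length_cons]
    apply le_of_eq
    ring

end QPl
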