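import Pool.Agent.Lib.MP_d3a5e5_co.P3
import Pool.Agent.Lib.MP_d3a5e5_co.C1

set_option autoImplicit false

namespace QPl

open Finsupp SimpleGraph

noncomputable def pos {V : Type} : Lab V → V := Sum.elim id (fun x => (Quot.out x.1).1)

theorem S2_aux1 {z w : Pt} (h : GAdj z w) : ¬ Far z w := by
  unfold GAdj at h
  unfold Far
  rw [not_or, not_le, not_le, abs_lt, abs_lt]
  omega

theorem pieces_local {V : Type} {G : SimpleGraph V} {k : ℕ} {B : Finset V} {ω : Dat V} (ρ : GridRep G k B ω) (b : ℕ)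
    (T : Lab V → Finset Pt)
    (h1 : ∀ v, (∃ e ∈ EB G (B : Set V), v ∈ e) → T (Sum.inl v) = {ρ.p v})
    (h2 : ∀ v, (¬ ∃ e ∈ EB G (B : Set V), v ∈ e) → T (Sum.inl v) = ∅)
    (h3 : ∀ e i, (T (Sum.inr (e, i))).Nonempty → e ∈ EB G (B : Set V) ∧ i < b ∧ T (Sum.inr (e, i)) ⊆ ρ.K e) :
    (∀ l m, (PG T).Adj l m → ∃ e ∈ EB G (B : Set V), ∃ f ∈ EB G (B : Set V), TX ω e f ∧ pos l ∈ e ∧ pos m ∈ f) ∧
    (∀ l, {m | (PG T).Adj l m}.Finite ∧ {m | (PG T).Adj l m}.ncard ≤ k * (b + 2)) ∧
    {l | (T l).Nonempty}.Finite := by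
  classical

  have own : ∀ l, (T l).Nonempty → ∃ e ∈ EB G (B : Set V), T l ⊆ ρ.K e ∧ pos l ∈ e ∧
      (l ∈ (e.toFinset.image Sum.inl ∪ (Finset.range b).image (fun i => Sum.inr (e, i)) : Finset (Lab V))) := by
    intro l hl
    rcases l with v | ⟨e, i⟩
    · by_cases hv : ∃ e ∈ EB G (B : Set V), v ∈ e
      · obtain ⟨e, he, hve⟩ := id hv
        refine ⟨e, he, ?_, hve, ?_⟩
        · rw [h1 v hv, Finset.singleton_subset_iff]
          exact ρ.mem e he v hve
        · exact Finset.mem_union_left _ (Finset.mem_image_of_mem _ (Sym2.mem_toFinset.2 hve))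
      · rw [h2 v hv] at hl
        exact absurd hl Finset.not_nonempty_empty
    · obtain ⟨he, hi, hK⟩ := h3 e i hl
      refine ⟨e, he, hK, ?_, ?_⟩
      · change (Quot.out e).1 ∈ e
        exact Sym2.out_fst_mem e
      · exact Finset.mem_union_right _ (Finset.mem_image_of_mem (fun i => Sum.inr (e, i)) (Finset.mem_range.2 hi))
  have touch : ∀ e ∈ EB G (B : Set V), ∀ f ∈ EB G (B : Set V), ∀ l m, (PG T).Adj l m → T l ⊆ ρ.K e → T m ⊆ ρ.K f →
      TX ω e f := by
    rintro e he f hf l m ⟨_, z, hz, w, hw, hzw⟩ hl hm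
    by_contra hcon
    exact S2_aux1 hzw (ρ.sep e he f hf hcon z (hl hz) w (hm hw))
  have hEBf : (EB G (B : Set V)).Finite := EB_finite G B.finite_toSet
  refine ⟨?_, ?_, ?_⟩
  · intro l m hlm
    obtain ⟨_, z, hz, w, hw, _⟩ := id hlm
    obtain ⟨e, he, hKe, hpe, _⟩ := own l ⟨z, hz⟩
    obtain ⟨f, hf, hKf, hpf, _⟩ := own m ⟨w, hw⟩
    exact ⟨e, he, f, hf, touch e he f hf l m hlm hKe hKf, hpe, hpf⟩
  · intro l
    by_cases hl : (T l).Nonempty
    · obtain ⟨e, he, hKe, _, _⟩ := own l hl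
      have hFf : {f | f ∈ EB G (B : Set V) ∧ TX ω e f}.Finite := hEBf.subset (fun f hf => hf.1)
      have hdeg := ρ.deg e he
      let M : Sym2 V → Finset (Lab V) := fun f =>
        f.toFinset.image Sum.inl ∪ (Finset.range b).image (fun i => Sum.inr (f, i))
      have hM : ∀ f, (M f).card ≤ b + 2 := by
        intro f
        have h4 : (f.toFinset.image (Sum.inl : V → Lab V)).card ≤ 2 := by
          refine Finset.card_image_le.trans ?_
          rw [Sym2.card_toFinset]
          split_ifs <;> omega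
        have h5 : ((Finset.range b).image (fun i => (Sum.inr (f, i) : Lab V))).card ≤ b := by
          refine Finset.card_image_le.trans ?_
          rw [Finset.card_range]
        have h6 := Finset.card_union_le (f.toFinset.image (Sum.inl : V → Lab V))
          ((Finset.range b).image (fun i => (Sum.inr (f, i) : Lab V)))
        change (f.toFinset.image Sum.inl ∪ (Finset.range b).image (fun i => Sum.inr (f, i))).card ≤ b + 2
        omega
      have hsub : {m | (PG T).Adj l m} ⊆ ((hFf.toFinset.biUnion M : Finset (Lab V)) : Set (Lab V)) := by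
        intro m hm
        obtain ⟨_, z, hz, w, hw, _⟩ := id hm
        obtain ⟨f, hf, hKf, _, hmf⟩ := own m ⟨w, hw⟩
        rw [Finset.mem_coe, Finset.mem_biUnion]
        exact ⟨f, hFf.mem_toFinset.2 ⟨hf, touch e he f hf l m hm hKe hKf⟩, hmf⟩
      refine ⟨(Finset.finite_toSet _).subset hsub, ?_⟩
      have h4 := Set.ncard_le_ncard hsub (Finset.finite_toSet _)
      rw [Set.ncard_coe_finset] at h4
      have h5 := Finset.card_biUnion_le_card_mul hFf.toFinset M (b + 2) (fun f _ => hM f)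
      rw [Set.ncard_eq_toFinset_card _ hFf] at hdeg
      exact h4.trans (h5.trans (Nat.mul_le_mul_right _ hdeg))
    · have hempty : {m | (PG T).Adj l m} = ∅ := by
        rw [Set.eq_empty_iff_forall_notMem]
        rintro m ⟨_, z, hz, _⟩
        exact hl ⟨z, hz⟩
      rw [hempty]
      exact ⟨Set.finite_empty, by simp⟩
  · let M : Sym2 V → Finset (Lab V) := fun f =>
      f.toFinset.image Sum.inl ∪ (Finset.range b).image (fun i => Sum.inr (f, i))
    refine (hEBf.biUnion (fun e _ => (M e).finite_toSet)).subset ?_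
    intro l hl
    obtain ⟨e, he, _, _, hle⟩ := own l hl
    exact Set.mem_biUnion he hle

end QPl
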