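import Pool.Agent.Lib.MP_d3a5e5_co.T5

set_option autoImplicit false

namespace QPl

open Finsupp SimpleGraph

private def T6a_Good {L : Type} (P : L → Finset Pt) (E : Finset (Sym2 Pt)) (l m : L) (z : Pt) (q : Fin 4) : Prop :=
  z ∈ P l ∧ z + dir q ∈ P m ∧ ∀ z' ∈ P l, ∀ w' ∈ P m, s(z', w') ∈ E → z' = z ∧ w' = z + dir q

private theorem T6a_flip {L : Type} {P : L → Finset Pt} {E : Finset (Sym2 Pt)} {l m : L} {z : Pt} {q : Fin 4}
    (h : T6a_Good P E l m z q) : T6a_Good P E m l (z + dir q) (q + 2) := by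
  obtain ⟨h1, h2, h3⟩ := h
  refine ⟨h2, by rw [dir_opp]; exact h1, ?_⟩
  intro z' hz' w' hw' he
  have := h3 w' hw' z' hz' (by rw [Sym2.eq_swap]; exact he)
  rw [dir_opp]
  exact ⟨this.2, this.1⟩

private theorem T6a_ex {L : Type} (P : L → Finset Pt) (E : Finset (Sym2 Pt))
    (hu : ∀ l m, l ≠ m → ∀ z ∈ P l, ∀ w ∈ P m, ∀ z' ∈ P l, ∀ w' ∈ P m, s(z, w) ∈ E → s(z', w') ∈ E → z = z' ∧ w = w')
    (hE : ∀ e ∈ E, ∃ z q, e = s(z, z + dir q)) (l m : L) (h : (PG P).Adj l m) :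
    ∃ z q, T6a_Good P E l m z q := by
  obtain ⟨hlm, z, hz, w, hw, hzw⟩ := h
  by_cases hex : ∃ z' ∈ P l, ∃ w' ∈ P m, s(z', w') ∈ E
  · obtain ⟨z', hz', w', hw', he⟩ := hex
    have hdir : ∃ q, w' = z' + dir q := by
      obtain ⟨z0, q0, h0⟩ := hE _ he
      rcases Sym2.eq_iff.1 h0 with ⟨h1, h2⟩ | ⟨h1, h2⟩
      · exact ⟨q0, by rw [h2, h1]⟩
      · refine ⟨q0 + 2, ?_⟩
        rw [h1, h2, dir_opp]
    obtain ⟨q, hq⟩ := hdir
    refine ⟨z', q, hz', by rw [← hq]; exact hw', ?_⟩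
    intro z1 hz1 w1 hw1 he1
    have := hu l m hlm z1 hz1 w1 hw1 z' hz' w' hw' he1 he
    rw [← hq]
    exact this
  · obtain ⟨q, hq⟩ := (GAdj_iff z w).1 hzw
    refine ⟨z, q, hz, by rw [← hq]; exact hw, ?_⟩
    intro z1 hz1 w1 hw1 he1
    exact absurd ⟨z1, hz1, w1, hw1, he1⟩ hex

theorem ports_choice {L : Type} (P : L → Finset Pt) (hd : ∀ l m, l ≠ m → Disjoint (P l) (P m)) (E : Finset (Sym2 Pt))
    (hu : ∀ l m, l ≠ m → ∀ z ∈ P l, ∀ w ∈ P m, ∀ z' ∈ P l, ∀ w' ∈ P m, s(z, w) ∈ E → s(z', w') ∈ E → z = z' ∧ w = w')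
    (hE : ∀ e ∈ E, ∃ z q, e = s(z, z + dir q)) :
    ∃ (zz : L → L → Pt) (qq : L → L → Fin 4), ∀ l m, (PG P).Adj l m →
      zz l m ∈ P l ∧ zz l m + dir (qq l m) ∈ P m ∧ zz m l = zz l m + dir (qq l m) ∧ qq m l = qq l m + 2 ∧
      ∀ z ∈ P l, ∀ w ∈ P m, s(z, w) ∈ E → z = zz l m ∧ w = zz l m + dir (qq l m) := by
  classical
  have hex : ∀ l m : L, ∃ c : Pt × Fin 4, (PG P).Adj l m → T6a_Good P E l m c.1 c.2 := by
    intro l m
    by_cases h : (PG P).Adj l m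
    · obtain ⟨z, q, hzq⟩ := T6a_ex P E hu hE l m h
      exact ⟨(z, q), fun _ => hzq⟩
    · exact ⟨((0, 0), 0), fun h' => absurd h' h⟩
  choose c hc using hex
  refine ⟨fun l m => if WellOrderingRel l m then (c l m).1 else (c m l).1 + dir (c m l).2,
    fun l m => if WellOrderingRel l m then (c l m).2 else (c m l).2 + 2, ?_⟩
  intro l m hlm
  have hne : l ≠ m := hlm.1
  rcases trichotomous_of WellOrderingRel l m with h | h | h
  · have h' : ¬ WellOrderingRel m l := fun h2 => asymm_of WellOrderingRel h h2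
    simp only [h, h', if_true, if_false]
    obtain ⟨h1, h2, h3⟩ := hc l m hlm
    exact ⟨h1, h2, trivial, trivial, h3⟩
  · exact absurd h hne
  · have h' : ¬ WellOrderingRel l m := fun h2 => asymm_of WellOrderingRel h h2
    simp only [h, h', if_true, if_false]
    obtain ⟨h1, h2, h3⟩ := T6a_flip (hc m l hlm.symm)
    refine ⟨h1, h2, (dir_opp _ _).symm, ?_, h3⟩
    generalize (c m l).2 = q
    revert q
    decide

end QPl
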