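import Pool.Agent.Lib.MP_d3a5e5_co.T2

set_option autoImplicit false

namespace QPl

open Finsupp SimpleGraph

theorem T6b_aux1 (a b : ZMod 2) (h : a + b = 0) : b = a := by
  revert a b; decide

theorem T6b_aux2 (a b : ZMod 2) (h : a + b = 1) : b ≠ a := by
  revert a b; decide

theorem T6b_aux3 (p q : Fin 4) (h : p + 1 = q) : p = q + 3 := by
  revert p q; decide

theorem T6b_aux4 (p q : Fin 4) (h : p + 1 = q + 2) : p = q + 1 := by
  revert p q; decide

theorem T6b_aux5 (q : Fin 4) : q + 3 + 1 = q := by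
  revert q; decide

theorem T6b_aux6 (q : Fin 4) : q + 1 + 1 = q + 2 := by
  revert q; decide

theorem chi_change {E : Finset (Sym2 Pt)} {z : Pt} {q : Fin 4} (ha : s(z, z + dir q) ∈ E) (χ : Pt → ZMod 2)
    (hχ : ∀ u w, s(u, w) ∈ E → (χ u + χ w = if s(u, w) = s(z, z + dir q) then 1 else 0)) :
    (∀ c : Cor, c ≠ (z, q + 3) → c ≠ (z + dir q, q + 1) → χ (sg E c).1 = χ c.1) ∧
      χ (sg E (z, q + 3)).1 ≠ χ z ∧ χ (sg E (z + dir q, q + 1)).1 ≠ χ (z + dir q) := by
  refine ⟨fun c h1 h2 => ?_, ?_, ?_⟩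
  · unfold sg
    split_ifs with hE
    · have h := hχ _ _ hE
      have hne : ¬ (s(c.1, c.1 + dir (c.2 + 1)) = s(z, z + dir q)) := by
        intro he
        rcases Sym2.eq_iff.mp he with ⟨e1, e2⟩ | ⟨e1, e2⟩
        · apply h1
          rw [e1] at e2
          have e3 := dir_inj _ _ _ e2
          exact Prod.ext e1 (T6b_aux3 _ _ e3)
        · apply h2
          have e4 : c.1 + dir (c.2 + 1) = c.1 + dir (q + 2) := by
            rw [e2, e1, dir_opp]
          have e3 := dir_inj _ _ _ e4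
          exact Prod.ext e1 (T6b_aux4 _ _ e3)
      rw [if_neg hne] at h
      exact T6b_aux1 _ _ h
    · rfl
  · have h1 : (sg E (z, q + 3)).1 = z + dir q := by
      unfold sg
      simp only [T6b_aux5]
      rw [if_pos ha]
    rw [h1]
    have h := hχ _ _ ha
    rw [if_pos rfl] at h
    exact T6b_aux2 _ _ h
  · have h1 : (sg E (z + dir q, q + 1)).1 = z := by
      unfold sg
      simp only [T6b_aux6, dir_opp]
      rw [if_pos (by rw [Sym2.eq_swap]; exact ha)]
    rw [h1]
    have h := hχ _ _ ha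
    rw [if_pos rfl, add_comm] at h
    exact T6b_aux2 _ _ h

end QPl
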