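import Pool.Agent.Lib.MP_d3a5e5_co.T2
import Pool.Agent.Lib.MP_d3a5e5_co.A4

set_option autoImplicit false

namespace QPl

open Finsupp SimpleGraph

theorem T6c_aux1 (z : Pt) (q : Fin 4) : z + dir q + fac (q + 1) = z + fac q := by
  have h : ∀ q : Fin 4, dir q + fac (q + 1) = fac q := by decide
  rw [add_assoc, h]

theorem T6c_aux2 : ∀ q : Fin 4, q + 3 + 1 = q := by decide

theorem T6c_aux3 : ∀ a b : Fin 4, a + 1 = b → a = b + 3 := by decide

theorem T6c_aux4 : ∀ a b : Fin 4, a + 1 = b + 2 → a = b + 1 := by decide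

/-- the grid edges with the ends of the chord -/
theorem T6c_aux5 (z : Pt) (q : Fin 4) (c : Cor)
    (h : s(c.1, c.1 + dir (c.2 + 1)) = s(z, z + dir q)) : c = (z, q + 3) ∨ c = (z + dir q, q + 1) := by
  obtain ⟨u, p⟩ := c
  simp only at h
  rw [Sym2.eq_iff] at h
  rcases h with ⟨h1, h2⟩ | ⟨h1, h2⟩
  · left
    subst h1
    rw [T6c_aux3 p q (dir_inj u (p + 1) q h2)]
  · right
    subst h1
    have h3 : z + dir q + dir (p + 1) = z + dir q + dir (q + 2) := by rw [h2, dir_opp]
    rw [T6c_aux4 p q (dir_inj _ _ _ h3)]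

theorem face_change {S : Finset Pt} {E : Finset (Sym2 Pt)} (h : GTree S E) {z : Pt} {q : Fin 4} (hz : z ∈ S) (hz' : z + dir q ∈ S)
    (hn : s(z, z + dir q) ∉ E) :
    ∃ Q : Pt → ZMod 2, (∀ c : Cor, c ≠ (z, q + 3) → c ≠ (z + dir q, q + 1) →
        Q ((sg E c).1 + fac (sg E c).2) = Q (c.1 + fac c.2)) ∧
      Q ((sg E (z, q + 3)).1 + fac (sg E (z, q + 3)).2) ≠ Q (z + fac (q + 3)) ∧
      ∀ (z' : Pt) (q' : Fin 4), s(z', z' + dir q') ∉ E → s(z', z' + dir q') ≠ s(z, z + dir q) →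
        Q (z' + fac (q' + 3)) = Q (z' + dir q' + fac (q' + 1)) := by
  classical
  obtain ⟨τ, hτ1, hτ2⟩ := gtree_chain h hz hz'
  have hg0 : bd (Finsupp.single (ge z q) 1) = pt z + pt (z + dir q) := by
    rw [bd_single]
    have h1 := en_ge z q
    unfold en at h1
    rw [Sym2.eq_iff] at h1
    rcases h1 with ⟨h1, h2⟩ | ⟨h1, h2⟩
    · rw [h1, h2]
    · rw [h1, h2, add_comm]
  have hbd : bd (τ + Finsupp.single (ge z q) 1) = 0 := by
    rw [map_add, hτ2, hg0]
    refine Finsupp.ext fun x => ?_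
    rw [Finsupp.add_apply, Finsupp.zero_apply]
    exact CharTwo.add_self_eq_zero _
  obtain ⟨Q, hQ⟩ := exists_bd2 _ hbd
  have hτ0 : ∀ (z' : Pt) (q' : Fin 4), s(z', z' + dir q') ∉ E → τ (ge z' q') = 0 := by
    intro z' q' h1
    by_contra hcon
    have h2 := hτ1 _ (Finsupp.mem_support_iff.2 hcon)
    rw [en_ge] at h2
    exact h1 h2
  have hside : ∀ (z' : Pt) (q' : Fin 4), s(z', z' + dir (q' + 1)) ∉ E →
      Q (z' + fac q') + Q (z' + fac (q' + 1)) = if ge z q = ge z' (q' + 1) then 1 else 0 := by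
    intro z' q' h1
    rw [bd2_side, hQ, Finsupp.add_apply, hτ0 z' (q' + 1) h1, zero_add, Finsupp.single_apply]
  refine ⟨Q, ?_, ?_, ?_⟩
  · intro c hc1 hc2
    unfold sg
    by_cases hE : s(c.1, c.1 + dir (c.2 + 1)) ∈ E
    · rw [if_pos hE]
      simp only
      rw [fac_turn]
    · rw [if_neg hE]
      simp only
      have h1 := hside c.1 c.2 hE
      rw [if_neg] at h1
      · exact (CharTwo.add_eq_zero.1 h1).symm
      · intro h2
        have h3 := congrArg en h2
        rw [en_ge, en_ge] at h3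
        rcases T6c_aux5 z q c h3.symm with h4 | h4
        · exact hc1 h4
        · exact hc2 h4
  · have hE : s(z, z + dir (q + 3 + 1)) ∉ E := by
      rw [T6c_aux2]
      exact hn
    have h1 := hside z (q + 3) hE
    rw [T6c_aux2, if_pos rfl] at h1
    unfold sg
    simp only
    rw [T6c_aux2, if_neg hn]
    simp only
    intro h2
    rw [h2, CharTwo.add_self_eq_zero] at h1
    exact zero_ne_one h1
  · intro z' q' h1 h2
    have hE : s(z', z' + dir (q' + 3 + 1)) ∉ E := by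
      rw [T6c_aux2]
      exact h1
    have h3 := hside z' (q' + 3) hE
    rw [T6c_aux2] at h3
    rw [if_neg] at h3
    · rw [T6c_aux1]
      exact CharTwo.add_eq_zero.1 h3
    · intro h4
      have h5 := congrArg en h4
      rw [en_ge, en_ge] at h5
      exact h2 h5.symm

end QPl
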