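import Pool.Agent.Lib.MP_d3a5e5_co.T1

set_option autoImplicit false

namespace QPl

open Finsupp SimpleGraph

theorem T6d_eq {a b : ZMod 2} (h : a + b = 0) : a = b := by
  have h1 : a + b + b = b := by rw [h, zero_add]
  rwa [add_assoc, CharTwo.add_self_eq_zero, add_zero] at h1

theorem T6d_one {a : ZMod 2} (h : a ≠ 0) : a = 1 := by
  revert h
  revert a
  decide

/-- every chain from `A` to its complement has an edge which is neither inside `A` nor outside `A` -/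
theorem T6d_edge {A B : Finset Pt} (hAB : Disjoint A B) {z w : Pt} (hz : z ∈ A) (hw : w ∈ B) {c : C1}
    (hb : bd c = pt z + pt w) : ∃ g ∈ c.support, ¬ (g.1 ∈ A ∧ tgt g ∈ A) ∧ ¬ (g.1 ∈ B ∧ tgt g ∈ B) := by
  classical
  by_contra hcon
  push Not at hcon
  obtain ⟨L, hpt⟩ : ∃ L : C0 →ₗ[ZMod 2] ZMod 2, ∀ v : Pt, L (pt v) = if v ∈ A then (1 : ZMod 2) else 0 := by
    refine ⟨Finsupp.linearCombination (ZMod 2) (fun v : Pt => if v ∈ A then (1 : ZMod 2) else 0), fun v => ?_⟩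
    rw [pt, Finsupp.linearCombination_single, one_smul]
  have hBA : ∀ v ∈ B, v ∉ A := fun v hv hvA => Finset.disjoint_left.1 hAB hvA hv
  have h1 : L (bd c) = 0 := by
    rw [bd, Finsupp.linearCombination_apply, Finsupp.sum, map_sum]
    refine Finset.sum_eq_zero fun g hg => ?_
    rw [map_smul, map_add, hpt, hpt]
    by_cases hgA : g.1 ∈ A ∧ tgt g ∈ A
    · rw [if_pos hgA.1, if_pos hgA.2, CharTwo.add_self_eq_zero, smul_zero]
    · have hgB := hcon g hg (fun h1 h2 => hgA ⟨h1, h2⟩)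
      rw [if_neg (hBA _ hgB.1), if_neg (hBA _ hgB.2), add_zero, smul_zero]
  rw [hb, map_add, hpt, hpt, if_pos hz, if_neg (hBA w hw), add_zero] at h1
  exact one_ne_zero h1

theorem chi_sep {S : Finset Pt} {E : Finset (Sym2 Pt)} (h : GTree S E) (A B : Finset Pt) (hAB : Disjoint A B) (hAS : A ⊆ S) (hBS : B ⊆ S)
    (hA : ∀ u ∈ A, ∀ v ∈ A, ∃ c : C1, (∀ g ∈ c.support, en g ∈ E ∧ g.1 ∈ A ∧ tgt g ∈ A) ∧ bd c = pt u + pt v)
    (hB : ∀ u ∈ B, ∀ v ∈ B, ∃ c : C1, (∀ g ∈ c.support, en g ∈ E ∧ g.1 ∈ B ∧ tgt g ∈ B) ∧ bd c = pt u + pt v)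
    {z w : Pt} (hz : z ∈ A) (hw : w ∈ B) :
    ∃ (z₀ : Pt) (q₀ : Fin 4) (χ : Pt → ZMod 2), s(z₀, z₀ + dir q₀) ∈ E ∧
      (∀ u w, s(u, w) ∈ E → (χ u + χ w = if s(u, w) = s(z₀, z₀ + dir q₀) then 1 else 0)) ∧
      (∀ u ∈ A, χ u = χ z) ∧ (∀ u ∈ B, χ u = χ w) ∧ χ z ≠ χ w := by
  obtain ⟨c, hc, hb⟩ := gtree_chain h (hAS hz) (hBS hw)
  obtain ⟨g, hg, hgA, hgB⟩ := T6d_edge hAB hz hw hb
  obtain ⟨_, z₀, q₀, hz₀⟩ := gtree_mem h (hc g hg)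
  obtain ⟨χ, hχ⟩ := gtree_cut h (hc g hg)
  have h1 : χ z + χ w = c g := cut_eval χ hχ g rfl hc hb
  have h2 : c g = 1 := T6d_one (Finsupp.mem_support_iff.1 hg)
  have hconst : ∀ D : Finset Pt, ¬ (g.1 ∈ D ∧ tgt g ∈ D) →
      (∀ u ∈ D, ∀ v ∈ D, ∃ c : C1, (∀ g ∈ c.support, en g ∈ E ∧ g.1 ∈ D ∧ tgt g ∈ D) ∧ bd c = pt u + pt v) →
      ∀ u ∈ D, ∀ v ∈ D, χ u = χ v := by
    intro D hgD hD u hu v hv
    obtain ⟨c', hc', hb'⟩ := hD u hu v hv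
    have h3 : χ u + χ v = c' g := cut_eval χ hχ g rfl (fun g' hg' => (hc' g' hg').1) hb'
    have h4 : c' g = 0 := by
      by_contra h5
      exact hgD (hc' g (Finsupp.mem_support_iff.2 h5)).2
    exact T6d_eq (h3.trans h4)
  refine ⟨z₀, q₀, χ, ?_, ?_, fun u hu => hconst A hgA hA u hu z hz, fun u hu => hconst B hgB hB u hu w hw, ?_⟩
  · rw [← hz₀]
    exact hc g hg
  · rw [← hz₀]
    exact hχ
  · intro h5
    rw [h5, CharTwo.add_self_eq_zero, h2] at h1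
    exact zero_ne_one h1

/-- For a tree edge which is not inside `A` the function is constant on `A`. -/
theorem chi_const {S : Finset Pt} {E : Finset (Sym2 Pt)} (h : GTree S E) (A : Finset Pt)
    (hA : ∀ u ∈ A, ∀ v ∈ A, ∃ c : C1, (∀ g ∈ c.support, en g ∈ E ∧ g.1 ∈ A ∧ tgt g ∈ A) ∧ bd c = pt u + pt v)
    {z : Pt} {q : Fin 4} (ha : s(z, z + dir q) ∈ E) (hn : ¬ (z ∈ A ∧ z + dir q ∈ A)) (χ : Pt → ZMod 2)
    (hχ : ∀ u w, s(u, w) ∈ E → (χ u + χ w = if s(u, w) = s(z, z + dir q) then 1 else 0)) :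
    ∀ u ∈ A, ∀ v ∈ A, χ u = χ v := by
  intro u hu v hv
  obtain ⟨c, hc, hb⟩ := hA u hu v hv
  have h1 : χ u + χ v = c (ge z q) := cut_eval χ hχ (ge z q) (en_ge z q) (fun g hg => (hc g hg).1) hb
  have h2 : c (ge z q) = 0 := by
    by_contra h3
    obtain ⟨_, h4, h5⟩ := hc (ge z q) (Finsupp.mem_support_iff.2 h3)
    have h6 : s((ge z q).1, tgt (ge z q)) = s(z, z + dir q) := en_ge z q
    rw [Sym2.eq_iff] at h6
    rcases h6 with ⟨h7, h8⟩ | ⟨h7, h8⟩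
    · exact hn ⟨h7 ▸ h4, h8 ▸ h5⟩
    · exact hn ⟨h8 ▸ h5, h7 ▸ h4⟩
  exact T6d_eq (h1.trans h2)

end QPl
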