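import Pool.Agent.Lib.MP_d3a5e5_co.T4
import Pool.Agent.Lib.MP_d3a5e5_co.T6a
import Pool.Agent.Lib.MP_d3a5e5_co.T6b
import Pool.Agent.Lib.MP_d3a5e5_co.T6c
import Pool.Agent.Lib.MP_d3a5e5_co.T6d

set_option autoImplicit false

namespace QPl

open Finsupp SimpleGraph

theorem T6_aux1 (q : Fin 4) : q + 2 + 3 = q + 1 := by
  revert q; decide

theorem T6_aux2 (p q : Fin 4) (h : p + 3 = q + 3) : p = q := by
  revert p q; decide

/-- Cross is impossible if numbers coincide. -/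
theorem T6_aux3 {a b c d : ℕ} (h : Cross a b c d) : c ≠ a ∧ c ≠ b ∧ d ≠ a ∧ d ≠ b := by
  unfold Cross at h
  omega

theorem T6_aux4 {α : Type} (A : Finset α) (s : α → α) (ix : α → ℕ) (hs : ∀ a ∈ A, s a ∈ A)
    (h1 : ∀ a ∈ A, ix a < A.card) (h2 : ∀ a ∈ A, ∀ b ∈ A, ix a = ix b → a = b)
    (h3 : ∀ a ∈ A, ix (s a) = ix a + 1 ∨ (ix a + 1 = A.card ∧ ix (s a) = 0))
    (f : α → ZMod 2) (a₁ a₂ : α) (hf : ∀ a ∈ A, a ≠ a₁ → a ≠ a₂ → f (s a) = f a)
    {p p' r r' : α} (hp : p ∈ A) (hp' : p' ∈ A) (hr : r ∈ A) (hr' : r' ∈ A)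
    (e1 : f p = f p') (e2 : f r = f r') (hne : f p ≠ f r) : ¬ Cross (ix p) (ix p') (ix r) (ix r') := by
  intro hC
  have H : ∀ x u y v : α, x ∈ A → u ∈ A → y ∈ A → v ∈ A → f x = f y → f u = f v → f x ≠ f u →
      ix x < ix u → ix u < ix y → ix y < ix v → False := by
    intro x u y v hx hu hy hv hxy huv hne i1 i2 i3
    exact no_cross_sets A s ix hs h1 h2 h3 f a₁ a₂ hf hx hu hy hv hxy huv hne i1 i2 i3
  have hne' : f p ≠ f r' := by rw [← e2]; exact hne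
  have hne2 : f p' ≠ f r := by rw [← e1]; exact hne
  have hne2' : f p' ≠ f r' := by rw [← e1, ← e2]; exact hne
  unfold Cross at hC
  rcases le_total (ix p) (ix p') with c1 | c1 <;> rcases le_total (ix r) (ix r') with c2 | c2
  · rw [min_eq_left c1, min_eq_left c2, max_eq_right c1, max_eq_right c2] at hC
    rcases hC with ⟨i1, i2, i3⟩ | ⟨i1, i2, i3⟩
    · exact H p r p' r' hp hr hp' hr' e1 e2 hne i1 i2 i3
    · exact H r p r' p' hr hp hr' hp' e2 e1 hne.symm i1 i2 i3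
  · rw [min_eq_left c1, min_eq_right c2, max_eq_right c1, max_eq_left c2] at hC
    rcases hC with ⟨i1, i2, i3⟩ | ⟨i1, i2, i3⟩
    · exact H p r' p' r hp hr' hp' hr e1 e2.symm hne' i1 i2 i3
    · exact H r' p r p' hr' hp hr hp' e2.symm e1 hne'.symm i1 i2 i3
  · rw [min_eq_right c1, min_eq_left c2, max_eq_left c1, max_eq_right c2] at hC
    rcases hC with ⟨i1, i2, i3⟩ | ⟨i1, i2, i3⟩
    · exact H p' r p r' hp' hr hp hr' e1.symm e2 hne2 i1 i2 i3
    · exact H r p' r' p hr hp' hr' hp e2 e1.symm hne2.symm i1 i2 i3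
  · rw [min_eq_right c1, min_eq_right c2, max_eq_left c1, max_eq_left c2] at hC
    rcases hC with ⟨i1, i2, i3⟩ | ⟨i1, i2, i3⟩
    · exact H p' r' p r hp' hr' hp hr e1.symm e2.symm hne2' i1 i2 i3
    · exact H r' p' r p hr' hp' hr hp e2.symm e1.symm hne2'.symm i1 i2 i3

theorem contour {L : Type} (P : L → Finset Pt) (hc : ∀ l, GConn (P l : Set Pt)) (hd : ∀ l m, l ≠ m → Disjoint (P l) (P m))
    (hfin : {l | (P l).Nonempty}.Finite) (l₀ : L) (h0 : (P l₀).Nonempty)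
    (hconn : ∀ l, (P l).Nonempty → (PG P).Reachable l₀ l) :
    ∃ (key : L × L → ℕ) (inn : L → L → Prop), (∀ l m, inn l m → inn m l) ∧
      (∀ l m l' m', (PG P).Adj l m → (PG P).Adj l' m' → key (l, m) = key (l', m') → l = l' ∧ m = m') ∧
      (∀ l m, l ≠ m → ∀ x y u v, (PG P).Adj l x → (PG P).Adj l y → (PG P).Adj m u → (PG P).Adj m v →
        ¬ Cross (key (l, x)) (key (l, y)) (key (m, u)) (key (m, v))) ∧
      (∀ l m, (PG P).Adj l m → inn l m → ∀ n x y, (PG P).Adj n x → (PG P).Adj n y →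
        ¬ Cross (key (l, m)) (key (m, l)) (key (n, x)) (key (n, y))) ∧
      (∀ l m l' m', (PG P).Adj l m → (PG P).Adj l' m' → (inn l m ↔ inn l' m') →
        ¬ Cross (key (l, m)) (key (m, l)) (key (l', m')) (key (m', l'))) := by
  obtain ⟨S, E, hT, hS, hch, hu⟩ := spanning P hc hd hfin l₀ h0 hconn
  have hE : ∀ e ∈ E, ∃ z q, e = s(z, z + dir q) := fun e he => (gtree_mem hT he).2
  obtain ⟨zz, qq, hzq⟩ := ports_choice P hd E hu hE
  have hPS : ∀ l, P l ⊆ S := fun l z hz => (hS z).mpr ⟨l, hz⟩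
  have hdj : ∀ {l m : L} {z : Pt}, z ∈ P l → z ∈ P m → l = m := by
    intro l m z h1 h2
    by_contra hne
    exact Finset.disjoint_left.mp (hd l m hne) h1 h2

  let A : Finset Cor := S ×ˢ Finset.univ
  have hmemA : ∀ c : Cor, c ∈ A ↔ c.1 ∈ S := by
    intro c
    simp [A]
  obtain ⟨z₀, hz₀⟩ := h0
  have hAne : A.Nonempty := ⟨(z₀, 0), (hmemA _).mpr (hPS l₀ hz₀)⟩
  have hs : ∀ a ∈ A, sg E a ∈ A := fun a ha => (hmemA _).mpr (sg_mem hT ((hmemA _).mp ha))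
  obtain ⟨ix, h1, h2, h3⟩ := cycle_index A (sg E) hAne hs
    (fun a _ b _ hab => sg_inj hT hab)
    (fun a ha b hb => sg_trans hT ((hmemA _).mp ha) ((hmemA _).mp hb))

  let κ : L → L → Cor := fun l m => (zz l m, qq l m + 3)
  have hκ : ∀ l m, κ l m = (zz l m, qq l m + 3) := fun _ _ => rfl
  have hκ' : ∀ l m, (PG P).Adj l m → κ m l = (zz l m + dir (qq l m), qq l m + 1) := by
    intro l m hlm
    obtain ⟨-, -, e1, e2, -⟩ := hzq l m hlm
    rw [hκ, e1, e2, T6_aux1]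
  have hκA : ∀ l m, (PG P).Adj l m → κ l m ∈ A := fun l m hlm =>
    (hmemA _).mpr (hPS l (hzq l m hlm).1)
  have hκinj : ∀ l m l' m', (PG P).Adj l m → (PG P).Adj l' m' → κ l m = κ l' m' → l = l' ∧ m = m' := by
    intro l m l' m' hlm hlm' he
    obtain ⟨a1, a2, -, -, -⟩ := hzq l m hlm
    obtain ⟨b1, b2, -, -, -⟩ := hzq l' m' hlm'
    rw [hκ, hκ, Prod.mk.injEq] at he
    obtain ⟨he1, he2⟩ := he
    have he3 := T6_aux2 _ _ he2
    rw [← he1] at b1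
    rw [← he1, ← he3] at b2
    exact ⟨hdj a1 b1, hdj a2 b2⟩
  have hcut : ∀ (z : Pt) (q : Fin 4) (χ : Pt → ZMod 2), s(z, z + dir q) ∈ E →
      (∀ u w, s(u, w) ∈ E → (χ u + χ w = if s(u, w) = s(z, z + dir q) then 1 else 0)) →
      (∀ c ∈ A, c ≠ (z, q + 3) → c ≠ (z + dir q, q + 1) →
        (fun c : Cor => χ c.1) (sg E c) = (fun c : Cor => χ c.1) c) ∧
      (fun c : Cor => χ c.1) (sg E (z, q + 3)) ≠ (fun c : Cor => χ c.1) (z, q + 3) := by
    intro z q χ ha hχ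
    obtain ⟨g1, g2, -⟩ := chi_change ha χ hχ
    exact ⟨fun c _ n1 n2 => g1 c n1 n2, g2⟩
  refine ⟨fun p => ix (κ p.1 p.2), fun l m => (PG P).Adj l m ∧ s(zz l m, zz l m + dir (qq l m)) ∈ E,
    ?_, ?_, ?_, ?_, ?_⟩
  · rintro l m ⟨hlm, he⟩
    refine ⟨hlm.symm, ?_⟩
    obtain ⟨-, -, e1, e2, -⟩ := hzq l m hlm
    rw [e1, e2, dir_opp, Sym2.eq_swap]
    exact he
  · intro l m l' m' hlm hlm' he
    exact hκinj l m l' m' hlm hlm' (h2 _ (hκA l m hlm) _ (hκA l' m' hlm') he)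
  · intro l m hlm x y u v hx hy hu' hv
    obtain ⟨z₁, q₁, χ, ha, hχ, hA, hB, hne⟩ := chi_sep hT (P l) (P m) (hd l m hlm) (hPS l) (hPS m)
      (hch l) (hch m) (hzq l x hx).1 (hzq m u hu').1
    obtain ⟨g1, g2⟩ := hcut z₁ q₁ χ ha hχ
    refine T6_aux4 A (sg E) ix hs h1 h2 h3 (fun c : Cor => χ c.1) (z₁, q₁ + 3)
      (z₁ + dir q₁, q₁ + 1) g1 (hκA l x hx) (hκA l y hy) (hκA m u hu') (hκA m v hv) ?_ ?_ ?_
    · exact (hA _ (hzq l y hy).1).symm
    · exact (hB _ (hzq m v hv).1).symm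
    · exact hne
  · rintro l m hlm ⟨-, he⟩ n x y hx hy hC
    obtain ⟨χ, hχ⟩ := gtree_cut hT he
    obtain ⟨g1, g2⟩ := hcut (zz l m) (qq l m) χ he hχ
    obtain ⟨a1, a2, -, -, -⟩ := hzq l m hlm
    have hn : ¬ (zz l m ∈ P n ∧ zz l m + dir (qq l m) ∈ P n) := by
      rintro ⟨c1, c2⟩
      exact hlm.1 ((hdj a1 c1).trans (hdj a2 c2).symm)
    have hconst := chi_const hT (P n) (hch n) he hn χ hχ
    obtain ⟨d1, d2, d3, d4⟩ := T6_aux3 hC
    have hcoi : ∀ {p r : Cor}, ix p ≠ ix r → p ≠ r := fun h e => h (congrArg ix e)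
    have hlm2 := hκ' l m hlm
    refine no_cross_pair A (sg E) ix hs h1 h2 h3 (fun c : Cor => χ c.1) (κ l m) (κ m l)
      (hκA l m hlm) (hκA m l hlm.symm) ?_ ?_ (b₁ := κ n x) (b₂ := κ n y) (hκA n x hx) (hκA n y hy) ?_
      (hcoi d1) (hcoi d2) (hcoi d3) (hcoi d4) hC
    · rw [hlm2]; exact g1
    · exact g2
    · exact hconst _ (hzq n x hx).1 _ (hzq n y hy).1
  · intro l m l' m' hlm hlm' hinn hC
    obtain ⟨d1, d2, d3, d4⟩ := T6_aux3 hC
    have hcoi : ∀ {p r : Cor}, ix p ≠ ix r → p ≠ r := fun h e => h (congrArg ix e)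
    have hlm2 := hκ' l m hlm
    have hlm2' := hκ' l' m' hlm'
    obtain ⟨a1, a2, -, -, -⟩ := hzq l m hlm
    obtain ⟨b1, b2, -, -, -⟩ := hzq l' m' hlm'

    have hdiff : ¬ (s(zz l' m', zz l' m' + dir (qq l' m')) = s(zz l m, zz l m + dir (qq l m))) := by
      intro he
      rcases Sym2.eq_iff.mp he with ⟨e1, e2⟩ | ⟨e1, e2⟩
      · rw [e1] at e2
        have e3 := dir_inj _ _ _ e2
        apply hcoi d1
        show κ l' m' = κ l m
        rw [hκ, hκ, e1, e3]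
      · have e4 : zz l' m' + dir (qq l' m') = zz l' m' + dir (qq l m + 2) := by
          rw [e2, e1, dir_opp]
        have e3 := dir_inj _ _ _ e4
        apply hcoi d2
        show κ l' m' = κ m l
        rw [hlm2, hκ, e1, e3, T6_aux1]
    by_cases hi : s(zz l m, zz l m + dir (qq l m)) ∈ E
    · obtain ⟨-, hi'⟩ := hinn.mp ⟨hlm, hi⟩
      obtain ⟨χ, hχ⟩ := gtree_cut hT hi
      obtain ⟨g1, g2⟩ := hcut (zz l m) (qq l m) χ hi hχ
      refine no_cross_pair A (sg E) ix hs h1 h2 h3 (fun c : Cor => χ c.1) (κ l m) (κ m l)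
        (hκA l m hlm) (hκA m l hlm.symm) ?_ ?_ (b₁ := κ l' m') (b₂ := κ m' l') (hκA l' m' hlm')
        (hκA m' l' hlm'.symm) ?_ (hcoi d1) (hcoi d2) (hcoi d3) (hcoi d4) hC
      · rw [hlm2]; exact g1
      · exact g2
      · rw [hlm2']
        have h5 := hχ _ _ hi'
        rw [if_neg hdiff] at h5
        exact (T6b_aux1 _ _ h5).symm
    · have hi' : s(zz l' m', zz l' m' + dir (qq l' m')) ∉ E := fun h => hi (hinn.mpr ⟨hlm', h⟩).2
      obtain ⟨Q, g1, g2, g3⟩ := face_change hT (hPS l a1) (hPS m a2) hi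
      refine no_cross_pair A (sg E) ix hs h1 h2 h3 (fun c : Cor => Q (c.1 + fac c.2)) (κ l m) (κ m l)
        (hκA l m hlm) (hκA m l hlm.symm) ?_ ?_ (b₁ := κ l' m') (b₂ := κ m' l') (hκA l' m' hlm')
        (hκA m' l' hlm'.symm) ?_ (hcoi d1) (hcoi d2) (hcoi d3) (hcoi d4) hC
      · rw [hlm2]
        exact fun c _ n1 n2 => g1 c n1 n2
      · exact g2
      · rw [hlm2']
        exact g3 _ _ hi' hdiff

end QPl
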