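import Pool.Agent.Lib.MP_d3a5e5_co.S1
import Pool.Agent.Lib.MP_d3a5e5_co.S2
import Pool.Agent.Lib.MP_d3a5e5_co.T6

set_option autoImplicit false

namespace QPl

open Finsupp SimpleGraph

theorem S3a_aux1 {W : Type} (T : TP W) {n : ℕ} {a b : W} (h : T.WalkLE n a b) :
    ∀ n' : ℕ, n ≤ n' → T.WalkLE n' a b := by
  induction h with
  | nil m a => intro n' _; exact TP.WalkLE.nil n' a
  | cons m a b c hab _ ih =>
    intro n' hn
    obtain ⟨n'', rfl⟩ : ∃ n'', n' = n'' + 1 := ⟨n' - 1, by omega⟩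
    exact TP.WalkLE.cons n'' a b c hab (ih n'' (by omega))

theorem S3a_aux2 {V : Type} {G : SimpleGraph V} {B : Set V} {T : Lab V → Finset Pt}
    (h5 : ∀ u v, s(u, v) ∈ EB G B → (PG T).Reachable (Sum.inl u) (Sum.inl v)) {u v : V}
    (w : G.Walk u v) (hw : ∀ e ∈ w.edges, e ∈ EB G B) :
    (PG T).Reachable (Sum.inl u) (Sum.inl v) := by
  induction w with
  | nil => exact SimpleGraph.Reachable.refl _
  | @cons x y z h p ih =>
    have h1 : s(x, y) ∈ EB G B := hw _ (by rw [Walk.edges_cons]; exact List.mem_cons_self ..)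
    exact (h5 x y h1).trans (ih fun e he => hw e (by
      rw [Walk.edges_cons]; exact List.mem_cons_of_mem _ he))

theorem stage {V : Type} {G : SimpleGraph V} {k d l : ℕ} {F : Finset V} (hS : Std G d l F) {ω : Dat V} (o : V) (n : ℕ) (B : Finset V)
    (hB : (B : Set V) = Bl G o (n + 1)) (ρ : GridRep G k B ω) (L b m : ℕ)
    (hL : ∀ e ∈ G.edgeSet, ∀ f ∈ G.edgeSet, TX ω e f → ∀ u ∈ e, ∀ v ∈ f, G.dist u v ≤ L) (T : Lab V → Finset Pt)
    (h1 : ∀ v, (∃ e ∈ EB G (B : Set V), v ∈ e) → T (Sum.inl v) = {ρ.p v})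
    (h2 : ∀ v, (¬ ∃ e ∈ EB G (B : Set V), v ∈ e) → T (Sum.inl v) = ∅)
    (h3 : ∀ e i, (T (Sum.inr (e, i))).Nonempty → e ∈ EB G (B : Set V) ∧ i < b ∧ T (Sum.inr (e, i)) ⊆ ρ.K e)
    (hc : ∀ l, GConn (T l : Set Pt)) (hd : ∀ l l', l ≠ l' → Disjoint (T l) (T l'))
    (h5 : ∀ u v, s(u, v) ∈ EB G (B : Set V) → ∃ w : (PG T).Walk (Sum.inl u) (Sum.inl v), w.length ≤ m)
    (h6 : ∀ e i, (T (Sum.inr (e, i))).Nonempty → ∃ u ∈ e, ∃ w : (PG T).Walk (Sum.inr (e, i)) (Sum.inl u), w.length ≤ m) :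
    ∃ τ : TP (Lab V × Lab V), τ.OK ∧
      (∀ x y, τ.adj x y → G.dist (pos x.1) (pos y.1) ≤ L ∧ (y = (x.2, x.1) ∨ x.1 = y.1)) ∧
      (∀ x, τ.pres x → G.dist (pos x.1) (pos x.2) ≤ L ∧ (∀ e i, x.2 = Sum.inr (e, i) → e ∈ G.edgeSet ∧ i < b)) ∧
      (∀ v v' x x', (v = v' ∨ (G.Adj v v' ∧ v ∈ B ∧ v' ∈ B)) → τ.pres (Sum.inl v, x) → τ.pres (Sum.inl v', x') →
        τ.WalkLE ((m + 1) * (k * (b + 2) + 1)) (Sum.inl v, x) (Sum.inl v', x')) ∧
      (∀ v v', G.Adj v v' → v ∈ B → v' ∈ B → ∃ x, τ.pres (Sum.inl v, x)) ∧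
      (∀ x, τ.pres x → ∃ v x', τ.pres (Sum.inl v, x') ∧ τ.WalkLE ((m + 1) * (k * (b + 2) + 1)) x (Sum.inl v, x')) := by
  have hmemB : ∀ v : V, v ∈ B ↔ G.dist o v ≤ n + 1 := by
    intro v
    have h : v ∈ (B : Set V) ↔ v ∈ Bl G o (n + 1) := by rw [hB]
    exact h
  obtain ⟨pl1, pl2, pl3⟩ := pieces_local ρ b T h1 h2 h3
  have hadj_ne : ∀ l m', (PG T).Adj l m' → (T l).Nonempty ∧ (T m').Nonempty := by
    rintro l m' ⟨_, z, hz, w, hw, _⟩
    exact ⟨⟨z, hz⟩, ⟨w, hw⟩⟩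

  obtain ⟨o', ho'⟩ : ∃ o', G.Adj o o' := by
    have := hS.inf
    obtain ⟨x, hx⟩ := exists_ne o
    obtain ⟨w⟩ := hS.conn.preconnected o x
    cases w with
    | nil => exact absurd rfl hx
    | cons h _ => exact ⟨_, h⟩
  have hoB : o ∈ B := by rw [hmemB, SimpleGraph.dist_self]; omega
  have ho'B : o' ∈ B := by
    rw [hmemB]
    have := SimpleGraph.dist_eq_one_iff_adj.mpr ho'
    omega
  have hEBadj : ∀ v v' : V, G.Adj v v' → v ∈ B → v' ∈ B → s(v, v') ∈ EB G (B : Set V) := by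
    intro v v' h hv hv'
    refine ⟨h, fun x hx => ?_⟩
    rcases Sym2.mem_iff.mp hx with rfl | rfl
    · exact hv
    · exact hv'
  have h0 : (T (Sum.inl o)).Nonempty := by
    rw [h1 o ⟨s(o, o'), hEBadj o o' ho' hoB ho'B, Sym2.mem_mk_left _ _⟩]
    exact Finset.singleton_nonempty _
  have h5r : ∀ u v, s(u, v) ∈ EB G (B : Set V) → (PG T).Reachable (Sum.inl u) (Sum.inl v) := by
    intro u v h
    obtain ⟨w, _⟩ := h5 u v h
    exact ⟨w⟩
  have hreachB : ∀ v, v ∈ B → (PG T).Reachable (Sum.inl o) (Sum.inl v) := by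
    intro v hv
    have ho1 : o ∈ Bl G o (n + 1) := by rw [← hB]; exact hoB
    have hv1 : v ∈ Bl G o (n + 1) := by rw [← hB]; exact hv
    obtain ⟨w, _, hw⟩ := walk_in_ball hS.conn o (n + 1) ho1 hv1
    refine S3a_aux2 h5r w ?_
    intro e he
    rw [hB]
    exact hw e he
  have hconn : ∀ l, (T l).Nonempty → (PG T).Reachable (Sum.inl o) l := by
    intro l hl
    cases l with
    | inl v =>
      by_cases hv : ∃ e ∈ EB G (B : Set V), v ∈ e
      · obtain ⟨e, he, hve⟩ := hv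
        exact hreachB v (he.2 v hve)
      · rw [h2 v hv] at hl
        exact absurd hl Finset.not_nonempty_empty
    | inr x =>
      obtain ⟨e, i⟩ := x
      obtain ⟨he, _, _⟩ := h3 e i hl
      obtain ⟨u, hu, w, _⟩ := h6 e i hl
      exact (hreachB u (he.2 u hu)).trans ⟨w.reverse⟩
  obtain ⟨key, inn, c0, ci, c1, c2, c3⟩ := contour T hc hd pl3 (Sum.inl o) h0 hconn
  have hwalk : ∀ {l l' : Lab V} (w : (PG T).Walk l l'), w.length ≤ m → ∀ {x y : Lab V},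
      (PG T).Adj l x → (PG T).Adj l' y →
      (ctp T key inn).WalkLE ((m + 1) * (k * (b + 2) + 1)) (l, x) (l', y) := by
    intro l l' w hw x y hx hy
    refine S3a_aux1 _ (port_walk T key inn ci (k * (b + 2)) pl2 w hx hy) _ ?_
    exact Nat.mul_le_mul_right _ (by omega)
  have hpos : ∀ l m', (PG T).Adj l m' → G.dist (pos l) (pos m') ≤ L := by
    intro l m' h
    obtain ⟨e, he, f, hf, hef, hle, hmf⟩ := pl1 l m' h
    exact hL e he.1 f hf.1 hef _ hle _ hmf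
  refine ⟨ctp T key inn, ctp_ok T key inn c0 ci c1 c2 c3, ?_, ?_, ?_, ?_, ?_⟩
  · rintro ⟨x1, x2⟩ ⟨y1, y2⟩ ⟨hx, hy, hxy⟩
    rcases hxy with ⟨h, h'⟩ | ⟨h, _⟩
    · simp only at h h' hx
      subst h; subst h'
      exact ⟨hpos _ _ hx, Or.inl rfl⟩
    · simp only at h
      subst h
      refine ⟨?_, Or.inr rfl⟩
      simp
  · rintro ⟨x1, x2⟩ hx
    have hx' : (PG T).Adj x1 x2 := hx
    refine ⟨hpos _ _ hx', ?_⟩
    intro e i hei
    simp only at hei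
    subst hei
    obtain ⟨he, hi, _⟩ := h3 e i (hadj_ne _ _ hx').2
    exact ⟨he.1, hi⟩
  · intro v v' x x' hvv hx hx'
    have hx1 : (PG T).Adj (Sum.inl v) x := hx
    have hx2 : (PG T).Adj (Sum.inl v') x' := hx'
    rcases hvv with rfl | ⟨hadj, hv, hv'⟩
    · exact hwalk (Walk.nil : (PG T).Walk (Sum.inl v) (Sum.inl v)) (Nat.zero_le _) hx1 hx2
    · obtain ⟨w, hw⟩ := h5 v v' (hEBadj v v' hadj hv hv')
      exact hwalk w hw hx1 hx2
  · intro v v' hadj hv hv'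
    obtain ⟨w, _⟩ := h5 v v' (hEBadj v v' hadj hv hv')
    have hne : v ≠ v' := hadj.ne
    clear hwalk
    generalize hl : (Sum.inl v' : Lab V) = l' at w
    cases w with
    | nil => exact absurd (Sum.inl.inj hl).symm hne
    | @cons _ x _ h _ => exact ⟨x, h⟩
  · rintro ⟨l, m'⟩ hx
    have hx' : (PG T).Adj l m' := hx
    cases l with
    | inl v => exact ⟨v, m', hx', TP.WalkLE.nil _ _⟩
    | inr y =>
      obtain ⟨e, i⟩ := y
      obtain ⟨u, hu, w, hw⟩ := h6 e i (hadj_ne _ _ hx').1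
      obtain ⟨x', hx''⟩ : ∃ x', (PG T).Adj (Sum.inl u) x' := by
        generalize hl : (Sum.inr (e, i) : Lab V) = l' at w
        have w2 := w.reverse
        cases w2 with
        | nil => exact absurd hl (by simp)
        | @cons _ x _ h _ => exact ⟨x, h⟩
      exact ⟨u, x', hx'', hwalk w hw hx' hx''⟩

end QPl
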