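import Pool.Agent.Lib.MP_d3a5e5_co.S2

set_option autoImplicit false

namespace QPl

open Finsupp SimpleGraph

theorem countable_V {V : Type} {G : SimpleGraph V} (hc : G.Connected) (hf : ∀ v, (G.neighborSet v).Finite) : Countable V := by
  obtain ⟨v⟩ := hc.nonempty
  rw [← Set.countable_univ_iff]
  have h : (Set.univ : Set V) ⊆ ⋃ n : ℕ, Bl G v n := by
    intro y _
    exact Set.mem_iUnion.2 ⟨G.dist v y, le_refl (G.dist v y)⟩
  exact (Set.countable_iUnion (fun n => (Bl_finite hc hf v n).countable)).mono h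

theorem near_finite {V : Type} {G : SimpleGraph V} (hc : G.Connected) (hf : ∀ v, (G.neighborSet v).Finite) (v : V) (L b : ℕ) :
    {x : Lab V | G.dist v (pos x) ≤ L ∧ ∀ e i, x = Sum.inr (e, i) → e ∈ G.edgeSet ∧ i < b}.Finite := by
  have h1 : (Bl G v L).Finite := Bl_finite hc hf v L
  have h2 : (⋃ u ∈ Bl G v L, (fun w => s(u, w)) '' G.neighborSet u).Finite :=
    Set.Finite.biUnion h1 (fun u _ => (hf u).image _)
  have h3 : (Set.Iio b).Finite := Set.finite_Iio b
  refine Set.Finite.subset ((h1.image (Sum.inl : V → Lab V)).union ((h2.prod h3).image (Sum.inr : _ → Lab V))) ?_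
  rintro x ⟨hx1, hx2⟩
  rcases x with u | ⟨e, i⟩
  · exact Or.inl ⟨u, hx1, rfl⟩
  · right
    obtain ⟨he, hi⟩ := hx2 e i rfl
    refine ⟨(e, i), ⟨?_, hi⟩, rfl⟩
    have h4 : s((Quot.out e).1, (Quot.out e).2) = e := Quot.out_eq e
    refine Set.mem_iUnion₂.2 ⟨(Quot.out e).1, hx1, (Quot.out e).2, ?_, h4⟩
    show G.Adj (Quot.out e).1 (Quot.out e).2
    rw [← SimpleGraph.mem_edgeSet, h4]
    exact he

end QPl
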