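import Pool.Agent.Lib.MP_d3a5e5_co.I1
import Pool.Agent.Lib.MP_d3a5e5_co.S3a
import Pool.Agent.Lib.MP_d3a5e5_co.S3b
import Pool.Agent.Lib.MP_d3a5e5_co.L3
import Pool.Agent.Lib.MP_d3a5e5_co.C4

set_option autoImplicit false

namespace QPl

open Finsupp SimpleGraph

private theorem S3_exists_adj {V : Type} {G : SimpleGraph V} (hc : G.Connected) (hi : Infinite V) (v : V) :
    ∃ v', G.Adj v v' := by
  obtain ⟨w, hw⟩ := exists_ne v
  obtain ⟨p⟩ := hc.preconnected v w
  cases p with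
  | nil => exact absurd rfl hw
  | cons h _ => exact ⟨_, h⟩

theorem core {V : Type} {G : SimpleGraph V} {k d l : ℕ} {F : Finset V} (hS : Std G d l F) (h : (Om G k).Nonempty) : QITwoPage G := by
  classical
  obtain ⟨M, hM⟩ := exists_isMin G k h
  obtain ⟨ω, hω⟩ := hM.nonempty
  have hOm := hM.sub hω
  obtain ⟨L, hL⟩ := touch_local hS hM
  obtain ⟨b, m, hpc⟩ := pieces k
  have hinf := hS.inf
  obtain ⟨o⟩ : Nonempty V := inferInstance
  set B : ℕ → Finset V := fun n => (Bl_finite hS.conn hS.fin o (n + 1)).toFinset with hBdef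
  have hB : ∀ n, (B n : Set V) = Bl G o (n + 1) := fun n => Set.Finite.coe_toFinset _
  have hst : ∀ n, ∃ τ : TP (Lab V × Lab V), τ.OK ∧
      (∀ x y, τ.adj x y → G.dist (pos x.1) (pos y.1) ≤ L ∧ (y = (x.2, x.1) ∨ x.1 = y.1)) ∧
      (∀ x, τ.pres x → G.dist (pos x.1) (pos x.2) ≤ L ∧ (∀ e i, x.2 = Sum.inr (e, i) → e ∈ G.edgeSet ∧ i < b)) ∧
      (∀ v v' x x', (v = v' ∨ (G.Adj v v' ∧ v ∈ B n ∧ v' ∈ B n)) → τ.pres (Sum.inl v, x) → τ.pres (Sum.inl v', x') →
        τ.WalkLE ((m + 1) * (k * (b + 2) + 1)) (Sum.inl v, x) (Sum.inl v', x')) ∧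
      (∀ v v', G.Adj v v' → v ∈ B n → v' ∈ B n → ∃ x, τ.pres (Sum.inl v, x)) ∧
      (∀ x, τ.pres x → ∃ v x', τ.pres (Sum.inl v, x') ∧
        τ.WalkLE ((m + 1) * (k * (b + 2) + 1)) x (Sum.inl v, x')) := by
    intro n
    obtain ⟨ρ⟩ := hOm (B n)
    obtain ⟨T, t1, t2, t3, t4, t5, t6, t7⟩ := hpc G (B n) ω ρ
    exact stage hS o n (B n) (hB n) ρ L b m (hL ω hω) T t1 t2 t3 t4 t5 t6 t7
  choose τ ok hadj hpres hwalk hport hbase using hst
  have hcV : Countable V := countable_V hS.conn hS.fin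
  have hcS : Countable (Sym2 V) := inferInstanceAs (Countable (Quot _))
  have hmem : ∀ v, ∀ᶠ n in Filter.atTop, v ∈ B n := by
    intro v
    refine Filter.eventually_atTop.mpr ⟨G.dist o v, fun n hn => ?_⟩
    rw [← Finset.mem_coe, hB n]
    show G.dist o v ≤ n + 1
    omega
  set C : ℕ := max L ((m + 1) * (k * (b + 2) + 1)) with hC
  have hC1 : L ≤ C := le_max_left _ _
  have hC2 : (m + 1) * (k * (b + 2) + 1) ≤ C := le_max_right _ _
  set Bs : V → Finset (Lab V × Lab V) := fun v =>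
    (near_finite hS.conn hS.fin v L b).toFinset.image (fun x => ((Sum.inl v : Lab V), x)) with hBs
  have hBsmem : ∀ n v x, (τ n).pres (Sum.inl v, x) → ((Sum.inl v : Lab V), x) ∈ Bs v := by
    intro n v x hx
    refine Finset.mem_image.mpr ⟨x, ?_, rfl⟩
    rw [Set.Finite.mem_toFinset]
    exact hpres n _ hx
  refine limit_tp G hS.conn (fun x : Lab V × Lab V => pos x.1) C τ ok ?_ ?_ Bs ?_ ?_ ?_ ?_
  · intro a
    refine ⟨insert (a.2, a.1) ((near_finite hS.conn hS.fin (pos a.1) L b).toFinset.image (fun x => (a.1, x))),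
      fun n c hc => ?_⟩
    rcases (hadj n a c hc).2 with h1 | h1
    · rw [h1]
      exact Finset.mem_insert_self _ _
    · refine Finset.mem_insert_of_mem (Finset.mem_image.mpr ⟨c.2, ?_, ?_⟩)
      · rw [Set.Finite.mem_toFinset]
        have h2 := hpres n c ((ok n).adjp c a ((ok n).asym a c hc))
        rw [← h1] at h2
        exact h2
      · rw [h1]
  · intro n a c hac
    exact (hadj n a c hac).1.trans hC1
  · intro v a ha
    obtain ⟨x, _, rfl⟩ := Finset.mem_image.mp ha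
    rfl
  · intro v
    obtain ⟨v', hv'⟩ := S3_exists_adj hS.conn hinf v
    filter_upwards [hmem v, hmem v'] with n h1 h2
    obtain ⟨x, hx⟩ := hport n v v' hv' h1 h2
    exact ⟨_, hBsmem n v x hx, hx⟩
  · intro v v' hvv
    filter_upwards [hmem v, hmem v'] with n h1 h2
    intro a ha a' ha' hpa hpa'
    obtain ⟨x, _, rfl⟩ := Finset.mem_image.mp ha
    obtain ⟨x', _, rfl⟩ := Finset.mem_image.mp ha'
    exact WalkLE_mono hC2 (hwalk n v v' x x' (hvv.imp id fun h3 => ⟨h3, h1, h2⟩) hpa hpa')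
  · intro a
    refine Filter.Eventually.of_forall fun n hpa => ?_
    obtain ⟨v, x', hx', hw⟩ := hbase n a hpa
    exact ⟨v, _, hBsmem n v x' hx', hx', WalkLE_mono hC2 hw⟩

end QPl
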