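import Pool.Agent.Lib.MP_d3a5e5_co.A2
import Pool.Agent.Lib.MP_d3a5e5_co.A6

set_option autoImplicit false

namespace QPl

open Finsupp SimpleGraph

def dir : Fin 4 → ℤ × ℤ := ![(1, 0), (0, 1), (-1, 0), (0, -1)]

def fac : Fin 4 → ℤ × ℤ := ![(0, 0), (-1, 0), (-1, -1), (0, -1)]

/-- The grid edge from `z` in direction `q`. -/
def ge (z : Pt) (q : Fin 4) : GE := ![(z, false), (z, true), ((z.1 - 1, z.2), false), ((z.1, z.2 - 1), true)] q

/-- Ends of a grid edge as an unordered pair. -/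
def en (g : GE) : Sym2 Pt := s(g.1, tgt g)

theorem T0_dir0 : dir 0 = (1, 0) := rfl
theorem T0_dir1 : dir 1 = (0, 1) := rfl
theorem T0_dir2 : dir 2 = (-1, 0) := rfl
theorem T0_dir3 : dir 3 = (0, -1) := rfl
theorem T0_fac0 : fac 0 = (0, 0) := rfl
theorem T0_fac1 : fac 1 = (-1, 0) := rfl
theorem T0_fac2 : fac 2 = (-1, -1) := rfl
theorem T0_fac3 : fac 3 = (0, -1) := rfl
theorem T0_ge0 (z : Pt) : ge z 0 = (z, false) := rfl
theorem T0_ge1 (z : Pt) : ge z 1 = (z, true) := rfl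
theorem T0_ge2 (z : Pt) : ge z 2 = ((z.1 - 1, z.2), false) := rfl
theorem T0_ge3 (z : Pt) : ge z 3 = ((z.1, z.2 - 1), true) := rfl
theorem T0_tgtf (z : Pt) : tgt (z, false) = (z.1 + 1, z.2) := rfl
theorem T0_tgtt (z : Pt) : tgt (z, true) = (z.1, z.2 + 1) := rfl

theorem T0_cases (q : Fin 4) : q = 0 ∨ q = 1 ∨ q = 2 ∨ q = 3 := by
  fin_cases q <;> decide

theorem T0_add (z : Pt) (a b : ℤ) : z + (a, b) = (z.1 + a, z.2 + b) := rfl

theorem dir_opp (z : Pt) (q : Fin 4) : z + dir q + dir (q + 2) = z := by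
  obtain ⟨x, y⟩ := z
  rcases T0_cases q with rfl | rfl | rfl | rfl
  · show (x, y) + dir 0 + dir 2 = (x, y)
    rw [T0_dir0, T0_dir2]; ext <;> simp
  · show (x, y) + dir 1 + dir 3 = (x, y)
    rw [T0_dir1, T0_dir3]; ext <;> simp
  · show (x, y) + dir 2 + dir 0 = (x, y)
    rw [T0_dir0, T0_dir2]; ext <;> simp
  · show (x, y) + dir 3 + dir 1 = (x, y)
    rw [T0_dir1, T0_dir3]; ext <;> simp

theorem GAdj_iff (z w : Pt) : GAdj z w ↔ ∃ q, w = z + dir q := by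
  obtain ⟨x, y⟩ := z
  obtain ⟨u, v⟩ := w
  unfold GAdj
  simp only
  constructor
  · rintro (⟨h1, h2 | h2⟩ | ⟨h1, h2 | h2⟩)
    · exact ⟨3, by rw [T0_dir3, T0_add]; ext <;> simp only <;> omega⟩
    · exact ⟨1, by rw [T0_dir1, T0_add]; ext <;> simp only <;> omega⟩
    · exact ⟨2, by rw [T0_dir2, T0_add]; ext <;> simp only <;> omega⟩
    · exact ⟨0, by rw [T0_dir0, T0_add]; ext <;> simp only <;> omega⟩
  · rintro ⟨q, hq⟩
    rcases T0_cases q with rfl | rfl | rfl | rfl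
    · rw [T0_dir0, T0_add, Prod.mk.injEq] at hq
      simp only at hq
      omega
    · rw [T0_dir1, T0_add, Prod.mk.injEq] at hq
      simp only at hq
      omega
    · rw [T0_dir2, T0_add, Prod.mk.injEq] at hq
      simp only at hq
      omega
    · rw [T0_dir3, T0_add, Prod.mk.injEq] at hq
      simp only at hq
      omega

theorem dir_inj (z : Pt) (q q' : Fin 4) (h : z + dir q = z + dir q') : q = q' := by
  have h2 := add_left_cancel h
  revert h2
  rcases T0_cases q with rfl | rfl | rfl | rfl <;>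
    rcases T0_cases q' with rfl | rfl | rfl | rfl <;> decide

theorem fac_turn (z : Pt) (q : Fin 4) : z + dir (q + 1) + fac (q + 3) = z + fac q := by
  rw [add_assoc]
  congr 1
  rcases T0_cases q with rfl | rfl | rfl | rfl <;> decide

theorem en_ge (z : Pt) (q : Fin 4) : en (ge z q) = s(z, z + dir q) := by
  obtain ⟨x, y⟩ := z
  unfold en
  rcases T0_cases q with rfl | rfl | rfl | rfl
  · rw [T0_ge0, T0_tgtf, T0_dir0, T0_add, add_zero]
  · rw [T0_ge1, T0_tgtt, T0_dir1, T0_add, add_zero]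
  · rw [T0_ge2, T0_tgtf, T0_dir2, T0_add, Sym2.eq_swap]
    simp only [sub_add_cancel, add_zero]
    rfl
  · rw [T0_ge3, T0_tgtt, T0_dir3, T0_add, Sym2.eq_swap]
    simp only [sub_add_cancel, add_zero]
    rfl

theorem ge_opp (z : Pt) (q : Fin 4) : ge (z + dir q) (q + 2) = ge z q := by
  obtain ⟨x, y⟩ := z
  rcases T0_cases q with rfl | rfl | rfl | rfl
  · show ge ((x, y) + dir 0) 2 = ge (x, y) 0
    rw [T0_ge0, T0_ge2, T0_dir0, T0_add]
    simp
  · show ge ((x, y) + dir 1) 3 = ge (x, y) 1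
    rw [T0_ge1, T0_ge3, T0_dir1, T0_add]
    simp
  · show ge ((x, y) + dir 2) 0 = ge (x, y) 2
    rw [T0_ge0, T0_ge2, T0_dir2, T0_add]
    simp [sub_eq_add_neg]
  · show ge ((x, y) + dir 3) 1 = ge (x, y) 3
    rw [T0_ge1, T0_ge3, T0_dir3, T0_add]
    simp [sub_eq_add_neg]

theorem en_inj (g h : GE) (hgh : en g = en h) : g = h := by
  obtain ⟨⟨x, y⟩, b⟩ := g
  obtain ⟨⟨u, v⟩, c⟩ := h
  unfold en at hgh
  rw [Sym2.eq_iff] at hgh
  cases b <;> cases c <;>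
    simp only [T0_tgtf, T0_tgtt, Prod.mk.injEq] at hgh ⊢
  · refine ⟨⟨?_, ?_⟩, trivial⟩ <;> omega
  · exfalso; omega
  · exfalso; omega
  · refine ⟨⟨?_, ?_⟩, trivial⟩ <;> omega

theorem bd2_side (Q : C0) (z : Pt) (q : Fin 4) : Q (z + fac q) + Q (z + fac (q + 1)) = bd2 Q (ge z (q + 1)) := by
  obtain ⟨x, y⟩ := z
  rcases T0_cases q with rfl | rfl | rfl | rfl
  · show Q ((x, y) + fac 0) + Q ((x, y) + fac 1) = bd2 Q (ge (x, y) 1)
    rw [T0_ge1, bd2_apply_true, T0_fac0, T0_fac1, T0_add, T0_add]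
    simp [sub_eq_add_neg]
  · show Q ((x, y) + fac 1) + Q ((x, y) + fac 2) = bd2 Q (ge (x, y) 2)
    rw [T0_ge2, bd2_apply_false, T0_fac1, T0_fac2, T0_add, T0_add]
    simp [sub_eq_add_neg]
  · show Q ((x, y) + fac 2) + Q ((x, y) + fac 3) = bd2 Q (ge (x, y) 3)
    rw [T0_ge3, bd2_apply_true, T0_fac2, T0_fac3, T0_add, T0_add, add_comm]
    simp [sub_eq_add_neg]
  · show Q ((x, y) + fac 3) + Q ((x, y) + fac 0) = bd2 Q (ge (x, y) 0)
    rw [T0_ge0, bd2_apply_false, T0_fac0, T0_fac3, T0_add, T0_add, add_comm]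
    simp [sub_eq_add_neg]

end QPl
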