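import Pool.Agent.Lib.MP_d3a5e5_co.T0

set_option autoImplicit false

namespace QPl

open Finsupp SimpleGraph

inductive GTree : Finset Pt → Finset (Sym2 Pt) → Prop
  | single (z : Pt) : GTree {z} ∅
  | leaf (S : Finset Pt) (E : Finset (Sym2 Pt)) (z : Pt) (q : Fin 4) : GTree S E → z ∈ S → z + dir q ∉ S →
      GTree (insert (z + dir q) S) (insert s(z, z + dir q) E)

theorem gtree_mem {S : Finset Pt} {E : Finset (Sym2 Pt)} (h : GTree S E) {e : Sym2 Pt} (he : e ∈ E) :
    (∀ z ∈ e, z ∈ S) ∧ ∃ z q, e = s(z, z + dir q) := by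
  induction h with
  | single z => simp at he
  | leaf S E z q hT hz hp ih =>
    rcases Finset.mem_insert.mp he with he | he
    · subst he
      refine ⟨?_, z, q, rfl⟩
      intro w hw
      rcases Sym2.mem_iff.mp hw with h | h
      · exact Finset.mem_insert_of_mem (h ▸ hz)
      · exact h ▸ Finset.mem_insert_self _ _
    · obtain ⟨h1, h2⟩ := ih he
      exact ⟨fun w hw => Finset.mem_insert_of_mem (h1 w hw), h2⟩

theorem T1_aux1 (x y : Pt) (q : Fin 4) (h : y = x + dir q) :
    bd (Finsupp.single (ge x q) 1) = pt x + pt y := by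
  have h1 : bd (Finsupp.single (ge x q) 1) = pt (ge x q).1 + pt (tgt (ge x q)) := by
    simp [bd]
  have h2 : en (ge x q) = s(x, y) := by rw [en_ge, h]
  unfold en at h2
  rw [h1]
  rcases Sym2.eq_iff.mp h2 with ⟨h3, h4⟩ | ⟨h3, h4⟩
  · rw [h3, h4]
  · rw [h3, h4, add_comm]

theorem T1_aux3 (a : C0) : a + a = 0 := by
  ext z
  simp [CharTwo.add_self_eq_zero]

theorem gtree_chain {S : Finset Pt} {E : Finset (Sym2 Pt)} (h : GTree S E) {z w : Pt} (hz : z ∈ S) (hw : w ∈ S) :
    ∃ c : C1, (∀ g ∈ c.support, en g ∈ E) ∧ bd c = pt z + pt w := by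
  induction h generalizing z w with
  | single x =>
    rw [Finset.mem_singleton] at hz hw
    subst hz
    subst hw
    exact ⟨0, by simp, by rw [map_zero, T1_aux3]⟩
  | leaf S E x q hT hx hp ih =>
    have key : ∀ y ∈ insert (x + dir q) S, ∃ c : C1, (∀ g ∈ c.support, en g ∈ insert s(x, x + dir q) E) ∧
        bd c = pt x + pt y := by
      intro y hy
      rcases Finset.mem_insert.mp hy with hy | hy
      · refine ⟨Finsupp.single (ge x q) 1, ?_, T1_aux1 x y q hy⟩
        intro g hg
        have hg' := Finsupp.support_single_subset hg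
        rw [Finset.mem_singleton] at hg'
        rw [hg', en_ge]
        exact Finset.mem_insert_self _ _
      · obtain ⟨c, h1, h2⟩ := ih hx hy
        exact ⟨c, fun g hg => Finset.mem_insert_of_mem (h1 g hg), h2⟩
    obtain ⟨c, h1, h2⟩ := key z hz
    obtain ⟨c', h1', h2'⟩ := key w hw
    refine ⟨c + c', ?_, ?_⟩
    · intro g hg
      rcases Finset.mem_union.mp (Finsupp.support_add hg) with hg | hg
      · exact h1 g hg
      · exact h1' g hg
    · rw [map_add, h2, h2']
      have : pt x + pt z + (pt x + pt w) = (pt x + pt x) + (pt z + pt w) := by abel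
      rw [this, T1_aux3, zero_add]

theorem gtree_cut {S : Finset Pt} {E : Finset (Sym2 Pt)} (h : GTree S E) {a : Sym2 Pt} (ha : a ∈ E) :
    ∃ χ : Pt → ZMod 2, ∀ z w, s(z, w) ∈ E → (χ z + χ w = if s(z, w) = a then 1 else 0) := by
  induction h with
  | single z => simp at ha
  | leaf S E x q hT hx hp ih =>
    classical
    have hnE : s(x, x + dir q) ∉ E := by
      intro hE
      exact hp ((gtree_mem hT hE).1 _ (Sym2.mem_mk_right _ _))
    have hE : ∀ z w, s(z, w) ∈ E → z ≠ x + dir q ∧ w ≠ x + dir q := by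
      intro z w hzw
      have h1 := (gtree_mem hT hzw).1
      exact ⟨fun h => hp (h ▸ h1 z (Sym2.mem_mk_left _ _)), fun h => hp (h ▸ h1 w (Sym2.mem_mk_right _ _))⟩
    have hne : x ≠ x + dir q := fun h => hp (h ▸ hx)
    by_cases hae : a = s(x, x + dir q)
    · refine ⟨fun z => if z = x + dir q then 1 else 0, ?_⟩
      intro z w hzw
      rcases Finset.mem_insert.mp hzw with hzw | hzw
      · rw [if_pos (hzw.trans hae.symm)]
        rcases Sym2.eq_iff.mp hzw with ⟨h3, h4⟩ | ⟨h3, h4⟩
        · simp only [h3, h4, if_neg hne]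
          simp
        · simp only [h3, h4, if_neg hne]
          simp
      · obtain ⟨h1, h2⟩ := hE z w hzw
        have h3 : s(z, w) ≠ a := by
          intro h
          rw [h, hae] at hzw
          exact hnE hzw
        simp only [if_neg h1, if_neg h2, if_neg h3, add_zero]
    · have ha' : a ∈ E := by
        rcases Finset.mem_insert.mp ha with h | h
        · exact absurd h hae
        · exact h
      obtain ⟨χ, hχ⟩ := ih ha'
      refine ⟨fun z => if z = x + dir q then χ x else χ z, ?_⟩
      intro z w hzw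
      rcases Finset.mem_insert.mp hzw with hzw | hzw
      · have h0 : s(z, w) ≠ a := fun h => hae (h ▸ hzw)
        rw [if_neg h0]
        rcases Sym2.eq_iff.mp hzw with ⟨h3, h4⟩ | ⟨h3, h4⟩
        · simp only [h3, h4, if_neg hne, if_true]
          exact CharTwo.add_self_eq_zero _
        · simp only [h3, h4, if_neg hne, if_true]
          exact CharTwo.add_self_eq_zero _
      · obtain ⟨h1, h2⟩ := hE z w hzw
        simp only [if_neg h1, if_neg h2]
        exact hχ z w hzw

theorem cut_eval {E : Finset (Sym2 Pt)} {a : Sym2 Pt} (χ : Pt → ZMod 2)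
    (hχ : ∀ z w, s(z, w) ∈ E → (χ z + χ w = if s(z, w) = a then 1 else 0)) (g : GE) (hg : en g = a) {c : C1}
    (hc : ∀ g ∈ c.support, en g ∈ E) {z w : Pt} (hb : bd c = pt z + pt w) : χ z + χ w = c g := by
  classical
  let X : C0 →ₗ[ZMod 2] ZMod 2 := Finsupp.linearCombination (ZMod 2) χ
  have hX : ∀ y, X (pt y) = χ y := by
    intro y
    simp [X, pt]
  have h1 : X (bd c) = χ z + χ w := by
    rw [hb, map_add, hX, hX]
  have h2 : X (bd c) = c.sum (fun h b => b * (χ h.1 + χ (tgt h))) := by
    have h0 : bd c = c.sum (fun h b => b • (pt h.1 + pt (tgt h))) := Finsupp.linearCombination_apply _ _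
    rw [h0, Finsupp.sum, map_sum]
    rw [Finsupp.sum]
    refine Finset.sum_congr rfl ?_
    intro h _
    rw [map_smul, map_add, hX, hX, smul_eq_mul]
  rw [← h1, h2, Finsupp.sum]
  have h3 : ∀ h ∈ c.support, c h * (χ h.1 + χ (tgt h)) = if h = g then c h else 0 := by
    intro h hh
    have h4 := hχ h.1 (tgt h) (hc h hh)
    rw [h4]
    by_cases hhg : h = g
    · subst hhg
      have : s(h.1, tgt h) = a := hg
      rw [if_pos this, if_pos rfl, mul_one]
    · have : s(h.1, tgt h) ≠ a := fun h5 => hhg (en_inj h g (by rw [hg]; exact h5))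
      rw [if_neg this, if_neg hhg, mul_zero]
  rw [Finset.sum_congr rfl h3, Finset.sum_ite_eq']
  by_cases hgs : g ∈ c.support
  · rw [if_pos hgs]
  · rw [if_neg hgs]
    exact (Finsupp.notMem_support_iff.mp hgs).symm

end QPl
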