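import Pool.Agent.Lib.MP_d3a5e5_co.T1

set_option autoImplicit false

namespace QPl

open Finsupp SimpleGraph

abbrev Cor := Pt × Fin 4

open Classical in
noncomputable def sg (E : Finset (Sym2 Pt)) (c : Cor) : Cor :=
  if s(c.1, c.1 + dir (c.2 + 1)) ∈ E then (c.1 + dir (c.2 + 1), c.2 + 3) else (c.1, c.2 + 1)

theorem sg_mem {S : Finset Pt} {E : Finset (Sym2 Pt)} (h : GTree S E) {c : Cor} (hc : c.1 ∈ S) : (sg E c).1 ∈ S := by
  unfold sg
  split_ifs with h1
  · exact (gtree_mem h h1).1 _ (Sym2.mem_mk_right _ _)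
  · exact hc

theorem T2_aux1 (a b : Fin 4) (h : a + 3 = b + 1) : b + 1 = a + 1 + 2 := by
  revert a b; decide

theorem T2_aux2 (j : Fin 4) : j + 3 + 1 = j := by revert j; decide

theorem T2_aux3 (j : Fin 4) : j + 3 + 3 = j + 2 := by revert j; decide

theorem T2_aux4 (j : Fin 4) : j + 2 + 1 = j + 3 := by revert j; decide

theorem T2_aux5 (j : Fin 4) : j + 1 + 1 = j + 2 := by revert j; decide

theorem T2_aux6 (j : Fin 4) : j + 1 + 3 = j := by revert j; decide

theorem T2_aux7 (j : Fin 4) : j + 3 ≠ j + 2 ∧ j ≠ j + 2 ∧ j + 1 ≠ j + 2 := by revert j; decide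

theorem T2_aux8 (j i : Fin 4) : i = j + 2 ∨ i = j + 3 ∨ i = j ∨ i = j + 1 := by revert j i; decide

theorem T2_aux10 (j : Fin 4) : j + 1 + 1 + 1 = j + 3 := by revert j; decide

theorem T2_aux9 (i j : Fin 4) (h : i + 1 = j) : i = j + 3 := by revert i j; decide

theorem sg_inj {S : Finset Pt} {E : Finset (Sym2 Pt)} (h : GTree S E) {c c' : Cor} (hcc : sg E c = sg E c') : c = c' := by
  have key : ∀ a b : Cor, s(a.1, a.1 + dir (a.2 + 1)) ∈ E → s(b.1, b.1 + dir (b.2 + 1)) ∉ E →
      ¬ ((a.1 + dir (a.2 + 1), a.2 + 3) : Cor) = (b.1, b.2 + 1) := by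
    intro a b ha hb hab
    have h1 : a.1 + dir (a.2 + 1) = b.1 := congrArg Prod.fst hab
    have h2 : a.2 + 3 = b.2 + 1 := congrArg Prod.snd hab
    apply hb
    rw [T2_aux1 _ _ h2, ← h1, dir_opp, Sym2.eq_swap]
    exact ha
  unfold sg at hcc
  split_ifs at hcc with h1 h2 h2
  · have e1 : c.1 + dir (c.2 + 1) = c'.1 + dir (c'.2 + 1) := congrArg Prod.fst hcc
    have e2 : c.2 + 3 = c'.2 + 3 := congrArg Prod.snd hcc
    have e3 : c.2 = c'.2 := add_right_cancel e2
    rw [e3] at e1
    exact Prod.ext (add_right_cancel e1) e3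
  · exact absurd hcc (key c c' h1 h2)
  · exact absurd hcc.symm (key c' c h2 h1)
  · have e1 : c.1 = c'.1 := (Prod.mk.inj hcc).1
    have e2 : c.2 + 1 = c'.2 + 1 := (Prod.mk.inj hcc).2
    exact Prod.ext e1 (add_right_cancel e2)

/-- reachability along a function -/
def T2_R (f : Cor → Cor) (a b : Cor) : Prop := ∃ n : ℕ, f^[n] a = b

theorem T2_R_refl (f : Cor → Cor) (a : Cor) : T2_R f a a := ⟨0, rfl⟩

theorem T2_R_step {f : Cor → Cor} {a b : Cor} (h : f a = b) : T2_R f a b := ⟨1, h⟩

theorem T2_R_trans {f : Cor → Cor} {a b c : Cor} (h1 : T2_R f a b) (h2 : T2_R f b c) : T2_R f a c := by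
  obtain ⟨n, hn⟩ := h1
  obtain ⟨m, hm⟩ := h2
  exact ⟨m + n, by rw [Function.iterate_add_apply, hn, hm]⟩

theorem T2_single (z : Pt) (i j : Fin 4) : T2_R (sg ∅) (z, i) (z, j) := by
  have h1 : ∀ k : Fin 4, sg ∅ (z, k) = (z, k + 1) := by
    intro k
    unfold sg
    simp
  have h2 : ∀ k : Fin 4, T2_R (sg ∅) (z, k) (z, k + 1) := fun k => T2_R_step (h1 k)
  rcases T2_aux8 i j with h | h | h | h
  · rw [h]
    have := T2_R_trans (h2 i) (h2 (i + 1))
    rwa [T2_aux5] at this
  · rw [h]
    have := T2_R_trans (T2_R_trans (h2 i) (h2 (i + 1))) (h2 (i + 1 + 1))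
    rwa [T2_aux10] at this
  · rw [h]
    exact T2_R_refl _ _
  · rw [h]
    exact h2 i

theorem sg_trans {S : Finset Pt} {E : Finset (Sym2 Pt)} (h : GTree S E) {c c' : Cor} (hc : c.1 ∈ S) (hc' : c'.1 ∈ S) :
    ∃ n : ℕ, (sg E)^[n] c = c' := by
  change T2_R (sg E) c c'
  induction h generalizing c c' with
  | single z =>
    rw [Finset.mem_singleton] at hc hc'
    obtain ⟨c1, c2⟩ := c
    obtain ⟨d1, d2⟩ := c'
    simp only at hc hc'
    rw [hc, hc']
    exact T2_single z c2 d2
  | leaf S E z j hT hz hp ih =>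
    set w : Pt := z + dir j with hw
    set E' := insert s(z, w) E with hE'
    have hwz : w + dir (j + 2) = z := dir_opp z j
    have hnE : ∀ y, s(w, y) ∉ E := by
      intro y hE
      exact hp ((gtree_mem hT hE).1 _ (Sym2.mem_mk_left _ _))
    have hzw : z ≠ w := fun h => hp (h ▸ hz)

    have v1 : sg E' (z, j + 3) = (w, j + 2) := by
      unfold sg
      have : s((z, j + 3).1, (z, j + 3).1 + dir ((z, j + 3).2 + 1)) ∈ E' := by
        simp only [T2_aux2]
        exact Finset.mem_insert_self _ _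
      rw [if_pos this]
      simp only [T2_aux2, T2_aux3]
      rfl
    have v0 : ∀ i : Fin 4, i + 1 ≠ j + 2 → sg E' (w, i) = (w, i + 1) := by
      intro i hi
      unfold sg
      rw [if_neg]
      intro hmem
      rcases Finset.mem_insert.mp hmem with hmem | hmem
      · rcases Sym2.eq_iff.mp hmem with ⟨h3, _⟩ | ⟨_, h4⟩
        · exact hzw h3.symm
        · have : w + dir (i + 1) = w + dir (j + 2) := by rw [hwz]; exact h4
          exact hi (dir_inj w _ _ this)
      · exact hnE _ hmem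
    have v2 : sg E' (w, j + 2) = (w, j + 3) := by
      rw [v0 _ (by rw [T2_aux4]; exact (T2_aux7 j).1), T2_aux4]
    have v3 : sg E' (w, j + 3) = (w, j) := by
      rw [v0 _ (by rw [T2_aux2]; exact (T2_aux7 j).2.1), T2_aux2]
    have v4 : sg E' (w, j) = (w, j + 1) := v0 _ (T2_aux7 j).2.2
    have v5 : sg E' (w, j + 1) = (z, j) := by
      unfold sg
      have : s((w, j + 1).1, (w, j + 1).1 + dir ((w, j + 1).2 + 1)) ∈ E' := by
        simp only [T2_aux5, hwz]
        rw [Sym2.eq_swap]
        exact Finset.mem_insert_self _ _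
      rw [if_pos this]
      simp only [T2_aux5, T2_aux6, hwz]
    have v6 : sg E (z, j + 3) = (z, j) := by
      unfold sg
      rw [if_neg]
      · simp only [T2_aux2]
      · simp only [T2_aux2]
        rw [Sym2.eq_swap]
        exact hnE z
    have v7 : ∀ a : Cor, a.1 ∈ S → a ≠ (z, j + 3) → sg E' a = sg E a := by
      intro a ha hne
      unfold sg
      by_cases hm : s(a.1, a.1 + dir (a.2 + 1)) ∈ E
      · rw [if_pos hm, if_pos (Finset.mem_insert_of_mem hm)]
      · rw [if_neg hm, if_neg]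
        intro hmem
        rcases Finset.mem_insert.mp hmem with hmem | hmem
        · rcases Sym2.eq_iff.mp hmem with ⟨h3, h4⟩ | ⟨h3, _⟩
          · rw [h3] at h4
            have h5 := dir_inj z _ _ h4
            exact hne (Prod.ext h3 (T2_aux9 _ _ h5))
          · exact hp (h3 ▸ ha)
        · exact hm hmem
    have r1 : T2_R (sg E') (z, j + 3) (w, j + 2) := T2_R_step v1
    have r2 : T2_R (sg E') (w, j + 2) (w, j + 3) := T2_R_step v2
    have r3 : T2_R (sg E') (w, j + 3) (w, j) := T2_R_step v3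
    have r4 : T2_R (sg E') (w, j) (w, j + 1) := T2_R_step v4
    have r5 : T2_R (sg E') (w, j + 1) (z, j) := T2_R_step v5
    have s2 := T2_R_trans r1 r2
    have s3 := T2_R_trans s2 r3
    have s4 := T2_R_trans s3 r4
    have s5 := T2_R_trans s4 r5
    have t4 := T2_R_trans r4 r5
    have t3 := T2_R_trans r3 t4
    have t2 := T2_R_trans r2 t3

    have from_z : ∀ i : Fin 4, T2_R (sg E') (z, j + 3) (w, i) := by
      intro i
      rcases T2_aux8 j i with h | h | h | h <;> rw [h]
      · exact r1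
      · exact s2
      · exact s3
      · exact s4
    have to_z : ∀ i : Fin 4, T2_R (sg E') (w, i) (z, j) := by
      intro i
      rcases T2_aux8 j i with h | h | h | h <;> rw [h]
      · exact t2
      · exact t3
      · exact t4
      · exact r5
    have stepS : ∀ a : Cor, a.1 ∈ S → T2_R (sg E') a (sg E a) := by
      intro a ha
      by_cases hne : a = (z, j + 3)
      · rw [hne, v6]
        exact s5
      · rw [← v7 a ha hne]
        exact T2_R_step rfl
    have iterS : ∀ n : ℕ, ∀ a : Cor, a.1 ∈ S → T2_R (sg E') a ((sg E)^[n] a) := by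
      intro n
      induction n with
      | zero => intro a _; exact T2_R_refl _ _
      | succ n ihn =>
        intro a ha
        rw [Function.iterate_succ_apply]
        exact T2_R_trans (stepS a ha) (ihn _ (sg_mem hT ha))
    have oldS : ∀ a b : Cor, a.1 ∈ S → b.1 ∈ S → T2_R (sg E') a b := by
      intro a b ha hb
      obtain ⟨n, hn⟩ := ih ha hb
      rw [← hn]
      exact iterS n a ha
    have A : ∃ a : Cor, a.1 ∈ S ∧ T2_R (sg E') c a := by
      rcases Finset.mem_insert.mp hc with h | h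
      · refine ⟨(z, j), hz, ?_⟩
        have : c = (w, c.2) := Prod.ext h rfl
        rw [this]
        exact to_z _
      · exact ⟨c, h, T2_R_refl _ _⟩
    have B : ∃ b : Cor, b.1 ∈ S ∧ T2_R (sg E') b c' := by
      rcases Finset.mem_insert.mp hc' with h | h
      · refine ⟨(z, j + 3), hz, ?_⟩
        have : c' = (w, c'.2) := Prod.ext h rfl
        rw [this]
        exact from_z _
      · exact ⟨c', h, T2_R_refl _ _⟩
    obtain ⟨a, ha, hca⟩ := A
    obtain ⟨b, hb, hbc⟩ := B
    exact T2_R_trans (T2_R_trans hca (oldS a b ha hb)) hbc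

end QPl
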