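import Pool.Agent.Lib.MP_d3a5e5_co.Defs

set_option autoImplicit false

namespace QPl

open Finsupp SimpleGraph

theorem cycle_index {α : Type} (A : Finset α) (s : α → α) (hA : A.Nonempty) (hs : ∀ a ∈ A, s a ∈ A)
    (hi : ∀ a ∈ A, ∀ b ∈ A, s a = s b → a = b) (ht : ∀ a ∈ A, ∀ b ∈ A, ∃ n : ℕ, s^[n] a = b) :
    ∃ ix : α → ℕ, (∀ a ∈ A, ix a < A.card) ∧ (∀ a ∈ A, ∀ b ∈ A, ix a = ix b → a = b) ∧
      ∀ a ∈ A, ix (s a) = ix a + 1 ∨ (ix a + 1 = A.card ∧ ix (s a) = 0) := by
  classical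
  obtain ⟨a0, ha0⟩ := hA
  have hiter : ∀ n : ℕ, s^[n] a0 ∈ A := by
    intro n
    induction n with
    | zero => exact ha0
    | succ n ih =>
      rw [Function.iterate_succ_apply']
      exact hs _ ih
  obtain ⟨n0, hn0⟩ := ht (s a0) (hs a0 ha0) a0 ha0
  rw [← Function.iterate_succ_apply] at hn0
  have hper : 0 < Function.minimalPeriod s a0 :=
    Function.minimalPeriod_pos_of_mem_periodicPts ⟨n0 + 1, Nat.succ_pos n0, hn0⟩
  set m := Function.minimalPeriod s a0 with hm
  have hinj := Function.iterate_injOn_Iio_minimalPeriod (f := s) (x := a0)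
  have hinj' : ∀ i j : ℕ, i < m → j < m → s^[i] a0 = s^[j] a0 → i = j := fun i j hi' hj' h => hinj hi' hj' h
  have hmod : ∀ n : ℕ, s^[n % m] a0 = s^[n] a0 := fun n => Function.iterate_mod_minimalPeriod_eq
  have hAim : A = (Finset.range m).image (fun j => s^[j] a0) := by
    ext b
    rw [Finset.mem_image]
    constructor
    · intro hb
      obtain ⟨n, hn⟩ := ht a0 ha0 b hb
      exact ⟨n % m, Finset.mem_range.2 (Nat.mod_lt n hper), (hmod n).trans hn⟩
    · rintro ⟨j, _, rfl⟩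
      exact hiter j
  have hcard : A.card = m := by
    rw [hAim, Finset.card_image_of_injOn, Finset.card_range]
    intro i hi' j hj' h
    exact hinj' i j (Finset.mem_range.1 hi') (Finset.mem_range.1 hj') h
  have hex : ∀ a : α, ∃ n : ℕ, n < m ∧ (a ∈ A → s^[n] a0 = a) := by
    intro a
    by_cases ha : a ∈ A
    · obtain ⟨n, hn⟩ := ht a0 ha0 a ha
      exact ⟨n % m, Nat.mod_lt n hper, fun _ => (hmod n).trans hn⟩
    · exact ⟨0, hper, fun h => absurd h ha⟩
  choose ix hix1 hix2 using hex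
  refine ⟨ix, fun a _ => ?_, fun a ha b hb h => ?_, fun a ha => ?_⟩
  · rw [hcard]
    exact hix1 a
  · rw [← hix2 a ha, ← hix2 b hb, h]
  · have h1 : s^[ix (s a)] a0 = s^[ix a + 1] a0 := by
      rw [hix2 (s a) (hs a ha), Function.iterate_succ_apply', hix2 a ha]
    by_cases h2 : ix a + 1 < m
    · left
      exact hinj' _ _ (hix1 (s a)) h2 h1
    · right
      have h3 : ix a + 1 = m := by
        have := hix1 a
        omega
      refine ⟨by rw [hcard]; exact h3, ?_⟩
      refine hinj' _ _ (hix1 (s a)) hper ?_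
      rw [h1, h3, ← hmod m, Nat.mod_self]

end QPl
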