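import Pool.Agent.Lib.MP_d3a5e5_co.T3

set_option autoImplicit false

namespace QPl

open Finsupp SimpleGraph

theorem T4_aux1 {α : Type} (A : Finset α) (s : α → α) (ix : α → ℕ) (hs : ∀ a ∈ A, s a ∈ A)
    (h1 : ∀ a ∈ A, ix a < A.card) (h2 : ∀ a ∈ A, ∀ b ∈ A, ix a = ix b → a = b)
    (h3 : ∀ a ∈ A, ix (s a) = ix a + 1 ∨ (ix a + 1 = A.card ∧ ix (s a) = 0))
    (f : α → ZMod 2) (a₁ a₂ : α) (hf : ∀ a ∈ A, a ≠ a₁ → a ≠ a₂ → f (s a) = f a) :
    ∀ (d : ℕ) (b b' : α), b ∈ A → b' ∈ A → ix b' = ix b + d →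
      (∀ c ∈ A, ix b ≤ ix c → ix c < ix b' → c ≠ a₁ ∧ c ≠ a₂) → f b = f b' := by
  intro d
  induction d with
  | zero =>
    intro b b' hb hb' hd _
    rw [h2 b hb b' hb' (by omega)]
  | succ d ih =>
    intro b b' hb hb' hd hno
    have h4 := hno b hb le_rfl (by omega)
    have h5 := h1 b' hb'
    have h6 : ix (s b) = ix b + 1 := by
      rcases h3 b hb with h7 | h7
      · exact h7
      · omega
    rw [← hf b hb h4.1 h4.2]
    exact ih (s b) b' (hs b hb) hb' (by omega) (fun c hc h7 h8 => hno c hc (by omega) h8)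

theorem T4_aux2 {α : Type} (A : Finset α) (s : α → α) (ix : α → ℕ) (hs : ∀ a ∈ A, s a ∈ A)
    (h1 : ∀ a ∈ A, ix a < A.card) (h2 : ∀ a ∈ A, ∀ b ∈ A, ix a = ix b → a = b)
    (h3 : ∀ a ∈ A, ix (s a) = ix a + 1 ∨ (ix a + 1 = A.card ∧ ix (s a) = 0))
    (f : α → ZMod 2) (a₁ a₂ : α) (hf : ∀ a ∈ A, a ≠ a₁ → a ≠ a₂ → f (s a) = f a) {b b' : α} (hb : b ∈ A)
    (hb' : b' ∈ A) (hle : ix b ≤ ix b') (hno : ∀ c ∈ A, ix b ≤ ix c → ix c < ix b' → c ≠ a₁ ∧ c ≠ a₂) :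
    f b = f b' :=
  T4_aux1 A s ix hs h1 h2 h3 f a₁ a₂ hf (ix b' - ix b) b b' hb hb' (by omega) hno

/-- going around the end of the cycle -/
theorem T4_aux3 {α : Type} (A : Finset α) (s : α → α) (ix : α → ℕ) (hs : ∀ a ∈ A, s a ∈ A)
    (h1 : ∀ a ∈ A, ix a < A.card) (h2 : ∀ a ∈ A, ∀ b ∈ A, ix a = ix b → a = b)
    (h3 : ∀ a ∈ A, ix (s a) = ix a + 1 ∨ (ix a + 1 = A.card ∧ ix (s a) = 0))
    (f : α → ZMod 2) (a₁ a₂ : α) (hf : ∀ a ∈ A, a ≠ a₁ → a ≠ a₂ → f (s a) = f a) {t : α} (ht : t ∈ A)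
    (hno' : ∀ x ∈ A, ix x < ix t → x ≠ a₁ ∧ x ≠ a₂) :
    ∀ (d : ℕ) (c : α), c ∈ A → A.card = ix c + d → (∀ x ∈ A, ix c ≤ ix x → x ≠ a₁ ∧ x ≠ a₂) → f c = f t := by
  intro d
  induction d with
  | zero =>
    intro c hc hd _
    have h4 := h1 c hc
    omega
  | succ d ih =>
    intro c hc hd hno
    have h4 := hno c hc le_rfl
    rw [← hf c hc h4.1 h4.2]
    rcases h3 c hc with h5 | h5
    · exact ih (s c) (hs c hc) (by omega) (fun x hx h6 => hno x hx (by omega))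
    · exact T4_aux2 A s ix hs h1 h2 h3 f a₁ a₂ hf (hs c hc) ht (by omega) (fun x hx _ h6 => hno' x hx h6)

theorem no_cross_sets {α : Type} (A : Finset α) (s : α → α) (ix : α → ℕ) (hs : ∀ a ∈ A, s a ∈ A)
    (h1 : ∀ a ∈ A, ix a < A.card) (h2 : ∀ a ∈ A, ∀ b ∈ A, ix a = ix b → a = b)
    (h3 : ∀ a ∈ A, ix (s a) = ix a + 1 ∨ (ix a + 1 = A.card ∧ ix (s a) = 0))
    (f : α → ZMod 2) (a₁ a₂ : α) (hf : ∀ a ∈ A, a ≠ a₁ → a ≠ a₂ → f (s a) = f a)
    {x u y v : α} (hx : x ∈ A) (hu : u ∈ A) (hy : y ∈ A) (hv : v ∈ A) (hxy : f x = f y) (huv : f u = f v) (hne : f x ≠ f u)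
    (i1 : ix x < ix u) (i2 : ix u < ix y) (i3 : ix y < ix v) : False := by
  have key : ∀ b ∈ A, ∀ b' ∈ A, ix b < ix b' → f b ≠ f b' → ∃ c ∈ A, ix b ≤ ix c ∧ ix c < ix b' ∧ (c = a₁ ∨ c = a₂) := by
    intro b hb b' hb' hlt hfb
    by_contra hcon
    push Not at hcon
    exact hfb (T4_aux2 A s ix hs h1 h2 h3 f a₁ a₂ hf hb hb' hlt.le hcon)
  obtain ⟨c1, hc1, j1, j1', k1⟩ := key x hx u hu i1 hne
  obtain ⟨c2, hc2, j2, j2', k2⟩ := key u hu y hy i2 (fun h => hne (hxy.trans h.symm))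
  obtain ⟨c3, hc3, j3, j3', k3⟩ := key y hy v hv i3 (fun h => hne (hxy.trans (h.trans huv.symm)))
  have e12 : c1 ≠ c2 := fun h => by rw [h] at j1'; omega
  have e23 : c2 ≠ c3 := fun h => by rw [h] at j2'; omega
  have e13 : c1 ≠ c3 := fun h => by rw [h] at j1'; omega
  rcases k1 with rfl | rfl <;> rcases k2 with rfl | rfl
  · exact e12 rfl
  · rcases k3 with rfl | rfl
    · exact e13 rfl
    · exact e23 rfl
  · rcases k3 with rfl | rfl
    · exact e23 rfl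
    · exact e13 rfl
  · exact e12 rfl

theorem no_cross_pair {α : Type} (A : Finset α) (s : α → α) (ix : α → ℕ) (hs : ∀ a ∈ A, s a ∈ A)
    (h1 : ∀ a ∈ A, ix a < A.card) (h2 : ∀ a ∈ A, ∀ b ∈ A, ix a = ix b → a = b)
    (h3 : ∀ a ∈ A, ix (s a) = ix a + 1 ∨ (ix a + 1 = A.card ∧ ix (s a) = 0))
    (f : α → ZMod 2) (a₁ a₂ : α) (ha1 : a₁ ∈ A) (ha2 : a₂ ∈ A) (hf : ∀ a ∈ A, a ≠ a₁ → a ≠ a₂ → f (s a) = f a) (hc : f (s a₁) ≠ f a₁)
    {b₁ b₂ : α} (hb1 : b₁ ∈ A) (hb2 : b₂ ∈ A) (hbb : f b₁ = f b₂) (n1 : b₁ ≠ a₁) (n2 : b₁ ≠ a₂) (n3 : b₂ ≠ a₁) (n4 : b₂ ≠ a₂) :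
    ¬ Cross (ix a₁) (ix a₂) (ix b₁) (ix b₂) := by
  have hsa := hs a₁ ha1
  have cb : ∀ {b b' : α}, b ∈ A → b' ∈ A → ix b ≤ ix b' →
      (∀ c ∈ A, ix b ≤ ix c → ix c < ix b' → c ≠ a₁ ∧ c ≠ a₂) → f b = f b' :=
    fun hb hb' hle hno => T4_aux2 A s ix hs h1 h2 h3 f a₁ a₂ hf hb hb' hle hno
  have wr : ∀ {c t : α}, c ∈ A → t ∈ A → (∀ x ∈ A, ix x < ix t → x ≠ a₁ ∧ x ≠ a₂) →
      (∀ x ∈ A, ix c ≤ ix x → x ≠ a₁ ∧ x ≠ a₂) → f c = f t := by
    intro c t hc ht h4 h5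
    have h6 := h1 c hc
    exact T4_aux3 A s ix hs h1 h2 h3 f a₁ a₂ hf ht h4 (A.card - ix c) c hc (by omega) h5

  have key : ∀ b ∈ A, b ≠ a₁ → b ≠ a₂ →
      (((min (ix a₁) (ix a₂) < ix b ∧ ix b < max (ix a₁) (ix a₂)) →
        f b = if ix a₁ < ix a₂ then f (s a₁) else f a₁) ∧
      ((ix b < min (ix a₁) (ix a₂) ∨ max (ix a₁) (ix a₂) < ix b) → ix a₁ ≠ ix a₂ →
        f b = if ix a₁ < ix a₂ then f a₁ else f (s a₁))) := by
    intro b hb _ _
    have hbn := h1 b hb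
    rcases lt_trichotomy (ix a₁) (ix a₂) with hlt | heq | hgt
    · rw [if_pos hlt, if_pos hlt, min_eq_left hlt.le, max_eq_right hlt.le]
      have ha2n := h1 a₂ ha2
      have hsa1 : ix (s a₁) = ix a₁ + 1 := by
        rcases h3 a₁ ha1 with h | h
        · exact h
        · omega
      refine ⟨fun h => ?_, fun h _ => ?_⟩
      · refine (cb hsa hb (by omega) ?_).symm
        intro c hc h4 h5
        exact ⟨fun h6 => by rw [h6] at h4; omega, fun h6 => by rw [h6] at h5; omega⟩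
      · rcases h with h | h
        · refine cb hb ha1 h.le ?_
          intro c hc h4 h5
          exact ⟨fun h6 => by rw [h6] at h5; omega, fun h6 => by rw [h6] at h5; omega⟩
        · refine wr hb ha1 ?_ ?_
          · intro x hx h4
            exact ⟨fun h6 => by rw [h6] at h4; omega, fun h6 => by rw [h6] at h4; omega⟩
          · intro x hx h4
            exact ⟨fun h6 => by rw [h6] at h4; omega, fun h6 => by rw [h6] at h4; omega⟩
    · rw [heq, min_self, max_self]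
      exact ⟨fun h => by omega, fun _ h => absurd rfl h⟩
    · rw [if_neg (by omega), if_neg (by omega), min_eq_right hgt.le, max_eq_left hgt.le]
      refine ⟨fun h => ?_, fun h _ => ?_⟩
      · refine cb hb ha1 h.2.le ?_
        intro c hc h4 h5
        exact ⟨fun h6 => by rw [h6] at h5; omega, fun h6 => by rw [h6] at h4; omega⟩
      · rcases h with h | h
        ·
          rcases h3 a₁ ha1 with h4 | h4
          · refine (wr hsa hb ?_ ?_).symm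
            · intro x hx h5
              exact ⟨fun h6 => by rw [h6] at h5; omega, fun h6 => by rw [h6] at h5; omega⟩
            · intro x hx h5
              exact ⟨fun h6 => by rw [h6] at h5; omega, fun h6 => by rw [h6] at h5; omega⟩
          · refine (cb hsa hb (by omega) ?_).symm
            intro c hc _ h5
            exact ⟨fun h6 => by rw [h6] at h5; omega, fun h6 => by rw [h6] at h5; omega⟩
        ·
          have hsa1 : ix (s a₁) = ix a₁ + 1 := by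
            rcases h3 a₁ ha1 with h | h
            · exact h
            · omega
          refine (cb hsa hb (by omega) ?_).symm
          intro c hc h4 h5
          exact ⟨fun h6 => by rw [h6] at h4; omega, fun h6 => by rw [h6] at h4; omega⟩
  have fin : ∀ b ∈ A, ∀ b' ∈ A, b ≠ a₁ → b ≠ a₂ → b' ≠ a₁ → b' ≠ a₂ → f b = f b' →
      (min (ix a₁) (ix a₂) < ix b ∧ ix b < max (ix a₁) (ix a₂)) →
      (ix b' < min (ix a₁) (ix a₂) ∨ max (ix a₁) (ix a₂) < ix b') → False := by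
    intro b hb b' hb' m1 m2 m3 m4 hbb' hin hout
    have h4 := (key b hb m1 m2).1 hin
    have hne : ix a₁ ≠ ix a₂ := by
      intro h5
      rw [h5, min_self, max_self] at hin
      omega
    have h5 := (key b' hb' m3 m4).2 hout hne
    rw [h4, h5] at hbb'
    by_cases h6 : ix a₁ < ix a₂
    · rw [if_pos h6, if_pos h6] at hbb'
      exact hc hbb'
    · rw [if_neg h6, if_neg h6] at hbb'
      exact hc hbb'.symm
  intro hcross
  unfold Cross at hcross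
  rcases le_total (ix b₁) (ix b₂) with h4 | h4
  · rw [min_eq_left h4, max_eq_right h4] at hcross
    rcases hcross with ⟨h5, h6, h7⟩ | ⟨h5, h6, h7⟩
    · exact fin b₁ hb1 b₂ hb2 n1 n2 n3 n4 hbb ⟨h5, h6⟩ (Or.inr h7)
    · exact fin b₂ hb2 b₁ hb1 n3 n4 n1 n2 hbb.symm ⟨h6, h7⟩ (Or.inl h5)
  · rw [min_eq_right h4, max_eq_left h4] at hcross
    rcases hcross with ⟨h5, h6, h7⟩ | ⟨h5, h6, h7⟩
    · exact fin b₂ hb2 b₁ hb1 n3 n4 n1 n2 hbb.symm ⟨h5, h6⟩ (Or.inr h7)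
    · exact fin b₁ hb1 b₂ hb2 n1 n2 n3 n4 hbb ⟨h6, h7⟩ (Or.inl h5)

end QPl
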