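import Pool.Agent.Lib.MP_d3a5e5_co.T5a

set_option autoImplicit false

namespace QPl

open Finsupp SimpleGraph

theorem T5_aux1 {L : Type} (P : L → Finset Pt) (hd : ∀ l m, l ≠ m → Disjoint (P l) (P m)) {l m : L} {z : Pt}
    (h1 : z ∈ P l) (h2 : z ∈ P m) : l = m := by
  by_contra h
  exact Finset.disjoint_left.mp (hd l m h) h1 h2

theorem T5_aux2 {L : Type} (P : L → Finset Pt) (hc : ∀ l, GConn (P l : Set Pt)) (hd : ∀ l m, l ≠ m → Disjoint (P l) (P m))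
    {A : Finset L} {S : Finset Pt} {E : Finset (Sym2 Pt)} (hT : GTree S E)
    (hS : ∀ z, z ∈ S ↔ ∃ l ∈ A, z ∈ P l)
    (hch : ∀ l ∈ A, ∀ z ∈ P l, ∀ w ∈ P l, ∃ c : C1, (∀ g ∈ c.support, en g ∈ E ∧ g.1 ∈ P l ∧ tgt g ∈ P l) ∧ bd c = pt z + pt w)
    (hone : ∀ l m, l ≠ m → ∀ z ∈ P l, ∀ w ∈ P m, ∀ z' ∈ P l, ∀ w' ∈ P m, s(z, w) ∈ E → s(z', w') ∈ E → z = z' ∧ w = w')
    {l m : L} (hl : l ∈ A) (hm : m ∉ A) {z w : Pt} (hz : z ∈ P l) (hw : w ∈ P m) (hzw : GAdj z w) :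
    ∃ (A' : Finset L) (S' : Finset Pt) (E' : Finset (Sym2 Pt)), GTree S' E' ∧ (∀ x, x ∈ A' ↔ x = m ∨ x ∈ A) ∧
    (∀ z, z ∈ S' ↔ ∃ l ∈ A', z ∈ P l) ∧
    (∀ l ∈ A', ∀ z ∈ P l, ∀ w ∈ P l, ∃ c : C1, (∀ g ∈ c.support, en g ∈ E' ∧ g.1 ∈ P l ∧ tgt g ∈ P l) ∧ bd c = pt z + pt w) ∧
    (∀ l m, l ≠ m → ∀ z ∈ P l, ∀ w ∈ P m, ∀ z' ∈ P l, ∀ w' ∈ P m, s(z, w) ∈ E' → s(z', w') ∈ E' → z = z' ∧ w = w') := by
  classical
  obtain ⟨q, hq⟩ := (GAdj_iff z w).mp hzw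
  have hzS : z ∈ S := (hS z).mpr ⟨l, hl, hz⟩
  have hPmS : ∀ y ∈ P m, y ∉ S := by
    intro y hy hyS
    obtain ⟨l', hl', hyl'⟩ := (hS y).mp hyS
    exact hm (T5_aux1 P hd hy hyl' ▸ hl')
  have hwS : w ∉ S := hPmS w hw
  have hT1 : GTree (insert w S) (insert s(z, w) E) := by
    have := GTree.leaf S E z q hT hzS (by rw [← hq]; exact hwS)
    rwa [← hq] at this
  have honly : ∀ y ∈ P m, y ∈ insert w S → y = w := by
    intro y hy hy'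
    rcases Finset.mem_insert.mp hy' with h | h
    · exact h
    · exact absurd h (hPmS y hy)
  obtain ⟨S', E', g1, g2, g3, g4, g5⟩ := grow hT1 (P m) (hc m) ⟨w, hw, Finset.mem_insert_self _ _⟩ (by
    intro y hy hy' x hx hx'
    refine ⟨0, by simp, ?_⟩
    rw [honly y hy hy', honly x hx hx', T1_aux3, map_zero])
  have hinE : ∀ l1 l2, l1 ≠ l2 → ∀ a ∈ P l1, ∀ b ∈ P l2, s(a, b) ∈ E' → s(a, b) = s(z, w) ∨ s(a, b) ∈ E := by
    intro l1 l2 h12 a ha b hb hab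
    rcases g4 a b hab with h | ⟨h1, h2⟩
    · exact Finset.mem_insert.mp h
    · exact absurd ((T5_aux1 P hd ha h1).trans (T5_aux1 P hd hb h2).symm) h12
  have hmix : ∀ l1 l2, l1 ≠ l2 → ∀ a ∈ P l1, ∀ b ∈ P l2, ∀ a' ∈ P l1, ∀ b' ∈ P l2, s(a, b) = s(z, w) → s(a', b') ∈ E → False := by
    intro l1 l2 h12 a ha b hb a' ha' b' hb' hab hab'
    have h1 : a' ∈ S := (gtree_mem hT hab').1 _ (Sym2.mem_mk_left _ _)
    have h2 : b' ∈ S := (gtree_mem hT hab').1 _ (Sym2.mem_mk_right _ _)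
    rcases Sym2.eq_iff.mp hab with ⟨h3, h4⟩ | ⟨h3, h4⟩
    · have : l2 = m := T5_aux1 P hd hb (h4 ▸ hw)
      exact hPmS b' (this ▸ hb') h2
    · have : l1 = m := T5_aux1 P hd ha (h3 ▸ hw)
      exact hPmS a' (this ▸ ha') h1
  refine ⟨insert m A, S', E', g1, fun x => Finset.mem_insert, ?_, ?_, ?_⟩
  · intro y
    rw [g2, Finset.mem_insert, hS]
    constructor
    · rintro ((h | ⟨l', h1, h2⟩) | h)
      · exact ⟨m, Finset.mem_insert_self _ _, h ▸ hw⟩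
      · exact ⟨l', Finset.mem_insert_of_mem h1, h2⟩
      · exact ⟨m, Finset.mem_insert_self _ _, h⟩
    · rintro ⟨l', h1, h2⟩
      rcases Finset.mem_insert.mp h1 with h | h
      · exact Or.inr (h ▸ h2)
      · exact Or.inl (Or.inr ⟨l', h, h2⟩)
  · intro l' hl' a ha b hb
    rcases Finset.mem_insert.mp hl' with h | h
    · subst h
      exact g5 a ha b hb
    · obtain ⟨c, h1, h2⟩ := hch l' h a ha b hb
      exact ⟨c, fun g hg => ⟨g3 (Finset.mem_insert_of_mem (h1 g hg).1), (h1 g hg).2⟩, h2⟩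
  · intro l1 l2 h12 a ha b hb a' ha' b' hb' hab hab'
    rcases hinE l1 l2 h12 a ha b hb hab with h | h
    · rcases hinE l1 l2 h12 a' ha' b' hb' hab' with h' | h'
      · rcases Sym2.eq_iff.mp (h.trans h'.symm) with h3 | ⟨h3, h4⟩
        · exact h3
        · exact absurd (T5_aux1 P hd ha (h3 ▸ hb')) h12
      · exact (hmix l1 l2 h12 a ha b hb a' ha' b' hb' h h').elim
    · rcases hinE l1 l2 h12 a' ha' b' hb' hab' with h' | h'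
      · exact (hmix l1 l2 h12 a' ha' b' hb' a ha b hb h' h).elim
      · exact hone l1 l2 h12 a ha b hb a' ha' b' hb' h h'

theorem T5_aux3 {L : Type} (P : L → Finset Pt) (hc : ∀ l, GConn (P l : Set Pt)) (hd : ∀ l m, l ≠ m → Disjoint (P l) (P m))
    (hfin : {l | (P l).Nonempty}.Finite) (l₀ : L)
    (hconn : ∀ l, (P l).Nonempty → (PG P).Reachable l₀ l) (n : ℕ) :
    ∀ (A : Finset L) (S : Finset Pt) (E : Finset (Sym2 Pt)) (_ : l₀ ∈ A) (_ : ({l | (P l).Nonempty} \ (A : Set L)).ncard ≤ n) (_ : GTree S E)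
    (_ : ∀ z, z ∈ S ↔ ∃ l ∈ A, z ∈ P l)
    (_ : ∀ l ∈ A, ∀ z ∈ P l, ∀ w ∈ P l, ∃ c : C1, (∀ g ∈ c.support, en g ∈ E ∧ g.1 ∈ P l ∧ tgt g ∈ P l) ∧ bd c = pt z + pt w)
    (_ : ∀ l m, l ≠ m → ∀ z ∈ P l, ∀ w ∈ P m, ∀ z' ∈ P l, ∀ w' ∈ P m, s(z, w) ∈ E → s(z', w') ∈ E → z = z' ∧ w = w'),
    ∃ (S : Finset Pt) (E : Finset (Sym2 Pt)), GTree S E ∧ (∀ z, z ∈ S ↔ ∃ l, z ∈ P l) ∧
      (∀ l, ∀ z ∈ P l, ∀ w ∈ P l, ∃ c : C1, (∀ g ∈ c.support, en g ∈ E ∧ g.1 ∈ P l ∧ tgt g ∈ P l) ∧ bd c = pt z + pt w) ∧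
      (∀ l m, l ≠ m → ∀ z ∈ P l, ∀ w ∈ P m, ∀ z' ∈ P l, ∀ w' ∈ P m, s(z, w) ∈ E → s(z', w') ∈ E → z = z' ∧ w = w') := by
  classical
  have hdone : ∀ (A : Finset L) (S : Finset Pt) (E : Finset (Sym2 Pt)) (_ : ∀ l, (P l).Nonempty → l ∈ A) (_ : GTree S E)
    (_ : ∀ z, z ∈ S ↔ ∃ l ∈ A, z ∈ P l)
    (_ : ∀ l ∈ A, ∀ z ∈ P l, ∀ w ∈ P l, ∃ c : C1, (∀ g ∈ c.support, en g ∈ E ∧ g.1 ∈ P l ∧ tgt g ∈ P l) ∧ bd c = pt z + pt w)
    (_ : ∀ l m, l ≠ m → ∀ z ∈ P l, ∀ w ∈ P m, ∀ z' ∈ P l, ∀ w' ∈ P m, s(z, w) ∈ E → s(z', w') ∈ E → z = z' ∧ w = w'),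
    ∃ (S : Finset Pt) (E : Finset (Sym2 Pt)), GTree S E ∧ (∀ z, z ∈ S ↔ ∃ l, z ∈ P l) ∧
      (∀ l, ∀ z ∈ P l, ∀ w ∈ P l, ∃ c : C1, (∀ g ∈ c.support, en g ∈ E ∧ g.1 ∈ P l ∧ tgt g ∈ P l) ∧ bd c = pt z + pt w) ∧
      (∀ l m, l ≠ m → ∀ z ∈ P l, ∀ w ∈ P m, ∀ z' ∈ P l, ∀ w' ∈ P m, s(z, w) ∈ E → s(z', w') ∈ E → z = z' ∧ w = w') := by
    intro A S E hA hT hS hch hone
    refine ⟨S, E, hT, ?_, ?_, hone⟩
    · intro z
      rw [hS]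
      exact ⟨fun ⟨l, _, h⟩ => ⟨l, h⟩, fun ⟨l, h⟩ => ⟨l, hA l ⟨z, h⟩, h⟩⟩
    · intro l z hz w hw
      exact hch l (hA l ⟨z, hz⟩) z hz w hw
  induction n with
  | zero =>
    intro A S E hl0 hn hT hS hch hone
    refine hdone A S E ?_ hT hS hch hone
    intro l hl
    by_contra hlA
    have h1 : ({l | (P l).Nonempty} \ (A : Set L)).ncard = 0 := by omega
    rw [Set.ncard_eq_zero (hfin.subset Set.diff_subset)] at h1
    have : l ∈ ({l | (P l).Nonempty} \ (A : Set L)) := ⟨hl, fun h => hlA (Finset.mem_coe.mp h)⟩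
    rw [h1] at this
    exact this
  | succ n ih =>
    intro A S E hl0 hn hT hS hch hone
    by_cases hA : ∀ l, (P l).Nonempty → l ∈ A
    · exact hdone A S E hA hT hS hch hone
    · push Not at hA
      obtain ⟨l, hl, hlA⟩ := hA
      obtain ⟨p⟩ := hconn l hl
      obtain ⟨d, _, hd1, hd2⟩ := p.exists_boundary_dart (A : Set L) (Finset.mem_coe.mpr hl0) (fun h => hlA (Finset.mem_coe.mp h))
      obtain ⟨_, z, hz, w, hw, hzw⟩ := d.adj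
      obtain ⟨A', S', E', k1, k2, k3, k4, k5⟩ := T5_aux2 P hc hd hT hS hch hone (Finset.mem_coe.mp hd1)
        (fun h => hd2 (Finset.mem_coe.mpr h)) hz hw hzw
      refine ih A' S' E' ((k2 _).mpr (Or.inr hl0)) ?_ k1 k3 k4 k5
      have h1 : ({l | (P l).Nonempty} \ (A' : Set L)) ⊂ ({l | (P l).Nonempty} \ (A : Set L)) := by
        refine ⟨?_, ?_⟩
        · rintro x ⟨hx1, hx2⟩
          exact ⟨hx1, fun h => hx2 (Finset.mem_coe.mpr ((k2 x).mpr (Or.inr (Finset.mem_coe.mp h))))⟩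
        · intro h
          have h2 : d.snd ∈ ({l | (P l).Nonempty} \ (A : Set L)) := ⟨⟨w, hw⟩, hd2⟩
          exact (h h2).2 (Finset.mem_coe.mpr ((k2 _).mpr (Or.inl rfl)))
      have h2 := Set.ncard_lt_ncard h1 (hfin.subset Set.diff_subset)
      omega

theorem spanning {L : Type} (P : L → Finset Pt) (hc : ∀ l, GConn (P l : Set Pt)) (hd : ∀ l m, l ≠ m → Disjoint (P l) (P m))
    (hfin : {l | (P l).Nonempty}.Finite) (l₀ : L) (h0 : (P l₀).Nonempty)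
    (hconn : ∀ l, (P l).Nonempty → (PG P).Reachable l₀ l) :
    ∃ (S : Finset Pt) (E : Finset (Sym2 Pt)), GTree S E ∧ (∀ z, z ∈ S ↔ ∃ l, z ∈ P l) ∧
      (∀ l, ∀ z ∈ P l, ∀ w ∈ P l, ∃ c : C1, (∀ g ∈ c.support, en g ∈ E ∧ g.1 ∈ P l ∧ tgt g ∈ P l) ∧ bd c = pt z + pt w) ∧
      (∀ l m, l ≠ m → ∀ z ∈ P l, ∀ w ∈ P m, ∀ z' ∈ P l, ∀ w' ∈ P m, s(z, w) ∈ E → s(z', w') ∈ E → z = z' ∧ w = w') := by
  classical
  obtain ⟨x, hx⟩ := h0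
  obtain ⟨S, E, g1, g2, g3, g4, g5⟩ := grow (GTree.single x) (P l₀) (hc l₀) ⟨x, hx, Finset.mem_singleton_self _⟩ (by
    intro y hy hy' w hw hw'
    rw [Finset.mem_singleton] at hy' hw'
    refine ⟨0, by simp, ?_⟩
    rw [hy', hw', T1_aux3, map_zero])
  refine T5_aux3 P hc hd hfin l₀ hconn _ {l₀} S E (Finset.mem_singleton_self _) le_rfl g1 ?_ ?_ ?_
  · intro z
    rw [g2, Finset.mem_singleton]
    constructor
    · rintro (h | h)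
      · exact ⟨l₀, Finset.mem_singleton_self _, h ▸ hx⟩
      · exact ⟨l₀, Finset.mem_singleton_self _, h⟩
    · rintro ⟨l, hl, h⟩
      rw [Finset.mem_singleton] at hl
      exact Or.inr (hl ▸ h)
  · intro l hl z hz w hw
    rw [Finset.mem_singleton] at hl
    subst hl
    exact g5 z hz w hw
  · intro l m hlm z hz w hw z' hz' w' hw' h h'
    rcases g4 z w h with h1 | ⟨h1, h2⟩
    · simp at h1
    · exact absurd ((T5_aux1 P hd hz h1).trans (T5_aux1 P hd hw h2).symm) hlm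

end QPl
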