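import Pool.Agent.Lib.MP_d3a5e5_co.T1

set_option autoImplicit false

namespace QPl

open Finsupp SimpleGraph

theorem T5a_aux1 {S P : Finset Pt} {x y : Pt} (hx : x ∈ P ∧ x ∈ S)
    (h : Relation.ReflTransGen (fun a b => GAdj a b ∧ b ∈ (P : Set Pt)) x y) :
    (y ∈ P ∧ y ∈ S) ∨ ∃ a b, a ∈ P ∧ a ∈ S ∧ b ∈ P ∧ b ∉ S ∧ GAdj a b := by
  induction h with
  | refl => exact Or.inl hx
  | tail _ hbc ih =>
    rename_i b c _
    rcases ih with ⟨h1, h2⟩ | h
    · by_cases hc : c ∈ S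
      · exact Or.inl ⟨hbc.2, hc⟩
      · exact Or.inr ⟨b, c, h1, h2, hbc.2, hc, hbc.1⟩
    · exact Or.inr h

theorem T5a_aux2 {E : Finset (Sym2 Pt)} {P : Finset Pt} {z w x : Pt}
    (h1 : ∃ c : C1, (∀ g ∈ c.support, en g ∈ E ∧ g.1 ∈ P ∧ tgt g ∈ P) ∧ bd c = pt x + pt z)
    (h2 : ∃ c : C1, (∀ g ∈ c.support, en g ∈ E ∧ g.1 ∈ P ∧ tgt g ∈ P) ∧ bd c = pt x + pt w) :
    ∃ c : C1, (∀ g ∈ c.support, en g ∈ E ∧ g.1 ∈ P ∧ tgt g ∈ P) ∧ bd c = pt z + pt w := by
  classical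
  obtain ⟨c, h1, h2'⟩ := h1
  obtain ⟨c', h1', h2''⟩ := h2
  refine ⟨c + c', ?_, ?_⟩
  · intro g hg
    rcases Finset.mem_union.mp (Finsupp.support_add hg) with hg | hg
    · exact h1 g hg
    · exact h1' g hg
  · rw [map_add, h2', h2'']
    have : pt x + pt z + (pt x + pt w) = (pt x + pt x) + (pt z + pt w) := by abel
    rw [this, T1_aux3, zero_add]

theorem T5a_aux3 (n : ℕ) : ∀ {S : Finset Pt} {E : Finset (Sym2 Pt)} (_ : GTree S E) (P : Finset Pt) (_ : (P \ S).card ≤ n)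
    (_ : GConn (P : Set Pt)) (_ : ∃ z ∈ P, z ∈ S)
    (_ : ∀ z ∈ P, z ∈ S → ∀ w ∈ P, w ∈ S → ∃ c : C1, (∀ g ∈ c.support, en g ∈ E ∧ g.1 ∈ P ∧ tgt g ∈ P) ∧ bd c = pt z + pt w),
    ∃ (S' : Finset Pt) (E' : Finset (Sym2 Pt)), GTree S' E' ∧ (∀ z, z ∈ S' ↔ z ∈ S ∨ z ∈ P) ∧ E ⊆ E' ∧
      (∀ z w, s(z, w) ∈ E' → s(z, w) ∈ E ∨ (z ∈ P ∧ w ∈ P)) ∧
      ∀ z ∈ P, ∀ w ∈ P, ∃ c : C1, (∀ g ∈ c.support, en g ∈ E' ∧ g.1 ∈ P ∧ tgt g ∈ P) ∧ bd c = pt z + pt w := by
  classical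
  induction n with
  | zero =>
    intro S E h P hn hP hne hch
    have hsub : P ⊆ S := by
      rw [← Finset.sdiff_eq_empty_iff_subset, ← Finset.card_eq_zero]
      omega
    refine ⟨S, E, h, ?_, subset_rfl, fun z w hzw => Or.inl hzw, fun z hz w hw => hch z hz (hsub hz) w hw (hsub hw)⟩
    intro z
    exact ⟨Or.inl, fun hz => hz.elim id (fun h => hsub h)⟩
  | succ n ih =>
    intro S E h P hn hP hne hch
    by_cases hsub : P ⊆ S
    · refine ⟨S, E, h, ?_, subset_rfl, fun z w hzw => Or.inl hzw, fun z hz w hw => hch z hz (hsub hz) w hw (hsub hw)⟩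
      intro z
      exact ⟨Or.inl, fun hz => hz.elim id (fun h => hsub h)⟩
    · obtain ⟨y, hyP, hyS⟩ := Finset.not_subset.mp hsub
      obtain ⟨x, hxP, hxS⟩ := hne
      have hxy := hP x hxP y hyP
      rcases T5a_aux1 ⟨hxP, hxS⟩ hxy with h1 | ⟨a, b, haP, haS, hbP, hbS, hab⟩
      · exact absurd h1.2 hyS
      · obtain ⟨q, hq⟩ := (GAdj_iff a b).mp hab
        have hT : GTree (insert b S) (insert s(a, b) E) := by
          have := GTree.leaf S E a q h haS (by rw [← hq]; exact hbS)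
          rwa [← hq] at this
        have hcard : (P \ insert b S).card ≤ n := by
          have h2 : P \ insert b S ⊂ P \ S := by
            rw [Finset.ssubset_iff_of_subset (Finset.sdiff_subset_sdiff subset_rfl (Finset.subset_insert _ _))]
            refine ⟨b, Finset.mem_sdiff.mpr ⟨hbP, hbS⟩, ?_⟩
            simp
          have h3 := Finset.card_lt_card h2
          omega
        have hedge : ∀ g ∈ (Finsupp.single (ge a q) (1 : ZMod 2)).support,
            en g ∈ insert s(a, b) E ∧ g.1 ∈ P ∧ tgt g ∈ P := by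
          intro g hg
          have hg' := Finsupp.support_single_subset hg
          rw [Finset.mem_singleton] at hg'
          have h4 : en g = s(a, b) := by rw [hg', en_ge, hq]
          refine ⟨by rw [h4]; exact Finset.mem_insert_self _ _, ?_⟩
          unfold en at h4
          rcases Sym2.eq_iff.mp h4 with ⟨h5, h6⟩ | ⟨h5, h6⟩
          · rw [h5, h6]; exact ⟨haP, hbP⟩
          · rw [h5, h6]; exact ⟨hbP, haP⟩
        have key : ∀ y ∈ P, y ∈ insert b S → ∃ c : C1, (∀ g ∈ c.support, en g ∈ insert s(a, b) E ∧ g.1 ∈ P ∧ tgt g ∈ P) ∧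
            bd c = pt a + pt y := by
          intro y hyP hy
          rcases Finset.mem_insert.mp hy with hy | hy
          · exact ⟨Finsupp.single (ge a q) 1, hedge, T1_aux1 a y q (by rw [hy, hq])⟩
          · obtain ⟨c, h1, h2⟩ := hch a haP haS y hyP hy
            exact ⟨c, fun g hg => ⟨Finset.mem_insert_of_mem (h1 g hg).1, (h1 g hg).2⟩, h2⟩
        obtain ⟨S', E', g1, g2, g3, g4, g5⟩ := ih hT P hcard hP ⟨b, hbP, Finset.mem_insert_self _ _⟩
          (fun z hz hz' w hw hw' => T5a_aux2 (key z hz hz') (key w hw hw'))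
        refine ⟨S', E', g1, ?_, (Finset.subset_insert _ _).trans g3, ?_, g5⟩
        · intro z
          rw [g2, Finset.mem_insert]
          constructor
          · rintro ((h | h) | h)
            · exact Or.inr (h ▸ hbP)
            · exact Or.inl h
            · exact Or.inr h
          · rintro (h | h)
            · exact Or.inl (Or.inr h)
            · exact Or.inr h
        · intro z w hzw
          rcases g4 z w hzw with h | h
          · rcases Finset.mem_insert.mp h with h | h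
            · right
              rcases Sym2.eq_iff.mp h with ⟨h5, h6⟩ | ⟨h5, h6⟩
              · rw [h5, h6]; exact ⟨haP, hbP⟩
              · rw [h5, h6]; exact ⟨hbP, haP⟩
            · exact Or.inl h
          · exact Or.inr h

theorem grow {S : Finset Pt} {E : Finset (Sym2 Pt)} (h : GTree S E) (P : Finset Pt) (hP : GConn (P : Set Pt)) (hne : ∃ z ∈ P, z ∈ S)
    (hch : ∀ z ∈ P, z ∈ S → ∀ w ∈ P, w ∈ S → ∃ c : C1, (∀ g ∈ c.support, en g ∈ E ∧ g.1 ∈ P ∧ tgt g ∈ P) ∧ bd c = pt z + pt w) :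
    ∃ (S' : Finset Pt) (E' : Finset (Sym2 Pt)), GTree S' E' ∧ (∀ z, z ∈ S' ↔ z ∈ S ∨ z ∈ P) ∧ E ⊆ E' ∧
      (∀ z w, s(z, w) ∈ E' → s(z, w) ∈ E ∨ (z ∈ P ∧ w ∈ P)) ∧
      ∀ z ∈ P, ∀ w ∈ P, ∃ c : C1, (∀ g ∈ c.support, en g ∈ E' ∧ g.1 ∈ P ∧ tgt g ∈ P) ∧ bd c = pt z + pt w := by
  classical
  exact T5a_aux3 _ h P le_rfl hP hne hch

end QPl
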