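import Pool.Agent.Lib.MP_d3a5e5_co.Defs2

set_option autoImplicit false

namespace QPl

open Finsupp SimpleGraph

theorem X1a_aux_char {V : Type} (G : SimpleGraph V) (C : Set V) (u v : V) :
    s(u, v) ∈ cutE G C ↔ G.Adj u v ∧ ((u ∈ C ∧ v ∉ C) ∨ (v ∈ C ∧ u ∉ C)) := by
  constructor
  · rintro ⟨he, x, y, hxy, hx, hy⟩
    refine ⟨he, ?_⟩
    rcases Sym2.eq_iff.1 hxy with ⟨rfl, rfl⟩ | ⟨rfl, rfl⟩
    · exact Or.inl ⟨hx, hy⟩
    · exact Or.inr ⟨hx, hy⟩
  · rintro ⟨he, ⟨hu, hv⟩ | ⟨hv, hu⟩⟩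
    · exact ⟨he, u, v, rfl, hu, hv⟩
    · exact ⟨he, v, u, Sym2.eq_swap, hv, hu⟩

theorem X1a_aux_prop {V : Type} {G : SimpleGraph V} (hc : G.Connected) (P : V → Prop)
    (h : ∀ u v, G.Adj u v → (P u ↔ P v)) (u v : V) : P u ↔ P v := by
  obtain ⟨w⟩ := hc.preconnected u v
  induction w with
  | nil => exact Iff.rfl
  | cons hadj _ ih => exact (h _ _ hadj).trans ih

theorem cutE_compl {V : Type} (G : SimpleGraph V) (C : Set V) : cutE G Cᶜ = cutE G C := by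
  ext e
  induction e using Sym2.ind with
  | _ u v =>
    rw [X1a_aux_char, X1a_aux_char]
    simp only [Set.mem_compl_iff, not_not]
    tauto

theorem mem_cutE {V : Type} (G : SimpleGraph V) (C : Set V) {u v : V} (h : G.Adj u v) (hu : u ∈ C) (hv : v ∉ C) : s(u, v) ∈ cutE G C := by
  exact ⟨h, u, v, rfl, hu, hv⟩

theorem cut_corner {V : Type} (G : SimpleGraph V) {C D : Set V} (hC : (cutE G C).Finite) (hD : (cutE G D).Finite) :
    (cutE G (C ∩ D)).Finite ∧ (cutE G (Cᶜ ∩ Dᶜ)).Finite ∧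
      (cutE G (C ∩ D)).ncard + (cutE G (Cᶜ ∩ Dᶜ)).ncard ≤ (cutE G C).ncard + (cutE G D).ncard := by
  have h1 : cutE G (C ∩ D) ∪ cutE G (Cᶜ ∩ Dᶜ) ⊆ cutE G C ∪ cutE G D := by
    intro e
    induction e using Sym2.ind with
    | _ u v =>
      rw [Set.mem_union, Set.mem_union, X1a_aux_char, X1a_aux_char, X1a_aux_char, X1a_aux_char]
      simp only [Set.mem_inter_iff, Set.mem_compl_iff]
      tauto
  have h2 : cutE G (C ∩ D) ∩ cutE G (Cᶜ ∩ Dᶜ) ⊆ cutE G C ∩ cutE G D := by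
    intro e
    induction e using Sym2.ind with
    | _ u v =>
      rw [Set.mem_inter_iff, Set.mem_inter_iff, X1a_aux_char, X1a_aux_char, X1a_aux_char, X1a_aux_char]
      simp only [Set.mem_inter_iff, Set.mem_compl_iff]
      tauto
  have hCD := hC.union hD
  have hf1 : (cutE G (C ∩ D)).Finite := hCD.subset (Set.subset_union_left.trans h1)
  have hf2 : (cutE G (Cᶜ ∩ Dᶜ)).Finite := hCD.subset (Set.subset_union_right.trans h1)
  refine ⟨hf1, hf2, ?_⟩
  rw [← Set.ncard_union_add_ncard_inter _ _ hf1 hf2, ← Set.ncard_union_add_ncard_inter _ _ hC hD]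
  exact Nat.add_le_add (Set.ncard_le_ncard h1 hCD) (Set.ncard_le_ncard h2 (hC.inter_of_left _))

theorem cutE_inj {V : Type} {G : SimpleGraph V} (hc : G.Connected) {C D : Set V} (h : cutE G C = cutE G D) : C = D ∨ C = Dᶜ := by
  have key := X1a_aux_prop hc (fun x => (x ∈ C ↔ x ∈ D)) (by
    intro u v huv
    have h1 : s(u, v) ∈ cutE G C ↔ s(u, v) ∈ cutE G D := by rw [h]
    rw [X1a_aux_char, X1a_aux_char] at h1
    have h2 : ((u ∈ C ∧ v ∉ C) ∨ (v ∈ C ∧ u ∉ C)) ↔ ((u ∈ D ∧ v ∉ D) ∨ (v ∈ D ∧ u ∉ D)) :=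
      ⟨fun h3 => (h1.1 ⟨huv, h3⟩).2, fun h3 => (h1.2 ⟨huv, h3⟩).2⟩
    by_cases a : u ∈ C <;> by_cases b : v ∈ C <;> by_cases c : u ∈ D <;> by_cases d : v ∈ D <;>
      simp_all)
  obtain ⟨x₀⟩ := hc.nonempty
  by_cases h0 : (x₀ ∈ C ↔ x₀ ∈ D)
  · left
    ext x
    exact (key x₀ x).1 h0
  · right
    ext x
    have h1 : ¬ (x ∈ C ↔ x ∈ D) := fun h2 => h0 ((key x₀ x).2 h2)
    rw [Set.mem_compl_iff]
    tauto

theorem cutE_image {V : Type} {G : SimpleGraph V} (φ : G ≃g G) (C : Set V) : cutE G (φ '' C) = Sym2.map φ '' cutE G C := by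
  ext e
  constructor
  · rintro ⟨he, u, v, rfl, ⟨x, hx, rfl⟩, hv⟩
    refine ⟨s(x, φ.symm v), ?_, ?_⟩
    · refine mem_cutE G C ?_ hx ?_
      · have h1 : G.Adj (φ x) v := he
        rw [← φ.map_adj_iff]
        rw [RelIso.apply_symm_apply]
        exact h1
      · intro h1
        exact hv ⟨φ.symm v, h1, RelIso.apply_symm_apply φ v⟩
    · rw [Sym2.map_mk]
      exact congrArg (fun z => s(φ x, z)) (RelIso.apply_symm_apply φ v)
  · rintro ⟨e', ⟨he, x, y, rfl, hx, hy⟩, rfl⟩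
    rw [Sym2.map_mk]
    refine mem_cutE G _ ?_ ⟨x, hx, rfl⟩ ?_
    · exact φ.map_adj_iff.2 he
    · rintro ⟨z, hz, hzy⟩
      exact hy (φ.injective hzy ▸ hz)

/-- A nonempty proper subset of a connected graph has a cut edge. -/
theorem cutE_nonempty {V : Type} {G : SimpleGraph V} (hc : G.Connected) {C : Set V} (h : C.Nonempty) (h' : Cᶜ.Nonempty) : (cutE G C).Nonempty := by
  by_contra hne
  rw [Set.not_nonempty_iff_eq_empty] at hne
  obtain ⟨u, hu⟩ := h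
  obtain ⟨v, hv⟩ := h'
  have key := X1a_aux_prop hc (fun x => x ∈ C) (by
    intro x y hxy
    have h1 : s(x, y) ∉ cutE G C := by rw [hne]; exact Set.notMem_empty _
    rw [X1a_aux_char] at h1
    tauto) u v
  exact hv (key.1 hu)

theorem X1a_aux_walk {V : Type} {G : SimpleGraph V} {C D : Set V} {u v : V} (w : G.Walk u v)
    (hw : ∀ x ∈ w.support, x ∈ D) (huC : u ∈ C) (hvC : v ∉ C) :
    ∃ x y, G.Adj x y ∧ x ∈ D ∧ y ∈ D ∧ x ∈ C ∧ y ∉ C := by
  induction w with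
  | nil => exact absurd huC hvC
  | cons hadj p ih =>
    rename_i a b c
    have ha : a ∈ D := hw a (by simp)
    have hp : ∀ x ∈ p.support, x ∈ D := fun x hx => hw x (by rw [Walk.support_cons]; exact List.mem_cons_of_mem _ hx)
    by_cases hb : b ∈ C
    · exact ih hp hb hvC
    · exact ⟨a, b, hadj, ha, hp b p.start_mem_support, huC, hb⟩

/-- A connected set meeting `C` and its complement contains an edge of the cut. -/
theorem cutE_in_conn {V : Type} {G : SimpleGraph V} {C D : Set V} (hD : Conn G D) {u v : V} (hu : u ∈ D) (hv : v ∈ D) (huC : u ∈ C) (hvC : v ∉ C) :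
    ∃ x y, G.Adj x y ∧ x ∈ D ∧ y ∈ D ∧ x ∈ C ∧ y ∉ C := by
  obtain ⟨w, hw⟩ := hD u hu v hv
  exact X1a_aux_walk w hw huC hvC

end QPl
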