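import Pool.Agent.Lib.MP_d3a5e5_co.X1a

set_option autoImplicit false

namespace QPl

open Finsupp SimpleGraph

theorem Spl.compl {V : Type} {a b : Ultrafilter V} {C : Set V} (h : Spl a b C) : Spl a b Cᶜ := by
  unfold Spl at h ⊢
  rw [compl_compl]
  exact h.symm

theorem MinC.compl {V : Type} {G : SimpleGraph V} {a b : Ultrafilter V} {C : Set V} (h : MinC G a b C) : MinC G a b Cᶜ := by
  refine ⟨?_, h.spl.compl, ?_⟩
  · rw [cutE_compl]
    exact h.fin
  · intro D hD hs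
    rw [cutE_compl]
    exact h.min D hD hs

theorem X1b_spl_swap {V : Type} {a b : Ultrafilter V} {C : Set V} (h : Spl a b C) : Spl b a C := by
  rcases h with ⟨h1, h2⟩ | ⟨h1, h2⟩
  · exact Or.inr ⟨h2, h1⟩
  · exact Or.inl ⟨h2, h1⟩

theorem X1b_swap {V : Type} {G : SimpleGraph V} {a b : Ultrafilter V} {C : Set V} (h : MinC G a b C) : MinC G b a C :=
  ⟨h.fin, X1b_spl_swap h.spl, fun D hD hs => h.min D hD (X1b_spl_swap hs)⟩

/-- A subset `D` of `C` which is a union of components of `C` and belongs to the ultrafilter `a` is everything. -/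
theorem X1b_aux {V : Type} {G : SimpleGraph V} (hc : G.Connected) {a b : Ultrafilter V} {C D : Set V} (h : MinC G a b C)
    (hb : Cᶜ ∈ b) (ne' : Cᶜ.Nonempty) (hDC : D ⊆ C) (hcl : ∀ x ∈ D, ∀ y ∈ C, G.Adj x y → y ∈ D) (hD : D ∈ a) : C ⊆ D := by
  by_contra hne
  rw [Set.not_subset] at hne
  obtain ⟨v, hvC, hvD⟩ := hne
  have hsub : cutE G D ⊆ cutE G C := by
    rintro e ⟨he, x, y, rfl, hx, hy⟩
    refine ⟨he, x, y, rfl, hDC hx, fun hyC => hy (hcl x hx y hyC ?_)⟩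
    exact (SimpleGraph.mem_edgeSet G).1 he
  have hDb : Dᶜ ∈ b := Filter.mem_of_superset hb (Set.compl_subset_compl.2 hDC)
  have hle := h.min D (h.fin.subset hsub) (Or.inl ⟨hD, hDb⟩)
  have heq : cutE G D = cutE G C := Set.eq_of_subset_of_ncard_le hsub hle h.fin
  have h1 : (cutE G (C \ D)).Nonempty := by
    obtain ⟨z, hz⟩ := ne'
    exact cutE_nonempty hc ⟨v, hvC, hvD⟩ ⟨z, fun hz' => hz hz'.1⟩
  obtain ⟨e, he, x, y, hexy, hx, hy⟩ := h1
  subst hexy
  have hadj : G.Adj x y := (SimpleGraph.mem_edgeSet G).1 he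
  have hyC : y ∉ C := by
    intro hyC
    have hyD : y ∈ D := by
      by_contra hyD
      exact hy ⟨hyC, hyD⟩
    exact hx.2 (hcl y hyD x hx.1 hadj.symm)
  have h2 : s(x, y) ∈ cutE G D := by
    rw [heq]
    exact ⟨he, x, y, rfl, hx.1, hyC⟩
  obtain ⟨_, x', y', hxy', hx', hy'⟩ := h2
  rw [Sym2.eq_iff] at hxy'
  rcases hxy' with ⟨h3, h4⟩ | ⟨h3, h4⟩
  · exact hx.2 (by rw [h3]; exact hx')
  · exact hyC (by rw [h4]; exact hDC hx')

theorem X1b_conn {V : Type} {G : SimpleGraph V} (hc : G.Connected) {a b : Ultrafilter V} {C : Set V} (h : MinC G a b C)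
    (ha : C ∈ a) (hb : Cᶜ ∈ b) (ne' : Cᶜ.Nonempty) : Conn G C := by
  intro u hu v hv
  let D : Set V := {z | ∃ w : G.Walk u z, ∀ x ∈ w.support, x ∈ C}
  have hDC : D ⊆ C := by
    rintro z ⟨w, hw⟩
    exact hw z w.end_mem_support
  have huD : u ∈ D := ⟨SimpleGraph.Walk.nil, by simpa using hu⟩
  have hcl : ∀ x ∈ D, ∀ y ∈ C, G.Adj x y → y ∈ D := by
    rintro x ⟨w, hw⟩ y hy hadj
    refine ⟨w.concat hadj, fun z hz => ?_⟩
    rw [SimpleGraph.Walk.support_concat, List.mem_append, List.mem_singleton] at hz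
    rcases hz with hz | hz
    · exact hw z hz
    · rw [hz]; exact hy
  have hor : D ∈ a ∨ C \ D ∈ a := by
    rw [← Ultrafilter.union_mem_iff]
    exact Filter.mem_of_superset ha (fun x hx => by
      by_cases hxD : x ∈ D
      · exact Or.inl hxD
      · exact Or.inr ⟨hx, hxD⟩)
  rcases hor with hor | hor
  · exact X1b_aux hc h hb ne' hDC hcl hor hv
  · exfalso
    have hcl' : ∀ x ∈ C \ D, ∀ y ∈ C, G.Adj x y → y ∈ C \ D := by
      intro x hx y hy hadj
      refine ⟨hy, fun hyD => hx.2 (hcl y hyD x hx.1 hadj.symm)⟩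
    exact (X1b_aux hc h hb ne' Set.sdiff_subset hcl' hor hu).2 huD

theorem MinC.tight {V : Type} {G : SimpleGraph V} (hc : G.Connected) {a b : Ultrafilter V} (ha : NP a) (hb : NP b) {C : Set V}
    (h : MinC G a b C) : Tight G C := by
  have hne : C.Nonempty ∧ Cᶜ.Nonempty := by
    rcases h.spl with ⟨h1, h2⟩ | ⟨h1, h2⟩
    · exact ⟨(ha _ h1).nonempty, (hb _ h2).nonempty⟩
    · exact ⟨(hb _ h2).nonempty, (ha _ h1).nonempty⟩
  have hne2 : (Cᶜᶜ).Nonempty := by rw [compl_compl]; exact hne.1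
  refine ⟨hne.1, hne.2, h.fin, ?_, ?_⟩
  · rcases h.spl with ⟨h1, h2⟩ | ⟨h1, h2⟩
    · exact X1b_conn hc h h1 h2 hne.2
    · exact X1b_conn hc (X1b_swap h) h2 h1 hne.2
  · rcases h.spl with ⟨h1, h2⟩ | ⟨h1, h2⟩
    · exact X1b_conn hc (X1b_swap h.compl) h2 (by rw [compl_compl]; exact h1) hne2
    · exact X1b_conn hc h.compl h1 (by rw [compl_compl]; exact h2) hne2

/-- If `a` and `b` are separated by a finite cut then there is a minimal one. -/
theorem exists_MinC {V : Type} {G : SimpleGraph V} {a b : Ultrafilter V} {D : Set V} (hf : (cutE G D).Finite) (hs : Spl a b D) :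
    ∃ C, MinC G a b C := by
  classical
  have hex : ∃ n : ℕ, ∃ C : Set V, (cutE G C).Finite ∧ Spl a b C ∧ (cutE G C).ncard = n := ⟨_, D, hf, hs, rfl⟩
  obtain ⟨C, hC1, hC2, hC3⟩ := Nat.find_spec hex
  refine ⟨C, hC1, hC2, fun E hE hsE => ?_⟩
  rw [hC3]
  exact Nat.find_min' hex ⟨E, hE, hsE, rfl⟩

end QPl
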