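import Pool.Agent.Lib.MP_d3a5e5_co.X1a
import Pool.Agent.Lib.MP_d3a5e5_co.D4

set_option autoImplicit false

namespace QPl

open Finsupp SimpleGraph

theorem X1c_out {V : Type} (e : Sym2 V) : (Quot.out e).1 ∈ e := by
  have h : s((Quot.out e).1, (Quot.out e).2) = e := Quot.out_eq e
  have h' := Sym2.mem_mk_left (Quot.out e).1 (Quot.out e).2
  rw [h] at h'
  exact h'

theorem X1c_mem_support {V : Type} {G : SimpleGraph V} {u v : V} (w : G.Walk u v) {e : Sym2 V} (he : e ∈ w.edges) {x : V}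
    (hx : x ∈ e) : x ∈ w.support := by
  induction e using Sym2.ind with
  | _ a b =>
    rw [Sym2.mem_iff] at hx
    rcases hx with rfl | rfl
    · exact w.fst_mem_support_of_mem_edges he
    · exact w.snd_mem_support_of_mem_edges he

theorem X1c_dist {V : Type} {G : SimpleGraph V} {u v : V} (w : G.Walk u v) {a b : V} (ha : a ∈ w.support) (hb : b ∈ w.support) :
    G.dist a b ≤ w.length := by
  classical
  induction w with
  | nil =>
    rw [SimpleGraph.Walk.support_nil, List.mem_singleton] at ha hb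
    subst ha
    subst hb
    simp
  | @cons u' v' w' h q ih =>
    have key : ∀ c ∈ (SimpleGraph.Walk.cons h q).support, G.dist u' c ≤ (SimpleGraph.Walk.cons h q).length := by
      intro c hc
      exact (SimpleGraph.dist_le ((SimpleGraph.Walk.cons h q).takeUntil c hc)).trans
        (SimpleGraph.Walk.length_takeUntil_le_length _ hc)
    by_cases ha' : a = u'
    · subst ha'
      exact key b hb
    by_cases hb' : b = u'
    · subst hb'
      rw [SimpleGraph.dist_comm]
      exact key a ha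
    rw [SimpleGraph.Walk.support_cons, List.mem_cons] at ha hb
    have h1 := ih (ha.resolve_left ha') (hb.resolve_left hb')
    rw [SimpleGraph.Walk.length_cons]
    omega

theorem X1c_same {V : Type} {G : SimpleGraph V} {D : Set V} {u v : V} (w : G.Walk u v) (h : ∀ e ∈ w.edges, e ∉ cutE G D) :
    ∀ x ∈ w.support, (x ∈ D ↔ u ∈ D) := by
  induction w with
  | nil =>
    intro x hx
    rw [SimpleGraph.Walk.support_nil, List.mem_singleton] at hx
    rw [hx]
  | @cons u' v' w' hadj q ih =>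
    intro x hx
    have h1 : s(u', v') ∉ cutE G D := h _ (by simp)
    have h2 : v' ∈ D ↔ u' ∈ D := by
      constructor
      · intro hv
        by_contra hu
        have h3 := mem_cutE G D hadj.symm hv hu
        rw [Sym2.eq_swap] at h3
        exact h1 h3
      · intro hu
        by_contra hv
        exact h1 (mem_cutE G D hadj hu hv)
    rw [SimpleGraph.Walk.support_cons, List.mem_cons] at hx
    rcases hx with rfl | hx
    · exact Iff.rfl
    · exact (ih (fun e he => h e (by rw [SimpleGraph.Walk.edges_cons]; exact List.mem_cons_of_mem _ he)) x hx).trans h2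

theorem X1c_cross {V : Type} {G : SimpleGraph V} {D : Set V} {u v : V} (w : G.Walk u v) {a b : V} (ha : a ∈ w.support)
    (hb : b ∈ w.support) (haD : a ∈ D) (hbD : b ∉ D) : ∃ e ∈ w.edges, e ∈ cutE G D := by
  by_contra hcon
  push Not at hcon
  have h1 := X1c_same w hcon a ha
  have h2 := X1c_same w hcon b hb
  exact hbD (h2.mpr (h1.mp haD))

theorem X1c_fiber {V : Type} {G : SimpleGraph V} (hc : G.Connected) (X : Set (Sym2 V)) : {C | cutE G C = X}.Finite := by
  rcases Set.eq_empty_or_nonempty {C | cutE G C = X} with h | ⟨C0, h0⟩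
  · rw [h]
    exact Set.finite_empty
  · refine (Set.toFinite {C0, C0ᶜ}).subset ?_
    intro C hC
    have h1 : cutE G C = cutE G C0 := by
      have h2 : cutE G C = X := hC
      have h3 : cutE G C0 = X := h0
      rw [h2, h3]
    rcases cutE_inj hc h1 with h | h
    · exact Or.inl h
    · exact Or.inr h

theorem tight_through {V : Type} {G : SimpleGraph V} {l : ℕ} (hc : G.Connected) (hf : ∀ v, (G.neighborSet v).Finite) (hcyc : CycGen G l) (K : ℕ)
    {S : Set (Sym2 V)} (hS : S.Finite) : {C | Tight G C ∧ (cutE G C).ncard ≤ K ∧ (cutE G C ∩ S).Nonempty}.Finite := by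
  set U : Set (Sym2 V) := ⋃ e ∈ S, EB G (Bl G (Quot.out e).1 (1 + K * (l + 1))) with hU
  have hUf : U.Finite := hS.biUnion (fun e _ => EB_finite G (Bl_finite hc hf _ _))
  have hfin : (⋃ X ∈ (𝒫 U), {C | cutE G C = X}).Finite := hUf.powerset.biUnion (fun X _ => X1c_fiber hc X)
  refine hfin.subset ?_
  rintro C ⟨hT, hK, e, heC, heS⟩
  rw [Set.mem_iUnion₂]
  refine ⟨cutE G C, ?_, rfl⟩
  intro f hf'
  rw [hU, Set.mem_iUnion₂]
  refine ⟨e, heS, hf'.1, ?_⟩
  intro v hv
  have h1 := cut_diam hc hcyc C hT.conn (fun u hu v hv => hT.conn' u hu v hv) hT.fin heC hf' (X1c_out e) hv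
  have h2 : (cutE G C).ncard * (l + 1) ≤ K * (l + 1) := Nat.mul_le_mul_right _ hK
  show G.dist (Quot.out e).1 v ≤ 1 + K * (l + 1)
  omega

theorem nn_finite {V : Type} {G : SimpleGraph V} {l : ℕ} (hc : G.Connected) (hf : ∀ v, (G.neighborSet v).Finite) (hcyc : CycGen G l) (K : ℕ)
    {C : Set V} (hC : Tight G C) : {D | Tight G D ∧ (cutE G D).ncard ≤ K ∧ ¬ Nested C D}.Finite := by
  set U : Set (Sym2 V) := ⋃ e ∈ cutE G C, EB G (Bl G (Quot.out e).1 l) with hU
  have hUf : U.Finite := hC.fin.biUnion (fun e _ => EB_finite G (Bl_finite hc hf _ _))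
  refine (tight_through hc hf hcyc K hUf).subset ?_
  rintro D ⟨hT, hK, hN⟩
  refine ⟨hT, hK, ?_⟩
  unfold Nested at hN
  push Not at hN
  obtain ⟨n1, n2, n3, n4⟩ := hN
  obtain ⟨x, hxC, hxD⟩ := Set.not_subset.mp n1
  obtain ⟨y, hyD, hyC⟩ := Set.not_subset.mp n2
  obtain ⟨z, hzC, hzD⟩ := Set.not_subset.mp n3
  obtain ⟨t, htD, htC⟩ := Set.not_subset.mp n4
  rw [Set.notMem_compl_iff] at hzD
  obtain ⟨x1, y1, hadj1, hx1D, hy1D, hx1C, hy1C⟩ := cutE_in_conn hT.conn hzD hyD hzC hyC
  obtain ⟨x2, y2, hadj2, hx2D, hy2D, hx2C, hy2C⟩ := cutE_in_conn hT.conn' (u := x) (v := t) hxD htD hxC htC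
  set A : Set (Sym2 V) := {e | e ∈ cutE G C ∧ ∀ v ∈ e, v ∈ D} with hA
  have hA1 : A.Nonempty := by
    refine ⟨s(x1, y1), mem_cutE G C hadj1 hx1C hy1C, ?_⟩
    intro v hv
    rw [Sym2.mem_iff] at hv
    rcases hv with rfl | rfl
    · exact hx1D
    · exact hy1D
  have hA2 : (cutE G C \ A).Nonempty := by
    refine ⟨s(x2, y2), mem_cutE G C hadj2 hx2C hy2C, ?_⟩
    intro h
    exact hx2D (h.2 x2 (Sym2.mem_mk_left x2 y2))
  obtain ⟨u, w, hwl, ⟨e1, he1, he1A⟩, e2, he2, he2C, he2A⟩ :=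
    cut_link hcyc C hC.conn (fun u hu v hv => hC.conn' u hu v hv) A (fun e he => he.1) hA1 hA2
  have hv2 : ∃ v ∈ e2, v ∉ D := by
    by_contra hcon
    push Not at hcon
    exact he2A ⟨he2C, hcon⟩
  obtain ⟨v2, hv2e, hv2D⟩ := hv2
  have hv1 := X1c_out e1
  have hv1D : (Quot.out e1).1 ∈ D := he1A.2 _ hv1
  have hs1 := X1c_mem_support w he1 hv1
  have hs2 := X1c_mem_support w he2 hv2e
  obtain ⟨f, hfw, hfD⟩ := X1c_cross w hs1 hs2 hv1D hv2D
  refine ⟨f, hfD, ?_⟩
  rw [hU, Set.mem_iUnion₂]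
  refine ⟨e1, he1A.1, hfD.1, ?_⟩
  intro v hv
  exact (X1c_dist w hs1 (X1c_mem_support w hfw hv)).trans hwl

end QPl
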