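import Pool.Agent.Lib.MP_d3a5e5_co.Defs2

set_option autoImplicit false

namespace QPl

open Finsupp SimpleGraph

theorem Nested.symm {V : Type} {C D : Set V} (h : Nested C D) : Nested D C := by
  unfold Nested at *
  rcases h with h | h | h | h
  · exact Or.inr (Or.inl h)
  · exact Or.inl h
  · exact Or.inr (Or.inr (Or.inl (fun x hx hC => h hC hx)))
  · exact Or.inr (Or.inr (Or.inr (fun x hx => by
      by_contra hD
      exact hx (h hD))))

theorem Nested.compl_right {V : Type} {C D : Set V} : Nested C Dᶜ ↔ Nested C D := by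
  unfold Nested
  rw [compl_compl]
  tauto

theorem Nested.compl_left {V : Type} {C D : Set V} : Nested Cᶜ D ↔ Nested C D := by
  constructor
  · intro h
    exact (Nested.compl_right.mp h.symm).symm
  · intro h
    exact (Nested.compl_right.mpr h.symm).symm

theorem Nested.image {V : Type} {C D : Set V} (φ : V ≃ V) : Nested (φ '' C) (φ '' D) ↔ Nested C D := by
  unfold Nested
  rw [← Set.image_compl_eq φ.bijective]
  simp only [Set.image_subset_image_iff φ.injective]

theorem nested_or {V : Type} {F C : Set V} (D : Set V) (h : Nested F C) : Nested F (C ∩ D) ∨ Nested F (Cᶜ ∩ Dᶜ) := by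
  unfold Nested at *
  rcases h with h | h | h | h
  · right; right; right; left
    intro x hx hx'
    exact hx'.1 (h hx)
  · left; right; left
    intro x hx
    exact h hx.1
  · left; right; right; left
    intro x hx hx'
    exact h hx hx'.1
  · right; right; left
    intro x hx
    exact h hx.1

theorem nested_and {V : Type} {F C D : Set V} (h : Nested F C) (h' : Nested F D) (hn : ¬ Nested C D) :
    Nested F (C ∩ D) ∧ Nested F (Cᶜ ∩ Dᶜ) := by
  unfold Nested at *
  push Not at hn
  obtain ⟨n1, n2, n3, n4⟩ := hn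
  rcases h with h | h | h | h <;> rcases h' with h' | h' | h' | h'
  · exact ⟨Or.inl fun x hx => ⟨h hx, h' hx⟩, Or.inr (Or.inr (Or.inl fun x hx hx' => hx'.1 (h hx)))⟩
  · exact absurd (h'.trans h) n2
  · exact ⟨Or.inr (Or.inr (Or.inl fun x hx hx' => h' hx hx'.2)), Or.inr (Or.inr (Or.inl fun x hx hx' => hx'.1 (h hx)))⟩
  · exact absurd (h'.trans h) n4
  · exact absurd (h.trans h') n1
  · refine ⟨Or.inr (Or.inl fun x hx => h hx.1), Or.inr (Or.inr (Or.inr fun x hx => ?_))⟩
    by_contra hF
    exact hx ⟨fun hC => hF (h hC), fun hD => hF (h' hD)⟩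
  · exact absurd (h.trans h') n3
  · exact ⟨Or.inr (Or.inl fun x hx => h hx.1), Or.inr (Or.inl fun x hx => h' hx.2)⟩
  · exact ⟨Or.inr (Or.inr (Or.inl fun x hx hx' => h hx hx'.1)), Or.inr (Or.inr (Or.inl fun x hx hx' => hx'.2 (h' hx)))⟩
  · exact absurd (fun x hC hD => h (h' hD) hC) n3
  · exact ⟨Or.inr (Or.inr (Or.inl fun x hx hx' => h hx hx'.1)), Or.inl fun x hx => ⟨h hx, h' hx⟩⟩
  · refine absurd (fun x hC => ?_) n1
    by_contra hD
    exact h (h' hD) hC
  · refine absurd (fun x hD => ?_) n4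
    by_contra hC
    exact hD (h' (h hC))
  · exact ⟨Or.inr (Or.inl fun x hx => h' hx.2), Or.inr (Or.inl fun x hx => h hx.1)⟩
  · refine absurd (fun x hD => ?_) n2
    by_contra hC
    exact h' (h hC) hD
  · refine ⟨Or.inr (Or.inr (Or.inr fun x hx => ?_)), Or.inr (Or.inl fun x hx => h hx.1)⟩
    by_contra hF
    refine hx ⟨?_, ?_⟩
    · by_contra hC
      exact hF (h hC)
    · by_contra hD
      exact hF (h' hD)

theorem nested_self {V : Type} (C D : Set V) : Nested C (C ∩ D) ∧ Nested C (Cᶜ ∩ Dᶜ) ∧ Nested D (C ∩ D) ∧ Nested D (Cᶜ ∩ Dᶜ) := by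
  unfold Nested
  refine ⟨Or.inr (Or.inl fun x hx => hx.1), Or.inr (Or.inr (Or.inl fun x hx hx' => hx'.1 hx)),
    Or.inr (Or.inl fun x hx => hx.2), Or.inr (Or.inr (Or.inl fun x hx hx' => hx'.2 hx))⟩

end QPl
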