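import Pool.Agent.Lib.MP_d3a5e5_co.X1b
import Pool.Agent.Lib.MP_d3a5e5_co.X1c
import Pool.Agent.Lib.MP_d3a5e5_co.X1d

set_option autoImplicit false

namespace QPl

open Finsupp SimpleGraph

theorem NN_finite {V : Type} {G : SimpleGraph V} {l : ℕ} (hc : G.Connected) (hf : ∀ v, (G.neighborSet v).Finite) (hcyc : CycGen G l) (K : ℕ)
    {C : Set V} (hC : Tight G C) : (NN G K C).Finite := by
  refine (nn_finite hc hf hcyc K hC).subset ?_
  rintro D ⟨⟨⟨a, b, ha, hb, h⟩, hK⟩, hn⟩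
  exact ⟨h.tight hc ha hb, hK, hn⟩

theorem corner_count {V : Type} {G : SimpleGraph V} {l : ℕ} (hc : G.Connected) (hf : ∀ v, (G.neighborSet v).Finite) (hcyc : CycGen G l) (K : ℕ)
    {C D : Set V} (hC : C ∈ DK G K) (hD : D ∈ DK G K) (hn : ¬ Nested C D) :
    (NN G K (C ∩ D)).ncard + (NN G K (Cᶜ ∩ Dᶜ)).ncard < (NN G K C).ncard + (NN G K D).ncard := by
  have hC' := hC
  have hD' := hD
  obtain ⟨⟨a, b, ha, hb, h⟩, hK⟩ := hC'
  obtain ⟨⟨a', b', ha', hb', h'⟩, hK'⟩ := hD'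
  have fC : (NN G K C).Finite := NN_finite hc hf hcyc K (h.tight hc ha hb)
  have fD : (NN G K D).Finite := NN_finite hc hf hcyc K (h'.tight hc ha' hb')
  have hU : NN G K (C ∩ D) ∪ NN G K (Cᶜ ∩ Dᶜ) ⊆ NN G K C ∪ NN G K D := by
    intro F hF
    by_contra hcon
    have hFK : F ∈ DK G K := by
      rcases hF with hF | hF
      · exact hF.1
      · exact hF.1
    have h1 : Nested C F := by
      by_contra hx
      exact hcon (Or.inl ⟨hFK, hx⟩)
    have h2 : Nested D F := by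
      by_contra hx
      exact hcon (Or.inr ⟨hFK, hx⟩)
    have h3 := nested_and h1.symm h2.symm hn
    rcases hF with hF | hF
    · exact hF.2 h3.1.symm
    · exact hF.2 h3.2.symm
  have hI : NN G K (C ∩ D) ∩ NN G K (Cᶜ ∩ Dᶜ) ⊆ NN G K C ∩ NN G K D := by
    rintro F ⟨hF1, hF2⟩
    refine ⟨⟨hF1.1, fun hx => ?_⟩, ⟨hF1.1, fun hx => ?_⟩⟩
    · rcases nested_or D hx.symm with h1 | h1
      · exact hF1.2 h1.symm
      · exact hF2.2 h1.symm
    · rcases nested_or C hx.symm with h1 | h1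
      · rw [Set.inter_comm] at h1
        exact hF1.2 h1.symm
      · rw [Set.inter_comm] at h1
        exact hF2.2 h1.symm
  have hCD : C ∈ NN G K D := ⟨hC, fun hx => hn hx.symm⟩
  have hCn : C ∉ NN G K (C ∩ D) ∪ NN G K (Cᶜ ∩ Dᶜ) := by
    rintro (hx | hx)
    · exact hx.2 (nested_self C D).1.symm
    · exact hx.2 (nested_self C D).2.1.symm
  have hss : NN G K (C ∩ D) ∪ NN G K (Cᶜ ∩ Dᶜ) ⊂ NN G K C ∪ NN G K D :=
    (Set.ssubset_iff_of_subset hU).2 ⟨C, Or.inr hCD, hCn⟩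
  have fU : (NN G K C ∪ NN G K D).Finite := fC.union fD
  have fA : (NN G K (C ∩ D)).Finite := fU.subset (Set.subset_union_left.trans hU)
  have fB : (NN G K (Cᶜ ∩ Dᶜ)).Finite := fU.subset (Set.subset_union_right.trans hU)
  have e1 := Set.ncard_union_add_ncard_inter (NN G K (C ∩ D)) (NN G K (Cᶜ ∩ Dᶜ)) fA fB
  have e2 := Set.ncard_union_add_ncard_inter (NN G K C) (NN G K D) fC fD
  have e3 := Set.ncard_lt_ncard hss fU
  have e4 := Set.ncard_le_ncard hI (fC.inter_of_left _)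
  omega

end QPl
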