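import Pool.Agent.Lib.MP_d3a5e5_co.X1e

set_option autoImplicit false

namespace QPl

open Finsupp SimpleGraph

theorem OptC.compl {V : Type} {G : SimpleGraph V} {K : ℕ} {a b : Ultrafilter V} {C : Set V} (h : OptC G K a b C) : OptC G K a b Cᶜ := by
  have e : NN G K Cᶜ = NN G K C := by
    ext D
    simp only [NN, Set.mem_setOf_eq, Nested.compl_left]
  refine ⟨h.1.compl, ?_, ?_⟩
  · rw [cutE_compl]
    exact h.2.1
  · rw [e]
    exact h.2.2

theorem X1f_aux_inter {V : Type} {a : Ultrafilter V} {S T : Set V} : S ∩ T ∈ a ↔ (S ∈ a ∧ T ∈ a) :=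
  Filter.inter_mem_iff (f := (a : Filter V))

theorem X1f_aux_inst {V : Type} {a b : Ultrafilter V} {S : Set V} :
    Spl a b S ↔ ((S ∈ a ∧ ¬ S ∈ b) ∨ (¬ S ∈ a ∧ S ∈ b)) := by
  unfold Spl
  rw [Ultrafilter.compl_mem_iff_notMem, Ultrafilter.compl_mem_iff_notMem]

theorem corner_opt {V : Type} {G : SimpleGraph V} {l : ℕ} (hc : G.Connected) (hf : ∀ v, (G.neighborSet v).Finite) (hcyc : CycGen G l) {K : ℕ}
    {a b a' b' : Ultrafilter V} (ha : NP a) (hb : NP b) (ha' : NP a') (hb' : NP b') {C D : Set V} (hC : OptC G K a b C) (hD : OptC G K a' b' D)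
    (hn : ¬ Nested C D) (h1 : Spl a b (C ∩ D)) (h2 : Spl a' b' (Cᶜ ∩ Dᶜ)) : False := by
  obtain ⟨f1, f2, f3⟩ := cut_corner G hC.1.fin hD.1.fin
  have m1 := hC.1.min _ f1 h1
  have m2 := hD.1.min _ f2 h2
  have M1 : MinC G a b (C ∩ D) := ⟨f1, h1, fun E hE hs => by
    have := hC.1.min E hE hs
    omega⟩
  have M2 : MinC G a' b' (Cᶜ ∩ Dᶜ) := ⟨f2, h2, fun E hE hs => by
    have := hD.1.min E hE hs
    omega⟩
  have o1 := hC.2.2 _ M1
  have o2 := hD.2.2 _ M2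
  have := corner_count hc hf hcyc K (C := C) (D := D) ⟨⟨a, b, ha, hb, hC.1⟩, hC.2.1⟩
    ⟨⟨a', b', ha', hb', hD.1⟩, hD.2.1⟩ hn
  omega

theorem corner_opt2 {V : Type} {G : SimpleGraph V} {l : ℕ} (hc : G.Connected) (hf : ∀ v, (G.neighborSet v).Finite) (hcyc : CycGen G l) {K : ℕ}
    {a b a' b' : Ultrafilter V} (ha : NP a) (hb : NP b) (ha' : NP a') (hb' : NP b') {C D : Set V} (hC : OptC G K a b C) (hD : OptC G K a' b' D)
    (hn : ¬ Nested C D) (h1 : Spl a b D) (h2 : Spl a' b' C) (h3 : Spl a b (C ∩ D)) (h4 : Spl a b (Cᶜ ∩ Dᶜ)) : False := by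
  obtain ⟨f1, f2, f3⟩ := cut_corner G hC.1.fin hD.1.fin
  have k1 := hC.1.min D hD.1.fin h1
  have k2 := hD.1.min C hC.1.fin h2
  have MD : MinC G a b D := ⟨hD.1.fin, h1, fun E hE hs => by
    have := hC.1.min E hE hs
    omega⟩
  have MC : MinC G a' b' C := ⟨hC.1.fin, h2, fun E hE hs => by
    have := hD.1.min E hE hs
    omega⟩
  have o1 := hC.2.2 _ MD
  have o2 := hD.2.2 _ MC
  have m1 := hC.1.min _ f1 h3
  have m2 := hC.1.min _ f2 h4
  have M1 : MinC G a b (C ∩ D) := ⟨f1, h3, fun E hE hs => by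
    have := hC.1.min E hE hs
    omega⟩
  have M2 : MinC G a b (Cᶜ ∩ Dᶜ) := ⟨f2, h4, fun E hE hs => by
    have := hC.1.min E hE hs
    omega⟩
  have o3 := hC.2.2 _ M1
  have o4 := hC.2.2 _ M2
  have := corner_count hc hf hcyc K (C := C) (D := D) ⟨⟨a, b, ha, hb, hC.1⟩, hC.2.1⟩
    ⟨⟨a', b', ha', hb', hD.1⟩, hD.2.1⟩ hn
  omega

theorem EK_nested {V : Type} {G : SimpleGraph V} {l : ℕ} (hc : G.Connected) (hf : ∀ v, (G.neighborSet v).Finite) (hcyc : CycGen G l) {K : ℕ}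
    {C D : Set V} (hC : C ∈ EK G K) (hD : D ∈ EK G K) : Nested C D := by
  obtain ⟨a, b, ha, hb, hC⟩ := hC
  obtain ⟨a', b', ha', hb', hD⟩ := hD
  by_contra hn
  have n2 : ¬ Nested Cᶜ D := fun h => hn (Nested.compl_left.1 h)
  have n3 : ¬ Nested C Dᶜ := fun h => hn (Nested.compl_right.1 h)
  have n4 : ¬ Nested Cᶜ Dᶜ := fun h => n2 (Nested.compl_right.1 h)
  have s1 := hC.1.spl
  have s2 := hD.1.spl
  have t1 := corner_opt hc hf hcyc ha hb ha' hb' hC hD hn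
  have t2 := corner_opt hc hf hcyc ha hb ha' hb' hC.compl hD n2
  have t3 := corner_opt hc hf hcyc ha hb ha' hb' hC hD.compl n3
  have t4 := corner_opt hc hf hcyc ha hb ha' hb' hC.compl hD.compl n4
  have t5 := corner_opt2 hc hf hcyc ha hb ha' hb' hC hD hn
  have t6 := corner_opt2 hc hf hcyc ha hb ha' hb' hC hD.compl n3
  simp only [X1f_aux_inst, X1f_aux_inter, Ultrafilter.compl_mem_iff_notMem, not_not] at s1 s2 t1 t2 t3 t4 t5 t6
  clear ha hb ha' hb' hC hD hn n2 n3 n4 hc hf hcyc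
  by_cases q1 : C ∈ a <;> by_cases q2 : C ∈ b <;> by_cases q3 : D ∈ a <;> by_cases q4 : D ∈ b <;>
    by_cases q5 : C ∈ a' <;> by_cases q6 : C ∈ b' <;> by_cases q7 : D ∈ a' <;> by_cases q8 : D ∈ b' <;>
    simp only [q1, q2, q3, q4, q5, q6, q7, q8, not_true_eq_false, not_false_iff, and_true, and_false, or_true, or_false,
      imp_false, true_and, false_and, true_or, false_or, false_imp_iff, true_imp_iff] at s1 s2 t1 t2 t3 t4 t5 t6

end QPl
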