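import Pool.Agent.Lib.MP_d3a5e5_co.X1f

set_option autoImplicit false

namespace QPl

open Finsupp SimpleGraph

theorem EK_compl {V : Type} {G : SimpleGraph V} {K : ℕ} {C : Set V} (hC : C ∈ EK G K) : Cᶜ ∈ EK G K := by
  obtain ⟨a, b, ha, hb, h⟩ := hC
  exact ⟨a, b, ha, hb, h.compl⟩

theorem X1g_NP {V : Type} {G : SimpleGraph V} (φ : G ≃g G) {a : Ultrafilter V} (ha : NP a) :
    NP (a.map φ) := by
  intro S hS hf
  have h1 : φ ⁻¹' S ∈ a := Ultrafilter.mem_map.mp hS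
  exact ha _ h1 (hf.preimage φ.injective.injOn)

theorem X1g_image_mem {V : Type} {G : SimpleGraph V} (φ : G ≃g G) (a : Ultrafilter V) (C : Set V) :
    φ '' C ∈ a.map φ ↔ C ∈ a := by
  rw [Ultrafilter.mem_map, Set.preimage_image_eq _ φ.injective]

theorem X1g_image_compl {V : Type} {G : SimpleGraph V} (φ : G ≃g G) (C : Set V) :
    (φ '' C)ᶜ = φ '' Cᶜ := (Set.image_compl_eq φ.bijective).symm

theorem X1g_Spl {V : Type} {G : SimpleGraph V} (φ : G ≃g G) {a b : Ultrafilter V} {C : Set V}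
    (h : Spl a b C) : Spl (a.map φ) (b.map φ) (φ '' C) := by
  unfold Spl at h ⊢
  rw [X1g_image_compl, X1g_image_mem, X1g_image_mem, X1g_image_mem, X1g_image_mem]
  exact h

theorem X1g_symm_image {V : Type} {G : SimpleGraph V} (φ : G ≃g G) (C : Set V) : φ '' (φ.symm '' C) = C := by
  rw [← Set.image_comp]
  have : (φ ∘ φ.symm : V → V) = id := by
    funext x
    simp
  rw [this, Set.image_id]

theorem X1g_symm_image' {V : Type} {G : SimpleGraph V} (φ : G ≃g G) (C : Set V) : φ.symm '' (φ '' C) = C := by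
  rw [← Set.image_comp]
  have : (φ.symm ∘ φ : V → V) = id := by
    funext x
    simp
  rw [this, Set.image_id]

theorem X1g_symm_map {V : Type} {G : SimpleGraph V} (φ : G ≃g G) (a : Ultrafilter V) :
    (a.map φ).map φ.symm = a := by
  rw [Ultrafilter.map_map]
  have : (φ.symm ∘ φ : V → V) = id := by
    funext x
    simp
  rw [this, Ultrafilter.map_id]

theorem X1g_cut {V : Type} {G : SimpleGraph V} (φ : G ≃g G) (C : Set V) :
    (cutE G (φ '' C)).ncard = (cutE G C).ncard := by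
  rw [cutE_image, Set.ncard_image_of_injective _ (Sym2.map.injective φ.injective)]

theorem X1g_cut_fin {V : Type} {G : SimpleGraph V} (φ : G ≃g G) {C : Set V} (h : (cutE G C).Finite) :
    (cutE G (φ '' C)).Finite := by
  rw [cutE_image]; exact h.image _

theorem X1g_MinC {V : Type} {G : SimpleGraph V} (φ : G ≃g G) {a b : Ultrafilter V} {C : Set V}
    (h : MinC G a b C) : MinC G (a.map φ) (b.map φ) (φ '' C) := by
  refine ⟨X1g_cut_fin φ h.fin, X1g_Spl φ h.spl, ?_⟩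
  intro D hD hs
  rw [X1g_cut, ← X1g_cut φ.symm D]
  apply h.min _ (X1g_cut_fin φ.symm hD)
  have := X1g_Spl φ.symm hs
  rwa [X1g_symm_map, X1g_symm_map] at this

theorem X1g_DK {V : Type} {G : SimpleGraph V} {K : ℕ} (φ : G ≃g G) {C : Set V}
    (h : C ∈ DK G K) : φ '' C ∈ DK G K := by
  obtain ⟨⟨a, b, ha, hb, h1⟩, h2⟩ := h
  exact ⟨⟨a.map φ, b.map φ, X1g_NP φ ha, X1g_NP φ hb, X1g_MinC φ h1⟩, by rw [X1g_cut]; exact h2⟩

theorem X1g_nested {V : Type} {G : SimpleGraph V} (φ : G ≃g G) (C D : Set V) :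
    Nested (φ '' C) (φ '' D) ↔ Nested C D := Nested.image φ.toEquiv

theorem X1g_NN {V : Type} {G : SimpleGraph V} {K : ℕ} (φ : G ≃g G) (C : Set V) :
    NN G K (φ '' C) = (fun D => φ '' D) '' NN G K C := by
  ext D
  constructor
  · rintro ⟨h1, h2⟩
    refine ⟨φ.symm '' D, ⟨X1g_DK φ.symm h1, ?_⟩, X1g_symm_image φ D⟩
    intro h3
    apply h2
    rw [← X1g_nested φ, X1g_symm_image] at h3
    exact h3
  · rintro ⟨D', ⟨h1, h2⟩, rfl⟩
    exact ⟨X1g_DK φ h1, fun h3 => h2 ((X1g_nested φ _ _).mp h3)⟩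

theorem X1g_NN_ncard {V : Type} {G : SimpleGraph V} {K : ℕ} (φ : G ≃g G) (C : Set V) :
    (NN G K (φ '' C)).ncard = (NN G K C).ncard := by
  rw [X1g_NN, Set.ncard_image_of_injective _ (Set.image_injective.mpr φ.injective)]

theorem EK_inv {V : Type} {G : SimpleGraph V} {K : ℕ} (φ : G ≃g G) {C : Set V} (hC : C ∈ EK G K) : φ '' C ∈ EK G K := by
  obtain ⟨a, b, ha, hb, h1, h2, h3⟩ := hC
  refine ⟨a.map φ, b.map φ, X1g_NP φ ha, X1g_NP φ hb, X1g_MinC φ h1, by rw [X1g_cut]; exact h2, ?_⟩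
  intro D hD
  rw [X1g_NN_ncard, ← X1g_NN_ncard φ.symm D]
  apply h3
  have := X1g_MinC φ.symm hD
  rwa [X1g_symm_map, X1g_symm_map] at this

theorem EK_tight {V : Type} {G : SimpleGraph V} (hc : G.Connected) {K : ℕ} {C : Set V} (hC : C ∈ EK G K) : Tight G C ∧ (cutE G C).ncard ≤ K := by
  obtain ⟨a, b, ha, hb, h⟩ := hC
  exact ⟨h.1.tight hc ha hb, h.2.1⟩

theorem EK_split {V : Type} {G : SimpleGraph V} {K : ℕ} {a b : Ultrafilter V} (ha : NP a) (hb : NP b) {D : Set V} (hD : MinC G a b D)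
    (hK : (cutE G D).ncard ≤ K) : ∃ C ∈ EK G K, MinC G a b C := by
  classical
  have hex : ∃ n, ∃ C, MinC G a b C ∧ (NN G K C).ncard = n := ⟨_, D, hD, rfl⟩
  obtain ⟨C, hC, hn⟩ := Nat.find_spec hex
  refine ⟨C, ⟨a, b, ha, hb, hC, (hC.min D hD.fin hD.spl).trans hK, ?_⟩, hC⟩
  intro E hE
  rw [hn]
  exact Nat.find_min' hex ⟨E, hE, rfl⟩

end QPl
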