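import Pool.Agent.Lib.MP_d3a5e5_co.X1a
import Pool.Agent.Lib.MP_d3a5e5_co.X1d
import Pool.Agent.Lib.MP_d3a5e5_co.D3

set_option autoImplicit false

namespace QPl

open Finsupp SimpleGraph

/-- The number of members of `S` strictly inside `C0`. -/
noncomputable def X2a_aux_rk {V : Type} (C0 : Set V) (S : Set (Set V)) : ℕ := {C | C ∈ S ∧ C ⊂ C0}.ncard

/-- `P` is the partner of `C0` in `S`. -/
def X2a_aux_Pt {V : Type} (C0 : Set V) (S : Set (Set V)) (P : Set V) : Prop :=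
  P ∈ S ∧ ((Even (X2a_aux_rk C0 S) ∧ C0 ⊂ P ∧ ∀ D ∈ S, C0 ⊂ D → P ⊆ D) ∨
    (¬ Even (X2a_aux_rk C0 S) ∧ P ⊂ C0 ∧ ∀ D ∈ S, D ⊂ C0 → D ⊆ P))

theorem X2a_aux_uniq {V : Type} {C0 : Set V} {S : Set (Set V)} {P P' : Set V}
    (h : X2a_aux_Pt C0 S P) (h' : X2a_aux_Pt C0 S P') : P = P' := by
  obtain ⟨hP, h⟩ := h
  obtain ⟨hP', h'⟩ := h'
  rcases h with ⟨he, h1, h2⟩ | ⟨he, h1, h2⟩ <;> rcases h' with ⟨he', h1', h2'⟩ | ⟨he', h1', h2'⟩
  · exact (h2 P' hP' h1').antisymm (h2' P hP h1)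
  · exact absurd he he'
  · exact absurd he' he
  · exact (h2' P hP h1).antisymm (h2 P' hP' h1')

theorem X2a_aux_card {V : Type} {C0 : Set V} {S : Set (Set V)} (hf : S.Finite)
    (hch : ∀ C ∈ S, ∀ D ∈ S, C ⊆ D ∨ D ⊆ C) (h0 : C0 ∈ S) :
    S.ncard = X2a_aux_rk C0 S + 1 + {C | C ∈ S ∧ C0 ⊂ C}.ncard := by
  have hS : S = ({C | C ∈ S ∧ C ⊂ C0} ∪ {C0}) ∪ {C | C ∈ S ∧ C0 ⊂ C} := by
    ext C
    simp only [Set.mem_union, Set.mem_setOf_eq, Set.mem_singleton_iff]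
    constructor
    · intro hC
      by_cases hCe : C = C0
      · left; right; exact hCe
      rcases hch C hC C0 h0 with h | h
      · left; left; exact ⟨hC, h.ssubset_of_ne hCe⟩
      · right; exact ⟨hC, h.ssubset_of_ne (Ne.symm hCe)⟩
    · rintro ((h | h) | h)
      · exact h.1
      · rw [h]; exact h0
      · exact h.1
  have f1 : {C | C ∈ S ∧ C ⊂ C0}.Finite := hf.subset (fun C h => h.1)
  have f2 : {C | C ∈ S ∧ C0 ⊂ C}.Finite := hf.subset (fun C h => h.1)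
  have d1 : Disjoint {C | C ∈ S ∧ C ⊂ C0} ({C0} : Set (Set V)) := by
    rw [Set.disjoint_left]
    rintro C ⟨_, h⟩ h'
    rw [Set.mem_singleton_iff] at h'
    rw [h'] at h
    exact h.ne rfl
  have d2 : Disjoint ({C | C ∈ S ∧ C ⊂ C0} ∪ {C0}) {C | C ∈ S ∧ C0 ⊂ C} := by
    rw [Set.disjoint_left]
    rintro C (⟨_, h⟩ | h) ⟨_, h'⟩
    · exact (h.trans h').ne rfl
    · rw [Set.mem_singleton_iff] at h
      rw [h] at h'
      exact h'.ne rfl
  have e1 := Set.ncard_union_eq d2 (f1.union (Set.finite_singleton C0)) f2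
  have e2 := Set.ncard_union_eq d1 f1 (Set.finite_singleton C0)
  rw [← hS] at e1
  rw [e1, e2, Set.ncard_singleton]
  rfl

theorem X2a_aux_exists {V : Type} {C0 : Set V} {S : Set (Set V)} (hf : S.Finite)
    (hch : ∀ C ∈ S, ∀ D ∈ S, C ⊆ D ∨ D ⊆ C)
    (h0 : C0 ∈ S) (hev : Even S.ncard) : ∃ P, X2a_aux_Pt C0 S P := by
  have hcard := X2a_aux_card hf hch h0
  by_cases hr : Even (X2a_aux_rk C0 S)
  · have hne : {C | C ∈ S ∧ C0 ⊂ C}.Nonempty := by
      rw [Set.nonempty_iff_ne_empty]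
      intro hemp
      rw [hemp, Set.ncard_empty, add_zero] at hcard
      rw [hcard] at hev
      have := hr.add_one
      exact (Nat.not_even_iff_odd.2 this) hev
    obtain ⟨P, hP⟩ := (hf.subset (fun C (h : C ∈ {C | C ∈ S ∧ C0 ⊂ C}) => h.1)).exists_minimal hne
    refine ⟨P, hP.prop.1, Or.inl ⟨hr, hP.prop.2, ?_⟩⟩
    intro D hD hD0
    rcases hch D hD P hP.prop.1 with h | h
    · exact hP.le_of_le ⟨hD, hD0⟩ h
    · exact h
  · have hne : {C | C ∈ S ∧ C ⊂ C0}.Nonempty := by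
      rw [Set.nonempty_iff_ne_empty]
      intro hemp
      apply hr
      unfold X2a_aux_rk
      rw [hemp, Set.ncard_empty]
      exact Even.zero
    obtain ⟨P, hP⟩ := (hf.subset (fun C (h : C ∈ {C | C ∈ S ∧ C ⊂ C0}) => h.1)).exists_maximal hne
    refine ⟨P, hP.prop.1, Or.inr ⟨hr, hP.prop.2, ?_⟩⟩
    intro D hD hD0
    rcases hch D hD P hP.prop.1 with h | h
    · exact h
    · exact hP.le_of_ge ⟨hD, hD0⟩ h

/-- Lower parts of even size. -/
theorem X2a_aux_low {V : Type} {C0 : Set V} {S Q : Set (Set V)} (hQS : Q ⊆ S)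
    (hch : ∀ C ∈ S, ∀ D ∈ S, C ⊆ D ∨ D ⊆ C) (h0 : C0 ∈ Q)
    (hlow : ∀ C ∈ S, ∀ D ∈ Q, C ⊆ D → C ∈ Q) {P : Set V} (h : X2a_aux_Pt C0 Q P) : X2a_aux_Pt C0 S P := by
  have hrk : X2a_aux_rk C0 Q = X2a_aux_rk C0 S := by
    unfold X2a_aux_rk
    congr 1
    ext C
    constructor
    · rintro ⟨h1, h2⟩; exact ⟨hQS h1, h2⟩
    · rintro ⟨h1, h2⟩; exact ⟨hlow C h1 C0 h0 h2.subset, h2⟩
  obtain ⟨hP, h⟩ := h
  refine ⟨hQS hP, ?_⟩
  rw [hrk] at h
  rcases h with ⟨he, h1, h2⟩ | ⟨he, h1, h2⟩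
  · left
    refine ⟨he, h1, fun D hD hD0 => ?_⟩
    rcases hch D hD P (hQS hP) with h | h
    · exact h2 D (hlow D hD P hP h) hD0
    · exact h
  · right
    exact ⟨he, h1, fun D hD hD0 => h2 D (hlow D hD C0 h0 hD0.subset) hD0⟩

/-- Upper parts of even size. -/
theorem X2a_aux_up {V : Type} {C0 : Set V} {S Q : Set (Set V)} (hQS : Q ⊆ S) (hf : S.Finite)
    (hch : ∀ C ∈ S, ∀ D ∈ S, C ⊆ D ∨ D ⊆ C) (h0 : C0 ∈ Q) (hevS : Even S.ncard) (hevQ : Even Q.ncard)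
    (hup : ∀ C ∈ S, ∀ D ∈ Q, D ⊆ C → C ∈ Q) {P : Set V} (h : X2a_aux_Pt C0 Q P) : X2a_aux_Pt C0 S P := by
  have hc1 := X2a_aux_card hf hch (hQS h0)
  have hc2 := X2a_aux_card (hf.subset hQS) (fun C hC D hD => hch C (hQS hC) D (hQS hD)) h0
  have hs : {C | C ∈ S ∧ C0 ⊂ C} = {C | C ∈ Q ∧ C0 ⊂ C} := by
    ext C
    constructor
    · rintro ⟨h1, h2⟩; exact ⟨hup C h1 C0 h0 h2.subset, h2⟩
    · rintro ⟨h1, h2⟩; exact ⟨hQS h1, h2⟩
  rw [hs] at hc1
  have hrk : Even (X2a_aux_rk C0 Q) ↔ Even (X2a_aux_rk C0 S) := by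
    rw [hc1] at hevS
    rw [hc2] at hevQ
    rw [Nat.even_iff] at *
    rw [Nat.even_iff]
    constructor <;> intro <;> omega
  obtain ⟨hP, h⟩ := h
  refine ⟨hQS hP, ?_⟩
  rw [hrk] at h
  rcases h with ⟨he, h1, h2⟩ | ⟨he, h1, h2⟩
  · left
    exact ⟨he, h1, fun D hD hD0 => h2 D (hup D hD C0 h0 hD0.subset) hD0⟩
  · right
    refine ⟨he, h1, fun D hD hD0 => ?_⟩
    rcases hch D hD P (hQS hP) with h | h
    · exact h
    · exact h2 D (hup D hD P hP h) hD0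

/-- Nested sets with a common point inside and a common point outside are comparable. -/
theorem X2a_aux_comp {V : Type} {C D : Set V} (h : Nested C D) {x y : V} (hx : x ∈ C) (hx' : x ∈ D)
    (hy : y ∉ C) (hy' : y ∉ D) : C ⊆ D ∨ D ⊆ C := by
  rcases h with h | h | h | h
  · exact Or.inl h
  · exact Or.inr h
  · exact absurd hx' (h hx)
  · exact absurd (h hy') hy

theorem pairing_contra {V : Type} {G : SimpleGraph V} (hc : G.Connected) (hcyc : CycGen G 3) (FF : Set (Set V)) (hne : FF.Nonempty)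
    (ht : ∀ C ∈ FF, Tight G C) (hn : ∀ C ∈ FF, ∀ D ∈ FF, Nested C D) (hcp : ∀ C ∈ FF, Cᶜ ∈ FF)
    (hfin : ∀ x y, G.Adj x y → {C | C ∈ FF ∧ x ∈ C ∧ y ∉ C}.Finite)
    (hev : ∀ x y z, G.Adj x y → G.Adj x z → (y = z ∨ G.Adj y z) → Even {C | C ∈ FF ∧ x ∈ C ∧ y ∉ C ∧ z ∉ C}.ncard) : False := by
  obtain ⟨C0, hC0⟩ := hne
  have tC0 := ht C0 hC0

  obtain ⟨Ch, hCh⟩ : ∃ Ch : V → V → Set (Set V), ∀ x y, Ch x y = {C | C ∈ FF ∧ x ∈ C ∧ y ∉ C} := ⟨_, fun _ _ => rfl⟩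
  have hchain : ∀ x y, ∀ C ∈ Ch x y, ∀ D ∈ Ch x y, C ⊆ D ∨ D ⊆ C := by
    intro x y C hC D hD
    rw [hCh] at hC hD
    exact X2a_aux_comp (hn C hC.1 D hD.1) hC.2.1 hD.2.1 hC.2.2 hD.2.2
  have hChfin : ∀ x y, G.Adj x y → (Ch x y).Finite := by
    intro x y h; rw [hCh]; exact hfin x y h
  have hCheven : ∀ x y, G.Adj x y → Even (Ch x y).ncard := by
    intro x y h
    have := hev x y y h h (Or.inl rfl)
    rw [hCh]
    simpa only [and_self] using this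
  have claim1 : ∀ x y z, G.Adj x y → G.Adj x z → G.Adj y z → x ∈ C0 → y ∉ C0 → z ∉ C0 →
      ∃ P, X2a_aux_Pt C0 (Ch x y) P ∧ X2a_aux_Pt C0 (Ch x z) P := by
    intro x y z hxy hxz hyz hx hy hz
    obtain ⟨Q, hQ⟩ : ∃ Q : Set (Set V), Q = {C | C ∈ FF ∧ x ∈ C ∧ y ∉ C ∧ z ∉ C} := ⟨_, rfl⟩
    have s1 : Q ⊆ Ch x y := by
      rw [hQ, hCh]; rintro C ⟨h1, h2, h3, _⟩; exact ⟨h1, h2, h3⟩
    have s2 : Q ⊆ Ch x z := by
      rw [hQ, hCh]; rintro C ⟨h1, h2, _, h3⟩; exact ⟨h1, h2, h3⟩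
    have hevQ : Even Q.ncard := by rw [hQ]; exact hev x y z hxy hxz (Or.inr hyz)
    have h0 : C0 ∈ Q := by rw [hQ]; exact ⟨hC0, hx, hy, hz⟩
    obtain ⟨P, hP⟩ := X2a_aux_exists ((hChfin x y hxy).subset s1)
      (fun C hC D hD => hchain x y C (s1 hC) D (s1 hD)) h0 hevQ
    refine ⟨P, X2a_aux_low s1 (hchain x y) h0 ?_ hP, X2a_aux_low s2 (hchain x z) h0 ?_ hP⟩
    · intro C hC D hD hCD
      rw [hCh] at hC
      rw [hQ] at hD ⊢
      exact ⟨hC.1, hC.2.1, hC.2.2, fun h => hD.2.2.2 (hCD h)⟩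
    · intro C hC D hD hCD
      rw [hCh] at hC
      rw [hQ] at hD ⊢
      exact ⟨hC.1, hC.2.1, fun h => hD.2.2.1 (hCD h), hC.2.2⟩
  have claim2 : ∀ x y z, G.Adj x y → G.Adj x z → G.Adj y z → x ∈ C0 → z ∈ C0 → y ∉ C0 →
      ∃ P, X2a_aux_Pt C0 (Ch x y) P ∧ X2a_aux_Pt C0 (Ch z y) P := by
    intro x y z hxy hxz hyz hx hz hy
    obtain ⟨Q, hQ⟩ : ∃ Q : Set (Set V), Q = {C | C ∈ FF ∧ x ∈ C ∧ z ∈ C ∧ y ∉ C} := ⟨_, rfl⟩
    have s1 : Q ⊆ Ch x y := by
      rw [hQ, hCh]; rintro C ⟨h1, h2, h3, h4⟩; exact ⟨h1, h2, h4⟩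
    have s2 : Q ⊆ Ch z y := by
      rw [hQ, hCh]; rintro C ⟨h1, h2, h3, h4⟩; exact ⟨h1, h3, h4⟩
    have hevQ : Even Q.ncard := by
      have h1 := hev y x z hxy.symm hyz (Or.inr hxz)
      have h2 : (compl '' Q) = {C | C ∈ FF ∧ y ∈ C ∧ x ∉ C ∧ z ∉ C} := by
        rw [hQ]
        ext C
        constructor
        · rintro ⟨D, ⟨g1, g2, g3, g4⟩, rfl⟩
          exact ⟨hcp D g1, g4, fun h => h g2, fun h => h g3⟩
        · rintro ⟨g1, g2, g3, g4⟩
          exact ⟨Cᶜ, ⟨hcp C g1, g3, g4, fun h => h g2⟩, compl_compl C⟩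
      rw [← h2, Set.ncard_image_of_injective Q compl_injective] at h1
      exact h1
    have h0 : C0 ∈ Q := by rw [hQ]; exact ⟨hC0, hx, hz, hy⟩
    obtain ⟨P, hP⟩ := X2a_aux_exists ((hChfin x y hxy).subset s1)
      (fun C hC D hD => hchain x y C (s1 hC) D (s1 hD)) h0 hevQ
    refine ⟨P, X2a_aux_up s1 (hChfin x y hxy) (hchain x y) h0 (hCheven x y hxy) hevQ ?_ hP,
      X2a_aux_up s2 (hChfin z y hyz.symm) (hchain z y) h0 (hCheven z y hyz.symm) hevQ ?_ hP⟩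
    · intro C hC D hD hCD
      rw [hCh] at hC
      rw [hQ] at hD ⊢
      exact ⟨hC.1, hC.2.1, hCD hD.2.2.1, hC.2.2⟩
    · intro C hC D hD hCD
      rw [hCh] at hC
      rw [hQ] at hD ⊢
      exact ⟨hC.1, hCD hD.2.1, hC.2.1, hC.2.2⟩

  obtain ⟨e0, he0⟩ := cutE_nonempty hc tC0.ne tC0.ne'
  obtain ⟨he0', x0, y0, rfl, hx0, hy0⟩ := he0
  have hadj0 : G.Adj x0 y0 := he0'
  obtain ⟨P0, hP0⟩ := X2a_aux_exists (hChfin x0 y0 hadj0) (hchain x0 y0)
    (by rw [hCh]; exact ⟨hC0, hx0, hy0⟩) (hCheven x0 y0 hadj0)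
  obtain ⟨A, hA⟩ : ∃ A : Set (Sym2 V), A = {e | e ∈ cutE G C0 ∧ ∀ x y, e = s(x, y) → x ∈ C0 → y ∉ C0 → X2a_aux_Pt C0 (Ch x y) P0} := ⟨_, rfl⟩
  have memA : ∀ x y, G.Adj x y → x ∈ C0 → y ∉ C0 → X2a_aux_Pt C0 (Ch x y) P0 → s(x, y) ∈ A := by
    intro x y hxy hx hy hP
    rw [hA]
    refine ⟨mem_cutE G C0 hxy hx hy, ?_⟩
    intro x' y' h hx' hy'
    rw [Sym2.eq_iff] at h
    rcases h with ⟨rfl, rfl⟩ | ⟨rfl, rfl⟩
    · exact hP
    · exact absurd hx hy'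
  have memA' : ∀ x y, s(x, y) ∈ A → x ∈ C0 → y ∉ C0 → X2a_aux_Pt C0 (Ch x y) P0 := by
    intro x y h hx hy
    rw [hA] at h
    exact h.2 x y rfl hx hy
  have hcut : ∀ a b, s(a, b) ∈ cutE G C0 → (a ∈ C0 ∧ b ∉ C0) ∨ (b ∈ C0 ∧ a ∉ C0) := by
    rintro a b ⟨_, u, v, h, hu, hv⟩
    rw [Sym2.eq_iff] at h
    rcases h with ⟨rfl, rfl⟩ | ⟨rfl, rfl⟩
    · exact Or.inl ⟨hu, hv⟩
    · exact Or.inr ⟨hu, hv⟩
  have hAsub : A ⊆ cutE G C0 := by rw [hA]; exact fun e h => h.1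

  have tri : ∀ a b c, G.Adj a b → G.Adj a c → G.Adj b c → s(a, b) ∈ A → s(a, c) ∈ cutE G C0 → s(a, c) ∈ A := by
    intro a b c hab hac hbc hA1 hcc
    have h1 := hcut a b (hAsub hA1)
    have h2 := hcut a c hcc
    rcases h1 with ⟨ha, hb⟩ | ⟨hb, ha⟩
    · rcases h2 with ⟨_, hc'⟩ | ⟨_, ha'⟩
      · obtain ⟨P, hP1, hP2⟩ := claim1 a b c hab hac hbc ha hb hc'
        have := X2a_aux_uniq hP1 (memA' a b hA1 ha hb)
        subst this
        exact memA a c hac ha hc' hP2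
      · exact absurd ha ha'
    · rcases h2 with ⟨ha', _⟩ | ⟨hc', _⟩
      · exact absurd ha' ha
      · obtain ⟨P, hP1, hP2⟩ := claim2 b a c hab.symm hbc hac hb hc' ha
        rw [Sym2.eq_swap] at hA1
        have := X2a_aux_uniq hP1 (memA' b a hA1 hb ha)
        subst this
        rw [Sym2.eq_swap]
        exact memA c a hac.symm hc' ha hP2
  have hall : cutE G C0 \ A = ∅ := by
    by_contra hne'
    obtain ⟨u, w, hlen, ⟨e, hew, heA⟩, ⟨e', he'w, he'c, he'A⟩⟩ := cut_link hcyc C0 tC0.conn (fun u hu v hv => tC0.conn' u hu v hv) A hAsub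
      ⟨_, memA x0 y0 hadj0 hx0 hy0 hP0⟩ (Set.nonempty_iff_ne_empty.2 hne')
    cases w with
    | nil => simp at hew
    | @cons _ v _ h p =>
      cases p with
      | nil => exact h.ne rfl
      | @cons _ t _ h' q =>
        cases q with
        | nil =>
          simp only [SimpleGraph.Walk.edges_cons, SimpleGraph.Walk.edges_nil, List.mem_cons, List.not_mem_nil, or_false] at hew he'w
          have e1 : e = s(u, v) := by
            rcases hew with h | h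
            · exact h
            · rw [h, Sym2.eq_swap]
          have e2 : e' = s(u, v) := by
            rcases he'w with h | h
            · exact h
            · rw [h, Sym2.eq_swap]
          exact he'A (by rw [e2, ← e1]; exact heA)
        | @cons _ r _ h'' q' =>
          cases q' with
          | nil =>
            simp only [SimpleGraph.Walk.edges_cons, SimpleGraph.Walk.edges_nil, List.mem_cons, List.not_mem_nil, or_false] at hew he'w

            have sw1 : s(u, v) = s(v, u) := Sym2.eq_swap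
            have sw2 : s(v, t) = s(t, v) := Sym2.eq_swap
            have sw3 : s(t, u) = s(u, t) := Sym2.eq_swap
            rcases hew with rfl | rfl | rfl <;> rcases he'w with rfl | rfl | rfl
            · exact he'A heA
            · rw [sw1] at heA
              exact he'A (tri v u t h.symm h' h''.symm heA he'c)
            · rw [sw3] at he'c he'A
              exact he'A (tri u v t h h''.symm h' heA he'c)
            · rw [sw1] at he'c he'A
              exact he'A (tri v t u h' h.symm h'' heA he'c)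
            · exact he'A heA
            · rw [sw2] at heA
              exact he'A (tri t v u h'.symm h'' h.symm heA he'c)
            · rw [sw3] at heA
              exact he'A (tri u t v h''.symm h h'.symm heA he'c)
            · rw [sw2] at he'c he'A
              exact he'A (tri t u v h'' h'.symm h heA he'c)
            · exact he'A heA
          | cons _ _ =>
            simp only [SimpleGraph.Walk.length_cons] at hlen
            omega
  have hmem : ∀ x y, G.Adj x y → x ∈ C0 → y ∉ C0 → P0 ∈ Ch x y := by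
    intro x y hxy hx hy
    have h1 : s(x, y) ∈ A := by
      by_contra hcon
      have : s(x, y) ∈ cutE G C0 \ A := ⟨mem_cutE G C0 hxy hx hy, hcon⟩
      rw [hall] at this
      exact this
    exact (memA' x y h1 hx hy).1
  have hP0F : P0 ∈ FF := by
    have := hP0.1
    rw [hCh] at this
    exact this.1
  have tP0 := ht P0 hP0F
  have hcmp : C0 ⊂ P0 ∨ P0 ⊂ C0 := by
    rcases hP0.2 with h | h
    · exact Or.inl h.2.1
    · exact Or.inr h.2.1
  rcases hcmp with h | h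
  · obtain ⟨u, hu⟩ := tC0.ne
    obtain ⟨v, hv, hv'⟩ := Set.exists_of_ssubset h
    obtain ⟨x, y, hxy, hx, hy, hxC, hyC⟩ := cutE_in_conn (C := C0) tP0.conn (h.subset hu) hv hu hv'
    have := hmem x y hxy hxC hyC
    rw [hCh] at this
    exact this.2.2 hy
  · obtain ⟨u, hu⟩ := tC0.ne'
    obtain ⟨v, hv, hv'⟩ := Set.exists_of_ssubset h
    obtain ⟨x, y, hxy, hx, hy, hxC, hyC⟩ := cutE_in_conn (C := C0) tP0.conn' (u := v) (v := u) hv' (fun hh => hu (h.subset hh)) hv hu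
    have := hmem x y hxy hxC hyC
    rw [hCh] at this
    exact hx this.2.1

end QPl
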