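import Pool.Agent.Lib.MP_d3a5e5_co.X2a
import Pool.Agent.Lib.MP_d3a5e5_co.X1c

set_option autoImplicit false

namespace QPl

open Finsupp SimpleGraph

/-- The number of cuts of size `s` in `E` which separate `x` from `y` and `z`. -/
noncomputable def X2b_g {V : Type} (G : SimpleGraph V) (E : Set (Set V)) (s : ℕ) (t : V × V × V) : ZMod 2 :=
  (({C | C ∈ E ∧ (cutE G C).ncard = s ∧ t.1 ∈ C ∧ t.2.1 ∉ C ∧ t.2.2 ∉ C} : Set (Set V)).ncard : ZMod 2)

theorem X2b_size {V : Type} {G : SimpleGraph V} (φ : G ≃g G) (C : Set V) :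
    (cutE G (φ '' C)).ncard = (cutE G C).ncard := by
  rw [cutE_image]
  exact Set.ncard_image_of_injective _ (Sym2.map.injective φ.injective)

theorem X2b_inv {V : Type} {G : SimpleGraph V} (E : Set (Set V)) (hinv : ∀ (φ : G ≃g G), ∀ C ∈ E, φ '' C ∈ E)
    (φ : G ≃g G) (s : ℕ) (x y z : V) : X2b_g G E s (φ x, φ y, φ z) = X2b_g G E s (x, y, z) := by
  unfold X2b_g
  congr 1
  have himg : {C | C ∈ E ∧ (cutE G C).ncard = s ∧ (φ x, φ y, φ z).1 ∈ C ∧ (φ x, φ y, φ z).2.1 ∉ C ∧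
      (φ x, φ y, φ z).2.2 ∉ C} = (fun C : Set V => φ '' C) '' {C | C ∈ E ∧ (cutE G C).ncard = s ∧
        (x, y, z).1 ∈ C ∧ (x, y, z).2.1 ∉ C ∧ (x, y, z).2.2 ∉ C} := by
    ext D
    constructor
    · rintro ⟨h1, h2, h3, h4, h5⟩
      have hD : φ '' (φ.symm '' D) = D := by
        rw [← Set.image_comp]
        have : (φ ∘ φ.symm : V → V) = id := by
          funext v
          exact φ.apply_symm_apply v
        rw [this, Set.image_id]
      refine ⟨φ.symm '' D, ⟨hinv φ.symm D h1, ?_, ?_, ?_, ?_⟩, hD⟩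
      · rw [X2b_size]; exact h2
      · exact ⟨φ x, h3, φ.symm_apply_apply x⟩
      · rintro ⟨v, hv, hvy⟩
        apply h4
        have hvy' : φ.symm v = y := hvy
        have : v = φ y := by rw [← hvy']; exact (φ.apply_symm_apply v).symm
        rwa [this] at hv
      · rintro ⟨v, hv, hvy⟩
        apply h5
        have hvy' : φ.symm v = z := hvy
        have : v = φ z := by rw [← hvy']; exact (φ.apply_symm_apply v).symm
        rwa [this] at hv
    · rintro ⟨C, ⟨h1, h2, h3, h4, h5⟩, rfl⟩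
      refine ⟨hinv φ C h1, ?_, ⟨x, h3, rfl⟩, ?_, ?_⟩
      · show (cutE G (φ '' C)).ncard = s
        rw [X2b_size]; exact h2
      · rintro ⟨v, hv, hvy⟩
        exact h4 (φ.injective hvy ▸ hv)
      · rintro ⟨v, hv, hvy⟩
        exact h5 (φ.injective hvy ▸ hv)
  rw [himg]
  exact Set.ncard_image_of_injective _ (Set.image_injective.2 φ.injective)

theorem X2b_zmod (a : ZMod 2) : (if a ≠ 0 then (1 : ZMod 2) else 0) = a := by
  revert a
  decide

theorem sizes_bound {V : Type} {G : SimpleGraph V} {d : ℕ} {F : Finset V} (hS : Std0 G d 3 F) :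
    ∃ n₀ : ℕ, ∀ (K : ℕ) (E : Set (Set V)), (∀ C ∈ E, Cᶜ ∈ E) → (∀ (φ : G ≃g G), ∀ C ∈ E, φ '' C ∈ E) → (∀ C ∈ E, Tight G C) →
      (∀ C ∈ E, (cutE G C).ncard ≤ K) → (∀ C ∈ E, ∀ D ∈ E, Nested C D) →
      ((fun C => (cutE G C).ncard) '' E).ncard ≤ n₀ := by
  classical
  set T0 : Set (V × V × V) := {t | t.1 ∈ F ∧ G.Adj t.1 t.2.1 ∧ G.Adj t.1 t.2.2} with hT0def
  have hT0 : T0.Finite := by
    refine Set.Finite.subset (Set.Finite.biUnion F.finite_toSet (t := fun x =>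
      ({x} : Set V) ×ˢ (G.neighborSet x ×ˢ G.neighborSet x))
      (fun x _ => (Set.finite_singleton x).prod ((hS.fin x).prod (hS.fin x)))) ?_
    rintro ⟨x, y, z⟩ ⟨h1, h2, h3⟩
    simp only [Set.mem_iUnion]
    exact ⟨x, h1, rfl, h2, h3⟩
  refine ⟨T0.ncard, ?_⟩
  intro K E hcp hinv ht hsz hn
  by_contra hcon
  rw [not_le] at hcon
  set SZ : Set ℕ := (fun C => (cutE G C).ncard) '' E with hSZdef
  have hSZ : SZ.Finite := by
    refine (Set.finite_Iic K).subset ?_
    rintro s ⟨C, hC, rfl⟩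
    exact hsz C hC
  set Sf : Finset ℕ := hSZ.toFinset with hSf
  have hSfc : Sf.card = SZ.ncard := (Set.ncard_eq_toFinset_card SZ hSZ).symm
  have hfT : Fintype T0 := hT0.fintype
  let L : (Sf → ZMod 2) →ₗ[ZMod 2] (T0 → ZMod 2) :=
    { toFun := fun c t => ∑ s : Sf, c s * X2b_g G E s t.1
      map_add' := by
        intro c c'
        funext t
        simp only [Pi.add_apply, add_mul, Finset.sum_add_distrib]
      map_smul' := by
        intro a c
        funext t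
        simp only [Pi.smul_apply, smul_eq_mul, RingHom.id_apply, Finset.mul_sum, mul_assoc] }
  have hker : LinearMap.ker L ≠ ⊥ := by
    apply LinearMap.ker_ne_bot_of_finrank_lt
    rw [Module.finrank_fintype_fun_eq_card, Module.finrank_fintype_fun_eq_card, Fintype.card_coe, hSfc,
      ← Nat.card_eq_fintype_card, Nat.card_coe_set_eq]
    exact hcon
  obtain ⟨c, hcL, hc0⟩ := Submodule.exists_mem_ne_zero_of_ne_bot hker
  rw [LinearMap.mem_ker] at hcL
  set c' : ℕ → ZMod 2 := fun s => if h : s ∈ Sf then c ⟨s, h⟩ else 0 with hc'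
  have hc's : ∀ s : Sf, c' s = c s := by
    intro s
    simp only [hc', s.2, dif_pos]
  have hrel0 : ∀ t ∈ T0, ∑ s ∈ Sf, c' s * X2b_g G E s t = 0 := by
    intro t ht0
    have h1 := congrFun hcL ⟨t, ht0⟩
    have h2 : ∑ s : Sf, c s * X2b_g G E s t = 0 := h1
    rw [← h2, ← Finset.sum_coe_sort Sf (fun s => c' s * X2b_g G E s t)]
    refine Finset.sum_congr rfl fun s _ => ?_
    rw [hc's s]
  have hrel : ∀ x y z, G.Adj x y → G.Adj x z → ∑ s ∈ Sf, c' s * X2b_g G E s (x, y, z) = 0 := by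
    intro x y z hxy hxz
    obtain ⟨φ, hφ⟩ := hS.qt x
    have h1 := hrel0 (φ x, φ y, φ z) ⟨hφ, φ.map_rel_iff.2 hxy, φ.map_rel_iff.2 hxz⟩
    rw [← h1]
    refine Finset.sum_congr rfl fun s _ => ?_
    rw [X2b_inv E hinv φ s x y z]
  set FF : Set (Set V) := {C | C ∈ E ∧ c' ((cutE G C).ncard) ≠ 0} with hFF
  have hfinE : ∀ x y, G.Adj x y → {C | C ∈ E ∧ x ∈ C ∧ y ∉ C}.Finite := by
    intro x y hxy
    refine (tight_through hS.conn hS.fin hS.cyc K (Set.finite_singleton s(x, y))).subset ?_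
    rintro C ⟨hC, hx, hy⟩
    exact ⟨ht C hC, hsz C hC, s(x, y), mem_cutE G C hxy hx hy, rfl⟩
  refine pairing_contra hS.conn hS.cyc FF ?_ (fun C hC => ht C hC.1)
    (fun C hC D hD => hn C hC.1 D hD.1) ?_ ?_ ?_
  · have h1 : ∃ s : Sf, c s ≠ 0 := by
      by_contra hno
      push Not at hno
      exact hc0 (funext hno)
    obtain ⟨s, hs⟩ := h1
    obtain ⟨C, hC, hCs⟩ := (Set.Finite.mem_toFinset hSZ).1 s.2
    refine ⟨C, hC, ?_⟩
    have h2 : (cutE G C).ncard = (s : ℕ) := hCs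
    rw [h2, hc's s]
    exact hs
  · rintro C ⟨hC, hCc⟩
    refine ⟨hcp C hC, ?_⟩
    rw [cutE_compl]
    exact hCc
  · intro x y hxy
    refine (hfinE x y hxy).subset ?_
    rintro C ⟨hC, hx, hy⟩
    exact ⟨hC.1, hx, hy⟩
  · intro x y z hxy hxz _
    have hP : {C | C ∈ E ∧ x ∈ C ∧ y ∉ C ∧ z ∉ C}.Finite := by
      refine (hfinE x y hxy).subset ?_
      rintro C ⟨hC, hx, hy, _⟩
      exact ⟨hC, hx, hy⟩
    set Pf := hP.toFinset with hPf
    have hmemP : ∀ C, C ∈ Pf ↔ C ∈ E ∧ x ∈ C ∧ y ∉ C ∧ z ∉ C := by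
      intro C
      exact Set.Finite.mem_toFinset hP
    have hgs : ∀ s, X2b_g G E s (x, y, z) = ∑ C ∈ Pf.filter (fun C => (cutE G C).ncard = s), (1 : ZMod 2) := by
      intro s
      unfold X2b_g
      rw [Finset.sum_const, nsmul_eq_mul, mul_one]
      congr 1
      rw [← Set.ncard_coe_finset]
      congr 1
      ext C
      simp only [Finset.coe_filter, hmemP, Set.mem_setOf_eq]
      tauto
    have hcard : (({C | C ∈ FF ∧ x ∈ C ∧ y ∉ C ∧ z ∉ C}.ncard : ℕ) : ZMod 2) = 0 := by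
      have h1 : {C | C ∈ FF ∧ x ∈ C ∧ y ∉ C ∧ z ∉ C} =
          ((Pf.filter (fun C => c' ((cutE G C).ncard) ≠ 0) : Finset (Set V)) : Set (Set V)) := by
        ext C
        simp only [Finset.coe_filter, hmemP, Set.mem_setOf_eq, hFF]
        tauto
      rw [h1, Set.ncard_coe_finset, Finset.card_filter]
      push_cast
      have h2 : ∀ C ∈ Pf, (if c' ((cutE G C).ncard) ≠ 0 then (1 : ZMod 2) else 0) = c' ((cutE G C).ncard) :=
        fun C _ => X2b_zmod _
      rw [Finset.sum_congr rfl h2]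
      have h3 : ∀ C ∈ Pf, (cutE G C).ncard ∈ Sf := by
        intro C hC
        exact (Set.Finite.mem_toFinset hSZ).2 ⟨C, ((hmemP C).1 hC).1, rfl⟩
      rw [← Finset.sum_fiberwise_of_maps_to h3]
      rw [← hrel x y z hxy hxz]
      refine Finset.sum_congr rfl fun s _ => ?_
      rw [hgs s, Finset.mul_sum]
      refine Finset.sum_congr rfl fun C hC => ?_
      rw [(Finset.mem_filter.1 hC).2, mul_one]
    exact (ZMod.natCast_eq_zero_iff_even).1 hcard

end QPl
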