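import Pool.Agent.Lib.MP_d3a5e5_co.X2b
import Pool.Agent.Lib.MP_d3a5e5_co.X1g

set_option autoImplicit false

namespace QPl

open Finsupp SimpleGraph

theorem X2c_aux1 {V : Type} {G : SimpleGraph V} {d : ℕ} {F : Finset V} (hS : Std0 G d 3 F) :
    ∃ K : ℕ, ∀ (a b : Ultrafilter V) (C : Set V), NP a → NP b → MinC G a b C → (cutE G C).ncard ≤ K := by
  obtain ⟨n₀, hn₀⟩ := sizes_bound hS
  by_contra hcon
  push Not at hcon
  have hinf : {s : ℕ | ∃ (a b : Ultrafilter V) (C : Set V), NP a ∧ NP b ∧ MinC G a b C ∧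
      (cutE G C).ncard = s}.Infinite := by
    intro hfin
    obtain ⟨K, hK⟩ := hfin.bddAbove
    obtain ⟨a, b, C, ha, hb, hC, hlt⟩ := hcon K
    exact absurd (hK ⟨a, b, C, ha, hb, hC, rfl⟩) (not_le.2 hlt)
  obtain ⟨T, hT, hTc⟩ := hinf.exists_subset_card_eq (n₀ + 1)
  have h1 := hn₀ (T.sup id) (EK G (T.sup id)) (fun C hC => EK_compl hC)
    (fun φ C hC => EK_inv φ hC) (fun C hC => (EK_tight hS.conn hC).1)
    (fun C hC => (EK_tight hS.conn hC).2)
    (fun C hC D hD => EK_nested hS.conn hS.fin hS.cyc hC hD)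
  have h2 : (T : Set ℕ) ⊆ (fun C => (cutE G C).ncard) '' EK G (T.sup id) := by
    intro s hs
    obtain ⟨a, b, C, ha, hb, hC, hCs⟩ := hT hs
    have hsK : (cutE G C).ncard ≤ T.sup id := by
      rw [hCs]
      exact Finset.le_sup (f := id) hs
    obtain ⟨C', hC'E, hC'⟩ := EK_split ha hb hC hsK
    refine ⟨C', hC'E, ?_⟩
    show (cutE G C').ncard = s
    rw [← hCs]
    exact le_antisymm (hC'.min C hC.fin hC.spl) (hC.min C' hC'.fin hC'.spl)
  have h3 : ((fun C => (cutE G C).ncard) '' EK G (T.sup id)).Finite := by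
    refine (Set.finite_Iic (T.sup id)).subset ?_
    rintro s ⟨C, hC, rfl⟩
    exact (EK_tight hS.conn hC).2
  have h4 := Set.ncard_le_ncard h2 h3
  rw [Set.ncard_coe_finset, hTc] at h4
  omega

theorem exists_fam {V : Type} {G : SimpleGraph V} {d : ℕ} {F : Finset V} (hS : Std0 G d 3 F) : ∃ (K : ℕ) (E : Set (Set V)), Fam G K E := by
  obtain ⟨K, hK⟩ := X2c_aux1 hS
  refine ⟨K, EK G K, ⟨fun C hC => EK_compl hC, fun φ C hC => EK_inv φ hC,
    fun C hC => (EK_tight hS.conn hC).1, fun C hC => (EK_tight hS.conn hC).2,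
    fun C hC D hD => EK_nested hS.conn hS.fin hS.cyc hC hD, ?_⟩⟩
  intro a b ha hb D hf hDa hDb
  obtain ⟨C0, hC0⟩ := exists_MinC hf (Or.inl ⟨hDa, hDb⟩)
  obtain ⟨C, hCE, hC⟩ := EK_split ha hb hC0 (hK a b C0 ha hb hC0)
  rcases hC.spl with ⟨h1, h2⟩ | ⟨h1, h2⟩
  · exact ⟨C, hCE, h1, h2⟩
  · exact ⟨Cᶜ, EK_compl hCE, h1, by rwa [compl_compl]⟩

end QPl
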