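import Pool.Agent.Lib.MP_d3a5e5_co.X1c
import Pool.Agent.Lib.MP_d3a5e5_co.X1d

set_option autoImplicit false

namespace QPl

open Finsupp SimpleGraph

theorem maj_self {V : Type} (E : Set (Set V)) (x : V) : maj E x x x = Or E x := by
  ext C
  constructor
  · rintro ⟨h1, h2⟩
    refine ⟨h1, ?_⟩
    rcases h2 with h | h | h <;> exact h.1
  · rintro ⟨h1, h2⟩
    exact ⟨h1, Or.inl ⟨h2, h2⟩⟩

theorem Or_mem_TT {V : Type} (G : SimpleGraph V) (E : Set (Set V)) (x : V) : Or E x ∈ TT G E :=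
  ⟨x, x, x, Or.inl rfl, Or.inl rfl, Or.inl rfl, (maj_self E x).symm⟩

theorem TT_cons {V : Type} {G : SimpleGraph V} {K : ℕ} {E : Set (Set V)} (hE : Fam G K E) {t : Set (Set V)} (ht : t ∈ TT G E) :
    t ⊆ E ∧ (∀ C ∈ E, (C ∈ t ∧ Cᶜ ∉ t) ∨ (C ∉ t ∧ Cᶜ ∈ t)) ∧ (∀ C ∈ t, ∀ D ∈ E, C ⊆ D → D ∈ t) := by
  obtain ⟨x, y, z, _, _, _, rfl⟩ := ht
  refine ⟨fun C hC => hC.1, ?_, ?_⟩
  · intro C hC
    have hC' := hE.compl C hC
    have e1 : C ∈ maj E x y z ↔ ((x ∈ C ∧ y ∈ C) ∨ (y ∈ C ∧ z ∈ C) ∨ (x ∈ C ∧ z ∈ C)) :=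
      ⟨fun h => h.2, fun h => ⟨hC, h⟩⟩
    have e2 : Cᶜ ∈ maj E x y z ↔ ((x ∉ C ∧ y ∉ C) ∨ (y ∉ C ∧ z ∉ C) ∨ (x ∉ C ∧ z ∉ C)) :=
      ⟨fun h => h.2, fun h => ⟨hC', h⟩⟩
    rw [e1, e2]
    by_cases hx : x ∈ C <;> by_cases hy : y ∈ C <;> by_cases hz : z ∈ C <;> simp [hx, hy, hz]
  · rintro C ⟨_, h⟩ D hD hCD
    refine ⟨hD, ?_⟩
    rcases h with h | h | h
    · exact Or.inl ⟨hCD h.1, hCD h.2⟩
    · exact Or.inr (Or.inl ⟨hCD h.1, hCD h.2⟩)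
    · exact Or.inr (Or.inr ⟨hCD h.1, hCD h.2⟩)

theorem Ch_finite {V : Type} {G : SimpleGraph V} {l K : ℕ} {E : Set (Set V)} (hc : G.Connected) (hf : ∀ v, (G.neighborSet v).Finite)
    (hcyc : CycGen G l) (hE : Fam G K E) {x y : V} (h : G.Adj x y) : {C | C ∈ E ∧ x ∈ C ∧ y ∉ C}.Finite := by
  refine (tight_through hc hf hcyc K (Set.finite_singleton s(x, y))).subset ?_
  rintro C ⟨hC, hx, hy⟩
  exact ⟨hE.tight C hC, hE.size C hC, s(x, y), mem_cutE G C h hx hy, rfl⟩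

theorem diff_finite {V : Type} {G : SimpleGraph V} {l K : ℕ} {E : Set (Set V)} (hc : G.Connected) (hf : ∀ v, (G.neighborSet v).Finite)
    (hcyc : CycGen G l) (hE : Fam G K E) {t t' : Set (Set V)} (ht : t ∈ TT G E) (ht' : t' ∈ TT G E) : (t \ t').Finite := by
  classical
  obtain ⟨x, y, z, _, _, _, rfl⟩ := ht
  obtain ⟨x', y', z', _, _, _, rfl⟩ := ht'
  let w : ∀ u v : V, G.Walk u v := fun u v => (hc.preconnected u v).some
  let S : Set (Sym2 V) := ⋃ u ∈ ({x, y, z} : Set V), ⋃ v ∈ ({x', y', z'} : Set V), {e | e ∈ (w u v).edges}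
  have hS : S.Finite := by
    refine Set.Finite.biUnion (by simp) fun u _ => Set.Finite.biUnion (by simp) fun v _ => ?_
    exact (w u v).edges.finite_toSet
  refine (tight_through hc hf hcyc K hS).subset ?_
  rintro C ⟨⟨hC, h1⟩, h2⟩
  have hu : ∃ u ∈ ({x, y, z} : Set V), u ∈ C := by
    rcases h1 with h | h | h
    · exact ⟨x, by simp, h.1⟩
    · exact ⟨y, by simp, h.1⟩
    · exact ⟨x, by simp, h.1⟩
  have hv : ∃ v ∈ ({x', y', z'} : Set V), v ∉ C := by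
    by_contra hcon
    push Not at hcon
    exact h2 ⟨hC, Or.inl ⟨hcon x' (by simp), hcon y' (by simp)⟩⟩
  obtain ⟨u, hu1, hu2⟩ := hu
  obtain ⟨v, hv1, hv2⟩ := hv
  obtain ⟨d, hd1, hd2, hd3⟩ := (w u v).exists_boundary_dart C hu2 hv2
  refine ⟨hE.tight C hC, hE.size C hC, s(d.fst, d.snd), mem_cutE G C d.adj hd2 hd3, ?_⟩
  refine Set.mem_biUnion hu1 (Set.mem_biUnion hv1 ?_)
  exact List.mem_map.2 ⟨d, hd1, rfl⟩

theorem eq_op {V : Type} {G : SimpleGraph V} {K : ℕ} {E : Set (Set V)} (hE : Fam G K E) {t : Set (Set V)} (ht : t ∈ TT G E) {C : Set V}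
    (hC : C ∈ E) (hCt : Cᶜ ∈ t) (h : ∀ D ∈ E, C ⊂ D → D ∈ t) : t = op E C := by
  obtain ⟨h1, h2, h3⟩ := TT_cons hE ht
  have hCn : C ∉ t := by
    rcases h2 C hC with h4 | h4
    · exact absurd hCt h4.2
    · exact h4.1
  ext D
  constructor
  · intro hD
    refine ⟨h1 hD, ?_, ?_⟩
    · rintro rfl
      exact hCn hD
    · rcases hE.nest C hC D (h1 hD) with h4 | h4 | h4 | h4
      · exact Or.inl h4
      · exact absurd (h3 D hD C hC h4) hCn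
      · by_cases h5 : C = Dᶜ
        · right
          rw [h5, compl_compl]
        · exfalso
          have h6 : Dᶜ ∈ t := h Dᶜ (hE.compl D (h1 hD)) (lt_of_le_of_ne h4 h5)
          rcases h2 D (h1 hD) with h7 | h7
          · exact h7.2 h6
          · exact h7.1 hD
      · right
        exact Set.compl_subset_comm.1 h4
  · rintro ⟨hD1, hD2, hD3 | hD3⟩
    · exact h D hD1 (lt_of_le_of_ne hD3 (Ne.symm hD2))
    · exact h3 Cᶜ hCt D hD1 hD3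

theorem op_flip {V : Type} {G : SimpleGraph V} {K : ℕ} {E : Set (Set V)} (hE : Fam G K E) {C : Set V} (hC : C ∈ E) :
    C ∈ op E Cᶜ ∧ C ∉ op E C ∧ Cᶜ ∈ op E C ∧ Cᶜ ∉ op E Cᶜ ∧ op E C = (op E Cᶜ \ {C}) ∪ {Cᶜ} := by
  have hne : C ≠ Cᶜ := by
    intro h
    obtain ⟨x, hx⟩ := (hE.tight C hC).ne
    have hx' : x ∈ Cᶜ := by rw [← h]; exact hx
    exact hx' hx
  have hC' := hE.compl C hC
  refine ⟨⟨hC, hne, Or.inr (by rw [compl_compl])⟩, fun h => h.2.1 rfl, ⟨hC', hne.symm, Or.inr subset_rfl⟩, fun h => h.2.1 rfl, ?_⟩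
  ext D
  constructor
  · rintro ⟨h1, h2, h3⟩
    by_cases h4 : D = Cᶜ
    · exact Or.inr h4
    · refine Or.inl ⟨⟨h1, h4, ?_⟩, h2⟩
      rw [compl_compl]
      exact h3.symm
  · rintro (⟨⟨h1, h2, h3⟩, h4⟩ | h)
    · rw [compl_compl] at h3
      exact ⟨h1, h4, h3.symm⟩
    · rw [Set.mem_singleton_iff] at h
      subst h
      exact ⟨hC', hne.symm, Or.inr subset_rfl⟩

end QPl
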