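import Pool.Agent.Lib.MP_d3a5e5_co.X3a

set_option autoImplicit false

namespace QPl

open Finsupp SimpleGraph

theorem X3b_aux1 {V : Type} {G : SimpleGraph V} {b : V} (w : G.Walk b b) (hw : w.length ≤ 3) {e f : Sym2 V}
    (he : e ∈ w.edges) (hf : f ∈ w.edges) {p q : V} (hp : p ∈ e) (hq : q ∈ f) : Eqa G p q := by
  rcases w with _ | ⟨h1, w⟩
  · rw [Walk.edges_nil] at he
    exact absurd he List.not_mem_nil
  rcases w with _ | ⟨h2, w⟩
  · exact absurd h1 (G.irrefl)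
  rename_i x
  rcases w with _ | ⟨h3, w⟩
  · simp only [Walk.edges_cons, Walk.edges_nil, List.mem_cons, List.not_mem_nil, or_false] at he hf
    rcases he with rfl | rfl <;> rcases hf with rfl | rfl <;> rcases Sym2.mem_iff.1 hp with rfl | rfl <;>
      rcases Sym2.mem_iff.1 hq with rfl | rfl <;> first
        | exact Or.inl rfl
        | exact Or.inr h1
        | exact Or.inr h2
  rename_i y
  rcases w with _ | ⟨h4, w⟩
  · simp only [Walk.edges_cons, Walk.edges_nil, List.mem_cons, List.not_mem_nil, or_false] at he hf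
    rcases he with rfl | rfl | rfl <;> rcases hf with rfl | rfl | rfl <;> rcases Sym2.mem_iff.1 hp with rfl | rfl <;>
      rcases Sym2.mem_iff.1 hq with rfl | rfl <;> first
        | exact Or.inl rfl
        | exact Or.inr h1
        | exact Or.inr h2
        | exact Or.inr h3
        | exact Or.inr h1.symm
        | exact Or.inr h2.symm
        | exact Or.inr h3.symm
  · simp only [Walk.length_cons] at hw
    omega

/-- Two edges in a closed walk of length at most 3 share a vertex. -/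
theorem X3b_aux2 {V : Type} {G : SimpleGraph V} {b : V} (w : G.Walk b b) (hw : w.length ≤ 3) {u v p q : V}
    (he : s(u, v) ∈ w.edges) (hf : s(p, q) ∈ w.edges) : u = p ∨ u = q ∨ v = p ∨ v = q := by
  rcases w with _ | ⟨h1, w⟩
  · rw [Walk.edges_nil] at he
    exact absurd he List.not_mem_nil
  rcases w with _ | ⟨h2, w⟩
  · exact absurd h1 (G.irrefl)
  rename_i x
  rcases w with _ | ⟨h3, w⟩
  · simp only [Walk.edges_cons, Walk.edges_nil, List.mem_cons, List.not_mem_nil, or_false, Sym2.eq_iff] at he hf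
    grind
  rename_i y
  rcases w with _ | ⟨h4, w⟩
  · simp only [Walk.edges_cons, Walk.edges_nil, List.mem_cons, List.not_mem_nil, or_false, Sym2.eq_iff] at he hf
    grind
  · simp only [Walk.length_cons] at hw
    omega

theorem op_mem {V : Type} {G : SimpleGraph V} {K : ℕ} {E : Set (Set V)} (hc : G.Connected) (hf : ∀ v, (G.neighborSet v).Finite)
    (hcyc : CycGen G 3) (hE : Fam G K E) {C : Set V} (hC : C ∈ E) : op E C ∈ TT G E := by
  have hT := hE.tight C hC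

  obtain ⟨e0, he0⟩ := cutE_nonempty hc hT.ne hT.ne'
  obtain ⟨he0G, u0, v0, rfl, hu0, hv0⟩ := he0
  have hadj0 : G.Adj u0 v0 := he0G
  by_cases hcase : ∃ v, v ∉ C ∧ ∀ D ∈ E, C ⊂ D → v ∈ D
  · obtain ⟨v, hv, hD⟩ := hcase
    have h1 : Or E v = op E C :=
      eq_op hE (Or_mem_TT G E v) hC ⟨hE.compl C hC, hv⟩ fun D hDE hCD => ⟨hDE, hD D hDE hCD⟩
    rw [← h1]
    exact Or_mem_TT G E v
  push Not at hcase
  have hSfin : {D | D ∈ E ∧ C ⊂ D ∧ v0 ∉ D}.Finite :=
    (Ch_finite hc hf hcyc hE hadj0).subset fun D hD => ⟨hD.1, hD.2.1.1 hu0, hD.2.2⟩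
  have hSne : {D | D ∈ E ∧ C ⊂ D ∧ v0 ∉ D}.Nonempty := by
    obtain ⟨D, hD1, hD2, hD3⟩ := hcase v0 hv0
    exact ⟨D, hD1, hD2, hD3⟩
  obtain ⟨C', ⟨hC'E, hCC', hv0C'⟩, hmin⟩ := hSfin.exists_minimal hSne
  have hbetw : ∀ D ∈ E, C ⊂ D → D ⊂ C' → False := by
    intro D hDE hCD hDC'
    exact hDC'.2 (hmin ⟨hDE, hCD, fun h => hv0C' (hDC'.1 h)⟩ hDC'.1)
  have hT' := hE.tight C' hC'E
  let A : Set (Sym2 V) := {e | ∃ u v, e = s(u, v) ∧ G.Adj u v ∧ u ∈ C ∧ v ∉ C'}
  have hA : A ⊆ cutE G C := by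
    rintro e ⟨u, v, rfl, h1, h2, h3⟩
    exact mem_cutE G C h1 h2 fun h => h3 (hCC'.1 h)
  have hAne : A.Nonempty := ⟨s(u0, v0), u0, v0, rfl, hadj0, hu0, hv0C'⟩
  have hAne' : (cutE G C \ A).Nonempty := by
    obtain ⟨y, hyC', hyC⟩ := Set.exists_of_ssubset hCC'
    obtain ⟨p, q, hpq, hp, hq, hpC, hqC⟩ := cutE_in_conn hT'.conn (hCC'.1 hu0) hyC' hu0 hyC
    refine ⟨s(p, q), mem_cutE G C hpq hpC hqC, ?_⟩
    rintro ⟨u, v, h1, h2, h3, h4⟩
    rcases Sym2.eq_iff.1 h1 with ⟨rfl, rfl⟩ | ⟨rfl, rfl⟩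
    · exact h4 hq
    · exact hqC h3
  obtain ⟨b, w, hw, ⟨e1, he1, he1A⟩, ⟨e2, he2, he2c, he2A⟩⟩ := cut_link hcyc C hT.conn
    (fun u hu v hv => hT.conn' u hu v hv) A hA hAne hAne'
  obtain ⟨u, v, rfl, huv, hu, hv⟩ := he1A
  obtain ⟨he2G, p, q, rfl, hp, hq⟩ := he2c
  have hpq : G.Adj p q := he2G
  have hqC' : q ∈ C' := by
    by_contra hcon
    exact he2A ⟨p, q, rfl, hpq, hp, hcon⟩
  have hvC : v ∉ C := fun h => hv (hCC'.1 h)
  have hup : u = p := by
    rcases X3b_aux2 w hw he1 he2 with h | h | h | h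
    · exact h
    · rw [h] at hu
      exact absurd hu hq
    · rw [h] at hvC
      exact absurd hp hvC
    · rw [h] at hv
      exact absurd hqC' hv
  subst hup
  have hEuv : Eqa G u v := Or.inr huv
  have hEvq : Eqa G v q := X3b_aux1 w hw he1 he2 (Sym2.mem_mk_right u v) (Sym2.mem_mk_right u q)
  have hEuq : Eqa G u q := Or.inr hpq
  have hmem : maj E u v q ∈ TT G E := ⟨u, v, q, hEuv, hEvq, hEuq, rfl⟩
  have h1 : maj E u v q = op E C := by
    refine eq_op hE hmem hC ⟨hE.compl C hC, Or.inr (Or.inl ⟨hvC, hq⟩)⟩ ?_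
    intro D hDE hCD
    have huD : u ∈ D := hCD.1 hu
    by_cases hvD : v ∈ D
    · exact ⟨hDE, Or.inl ⟨huD, hvD⟩⟩
    by_cases hqD : q ∈ D
    · exact ⟨hDE, Or.inr (Or.inr ⟨huD, hqD⟩)⟩
    exfalso
    rcases hE.nest D hDE C' hC'E with h | h | h | h
    · refine hbetw D hDE hCD ⟨h, fun h' => hqD (h' hqC')⟩
    · exact hqD (h hqC')
    · exact h huD (hCC'.1 hu)
    · exact hvD (h hv)
  rw [← h1]
  exact hmem

end QPl
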