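import Pool.Agent.Lib.MP_d3a5e5_co.X3b

set_option autoImplicit false

namespace QPl

open Finsupp SimpleGraph

theorem min_flip {V : Type} {G : SimpleGraph V} {K : ℕ} {E : Set (Set V)} (hE : Fam G K E) {t : Set (Set V)} (ht : t ∈ TT G E) {C : Set V}
    (hC : C ∈ t) (hmin : ∀ D ∈ t, D ⊆ C → D = C) : t = op E Cᶜ := by
  obtain ⟨hsub, hor, _⟩ := TT_cons hE ht
  refine eq_op hE ht (hE.compl C (hsub hC)) (by rwa [compl_compl]) ?_
  intro D hD hss
  rcases hor D hD with h | h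
  · exact h.1
  · exfalso
    have h1 : Dᶜ ⊆ C := Set.compl_subset_comm.1 hss.1
    have h2 := hmin Dᶜ h.2 h1
    apply hss.2
    rw [← h2, compl_compl]

theorem op_min {V : Type} {G : SimpleGraph V} {K : ℕ} {E : Set (Set V)} (hE : Fam G K E) {C D : Set V} (hC : C ∈ E) (hD : D ∈ op E Cᶜ)
    (h : D ⊆ C) : D = C := by
  obtain ⟨_, _, h1⟩ := hD
  rw [compl_compl] at h1
  rcases h1 with h1 | h1
  · exfalso
    obtain ⟨x, hx⟩ := (hE.tight C hC).ne'
    exact hx (h (h1 hx))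
  · exact Set.Subset.antisymm h h1

theorem tree_step {V : Type} {G : SimpleGraph V} {K : ℕ} {E : Set (Set V)} (hc : G.Connected) (hf : ∀ v, (G.neighborSet v).Finite)
    (hcyc : CycGen G 3) (hE : Fam G K E) {t t' : Set (Set V)} (ht : t ∈ TT G E) (ht' : t' ∈ TT G E) (hne : t ≠ t') :
    ∃ C ∈ E, C ∈ t ∧ C ∉ t' ∧ (∀ D ∈ t, D ⊆ C → D = C) ∧ t = op E Cᶜ ∧ op E C ∈ TT G E ∧
      (op E C \ t').ncard + 1 = (t \ t').ncard ∧ t ∩ t' ⊆ op E C := by
  obtain ⟨hsub, hor, hup⟩ := TT_cons hE ht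
  obtain ⟨hsub', hor', hup'⟩ := TT_cons hE ht'
  have hfin := diff_finite hc hf hcyc hE ht ht'
  have hne' : (t \ t').Nonempty := by
    rw [Set.nonempty_iff_ne_empty]
    intro h0
    have h1 : t ⊆ t' := Set.sdiff_eq_empty.1 h0
    apply hne
    refine Set.Subset.antisymm h1 ?_
    intro D hD
    rcases hor D (hsub' hD) with h2 | h2
    · exact h2.1
    · exfalso
      rcases hor' D (hsub' hD) with h3 | h3
      · exact h3.2 (h1 h2.2)
      · exact h3.1 hD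
  obtain ⟨C, hCm⟩ := hfin.exists_minimal hne'
  have hCt : C ∈ t := hCm.prop.1
  have hCt' : C ∉ t' := hCm.prop.2
  have hCE : C ∈ E := hsub hCt
  have hmin : ∀ D ∈ t, D ⊆ C → D = C := by
    intro D hD hDC
    have h1 : D ∉ t' := fun h2 => hCt' (hup' D h2 C hCE hDC)
    exact Set.Subset.antisymm hDC (hCm.le_of_le ⟨hD, h1⟩ hDC)
  have hop := min_flip hE ht hCt hmin
  have hflip := (op_flip hE hCE).2.2.2.2
  rw [← hop] at hflip
  have hCc' : Cᶜ ∈ t' := by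
    rcases hor' C hCE with h1 | h1
    · exact absurd h1.1 hCt'
    · exact h1.2
  have hdiff : op E C \ t' = (t \ t') \ {C} := by
    rw [hflip]
    ext D
    simp only [Set.mem_sdiff, Set.mem_union, Set.mem_singleton_iff]
    constructor
    · rintro ⟨h1 | h1, h2⟩
      · exact ⟨⟨h1.1, h2⟩, h1.2⟩
      · exact absurd (h1 ▸ hCc') h2
    · rintro ⟨⟨h1, h2⟩, h3⟩
      exact ⟨Or.inl ⟨h1, h3⟩, h2⟩
  refine ⟨C, hCE, hCt, hCt', hmin, hop, op_mem hc hf hcyc hE hCE, ?_, ?_⟩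
  · rw [hdiff]
    exact Set.ncard_sdiff_singleton_add_one hCm.prop hfin
  · rintro D ⟨h1, h2⟩
    rw [hflip]
    exact Or.inl ⟨h1, fun h3 => hCt' (h3 ▸ h2)⟩

end QPl
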