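import Pool.Agent.Lib.MP_d3a5e5_co.X3c

set_option autoImplicit false

namespace QPl

open Finsupp SimpleGraph

def TrG {V : Type} (G : SimpleGraph V) (E : Set (Set V)) : SimpleGraph (TT G E) where
  Adj s t := s ≠ t ∧ ∃ C, C ∈ E ∧ Cᶜ ∈ E ∧ s.1 = op E Cᶜ ∧ t.1 = op E C
  symm := ⟨by
    rintro s t ⟨h, C, h1, h2, h3, h4⟩
    exact ⟨h.symm, Cᶜ, h2, by rwa [compl_compl], by rwa [compl_compl], h3⟩⟩
  loopless := ⟨fun s h => h.1 rfl⟩

theorem X3d_aux1 {V : Type} {G : SimpleGraph V} {K : ℕ} {E : Set (Set V)} (hc : G.Connected) (hf : ∀ v, (G.neighborSet v).Finite)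
    (hcyc : CycGen G 3) (hE : Fam G K E) {t₀ s t : Set (Set V)} (h0 : t₀ ∈ TT G E) (hs0 : s ∈ TT G E) (ht0 : t ∈ TT G E)
    {C : Set V} (hC : C ∈ E) (hs : s = op E Cᶜ) (ht : t = op E C) :
    (C ∈ t₀ → (t \ t₀).ncard = (s \ t₀).ncard + 1) ∧ (C ∉ t₀ → (s \ t₀).ncard = (t \ t₀).ncard + 1) := by
  obtain ⟨h1, h2, h3, h4, h5⟩ := op_flip hE hC
  rw [← hs] at h1 h4
  rw [← ht] at h2 h3
  rw [← hs, ← ht] at h5
  have hcons := (TT_cons hE h0).2.1 C hC
  constructor
  · intro hC0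
    have hCc : Cᶜ ∉ t₀ := by
      rcases hcons with h | h
      · exact h.2
      · exact absurd hC0 h.1
    have e : t \ t₀ = insert Cᶜ (s \ t₀) := by
      rw [h5]
      ext x
      simp only [Set.mem_diff, Set.mem_union, Set.mem_singleton_iff, Set.mem_insert_iff]
      constructor
      · rintro ⟨h | h, h'⟩
        · exact Or.inr ⟨h.1, h'⟩
        · exact Or.inl h
      · rintro (h | h)
        · exact ⟨Or.inr h, by rw [h]; exact hCc⟩
        · refine ⟨Or.inl ⟨h.1, ?_⟩, h.2⟩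
          rintro rfl
          exact h.2 hC0
    rw [e, Set.ncard_insert_of_notMem (fun h => h4 h.1) (diff_finite hc hf hcyc hE hs0 h0)]
  · intro hC0
    have hCc : Cᶜ ∈ t₀ := by
      rcases hcons with h | h
      · exact absurd h.1 hC0
      · exact h.2
    have e : s \ t₀ = insert C (t \ t₀) := by
      rw [h5]
      ext x
      simp only [Set.mem_diff, Set.mem_union, Set.mem_singleton_iff, Set.mem_insert_iff]
      constructor
      · rintro ⟨h, h'⟩
        by_cases hx : x = C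
        · exact Or.inl hx
        · exact Or.inr ⟨Or.inl ⟨h, hx⟩, h'⟩
      · rintro (h | ⟨h | h, h'⟩)
        · exact ⟨by rw [h]; exact h1, by rw [h]; exact hC0⟩
        · exact ⟨h.1, h'⟩
        · exfalso
          rw [h] at h'
          exact h' hCc
    rw [e, Set.ncard_insert_of_notMem (fun h => h2 h.1) (diff_finite hc hf hcyc hE ht0 h0)]

theorem tr_dep {V : Type} {G : SimpleGraph V} {K : ℕ} {E : Set (Set V)} (hc : G.Connected) (hf : ∀ v, (G.neighborSet v).Finite)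
    (hcyc : CycGen G 3) (hE : Fam G K E) (t₀ s t : TT G E) (h : (TrG G E).Adj s t) :
    (s.1 \ t₀.1).ncard = (t.1 \ t₀.1).ncard + 1 ∨ (t.1 \ t₀.1).ncard = (s.1 \ t₀.1).ncard + 1 := by
  obtain ⟨_, C, hC, _, hs, ht⟩ := h
  obtain ⟨h1, h2⟩ := X3d_aux1 hc hf hcyc hE t₀.2 s.2 t.2 hC hs ht
  by_cases h0 : C ∈ t₀.1
  · exact Or.inr (h1 h0)
  · exact Or.inl (h2 h0)

theorem tr_parent {V : Type} {G : SimpleGraph V} {K : ℕ} {E : Set (Set V)} (hc : G.Connected) (hf : ∀ v, (G.neighborSet v).Finite)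
    (hcyc : CycGen G 3) (hE : Fam G K E) (t₀ s t t' : TT G E) (h : (TrG G E).Adj s t) (h' : (TrG G E).Adj s t')
    (hd : (t.1 \ t₀.1).ncard < (s.1 \ t₀.1).ncard) (hd' : (t'.1 \ t₀.1).ncard < (s.1 \ t₀.1).ncard) : t = t' := by
  obtain ⟨_, C, hC, _, hs, ht⟩ := h
  obtain ⟨_, C', hC', _, hs', ht'⟩ := h'
  have hC0 : C ∉ t₀.1 := by
    intro h0
    have := (X3d_aux1 hc hf hcyc hE t₀.2 s.2 t.2 hC hs ht).1 h0
    omega
  have hC0' : C' ∉ t₀.1 := by
    intro h0
    have := (X3d_aux1 hc hf hcyc hE t₀.2 s.2 t'.2 hC' hs' ht').1 h0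
    omega
  have hCs : C ∈ s.1 := by
    rw [hs]
    exact (op_flip hE hC).1
  have hCs' : C' ∈ s.1 := by
    rw [hs']
    exact (op_flip hE hC').1
  have hCC : C = C' := by
    rcases hE.nest C hC C' hC' with h | h | h | h
    · exact op_min hE hC' (by rw [← hs']; exact hCs) h
    · exact (op_min hE hC (by rw [← hs]; exact hCs') h).symm
    · exfalso
      have h1 : C'ᶜ ∈ s.1 := (TT_cons hE s.2).2.2 C hCs _ (hE.compl _ hC') h
      rcases (TT_cons hE s.2).2.1 C' hC' with h2 | h2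
      · exact h2.2 h1
      · exact h2.1 hCs'
    · exfalso
      have h1 : C'ᶜ ∈ t₀.1 := by
        rcases (TT_cons hE t₀.2).2.1 C' hC' with h2 | h2
        · exact absurd h2.1 hC0'
        · exact h2.2
      exact hC0 ((TT_cons hE t₀.2).2.2 _ h1 _ hC h)
  apply Subtype.ext
  rw [ht, ht', hCC]

theorem X3d_aux2 {V : Type} {G : SimpleGraph V} {K : ℕ} {E : Set (Set V)} (hc : G.Connected) (hf : ∀ v, (G.neighborSet v).Finite)
    (hcyc : CycGen G 3) (hE : Fam G K E) (t : TT G E) : ∀ (n : ℕ) (s : TT G E), (s.1 \ t.1).ncard = n →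
    ∃ w : (TrG G E).Walk s t, w.length = n ∧ (∀ r ∈ w.support, s.1 ∩ t.1 ⊆ r.1) ∧
      ∀ D ∈ w.darts, ∃ C ∈ E, C ∈ s.1 ∧ C ∉ t.1 ∧ D.fst.1 = op E Cᶜ ∧ D.snd.1 = op E C := by
  intro n
  induction n with
  | zero =>
    intro s hn
    by_cases hst : s = t
    · subst hst
      refine ⟨SimpleGraph.Walk.nil, rfl, ?_, ?_⟩
      · intro r hr
        rw [SimpleGraph.Walk.support_nil, List.mem_singleton] at hr
        rw [hr]
        exact Set.inter_subset_left
      · intro D hD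
        simp at hD
    · exfalso
      obtain ⟨C, _, _, _, _, _, _, h, _⟩ := tree_step hc hf hcyc hE s.2 t.2 (fun h => hst (Subtype.ext h))
      omega
  | succ n ih =>
    intro s hn
    have hst : s.1 ≠ t.1 := by
      intro h
      rw [h] at hn
      simp at hn
    obtain ⟨C, hC, hCs, hCt, _, hs, hop, hcard, hsub⟩ := tree_step hc hf hcyc hE s.2 t.2 hst
    obtain ⟨h1, h2, h3, h4, h5⟩ := op_flip hE hC
    rw [← hs] at h5
    obtain ⟨w, hw1, hw2, hw3⟩ := ih ⟨op E C, hop⟩ (by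
      change (op E C \ t.1).ncard = n
      omega)
    have hadj : (TrG G E).Adj s ⟨op E C, hop⟩ := by
      refine ⟨?_, C, hC, hE.compl _ hC, hs, rfl⟩
      intro h
      rw [h] at hCs
      exact h2 hCs
    have hCt' : Cᶜ ∈ t.1 := by
      rcases (TT_cons hE t.2).2.1 C hC with h | h
      · exact absurd h.1 hCt
      · exact h.2
    refine ⟨SimpleGraph.Walk.cons hadj w, ?_, ?_, ?_⟩
    · rw [SimpleGraph.Walk.length_cons, hw1]
    · intro r hr
      rw [SimpleGraph.Walk.support_cons, List.mem_cons] at hr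
      rcases hr with hr | hr
      · rw [hr]
        exact Set.inter_subset_left
      · intro x hx
        exact hw2 r hr ⟨hsub hx, hx.2⟩
    · intro D hD
      rw [SimpleGraph.Walk.darts_cons, List.mem_cons] at hD
      rcases hD with hD | hD
      · subst hD
        exact ⟨C, hC, hCs, hCt, hs, rfl⟩
      · obtain ⟨C', hC', hC1, hC2, hC3, hC4⟩ := hw3 D hD
        refine ⟨C', hC', ?_, hC2, hC3, hC4⟩
        have hC1' : C' ∈ op E C := hC1
        rw [h5] at hC1'
        rcases hC1' with h | h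
        · exact h.1
        · exfalso
          rw [Set.mem_singleton_iff] at h
          rw [h] at hC2
          exact hC2 hCt'

theorem tr_path {V : Type} {G : SimpleGraph V} {K : ℕ} {E : Set (Set V)} (hc : G.Connected) (hf : ∀ v, (G.neighborSet v).Finite)
    (hcyc : CycGen G 3) (hE : Fam G K E) (s t : TT G E) :
    ∃ w : (TrG G E).Walk s t, w.length = (s.1 \ t.1).ncard ∧ (∀ r ∈ w.support, s.1 ∩ t.1 ⊆ r.1) ∧
      ∀ D ∈ w.darts, ∃ C ∈ E, C ∈ s.1 ∧ C ∉ t.1 ∧ D.fst.1 = op E Cᶜ ∧ D.snd.1 = op E C :=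
  X3d_aux2 hc hf hcyc hE t _ s rfl

end QPl
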