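import Pool.Agent.Lib.MP_d3a5e5_co.X3a
import Pool.Agent.Lib.MP_d3a5e5_co.D4

set_option autoImplicit false

namespace QPl

open Finsupp SimpleGraph

theorem bd_sub_BT {V : Type} {G : SimpleGraph V} {K : ℕ} {E : Set (Set V)} (hE : Fam G K E) {C : Set V} (hC : C ∈ E) {x y : V}
    (h : G.Adj x y) (hx : x ∈ C) (hy : y ∉ C) :
    x ∈ BT G E (op E C) ∧ y ∈ BT G E (op E C) ∧ x ∈ BT G E (op E Cᶜ) ∧ y ∈ BT G E (op E Cᶜ) := by
  have key : ∀ D, D ∈ Or E x → D ∈ Or E y → D ∈ op E C ∧ D ∈ op E Cᶜ := by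
    rintro D ⟨hD, hxD⟩ ⟨-, hyD⟩
    have h1 : C ⊆ D ∨ Cᶜ ⊆ D := by
      rcases hE.nest C hC D hD with h2 | h2 | h2 | h2
      · exact Or.inl h2
      · exact absurd (h2 hyD) hy
      · exact absurd hxD (h2 hx)
      · exact Or.inr (Set.compl_subset_comm.1 h2)
    refine ⟨⟨hD, fun h2 => hy (h2 ▸ hyD), h1⟩, ⟨hD, fun h2 => ?_, ?_⟩⟩
    · rw [h2] at hxD
      exact hxD hx
    · rw [compl_compl]
      exact h1.symm
  refine ⟨⟨y, Or.inr h, fun D hD => (key D hD.1 hD.2).1⟩, ⟨x, Or.inr h.symm, fun D hD => (key D hD.2 hD.1).1⟩,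
    ⟨y, Or.inr h, fun D hD => (key D hD.1 hD.2).2⟩, ⟨x, Or.inr h.symm, fun D hD => (key D hD.2 hD.1).2⟩⟩

theorem BT_side {V : Type} {G : SimpleGraph V} {E : Set (Set V)} {t : Set (Set V)} {C : Set V} (hC : C ∈ E)
    (hCt : C ∉ t) {x : V} (hx : x ∈ BT G E t) (hxC : x ∈ C) : ∃ y, G.Adj x y ∧ y ∉ C := by
  obtain ⟨y, hxy, hsub⟩ := hx
  have hy : y ∉ C := fun hy => hCt (hsub ⟨⟨hC, hxC⟩, ⟨hC, hy⟩⟩)
  rcases hxy with h | h
  · exact absurd (h ▸ hxC) hy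
  · exact ⟨y, h, hy⟩

theorem BT_side_finite {V : Type} {G : SimpleGraph V} {K : ℕ} {E : Set (Set V)} (hE : Fam G K E) {t : Set (Set V)} {C : Set V} (hC : C ∈ E)
    (hCt : C ∉ t) : (BT G E t ∩ C).Finite := by
  have h1 : (⋃ e ∈ cutE G C, {x : V | x ∈ e}).Finite := by
    refine Set.Finite.biUnion (hE.tight C hC).fin (fun e _ => ?_)
    induction e using Sym2.ind with
    | _ a b =>
      refine Set.Finite.subset (Set.toFinite {a, b}) (fun z hz => ?_)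
      rcases Sym2.mem_iff.1 hz with h | h
      · exact Or.inl h
      · exact Or.inr h
  refine h1.subset (fun x hx => ?_)
  obtain ⟨y, hxy, hy⟩ := BT_side hC hCt hx.1 hx.2
  exact Set.mem_biUnion (show s(x, y) ∈ cutE G C from ⟨hxy, x, y, rfl, hx.2, hy⟩) (Sym2.mem_mk_left x y)

theorem cut_near {V : Type} {G : SimpleGraph V} {K : ℕ} {E : Set (Set V)} (hc : G.Connected) (hcyc : CycGen G 3) (hE : Fam G K E) {C : Set V} (hC : C ∈ E)
    {x y x' y' : V} (h : G.Adj x y) (h' : G.Adj x' y') (hx : x ∈ C) (hy : y ∉ C) (hx' : x' ∈ C) (hy' : y' ∉ C) :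
    G.dist x x' ≤ 4 * K + 1 ∧ G.dist x y' ≤ 4 * K + 1 ∧ G.dist y y' ≤ 4 * K + 1 := by
  have he : s(x, y) ∈ cutE G C := ⟨h, x, y, rfl, hx, hy⟩
  have he' : s(x', y') ∈ cutE G C := ⟨h', x', y', rfl, hx', hy'⟩
  have key : ∀ u v : V, u ∈ s(x, y) → v ∈ s(x', y') → G.dist u v ≤ 4 * K + 1 := by
    intro u v hu hv
    have h1 := cut_diam hc hcyc C (hE.tight C hC).conn (hE.tight C hC).conn' (hE.tight C hC).fin he he' hu hv
    have h2 := hE.size C hC
    have h3 : (cutE G C).ncard * (3 + 1) ≤ K * (3 + 1) := Nat.mul_le_mul_right _ h2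
    omega
  exact ⟨key x x' (Sym2.mem_mk_left x y) (Sym2.mem_mk_left x' y'), key x y' (Sym2.mem_mk_left x y) (Sym2.mem_mk_right x' y'),
    key y y' (Sym2.mem_mk_right x y) (Sym2.mem_mk_right x' y')⟩

theorem BT_of_maj {V : Type} {G : SimpleGraph V} {E : Set (Set V)} {x y z : V} (h1 : Eqa G x y) (h2 : Eqa G y z) (h3 : Eqa G x z) :
    x ∈ BT G E (maj E x y z) ∧ y ∈ BT G E (maj E x y z) ∧ z ∈ BT G E (maj E x y z) := by
  have hs : ∀ a b : V, Eqa G a b → Eqa G b a := fun a b h => h.elim (fun h => Or.inl h.symm) (fun h => Or.inr h.symm)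
  refine ⟨⟨y, h1, fun C hC => ⟨hC.1.1, Or.inl ⟨hC.1.2, hC.2.2⟩⟩⟩, ⟨x, hs _ _ h1, fun C hC => ⟨hC.1.1, Or.inl ⟨hC.2.2, hC.1.2⟩⟩⟩,
    ⟨x, hs _ _ h3, fun C hC => ⟨hC.1.1, Or.inr (Or.inr ⟨hC.2.2, hC.1.2⟩)⟩⟩⟩

theorem BT_count {V : Type} {G : SimpleGraph V} {K : ℕ} {E : Set (Set V)} (hc : G.Connected) (hf : ∀ v, (G.neighborSet v).Finite)
    (hcyc : CycGen G 3) (hE : Fam G K E) (x : V) : {t | t ∈ TT G E ∧ x ∈ BT G E t}.Finite := by
  have h1 : {y | Eqa G x y}.Finite := by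
    refine Set.Finite.subset ((Set.finite_singleton x).union (hf x)) (fun y hy => ?_)
    rcases hy with h | h
    · exact Or.inl h.symm
    · exact Or.inr h
  have h2 : ∀ y, {t | t ∈ TT G E ∧ Or E x ∩ Or E y ⊆ t}.Finite := by
    intro y
    have h3 : (Or E x \ Or E y).Finite := diff_finite hc hf hcyc hE (Or_mem_TT G E x) (Or_mem_TT G E y)
    refine Set.Finite.of_finite_image (f := fun t : Set (Set V) => t ∩ (Or E x \ Or E y))
      (Set.Finite.subset h3.finite_subsets ?_) ?_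
    · rintro _ ⟨t, _, rfl⟩
      exact Set.inter_subset_right
    · have key : ∀ t t' : Set (Set V), t ∈ TT G E → Or E x ∩ Or E y ⊆ t → t' ∈ TT G E → Or E x ∩ Or E y ⊆ t' →
          t ∩ (Or E x \ Or E y) = t' ∩ (Or E x \ Or E y) → t ⊆ t' := by
        intro t t' ht hs ht' hs' heq C hCt
        have hCE : C ∈ E := (TT_cons hE ht).1 hCt
        have hCcE : Cᶜ ∈ E := hE.compl C hCE
        have hCc : Cᶜ ∉ t := by
          rcases (TT_cons hE ht).2.1 C hCE with h | h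
          · exact h.2
          · exact absurd hCt h.1
        by_cases hxC : x ∈ C
        · by_cases hyC : y ∈ C
          · exact hs' ⟨⟨hCE, hxC⟩, ⟨hCE, hyC⟩⟩
          · have h4 : C ∈ t ∩ (Or E x \ Or E y) := ⟨hCt, ⟨hCE, hxC⟩, fun h => hyC h.2⟩
            rw [heq] at h4
            exact h4.1
        · by_cases hyC : y ∈ C
          · have h4 : Cᶜ ∉ t' := by
              intro h
              have h5 : Cᶜ ∈ t' ∩ (Or E x \ Or E y) := ⟨h, ⟨hCcE, hxC⟩, fun h => h.2 hyC⟩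
              rw [← heq] at h5
              exact hCc h5.1
            rcases (TT_cons hE ht').2.1 C hCE with h | h
            · exact h.1
            · exact absurd h.2 h4
          · exact absurd (hs ⟨⟨hCcE, hxC⟩, ⟨hCcE, hyC⟩⟩) hCc
      rintro t ⟨ht, hs⟩ t' ⟨ht', hs'⟩ heq
      exact Set.Subset.antisymm (key t t' ht hs ht' hs' heq) (key t' t ht' hs' ht hs heq.symm)
  refine Set.Finite.subset (Set.Finite.biUnion h1 (fun y _ => h2 y)) (fun t ht => ?_)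
  obtain ⟨y, hy, hsub⟩ := ht.2
  exact Set.mem_biUnion (show y ∈ {y | Eqa G x y} from hy) ⟨ht.1, hsub⟩

end QPl
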