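import Pool.Agent.Lib.MP_d3a5e5_co.X4a
import Pool.Agent.Lib.MP_d3a5e5_co.X3c

set_option autoImplicit false

namespace QPl

open Finsupp SimpleGraph

structure Retr {V : Type} (G : SimpleGraph V) (B : Set V) (R : ℕ) (r : V → V) : Prop where
  fix : ∀ x ∈ B, r x = x
  mem : ∀ x, r x ∈ B
  adj : ∀ x y, G.Adj x y → r x ≠ r y → (x ∈ B ∨ y ∈ B) ∧ G.dist (r x) (r y) ≤ R

/-- The least cut of the orientation `t` which does not contain `x`. -/
theorem X4b_aux1 {V : Type} {G : SimpleGraph V} {K : ℕ} {E : Set (Set V)} (hc : G.Connected)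
    (hf : ∀ v, (G.neighborSet v).Finite) (hcyc : CycGen G 3) (hE : Fam G K E) {t : Set (Set V)}
    (ht : t ∈ TT G E) {x : V} (hx : x ∉ BT G E t) :
    ∃ C, C ∈ E ∧ C ∈ t ∧ x ∉ C ∧ t = op E Cᶜ ∧ (∀ D ∈ t, D ⊆ C → D = C) ∧
      ∀ D ∈ t, x ∉ D → C ⊆ D := by
  have hne : t ≠ Or E x := by
    intro h
    apply hx
    refine ⟨x, Or.inl rfl, ?_⟩
    rw [h, Set.inter_self]
  obtain ⟨hsub, hex, hup⟩ := TT_cons hE ht
  obtain ⟨C, hCE, hCt, hCx, hmin, hop, -⟩ := tree_step hc hf hcyc hE ht (Or_mem_TT G E x) hne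
  have hxC : x ∉ C := fun h => hCx ⟨hCE, h⟩
  refine ⟨C, hCE, hCt, hxC, hop, hmin, fun D hD hxD => ?_⟩
  have hDE : D ∈ E := hsub hD
  rcases hE.nest C hCE D hDE with h | h | h | h
  · exact h
  · rw [hmin D hD h]
  · exfalso
    have h1 : Dᶜ ∈ t := hup C hCt Dᶜ (hE.compl D hDE) h
    rcases hex D hDE with h2 | h2
    · exact h2.2 h1
    · exact h2.1 hD
  · exact absurd (h hxD) hxC

/-- An edge of the cut. -/
theorem X4b_aux2 {V : Type} {G : SimpleGraph V} {K : ℕ} {E : Set (Set V)} (hc : G.Connected)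
    (hE : Fam G K E) {C : Set V} (hC : C ∈ E) : ∃ b y, G.Adj b y ∧ b ∈ C ∧ y ∉ C := by
  obtain ⟨u, hu⟩ := (hE.tight C hC).ne
  obtain ⟨v, hv⟩ := (hE.tight C hC).ne'
  have hT : Conn G Set.univ := by
    intro a _ c _
    obtain ⟨w⟩ := hc.preconnected a c
    exact ⟨w, fun _ _ => Set.mem_univ _⟩
  obtain ⟨x, y, h1, -, -, h2, h3⟩ := cutE_in_conn (C := C) hT (Set.mem_univ u) (Set.mem_univ v) hu hv
  exact ⟨x, y, h1, h2, h3⟩

/-- The distance of a vertex of the part to the chosen end of the cut of a neighbour. -/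
theorem X4b_aux3 {V : Type} {G : SimpleGraph V} {K : ℕ} {E : Set (Set V)} (hc : G.Connected)
    (hcyc : CycGen G 3) (hE : Fam G K E) {t : Set (Set V)} (ht : t ∈ TT G E) {x y b c : V}
    {C : Set V} (hCE : C ∈ E) (hCt : C ∈ t) (hxy : G.Adj x y) (hx : x ∈ BT G E t) (hy : y ∉ C)
    (hbc : G.Adj b c) (hb : b ∈ C) (hcC : c ∉ C) : G.dist x b ≤ 4 * K + 1 := by
  by_cases hxC : x ∈ C
  · exact (cut_near hc hcyc hE hCE hxy hbc hxC hy hb hcC).1
  · have hCc : Cᶜ ∉ t := by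
      rcases (TT_cons hE ht).2.1 C hCE with h | h
      · exact h.2
      · exact absurd hCt h.1
    obtain ⟨z, hz1, hz2⟩ := BT_side (hE.compl C hCE) hCc hx hxC
    have hz : z ∈ C := not_not.1 hz2
    have h1 := (cut_near hc hcyc hE hCE hbc hz1.symm hb hcC hz hxC).2.1
    rw [SimpleGraph.dist_comm]
    exact h1

theorem exists_retr {V : Type} {G : SimpleGraph V} {K : ℕ} {E : Set (Set V)} (hc : G.Connected) (hf : ∀ v, (G.neighborSet v).Finite)
    (hcyc : CycGen G 3) (hE : Fam G K E) {t : Set (Set V)} (ht : t ∈ TT G E) : ∃ r, Retr G (BT G E t) (4 * K + 1) r := by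
  classical
  have h1 : ∀ x : V, ∃ C : Set V, x ∉ BT G E t → C ∈ E ∧ C ∈ t ∧ x ∉ C ∧ t = op E Cᶜ ∧
      (∀ D ∈ t, D ⊆ C → D = C) ∧ ∀ D ∈ t, x ∉ D → C ⊆ D := by
    intro x
    by_cases hx : x ∈ BT G E t
    · exact ⟨∅, fun h => absurd hx h⟩
    · obtain ⟨C, hC⟩ := X4b_aux1 hc hf hcyc hE ht hx
      exact ⟨C, fun _ => hC⟩
  choose Cx hCx using h1
  have h2 : ∀ C : Set V, ∃ b : V, C ∈ E → ∃ y, G.Adj b y ∧ b ∈ C ∧ y ∉ C := by
    intro C
    by_cases hC : C ∈ E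
    · obtain ⟨b, hb⟩ := X4b_aux2 hc hE hC
      exact ⟨b, fun _ => hb⟩
    · exact ⟨hc.nonempty.some, fun h => absurd h hC⟩
  choose b hb using h2
  refine ⟨fun x => if x ∈ BT G E t then x else b (Cx x), ?_, ?_, ?_⟩
  · intro x hx
    exact if_pos hx
  · intro x
    show (if x ∈ BT G E t then x else b (Cx x)) ∈ BT G E t
    by_cases hx : x ∈ BT G E t
    · rw [if_pos hx]
      exact hx
    · rw [if_neg hx]
      obtain ⟨k1, k2, k3, k4, k5, k6⟩ := hCx x hx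
      obtain ⟨y, hy1, hy2, hy3⟩ := hb _ k1
      have h3 := (bd_sub_BT hE k1 hy1 hy2 hy3).2.2.1
      rw [← k4] at h3
      exact h3
  · intro x y hxy hne
    by_cases hx : x ∈ BT G E t
    · by_cases hy : y ∈ BT G E t
      · rw [if_pos hx, if_pos hy]
        refine ⟨Or.inl hx, ?_⟩
        rw [SimpleGraph.dist_eq_one_iff_adj.2 hxy]
        omega
      · rw [if_pos hx, if_neg hy]
        refine ⟨Or.inl hx, ?_⟩
        obtain ⟨k1, k2, k3, k4, k5, k6⟩ := hCx y hy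
        obtain ⟨c, hc1, hc2, hc3⟩ := hb _ k1
        exact X4b_aux3 hc hcyc hE ht k1 k2 hxy hx k3 hc1 hc2 hc3
    · by_cases hy : y ∈ BT G E t
      · rw [if_neg hx, if_pos hy]
        refine ⟨Or.inr hy, ?_⟩
        obtain ⟨k1, k2, k3, k4, k5, k6⟩ := hCx x hx
        obtain ⟨c, hc1, hc2, hc3⟩ := hb _ k1
        rw [SimpleGraph.dist_comm]
        exact X4b_aux3 hc hcyc hE ht k1 k2 hxy.symm hy k3 hc1 hc2 hc3
      · exfalso
        rw [if_neg hx, if_neg hy] at hne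
        obtain ⟨k1, k2, k3, k4, k5, k6⟩ := hCx x hx
        obtain ⟨l1, l2, l3, l4, l5, l6⟩ := hCx y hy
        by_cases hyC : y ∈ Cx x
        · have h3 := (bd_sub_BT hE k1 hxy.symm hyC k3).2.2.2
          rw [← k4] at h3
          exact hx h3
        · have h3 := l6 (Cx x) k2 hyC
          have h4 := k5 (Cx y) l2 h3
          rw [h4] at hne
          exact hne rfl

end QPl
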