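import Pool.Agent.Lib.MP_d3a5e5_co.X4b
import Pool.Agent.Lib.MP_d3a5e5_co.C2

set_option autoImplicit false

namespace QPl

open Finsupp SimpleGraph

open Classical in
/-- The push forward of edge chains under a retraction. -/
noncomputable def X4c_rs {V : Type} {B : Set V} (rB : V → B) : EC V →ₗ[ZMod 2] EC B :=
  Finsupp.linearCombination (ZMod 2)
    (fun e : Sym2 V => if (e.map rB).IsDiag then (0 : EC B) else Finsupp.single (e.map rB) 1)

theorem X4c_rs_eq {V : Type} {B : Set V} (rB : V → B) {x y : V} (h : rB x = rB y) :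
    X4c_rs rB (Finsupp.single s(x, y) 1) = 0 := by
  unfold X4c_rs
  rw [Finsupp.linearCombination_single, one_smul, Sym2.map_mk, if_pos]
  exact h

theorem X4c_rs_ne {V : Type} {B : Set V} (rB : V → B) {x y : V} (h : rB x ≠ rB y) :
    X4c_rs rB (Finsupp.single s(x, y) 1) = Finsupp.single s(rB x, rB y) 1 := by
  unfold X4c_rs
  rw [Finsupp.linearCombination_single, one_smul, Sym2.map_mk, if_neg]
  exact h

theorem X4c_push {V : Type} {G : SimpleGraph V} {B : Set V} {R : ℕ} {r : V → V} (hr : Retr G B R r)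
    (rB : V → B) (hrB : ∀ x, (rB x : V) = r x) {x y : V} (p : G.Walk x y) :
    ∃ p' : ((PW G R).induce B).Walk (rB x) (rB y), p'.length ≤ p.length ∧ wv p' = X4c_rs rB (wv p) := by
  induction p with
  | nil =>
    refine ⟨SimpleGraph.Walk.nil, le_refl _, ?_⟩
    unfold wv
    simp
  | @cons u v w h p ih =>
    obtain ⟨p', hl, hw⟩ := ih
    by_cases he : rB u = rB v
    · rw [he]
      refine ⟨p', ?_, ?_⟩
      · rw [SimpleGraph.Walk.length_cons]
        omega
      · rw [wv_cons, map_add, X4c_rs_eq rB he, zero_add, hw]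
    · have hne : r u ≠ r v := by
        rw [← hrB, ← hrB]
        exact fun h' => he (Subtype.ext h')
      have hadj : ((PW G R).induce B).Adj (rB u) (rB v) := by
        show (PW G R).Adj (rB u : V) (rB v : V)
        rw [hrB, hrB]
        exact ⟨hne, (hr.adj u v h hne).2⟩
      refine ⟨SimpleGraph.Walk.cons hadj p', ?_, ?_⟩
      · rw [SimpleGraph.Walk.length_cons, SimpleGraph.Walk.length_cons]
        omega
      · rw [wv_cons, wv_cons, map_add, X4c_rs_ne rB he, hw]

theorem X4c_push' {V : Type} {G : SimpleGraph V} {B : Set V} {R : ℕ} {r : V → V} (hr : Retr G B R r)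
    (rB : V → B) (hrB : ∀ x, (rB x : V) = r x) {a b : B} (p : G.Walk (a : V) (b : V)) :
    ∃ p' : ((PW G R).induce B).Walk a b, p'.length ≤ p.length ∧ wv p' = X4c_rs rB (wv p) := by
  have hfix : ∀ c : B, rB (c : V) = c := fun c => Subtype.ext (by rw [hrB]; exact hr.fix c c.2)
  have h := X4c_push hr rB hrB p
  rw [hfix a, hfix b] at h
  exact h

theorem X4c_step {V : Type} {G : SimpleGraph V} (hc : G.Connected) {B : Set V} {R : ℕ} {r : V → V} (hr : Retr G B R r)
    (rB : V → B) (hrB : ∀ x, (rB x : V) = r x) {a b : B} (w : ((PW G R).induce B).Walk a b) :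
    ∃ q : G.Walk (a : V) (b : V), wv w + X4c_rs rB (wv q) ∈ Submodule.span (ZMod 2)
      {c | ∃ (u : B) (w' : ((PW G R).induce B).Walk u u), w'.length ≤ R + 3 ∧ c = wv w'} := by
  induction w with
  | nil =>
    refine ⟨SimpleGraph.Walk.nil, ?_⟩
    unfold wv
    simp
  | @cons a c b h w ih =>
    obtain ⟨q', hq'⟩ := ih
    have h' : (PW G R).Adj (a : V) (c : V) := h
    obtain ⟨q0, hq0⟩ := hc.exists_walk_length_eq_dist (a : V) (c : V)
    obtain ⟨p0, hl0, hw0⟩ := X4c_push' hr rB hrB q0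
    refine ⟨q0.append q', ?_⟩
    have h1 : Finsupp.single s(a, c) 1 + wv p0 ∈ Submodule.span (ZMod 2)
        {c | ∃ (u : B) (w' : ((PW G R).induce B).Walk u u), w'.length ≤ R + 3 ∧ c = wv w'} := by
      refine Submodule.subset_span ⟨a, SimpleGraph.Walk.cons h p0.reverse, ?_, ?_⟩
      · rw [SimpleGraph.Walk.length_cons, SimpleGraph.Walk.length_reverse]
        have := h'.2
        omega
      · rw [wv_cons, wv_reverse]
    have h2 := Submodule.add_mem _ h1 hq'
    rw [wv_cons, wv_append, map_add, ← hw0]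
    have h3 : Finsupp.single s(a, c) 1 + wv p0 + (wv w + X4c_rs rB (wv q')) =
        Finsupp.single s(a, c) 1 + wv w + (wv p0 + X4c_rs rB (wv q')) := by abel
    rw [h3] at h2
    exact h2

theorem retr_conn {V : Type} {G : SimpleGraph V} (hc : G.Connected) {B : Set V} {R : ℕ} {r : V → V} (hr : Retr G B R r) :
    ((PW G R).induce B).Connected := by
  obtain ⟨v0⟩ := hc.nonempty
  have : Nonempty B := ⟨⟨r v0, hr.mem v0⟩⟩
  refine ⟨fun a b => ?_⟩
  obtain ⟨p⟩ := hc.preconnected (a : V) (b : V)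
  obtain ⟨p', _, _⟩ := X4c_push' hr (fun x => ⟨r x, hr.mem x⟩) (fun _ => rfl) p
  exact ⟨p'⟩

theorem retr_cyc {V : Type} {G : SimpleGraph V} (hc : G.Connected) (hcyc : CycGen G 3) {B : Set V} {R : ℕ} {r : V → V} (hr : Retr G B R r) :
    CycGen ((PW G R).induce B) (R + 3) := by
  intro v w
  obtain ⟨rB, hrB⟩ : ∃ rB : V → B, ∀ x, (rB x : V) = r x := ⟨fun x => ⟨r x, hr.mem x⟩, fun _ => rfl⟩
  obtain ⟨q, hq⟩ := X4c_step hc hr rB hrB w
  have h1 := hcyc (v : V) q
  have h2 : Submodule.span (ZMod 2) {c | ∃ (u : V) (w' : G.Walk u u), w'.length ≤ 3 ∧ c = wv w'} ≤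
      (Submodule.span (ZMod 2) {c | ∃ (u : B) (w' : ((PW G R).induce B).Walk u u), w'.length ≤ R + 3 ∧ c = wv w'}).comap
        (X4c_rs rB) := by
    rw [Submodule.span_le]
    rintro c ⟨u, w', hl, rfl⟩
    obtain ⟨p', hl', hw'⟩ := X4c_push hr rB hrB w'
    refine Submodule.subset_span ⟨rB u, p', by omega, hw'.symm⟩
  have h3 := Submodule.add_mem _ hq (h2 h1)
  have h4 : wv w + X4c_rs rB (wv q) + X4c_rs rB (wv q) = wv w := by
    rw [add_assoc]
    have : X4c_rs rB (wv q) + X4c_rs rB (wv q) = 0 := Finsupp.ext fun e => CharTwo.add_self_eq_zero _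
    rw [this, add_zero]
  rw [h4] at h3
  exact h3

end QPl
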