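import Pool.Agent.Lib.MP_d3a5e5_co.X4b

set_option autoImplicit false

namespace QPl

open Finsupp SimpleGraph

theorem X4d_aux1 {V : Type} {S : Set V} (hS : S.Infinite) : ∃ a : Ultrafilter V, NP a ∧ S ∈ a := by
  have h1 : (Filter.cofinite ⊓ Filter.principal S).NeBot := hS.cofinite_inf_principal_neBot
  refine ⟨Ultrafilter.of (Filter.cofinite ⊓ Filter.principal S), ?_, ?_⟩
  · intro T hT hTf
    have h2 : Tᶜ ∈ (Filter.cofinite ⊓ Filter.principal S : Filter V) :=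
      Filter.mem_inf_of_left hTf.compl_mem_cofinite
    have h3 := Ultrafilter.of_le (Filter.cofinite ⊓ Filter.principal S) h2
    exact Ultrafilter.compl_notMem_iff.2 hT h3
  · exact Ultrafilter.of_le (Filter.cofinite ⊓ Filter.principal S)
      (Filter.mem_inf_of_right (Filter.mem_principal_self S))

theorem X4d_aux2 {V : Type} {G : SimpleGraph V} (hf : ∀ v, (G.neighborSet v).Finite) {T : Set V} (hT : T.Finite) :
    {e : Sym2 V | e ∈ G.edgeSet ∧ ∃ x ∈ T, x ∈ e}.Finite := by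
  refine (hT.biUnion fun x _ => (hf x).image fun y => s(x, y)).subset ?_
  rintro e ⟨he, x, hx, hxe⟩
  obtain ⟨y, rfl⟩ := Sym2.mem_iff_exists.1 hxe
  exact Set.mem_biUnion hx ⟨y, he, rfl⟩

theorem torso_end {V : Type} {G : SimpleGraph V} {K : ℕ} {E : Set (Set V)} (hc : G.Connected) (hf : ∀ v, (G.neighborSet v).Finite)
    (hcyc : CycGen G 3) (hE : Fam G K E) {t : Set (Set V)} (ht : t ∈ TT G E) : AtMostOneEnd (torso G E (4 * K + 1) t) := by
  intro U hU
  by_contra hcon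
  push Not at hcon
  obtain ⟨hU1, hU2⟩ := hcon
  obtain ⟨r, hr⟩ := exists_retr hc hf hcyc hE ht
  let U' : Set V := {x | (⟨r x, hr.mem x⟩ : BT G E t) ∈ U}

  let T : Set V := {x | ∃ e ∈ cutE (torso G E (4 * K + 1) t) U, ∃ z : BT G E t, z ∈ e ∧ x = z.1}
  have hT : T.Finite := by
    refine (hU.biUnion (t := fun e => {x : V | ∃ z : BT G E t, z ∈ e ∧ x = z.1}) fun e _ => ?_).subset ?_
    · induction e using Sym2.ind with
      | _ p q =>
        refine (Set.toFinite ({p.1, q.1} : Set V)).subset ?_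
        rintro x ⟨z, hz, rfl⟩
        rcases Sym2.mem_iff.1 hz with rfl | rfl
        · exact Or.inl rfl
        · exact Or.inr rfl
    · rintro x ⟨e, he, z, hz, rfl⟩
      exact Set.mem_biUnion he ⟨z, hz, rfl⟩
  have hfin : (cutE G U').Finite := by
    refine (X4d_aux2 hf hT).subset ?_
    rintro e ⟨he, x, y, rfl, hx, hy⟩
    refine ⟨he, ?_⟩
    have hxy : G.Adj x y := he
    have hne : r x ≠ r y := by
      intro h
      apply hy
      show (⟨r y, hr.mem y⟩ : BT G E t) ∈ U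
      have h1 : (⟨r y, hr.mem y⟩ : BT G E t) = ⟨r x, hr.mem x⟩ := Subtype.ext h.symm
      rw [h1]
      exact hx
    obtain ⟨h1, h2⟩ := hr.adj x y hxy hne
    have hcut : s((⟨r x, hr.mem x⟩ : BT G E t), (⟨r y, hr.mem y⟩ : BT G E t)) ∈
        cutE (torso G E (4 * K + 1) t) U := by
      refine ⟨?_, _, _, rfl, hx, hy⟩
      exact ⟨hne, h2⟩
    rcases h1 with h1 | h1
    · refine ⟨x, ⟨_, hcut, ⟨r x, hr.mem x⟩, Sym2.mem_mk_left _ _, (hr.fix x h1).symm⟩, Sym2.mem_mk_left _ _⟩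
    · refine ⟨y, ⟨_, hcut, ⟨r y, hr.mem y⟩, Sym2.mem_mk_right _ _, (hr.fix y h1).symm⟩, Sym2.mem_mk_right _ _⟩
  obtain ⟨a, ha, haU⟩ := X4d_aux1 (hU1.image Subtype.val_injective.injOn)
  obtain ⟨b, hb, hbU⟩ := X4d_aux1 (hU2.image Subtype.val_injective.injOn)
  have haU' : U' ∈ a := by
    refine Filter.mem_of_superset haU ?_
    rintro x ⟨z, hz, rfl⟩
    show (⟨r z.1, hr.mem z.1⟩ : BT G E t) ∈ U
    have h1 : (⟨r z.1, hr.mem z.1⟩ : BT G E t) = z := Subtype.ext (hr.fix z.1 z.2)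
    rw [h1]
    exact hz
  have hbU' : U'ᶜ ∈ b := by
    refine Filter.mem_of_superset hbU ?_
    rintro x ⟨z, hz, rfl⟩
    show ¬ (⟨r z.1, hr.mem z.1⟩ : BT G E t) ∈ U
    have h1 : (⟨r z.1, hr.mem z.1⟩ : BT G E t) = z := Subtype.ext (hr.fix z.1 z.2)
    rw [h1]
    exact hz
  have haB : BT G E t ∈ a := by
    refine Filter.mem_of_superset haU ?_
    rintro x ⟨z, _, rfl⟩
    exact z.2
  have hbB : BT G E t ∈ b := by
    refine Filter.mem_of_superset hbU ?_
    rintro x ⟨z, _, rfl⟩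
    exact z.2
  obtain ⟨C, hC, hCa, hCb⟩ := hE.split a b ha hb U' hfin haU' hbU'
  rcases (TT_cons hE ht).2.1 C hC with ⟨_, h2⟩ | ⟨h2, _⟩
  · exact hb _ (Filter.inter_mem hbB hCb) (BT_side_finite hE (hE.compl C hC) h2)
  · exact ha _ (Filter.inter_mem haB hCa) (BT_side_finite hE hC h2)

end QPl
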