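import Pool.Agent.Lib.MP_d3a5e5_co.X4a
import Pool.Agent.Lib.MP_d3a5e5_co.C5

set_option autoImplicit false

namespace QPl

open Finsupp SimpleGraph

private theorem X4e_symm {V : Type} {G : SimpleGraph V} (φ : G ≃g G) (C : Set V) : φ '' (φ.symm '' C) = C := by
  rw [Set.image_image]
  have e : ∀ x, φ (φ.symm x) = x := fun x => φ.toEquiv.apply_symm_apply x
  simp only [e, Set.image_id']

private theorem X4e_symm' {V : Type} {G : SimpleGraph V} (φ : G ≃g G) (C : Set V) : φ.symm '' (φ '' C) = C := by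
  rw [Set.image_image]
  have e : ∀ x, φ.symm (φ x) = x := fun x => φ.toEquiv.symm_apply_apply x
  simp only [e, Set.image_id']

private theorem X4e_inj {V : Type} {G : SimpleGraph V} (φ : G ≃g G) : Function.Injective (Set.image φ) :=
  Set.image_injective.2 φ.injective

private theorem X4e_memE {V : Type} {G : SimpleGraph V} {K : ℕ} {E : Set (Set V)} (hE : Fam G K E) (φ : G ≃g G) (C : Set V) :
    φ '' C ∈ E ↔ C ∈ E := by
  constructor
  · intro h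
    have h1 := hE.inv φ.symm _ h
    rw [X4e_symm'] at h1
    exact h1
  · exact hE.inv φ C

private theorem X4e_mem {V : Type} {G : SimpleGraph V} (φ : G ≃g G) (C : Set V) (x : V) : φ x ∈ φ '' C ↔ x ∈ C :=
  φ.injective.mem_set_image

private theorem X4e_ex {V : Type} {G : SimpleGraph V} (φ : G ≃g G) (D : Set V) : ∃ C, φ '' C = D :=
  ⟨φ.symm '' D, X4e_symm φ D⟩

private theorem X4e_Or {V : Type} {G : SimpleGraph V} {K : ℕ} {E : Set (Set V)} (hE : Fam G K E) (φ : G ≃g G) (x : V) (C : Set V) :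
    φ '' C ∈ Or E (φ x) ↔ C ∈ Or E x := by
  show (φ '' C ∈ E ∧ φ x ∈ φ '' C) ↔ (C ∈ E ∧ x ∈ C)
  rw [X4e_memE hE, X4e_mem]

private theorem X4e_maj {V : Type} {G : SimpleGraph V} {K : ℕ} {E : Set (Set V)} (hE : Fam G K E) (φ : G ≃g G) (x y z : V) :
    (Set.image φ) '' (maj E x y z) = maj E (φ x) (φ y) (φ z) := by
  ext D
  obtain ⟨C, rfl⟩ := X4e_ex φ D
  rw [(X4e_inj φ).mem_set_image]
  show (C ∈ E ∧ ((x ∈ C ∧ y ∈ C) ∨ (y ∈ C ∧ z ∈ C) ∨ (x ∈ C ∧ z ∈ C))) ↔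
    (φ '' C ∈ E ∧ ((φ x ∈ φ '' C ∧ φ y ∈ φ '' C) ∨ (φ y ∈ φ '' C ∧ φ z ∈ φ '' C) ∨ (φ x ∈ φ '' C ∧ φ z ∈ φ '' C)))
  rw [X4e_memE hE, X4e_mem, X4e_mem, X4e_mem]

private theorem X4e_Eqa {V : Type} {G : SimpleGraph V} (φ : G ≃g G) (x y : V) : Eqa G (φ x) (φ y) ↔ Eqa G x y := by
  unfold Eqa
  rw [φ.injective.eq_iff, φ.map_adj_iff]

private theorem X4e_BT {V : Type} {G : SimpleGraph V} {K : ℕ} {E : Set (Set V)} (hE : Fam G K E) (φ : G ≃g G) (t : Set (Set V)) (x : V) :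
    φ x ∈ BT G E ((Set.image φ) '' t) ↔ x ∈ BT G E t := by
  constructor
  · rintro ⟨w, hw, h⟩
    obtain ⟨y, rfl⟩ := φ.surjective w
    refine ⟨y, (X4e_Eqa φ x y).1 hw, ?_⟩
    rintro C ⟨h1, h2⟩
    have h3 := h ⟨(X4e_Or hE φ x C).2 h1, (X4e_Or hE φ y C).2 h2⟩
    exact (X4e_inj φ).mem_set_image.1 h3
  · rintro ⟨y, hy, h⟩
    refine ⟨φ y, (X4e_Eqa φ x y).2 hy, ?_⟩
    rintro D ⟨h1, h2⟩
    obtain ⟨C, rfl⟩ := X4e_ex φ D
    exact (X4e_inj φ).mem_set_image.2 (h ⟨(X4e_Or hE φ x C).1 h1, (X4e_Or hE φ y C).1 h2⟩)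

theorem BT_image {V : Type} {G : SimpleGraph V} {K : ℕ} {E : Set (Set V)} (hE : Fam G K E) (φ : G ≃g G) {t : Set (Set V)} (ht : t ∈ TT G E) :
    (Set.image φ) '' t ∈ TT G E ∧ BT G E ((Set.image φ) '' t) = φ '' BT G E t := by
  constructor
  · obtain ⟨x, y, z, h1, h2, h3, rfl⟩ := ht
    exact ⟨φ x, φ y, φ z, (X4e_Eqa φ x y).2 h1, (X4e_Eqa φ y z).2 h2, (X4e_Eqa φ x z).2 h3, X4e_maj hE φ x y z⟩
  · ext w
    obtain ⟨x, rfl⟩ := φ.surjective w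
    rw [X4e_BT hE, X4e_mem]

private theorem X4e_iso {V : Type} {G : SimpleGraph V} {K : ℕ} {E : Set (Set V)} (hE : Fam G K E) (R : ℕ) (φ : G ≃g G) (t t' : Set (Set V))
    (ht' : t' = (Set.image φ) '' t) :
    ∃ ψ : torso G E R t ≃g torso G E R t', ∀ x, (ψ x : V) = φ x := by
  subst ht'
  refine ⟨⟨φ.toEquiv.subtypeEquiv (fun a => (X4e_BT hE φ t a).symm), ?_⟩, fun x => rfl⟩
  intro x y
  show (φ (x : V) ≠ φ (y : V) ∧ G.dist (φ (x : V)) (φ (y : V)) ≤ R) ↔ ((x : V) ≠ (y : V) ∧ G.dist (x : V) (y : V) ≤ R)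
  rw [φ.injective.ne_iff, iso_dist]

theorem torso_iso {V : Type} {G : SimpleGraph V} {K : ℕ} {E : Set (Set V)} (hE : Fam G K E) (R : ℕ) (φ : G ≃g G) {t : Set (Set V)} (ht : t ∈ TT G E) :
    ∃ ψ : torso G E R t ≃g torso G E R ((Set.image φ) '' t), ∀ x, (ψ x : V) = φ x :=
  X4e_iso hE R φ t _ rfl

private theorem X4e_fin {V : Type} {G : SimpleGraph V} (hf : ∀ v, (G.neighborSet v).Finite) (x : V) : {y | Eqa G x y}.Finite := by
  refine ((hf x).insert x).subset ?_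
  rintro y (h | h)
  · exact Or.inl h.symm
  · exact Or.inr h

theorem TT_orbits {V : Type} {G : SimpleGraph V} {d l K : ℕ} {F : Finset V} {E : Set (Set V)} (hS : Std0 G d l F) (hE : Fam G K E) :
    ∃ Z : Set (Set (Set V)), Z.Finite ∧ Z ⊆ TT G E ∧ ∀ t ∈ TT G E, ∃ s ∈ Z, ∃ φ : G ≃g G, t = (Set.image φ) '' s := by
  refine ⟨{s | ∃ x ∈ F, ∃ y z, Eqa G x y ∧ Eqa G y z ∧ Eqa G x z ∧ s = maj E x y z}, ?_, ?_, ?_⟩
  · have h1 : (⋃ x ∈ F, Set.image2 (fun y z => maj E x y z) {y | Eqa G x y} {z | Eqa G x z}).Finite := by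
      refine Set.Finite.biUnion (Finset.finite_toSet F) ?_
      intro x _
      exact (X4e_fin hS.fin x).image2 _ (X4e_fin hS.fin x)
    refine h1.subset ?_
    rintro s ⟨x, hx, y, z, hxy, hyz, hxz, rfl⟩
    exact Set.mem_biUnion hx (Set.mem_image2_of_mem hxy hxz)
  · rintro s ⟨x, _, y, z, hxy, hyz, hxz, rfl⟩
    exact ⟨x, y, z, hxy, hyz, hxz, rfl⟩
  · rintro t ⟨x, y, z, hxy, hyz, hxz, rfl⟩
    obtain ⟨φ, hφ⟩ := hS.qt x
    refine ⟨maj E (φ x) (φ y) (φ z), ⟨φ x, hφ, φ y, φ z, (X4e_Eqa φ x y).2 hxy, (X4e_Eqa φ y z).2 hyz,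
      (X4e_Eqa φ x z).2 hxz, rfl⟩, φ.symm, ?_⟩
    rw [X4e_maj hE]
    have e : ∀ x, φ.symm (φ x) = x := fun x => φ.toEquiv.symm_apply_apply x
    rw [e, e, e]

theorem torso_qt {V : Type} {G : SimpleGraph V} {d K : ℕ} {F : Finset V} {E : Set (Set V)} (hS : Std0 G d 3 F) (hE : Fam G K E) (R : ℕ)
    {t : Set (Set V)} (ht : t ∈ TT G E) :
    ∃ Ft : Finset (BT G E t), ∀ v, ∃ φ : torso G E R t ≃g torso G E R t, φ v ∈ Ft := by
  classical
  by_cases hne : Nonempty (BT G E t)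
  swap
  · exact ⟨∅, fun v => absurd ⟨v⟩ hne⟩
  have hP : (⋃ x ∈ F, (fun s : Set (Set V) => (x, s)) '' {s | s ∈ TT G E ∧ x ∈ BT G E s}).Finite := by
    refine Set.Finite.biUnion (Finset.finite_toSet F) ?_
    intro x _
    exact (BT_count hS.conn hS.fin hS.cyc hE x).image _
  have hch : ∀ p : V × Set (Set V), ∃ x0 : BT G E t,
      (∃ x : BT G E t, ∃ φ : G ≃g G, φ (x : V) = p.1 ∧ (Set.image φ) '' t = p.2) →
      ∃ φ : G ≃g G, φ (x0 : V) = p.1 ∧ (Set.image φ) '' t = p.2 := by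
    intro p
    by_cases h : ∃ x : BT G E t, ∃ φ : G ≃g G, φ (x : V) = p.1 ∧ (Set.image φ) '' t = p.2
    · obtain ⟨x, hx⟩ := h
      exact ⟨x, fun _ => hx⟩
    · exact ⟨Classical.choice hne, fun h' => absurd h' h⟩
  choose c hc using hch
  refine ⟨(hP.image c).toFinset, fun v => ?_⟩
  obtain ⟨φ, hφ⟩ := hS.qt (v : V)
  have hs := BT_image hE φ ht
  have hv : φ (v : V) ∈ BT G E ((Set.image φ) '' t) := (X4e_BT hE φ t v).2 v.2
  obtain ⟨ψ, hψ1, hψ2⟩ := hc (φ (v : V), (Set.image φ) '' t) ⟨v, φ, rfl, rfl⟩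
  have e : ∀ x, ψ.symm (ψ x) = x := fun x => ψ.toEquiv.symm_apply_apply x
  have hθ1 : (φ.trans ψ.symm) (v : V) = (c (φ (v : V), (Set.image φ) '' t) : V) := by
    show ψ.symm (φ (v : V)) = _
    have h1 : φ (v : V) = ψ (c (φ (v : V), (Set.image φ) '' t) : V) := hψ1.symm
    rw [h1, e]
    rw [← h1]
  have hθ2 : t = (Set.image (φ.trans ψ.symm)) '' t := by
    have h2 : (Set.image (φ.trans ψ.symm)) '' t = (Set.image ψ.symm) '' ((Set.image φ) '' t) := by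
      rw [Set.image_image]
      apply Set.image_congr
      intro C _
      rw [Set.image_image]
      rfl
    have hψ2' : (Set.image ψ) '' t = (Set.image φ) '' t := hψ2
    rw [h2, ← hψ2', Set.image_image]
    have h3 : ∀ C : Set V, ψ.symm '' (ψ '' C) = C := fun C => X4e_symm' ψ C
    simp only [h3, Set.image_id']
  obtain ⟨θ, hθ⟩ := X4e_iso hE R (φ.trans ψ.symm) t t hθ2
  refine ⟨θ, ?_⟩
  rw [Set.Finite.mem_toFinset]
  refine ⟨(φ (v : V), (Set.image φ) '' t), ?_, ?_⟩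
  · exact Set.mem_biUnion hφ ⟨_, ⟨hs.1, hv⟩, rfl⟩
  · apply Subtype.ext
    rw [hθ v, hθ1]

end QPl
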