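import Pool.Agent.Lib.MP_d3a5e5_co.C2

set_option autoImplicit false

namespace QPl

open Finsupp SimpleGraph

theorem X4f_start {V : Type} {G : SimpleGraph V} {x y : V} (w : G.Walk x y) (h : x ≠ y) :
    ∃ e ∈ w.edges, x ∈ e := by
  cases w with
  | nil => exact absurd rfl h
  | cons hadj w' =>
    exact ⟨_, by rw [SimpleGraph.Walk.edges_cons]; exact List.mem_cons_self, Sym2.mem_mk_left _ _⟩

theorem X4f_end {V : Type} {G : SimpleGraph V} {x y : V} (w : G.Walk x y) (h : x ≠ y) :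
    ∃ e ∈ w.edges, y ∈ e := by
  obtain ⟨e, he, hy⟩ := X4f_start w.reverse h.symm
  refine ⟨e, ?_, hy⟩
  rw [SimpleGraph.Walk.edges_reverse, List.mem_reverse] at he
  exact he

theorem X4f_dist {V : Type} {G : SimpleGraph V} {x y a : V} (w : G.Walk x y) (R : ℕ) (hR : w.length ≤ R)
    (ha : a ∈ w.support) : G.dist a x ≤ R ∧ G.dist a y ≤ R := by
  classical
  constructor
  · rw [SimpleGraph.dist_comm]
    exact ((SimpleGraph.dist_le (w.takeUntil a ha)).trans
      (SimpleGraph.Walk.length_takeUntil_le_length w ha)).trans hR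
  · exact ((SimpleGraph.dist_le (w.dropUntil a ha)).trans
      (SimpleGraph.Walk.length_dropUntil_le_length w ha)).trans hR

theorem X4f_conn {V : Type} {G : SimpleGraph V} {k : ℕ} {B : Finset V} {ω : Dat V} (ρ : GridRep G k B ω)
    (U : Set Pt) {x y : V} (w : G.Walk x y) (hE : ∀ e ∈ w.edges, e ∈ EB G (B : Set V))
    (hU : ∀ e ∈ w.edges, ∀ z ∈ ρ.K e, z ∈ U) : ∀ e ∈ w.edges, ∀ z ∈ ρ.K e,
      Relation.ReflTransGen (fun a b => GAdj a b ∧ b ∈ U) (ρ.p x) z ∧
      Relation.ReflTransGen (fun a b => GAdj a b ∧ b ∈ U) z (ρ.p x) := by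
  induction w with
  | nil =>
    intro e he
    simp at he
  | @cons x x1 y hadj w' ih =>
    have hfirst : s(x, x1) ∈ (SimpleGraph.Walk.cons hadj w').edges := by
      rw [SimpleGraph.Walk.edges_cons]
      exact List.mem_cons_self
    have hB := hE _ hfirst
    have hx := ρ.mem _ hB x (Sym2.mem_mk_left _ _)
    have hx1 := ρ.mem _ hB x1 (Sym2.mem_mk_right _ _)
    have hconn := ρ.conn _ hB
    have hmono : ∀ {a b : Pt}, Relation.ReflTransGen (fun a b => GAdj a b ∧ b ∈ ((ρ.K s(x, x1) : Finset Pt) : Set Pt)) a b →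
        Relation.ReflTransGen (fun a b => GAdj a b ∧ b ∈ U) a b := by
      intro a b h
      exact Relation.ReflTransGen.mono
        (fun c d hcd => ⟨hcd.1, hU _ hfirst d (Finset.mem_coe.1 hcd.2)⟩) _ _ h
    have ih' := ih (fun e he => hE e (by rw [SimpleGraph.Walk.edges_cons]; exact List.mem_cons_of_mem _ he))
      (fun e he => hU e (by rw [SimpleGraph.Walk.edges_cons]; exact List.mem_cons_of_mem _ he))
    intro e he z hz
    rw [SimpleGraph.Walk.edges_cons, List.mem_cons] at he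
    rcases he with he | he
    · subst he
      exact ⟨hmono (hconn _ (Finset.mem_coe.2 hx) _ (Finset.mem_coe.2 hz)),
        hmono (hconn _ (Finset.mem_coe.2 hz) _ (Finset.mem_coe.2 hx))⟩
    · obtain ⟨h1, h2⟩ := ih' e he z hz
      exact ⟨(hmono (hconn _ (Finset.mem_coe.2 hx) _ (Finset.mem_coe.2 hx1))).trans h1,
        h2.trans (hmono (hconn _ (Finset.mem_coe.2 hx1) _ (Finset.mem_coe.2 hx)))⟩

theorem X4f_fin {V : Type} (G : SimpleGraph V) (B : Finset V) : (EB G (B : Set V)).Finite := by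
  refine (B.sym2.finite_toSet).subset fun e he => ?_
  rw [Finset.mem_coe, Finset.mem_sym2_iff]
  exact fun a ha => Finset.mem_coe.1 (he.2 a ha)

theorem X4f_two (x : ZMod 2) : (if decide (x = 1) = true then (1 : ZMod 2) else 0) = x := by
  revert x
  decide

theorem Om_transfer {V V' : Type} {G : SimpleGraph V} {G' : SimpleGraph V'} (i : V' → V) (hi : Function.Injective i) (k R A : ℕ)
    (hw : ∀ u v, G'.Adj u v → ∃ w : G.Walk (i u) (i v), w.length ≤ R) (hA : ∀ x, (Bl G x R).Finite ∧ (Bl G x R).ncard ≤ A)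
    (hc : G.Connected) (h : (Om G k).Nonempty) : (Om G' (R * k * (A * A))).Nonempty := by
  classical
  obtain ⟨ω, hω⟩ := h
  have key : ∀ e' : Sym2 V', ∃ (D : Finset (Sym2 V)) (c : EC V), e' ∈ G'.edgeSet →
      ∃ (u v : V') (w : G.Walk (i u) (i v)), e' = s(u, v) ∧ u ≠ v ∧ w.length ≤ R ∧ c = wv w ∧
        D = w.edges.toFinset := by
    intro e'
    by_cases he : e' ∈ G'.edgeSet
    · induction e' with | _ u v =>
      obtain ⟨w, hw'⟩ := hw u v he
      exact ⟨w.edges.toFinset, wv w, fun _ => ⟨u, v, w, rfl, G'.ne_of_adj he, hw', rfl, rfl⟩⟩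
    · exact ⟨∅, 0, fun h => absurd h he⟩
  choose Ed Wk hEW using key

  have hEdG : ∀ e' ∈ G'.edgeSet, ∀ e ∈ Ed e', e ∈ G.edgeSet := by
    intro e' he' e he
    obtain ⟨u, v, w, -, -, -, -, hD⟩ := hEW e' he'
    rw [hD, List.mem_toFinset] at he
    exact w.edges_subset_edgeSet he
  have hcard : ∀ e' ∈ G'.edgeSet, (Ed e').card ≤ R := by
    intro e' he'
    obtain ⟨u, v, w, -, -, hl, -, hD⟩ := hEW e' he'
    rw [hD]
    refine (List.toFinset_card_le _).trans ?_
    rw [SimpleGraph.Walk.length_edges]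
    exact hl
  have hsupp : ∀ e' ∈ G'.edgeSet, ∀ e ∈ (Wk e').support, e ∈ Ed e' := by
    intro e' he' e he
    obtain ⟨u, v, w, -, -, -, hc, hD⟩ := hEW e' he'
    rw [hc] at he
    rw [hD, List.mem_toFinset]
    exact wv_support w he
  have hinc : ∀ e' ∈ G'.edgeSet, ∀ v' ∈ e', ∃ e ∈ Ed e', i v' ∈ e := by
    intro e' he' v' hv'
    obtain ⟨u, v, w, huv, hne, -, -, hD⟩ := hEW e' he'
    rw [huv, Sym2.mem_iff] at hv'
    have hne' : i u ≠ i v := fun h => hne (hi h)
    rcases hv' with rfl | rfl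
    · obtain ⟨e, he, hx⟩ := X4f_start w hne'
      exact ⟨e, by rw [hD, List.mem_toFinset]; exact he, hx⟩
    · obtain ⟨e, he, hx⟩ := X4f_end w hne'
      exact ⟨e, by rw [hD, List.mem_toFinset]; exact he, hx⟩
  let ω' : Dat V' := fun e' f' =>
    (decide (∃ e ∈ Ed e', ∃ f ∈ Ed f', TX ω e f), decide (JJ ω (Wk e') (Wk f') = 1))
  have hTX : ∀ e' f', TX ω' e' f' ↔ ∃ e ∈ Ed e', ∃ f ∈ Ed f', TX ω e f := by
    intro e' f'
    exact decide_eq_true_iff
  refine ⟨ω', fun B' => ?_⟩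
  let B : Finset V := B'.image i ∪ B'.sym2.biUnion fun e' => (Ed e').biUnion fun e => e.toFinset
  obtain ⟨ρ⟩ := hω B
  have hEB : ∀ e' ∈ EB G' (B' : Set V'), ∀ e ∈ Ed e', e ∈ EB G (B : Set V) := by
    intro e' he' e he
    refine ⟨hEdG e' he'.1 e he, fun v hv => ?_⟩
    rw [Finset.mem_coe, Finset.mem_union]
    right
    rw [Finset.mem_biUnion]
    refine ⟨e', Finset.mem_sym2_iff.2 fun a ha => Finset.mem_coe.1 (he'.2 a ha), ?_⟩
    rw [Finset.mem_biUnion]
    exact ⟨e, he, Sym2.mem_toFinset.2 hv⟩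
  have hInB : ∀ e' ∈ EB G' (B' : Set V'), InB G (B : Set V) (Wk e') := by
    intro e' he' e he
    exact hEB e' he' e (hsupp e' he'.1 e he)
  refine ⟨{
    p := fun v' => ρ.p (i v')
    K := fun e' => (Ed e').biUnion ρ.K
    a := fun e' => ρ.lin (Wk e')
    inj := ?_
    mem := ?_
    conn := ?_
    supp := ?_
    bdy := ?_
    touch := ?_
    sep := ?_
    cross := ?_
    deg := ?_ }⟩
  · intro a ha b hb hab
    apply hi
    have h1 : ∀ a ∈ (B' : Set V'), i a ∈ (B : Set V) := fun a ha => by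
      rw [Finset.mem_coe, Finset.mem_union]
      left
      exact Finset.mem_image_of_mem i (Finset.mem_coe.1 ha)
    exact ρ.inj (h1 a ha) (h1 b hb) hab
  · intro e' he' v' hv'
    obtain ⟨e, he, hx⟩ := hinc e' he'.1 v' hv'
    rw [Finset.mem_biUnion]
    exact ⟨e, he, ρ.mem e (hEB e' he' e he) _ hx⟩
  · intro e' he' z hz z' hz'
    rw [Finset.mem_coe, Finset.mem_biUnion] at hz hz'
    obtain ⟨e, he, hz⟩ := hz
    obtain ⟨f, hf, hz'⟩ := hz'
    obtain ⟨u, v, w, -, -, -, -, hD⟩ := hEW e' he'.1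
    have h1 := X4f_conn ρ (((Ed e').biUnion ρ.K : Finset Pt) : Set Pt) w
      (fun e he => hEB e' he' e (by rw [hD, List.mem_toFinset]; exact he))
      (fun e he z hz => by
        rw [Finset.mem_coe, Finset.mem_biUnion]
        exact ⟨e, by rw [hD, List.mem_toFinset]; exact he, hz⟩)
    have he1 : e ∈ w.edges := by rwa [hD, List.mem_toFinset] at he
    have hf1 : f ∈ w.edges := by rwa [hD, List.mem_toFinset] at hf
    exact (h1 e he1 z hz).2.trans (h1 f hf1 z' hz').1
  · intro e' he' g hg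
    obtain ⟨⟨e, he, h1⟩, ⟨f, hf, h2⟩⟩ := lin_supp ρ (hInB e' he') g hg
    refine ⟨?_, ?_⟩
    · rw [Finset.mem_coe, Finset.mem_biUnion]
      exact ⟨e, hsupp e' he'.1 e he, h1⟩
    · rw [Finset.mem_coe, Finset.mem_biUnion]
      exact ⟨f, hsupp e' he'.1 f hf, h2⟩
  · intro u v huv
    obtain ⟨u0, v0, w, h0, -, -, hc, hD⟩ := hEW _ huv.1
    have h1 : bd (ρ.lin (Wk s(u, v))) = pt (ρ.p (i u0)) + pt (ρ.p (i v0)) := by
      rw [hc]
      refine bd_lin_wv ρ w fun e he => hEB _ huv e ?_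
      rw [hD, List.mem_toFinset]
      exact he
    rw [h1]
    rcases Sym2.eq_iff.1 h0 with ⟨rfl, rfl⟩ | ⟨rfl, rfl⟩
    · rfl
    · exact add_comm _ _
  · intro e' he' f' hf' ht
    obtain ⟨e, he, f, hf, h1⟩ := (hTX e' f').1 ht
    obtain ⟨z, hz, hz'⟩ := ρ.touch e (hEB e' he' e he) f (hEB f' hf' f hf) h1
    exact ⟨z, Finset.mem_biUnion.2 ⟨e, he, hz⟩, Finset.mem_biUnion.2 ⟨f, hf, hz'⟩⟩
  · intro e' he' f' hf' ht z hz z' hz'
    obtain ⟨e, he, hz⟩ := Finset.mem_biUnion.1 hz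
    obtain ⟨f, hf, hz'⟩ := Finset.mem_biUnion.1 hz'
    exact ρ.sep e (hEB e' he' e he) f (hEB f' hf' f hf)
      (fun h => ht ((hTX e' f').2 ⟨e, he, f, hf, h⟩)) z hz z' hz'
  · intro e' he' f' hf'
    rw [II_lin ρ (hInB e' he') (hInB f' hf')]
    exact X4f_two _
  · intro e' he'
    have hfinS : ∀ e, {f | f ∈ EB G (B : Set V) ∧ TX ω e f}.Finite := fun e =>
      (X4f_fin G B).subset fun f hf => hf.1
    have hfinU : ∀ f : Sym2 V, {f' | f' ∈ G'.edgeSet ∧ f ∈ Ed f'}.Finite ∧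
        {f' | f' ∈ G'.edgeSet ∧ f ∈ Ed f'}.ncard ≤ A * A := by
      intro f
      induction f with | _ a b =>
      obtain ⟨hAf, hAc⟩ := hA a
      have hpre : (i ⁻¹' Bl G a R).Finite := hAf.preimage hi.injOn
      have hprec : (i ⁻¹' Bl G a R).ncard ≤ A := by
        refine le_trans ?_ hAc
        rw [← Set.ncard_image_of_injective _ hi]
        exact Set.ncard_le_ncard (Set.image_preimage_subset _ _) hAf
      have hsub : {f' | f' ∈ G'.edgeSet ∧ s(a, b) ∈ Ed f'} ⊆
          (fun q : V' × V' => s(q.1, q.2)) '' ((i ⁻¹' Bl G a R) ×ˢ (i ⁻¹' Bl G a R)) := by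
        intro f' hf'
        obtain ⟨u, v, w, huv, -, hl, -, hD⟩ := hEW f' hf'.1
        have h1 : s(a, b) ∈ w.edges := by
          have := hf'.2
          rwa [hD, List.mem_toFinset] at this
        have h2 := X4f_dist w R hl (w.fst_mem_support_of_mem_edges h1)
        exact ⟨(u, v), ⟨h2.1, h2.2⟩, huv.symm⟩
      have hfin2 := (hpre.prod hpre)
      refine ⟨(hfin2.image _).subset hsub, ?_⟩
      refine (Set.ncard_le_ncard hsub (hfin2.image _)).trans ?_
      refine (Set.ncard_image_le hfin2).trans ?_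
      rw [Set.ncard_prod]
      exact Nat.mul_le_mul hprec hprec
    have hsub : {f' | f' ∈ EB G' (B' : Set V') ∧ TX ω' e' f'} ⊆
        (((Ed e').biUnion fun e => (hfinS e).toFinset.biUnion fun f => (hfinU f).1.toFinset :
          Finset (Sym2 V')) : Set (Sym2 V')) := by
      intro f' hf'
      obtain ⟨e, he, f, hf, h1⟩ := (hTX e' f').1 hf'.2
      rw [Finset.mem_coe, Finset.mem_biUnion]
      refine ⟨e, he, ?_⟩
      rw [Finset.mem_biUnion]
      refine ⟨f, ?_, ?_⟩
      · rw [Set.Finite.mem_toFinset]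
        exact ⟨hEB f' hf'.1 f hf, h1⟩
      · rw [Set.Finite.mem_toFinset]
        exact ⟨hf'.1.1, hf⟩
    refine (Set.ncard_le_ncard hsub (Finset.finite_toSet _)).trans ?_
    rw [Set.ncard_coe_finset]
    refine (Finset.card_biUnion_le_card_mul _ _ (k * (A * A)) ?_).trans ?_
    · intro e he
      refine (Finset.card_biUnion_le_card_mul _ _ (A * A) ?_).trans ?_
      · intro f _
        rw [← Set.ncard_eq_toFinset_card _ (hfinU f).1]
        exact (hfinU f).2
      · refine Nat.mul_le_mul_right _ ?_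
        rw [← Set.ncard_eq_toFinset_card _ (hfinS e)]
        exact ρ.deg e (hEB e' he' e he)
    · rw [← mul_assoc]
      exact Nat.mul_le_mul_right _ (Nat.mul_le_mul_right _ (hcard e' he'.1))

end QPl
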