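import Pool.Agent.Lib.MP_d3a5e5_co.X4c
import Pool.Agent.Lib.MP_d3a5e5_co.X4d
import Pool.Agent.Lib.MP_d3a5e5_co.X4e
import Pool.Agent.Lib.MP_d3a5e5_co.X4f
import Pool.Agent.Lib.MP_d3a5e5_co.S3
import Pool.Agent.Lib.MP_d3a5e5_co.D2

set_option autoImplicit false

namespace QPl

open Finsupp SimpleGraph

theorem QITP_of_QITwoPage {V : Type} {G : SimpleGraph V} (h : QITwoPage G) : ∃ C, QITP C G := by
  obtain ⟨W, H, hW, hconn, ⟨r, page, hr, hpage, hcross⟩, φ, M, A, hM, hA, hd, hw⟩ := h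
  have hMA : 0 ≤ M * A := mul_nonneg (by linarith) hA
  obtain ⟨C, hC⟩ := exists_nat_ge (M + A + M * A)
  refine ⟨C, W, H, φ, hW, hconn, ?_, ?_, ?_, ?_⟩
  · refine ⟨fun a b => r a < r b, page, fun a => lt_irrefl _, fun a b c => lt_trans, ?_, hpage, hcross⟩
    intro a b hab
    exact lt_or_gt_of_ne (fun h2 => hab (hr h2))
  · intro x y
    have h1 := (hd x y).2
    have h2 : (0 : ℝ) ≤ G.dist x y := Nat.cast_nonneg _
    have h3 : (H.dist (φ x) (φ y) : ℝ) ≤ C * G.dist x y + C := by nlinarith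
    exact_mod_cast h3
  · intro x y
    have h1 := (hd x y).1
    have h2 : (0 : ℝ) ≤ H.dist (φ x) (φ y) := Nat.cast_nonneg _
    have hM0 : 0 < M := by linarith
    have h4 : (G.dist x y : ℝ) / M ≤ H.dist (φ x) (φ y) + A := by linarith
    rw [div_le_iff₀ hM0] at h4
    have h3 : (G.dist x y : ℝ) ≤ C * H.dist (φ x) (φ y) + C := by nlinarith
    exact_mod_cast h3
  · intro w
    obtain ⟨x, hx⟩ := hw w
    refine ⟨x, ?_⟩
    have h3 : (H.dist w (φ x) : ℝ) ≤ C := by linarith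
    exact_mod_cast h3

theorem QITP_mono {V : Type} {G : SimpleGraph V} {C C' : ℕ} (h : QITP C G) (hC : C ≤ C') : QITP C' G := by
  obtain ⟨W, H, φ, hW, hconn, htp, h1, h2, h3⟩ := h
  refine ⟨W, H, φ, hW, hconn, htp, fun x y => (h1 x y).trans ?_, fun x y => (h2 x y).trans ?_, fun w => ?_⟩
  · exact Nat.add_le_add (Nat.mul_le_mul_right _ hC) hC
  · exact Nat.add_le_add (Nat.mul_le_mul_right _ hC) hC
  · obtain ⟨x, hx⟩ := h3 w
    exact ⟨x, hx.trans hC⟩

theorem X4g_iso_le {V V' : Type} {G : SimpleGraph V} {G' : SimpleGraph V'} (φ : G ≃g G') {x y : V} (h : G.Reachable x y) :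
    G'.dist (φ x) (φ y) ≤ G.dist x y := by
  obtain ⟨w, hw⟩ := h.exists_walk_length_eq_dist
  have h1 := SimpleGraph.dist_le (w.map φ.toHom)
  rw [Walk.length_map, hw] at h1
  exact h1

theorem X4g_iso {V V' : Type} {G : SimpleGraph V} {G' : SimpleGraph V'} (φ : G ≃g G') (x y : V) :
    G'.dist (φ x) (φ y) = G.dist x y := by
  by_cases h : G.Reachable x y
  · refine le_antisymm (X4g_iso_le φ h) ?_
    have h' : G'.Reachable (φ x) (φ y) := h.map φ.toHom
    have h1 := X4g_iso_le φ.symm h'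
    rw [RelIso.symm_apply_apply, RelIso.symm_apply_apply] at h1
    exact h1
  · have h' : ¬ G'.Reachable (φ x) (φ y) := by
      intro h2
      have h3 : G.Reachable (φ.symm (φ x)) (φ.symm (φ y)) := h2.map φ.symm.toHom
      rw [RelIso.symm_apply_apply, RelIso.symm_apply_apply] at h3
      exact h h3
    rw [SimpleGraph.dist_eq_zero_of_not_reachable h, SimpleGraph.dist_eq_zero_of_not_reachable h']

theorem QITP_iso {V V' : Type} {G : SimpleGraph V} {G' : SimpleGraph V'} (φ : G ≃g G') {C : ℕ} (h : QITP C G) : QITP C G' := by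
  obtain ⟨W, H, f, hW, hconn, htp, h1, h2, h3⟩ := h
  have hd : ∀ x y : V', G.dist (φ.symm x) (φ.symm y) = G'.dist x y := fun x y => X4g_iso φ.symm x y
  refine ⟨W, H, fun x => f (φ.symm x), hW, hconn, htp, fun x y => ?_, fun x y => ?_, fun w => ?_⟩
  · rw [← hd]; exact h1 _ _
  · rw [← hd]; exact h2 _ _
  · obtain ⟨x, hx⟩ := h3 w
    refine ⟨φ x, ?_⟩
    show H.dist w (f (φ.symm (φ x))) ≤ C
    rw [RelIso.symm_apply_apply]
    exact hx

theorem X4g_finite {V : Type} {G : SimpleGraph V} (hne : Nonempty V) (hf : Finite V) : ∃ C, QITP C G := by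
  obtain ⟨C, hC⟩ := (Set.finite_range (fun q : V × V => G.dist q.1 q.2)).bddAbove
  have hC' : ∀ x y, G.dist x y ≤ C := fun x y => hC ⟨(x, y), rfl⟩
  refine ⟨C, Unit, ⊥, fun _ => (), inferInstance, ?_, ?_, ?_, ?_, ?_⟩
  · exact ⟨fun a b => by rw [Subsingleton.elim a b]⟩
  · exact ⟨fun _ _ => False, fun _ _ => False, fun _ h => h, fun _ _ _ h _ => h, fun a b h => absurd (Subsingleton.elim a b) h,
      fun _ _ h => h, fun _ _ _ _ h _ _ _ _ _ => by simp at h⟩
  · intro x y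
    rw [SimpleGraph.dist_self]
    exact Nat.zero_le _
  · intro x y
    exact (hC' x y).trans (Nat.le_add_left _ _)
  · intro w
    refine ⟨hne.some, ?_⟩
    rw [Subsingleton.elim w (), SimpleGraph.dist_self]
    exact Nat.zero_le _

theorem X4g_ball {V : Type} {G : SimpleGraph V} {d l : ℕ} {F : Finset V} (hS : Std0 G d l F) (R : ℕ) :
    ∃ A : ℕ, ∀ x, (Bl G x R).Finite ∧ (Bl G x R).ncard ≤ A := by
  refine ⟨∑ f ∈ F, (Bl G f R).ncard, fun x => ⟨Bl_finite hS.conn hS.fin x R, ?_⟩⟩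
  obtain ⟨φ, hφ⟩ := hS.qt x
  refine le_trans ?_ (Finset.single_le_sum (f := fun f => (Bl G f R).ncard) (fun _ _ => Nat.zero_le _) hφ)
  refine Set.ncard_le_ncard_of_injOn φ ?_ φ.injective.injOn (Bl_finite hS.conn hS.fin _ _)
  intro y hy
  show G.dist (φ x) (φ y) ≤ R
  rw [X4g_iso]
  exact hy

theorem torso_QITP {V : Type} {G : SimpleGraph V} {d k K : ℕ} {F : Finset V} {E : Set (Set V)} (hS : Std0 G d 3 F) (hE : Fam G K E)
    (hk : (Om G k).Nonempty) {t : Set (Set V)} (ht : t ∈ TT G E) : ∃ C, QITP C (torso G E (4 * K + 1) t) := by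
  obtain ⟨r, hr⟩ := exists_retr hS.conn hS.fin hS.cyc hE ht
  have hconn : (torso G E (4 * K + 1) t).Connected := retr_conn hS.conn hr
  by_cases hfin : Finite (BT G E t)
  · exact X4g_finite hconn.nonempty hfin
  · have hinf : Infinite (BT G E t) := not_finite_iff_infinite.1 hfin
    obtain ⟨A, hA⟩ := X4g_ball hS (4 * K + 1)
    obtain ⟨Ft, hFt⟩ := torso_qt hS hE (4 * K + 1) ht
    have hmaps : ∀ v : BT G E t, Set.MapsTo (Subtype.val : BT G E t → V)
        ((torso G E (4 * K + 1) t).neighborSet v) (Bl G (v : V) (4 * K + 1)) := fun v w hw => hw.2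
    have hinj : ∀ v : BT G E t, Set.InjOn (Subtype.val : BT G E t → V)
        ((torso G E (4 * K + 1) t).neighborSet v) := fun v => Subtype.val_injective.injOn
    have hfin' : ∀ v, ((torso G E (4 * K + 1) t).neighborSet v).Finite := fun v =>
      Set.Finite.of_injOn (hmaps v) (hinj v) (hA v).1
    have hStd : Std (torso G E (4 * K + 1) t) A (4 * K + 1 + 3) Ft :=
      { conn := hconn
        inf := hinf
        fin := hfin'
        deg := fun v => (Set.ncard_le_ncard_of_injOn _ (hmaps v) (hinj v) (hA v).1).trans (hA v).2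
        qt := hFt
        one := torso_end hS.conn hS.fin hS.cyc hE ht
        cyc := retr_cyc hS.conn hS.cyc hr }
    have hOm := Om_transfer (G := G) (G' := torso G E (4 * K + 1) t) (Subtype.val : BT G E t → V)
      Subtype.val_injective k (4 * K + 1) A (fun u v huv => by
        obtain ⟨w, hw⟩ := hS.conn.exists_walk_length_eq_dist (u : V) (v : V)
        exact ⟨w, hw.le.trans huv.2⟩) hA hS.conn hk
    exact QITP_of_QITwoPage (core hStd hOm)

theorem torso_unif {V : Type} {G : SimpleGraph V} {d k K : ℕ} {F : Finset V} {E : Set (Set V)} (hS : Std0 G d 3 F) (hE : Fam G K E)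
    (hk : (Om G k).Nonempty) : ∃ C, ∀ t ∈ TT G E, QITP C (torso G E (4 * K + 1) t) := by
  classical
  obtain ⟨Z, hZ, hZT, hrep⟩ := TT_orbits hS hE
  have hex : ∀ s : Set (Set V), ∃ C, s ∈ TT G E → QITP C (torso G E (4 * K + 1) s) := by
    intro s
    by_cases hs : s ∈ TT G E
    · obtain ⟨C, hC⟩ := torso_QITP hS hE hk hs
      exact ⟨C, fun _ => hC⟩
    · exact ⟨0, fun h => absurd h hs⟩
  choose c hc using hex
  refine ⟨hZ.toFinset.sup c, fun t ht => ?_⟩
  obtain ⟨s, hs, φ, rfl⟩ := hrep t ht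
  obtain ⟨ψ, -⟩ := torso_iso hE (4 * K + 1) φ (hZT hs)
  exact QITP_iso ψ (QITP_mono (hc s (hZT hs)) (Finset.le_sup (f := c) (hZ.mem_toFinset.2 hs)))

end QPl
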