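import Pool.Agent.Lib.MP_d3a5e5_co.Defs2

set_option autoImplicit false

namespace QPl

open Finsupp SimpleGraph

theorem TP0_of_hom {W W' : Type} {H : SimpleGraph W} {H' : SimpleGraph W'} (f : W' → W) (hf : Function.Injective f)
    (hh : ∀ a b, H'.Adj a b → H.Adj (f a) (f b)) (h : TP0 H) : TP0 H' := by
  obtain ⟨lt, page, h1, h2, h3, h4, h5⟩ := h
  refine ⟨fun a b => lt (f a) (f b), fun a b => page (f a) (f b), fun a => h1 _, fun a b c => h2 _ _ _,
    fun a b hab => h3 _ _ (fun he => hab (hf he)), fun a b => h4 _ _, fun a b c d hab hcd => ?_⟩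
  exact h5 _ _ _ _ (hh _ _ hab) (hh _ _ hcd)

theorem TP0_of_finite {W : Type} (H : SimpleGraph W) (h : ∀ S : Finset W, TP0 (H.induce (S : Set W))) : TP0 H := by
  classical
  choose lt page h1 h2 h3 h4 h5 using h
  let U : Ultrafilter (Finset W) := Ultrafilter.of Filter.atTop
  have hU : (U : Filter (Finset W)) ≤ Filter.atTop := Ultrafilter.of_le _
  have hmem : ∀ a : W, ∀ᶠ S in (U : Filter (Finset W)), a ∈ S := fun a => by
    have h6 : ∀ᶠ S in (Filter.atTop : Filter (Finset W)), a ∈ S := by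
      filter_upwards [Filter.eventually_ge_atTop ({a} : Finset W)] with S hS
      exact hS (Finset.mem_singleton_self a)
    exact hU h6
  let L : Finset W → W → W → Prop := fun S a b =>
    ∃ (ha : a ∈ (S : Set W)) (hb : b ∈ (S : Set W)), lt S ⟨a, ha⟩ ⟨b, hb⟩
  let P : Finset W → W → W → Prop := fun S a b =>
    ∃ (ha : a ∈ (S : Set W)) (hb : b ∈ (S : Set W)), page S ⟨a, ha⟩ ⟨b, hb⟩
  refine ⟨fun a b => ∀ᶠ S in (U : Filter (Finset W)), L S a b,
    fun a b => ∀ᶠ S in (U : Filter (Finset W)), P S a b, ?_, ?_, ?_, ?_, ?_⟩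
  · intro a hcon
    obtain ⟨S, ha, hb, hS⟩ := hcon.exists
    exact h1 S _ hS
  · intro a b c hab hbc
    filter_upwards [hab, hbc] with S h6 h7
    obtain ⟨ha, hb, h8⟩ := h6
    obtain ⟨hb', hc, h9⟩ := h7
    exact ⟨ha, hc, h2 S _ _ _ h8 h9⟩
  · intro a b hab
    rw [← Ultrafilter.eventually_or]
    filter_upwards [hmem a, hmem b] with S ha hb
    have ha' : a ∈ (S : Set W) := ha
    have hb' : b ∈ (S : Set W) := hb
    rcases h3 S ⟨a, ha'⟩ ⟨b, hb'⟩ (fun he => hab (congrArg Subtype.val he)) with h6 | h6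
    · exact Or.inl ⟨ha', hb', h6⟩
    · exact Or.inr ⟨hb', ha', h6⟩
  · intro a b hab
    filter_upwards [hab] with S h6
    obtain ⟨ha, hb, h8⟩ := h6
    exact ⟨hb, ha, h4 S _ _ h8⟩
  · intro a b c d hab hcd hp hac hcb hbd
    have hp' : ∀ᶠ S in (U : Filter (Finset W)), (P S a b ↔ P S c d) := by
      by_cases hq : ∀ᶠ S in (U : Filter (Finset W)), P S a b
      · filter_upwards [hq, hp.mp hq] with S h6 h7
        exact ⟨fun _ => h7, fun _ => h6⟩
      · have hq' : ¬ ∀ᶠ S in (U : Filter (Finset W)), P S c d := fun hh => hq (hp.mpr hh)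
        rw [← Ultrafilter.eventually_not] at hq hq'
        filter_upwards [hq, hq'] with S h6 h7
        exact ⟨fun hh => absurd hh h6, fun hh => absurd hh h7⟩
    obtain ⟨S, hpS, ⟨ha, hc, hacS⟩, ⟨_, hb, hcbS⟩, ⟨_, hd, hbdS⟩⟩ :=
      (hp'.and (hac.and (hcb.and hbd))).exists
    refine h5 S ⟨a, ha⟩ ⟨b, hb⟩ ⟨c, hc⟩ ⟨d, hd⟩ hab hcd ?_ hacS hcbS hbdS
    constructor
    · intro h6
      obtain ⟨_, _, h7⟩ := hpS.mp ⟨ha, hb, h6⟩
      exact h7
    · intro h6
      obtain ⟨_, _, h7⟩ := hpS.mpr ⟨hc, hd, h6⟩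
      exact h7

end QPl
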