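import Pool.Agent.Lib.MP_d3a5e5_co.X5a

set_option autoImplicit false

namespace QPl

open Finsupp SimpleGraph

/-- a two page order of the vertices in `B` -/
structure X5b_On {W : Type} (H : SimpleGraph W) (B : Set W) (lt page : W → W → Prop) : Prop where
  irr : ∀ a ∈ B, ¬ lt a a
  tr : ∀ a ∈ B, ∀ b ∈ B, ∀ c ∈ B, lt a b → lt b c → lt a c
  tot : ∀ a ∈ B, ∀ b ∈ B, a ≠ b → lt a b ∨ lt b a
  sym : ∀ a ∈ B, ∀ b ∈ B, page a b → page b a
  cr : ∀ a ∈ B, ∀ b ∈ B, ∀ c ∈ B, ∀ d ∈ B, H.Adj a b → H.Adj c d → (page a b ↔ page c d) →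
    lt a c → lt c b → lt b d → False

theorem X5b_of_induce {W : Type} (H : SimpleGraph W) (B : Set W) (h : TP0 (H.induce B)) :
    ∃ lt page : W → W → Prop, X5b_On H B lt page := by
  obtain ⟨lt, page, h1, h2, h3, h4, h5⟩ := h
  refine ⟨fun x y => ∃ (hx : x ∈ B) (hy : y ∈ B), lt ⟨x, hx⟩ ⟨y, hy⟩,
    fun x y => ∃ (hx : x ∈ B) (hy : y ∈ B), page ⟨x, hx⟩ ⟨y, hy⟩, ?_, ?_, ?_, ?_, ?_⟩
  · rintro a ha ⟨_, _, h⟩
    exact h1 _ h
  · rintro a ha b hb c hc ⟨_, _, h⟩ ⟨_, _, h'⟩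
    exact ⟨ha, hc, h2 _ _ _ h h'⟩
  · intro a ha b hb hab
    rcases h3 ⟨a, ha⟩ ⟨b, hb⟩ (fun h => hab (congrArg Subtype.val h)) with h | h
    · exact Or.inl ⟨ha, hb, h⟩
    · exact Or.inr ⟨hb, ha, h⟩
  · rintro a ha b hb ⟨_, _, h⟩
    exact ⟨hb, ha, h4 _ _ h⟩
  · rintro a ha b hb c hc d hd hab hcd hp ⟨_, _, h⟩ ⟨_, _, h'⟩ ⟨_, _, h''⟩
    refine h5 ⟨a, ha⟩ ⟨b, hb⟩ ⟨c, hc⟩ ⟨d, hd⟩ hab hcd ?_ h h' h''
    constructor
    · intro h6
      obtain ⟨_, _, h7⟩ := hp.1 ⟨ha, hb, h6⟩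
      exact h7
    · intro h6
      obtain ⟨_, _, h7⟩ := hp.2 ⟨hc, hd, h6⟩
      exact h7

/-- rotation of the order so that `b` becomes the first element -/
theorem X5b_rotate {W : Type} {H : SimpleGraph W} {B : Set W} {lt page : W → W → Prop}
    (h : X5b_On H B lt page) (b : W) (hb : b ∈ B) :
    ∃ lt' : W → W → Prop, X5b_On H B lt' page ∧ ∀ z ∈ B, ¬ lt' z b := by
  classical
  have hsym : ∀ x ∈ B, ∀ y ∈ B, (page x y ↔ page y x) := fun x hx y hy =>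
    ⟨h.sym x hx y hy, h.sym y hy x hx⟩
  set ge : W → Prop := fun x => x = b ∨ lt b x with hge
  have hup : ∀ x ∈ B, ∀ y ∈ B, ge x → lt x y → ge y := by
    rintro x hx y hy (rfl | h1) h2
    · exact Or.inr h2
    · exact Or.inr (h.tr b hb x hx y hy h1 h2)

  have hbelow : ∀ x ∈ B, ∀ y ∈ B, ge x → ¬ ge y → lt y x := by
    intro x hx y hy h1 h2
    rcases h.tot x hx y hy (fun hxy => h2 (hxy ▸ h1)) with h3 | h3
    · exact absurd (hup x hx y hy h1 h3) h2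
    · exact h3
  refine ⟨fun x y => (ge x ∧ ¬ ge y) ∨ ((ge x ↔ ge y) ∧ lt x y), ⟨?_, ?_, ?_, h.sym, ?_⟩, ?_⟩
  · rintro a ha (⟨h1, h2⟩ | ⟨_, h2⟩)
    · exact h2 h1
    · exact h.irr a ha h2
  · rintro x hx y hy z hz (⟨h1, h2⟩ | ⟨h1, h2⟩) (⟨h3, h4⟩ | ⟨h3, h4⟩)
    · exact absurd h3 h2
    · exact Or.inl ⟨h1, fun h5 => h2 (h3.2 h5)⟩
    · exact Or.inl ⟨h1.2 h3, h4⟩
    · exact Or.inr ⟨h1.trans h3, h.tr x hx y hy z hz h2 h4⟩
  · intro x hx y hy hxy
    by_cases h1 : ge x <;> by_cases h2 : ge y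
    · rcases h.tot x hx y hy hxy with h3 | h3
      · exact Or.inl (Or.inr ⟨by tauto, h3⟩)
      · exact Or.inr (Or.inr ⟨by tauto, h3⟩)
    · exact Or.inl (Or.inl ⟨h1, h2⟩)
    · exact Or.inr (Or.inl ⟨h2, h1⟩)
    · rcases h.tot x hx y hy hxy with h3 | h3
      · exact Or.inl (Or.inr ⟨by tauto, h3⟩)
      · exact Or.inr (Or.inr ⟨by tauto, h3⟩)
  · intro x hx y hy z hz w hw hxy hzw hp h1 h2 h3
    have hp' : page y x ↔ page z w := (hsym y hy x hx).trans hp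
    have hp'' : page x y ↔ page w z := hp.trans (hsym z hz w hw)

    rcases h1 with ⟨ax, az⟩ | ⟨axz, lxz⟩
    ·
      rcases h2 with ⟨bz, _⟩ | ⟨bzy, lzy⟩
      · exact az bz
      · rcases h3 with ⟨cy, _⟩ | ⟨cyw, lyw⟩
        · exact az (bzy.2 cy)
        ·
          have hw' : ¬ ge w := fun h4 => az (bzy.2 (cyw.2 h4))
          exact h.cr z hz w hw y hy x hx hzw hxy.symm (hp.symm.trans (hsym x hx y hy)) lzy lyw
            (hbelow x hx w hw ax hw')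
    · rcases h2 with ⟨bz, by'⟩ | ⟨bzy, lzy⟩
      ·
        rcases h3 with ⟨cy, _⟩ | ⟨cyw, lyw⟩
        · exact by' cy
        ·
          have hw' : ¬ ge w := fun h4 => by' (cyw.2 h4)
          exact h.cr y hy x hx w hw z hz hxy.symm hzw.symm
            (hp'.trans (hsym z hz w hw)) lyw (hbelow x hx w hw (axz.2 bz) hw') lxz
      · rcases h3 with ⟨cy, cw⟩ | ⟨cyw, lyw⟩
        ·
          exact h.cr w hw z hz x hx y hy hzw.symm hxy hp''.symm
            (hbelow x hx w hw (axz.2 (bzy.2 cy)) cw) lxz lzy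
        · exact h.cr x hx y hy z hz w hw hxy hzw hp lxz lzy lyw
  · rintro z hz (⟨_, h2⟩ | ⟨h1, h2⟩)
    · exact h2 (Or.inl rfl)
    · rcases h1.2 (Or.inl rfl) with h3 | h3
      · exact h.irr b hb (h3 ▸ h2)
      · exact h.irr b hb (h.tr b hb z hz b hb h3 h2)

/-- insertion of the complement of `A` between the elements of `A` with `P` and the others -/
theorem X5b_glue {W : Type} {H : SimpleGraph W} {A : Set W} {lt1 lt2 p1 p2 : W → W → Prop}
    (h1 : X5b_On H A lt1 p1) (h2 : X5b_On H Aᶜ lt2 p2) (a b : W) (P : W → Prop)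
    (hP : ∀ x ∈ A, ∀ y ∈ A, lt1 x y → P y → P x)
    (hE : ∀ x ∈ A, ∀ y, y ∉ A → H.Adj x y → x = a ∧ y = b ∧ P a ∧ (∀ z ∈ A, P z → ¬ lt1 a z) ∧
      ∀ z, z ∉ A → ¬ lt2 z b) : TP0 H := by
  classical
  refine ⟨fun x y => if x ∈ A then (if y ∈ A then lt1 x y else P x)
      else (if y ∈ A then ¬ P y else lt2 x y),
    fun x y => if x ∈ A then (if y ∈ A then p1 x y else False)
      else (if y ∈ A then False else p2 x y), ?_, ?_, ?_, ?_, ?_⟩
  · intro x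
    by_cases hx : x ∈ A
    · simp only [if_pos hx]; exact h1.irr x hx
    · simp only [if_neg hx]; exact h2.irr x hx
  · intro x y z
    by_cases hx : x ∈ A <;> by_cases hy : y ∈ A <;> by_cases hz : z ∈ A <;>
      simp only [hx, hy, hz, if_true, if_false]
    · exact h1.tr x hx y hy z hz
    · exact fun h3 h4 => hP x hx y hy h3 h4
    · intro h3 h4
      rcases eq_or_ne x z with rfl | hne
      · exact absurd h3 h4
      · rcases h1.tot x hx z hz hne with h5 | h5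
        · exact h5
        · exact absurd (hP z hz x hx h5 h3) h4
    · exact fun h3 _ => h3
    · intro h3 h4 h5
      exact h3 (hP y hy z hz h4 h5)
    · exact fun h3 h4 => absurd h4 h3
    · exact fun _ h4 => h4
    · exact h2.tr x hx y hy z hz
  · intro x y hxy
    by_cases hx : x ∈ A <;> by_cases hy : y ∈ A <;> simp only [hx, hy, if_true, if_false]
    · exact h1.tot x hx y hy hxy
    · exact em _
    · exact (em _).symm
    · exact h2.tot x hx y hy hxy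
  · intro x y
    by_cases hx : x ∈ A <;> by_cases hy : y ∈ A <;> simp only [hx, hy, if_true, if_false]
    · exact h1.sym x hx y hy
    · exact id
    · exact id
    · exact h2.sym x hx y hy
  · intro x y z w hxy hzw
    by_cases hx : x ∈ A <;> by_cases hy : y ∈ A <;> by_cases hz : z ∈ A <;> by_cases hw : w ∈ A <;>
      simp only [hx, hy, hz, hw, if_true, if_false]
    · exact h1.cr x hx y hy z hz w hw hxy hzw
    ·
      intro _ h3 h4 h5
      obtain ⟨rfl, rfl, _, h8, _⟩ := hE z hz w hw hzw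
      exact h8 y hy h5 h4
    · intro _ h3 h4 h5
      obtain ⟨rfl, rfl, h7, h8, _⟩ := hE w hw z hz hzw.symm
      exact h4 (hP y hy w hw h5 h7)
    · intro _ h3 h4 h5
      exact h4 h5
    ·
      intro _ h3 h4 h5
      obtain ⟨rfl, rfl, _, h8, _⟩ := hE x hx y hy hxy
      exact h8 z hz h4 h3
    · intro _ h3 h4 h5
      obtain ⟨rfl, rfl, _, h8, _⟩ := hE x hx y hy hxy
      exact h8 z hz h4 h3
    · intro _ h3 h4 h5
      obtain ⟨rfl, rfl, _, h8, h9⟩ := hE x hx y hy hxy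
      exact h9 z hz h4
    · intro _ h3 h4 h5
      obtain ⟨rfl, rfl, _, h8, h9⟩ := hE x hx y hy hxy
      exact h9 z hz h4
    · intro _ h3 h4 h5
      obtain ⟨rfl, rfl, h7, h8, h9⟩ := hE y hy x hx hxy.symm
      exact h3 (hP z hz y hy h4 h7)
    · intro _ h3 h4 h5
      obtain ⟨rfl, rfl, h7, h8, h9⟩ := hE y hy x hx hxy.symm
      exact h3 (hP z hz y hy h4 h7)
    · intro _ h3 h4 h5
      obtain ⟨rfl, rfl, h7, h8, h9⟩ := hE y hy x hx hxy.symm
      exact h4 h7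
    · intro _ h3 h4 h5
      obtain ⟨rfl, rfl, h7, h8, h9⟩ := hE y hy x hx hxy.symm
      exact h4 h7
    · intro _ h3 h4 h5
      exact h3 h4
    · intro _ h3 h4 h5
      exact h3 h4
    · intro _ h3 h4 h5
      obtain ⟨rfl, rfl, h7, h8, h9⟩ := hE w hw z hz hzw.symm
      exact h9 x hx h3
    · exact h2.cr x hx y hy z hz w hw hxy hzw

theorem TP0_bridge {W : Type} (H : SimpleGraph W) (A : Set W) (hA : TP0 (H.induce A)) (hB : TP0 (H.induce Aᶜ)) (a b : W)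
    (hab : ∀ x ∈ A, ∀ y, y ∉ A → H.Adj x y → x = a ∧ y = b) : TP0 H := by
  obtain ⟨lt1, p1, h1⟩ := X5b_of_induce H A hA
  obtain ⟨lt2, p2, h2⟩ := X5b_of_induce H Aᶜ hB
  by_cases hE : ∃ x ∈ A, ∃ y, y ∉ A ∧ H.Adj x y
  · obtain ⟨x, hx, y, hy, hxy⟩ := hE
    obtain ⟨rfl, rfl⟩ := hab x hx y hy hxy
    obtain ⟨lt3, h3, hmin⟩ := X5b_rotate h2 y hy
    refine X5b_glue h1 h3 x y (fun z => z = x ∨ lt1 z x) ?_ ?_
    · rintro u hu v hv huv (rfl | hvx)
      · exact Or.inr huv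
      · exact Or.inr (h1.tr u hu v hv x hx huv hvx)
    · intro u hu v hv huv
      obtain ⟨rfl, rfl⟩ := hab u hu v hv huv
      refine ⟨rfl, rfl, Or.inl rfl, ?_, hmin⟩
      rintro z hz (rfl | hzx) hxz
      · exact h1.irr z hz hxz
      · exact h1.irr u hu (h1.tr u hu z hz u hu hxz hzx)
  · refine X5b_glue h1 h2 a b (fun _ => True) (fun _ _ _ _ _ _ => trivial) ?_
    intro u hu v hv huv
    exact absurd ⟨u, hu, v, hv, huv⟩ hE

end QPl
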