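import Pool.Agent.Lib.MP_d3a5e5_co.X5b

set_option autoImplicit false

namespace QPl

open Finsupp SimpleGraph

def glueG {I : Type} {W : I → Type} (H : ∀ i, SimpleGraph (W i)) (T : SimpleGraph I) (β : ∀ i : I, I → W i) : SimpleGraph (Σ i, W i) where
  Adj x y := (∃ i u v, x = ⟨i, u⟩ ∧ y = ⟨i, v⟩ ∧ (H i).Adj u v) ∨ (T.Adj x.1 y.1 ∧ x.2 = β x.1 y.1 ∧ y.2 = β y.1 x.1)
  symm := ⟨by
    rintro x y (⟨i, u, v, h1, h2, h3⟩ | ⟨h1, h2, h3⟩)
    · exact Or.inl ⟨i, v, u, h2, h1, h3.symm⟩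
    · exact Or.inr ⟨h1.symm, h3, h2⟩⟩
  loopless := ⟨by
    rintro x (⟨i, u, v, h1, h2, h3⟩ | ⟨h1, _, _⟩)
    · subst h1
      cases h2
      exact (H i).loopless.irrefl _ h3
    · exact T.loopless.irrefl _ h1⟩

theorem X5c_same {I : Type} {W : I → Type} {H : ∀ i, SimpleGraph (W i)} {T : SimpleGraph I} {β : ∀ i : I, I → W i} {i : I}
    {u v : W i} (h : (glueG H T β).Adj ⟨i, u⟩ ⟨i, v⟩) : (H i).Adj u v := by
  rcases h with ⟨i', u', v', h1, h2, h3⟩ | ⟨h1, _, _⟩
  · cases h1
    cases h2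
    exact h3
  · exact absurd h1 (T.loopless.irrefl i)

theorem X5c_diff {I : Type} {W : I → Type} {H : ∀ i, SimpleGraph (W i)} {T : SimpleGraph I} {β : ∀ i : I, I → W i}
    {x y : Σ i, W i} (h : (glueG H T β).Adj x y) (hne : x.1 ≠ y.1) : T.Adj x.1 y.1 ∧ x.2 = β x.1 y.1 ∧ y.2 = β y.1 x.1 := by
  rcases h with ⟨i', u', v', h1, h2, _⟩ | h
  · exact absurd (by rw [h1, h2]) hne
  · exact h

theorem X5c_eq {I : Type} {W : I → Type} {β : ∀ i : I, I → W i} {x y : Σ i, W i} {k k' : I} (hxy : x.1 = y.1) (hk : k = k')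
    (hx : x.2 = β x.1 k) (hy : y.2 = β y.1 k') : x = y := by
  obtain ⟨i, u⟩ := x
  obtain ⟨j, v⟩ := y
  simp only at hxy hx hy
  subst hxy
  subst hk
  rw [hx, hy]

theorem X5c_fin {I : Type} {W : I → Type} (H : ∀ i, SimpleGraph (W i)) (hH : ∀ i, TP0 (H i)) (T : SimpleGraph I) (dep : I → ℕ)
    (hd : ∀ i j, T.Adj i j → dep i = dep j + 1 ∨ dep j = dep i + 1)
    (hu : ∀ i j j', T.Adj i j → T.Adj i j' → dep j < dep i → dep j' < dep i → j = j') (β : ∀ i : I, I → W i)
    [DecidableEq I] : ∀ (n : ℕ) (S : Finset (Σ i, W i)), (S.image Sigma.fst).card ≤ n →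
      TP0 ((glueG H T β).induce (S : Set (Σ i, W i))) := by
  classical
  intro n
  induction n with
  | zero =>
    intro S hS
    have h0 : S = ∅ := by
      have h1 : (S.image Sigma.fst).card = 0 := by omega
      rw [Finset.card_eq_zero, Finset.image_eq_empty] at h1
      exact h1
    subst h0
    exact ⟨fun _ _ => False, fun _ _ => False, fun _ h => h, fun _ _ _ h _ => h,
      fun a => absurd a.2 (by simp), fun _ _ h => h, fun _ _ _ _ _ _ _ h _ _ => h⟩
  | succ n ih =>
    intro S hS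
    rcases S.eq_empty_or_nonempty with h0 | hne
    · apply ih
      rw [h0]
      simp
    · obtain ⟨i, hi, hmax⟩ := Finset.exists_max_image (S.image Sigma.fst) dep (hne.image _)

      set A : Set (S : Set (Σ i, W i)) := {x | x.1.1 ≠ i} with hA
      have hTA : TP0 (((glueG H T β).induce (S : Set (Σ i, W i))).induce A) := by
        have hS' : ((S.filter (fun x => x.1 ≠ i)).image Sigma.fst).card ≤ n := by
          have h1 : (S.filter (fun x => x.1 ≠ i)).image Sigma.fst ⊆ (S.image Sigma.fst).erase i := by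
            intro k hk
            obtain ⟨x, hx, rfl⟩ := Finset.mem_image.1 hk
            rw [Finset.mem_filter] at hx
            exact Finset.mem_erase.2 ⟨hx.2, Finset.mem_image_of_mem _ hx.1⟩
          have h2 := Finset.card_le_card h1
          rw [Finset.card_erase_of_mem hi] at h2
          omega
        refine TP0_of_hom (W := ((S.filter (fun x => x.1 ≠ i) : Finset (Σ i, W i)) : Set (Σ i, W i)))
          (fun x => ⟨x.1.1, ?_⟩) ?_ ?_ (ih _ hS')
        · rw [Finset.mem_coe, Finset.mem_filter]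
          exact ⟨x.1.2, x.2⟩
        · intro x y hxy
          exact Subtype.ext (Subtype.ext (Subtype.mk.inj hxy))
        · intro a b hab
          exact hab
      have hex : ∀ x : (Aᶜ : Set (S : Set (Σ i, W i))), ∃ u : W i, x.1.1 = ⟨i, u⟩ := by
        rintro ⟨⟨⟨j, u⟩, hx⟩, hx2⟩
        have h1 : j = i := by
          by_contra h2
          exact hx2 h2
        subst h1
        exact ⟨u, rfl⟩
      choose f hf using hex
      have hTB : TP0 (((glueG H T β).induce (S : Set (Σ i, W i))).induce Aᶜ) := by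
        refine TP0_of_hom f ?_ ?_ (hH i)
        · intro x y hxy
          apply Subtype.ext
          apply Subtype.ext
          rw [hf x, hf y, hxy]
        · intro a b hab
          have h1 : (glueG H T β).Adj a.1.1 b.1.1 := hab
          rw [hf a, hf b] at h1
          exact X5c_same h1
      have hkey : ∀ x ∈ A, ∀ y, y ∉ A → ((glueG H T β).induce (S : Set (Σ i, W i))).Adj x y →
          y.1.1 = i ∧ T.Adj i x.1.1 ∧ dep x.1.1 < dep i ∧ x.1.2 = β x.1.1 i ∧ y.1.2 = β y.1.1 x.1.1 := by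
        intro x hx y hy hxy
        have hyi : y.1.1 = i := by
          by_contra h2
          exact hy h2
        have hxi : x.1.1 ≠ i := hx
        obtain ⟨h1, h2, h3⟩ := X5c_diff (show (glueG H T β).Adj x.1 y.1 from hxy) (by rw [hyi]; exact hxi)
        rw [hyi] at h1 h2
        have h4 : dep x.1.1 ≤ dep i := hmax _ (Finset.mem_image_of_mem _ x.2)
        have h5 : dep x.1.1 < dep i := by
          rcases hd _ _ h1 with h6 | h6 <;> omega
        exact ⟨hyi, h1.symm, h5, h2, h3⟩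
      by_cases hedge : ∃ x0 ∈ A, ∃ y0, y0 ∉ A ∧ ((glueG H T β).induce (S : Set (Σ i, W i))).Adj x0 y0
      · obtain ⟨x0, hx0, y0, hy0, hxy0⟩ := hedge
        refine TP0_bridge _ A hTA hTB x0 y0 ?_
        intro x hx y hy hxy
        obtain ⟨a1, a2, a3, a4, a5⟩ := hkey x hx y hy hxy
        obtain ⟨b1, b2, b3, b4, b5⟩ := hkey x0 hx0 y0 hy0 hxy0
        have hj : x.1.1 = x0.1.1 := hu i _ _ a2 b2 a3 b3
        exact ⟨Subtype.ext (X5c_eq hj rfl a4 b4), Subtype.ext (X5c_eq (a1.trans b1.symm) hj a5 b5)⟩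
      · obtain ⟨x, hx⟩ := hne
        refine TP0_bridge _ A hTA hTB ⟨x, hx⟩ ⟨x, hx⟩ ?_
        intro x hx y hy hxy
        exact absurd ⟨x, hx, y, hy, hxy⟩ hedge

theorem TP0_tree {I : Type} {W : I → Type} (H : ∀ i, SimpleGraph (W i)) (hH : ∀ i, TP0 (H i)) (T : SimpleGraph I) (dep : I → ℕ)
    (hd : ∀ i j, T.Adj i j → dep i = dep j + 1 ∨ dep j = dep i + 1)
    (hu : ∀ i j j', T.Adj i j → T.Adj i j' → dep j < dep i → dep j' < dep i → j = j') (β : ∀ i : I, I → W i) : TP0 (glueG H T β) := by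
  classical
  exact TP0_of_finite _ fun S => X5c_fin H hH T dep hd hu β _ S le_rfl

end QPl
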