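import Pool.Agent.Lib.MP_d3a5e5_co.X5c

set_option autoImplicit false

namespace QPl

open Finsupp SimpleGraph

theorem X5d_aux1 {V : Type} {G : SimpleGraph V} (hc : G.Connected) {B : Set V} {R : ℕ}
    (hG : ((PW G R).induce B).Connected) (x y : B) : G.dist x.1 y.1 ≤ R * ((PW G R).induce B).dist x y := by
  have key : ∀ (x y : B) (w : ((PW G R).induce B).Walk x y), G.dist x.1 y.1 ≤ R * w.length := by
    intro x y w
    induction w with
    | nil => simp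
    | @cons u v w' h w ih =>
      have h1 : G.dist u.1 v.1 ≤ R := h.2
      have h2 := hc.dist_triangle (u := u.1) (v := v.1) (w := w'.1)
      rw [Walk.length_cons, mul_add, mul_one]
      omega
  obtain ⟨w, hw⟩ := hG.exists_walk_length_eq_dist x y
  rw [← hw]
  exact key x y w

theorem X5d_aux2 {I : Type} {W : I → Type} (H : ∀ i, SimpleGraph (W i)) (T : SimpleGraph I) (β : ∀ i : I, I → W i)
    {i : I} (hi : (H i).Connected) (u v : W i) : ∃ w : (glueG H T β).Walk ⟨i, u⟩ ⟨i, v⟩, w.length = (H i).dist u v := by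
  obtain ⟨w, hw⟩ := hi.exists_walk_length_eq_dist u v
  let φ : (H i) →g (glueG H T β) :=
    { toFun := fun u => ⟨i, u⟩
      map_rel' := fun {u v} h => Or.inl ⟨i, u, v, rfl, rfl, h⟩ }
  exact ⟨w.map φ, by rw [Walk.length_map, hw]⟩

theorem X5d_aux3 {I : Type} {W : I → Type} (H : ∀ i, SimpleGraph (W i)) (T : SimpleGraph I) (β : ∀ i : I, I → W i)
    {i : I} (hi : (H i).Connected) (u v : W i) : (glueG H T β).dist ⟨i, u⟩ ⟨i, v⟩ ≤ (H i).dist u v := by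
  obtain ⟨w, hw⟩ := X5d_aux2 H T β hi u v
  rw [← hw]
  exact SimpleGraph.dist_le w

theorem X5d_aux4 {I : Type} {W : I → Type} (H : ∀ i, SimpleGraph (W i)) (hH : ∀ i, (H i).Connected) (T : SimpleGraph I) (hT : T.Connected)
    (β : ∀ i : I, I → W i) : (glueG H T β).Connected := by
  have key : ∀ (i j : I) (w : T.Walk i j) (u : W i) (v : W j), (glueG H T β).Reachable ⟨i, u⟩ ⟨j, v⟩ := by
    intro i j w
    induction w with
    | nil =>
      intro u v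
      obtain ⟨w, _⟩ := X5d_aux2 H T β (hH _) u v
      exact ⟨w⟩
    | @cons a b c h w ih =>
      intro u v
      obtain ⟨w1, _⟩ := X5d_aux2 H T β (hH a) u (β a b)
      have h2 : (glueG H T β).Adj ⟨a, β a b⟩ ⟨b, β b a⟩ := Or.inr ⟨h, rfl, rfl⟩
      exact SimpleGraph.Reachable.trans ⟨w1⟩ (h2.reachable.trans (ih (β b a) v))
  obtain ⟨i⟩ := hT.nonempty
  obtain ⟨u⟩ := (hH i).nonempty
  refine (SimpleGraph.connected_iff _).2 ⟨?_, ⟨⟨i, u⟩⟩⟩
  rintro ⟨i, u⟩ ⟨j, v⟩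
  obtain ⟨w⟩ := hT.preconnected i j
  exact key i j w u v

theorem glue_QI {V I : Type} {G : SimpleGraph V} (hc : G.Connected) (B : I → Set V) (R N C : ℕ) {W : I → Type} (H : ∀ i, SimpleGraph (W i))
    (f : ∀ i, B i → W i) (hG : ∀ i, ((PW G R).induce (B i)).Connected) (hH : ∀ i, (H i).Connected)
    (h1 : ∀ i x y, (H i).dist (f i x) (f i y) ≤ C * ((PW G R).induce (B i)).dist x y + C)
    (h2 : ∀ i x y, ((PW G R).induce (B i)).dist x y ≤ C * (H i).dist (f i x) (f i y) + C)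
    (h3 : ∀ i w, ∃ x, (H i).dist w (f i x) ≤ C)
    (T : SimpleGraph I) (hT : T.Connected) (p : I → I → V) (hp : ∀ i j, T.Adj i j → p i j ∈ B i ∧ p i j = p j i)
    (β : ∀ i : I, I → W i) (hβ : ∀ i j, T.Adj i j → ∀ h : p i j ∈ B i, β i j = f i ⟨p i j, h⟩)
    (τ : V → I) (hτ : ∀ x, x ∈ B (τ x)) (hadj : ∀ x y, G.Adj x y → x ∈ B (τ y))
    (hpath : ∀ x i, x ∈ B i → ∃ w : T.Walk (τ x) i, w.length ≤ N ∧
      ∀ d ∈ w.darts, x ∈ B d.fst ∧ x ∈ B d.snd ∧ G.dist x (p d.fst d.snd) ≤ R) :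
    ∃ C' : ℕ, (glueG H T β).Connected ∧
      (∀ x y, (glueG H T β).dist ⟨τ x, f (τ x) ⟨x, hτ x⟩⟩ ⟨τ y, f (τ y) ⟨y, hτ y⟩⟩ ≤ C' * G.dist x y + C') ∧
      (∀ x y, G.dist x y ≤ C' * (glueG H T β).dist ⟨τ x, f (τ x) ⟨x, hτ x⟩⟩ ⟨τ y, f (τ y) ⟨y, hτ y⟩⟩ + C') ∧
      ∀ z, ∃ x, (glueG H T β).dist z ⟨τ x, f (τ x) ⟨x, hτ x⟩⟩ ≤ C' := by
  have hcon : (glueG H T β).Connected := X5d_aux4 H hH T hT β

  have s1 : ∀ (j : I) (x y : B j), G.dist x.1 y.1 ≤ R → (H j).dist (f j x) (f j y) ≤ 2 * C := by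
    intro j x y hxy
    have h4 := h1 j x y
    by_cases he : x = y
    · subst he
      simp
    · have h5 : ((PW G R).induce (B j)).Adj x y := ⟨fun h => he (Subtype.ext h), hxy⟩
      have h6 : ((PW G R).induce (B j)).dist x y = 1 := SimpleGraph.dist_eq_one_iff_adj.2 h5
      rw [h6] at h4
      omega

  have s2 : ∀ (x : V) (j i : I) (w : T.Walk j i) (hj : x ∈ B j) (hi : x ∈ B i),
      (∀ d ∈ w.darts, x ∈ B d.fst ∧ x ∈ B d.snd ∧ G.dist x (p d.fst d.snd) ≤ R) →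
      (glueG H T β).dist ⟨j, f j ⟨x, hj⟩⟩ ⟨i, f i ⟨x, hi⟩⟩ ≤ w.length * (4 * C + 1) := by
    intro x j i w
    induction w with
    | nil =>
      intro hj hi _
      simp
    | @cons a b c h w ih =>
      intro hj hi hd
      have hd0 := hd ⟨(a, b), h⟩ (by simp)
      obtain ⟨k1, k2, k3⟩ := hd0
      simp only at k1 k2 k3
      have q := hp a b h
      have q' := hp b a h.symm
      have e1 : β a b = f a ⟨p a b, q.1⟩ := hβ a b h q.1
      have e2 : β b a = f b ⟨p b a, q'.1⟩ := hβ b a h.symm q'.1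
      have d1 : (glueG H T β).dist ⟨a, f a ⟨x, hj⟩⟩ ⟨a, β a b⟩ ≤ 2 * C := by
        refine (X5d_aux3 H T β (hH a) _ _).trans ?_
        rw [e1]
        exact s1 a _ _ k3
      have d2 : (glueG H T β).dist ⟨a, β a b⟩ ⟨b, β b a⟩ = 1 :=
        SimpleGraph.dist_eq_one_iff_adj.2 (Or.inr ⟨h, rfl, rfl⟩)
      have d3 : (glueG H T β).dist ⟨b, β b a⟩ ⟨b, f b ⟨x, k2⟩⟩ ≤ 2 * C := by
        refine (X5d_aux3 H T β (hH b) _ _).trans ?_
        rw [e2]
        refine s1 b _ _ ?_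
        rw [SimpleGraph.dist_comm]
        show G.dist x (p b a) ≤ R
        rw [← q.2]
        exact k3
      have d4 := ih k2 hi (fun d hd' => hd d (by simp [hd']))
      have t1 := hcon.dist_triangle (u := (⟨a, f a ⟨x, hj⟩⟩ : Σ i, W i)) (v := ⟨a, β a b⟩) (w := ⟨c, f c ⟨x, hi⟩⟩)
      have t2 := hcon.dist_triangle (u := (⟨a, β a b⟩ : Σ i, W i)) (v := ⟨b, β b a⟩) (w := ⟨c, f c ⟨x, hi⟩⟩)
      have t3 := hcon.dist_triangle (u := (⟨b, β b a⟩ : Σ i, W i)) (v := ⟨b, f b ⟨x, k2⟩⟩) (w := ⟨c, f c ⟨x, hi⟩⟩)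
      rw [Walk.length_cons, add_mul, one_mul]
      omega
  have s2' : ∀ (x : V) (i : I) (hi : x ∈ B i),
      (glueG H T β).dist ⟨τ x, f (τ x) ⟨x, hτ x⟩⟩ ⟨i, f i ⟨x, hi⟩⟩ ≤ N * (4 * C + 1) := by
    intro x i hi
    obtain ⟨w, hw, hd⟩ := hpath x i hi
    exact (s2 x (τ x) i w (hτ x) hi hd).trans (Nat.mul_le_mul_right _ hw)

  have s3 : ∀ x y, G.Adj x y →
      (glueG H T β).dist ⟨τ x, f (τ x) ⟨x, hτ x⟩⟩ ⟨τ y, f (τ y) ⟨y, hτ y⟩⟩ ≤ N * (4 * C + 1) + 2 * C := by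
    intro x y hxy
    have hx := hadj x y hxy
    have hR : 1 ≤ R := by
      by_contra hR
      have hR0 : R = 0 := by omega
      have hne : (⟨x, hx⟩ : B (τ y)) ≠ ⟨y, hτ y⟩ := fun h => hxy.ne (congrArg Subtype.val h)
      have h4 := X5d_aux1 hc (hG (τ y)) ⟨x, hx⟩ ⟨y, hτ y⟩
      rw [hR0, zero_mul] at h4
      have h5 : G.dist x y = 1 := SimpleGraph.dist_eq_one_iff_adj.2 hxy
      simp only at h4
      omega
    have h5 : G.dist x y = 1 := SimpleGraph.dist_eq_one_iff_adj.2 hxy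
    have d1 := s2' x (τ y) hx
    have d2 : (glueG H T β).dist ⟨τ y, f (τ y) ⟨x, hx⟩⟩ ⟨τ y, f (τ y) ⟨y, hτ y⟩⟩ ≤ 2 * C := by
      refine (X5d_aux3 H T β (hH _) _ _).trans (s1 _ _ _ ?_)
      show G.dist x y ≤ R
      omega
    have t1 := hcon.dist_triangle (u := (⟨τ x, f (τ x) ⟨x, hτ x⟩⟩ : Σ i, W i)) (v := ⟨τ y, f (τ y) ⟨x, hx⟩⟩)
      (w := ⟨τ y, f (τ y) ⟨y, hτ y⟩⟩)
    omega
  have s3' : ∀ x y, (glueG H T β).dist ⟨τ x, f (τ x) ⟨x, hτ x⟩⟩ ⟨τ y, f (τ y) ⟨y, hτ y⟩⟩ ≤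
      (N * (4 * C + 1) + 2 * C) * G.dist x y := by
    have key : ∀ x y (w : G.Walk x y), (glueG H T β).dist ⟨τ x, f (τ x) ⟨x, hτ x⟩⟩ ⟨τ y, f (τ y) ⟨y, hτ y⟩⟩ ≤
        (N * (4 * C + 1) + 2 * C) * w.length := by
      intro x y w
      induction w with
      | nil => simp
      | @cons a b c h w ih =>
        have t1 := hcon.dist_triangle (u := (⟨τ a, f (τ a) ⟨a, hτ a⟩⟩ : Σ i, W i)) (v := ⟨τ b, f (τ b) ⟨b, hτ b⟩⟩)
          (w := ⟨τ c, f (τ c) ⟨c, hτ c⟩⟩)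
        have t2 := s3 a b h
        rw [Walk.length_cons, mul_add, mul_one]
        omega
    intro x y
    obtain ⟨w, hw⟩ := hc.exists_walk_length_eq_dist x y
    rw [← hw]
    exact key x y w

  have hg : ∀ z : Σ i, W i, ∃ x : B z.1, (H z.1).dist z.2 (f z.1 x) ≤ C := fun z => h3 z.1 z.2
  choose g hg using hg
  have s4 : ∀ (i : I) (x y : B i) (n : ℕ), (H i).dist (f i x) (f i y) ≤ n → G.dist x.1 y.1 ≤ R * (C * n + C) := by
    intro i x y n hn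
    refine (X5d_aux1 hc (hG i) x y).trans (Nat.mul_le_mul_left _ ((h2 i x y).trans ?_))
    exact Nat.add_le_add_right (Nat.mul_le_mul_left _ hn) _
  have s5 : ∀ z z', (glueG H T β).Adj z z' →
      G.dist (g z).1 (g z').1 ≤ R * (C * (2 * C + 1) + C) + 2 * (R * (C * C + C)) := by
    rintro z z' (⟨i, u, v, e1, e2, e3⟩ | ⟨e1, e2, e3⟩)
    · subst e1
      subst e2
      have k1 := hg ⟨i, u⟩
      have k2 := hg ⟨i, v⟩
      simp only at k1 k2
      have k3 : (H i).dist u v = 1 := SimpleGraph.dist_eq_one_iff_adj.2 e3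
      have t1 := (hH i).dist_triangle (u := f i (g ⟨i, u⟩)) (v := u) (w := f i (g ⟨i, v⟩))
      have t2 := (hH i).dist_triangle (u := u) (v := v) (w := f i (g ⟨i, v⟩))
      rw [SimpleGraph.dist_comm] at k1
      have k4 := s4 i (g ⟨i, u⟩) (g ⟨i, v⟩) (2 * C + 1) (by omega)
      omega
    · obtain ⟨i, u⟩ := z
      obtain ⟨j, v⟩ := z'
      simp only at e1 e2 e3
      have q := hp i j e1
      have q' := hp j i e1.symm
      have k1 := hg ⟨i, u⟩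
      have k2 := hg ⟨j, v⟩
      simp only at k1 k2
      have b1 : u = f i ⟨p i j, q.1⟩ := e2.trans (hβ i j e1 q.1)
      have b2 : v = f j ⟨p j i, q'.1⟩ := e3.trans (hβ j i e1.symm q'.1)
      have k3 : G.dist (p i j) (g ⟨i, u⟩).1 ≤ R * (C * C + C) := by
        have := s4 i ⟨p i j, q.1⟩ (g ⟨i, u⟩) C (by rw [← b1]; exact k1)
        exact this
      have k4 : G.dist (p j i) (g ⟨j, v⟩).1 ≤ R * (C * C + C) := by
        have := s4 j ⟨p j i, q'.1⟩ (g ⟨j, v⟩) C (by rw [← b2]; exact k2)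
        exact this
      rw [← q.2] at k4
      rw [SimpleGraph.dist_comm] at k3
      have t1 := hc.dist_triangle (u := (g ⟨i, u⟩).1) (v := p i j) (w := (g ⟨j, v⟩).1)
      omega
  have s5' : ∀ z z', G.dist (g z).1 (g z').1 ≤
      (R * (C * (2 * C + 1) + C) + 2 * (R * (C * C + C))) * (glueG H T β).dist z z' := by
    have key : ∀ z z' (w : (glueG H T β).Walk z z'), G.dist (g z).1 (g z').1 ≤
        (R * (C * (2 * C + 1) + C) + 2 * (R * (C * C + C))) * w.length := by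
      intro z z' w
      induction w with
      | nil => simp
      | @cons a b c h w ih =>
        have t1 := hc.dist_triangle (u := (g a).1) (v := (g b).1) (w := (g c).1)
        have t2 := s5 a b h
        rw [Walk.length_cons, mul_add, mul_one]
        omega
    intro z z'
    obtain ⟨w, hw⟩ := hcon.exists_walk_length_eq_dist z z'
    rw [← hw]
    exact key z z' w
  have s6 : ∀ x, G.dist x (g ⟨τ x, f (τ x) ⟨x, hτ x⟩⟩).1 ≤ R * (C * C + C) := by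
    intro x
    exact s4 (τ x) ⟨x, hτ x⟩ (g ⟨τ x, f (τ x) ⟨x, hτ x⟩⟩) C (hg ⟨τ x, f (τ x) ⟨x, hτ x⟩⟩)
  refine ⟨(N * (4 * C + 1) + 2 * C) + (R * (C * (2 * C + 1) + C) + 2 * (R * (C * C + C))) + 2 * (R * (C * C + C)),
    hcon, ?_, ?_, ?_⟩
  · intro x y
    refine (s3' x y).trans (le_trans (Nat.mul_le_mul_right _ ?_) (Nat.le_add_right _ _))
    omega
  · intro x y
    have t1 := hc.dist_triangle (u := x) (v := (g ⟨τ x, f (τ x) ⟨x, hτ x⟩⟩).1) (w := y)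
    have t2 := hc.dist_triangle (u := (g ⟨τ x, f (τ x) ⟨x, hτ x⟩⟩).1) (v := (g ⟨τ y, f (τ y) ⟨y, hτ y⟩⟩).1) (w := y)
    have t3 := s5' ⟨τ x, f (τ x) ⟨x, hτ x⟩⟩ ⟨τ y, f (τ y) ⟨y, hτ y⟩⟩
    have t4 := s6 x
    have t5 := s6 y
    rw [SimpleGraph.dist_comm] at t5
    have t6 : (R * (C * (2 * C + 1) + C) + 2 * (R * (C * C + C))) *
        (glueG H T β).dist ⟨τ x, f (τ x) ⟨x, hτ x⟩⟩ ⟨τ y, f (τ y) ⟨y, hτ y⟩⟩ ≤
        ((N * (4 * C + 1) + 2 * C) + (R * (C * (2 * C + 1) + C) + 2 * (R * (C * C + C))) + 2 * (R * (C * C + C))) *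
        (glueG H T β).dist ⟨τ x, f (τ x) ⟨x, hτ x⟩⟩ ⟨τ y, f (τ y) ⟨y, hτ y⟩⟩ := by
      refine Nat.mul_le_mul_right _ ?_
      omega
    omega
  · intro z
    refine ⟨(g z).1, ?_⟩
    have k1 := hg z
    have k2 := s2' (g z).1 z.1 (g z).2
    have k3 := X5d_aux3 H T β (hH z.1) z.2 (f z.1 (g z))
    have t1 := hcon.dist_triangle (u := z) (v := (⟨z.1, f z.1 (g z)⟩ : Σ i, W i))
      (w := ⟨τ (g z).1, f (τ (g z).1) ⟨(g z).1, hτ (g z).1⟩⟩)
    rw [SimpleGraph.dist_comm] at k2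
    have k3' : (glueG H T β).dist z ⟨z.1, f z.1 (g z)⟩ ≤ C := k3.trans k1
    have k2' : (glueG H T β).dist (⟨z.1, f z.1 (g z)⟩ : Σ i, W i) ⟨τ (g z).1, f (τ (g z).1) ⟨(g z).1, hτ (g z).1⟩⟩ ≤
      N * (4 * C + 1) := k2
    omega

end QPl
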