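import Pool.Agent.Lib.MP_d3a5e5_co.X5d
import Pool.Agent.Lib.MP_d3a5e5_co.X4g
import Pool.Agent.Lib.MP_d3a5e5_co.X3d
import Pool.Agent.Lib.MP_d3a5e5_co.X2c
import Pool.Agent.Lib.MP_d3a5e5_co.S3b

set_option autoImplicit false

namespace QPl

open Finsupp SimpleGraph

/-- `v` is an end of an edge of the cut between the tree vertices `s` and `t`. -/
def X5e_Port {V : Type} (G : SimpleGraph V) (E : Set (Set V)) (s t : Set (Set V)) (v : V) : Prop :=
  ∃ C, C ∈ E ∧ Cᶜ ∈ E ∧ s = op E Cᶜ ∧ t = op E C ∧ ∃ e ∈ cutE G C, v ∈ e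

theorem X5e_aux1 {V : Type} (G : SimpleGraph V) (E : Set (Set V)) (s t : Set (Set V)) :
    X5e_Port G E s t = X5e_Port G E t s := by
  have key : ∀ (s t : Set (Set V)) (v : V), X5e_Port G E s t v → X5e_Port G E t s v := by
    rintro s t v ⟨C, h1, h2, h3, h4, e, he, hv⟩
    exact ⟨Cᶜ, h2, by rwa [compl_compl], by rwa [compl_compl], h3, e, by rwa [cutE_compl], hv⟩
  funext v
  exact propext ⟨key s t v, key t s v⟩

theorem X5e_aux2 {V : Type} {G : SimpleGraph V} {K : ℕ} {E : Set (Set V)} (hE : Fam G K E) {C C' : Set V} (hC : C ∈ E) (hC' : C' ∈ E)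
    (h1 : op E C'ᶜ = op E Cᶜ) (h2 : op E C' = op E C) : C' = C := by
  have a1 := op_flip hE hC
  have a2 := op_flip hE hC'
  have b1 : C' ∈ op E Cᶜ := h1 ▸ a2.1
  have b2 : C' ∉ op E C := h2 ▸ a2.2.1
  by_contra hne
  apply b2
  rw [a1.2.2.2.2]
  exact Or.inl ⟨b1, hne⟩

theorem X5e_aux3 {V : Type} {G : SimpleGraph V} {e : Sym2 V} {C : Set V} (he : e ∈ cutE G C) {v : V} (hv : v ∈ e) :
    ∃ x y, G.Adj x y ∧ x ∈ C ∧ y ∉ C ∧ (v = x ∨ v = y) := by
  obtain ⟨h1, x, y, rfl, hx, hy⟩ := he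
  exact ⟨x, y, h1, hx, hy, Sym2.mem_iff.1 hv⟩

theorem X5e_aux4 {V : Type} {G : SimpleGraph V} {d K : ℕ} {F : Finset V} {E : Set (Set V)} (hS : Std0 G d 3 F) (hE : Fam G K E) :
    ∃ N : ℕ, ∀ x y, G.Adj x y → {C | C ∈ E ∧ x ∈ C ∧ y ∉ C}.ncard ≤ N := by
  refine ⟨∑ a ∈ F, ∑ b ∈ (hS.fin a).toFinset, {C | C ∈ E ∧ a ∈ C ∧ b ∉ C}.ncard, ?_⟩
  intro x y hxy
  obtain ⟨φ, hφ⟩ := hS.qt x
  have hadj : G.Adj (φ x) (φ y) := φ.map_adj_iff.2 hxy
  have h1 : {C | C ∈ E ∧ x ∈ C ∧ y ∉ C}.ncard ≤ {C | C ∈ E ∧ φ x ∈ C ∧ φ y ∉ C}.ncard := by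
    refine Set.ncard_le_ncard_of_injOn (fun C => φ '' C) ?_ ?_ (Ch_finite hS.conn hS.fin hS.cyc hE hadj)
    · rintro C ⟨c1, c2, c3⟩
      refine ⟨hE.inv φ C c1, ⟨x, c2, rfl⟩, ?_⟩
      rintro ⟨z, hz, hzy⟩
      have : z = y := φ.injective hzy
      exact c3 (this ▸ hz)
    · intro C _ D _ h
      exact φ.injective.image_injective h
  refine h1.trans ?_
  have h2 : {C | C ∈ E ∧ φ x ∈ C ∧ φ y ∉ C}.ncard ≤
      ∑ b ∈ (hS.fin (φ x)).toFinset, {C | C ∈ E ∧ φ x ∈ C ∧ b ∉ C}.ncard :=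
    Finset.single_le_sum (f := fun b => {C | C ∈ E ∧ φ x ∈ C ∧ b ∉ C}.ncard) (fun _ _ => Nat.zero_le _)
      ((hS.fin (φ x)).mem_toFinset.2 hadj)
  exact h2.trans (Finset.single_le_sum (f := fun a => ∑ b ∈ (hS.fin a).toFinset, {C | C ∈ E ∧ a ∈ C ∧ b ∉ C}.ncard)
    (fun _ _ => Nat.zero_le _) hφ)

theorem X5e_aux5 {V : Type} {G : SimpleGraph V} {E : Set (Set V)} [Countable V] : Countable (TT G E) := by
  have h : TT G E ⊆ Set.range (fun q : V × V × V => maj E q.1 q.2.1 q.2.2) := by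
    rintro t ⟨x, y, z, _, _, _, rfl⟩
    exact ⟨(x, y, z), rfl⟩
  exact ((Set.countable_range _).mono h).to_subtype

theorem QITP_tri {V : Type} {G : SimpleGraph V} {d k : ℕ} {F : Finset V} (hS : Std0 G d 3 F) (hk : (Om G k).Nonempty) : ∃ C, QITP C G := by
  classical
  obtain ⟨K, E, hE⟩ := exists_fam hS
  obtain ⟨C, hC⟩ := torso_unif hS hE hk
  obtain ⟨N, hN⟩ := X5e_aux4 hS hE
  have hc := hS.conn
  have hf := hS.fin
  have hcyc := hS.cyc
  have hcV : Countable V := countable_V hc hf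
  obtain ⟨x0⟩ := hc.nonempty
  have hneV : Nonempty V := ⟨x0⟩
  have hq : ∀ i : TT G E, QITP C (torso G E (4 * K + 1) i.1) := fun i => hC i.1 i.2
  choose W H f hW hH htp h1 h2 h3 using hq
  have hG : ∀ i : TT G E, ((PW G (4 * K + 1)).induce (BT G E i.1)).Connected := by
    intro i
    obtain ⟨r, hr⟩ := exists_retr hc hf hcyc hE i.2
    exact retr_conn hc hr
  have hT : (TrG G E).Connected := by
    refine (SimpleGraph.connected_iff _).2 ⟨?_, ⟨⟨Or E x0, Or_mem_TT G E x0⟩⟩⟩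
    intro s t
    obtain ⟨w, _⟩ := tr_path hc hf hcyc hE s t
    exact ⟨w⟩
  set p : TT G E → TT G E → V := fun s t => Classical.epsilon (X5e_Port G E s.1 t.1) with hpdef
  have hport : ∀ s t : TT G E, (TrG G E).Adj s t → X5e_Port G E s.1 t.1 (p s t) := by
    intro s t hst
    obtain ⟨_, D, d1, d2, d3, d4⟩ := hst
    have ht := hE.tight D d1
    obtain ⟨e, he⟩ := cutE_nonempty hc ht.ne ht.ne'
    have hex : ∃ v, X5e_Port G E s.1 t.1 v := by
      obtain ⟨_, x, y, hxy, hx, hy⟩ := id he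
      exact ⟨x, D, d1, d2, d3, d4, e, he, by rw [hxy]; exact Sym2.mem_mk_left x y⟩
    exact Classical.epsilon_spec hex
  have hp : ∀ i j, (TrG G E).Adj i j → p i j ∈ BT G E i.1 ∧ p i j = p j i := by
    intro i j hij
    refine ⟨?_, ?_⟩
    · obtain ⟨D, d1, d2, d3, d4, e, he, hv⟩ := hport i j hij
      obtain ⟨x, y, a1, a2, a3, a4⟩ := X5e_aux3 he hv
      have hb := bd_sub_BT hE d1 a1 a2 a3
      rw [d3]
      rcases a4 with a4 | a4
      · rw [a4]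
        exact hb.2.2.1
      · rw [a4]
        exact hb.2.2.2
    · show Classical.epsilon (X5e_Port G E i.1 j.1) = Classical.epsilon (X5e_Port G E j.1 i.1)
      rw [X5e_aux1 G E i.1 j.1]
  set β : ∀ i : TT G E, TT G E → W i := fun i j =>
    if h : p i j ∈ BT G E i.1 then f i ⟨p i j, h⟩ else (hH i).nonempty.some with hβdef
  have hβ : ∀ i j, (TrG G E).Adj i j → ∀ h : p i j ∈ BT G E i.1, β i j = f i ⟨p i j, h⟩ := by
    intro i j _ h
    simp only [hβdef]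
    rw [dif_pos h]
  have hτ : ∀ x : V, x ∈ BT G E (Or E x) := fun x => ⟨x, Or.inl rfl, Set.inter_subset_left⟩
  have hadj : ∀ x y, G.Adj x y → x ∈ BT G E (Or E y) := fun x y h => ⟨y, Or.inr h, Set.inter_subset_right⟩
  have hpath : ∀ (x : V) (i : TT G E), x ∈ BT G E i.1 →
      ∃ w : (TrG G E).Walk ⟨Or E x, Or_mem_TT G E x⟩ i, w.length ≤ N ∧
        ∀ D ∈ w.darts, x ∈ BT G E D.fst.1 ∧ x ∈ BT G E D.snd.1 ∧ G.dist x (p D.fst D.snd) ≤ 4 * K + 1 := by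
    rintro x i ⟨y, hxy, hsub⟩
    obtain ⟨w, w1, w2, w3⟩ := tr_path hc hf hcyc hE ⟨Or E x, Or_mem_TT G E x⟩ i
    simp only at w1 w2 w3
    have hmem : ∀ r ∈ w.support, x ∈ BT G E r.1 := by
      intro r hr
      refine ⟨y, hxy, ?_⟩
      intro D hD
      exact w2 r hr ⟨hD.1, hsub hD⟩
    refine ⟨w, ?_, ?_⟩
    · rw [w1]
      have hss : Or E x \ i.1 ⊆ {D | D ∈ E ∧ x ∈ D ∧ y ∉ D} := by
        rintro D ⟨⟨d1, d2⟩, d3⟩
        exact ⟨d1, d2, fun hy => d3 (hsub ⟨⟨d1, d2⟩, ⟨d1, hy⟩⟩)⟩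
      rcases hxy with rfl | hxy
      · have he : Or E x \ i.1 = ∅ := by
          refine Set.eq_empty_of_forall_notMem fun D hD => ?_
          have := hss hD
          exact this.2.2 this.2.1
        rw [he, Set.ncard_empty]
        exact Nat.zero_le _
      · exact (Set.ncard_le_ncard hss (Ch_finite hc hf hcyc hE hxy)).trans (hN x y hxy)
    · intro D hD
      have m1 := w.dart_fst_mem_support_of_mem_darts hD
      have m2 := w.dart_snd_mem_support_of_mem_darts hD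
      refine ⟨hmem _ m1, hmem _ m2, ?_⟩
      obtain ⟨A, a1, a2, a3, a4, a5⟩ := w3 D hD
      have hxA : x ∈ A := a2.2
      have hyA : y ∉ A := fun hy => a3 (hsub ⟨a2, ⟨a1, hy⟩⟩)
      have hxy' : G.Adj x y := by
        rcases hxy with rfl | h
        · exact absurd hxA hyA
        · exact h
      obtain ⟨A', b1, _, b3, b4, e, he, hv⟩ := hport D.fst D.snd D.adj
      have hAA : A' = A := X5e_aux2 hE a1 b1 (b3.symm.trans a4) (b4.symm.trans a5)
      subst hAA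
      obtain ⟨u, v, c1, c2, c3, c4⟩ := X5e_aux3 he hv
      have hn := cut_near hc hcyc hE b1 hxy' c1 hxA hyA c2 c3
      rcases c4 with c4 | c4
      · rw [c4]
        exact hn.1
      · rw [c4]
        exact hn.2.1
  obtain ⟨C', g1, g2, g3, g4⟩ := glue_QI hc (fun i : TT G E => BT G E i.1) (4 * K + 1) N C H f hG hH h1 h2 h3 (TrG G E) hT p hp β hβ
    (fun x => ⟨Or E x, Or_mem_TT G E x⟩) hτ hadj hpath
  have hcI : Countable (TT G E) := X5e_aux5
  refine ⟨C', (Σ i, W i), glueG H (TrG G E) β, fun x => ⟨⟨Or E x, Or_mem_TT G E x⟩, f ⟨Or E x, Or_mem_TT G E x⟩ ⟨x, hτ x⟩⟩,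
    inferInstance, g1, ?_, g2, g3, g4⟩
  exact TP0_tree H htp (TrG G E) (fun t => (t.1 \ Or E x0).ncard)
    (fun i j h => tr_dep hc hf hcyc hE ⟨Or E x0, Or_mem_TT G E x0⟩ i j h)
    (fun i j j' h h' hd hd' => tr_parent hc hf hcyc hE ⟨Or E x0, Or_mem_TT G E x0⟩ i j j' h h' hd hd') β

end QPl
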