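import Pool.Agent.Lib.MP_d3a5e5_co.C2
import Pool.Agent.Lib.MP_d3a5e5_co.C5
import Pool.Agent.Lib.MP_d3a5e5_co.Defs2

set_option autoImplicit false

namespace QPl

open Finsupp SimpleGraph

theorem PW_dist {V : Type} {G : SimpleGraph V} (hc : G.Connected) {l : ℕ} (hl : 1 ≤ l) (x y : V) :
    (PW G l).dist x y ≤ G.dist x y ∧ G.dist x y ≤ l * (PW G l).dist x y := by
  have hle : G ≤ PW G l := by
    intro a b hab
    refine ⟨hab.ne, ?_⟩
    rw [SimpleGraph.dist_eq_one_iff_adj.2 hab]
    exact hl
  have key : ∀ (a b : V) (w : (PW G l).Walk a b), G.dist a b ≤ l * w.length := by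
    intro a b w
    induction w with
    | nil => simp
    | @cons a c b h p ih =>
      have h1 := hc.dist_triangle (u := a) (v := c) (w := b)
      have h2 : G.dist a c ≤ l := h.2
      rw [Walk.length_cons, Nat.mul_add, Nat.mul_one]
      omega
  constructor
  · obtain ⟨w, hw⟩ := hc.exists_walk_length_eq_dist x y
    have h1 := SimpleGraph.dist_le (w.mapLe hle)
    rw [Walk.length_map, hw] at h1
    exact h1
  · obtain ⟨w, hw⟩ := (hc.mono hle).exists_walk_length_eq_dist x y
    rw [← hw]
    exact key x y w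

/-- The span of the closed walks of length at most 3. -/
noncomputable def X6a_S {V : Type} (P : SimpleGraph V) : Submodule (ZMod 2) (EC V) :=
  Submodule.span (ZMod 2) {c | ∃ (u : V) (w' : P.Walk u u), w'.length ≤ 3 ∧ c = wv w'}

theorem X6a_add {V : Type} (c : EC V) : c + c = 0 := ZModModule.add_self c

open Classical in
/-- The edge from the tip of the cone. -/
noncomputable def X6a_c {V : Type} (u z : V) : EC V := if z = u then 0 else Finsupp.single s(u, z) 1

theorem X6a_tri {V : Type} {P : SimpleGraph V} {u x y : V} (h1 : P.Adj u x) (h2 : P.Adj x y) (h3 : P.Adj y u) :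
    (Finsupp.single s(x, y) 1 : EC V) + Finsupp.single s(u, x) 1 + Finsupp.single s(u, y) 1 ∈ X6a_S P := by
  refine Submodule.subset_span ⟨u, Walk.cons h1 (Walk.cons h2 (Walk.cons h3 Walk.nil)), by simp, ?_⟩
  rw [wv_cons, wv_cons, wv_cons]
  have h4 : wv (Walk.nil : P.Walk u u) = 0 := by simp [wv]
  rw [h4, Sym2.eq_swap (a := y) (b := u)]
  abel

theorem X6a_cone {V : Type} {P : SimpleGraph V} (u : V) {x y : V} (w : P.Walk x y)
    (h : ∀ z ∈ w.support, z = u ∨ P.Adj u z) : wv w + X6a_c u x + X6a_c u y ∈ X6a_S P := by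
  classical
  induction w with
  | nil =>
    rw [add_assoc, X6a_add, add_zero]
    have h4 : ∀ x : V, wv (Walk.nil : P.Walk x x) = 0 := fun x => by simp [wv]
    rw [h4]
    exact Submodule.zero_mem _
  | @cons x x' y hx p ih =>
    have h1 := ih fun z hz => h z (by rw [Walk.support_cons]; exact List.mem_cons_of_mem _ hz)
    have h2 : (Finsupp.single s(x, x') 1 : EC V) + X6a_c u x + X6a_c u x' ∈ X6a_S P := by
      have hx1 := h x (by simp)
      have hx2 := h x' (by simp)
      unfold X6a_c
      by_cases e1 : x = u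
      · have e2 : x' ≠ u := fun h => hx.ne (e1.trans h.symm)
        rw [if_pos e1, if_neg e2, e1, add_zero, X6a_add]
        exact Submodule.zero_mem _
      · by_cases e2 : x' = u
        · rw [if_neg e1, if_pos e2, e2, add_zero, Sym2.eq_swap, X6a_add]
          exact Submodule.zero_mem _
        · rw [if_neg e1, if_neg e2]
          exact X6a_tri (hx1.resolve_left e1) hx (hx2.resolve_left e2).symm
    have h3 := Submodule.add_mem _ h2 h1
    rw [wv_cons]
    have h4 : (Finsupp.single s(x, x') 1 : EC V) + X6a_c u x + X6a_c u x' + (wv p + X6a_c u x' + X6a_c u y) =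
        Finsupp.single s(x, x') 1 + wv p + X6a_c u x + X6a_c u y + (X6a_c u x' + X6a_c u x') := by abel
    rw [h4, X6a_add, add_zero] at h3
    exact h3

theorem X6a_closed {V : Type} {P : SimpleGraph V} (u : V) {x : V} (w : P.Walk x x)
    (h : ∀ z ∈ w.support, z = u ∨ P.Adj u z) : wv w ∈ X6a_S P := by
  have h1 := X6a_cone u w h
  rw [add_assoc, X6a_add, add_zero] at h1
  exact h1

theorem X6a_map {V : Type} {G P : SimpleGraph V} (hle : G ≤ P) {x y : V} (w : G.Walk x y) : wv (w.mapLe hle) = wv w := by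
  unfold wv
  rw [Walk.edges_mapLe_eq_edges]

/-- All vertices of a short walk are equal or adjacent to its start in the power graph. -/
theorem X6a_short {V : Type} {G : SimpleGraph V} {l : ℕ} {x y : V} (w : G.Walk x y) (hw : w.length ≤ l) {z : V}
    (hz : z ∈ w.support) : z = x ∨ (PW G l).Adj x z := by
  classical
  by_cases h : z = x
  · exact Or.inl h
  · refine Or.inr ⟨fun h' => h h'.symm, ?_⟩
    exact ((SimpleGraph.dist_le (w.takeUntil z hz)).trans (w.length_takeUntil_le_length hz)).trans hw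

theorem X6a_expand {V : Type} {G : SimpleGraph V} (hc : G.Connected) {l : ℕ} (hle : G ≤ PW G l) {x y : V}
    (w : (PW G l).Walk x y) : ∃ q : G.Walk x y, wv w + wv q ∈ X6a_S (PW G l) := by
  induction w with
  | nil =>
    refine ⟨Walk.nil, ?_⟩
    have h4 : ∀ x : V, wv (Walk.nil : (PW G l).Walk x x) = 0 := fun x => by simp [wv]
    have h5 : ∀ x : V, wv (Walk.nil : G.Walk x x) = 0 := fun x => by simp [wv]
    rw [h4, h5, add_zero]
    exact Submodule.zero_mem _
  | @cons x x' y hx p ih =>
    obtain ⟨q, hq⟩ := ih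
    obtain ⟨g, hg⟩ := hc.exists_walk_length_eq_dist x x'
    have hgl : g.length ≤ l := by rw [hg]; exact hx.2
    refine ⟨g.append q, ?_⟩
    have h1 : wv (Walk.cons hx (g.reverse.mapLe hle)) ∈ X6a_S (PW G l) := by
      refine X6a_closed x _ ?_
      intro z hz
      rw [Walk.support_cons, List.mem_cons] at hz
      rcases hz with rfl | hz
      · exact Or.inl rfl
      · have hz' : z ∈ g.support := by
          rw [Walk.support_mapLe_eq_support, Walk.support_reverse, List.mem_reverse] at hz
          exact hz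
        exact X6a_short g hgl hz'
    rw [wv_cons, X6a_map, wv_reverse] at h1
    rw [wv_cons, wv_append]
    have h2 := Submodule.add_mem _ h1 hq
    have h3 : (Finsupp.single s(x, x') 1 : EC V) + wv g + (wv p + wv q) =
        Finsupp.single s(x, x') 1 + wv p + (wv g + wv q) := by abel
    rw [h3] at h2
    exact h2

theorem PW_std {V : Type} {G : SimpleGraph V} {d l : ℕ} {F : Finset V} (hS : Std0 G d l F) (hl : 1 ≤ l) : ∃ d', Std0 (PW G l) d' 3 F := by
  have hle : G ≤ PW G l := by
    intro a b hab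
    refine ⟨hab.ne, ?_⟩
    rw [SimpleGraph.dist_eq_one_iff_adj.2 hab]
    exact hl
  have hsub : ∀ v, (PW G l).neighborSet v ⊆ Bl G v l := fun v y hy => hy.2
  have hBf : ∀ v, (Bl G v l).Finite := fun v => Bl_finite hS.conn hS.fin v l
  have hBc : ∀ (φ : G ≃g G) (v : V), (Bl G v l).ncard ≤ (Bl G (φ v) l).ncard := by
    intro φ v
    refine Set.ncard_le_ncard_of_injOn φ ?_ φ.injective.injOn (hBf _)
    intro y hy
    show G.dist (φ v) (φ y) ≤ l
    rw [iso_dist]
    exact hy
  refine ⟨∑ f ∈ F, (Bl G f l).ncard, hS.conn.mono hle, hS.inf, fun v => (hBf v).subset (hsub v), ?_, ?_, ?_⟩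
  · intro v
    obtain ⟨φ, hφ⟩ := hS.qt v
    exact ((Set.ncard_le_ncard (hsub v) (hBf v)).trans (hBc φ v)).trans
      (Finset.single_le_sum (f := fun f => (Bl G f l).ncard) (fun _ _ => Nat.zero_le _) hφ)
  · intro v
    obtain ⟨φ, hφ⟩ := hS.qt v
    refine ⟨⟨φ.toEquiv, ?_⟩, hφ⟩
    intro a b
    show (φ a ≠ φ b ∧ G.dist (φ a) (φ b) ≤ l) ↔ (a ≠ b ∧ G.dist a b ≤ l)
    rw [iso_dist, φ.injective.ne_iff]
  · intro v w
    show wv w ∈ X6a_S (PW G l)
    obtain ⟨q, hq⟩ := X6a_expand hS.conn hle w
    have h1 : Submodule.span (ZMod 2) {c | ∃ (u : V) (w' : G.Walk u u), w'.length ≤ l ∧ c = wv w'} ≤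
        X6a_S (PW G l) := by
      rw [Submodule.span_le]
      rintro c ⟨u, w', hw', rfl⟩
      show wv w' ∈ X6a_S (PW G l)
      rw [← X6a_map hle w']
      refine X6a_closed u _ ?_
      intro z hz
      rw [Walk.support_mapLe_eq_support] at hz
      exact X6a_short w' hw' hz
    have h2 := Submodule.add_mem _ hq (h1 (hS.cyc v q))
    rw [add_assoc, X6a_add, add_zero] at h2
    exact h2

end QPl
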