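import Pool.Agent.Lib.MP_d3a5e5_co.S3
import Pool.Agent.Lib.MP_d3a5e5_co.R1
import Pool.Agent.Lib.MP_d3a5e5_co.Q3

set_option autoImplicit false

namespace QPl

open Finsupp SimpleGraph

theorem main_thm {V : Type} (G : SimpleGraph V) (hc : G.Connected) (hf : ∀ v, (G.neighborSet v).Finite)
    (F : Finset V) (hqt : ∀ v, ∃ φ : G ≃g G, φ v ∈ F) (hone : AtMostOneEnd G) (l : ℕ) (hcyc : CycGen G l) (hk : ∃ k, DrawK G k) :
    QIPlanar G := by
  classical
  obtain ⟨k, hk⟩ := hk
  rcases finite_or_infinite V with hV | hV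
  · have hbdd : BddAbove (Set.range (fun p : V × V => G.dist p.1 p.2)) :=
      (Set.finite_range _).bddAbove
    obtain ⟨D, hD⟩ := hbdd
    have hD' : ∀ x y : V, G.dist x y ≤ D := fun x y => hD ⟨(x, y), rfl⟩
    obtain ⟨v0⟩ := hc.nonempty
    have hsub : ∀ x y : Unit, (⊥ : SimpleGraph Unit).dist x y = 0 := by
      intro x y
      exact SimpleGraph.dist_self
    refine ⟨Unit, ⊥, ?_, ?_, ?_⟩
    · have _ : Nonempty Unit := ⟨()⟩
      exact SimpleGraph.Connected.mk (fun u v => SimpleGraph.Reachable.refl u)
    · refine ⟨fun _ => (0, 0), fun _ _ _ => rfl, fun _ _ => ContinuousMap.const _ (0, 0), ?_, ?_⟩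
      · intro u v huv
        exact absurd huv (by simp)
      · intro u v huv
        exact absurd huv (by simp)
    · refine ⟨fun _ => (), 1, (D : ℝ), le_refl _, Nat.cast_nonneg _, ?_, ?_⟩
      · intro x y
        rw [hsub]
        have h1 : (G.dist x y : ℝ) ≤ D := by exact_mod_cast hD' x y
        have h2 : (0 : ℝ) ≤ (G.dist x y : ℝ) := Nat.cast_nonneg _
        have h3 : (0 : ℝ) ≤ (D : ℝ) := Nat.cast_nonneg _
        refine ⟨?_, ?_⟩
        · rw [div_one, Nat.cast_zero]
          linarith
        · rw [Nat.cast_zero]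
          linarith
      · intro w
        refine ⟨v0, ?_⟩
        rw [hsub, Nat.cast_zero]
        exact Nat.cast_nonneg _
  · set d : ℕ := F.sup (fun v => (G.neighborSet v).ncard) with hdd
    have hd : ∀ v, (G.neighborSet v).ncard ≤ d := by
      intro v
      obtain ⟨φ, hφ⟩ := hqt v
      have h1 : G.neighborSet (φ v) = φ '' G.neighborSet v := by
        ext w
        constructor
        · intro hw
          refine ⟨φ.symm w, ?_, by simp⟩
          have h2 : G.Adj (φ v) (φ (φ.symm w)) := by
            rw [RelIso.apply_symm_apply]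
            exact hw
          exact φ.map_adj_iff.mp h2
        · rintro ⟨x, hx, rfl⟩
          exact φ.map_adj_iff.mpr hx
      have h3 : (G.neighborSet (φ v)).ncard = (G.neighborSet v).ncard := by
        rw [h1]
        exact Set.ncard_image_of_injective _ φ.injective
      rw [← h3]
      exact Finset.le_sup (f := fun v => (G.neighborSet v).ncard) hφ
    have hS : Std G d l F := ⟨hc, hV, hf, hd, hqt, hone, hcyc⟩
    exact QIPlanar_of_twoPage (core hS (Om_nonempty (fun B => rep_of_draw hf hd hk B)))

end QPl
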