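import Pool.Agent.Lib.MP_d3a5e5_co.X5e
import Pool.Agent.Lib.MP_d3a5e5_co.X6a
import Pool.Agent.Lib.MP_d3a5e5_co.X2c
import Pool.Agent.Lib.MP_d3a5e5_co.Z1
import Pool.Agent.Lib.MP_d3a5e5_co.L2

set_option autoImplicit false

namespace QPl

open Finsupp SimpleGraph

theorem X7_twoPage {W : Type} [Countable W] {H : SimpleGraph W} (h : TP0 H) : TwoPage H := by
  classical
  obtain ⟨R, page, irr, trans, tot, ps, nc⟩ := h
  let lo : LinearOrder W :=
    { le := fun a b => a = b ∨ R a b
      lt := R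
      le_refl := fun a => Or.inl rfl
      le_trans := by
        rintro a b c (rfl | h1) (rfl | h2)
        · exact Or.inl rfl
        · exact Or.inr h2
        · exact Or.inr h1
        · exact Or.inr (trans _ _ _ h1 h2)
      le_antisymm := by
        rintro a b (h1 | h1) (h2 | h2)
        · exact h1
        · exact h1
        · exact h2.symm
        · exact absurd (trans _ _ _ h1 h2) (irr _)
      le_total := by
        intro a b
        by_cases hab : a = b
        · exact Or.inl (Or.inl hab)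
        · rcases tot a b hab with h | h
          · exact Or.inl (Or.inr h)
          · exact Or.inr (Or.inr h)
      lt_iff_le_not_ge := by
        intro a b
        constructor
        · intro h
          refine ⟨Or.inr h, ?_⟩
          rintro (h2 | h2)
          · subst h2
            exact irr _ h
          · exact irr _ (trans _ _ _ h h2)
        · rintro ⟨h | h, h2⟩
          · exact absurd (Or.inl h.symm) h2
          · exact h
      toDecidableLE := Classical.decRel _ }
  obtain ⟨e⟩ := @Order.embedding_from_countable_to_dense W ℝ lo _ _ _ _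
  refine ⟨e, page, e.injective, ps, ?_⟩
  have key : ∀ a b : W, e a < e b → R a b := by
    intro a b h
    exact (@OrderEmbedding.lt_iff_lt _ _ lo.toPreorder _ e a b).1 h
  intro a b c d h1 h2 h3 h4 h5 h6
  exact nc a b c d h1 h2 h3 (key _ _ h4) (key _ _ h5) (key _ _ h6)

theorem QIPlanar_of_QITP {V : Type} {G : SimpleGraph V} {C : ℕ} (h : QITP C G) : QIPlanar G := by
  obtain ⟨W, H, φ, hW, hH, hTP, h1, h2, h3⟩ := h
  have hC : (0 : ℝ) ≤ (C : ℝ) := Nat.cast_nonneg _
  refine QIPlanar_of_twoPage ⟨W, H, hW, hH, X7_twoPage hTP, φ, (C : ℝ) + 1, (C : ℝ) + 1, by linarith, by linarith, ?_, ?_⟩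
  · intro x y
    have e1 : (H.dist (φ x) (φ y) : ℝ) ≤ C * (G.dist x y : ℝ) + C := by exact_mod_cast h1 x y
    have e2 : (G.dist x y : ℝ) ≤ C * (H.dist (φ x) (φ y) : ℝ) + C := by exact_mod_cast h2 x y
    have p1 : (0 : ℝ) ≤ (G.dist x y : ℝ) := Nat.cast_nonneg _
    have p2 : (0 : ℝ) ≤ (H.dist (φ x) (φ y) : ℝ) := Nat.cast_nonneg _
    refine ⟨?_, by nlinarith⟩
    rw [sub_le_iff_le_add, div_le_iff₀ (by linarith)]
    nlinarith [mul_nonneg hC hC, mul_nonneg hC p2]
  · intro w
    obtain ⟨x, hx⟩ := h3 w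
    refine ⟨x, ?_⟩
    have e1 : (H.dist w (φ x) : ℝ) ≤ C := by exact_mod_cast hx
    linarith

theorem X7_dist {V : Type} {G : SimpleGraph V} (hc : G.Connected) (φ : G ≃g G) (u v : V) :
    G.dist (φ u) (φ v) = G.dist u v := by
  apply le_antisymm (D2_aux3 hc φ u v)
  have h := D2_aux3 hc φ.symm (φ u) (φ v)
  simpa using h

theorem X7_ball {V : Type} {G : SimpleGraph V} (hc : G.Connected) (hf : ∀ v, (G.neighborSet v).Finite) (F : Finset V)
    (hqt : ∀ v, ∃ φ : G ≃g G, φ v ∈ F) (R : ℕ) : ∃ A : ℕ, ∀ x, (Bl G x R).Finite ∧ (Bl G x R).ncard ≤ A := by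
  classical
  refine ⟨F.sup (fun v => (Bl G v R).ncard), fun x => ⟨Bl_finite hc hf x R, ?_⟩⟩
  obtain ⟨φ, hφ⟩ := hqt x
  have h1 : Bl G (φ x) R = φ '' Bl G x R := by
    ext w
    constructor
    · intro hw
      refine ⟨φ.symm w, ?_, by simp⟩
      have h2 : G.dist (φ x) (φ (φ.symm w)) ≤ R := by
        rw [RelIso.apply_symm_apply]
        exact hw
      rw [X7_dist hc] at h2
      exact h2
    · rintro ⟨y, hy, rfl⟩
      show G.dist (φ x) (φ y) ≤ R
      rw [X7_dist hc]
      exact hy
  have h3 : (Bl G (φ x) R).ncard = (Bl G x R).ncard := by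
    rw [h1]
    exact Set.ncard_image_of_injective _ φ.injective
  rw [← h3]
  exact Finset.le_sup (f := fun v => (Bl G v R).ncard) hφ

theorem X7_pw {V : Type} {G : SimpleGraph V} (hc : G.Connected) {l C : ℕ} (hl : 1 ≤ l) (h : QITP C (PW G l)) :
    QITP (l * C) G := by
  obtain ⟨W, H, φ, hW, hH, hTP, h1, h2, h3⟩ := h
  have hC : C ≤ l * C := Nat.le_mul_of_pos_left _ hl
  refine ⟨W, H, φ, hW, hH, hTP, ?_, ?_, ?_⟩
  · intro x y
    calc H.dist (φ x) (φ y) ≤ C * (PW G l).dist x y + C := h1 x y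
      _ ≤ C * G.dist x y + C := Nat.add_le_add_right (Nat.mul_le_mul_left _ (PW_dist hc hl x y).1) _
      _ ≤ l * C * G.dist x y + l * C := Nat.add_le_add (Nat.mul_le_mul_right _ hC) hC
  · intro x y
    calc G.dist x y ≤ l * (PW G l).dist x y := (PW_dist hc hl x y).2
      _ ≤ l * (C * H.dist (φ x) (φ y) + C) := Nat.mul_le_mul_left _ (h2 x y)
      _ = l * C * H.dist (φ x) (φ y) + l * C := by ring
  · intro w
    obtain ⟨x, hx⟩ := h3 w
    exact ⟨x, hx.trans hC⟩

theorem X7_cyc {V : Type} {G : SimpleGraph V} {l l' : ℕ} (hl : l ≤ l') (h : CycGen G l) : CycGen G l' := by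
  intro v w
  refine Submodule.span_mono ?_ (h v w)
  rintro c ⟨u, w', hw', rfl⟩
  exact ⟨u, w', hw'.trans hl, rfl⟩

theorem main_thm2 {V : Type} (G : SimpleGraph V) (hc : G.Connected) (hf : ∀ v, (G.neighborSet v).Finite)
    (F : Finset V) (hqt : ∀ v, ∃ φ : G ≃g G, φ v ∈ F) (l : ℕ) (hcyc : CycGen G l) (hk : ∃ k, DrawK G k) :
    QIPlanar G := by
  classical
  rcases finite_or_infinite V with hV | hV
  · exact main_thm G hc hf F hqt (fun C _ => Or.inl (Set.toFinite C)) l hcyc hk
  · obtain ⟨k, hk⟩ := hk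
    set d : ℕ := F.sup (fun v => (G.neighborSet v).ncard) with hdd
    have hd : ∀ v, (G.neighborSet v).ncard ≤ d := by
      intro v
      obtain ⟨φ, hφ⟩ := hqt v
      have h1 : G.neighborSet (φ v) = φ '' G.neighborSet v := by
        ext w
        constructor
        · intro hw
          refine ⟨φ.symm w, ?_, by simp⟩
          have h2 : G.Adj (φ v) (φ (φ.symm w)) := by
            rw [RelIso.apply_symm_apply]
            exact hw
          exact φ.map_adj_iff.mp h2
        · rintro ⟨x, hx, rfl⟩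
          exact φ.map_adj_iff.mpr hx
      have h3 : (G.neighborSet (φ v)).ncard = (G.neighborSet v).ncard := by
        rw [h1]
        exact Set.ncard_image_of_injective _ φ.injective
      rw [← h3]
      exact Finset.le_sup (f := fun v => (G.neighborSet v).ncard) hφ
    have hl1 : 1 ≤ max l 1 := le_max_right _ _
    have hS : Std0 G d (max l 1) F := ⟨hc, hV, hf, hd, hqt, X7_cyc (le_max_left _ _) hcyc⟩
    obtain ⟨d', hP⟩ := PW_std hS hl1
    have hOm : (Om G (k + 2 * d + 1)).Nonempty := Om_nonempty (fun B => rep_of_draw hf hd hk B)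
    obtain ⟨A, hA⟩ := X7_ball hc hf F hqt (max l 1)
    have hOm' := Om_transfer (G := G) (G' := PW G (max l 1)) (fun x => x) (fun _ _ h => h) (k + 2 * d + 1) (max l 1) A
      (fun u v huv => by
        obtain ⟨w, hw⟩ := hc.exists_walk_length_eq_dist u v
        exact ⟨w, hw.trans_le huv.2⟩) hA hc hOm
    obtain ⟨C, hC⟩ := QITP_tri hP hOm'
    exact QIPlanar_of_QITP (X7_pw hc hl1 hC)

end QPl
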